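import Pool.Agent.Lib.MP_e0c1ed_co.Benson

/-!
# Point-transitive groups of extremal trilateral-free configurations
-/

set_option autoImplicit false

namespace Pool.Agent.Lib.MP_e0c1ed_co

open Pool.Agent.Results.MP_e0c1ed_co.SelfDualSquare

/-- fixed points of a map of prime order -/
theorem fn_modEq {α : Type*} [Finite α] (F : α → α) (q : ℕ) [Fact q.Prime] (hF : ∀ x, F^[q] x = x) :
    Nat.card α ≡ Nat.card {x // F x = x} [MOD q] := by
  classical
  have : Fintype α := Fintype.ofFinite α
  let f : Function.End α := F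
  have h1 : ∀ j : ℕ, ∀ x, (f ^ j) x = F^[j] x := by
    intro j
    induction j with
    | zero => intro x; rfl
    | succ j ih =>
      intro x
      rw [pow_succ', Function.iterate_succ_apply']
      change F ((f ^ j) x) = _
      rw [ih]
  have h2 : f ^ q ^ 1 = 1 := by
    funext x
    rw [pow_one, h1, hF]
    rfl
  have h3 := Equiv.Perm.card_fixedPoints_modEq (f := f) (p := q) (n := 1) h2
  rw [Nat.card_eq_fintype_card]
  refine h3.trans ?_
  rw [← Nat.card_eq_fintype_card]
  rfl

theorem set_modEq {G α : Type*} [Group G] [MulAction G α] [Finite α] (g : G) (q : ℕ) [Fact q.Prime]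
    (hg : g ^ q = 1) (S : Set α) (hS : ∀ x ∈ S, g • x ∈ S) :
    S.ncard ≡ {x ∈ S | g • x = x}.ncard [MOD q] := by
  classical
  have h0 : ∀ j : ℕ, ∀ x : S, ((fun y : S => (⟨g • y.1, hS y.1 y.2⟩ : S))^[j] x).1 = g ^ j • x.1 := by
    intro j
    induction j with
    | zero => intro x; simp
    | succ j ih =>
      intro x
      rw [Function.iterate_succ_apply', pow_succ', mul_smul, ← ih]
  have h1 := fn_modEq (fun y : S => (⟨g • y.1, hS y.1 y.2⟩ : S)) q (fun x => Subtype.ext (by
    rw [h0, hg, one_smul]))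
  rw [← Nat.card_coe_set_eq, ← Nat.card_coe_set_eq]
  refine h1.trans ?_
  rw [Nat.card_congr (?_ : {x : S // (⟨g • x.1, hS x.1 x.2⟩ : S) = x} ≃ {x ∈ S | g • x = x})]
  exact
    { toFun := fun x => ⟨x.1.1, x.1.2, congrArg Subtype.val x.2⟩
      invFun := fun x => ⟨⟨x.1, x.2.1⟩, Subtype.ext x.2.2⟩
      left_inv := fun x => rfl
      right_inv := fun x => rfl }

/-- `F` a subset of `S` with `k ≤ q` elements, `1 ≤ #F ≡ k` modulo `q`: everything -/
theorem eq_of_modEq {α : Type*} [Finite α] (S F : Set α) (hFS : F ⊆ S) (k q : ℕ) (hk : S.ncard = k)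
    (hkq : k ≤ q) (h : S.ncard ≡ F.ncard [MOD q]) (hne : F.Nonempty) : F = S := by
  apply Set.eq_of_subset_of_ncard_le hFS
  have h1 : F.ncard ≤ S.ncard := Set.ncard_le_ncard hFS
  have h2 : 1 ≤ F.ncard := (Set.ncard_pos).2 hne
  by_contra hlt
  push Not at hlt
  have h3 : q ∣ S.ncard - F.ncard := (Nat.modEq_iff_dvd' h1).1 h.symm
  have h4 := Nat.le_of_dvd (by omega) h3
  omega

section

variable {P L : Type*} [Finite P] [Finite L] {I : P → L → Prop} {n k : ℕ}
variable {G : Type*} [Group G] [MulAction G P] [MulAction G L]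

/-- a flag fixed by an element of prime order at least `k`: everything is fixed -/
theorem flag_fixed (hI : IsConfiguration I n k) (hT : TrilateralFree I) (hn : n = k * (k - 1) ^ 2 + k)
    (hk : 2 ≤ k) (hG : ∀ (g : G) (p : P) (l : L), I (g • p) (g • l) ↔ I p l) (q : ℕ) [Fact q.Prime]
    (hkq : k ≤ q) (g : G) (hg : g ^ q = 1) (x : P) (l : L) (hx : g • x = x) (hl : g • l = l)
    (hxl : I x l) (y : P) : g • y = y := by
  have h1 : ∀ (l : L), g • l = l → ∀ x, I x l → g • x = x → ∀ y, I y l → g • y = y := by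
    intro l hl x hxl hx y hyl
    have hS : ∀ p ∈ {p | I p l}, g • p ∈ {p | I p l} := by
      intro p hp
      change I (g • p) l
      rw [← hl, hG]
      exact hp
    have h2 := eq_of_modEq {p | I p l} {p ∈ {p | I p l} | g • p = p} (fun p hp => hp.1) k q
      (hI.card_on_line l) hkq (set_modEq g q hg _ hS) ⟨x, hxl, hx⟩
    have h3 : y ∈ {p ∈ {p | I p l} | g • p = p} := by rw [h2]; exact hyl
    exact h3.2
  have h2 : ∀ (x : P), g • x = x → ∀ l, I x l → g • l = l → ∀ m, I x m → g • m = m := by
    intro x hx l hxl hl m hxm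
    have hS : ∀ p ∈ {p | I x p}, g • p ∈ {p | I x p} := by
      intro p hp
      change I x (g • p)
      rw [← hx, hG]
      exact hp
    have h2 := eq_of_modEq {p | I x p} {p ∈ {p | I x p} | g • p = p} (fun p hp => hp.1) k q
      (hI.card_through_point x) hkq (set_modEq g q hg _ hS) ⟨l, hxl, hl⟩
    have h3 : m ∈ {p ∈ {p | I x p} | g • p = p} := by rw [h2]; exact hxm
    exact h3.2
  by_cases hyl : I y l
  · exact h1 l hl x hxl hx y hyl
  · obtain ⟨m, z, hym, hzm, hzl⟩ := gq_axiom hI hT hn (by omega) y l hyl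
    have hz := h1 l hl x hxl hx z hzl
    have hm := h2 z hz l hzl hl m hzm
    exact h1 m hm z hzm hz y hym

/-- a point fixed by an element of prime order greater than `k`: everything is fixed -/
theorem point_fixed (hI : IsConfiguration I n k) (hT : TrilateralFree I)
    (hn : n = k * (k - 1) ^ 2 + k) (hk : 2 ≤ k)
    (hG : ∀ (g : G) (p : P) (l : L), I (g • p) (g • l) ↔ I p l) (q : ℕ) [Fact q.Prime]
    (hkq : k < q) (g : G) (hg : g ^ q = 1) (x : P) (hx : g • x = x) (y : P) : g • y = y := by
  have hS : ∀ p ∈ {p | I x p}, g • p ∈ {p | I x p} := by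
    intro p hp
    change I x (g • p)
    rw [← hx, hG]
    exact hp
  have h1 := set_modEq g q hg _ hS
  have h2 : {p ∈ {p | I x p} | g • p = p}.Nonempty := by
    by_contra h
    rw [Set.not_nonempty_iff_eq_empty] at h
    rw [h, Set.ncard_empty, hI.card_through_point, Nat.modEq_zero_iff_dvd] at h1
    have := Nat.le_of_dvd (by omega) h1
    omega
  obtain ⟨l, hl1, hl2⟩ := h2
  exact flag_fixed hI hT hn hk hG q hkq.le g hg x l hx hl2 hl1 y

/-- an element of order `k` (prime) has at most `(k-1)^2 + 1` fixed points -/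
theorem fixed_le (hI : IsConfiguration I n k) (hT : TrilateralFree I)
    (hn : n = k * (k - 1) ^ 2 + k) (hk : 2 ≤ k)
    (hG : ∀ (g : G) (p : P) (l : L), I (g • p) (g • l) ↔ I p l) [Fact k.Prime]
    (g : G) (hg : g ^ k = 1) (hne : ∃ y : P, g • y ≠ y) :
    {x : P | g • x = x}.ncard * k ≤ n := by
  classical
  have : Fintype P := Fintype.ofFinite P
  have : Fintype L := Fintype.ofFinite L
  have hcol : ∀ x y : P, ∀ l, g • x = x → g • y = y → I x l → I y l → x = y := by
    intro x y l hx hy hxl hyl
    by_contra hxy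
    have h1 : I x (g • l) := by rw [← hx, hG]; exact hxl
    have h2 : I y (g • l) := by rw [← hy, hG]; exact hyl
    have h3 := hI.unique_line x y (g • l) l hxy h1 h2 hxl hyl
    obtain ⟨z, hz⟩ := hne
    exact hz (flag_fixed hI hT hn hk hG k le_rfl g hg x l hx h3 hxl z)
  have h1 : ∑ x ∈ Finset.univ.filter (fun x : P => g • x = x), ∑ l, inc I x l =
      (({x : P | g • x = x}.ncard * k : ℕ) : ℚ) := by
    rw [Finset.sum_congr rfl (fun x _ => by rw [inc_sum_right, hI.card_through_point]),
      Finset.sum_const, nsmul_eq_mul, Nat.cast_mul]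
    congr 2
    rw [Set.ncard_eq_toFinset_card']
    congr 1
    ext; simp
  have h2 : ∑ x ∈ Finset.univ.filter (fun x : P => g • x = x), ∑ l, inc I x l ≤ (n : ℚ) := by
    calc ∑ x ∈ Finset.univ.filter (fun x : P => g • x = x), ∑ l, inc I x l
        = ∑ l, ∑ x ∈ Finset.univ.filter (fun x : P => g • x = x), inc I x l := Finset.sum_comm
      _ ≤ ∑ _l : L, (1 : ℚ) := by
          apply Finset.sum_le_sum
          intro l _
          by_cases hex : ∃ x : P, g • x = x ∧ I x l
          · obtain ⟨x, hx, hxl⟩ := hex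
            rw [Finset.sum_eq_single x]
            · rw [inc_of I hxl]
            · intro y hy hyx
              by_cases hyl : I y l
              · exact absurd (hcol y x l (Finset.mem_filter.1 hy).2 hx hyl hxl) hyx
              · exact inc_of_not I hyl
            · intro h; exact (h (by simp [hx])).elim
          · rw [Finset.sum_eq_zero]
            · exact zero_le_one
            · intro y hy
              by_cases hyl : I y l
              · exact absurd ⟨y, (Finset.mem_filter.1 hy).2, hyl⟩ hex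
              · exact inc_of_not I hyl
      _ = (n : ℚ) := by
          rw [Finset.sum_const, Finset.card_univ, nsmul_eq_mul, mul_one, ← Nat.card_eq_fintype_card,
            hI.card_lines]
  rw [h1] at h2
  exact_mod_cast h2

/-- Benson's congruence for an element of the group -/
theorem benson_act (hI : IsConfiguration I n k) (hT : TrilateralFree I)
    (hn : n = k * (k - 1) ^ 2 + k) (hk : 2 ≤ k)
    (hG : ∀ (g : G) (p : P) (l : L), I (g • p) (g • l) ↔ I p l) (g : G) :
    ∃ z : ℤ, (k : ℤ) * ({p : P | g • p = p}.ncard : ℤ) +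
      ({p : P | g • p ≠ p ∧ ∃ l, I p l ∧ I (g • p) l}.ncard : ℤ) =
      (k : ℤ) ^ 2 + 2 * ((k : ℤ) - 1) * z :=
  benson hI hT hn hk (MulAction.toPerm g) (MulAction.toPerm g) (fun p l => hG g p l)

omit [Finite P] [Finite L] in
/-- the set of points moved to a collinear point is invariant under commuting elements -/
theorem moved_inv (hG : ∀ (g : G) (p : P) (l : L), I (g • p) (g • l) ↔ I p l) (g h : G)
    (hgh : h * g = g * h) (p : P) (hp : p ∈ {p : P | g • p ≠ p ∧ ∃ l, I p l ∧ I (g • p) l}) :
    h • p ∈ {p : P | g • p ≠ p ∧ ∃ l, I p l ∧ I (g • p) l} := by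
  obtain ⟨h1, l, h2, h3⟩ := hp
  have e : g • h • p = h • g • p := by rw [smul_smul, smul_smul, hgh]
  refine ⟨?_, h • l, ?_, ?_⟩
  · rw [e]
    intro h4
    exact h1 (smul_left_cancel h h4)
  · rw [hG]; exact h2
  · rw [e, hG]; exact h3

end

end Pool.Agent.Lib.MP_e0c1ed_co
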