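import Pool.Agent.Lib.MP_e0c1ed_co.Upper
import Pool.Agent.Lib.MP_e0c1ed_co.TransRad

/-!
# MP_e0c1ed / Ovoid: the orbits of a normal subgroup are not ovoids
-/

set_option autoImplicit false

namespace Pool.Agent.Lib.MP_e0c1ed_co.Ovoid

open Finset Pool.Agent.Results.MP_e0c1ed_co.SelfDualSquare Bens Grp Orb Norm Ub

section
variable {P L G : Type*} [Finite P] [Finite L] [Group G] [Finite G] [MulAction G P] [MulAction G L]
  {I : P → L → Prop} {n k : ℕ}

/-- The orbits of a normal subgroup do not have `(k - 1)² + 1` elements. -/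
theorem no_ovoid (hI : IsConfiguration I n k) (hT : TrilateralFree I) (hn : n = k * (k - 1) ^ 2 + k)
    (hk : k % 2 = 1) (hk3 : 3 ≤ k) (hG : ∀ (g : G) (p : P) (l : L), I (g • p) (g • l) ↔ I p l)
    (ht : ∀ p q : P, ∃ g : G, g • p = q) (N : Subgroup G) [N.Normal] (x : P) :
    (MulAction.orbit N x).ncard ≠ (k - 1) ^ 2 + 1 := by
  classical
  have : Fintype P := Fintype.ofFinite P
  have : Fintype L := Fintype.ofFinite L
  have : Fintype N := Fintype.ofFinite N
  intro hm0
  obtain ⟨σ, m, c, a, r, hσ, hm, hcard, hm1, hc, hr, hkey, ha, hsum⟩ := orbit_data hI hT hn (by omega)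
    (fun g p l h => (hG g p l).2 h) ht N x
  rw [hm0] at hm
  -- no collinear points in an orbit
  have hc0 : c = 0 := by
    have h1 := Upper.mod_eq k n m c a r hk hk3 hn hkey hr hm1
    have h2 := Upper.upper_arith k n m c a r hk hk3 hn hkey hr hm1 ha
    obtain ⟨t, rfl⟩ : ∃ t, k = 2 * t + 1 := ⟨k / 2, by omega⟩
    have h3 : 2 * t + 1 - 1 = 2 * t := by omega
    rw [h3] at hm h1 h2
    have h4 : m - 1 = 2 * (2 * t) * t := by
      rw [hm, Nat.add_sub_cancel]; ring
    rw [h4, Nat.mul_mod_right] at h1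
    have h5 : c < 2 * (2 * t) := by
      by_contra h
      have h6 : 2 * (2 * t) ≤ c := by omega
      have h7 : 2 * (2 * t) * (2 * t + 1) ≤ c * (2 * t + 1) := Nat.mul_le_mul_right _ h6
      have h8 : 1 ≤ (2 * t) ^ 2 := Nat.one_le_pow _ _ (by omega)
      have h9 : c * (2 * t + 1) + 1 ≤ 2 * (2 * t) ^ 2 + 1 := by omega
      nlinarith
    rw [Nat.mod_eq_of_lt h5] at h1
    exact h1.symm
  subst hc0
  have hn0 : 0 < n := by rw [hn]; omega
  have hcardP : Fintype.card P = n := by rw [← Nat.card_eq_fintype_card, hI.card_points]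
  -- every point has a stabilizer of order `σ`
  have hst : ∀ y : P, (univ.filter fun b : N => b • y = y).card = σ := by
    intro y
    obtain ⟨σ', m', c', a', r', hσ', hm', hcard', hm1', -⟩ := orbit_data hI hT hn (by omega)
      (fun g p l h => (hG g p l).2 h) ht N y
    rw [← hσ']
    have h1 : m' = m := by rw [hm', hm, ← hm0]; exact Norm.orbit_ncard ht N y x
    rw [h1] at hcard'
    have h2 : σ' * m = σ * m := by rw [← hcard', ← hcard]
    exact Nat.eq_of_mul_eq_mul_right hm1 h2
  have hS0 : ∀ y z : P, (0 : ℚ) ≤ S I y z := by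
    intro y z
    unfold S
    refine Finset.sum_nonneg fun l _ => mul_nonneg ?_ ?_ <;> · unfold inc; split_ifs <;> norm_num
  have hle : ∀ b : N, ∀ y : P, (if b • y = y then (k : ℚ) else 0) ≤ S I y (b • y) := by
    intro b y
    split_ifs with h
    · rw [h, S_self hI]
    · exact hS0 _ _
  have hfs : ∑ b : N, ∑ y : P, (if b • y = y then (k : ℚ) else 0) = n * (σ * k) := by
    rw [Finset.sum_comm]
    have h1 : ∀ y : P, ∑ b : N, (if b • y = y then (k : ℚ) else 0) = σ * k := by
      intro y
      rw [← Finset.sum_filter, Finset.sum_const, hst, nsmul_eq_mul]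
    rw [Finset.sum_congr rfl (fun y _ => h1 y), Finset.sum_const, Finset.card_univ, hcardP, nsmul_eq_mul]
  have hnc : ∀ b : N, ∀ y : P, b • y ≠ y → ¬ ∃ l, I y l ∧ I (b • y) l := by
    intro b y hby hcol
    obtain ⟨l, h1, h2⟩ := hcol
    have h3 : ∑ b : N, ∑ y : P, (if b • y = y then (k : ℚ) else 0) < ∑ b : N, ∑ y, S I y (b • y) := by
      apply Finset.sum_lt_sum (fun b _ => Finset.sum_le_sum fun y _ => hle b y)
      refine ⟨b, Finset.mem_univ _, Finset.sum_lt_sum (fun y _ => hle b y) ⟨y, Finset.mem_univ _, ?_⟩⟩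
      rw [if_neg hby, S_col hI hby.symm h1 h2]
      exact one_pos
    rw [hfs, hsum] at h3
    push_cast at h3
    rw [add_zero] at h3
    exact lt_irrefl _ h3
  -- Benson
  have hf : ∀ b : N, k ≤ (univ.filter fun y : P => b • y = y).card := by
    intro b
    obtain ⟨z, hz⟩ := benson_act hI hT hn (by omega) hG (b : G)
    have h1 : {p : P | (b : G) • p ≠ p ∧ ∃ l, I p l ∧ I ((b : G) • p) l} = ∅ := by
      ext y
      simp only [Set.mem_ofPred_eq, Set.mem_empty_iff_false, iff_false]
      rintro ⟨h2, h3⟩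
      exact hnc b y h2 h3
    have h2 : {p : P | (b : G) • p = p}.ncard = (univ.filter fun y : P => b • y = y).card := by
      rw [← Set.ncard_coe_finset]
      congr 1
      ext y
      simp only [Set.mem_ofPred_eq, coe_filter, mem_univ, true_and]
      exact Iff.rfl
    rw [h1, h2, Set.ncard_empty] at hz
    generalize (univ.filter fun y : P => b • y = y).card = f at hz ⊢
    obtain ⟨t, rfl⟩ : ∃ t, k = 2 * t + 1 := ⟨k / 2, by omega⟩
    push_cast at hz
    -- `(2t+1) f = (2t+1)² + 4 t z`
    have h3 : (2 * (t : ℤ) + 1) ∣ z := by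
      refine ⟨z - t * (2 * z - f + (2 * t + 1)), ?_⟩
      linear_combination (-(t : ℤ)) * hz
    obtain ⟨v, rfl⟩ := h3
    have h4 : (f : ℤ) = (2 * t + 1) + 4 * t * v := by
      have h5 : (2 * (t : ℤ) + 1) * f = (2 * t + 1) * ((2 * t + 1) + 4 * t * v) := by linear_combination hz
      exact mul_left_cancel₀ (by omega) h5
    have h5 : 0 ≤ v := by
      by_contra h
      have h6 : v ≤ -1 := by omega
      have h7 : (f : ℤ) < 0 := by
        rw [h4]
        have : (1 : ℤ) ≤ t := by omega
        nlinarith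
      omega
    have h6 : (2 * (t : ℤ) + 1) ≤ f := by
      rw [h4]
      have : (0 : ℤ) ≤ 4 * t * v := by positivity
      omega
    exact_mod_cast h6
  have h1 : (univ.filter fun y : P => (1 : N) • y = y).card = n := by
    rw [← hcardP, Finset.filter_true_of_mem (fun y _ => one_smul _ y), Finset.card_univ]
  have h2 : ∑ b : N, (univ.filter fun y : P => b • y = y).card = n * σ := by
    have h3 : ∀ b : N, (univ.filter fun y : P => b • y = y).card = ∑ y : P, if b • y = y then 1 else 0 := by
      intro b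
      rw [Finset.card_filter]
    rw [Finset.sum_congr rfl (fun b _ => h3 b), Finset.sum_comm]
    have h4 : ∀ y : P, ∑ b : N, (if b • y = y then 1 else 0) = σ := by
      intro y
      rw [← Finset.card_filter, hst]
    rw [Finset.sum_congr rfl (fun y _ => h4 y), Finset.sum_const, Finset.card_univ, hcardP, smul_eq_mul]
  have hnm : n = k * m := by rw [hn, hm]; ring
  have h3 : ∑ _b : N, k < ∑ b : N, (univ.filter fun y : P => b • y = y).card := by
    apply Finset.sum_lt_sum (fun b _ => hf b)
    refine ⟨1, Finset.mem_univ _, ?_⟩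
    rw [h1, hnm]
    have : 1 < m := by
      rw [hm]
      have : 1 ≤ (k - 1) ^ 2 := Nat.one_le_pow _ _ (by omega)
      omega
    exact lt_mul_of_one_lt_right (by omega) this
  rw [h2, Finset.sum_const, Finset.card_univ, hcard, smul_eq_mul, hnm] at h3
  have h4 : σ * m * k = k * m * σ := by ring
  omega

end

end Pool.Agent.Lib.MP_e0c1ed_co.Ovoid
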