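import Pool.Agent.Lib.MP_e0c1ed_co.Main
import Pool.Agent.Lib.MP_e0c1ed_co.Ovoid
import Pool.Agent.Lib.MP_e0c1ed_co.TransRad

/-!
# MP_e0c1ed / AS3: point transitive groups are almost simple if `(k - 1)² + 1` is a prime
-/

set_option autoImplicit false

namespace Pool.Agent.Lib.MP_e0c1ed_co.AS3

open Pool.Agent.Results.MP_e0c1ed_co.SelfDualSquare

theorem card_sup {X : Type*} [Group X] [Finite X] (H K : Subgroup X) [K.Normal] :
    Nat.card (H ⊔ K : Subgroup X) * Nat.card (H ⊓ K : Subgroup X) = Nat.card H * Nat.card K := by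
  have h1 : K.relIndex (H ⊔ K) = K.relIndex H := Subgroup.relIndex_sup_right H K
  have h2 : Nat.card K * K.relIndex (H ⊔ K) = Nat.card (H ⊔ K : Subgroup X) := by
    rw [← Subgroup.relIndex_bot_left, ← Subgroup.relIndex_bot_left]
    exact Subgroup.relIndex_mul_relIndex ⊥ K (H ⊔ K) bot_le le_sup_right
  have h3 : Nat.card (H ⊓ K : Subgroup X) * K.relIndex H = Nat.card H := by
    rw [← Subgroup.relIndex_bot_left, ← Subgroup.relIndex_bot_left, ← Subgroup.inf_relIndex_left H K]
    exact Subgroup.relIndex_mul_relIndex ⊥ (H ⊓ K) H bot_le inf_le_left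
  rw [← h2, ← h3, h1]
  ring

/-- order divisible by `q` exactly once, no proper nontrivial normal subgroup invariant under `S`: simple -/
theorem simple_of_inv {X : Type*} [Group X] [Finite X] (q : ℕ) (hq : q.Prime) (h1 : q ∣ Nat.card X)
    (h2 : ¬ q ^ 2 ∣ Nat.card X) (S : Set (X ≃* X))
    (hS : ∀ M : Subgroup X, M.Normal → (∀ φ ∈ S, M.map φ.toMonoidHom ≤ M) → M = ⊥ ∨ M = ⊤) :
    IsSimpleGroup X := by
  classical
  have hmapc : ∀ (M : Subgroup X) (φ : X ≃* X), Nat.card (M.map φ.toMonoidHom) = Nat.card M := fun M φ =>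
    (Nat.card_congr (M.equivMapOfInjective φ.toMonoidHom φ.injective).toEquiv).symm
  have hmapn : ∀ (M : Subgroup X) (φ : X ≃* X), M.Normal → (M.map φ.toMonoidHom).Normal := fun M φ h =>
    h.map _ φ.surjective
  -- every nontrivial normal subgroup has order divisible by `q`
  have hdiv : ∀ M : Subgroup X, M.Normal → M ≠ ⊥ → q ∣ Nat.card M := by
    intro M hM hne
    by_contra hcon
    obtain ⟨M', ⟨a1, a2⟩, a3⟩ := WellFounded.has_min (α := Subgroup X) (r := (· > ·)) wellFounded_gt
      {M | M.Normal ∧ ¬ q ∣ Nat.card M} ⟨M, hM, hcon⟩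
    have hsup : ∀ K : Subgroup X, K.Normal → ¬ q ∣ Nat.card K → K ≤ M' := by
      intro K hK hqK
      by_contra hle
      have h3 : M' < M' ⊔ K := lt_of_le_of_ne le_sup_left (fun h => hle (by rw [h]; exact le_sup_right))
      refine a3 (M' ⊔ K) ⟨Subgroup.sup_normal M' K, ?_⟩ h3
      intro h4
      have h5 : q ∣ Nat.card M' * Nat.card K := by
        rw [← card_sup M' K]
        exact h4.mul_right _
      rcases (Nat.Prime.dvd_mul hq).1 h5 with h6 | h6
      · exact a2 h6
      · exact hqK h6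
    have h3 := hS M' a1 (fun φ _ => hsup _ (hmapn M' φ a1) (by rw [hmapc]; exact a2))
    rcases h3 with h3 | h3
    · exact hne (le_bot_iff.1 (h3 ▸ hsup M hM hcon))
    · rw [h3, Subgroup.card_top] at a2
      exact a2 h1
  -- two nontrivial normal subgroups meet
  have hmeet : ∀ M K : Subgroup X, M.Normal → K.Normal → M ≠ ⊥ → K ≠ ⊥ → M ⊓ K ≠ ⊥ := by
    intro M K hM hK hM' hK' h
    have h3 := card_sup M K
    rw [h, Subgroup.card_bot, mul_one] at h3
    apply h2
    rw [pow_two]
    exact (mul_dvd_mul (hdiv M hM hM') (hdiv K hK hK')).trans (h3 ▸ Subgroup.card_subgroup_dvd_card _)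
  have hnt : Nontrivial X := by
    by_contra h
    rw [not_nontrivial_iff_subsingleton] at h
    have := Nat.card_of_subsingleton (1 : X)
    rw [this] at h1
    exact hq.one_lt.ne' (Nat.dvd_one.1 h1)
  have htop : (⊤ : Subgroup X) ≠ ⊥ := top_ne_bot
  obtain ⟨M0, ⟨b1, b2⟩, b3⟩ := WellFounded.has_min (α := Subgroup X) (r := (· < ·)) wellFounded_lt
    {M | M.Normal ∧ M ≠ ⊥} ⟨⊤, inferInstance, htop⟩
  have hle : ∀ K : Subgroup X, K.Normal → K ≠ ⊥ → M0 ≤ K := by
    intro K hK hK'
    by_contra hcon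
    have h3 : M0 ⊓ K < M0 := lt_of_le_of_ne inf_le_left (fun h => hcon (inf_eq_left.1 h))
    exact b3 _ ⟨Subgroup.normal_inf_normal M0 K, hmeet M0 K b1 hK b2 hK'⟩ h3
  have hM0 : M0 = ⊤ := by
    refine (hS M0 b1 (fun φ _ => ?_)).resolve_left b2
    have h3 : M0 ≤ M0.map φ.toMonoidHom := hle _ (hmapn M0 φ b1) (fun h =>
      b2 ((Subgroup.map_eq_bot_iff_of_injective _ φ.injective).1 h))
    exact (Subgroup.eq_of_le_of_card_ge h3 (hmapc M0 φ).le).ge
  refine { exists_pair_ne := hnt.exists_pair_ne, eq_bot_or_eq_top_of_normal := ?_ }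
  intro K hK
  by_cases h : K = ⊥
  · exact Or.inl h
  · exact Or.inr (top_le_iff.1 (hM0 ▸ hle K hK h))

/-- **The group theory.** -/
theorem almost_simple {G : Type*} [Group G] [Finite G] [Nontrivial G] (q : ℕ) (hq : q.Prime)
    (h2 : ¬ q ^ 2 ∣ Nat.card G)
    (hN : ∀ N : Subgroup G, N.Normal → N ≠ ⊥ → q ∣ Nat.card N ∧ Nat.card N ≠ q) :
    ∃ T : Subgroup G, T.Normal ∧ IsSimpleGroup T ∧ (∃ a b : T, a * b ≠ b * a) ∧
      Subgroup.centralizer (T : Set G) = ⊥ := by
  classical
  obtain ⟨N, ⟨hN1, hN2⟩, hNmin⟩ := WellFounded.has_min (α := Subgroup G) (r := (· < ·)) wellFounded_lt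
    {N | N.Normal ∧ N ≠ ⊥} ⟨⊤, inferInstance, top_ne_bot⟩
  have hsimp : IsSimpleGroup N := by
    refine simple_of_inv q hq (hN N hN1 hN2).1 (fun h => h2 (h.trans (Subgroup.card_subgroup_dvd_card N)))
      (Set.range fun g : G => (MulAut.conjNormal g : MulAut N)) ?_
    intro M hM hinv
    by_cases hMb : M = ⊥
    · exact Or.inl hMb
    right
    have h3 : (M.map N.subtype).Normal := by
      constructor
      rintro _ ⟨a, ha, rfl⟩ g
      have h4 := hinv _ ⟨g, rfl⟩ ⟨a, ha, rfl⟩
      refine ⟨_, h4, ?_⟩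
      exact MulAut.conjNormal_apply g a
    have h4 : M.map N.subtype ≠ ⊥ := fun h =>
      hMb ((Subgroup.map_eq_bot_iff_of_injective _ N.subtype_injective).1 h)
    have h5 : M.map N.subtype ≤ N := by
      rintro _ ⟨a, ha, rfl⟩
      exact a.2
    have h6 : M.map N.subtype = N := by
      by_contra h
      exact hNmin _ ⟨h3, h4⟩ (lt_of_le_of_ne h5 h)
    rw [eq_top_iff]
    intro a _
    have h7 : (a : G) ∈ M.map N.subtype := by rw [h6]; exact a.2
    obtain ⟨b, hb, hba⟩ := h7
    have : b = a := Subtype.ext hba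
    rwa [← this]
  have hnc : ∃ a b : N, a * b ≠ b * a := by
    by_contra hcon
    push Not at hcon
    have := Fact.mk hq
    obtain ⟨g, hg⟩ := exists_prime_orderOf_dvd_card' (G := N) q (hN N hN1 hN2).1
    have h3 : (Subgroup.zpowers g).Normal := by
      constructor
      intro a ha b
      rw [hcon b a, mul_inv_cancel_right]
      exact ha
    have h4 := hsimp.eq_bot_or_eq_top_of_normal _ h3
    have h5 : Nat.card (Subgroup.zpowers g) = q := by rw [Nat.card_zpowers, hg]
    rcases h4 with h4 | h4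
    · rw [h4, Subgroup.card_bot] at h5
      exact hq.one_lt.ne h5
    · rw [h4, Subgroup.card_top] at h5
      exact (hN N hN1 hN2).2 h5
  refine ⟨N, hN1, hsimp, hnc, ?_⟩
  by_contra hC
  have hCn : (Subgroup.centralizer (N : Set G)).Normal := Subgroup.normal_centralizer
  have h3 : N ⊓ Subgroup.centralizer (N : Set G) = ⊥ := by
    by_contra h
    have h4 : N ⊓ Subgroup.centralizer (N : Set G) = N := by
      by_contra h5
      exact hNmin _ ⟨Subgroup.normal_inf_normal _ _, h⟩ (lt_of_le_of_ne inf_le_left h5)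
    obtain ⟨a, b, hab⟩ := hnc
    apply hab
    have h5 : (a : G) ∈ N ⊓ Subgroup.centralizer (N : Set G) := by rw [h4]; exact a.2
    have h6 := (Subgroup.mem_centralizer_iff.1 h5.2) b b.2
    exact Subtype.ext h6.symm
  have h4 := card_sup N (Subgroup.centralizer (N : Set G))
  rw [h3, Subgroup.card_bot, mul_one] at h4
  apply h2
  rw [pow_two]
  exact (mul_dvd_mul (hN N hN1 hN2).1 (hN _ hCn hC).1).trans (h4 ▸ Subgroup.card_subgroup_dvd_card _)

section
variable {P L G : Type*} [Finite P] [Finite L] [Group G] [Finite G] [MulAction G P] [MulAction G L]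
  {I : P → L → Prop} {n k : ℕ}

/-- **If `(k - 1)² + 1` is a prime, then a point transitive group is almost simple.** -/
theorem main (hI : IsConfiguration I n k) (hT : TrilateralFree I) (hn : n = k * (k - 1) ^ 2 + k)
    (hk : k % 2 = 1) (hk3 : 3 ≤ k) (hG : ∀ (g : G) (p : P) (l : L), I (g • p) (g • l) ↔ I p l)
    (hf : ∀ g : G, (∀ p : P, g • p = p) → g = 1) (ht : ∀ p q : P, ∃ g : G, g • p = q)
    (hsp : ((k - 1) ^ 2 + 1).Prime) :
    ∃ T : Subgroup G, T.Normal ∧ IsSimpleGroup T ∧ (∃ a b : T, a * b ≠ b * a) ∧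
      Subgroup.centralizer (T : Set G) = ⊥ := by
  classical
  set q := (k - 1) ^ 2 + 1 with hqd
  have hcard : Nat.card P = k * q := by
    rw [hI.card_points, hn, hqd]
    ring
  have hkq : k < q := by
    obtain ⟨t, rfl⟩ : ∃ t, k = t + 2 := ⟨k - 2, by omega⟩
    have : t + 2 - 1 = t + 1 := by omega
    rw [hqd, this]
    have h2 : 1 ≤ t := by omega
    nlinarith
  have hndk : ¬ q ∣ k := fun h => absurd (Nat.le_of_dvd (by omega) h) (by omega)
  have hne : Nonempty P := by
    rw [← Finite.card_pos_iff, hcard]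
    exact Nat.mul_pos (by omega) hsp.pos
  obtain ⟨x⟩ := hne
  have hPret : MulAction.IsPretransitive G P := ⟨ht⟩
  have hfact := Fact.mk hsp
  have hnt : Nontrivial G := by
    by_contra h
    rw [not_nontrivial_iff_subsingleton] at h
    have h1 : 1 < Nat.card P := by
      rw [hcard]
      have := Nat.mul_le_mul hk3 hsp.two_le
      omega
    have := Finite.one_lt_card_iff_nontrivial.1 h1
    obtain ⟨a, b, hab⟩ := exists_pair_ne P
    obtain ⟨g, hg⟩ := ht a b
    rw [Subsingleton.elim g 1, one_smul] at hg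
    exact hab hg
  refine almost_simple q hsp ?_ ?_
  · intro h
    have h1 : Nat.card P * Nat.card (MulAction.stabilizer G x) = Nat.card G := by
      rw [← MulAction.index_stabilizer_of_transitive G x, mul_comm]
      exact Subgroup.card_mul_index _
    have h2 : ¬ q ∣ Nat.card (MulAction.stabilizer G x) := by
      intro h3
      obtain ⟨g, hg⟩ := exists_prime_orderOf_dvd_card' (G := MulAction.stabilizer G x) q h3
      have h4 : (g : G) ^ q = 1 := by
        have := pow_orderOf_eq_one g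
        rw [hg] at this
        exact congrArg Subtype.val this
      have h5 := hf g (point_fixed hI hT hn (by omega) hG q hkq g h4 x g.2)
      have h6 : g = 1 := Subtype.ext h5
      rw [h6, orderOf_one] at hg
      exact hsp.one_lt.ne hg
    rw [← h1, hcard, pow_two, mul_comm k q, mul_assoc] at h
    have h3 := Nat.dvd_of_mul_dvd_mul_left hsp.pos h
    rcases (Nat.Prime.dvd_mul hsp).1 h3 with h4 | h4
    · exact hndk h4
    · exact h2 h4
  · intro N hN hNe
    have h1 := Main.long_orbits hI hT hn hk hk3 hG hf ht N hNe x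
    have h3 := Ovoid.no_ovoid hI hT hn hk hk3 hG ht N x
    have h5 : (MulAction.orbit N x).ncard ∣ Nat.card P :=
      (MulAction.IsBlock.orbit_of_normal (G := G) (N := N) x).ncard_dvd_card ⟨x, MulAction.mem_orbit_self x⟩
    have h6 : (MulAction.orbit N x).ncard ∣ Nat.card N := by
      rw [← MulAction.index_stabilizer N x]
      exact Subgroup.index_dvd_card _
    rw [hcard] at h5
    obtain ⟨a, b, ha, hb, hab⟩ := exists_dvd_and_dvd_of_dvd_mul h5
    rw [hab] at h1 h3 h6
    rcases (Nat.dvd_prime hsp).1 hb with rfl | rfl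
    · have := Nat.le_of_dvd (by omega) ha
      omega
    · refine ⟨(Dvd.intro_left a rfl).trans h6, fun h7 => ?_⟩
      rw [h7] at h6
      have h8 : a = 1 := by
        have h9 : a * q ∣ 1 * q := by rwa [one_mul]
        exact Nat.dvd_one.1 (Nat.dvd_of_mul_dvd_mul_right hsp.pos h9)
      rw [h8, one_mul] at h3
      exact h3 rfl

end

end Pool.Agent.Lib.MP_e0c1ed_co.AS3
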