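import Pool.Agent.Lib.MP_e0c1ed_co.Ub

/-!
# MP_e0c1ed / Big: the prime powers dividing `k` and a semiregular abelian normal subgroup
-/

set_option autoImplicit false

namespace Pool.Agent.Lib.MP_e0c1ed_co.Big

open Finset Pool.Agent.Results.MP_e0c1ed_co.SelfDualSquare Bens Grp Orb

/-- an invariant set is a union of orbits -/
theorem dvd_of_orbits {G S : Type*} [Group G] [MulAction G S] [Finite S] (A : Set S)
    (hA : ∀ (g : G), ∀ y ∈ A, g • y ∈ A) (c d : ℕ) (h : ∀ y ∈ A, d ∣ c * (MulAction.orbit G y).ncard) :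
    d ∣ c * A.ncard := by
  classical
  have : Fintype S := Fintype.ofFinite S
  set X : Finset S := univ.filter (· ∈ A) with hX
  have hXA : (X : Set S) = A := by ext y; simp [hX]
  rw [← hXA, Set.ncard_coe_finset]
  rw [Finset.card_eq_sum_card_fiberwise (f := fun y => (Quotient.mk'' y : MulAction.orbitRel.Quotient G S)) (s := X)
    (t := X.image (fun y => (Quotient.mk'' y : MulAction.orbitRel.Quotient G S)))
    (fun y hy => Finset.mem_coe.2 (Finset.mem_image_of_mem _ hy)), Finset.mul_sum]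
  apply Finset.dvd_sum
  intro q hq
  obtain ⟨y, hy, rfl⟩ := Finset.mem_image.1 hq
  have hyA : y ∈ A := by rw [← hXA]; exact hy
  have h1 : (X.filter fun a => (Quotient.mk'' a : MulAction.orbitRel.Quotient G S) = Quotient.mk'' y).card =
      (MulAction.orbit G y).ncard := by
    rw [← Set.ncard_coe_finset]
    congr 1
    ext w
    simp only [Finset.coe_filter, Set.mem_ofPred_eq]
    constructor
    · rintro ⟨h1, h2⟩
      exact Quotient.exact' h2
    · rintro ⟨c, rfl⟩
      refine ⟨?_, Quotient.sound' ⟨c, rfl⟩⟩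
      rw [← Finset.mem_coe, hXA]
      exact hA c y hyA
  rw [h1]
  exact h y hyA

/-- the arithmetic of `θ` -/
theorem theta (s m w θ r f a : ℕ) (z : ℤ) (hs : s % 2 = 0) (hs2 : 2 ≤ s) (hmw : m * w = s ^ 2 + 1) (hm2 : 2 * s < m)
    (hθ : (m : ℤ) * θ = ((s : ℤ) + 1) ^ 2 + 2 * s * z) (hθ2 : θ ≤ (s + 1) * w) (hr : r.Prime) (hf : 1 ≤ f)
    (hrk : r ^ (2 * f - 1) ∣ s + 1) (hrw : w < r ^ f) (ha : (s + 1) ∣ a * θ) : r ^ f ∣ a := by
  obtain ⟨t, ht⟩ : ∃ t, s = 2 * t := ⟨s / 2, by omega⟩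
  have hts : (s : ℤ) = 2 * t := by exact_mod_cast ht
  have hw0 : 0 < w := by
    rcases Nat.eq_zero_or_pos w with h | h
    · rw [h, mul_zero] at hmw; omega
    · exact h
  have hws : w < s := by
    by_contra h
    push Not at h
    have h1 : (2 * s + 1) * s ≤ m * w := Nat.mul_le_mul (by omega) h
    rw [hmw] at h1
    nlinarith
  have hwodd : w % 2 = 1 := by
    have h1 : (m * w) % 2 = 1 := by
      rw [hmw, ht]
      have : (2 * t) ^ 2 + 1 = 2 * (2 * t ^ 2) + 1 := by ring
      omega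
    rw [Nat.mul_mod] at h1
    rcases Nat.mod_two_eq_zero_or_one w with h | h
    · rw [h] at h1; simp at h1
    · exact h
  have hmwZ : (m : ℤ) * w = s ^ 2 + 1 := by exact_mod_cast hmw
  -- `θ ≡ w` modulo `2 s`
  have hcop : IsCoprime (2 * (s : ℤ)) (m : ℤ) := by
    refine ⟨-(t : ℤ), w, ?_⟩
    rw [hts] at hmwZ ⊢
    linear_combination hmwZ
  obtain ⟨j, hj⟩ : (2 * (s : ℤ)) ∣ (θ : ℤ) - w := by
    apply hcop.dvd_of_dvd_mul_left
    exact ⟨1 + z, by linear_combination hθ - hmwZ⟩
  have hspos : (0 : ℤ) < 2 * s := by omega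
  have hj0 : 0 ≤ j := by
    by_contra h
    have h1 : j ≤ -1 := by omega
    have h2 : 2 * (s : ℤ) * j ≤ 2 * s * (-1) := mul_le_mul_of_nonneg_left h1 hspos.le
    rw [← hj] at h2
    omega
  have hj1 : 2 * j ≤ w := by
    have h1 : (θ : ℤ) ≤ (s + 1) * w := by exact_mod_cast hθ2
    have h2 : (s : ℤ) * (2 * j) ≤ s * w := by linarith
    exact le_of_mul_le_mul_left h2 (by omega)
  have hj2 : 2 * j < w := by omega
  -- `r ^ f` does not divide `θ`
  have hnd : ¬ r ^ f ∣ θ := by
    intro h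
    have h1 : ((r ^ f : ℕ) : ℤ) ∣ θ := by exact_mod_cast h
    have h2 : ((r ^ f : ℕ) : ℤ) ∣ (s : ℤ) + 1 := by
      have h3 : r ^ f ∣ s + 1 := (pow_dvd_pow r (by omega)).trans hrk
      exact_mod_cast h3
    have h3 : ((r ^ f : ℕ) : ℤ) ∣ w - 2 * j := by
      have h4 : (w : ℤ) - 2 * j = θ - (s + 1) * (2 * j) := by linear_combination -hj
      rw [h4]
      exact dvd_sub h1 (h2.mul_right _)
    have h4 := Int.le_of_dvd (by omega) h3
    have h5 : (w : ℤ) < ((r ^ f : ℕ) : ℤ) := by exact_mod_cast hrw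
    omega
  obtain ⟨d1, d2, h1, h2, h3⟩ := exists_dvd_and_dvd_of_dvd_mul (hrk.trans ha)
  obtain ⟨i1, -, rfl⟩ := (Nat.dvd_prime_pow hr).1 (show d1 ∣ r ^ (2 * f - 1) from ⟨d2, h3⟩)
  obtain ⟨i2, -, rfl⟩ := (Nat.dvd_prime_pow hr).1 (show d2 ∣ r ^ (2 * f - 1) from ⟨r ^ i1, by rw [h3]; ring⟩)
  have h4 : 2 * f - 1 = i1 + i2 := by
    rw [← pow_add] at h3
    exact Nat.pow_right_injective hr.two_le h3
  rcases Nat.lt_or_ge i2 f with h5 | h5
  · exact (pow_dvd_pow r (by omega)).trans h1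
  · exact absurd ((pow_dvd_pow r h5).trans h2) hnd

section
variable {P L G : Type*} [Finite P] [Finite L] [Group G] [Finite G] [MulAction G P] [MulAction G L]
  {I : P → L → Prop} {n k : ℕ}

/-- **Prime powers.** `r ^ (2 f - 1) ∣ k` gives `r ^ f * |B| ≤ (k - 1)² + 1`. -/
theorem prime_pow_factor (hI : IsConfiguration I n k) (hT : TrilateralFree I) (hn : n = k * (k - 1) ^ 2 + k)
    (hk : k % 2 = 1) (hk3 : 3 ≤ k) (hG : ∀ (g : G) (p : P) (l : L), I (g • p) (g • l) ↔ I p l)
    (ht : ∀ p q : P, ∃ g : G, g • p = q) (B : Subgroup G) [B.Normal] (hab : ∀ a ∈ B, ∀ b ∈ B, a * b = b * a)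
    (hsemi : ∀ b ∈ B, b ≠ 1 → ∀ x : P, b • x ≠ x) (hm : Nat.card B ∣ (k - 1) ^ 2 + 1) (hm2 : 2 * (k - 1) < Nat.card B)
    (r : ℕ) (hr : r.Prime) (f : ℕ) (hf : 1 ≤ f) (hrk : r ^ (2 * f - 1) ∣ k) :
    r ^ f * Nat.card B ≤ (k - 1) ^ 2 + 1 := by
  classical
  have : Fintype P := Fintype.ofFinite P
  have : Fintype L := Fintype.ofFinite L
  have : MulAction.IsPretransitive G P := ⟨ht⟩
  have hinv : ∀ (g : G) x l, I x l → I (g • x) (g • l) := fun g p l h => (hG g p l).2 h
  obtain ⟨s, rfl⟩ : ∃ s, k = s + 1 := ⟨k - 1, by omega⟩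
  rw [Nat.add_sub_cancel] at hn hm hm2 ⊢
  obtain ⟨w, hw⟩ := hm
  set m := Nat.card B with hmdef
  by_contra hcon
  push Not at hcon
  have hm0 : 0 < m := by omega
  have hrw : w < r ^ f := by
    rw [hw, mul_comm m w] at hcon
    exact lt_of_mul_lt_mul_right hcon (Nat.zero_le m)
  have hn' : n = (s + 1) * (s ^ 2 + 1) := by rw [hn]; ring
  have hn'' : n = (s + 1) * w * m := by rw [hn', hw]; ring
  have hPc : Nat.card P = n := hI.card_points
  -- the action by conjugation on `B`
  let act : MulAction G B := MulAction.compHom B (MulAut.conjNormal : G →* MulAut B)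
  have hact : ∀ (g : G) (b : B), ((g • b : B) : G) = g * b * g⁻¹ := fun g b => MulAut.conjNormal_apply g b
  -- orbits of `B` on the points
  have hBorb : ∀ y : P, (MulAction.orbit B y).ncard = m := by
    intro y
    rw [← MulAction.index_stabilizer]
    have h1 : MulAction.stabilizer B y = ⊥ := by
      rw [Subgroup.eq_bot_iff_forall]
      intro b hb
      by_contra hb1
      exact hsemi b b.2 (fun h => hb1 (Subtype.ext h)) y hb
    rw [h1, Subgroup.index_bot]
  -- the divisibility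
  have key : ∀ b : B, b ≠ 1 → r ^ f ∣ (MulAction.orbit G b).ncard := by
    intro b hb
    have hb1 : (b : G) ≠ 1 := fun h => hb (Subtype.ext h)
    set A : Set P := {y | ∃ l, I y l ∧ I ((b : G) • y) l} with hAdef
    have hA : ∀ g : G, g * b * g⁻¹ = b → ∀ y ∈ A, g • y ∈ A := by
      rintro g hg y ⟨l, h1, h2⟩
      refine ⟨g • l, hinv g y l h1, ?_⟩
      have h3 : (b : G) • (g • y) = g • ((b : G) • y) := by
        rw [← mul_smul, ← mul_smul]
        congr 1
        calc (b : G) * g = (g * b * g⁻¹) * g := by rw [hg]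
          _ = g * b := by group
      rw [h3]
      exact hinv g _ l h2
    -- `m` divides `|A|`
    obtain ⟨θ, hθ⟩ : m ∣ A.ncard := by
      have h1 := dvd_of_orbits (G := B) A (fun c y hy => hA c (by rw [hab c c.2 b b.2]; group) y hy) 1 m
        (fun y _ => by rw [hBorb y, one_mul])
      rwa [one_mul] at h1
    -- Benson
    obtain ⟨z, hz⟩ := Grp.benson (B := G) hI hT (by rw [Nat.add_sub_cancel]; exact hn) (by omega) hinv (b : G)
    have hsum : ∑ y, S I y ((b : G) • y) = (A.ncard : ℚ) := by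
      have h1 : A.ncard = (univ.filter fun y => ∃ l, I y l ∧ I ((b : G) • y) l).card := by
        rw [← Set.ncard_coe_finset]
        congr 1
        ext y
        simp [hAdef]
      rw [h1, ← Finset.sum_boole]
      refine Finset.sum_congr rfl fun y _ => ?_
      by_cases h : ∃ l, I y l ∧ I ((b : G) • y) l
      · rw [if_pos h]
        obtain ⟨l, h1, h2⟩ := h
        exact S_col hI (fun h => hsemi b b.2 hb1 y h.symm) h1 h2
      · rw [if_neg h]
        exact S_ncol h
    have hθZ : (m : ℤ) * θ = ((s : ℤ) + 1) ^ 2 + 2 * s * z := by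
      rw [hsum, hθ] at hz
      have h1 : ((m * θ : ℕ) : ℚ) = (((s : ℤ) + 1) ^ 2 + 2 * s * z : ℤ) := by
        rw [hz]; push_cast; ring
      exact_mod_cast h1
    have hθ2 : θ ≤ (s + 1) * w := by
      have h1 : A.ncard ≤ Nat.card P := Set.ncard_le_card A
      rw [hθ, hPc, hn'', mul_comm m θ] at h1
      exact Nat.le_of_mul_le_mul_right h1 hm0
    -- the centralizer
    set C : Subgroup G := MulAction.stabilizer G b with hC
    have hCmem : ∀ c : C, (c : G) * b * (c : G)⁻¹ = b := by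
      intro c
      have h1 : (c : G) • b = b := c.2
      have h2 := congrArg (Subtype.val) h1
      rw [hact] at h2
      exact h2
    have hdiv : n ∣ C.index * A.ncard := by
      refine dvd_of_orbits (G := C) A (fun c y hy => hA c (hCmem c) y hy) C.index n (fun y _ => ?_)
      have h2 : (MulAction.stabilizer G y ⊓ C).relIndex C * C.index = (MulAction.stabilizer G y ⊓ C).index :=
        Subgroup.relIndex_mul_index inf_le_right
      have h6 : (MulAction.stabilizer G y ⊓ C).relIndex C = (MulAction.orbit C y).ncard := by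
        rw [← MulAction.index_stabilizer, Subgroup.inf_relIndex_right]
        rfl
      have h1 : (MulAction.stabilizer G y).index = n := by
        rw [MulAction.index_stabilizer, MulAction.orbit_eq_univ, Set.ncard_univ, hPc]
      rw [mul_comm, ← h6, h2, ← h1]
      exact Subgroup.index_dvd_of_le inf_le_left
    have hdiv2 : (s + 1) ∣ C.index * θ := by
      rw [hθ] at hdiv
      have h1 : m * ((s + 1) * w) ∣ m * (C.index * θ) := by
        have h2 : m * ((s + 1) * w) = n := by rw [hn'']; ring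
        have h3 : m * (C.index * θ) = C.index * (m * θ) := by ring
        rw [h2, h3]
        exact hdiv
      exact (Dvd.intro w rfl).trans (Nat.dvd_of_mul_dvd_mul_left hm0 h1)
    have h1 := theta s m w θ r f C.index z (by omega) (by omega) hw.symm hm2 hθZ hθ2 hr hf hrk hrw hdiv2
    rw [← MulAction.index_stabilizer]
    exact h1
  -- `|B| ≡ 1`
  have hBfin : Finite B := Nat.finite_of_card_ne_zero (by omega)
  have hone : r ^ f ∣ m - 1 := by
    have h1 := dvd_of_orbits (G := G) (S := B) {b | b ≠ 1} (by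
      intro g b hb h
      apply hb
      have h2 := congrArg Subtype.val h
      rw [hact] at h2
      apply Subtype.ext
      have h3 : g * (b : G) * g⁻¹ = 1 := h2
      have h4 : (b : G) = g⁻¹ * (g * (b : G) * g⁻¹) * g := by group
      rw [h4, h3]
      simp) 1 (r ^ f) (fun b hb => by rw [one_mul]; exact key b hb)
    rw [one_mul] at h1
    have h2 : ({b | b ≠ 1} : Set B).ncard = m - 1 := by
      have h3 : ({b | b ≠ 1} : Set B) = Set.univ \ {1} := by ext b; simp
      rw [h3, Set.ncard_diff (Set.subset_univ _), Set.ncard_univ, Set.ncard_singleton]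
    rwa [h2] at h1
  -- the contradiction
  have h1 : ((r ^ f : ℕ) : ℤ) ∣ (m : ℤ) - 1 := by
    have h2 : ((r ^ f : ℕ) : ℤ) ∣ ((m - 1 : ℕ) : ℤ) := by exact_mod_cast hone
    rwa [Nat.cast_sub (by omega), Nat.cast_one] at h2
  have h2 : ((r ^ f : ℕ) : ℤ) ∣ (s : ℤ) + 1 := by
    have h3 : r ^ f ∣ s + 1 := (pow_dvd_pow r (by omega)).trans hrk
    exact_mod_cast h3
  have h3 : ((r ^ f : ℕ) : ℤ) ∣ (w : ℤ) - 2 := by
    have h4 : (w : ℤ) - 2 = (s + 1) * (s - 1) - (m - 1) * w := by
      have h5 : (m : ℤ) * w = s ^ 2 + 1 := by exact_mod_cast hw.symm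
      linear_combination h5
    rw [h4]
    exact dvd_sub (h2.mul_right _) (h1.mul_right _)
  have h4 : (w : ℤ) - 2 = 0 := by
    apply Int.eq_zero_of_abs_lt_dvd h3
    have h5 : (w : ℤ) < ((r ^ f : ℕ) : ℤ) := by exact_mod_cast hrw
    have h6 : 1 ≤ w := by
      rcases Nat.eq_zero_or_pos w with h | h
      · rw [h, mul_zero] at hw; omega
      · exact h
    have h7 : (3 : ℤ) ≤ ((r ^ f : ℕ) : ℤ) := by
      have h8 : r ≠ 2 := by
        rintro rfl
        have h9 : 2 ∣ s + 1 := (dvd_pow_self 2 (by omega)).trans hrk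
        omega
      have h9 : 3 ≤ r := by have := hr.two_le; omega
      have h10 : r ≤ r ^ f := Nat.le_self_pow (by omega) r
      exact_mod_cast h9.trans h10
    rw [abs_lt]
    constructor <;> omega
  have h5 : w = 2 := by omega
  rw [h5] at hw
  have h6 : ∃ t, s = 2 * t := ⟨s / 2, by omega⟩
  obtain ⟨t, rfl⟩ := h6
  have h7 : (2 * t) ^ 2 + 1 = 2 * (2 * t ^ 2) + 1 := by ring
  omega

/-- **Prime factors.** -/
theorem prime_factor (hI : IsConfiguration I n k) (hT : TrilateralFree I) (hn : n = k * (k - 1) ^ 2 + k)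
    (hk : k % 2 = 1) (hk3 : 3 ≤ k) (hG : ∀ (g : G) (p : P) (l : L), I (g • p) (g • l) ↔ I p l)
    (_hf : ∀ g : G, (∀ p : P, g • p = p) → g = 1) (ht : ∀ p q : P, ∃ g : G, g • p = q) (B : Subgroup G) [B.Normal]
    (hab : ∀ a ∈ B, ∀ b ∈ B, a * b = b * a)
    (hsemi : ∀ b ∈ B, b ≠ 1 → ∀ x : P, b • x ≠ x) (hm : Nat.card B ∣ (k - 1) ^ 2 + 1) (hm2 : 2 * (k - 1) < Nat.card B)
    (r : ℕ) (hr : r.Prime) (hrk : r ∣ k) : r * Nat.card B ≤ (k - 1) ^ 2 + 1 := by
  have h := prime_pow_factor hI hT hn hk hk3 hG ht B hab hsemi hm hm2 r hr 1 le_rfl (by simpa using hrk)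
  simpa using h

end

end Pool.Agent.Lib.MP_e0c1ed_co.Big
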