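import Pool.Agent.Lib.MP_e0c1ed_co.Main
import Pool.Agent.Lib.MP_e0c1ed_co.TransRad

/-!
# MP_e0c1ed / Semi: abelian normal `q`-subgroups, `q ∣ (k - 1)² + 1`, are semiregular on the points
-/

set_option autoImplicit false

namespace Pool.Agent.Lib.MP_e0c1ed_co.Semi

open Finset Pool.Agent.Results.MP_e0c1ed_co.SelfDualSquare

section
variable {P L G : Type*} [Finite P] [Finite L] [Group G] [Finite G] [MulAction G P] [MulAction G L]
  {I : P → L → Prop} {n k : ℕ}

/-- the projection of a point on a line is unique -/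
theorem proj_unique (hI : IsConfiguration I n k) (hT : TrilateralFree I) (z : P) (l : L) (hz : ¬ I z l)
    {y y' : P} {m m' : L} (h1 : I y l) (h2 : I y' l) (h3 : I y m) (h4 : I z m) (h5 : I y' m') (h6 : I z m') :
    y = y' := by
  by_contra hne
  have a1 : l ≠ m' := fun e => hz (e ▸ h6)
  have a3 : m ≠ l := fun e => hz (e ▸ h4)
  have a2 : m' ≠ m := by
    rintro rfl
    exact a1 (hI.unique_line y y' l m' hne h1 h2 h3 h5)
  have a4 : y' ≠ z := fun e => hz (e ▸ h2)
  have a5 : z ≠ y := fun e => hz (e ▸ h1)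
  exact hT y y' z l m' m hne a4 a5 a1 a2 a3 ⟨h1, h2, h5, h6, h4, h3⟩

/-- An element of an abelian normal `q`-subgroup, `q ∤ k`, which fixes a line fixes its points. -/
theorem line_fixed (hI : IsConfiguration I n k)
    (hG : ∀ (g : G) (p : P) (l : L), I (g • p) (g • l) ↔ I p l)
    (ht : ∀ p q : P, ∃ g : G, g • p = q) (B : Subgroup G) [B.Normal]
    (hab : ∀ a ∈ B, ∀ b ∈ B, a * b = b * a) (q : ℕ) [Fact q.Prime] (hqB : IsPGroup q B) (hqk : ¬ q ∣ k)
    (h : G) (hh : h ∈ B) (l : L) (hl : h • l = l) (z : P) (hz : I z l) : h • z = z := by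
  classical
  have : Fintype P := Fintype.ofFinite P
  have : Fintype L := Fintype.ofFinite L
  by_contra hne
  let D := MulAction.stabilizer B l
  have hD : IsPGroup q D := hqB.to_subgroup D
  let A : SubMulAction D P :=
    { carrier := {p | I p l}
      smul_mem' := by
        intro d p hp
        have h1 : ((d : B) : G) • l = l := d.2
        have h2 := (hG ((d : B) : G) p l).2 hp
        rw [h1] at h2
        exact h2 }
  have h1 := hD.card_modEq_card_fixedPoints (A : Type _)
  have h2 : Nat.card A = k := by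
    rw [← hI.card_on_line l, ← Nat.card_coe_set_eq]
    rfl
  have h3 : (MulAction.fixedPoints D A).Nonempty := by
    by_contra h4
    rw [Set.not_nonempty_iff_eq_empty] at h4
    rw [h2, h4, Nat.card_coe_set_eq, Set.ncard_empty] at h1
    exact hqk ((Nat.modEq_zero_iff_dvd).1 h1)
  obtain ⟨p, hp⟩ := h3
  have h5 : D ≤ MulAction.stabilizer B (p : P) := by
    intro d hd
    exact congrArg Subtype.val (hp ⟨d, hd⟩)
  have h6 : MulAction.stabilizer B z ≤ D := by
    intro b hb
    have hb1 : (b : G) • z = z := hb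
    have hb2 : (b : G) • (h • z) = h • z := by
      rw [smul_smul, hab b b.2 h hh, ← smul_smul, hb1]
    show (b : G) • l = l
    have i1 : I (h • z) l := by
      have := (hG h z l).2 hz
      rwa [hl] at this
    have i2 : I z ((b : G) • l) := by
      have := (hG (b : G) z l).2 hz
      rwa [hb1] at this
    have i3 : I (h • z) ((b : G) • l) := by
      have := (hG (b : G) _ l).2 i1
      rwa [hb2] at this
    exact hI.unique_line z (h • z) ((b : G) • l) l (fun e => hne e.symm) i2 i3 hz i1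
  have h7 : Nat.card (MulAction.stabilizer B (p : P)) = Nat.card (MulAction.stabilizer B z) := by
    have e1 := Subgroup.card_mul_index (MulAction.stabilizer B (p : P))
    have e2 := Subgroup.card_mul_index (MulAction.stabilizer B z)
    rw [MulAction.index_stabilizer] at e1 e2
    rw [Norm.orbit_ncard ht B (p : P) z, ← e2] at e1
    exact Nat.eq_of_mul_eq_mul_right ((Set.ncard_pos).2 ⟨z, MulAction.mem_orbit_self z⟩) e1
  have h8 : MulAction.stabilizer B z = MulAction.stabilizer B (p : P) :=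
    Subgroup.eq_of_le_of_card_ge (h6.trans h5) h7.le
  have h9 : (⟨h, hh⟩ : B) ∈ MulAction.stabilizer B z := by
    rw [h8]
    exact h5 (show (⟨h, hh⟩ : B) ∈ D from hl)
  exact hne h9

theorem aux (hI : IsConfiguration I n k) (hT : TrilateralFree I) (hn : n = k * (k - 1) ^ 2 + k)
    (hk : k % 2 = 1) (hk3 : 3 ≤ k) (hG : ∀ (g : G) (p : P) (l : L), I (g • p) (g • l) ↔ I p l)
    (hf : ∀ g : G, (∀ p : P, g • p = p) → g = 1) (ht : ∀ p q : P, ∃ g : G, g • p = q)
    (B : Subgroup G) [B.Normal] (hab : ∀ a ∈ B, ∀ b ∈ B, a * b = b * a) (q : ℕ) (hq : q.Prime)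
    (hqB : IsPGroup q B) (hqd : q ∣ (k - 1) ^ 2 + 1) (h : G) (hh : h ∈ B) (h1 : h ≠ 1) (hhq : h ^ q = 1) (x : P)
    (hx : h • x = x) : False := by
  classical
  have := Fact.mk hq
  have : Fintype P := Fintype.ofFinite P
  have : Fintype L := Fintype.ofFinite L
  obtain ⟨t, hkt⟩ : ∃ t, k = 2 * t + 1 := ⟨k / 2, by omega⟩
  have ht1 : 1 ≤ t := by omega
  have e0 : k - 1 = 2 * t := by omega
  have hq2 : ¬ q ∣ 2 := by
    intro h2
    have h3 : q = 2 := (Nat.prime_dvd_prime_iff_eq hq Nat.prime_two).1 h2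
    rw [h3, e0] at hqd
    have h4 : (2 * t) ^ 2 + 1 = 2 * (2 * t ^ 2) + 1 := by ring
    rw [h4] at hqd
    omega
  have hqk : ¬ q ∣ k := by
    intro h2
    apply hq2
    have h3 : (k - 1) ^ 2 + 1 + k * 2 = 2 + k * k := by
      rw [e0, hkt]
      ring
    have h4 : q ∣ 2 + k * k := by
      rw [← h3]
      exact dvd_add hqd (h2.mul_right 2)
    exact (Nat.dvd_add_left (h2.mul_right k)).1 h4
  have hfix : ∀ l, h • l = l → ∀ z, I z l → h • z = z := fun l hl z hz =>
    line_fixed hI hG ht B hab q hqB hqk h hh l hl z hz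
  obtain ⟨z, hz⟩ : ∃ z : P, h • z ≠ z := by
    by_contra hcon
    push Not at hcon
    exact h1 (hf h hcon)
  have hN : ∀ y, h • y = y → 3 ≤ {l | I y l ∧ h • l = l}.ncard := by
    intro y hy
    have h2 := set_modEq h q hhq {l | I y l} (fun l hl => by
      have := (hG h y l).2 hl
      rw [hy] at this
      exact this)
    rw [hI.card_through_point] at h2
    have h3 : {l ∈ {l | I y l} | h • l = l} = {l | I y l ∧ h • l = l} := rfl
    rw [h3] at h2
    generalize {l | I y l ∧ h • l = l}.ncard = N at h2 ⊢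
    by_contra hlt
    have h4 : q ∣ k - N := (Nat.modEq_iff_dvd' (by omega)).1 h2.symm
    have h5 : N = 0 ∨ N = 1 ∨ N = 2 := by omega
    rcases h5 with rfl | rfl | rfl
    · exact hqk h4
    · have h6 : q ∣ 1 := (Nat.dvd_add_right (Dvd.dvd.pow h4 (by norm_num : 2 ≠ 0))).1 hqd
      exact hq.one_lt.ne' (Nat.dvd_one.1 h6)
    · apply hq2
      have h6 : (k - 1) ^ 2 + 1 = (k - 2) * k + 2 := by
        obtain ⟨u, rfl⟩ : ∃ u, t = u + 1 := ⟨t - 1, by omega⟩
        rw [e0, hkt]
        have : 2 * (u + 1) + 1 - 2 = 2 * u + 1 := by omega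
        rw [this]
        ring
      rw [h6] at hqd
      exact (Nat.dvd_add_right (h4.mul_right k)).1 hqd
  obtain ⟨l0, hxl0, hl0⟩ : ∃ l, I x l ∧ h • l = l := by
    have h2 : {l | I x l ∧ h • l = l}.Nonempty := by
      rw [← Set.ncard_pos]
      have := hN x hx
      omega
    exact h2
  have hz0 : ∀ l, h • l = l → ¬ I z l := fun l hl hzl => hz (hfix l hl z hzl)
  obtain ⟨y, m0, hy0, hym0, hzm0⟩ := Norm.gq hI hT hn (by omega) z l0 (hz0 l0 hl0)
  set K : Finset P := univ.filter fun y => h • y = y ∧ ∃ m, I z m ∧ I y m with hKdef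
  -- at most one fixed point on a line through `z`
  have hK : K.card ≤ k := by
    have h2 : ∀ y ∈ K, ∃ m, I z m ∧ I y m := fun y hy => (mem_filter.1 hy).2.2
    choose f hf1 using h2
    have h3 : (univ.filter fun l => I z l).card = k := by
      rw [← hI.card_through_point z, ← Set.ncard_coe_finset]
      congr 1
      ext l
      simp
    rw [← h3]
    refine Finset.card_le_card_of_injOn (fun y => if hy : y ∈ K then f y hy else m0) ?_ ?_
    · intro y hy
      have hy' : y ∈ K := hy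
      simp only [hy', dif_pos, coe_filter, mem_univ, true_and, Set.mem_ofPred_eq]
      exact (hf1 y hy').1
    · intro y hy y' hy' heq
      have hy1 : y ∈ K := hy
      have hy1' : y' ∈ K := hy'
      simp only [hy1, hy1', dif_pos] at heq
      by_contra hne
      have j1 := hf1 y hy1
      have j2 := hf1 y' hy1'
      rw [← heq] at j2
      have j3 : h • (f y hy1) = f y hy1 := by
        have k1 := (hG h y (f y hy1)).2 j1.2
        have k2 := (hG h y' (f y hy1)).2 j2.2
        rw [(mem_filter.1 hy1).2.1] at k1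
        rw [(mem_filter.1 hy1').2.1] at k2
        exact hI.unique_line y y' _ _ hne k1 k2 j1.2 j2.2
      exact hz0 _ j3 j1.1
  -- double counting
  let s : Finset P := (univ.filter fun p => I p l0).erase y
  have hs : s.card = k - 1 := by
    rw [Finset.card_erase_of_mem (by simp [hy0])]
    congr 1
    rw [← hI.card_on_line l0, ← Set.ncard_coe_finset]
    congr 1
    ext l
    simp
  have hs1 : ∀ p ∈ s, I p l0 ∧ p ≠ y := by
    intro p hp
    obtain ⟨h2, h3⟩ := mem_erase.1 hp
    exact ⟨(mem_filter.1 h3).2, h2⟩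
  have hpz : ∀ p ∈ s, ∀ m, I p m → ¬ I z m := by
    intro p hp m hpm hzm
    exact (hs1 p hp).2 (proj_unique hI hT z l0 (hz0 l0 hl0) (hs1 p hp).1 hy0 hpm hzm hym0 hzm0)
  have hdc : s.card * 2 ≤ K.card * 1 := by
    refine Finset.card_mul_le_card_mul (fun p y' => ∃ l, h • l = l ∧ l ≠ l0 ∧ I p l ∧ I y' l) ?_ ?_
    · intro p hp
      have hpf : h • p = p := hfix l0 hl0 p (hs1 p hp).1
      have h2 : 1 < ({l | I p l ∧ h • l = l} \ {l0}).ncard := by
        have h3 := Set.ncard_sdiff_singleton_add_one (s := {l | I p l ∧ h • l = l}) (a := l0) ⟨(hs1 p hp).1, hl0⟩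
        have := hN p hpf
        omega
      obtain ⟨l1, l2, hl1, hl2, hl12⟩ := (Set.one_lt_ncard_iff).1 h2
      obtain ⟨y1, m1, a1, a2, a3⟩ := Norm.gq hI hT hn (by omega) z l1 (hz0 l1 hl1.1.2)
      obtain ⟨y2, m2, b1, b2, b3⟩ := Norm.gq hI hT hn (by omega) z l2 (hz0 l2 hl2.1.2)
      have hy12 : y1 ≠ y2 := by
        rintro rfl
        have hpy : p ≠ y1 := by
          rintro rfl
          exact hpz p hp m1 a2 a3
        exact hl12 (hI.unique_line p y1 l1 l2 hpy hl1.1.1 a1 hl2.1.1 b1)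
      have h4 : ({y1, y2} : Finset P) ⊆ K.bipartiteAbove (fun p y' => ∃ l, h • l = l ∧ l ≠ l0 ∧ I p l ∧ I y' l) p := by
        intro w hw
        rw [mem_insert, mem_singleton] at hw
        rw [Finset.mem_bipartiteAbove, hKdef, mem_filter]
        rcases hw with rfl | rfl
        · exact ⟨⟨mem_univ _, hfix l1 hl1.1.2 _ a1, m1, a3, a2⟩, l1, hl1.1.2, hl1.2, hl1.1.1, a1⟩
        · exact ⟨⟨mem_univ _, hfix l2 hl2.1.2 _ b1, m2, b3, b2⟩, l2, hl2.1.2, hl2.2, hl2.1.1, b1⟩
      calc 2 = ({y1, y2} : Finset P).card := (Finset.card_pair hy12).symm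
        _ ≤ _ := Finset.card_le_card h4
    · intro y' hy'
      rw [Finset.card_le_one]
      intro p hp p' hp'
      rw [Finset.mem_bipartiteBelow] at hp hp'
      obtain ⟨hps, l, c1, c2, c3, c4⟩ := hp
      obtain ⟨hps', l', d1, d2, d3, d4⟩ := hp'
      obtain ⟨-, -, m, hzm, hym⟩ := mem_filter.1 hy'
      have hy'0 : ¬ I y' l0 := by
        intro h2
        have h3 : p ≠ y' := by
          rintro rfl
          exact hpz p hps m hym hzm
        exact c2 (hI.unique_line p y' l l0 h3 c3 c4 (hs1 p hps).1 h2)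
      exact proj_unique hI hT y' l0 hy'0 (hs1 p hps).1 (hs1 p' hps').1 c3 c4 d3 d4
  rw [hs] at hdc
  omega

/-- **Abelian normal `q`-subgroups, `q ∣ (k - 1)² + 1`, are semiregular on the points.** -/
theorem semiregular (hI : IsConfiguration I n k) (hT : TrilateralFree I) (hn : n = k * (k - 1) ^ 2 + k)
    (hk : k % 2 = 1) (hk3 : 3 ≤ k) (hG : ∀ (g : G) (p : P) (l : L), I (g • p) (g • l) ↔ I p l)
    (hf : ∀ g : G, (∀ p : P, g • p = p) → g = 1) (ht : ∀ p q : P, ∃ g : G, g • p = q)
    (B : Subgroup G) [B.Normal] (hab : ∀ a ∈ B, ∀ b ∈ B, a * b = b * a) (q : ℕ) (hq : q.Prime)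
    (hqB : IsPGroup q B) (hqd : q ∣ (k - 1) ^ 2 + 1) : ∀ b ∈ B, b ≠ 1 → ∀ x : P, b • x ≠ x := by
  intro b hb hb1 x hx
  have := Fact.mk hq
  obtain ⟨e, he⟩ := (IsPGroup.iff_orderOf.1 hqB) ⟨b, hb⟩
  have he' : orderOf b = q ^ e := by
    rw [← he]
    exact (Subgroup.orderOf_mk b hb).symm
  have he0 : e ≠ 0 := by
    rintro rfl
    rw [pow_zero, orderOf_eq_one_iff] at he'
    exact hb1 he'
  obtain ⟨j, rfl⟩ : ∃ j, e = j + 1 := ⟨e - 1, by omega⟩
  have hpow : ∀ i : ℕ, b ^ i • x = x := by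
    intro i
    induction i with
    | zero => rw [pow_zero, one_smul]
    | succ i ih => rw [pow_succ, mul_smul, hx, ih]
  refine aux hI hT hn hk hk3 hG hf ht B hab q hq hqB hqd (b ^ q ^ j) (B.pow_mem hb _) ?_ ?_ x (hpow _)
  · intro h2
    have h3 := orderOf_dvd_of_pow_eq_one h2
    rw [he'] at h3
    have h4 := Nat.le_of_dvd (pow_pos hq.pos _) h3
    exact absurd h4 (not_le.2 (Nat.pow_lt_pow_right hq.one_lt (Nat.lt_add_one j)))
  · rw [← pow_mul, ← pow_succ, ← he']
    exact pow_orderOf_eq_one b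

end

end Pool.Agent.Lib.MP_e0c1ed_co.Semi
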