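import Pool.Agent.Lib.MP_e0c1ed_co.Tr
import Pool.Agent.Lib.MP_e0c1ed_co.Semi
import Pool.Agent.Lib.MP_e0c1ed_co.Big

/-!
# MP_e0c1ed / Rad: solvable normal subgroups of transitive groups, with the prime factors of `k`
-/

set_option autoImplicit false

namespace Pool.Agent.Lib.MP_e0c1ed_co.Rad

open Pool.Agent.Results.MP_e0c1ed_co.SelfDualSquare Pool.Agent.Lib.MP_e0c1ed_co Pool.Agent.Lib.MP_e0c1ed_co.Tr

/-- A nontrivial solvable normal subgroup of a finite group contains a nontrivial elementary abelian normal subgroup of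
the group. -/
theorem exists_elementary {G : Type*} [Group G] [Finite G] (N : Subgroup G) (hN : N.Normal)
    (hS : Group.IsSolvable N) (hne : N ≠ ⊥) :
    ∃ (q : ℕ) (B : Subgroup G), q.Prime ∧ B.Normal ∧ B ≠ ⊥ ∧ (∀ a ∈ B, ∀ b ∈ B, a * b = b * a) ∧
      ∀ b ∈ B, b ^ q = 1 := by
  classical
  obtain ⟨A, hA1, hA2, hA3⟩ := exists_abelian N hN hS hne
  obtain ⟨q, hq, hqA⟩ := Nat.exists_prime_and_dvd (n := Nat.card A) (by
    intro h
    exact hA2 (Subgroup.card_eq_one.1 h))
  have := Fact.mk hq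
  let B : Subgroup G :=
    { carrier := {a | a ∈ A ∧ a ^ q = 1}
      mul_mem' := by
        rintro a b ⟨ha1, ha2⟩ ⟨hb1, hb2⟩
        refine ⟨A.mul_mem ha1 hb1, ?_⟩
        have hc : Commute a b := hA3 a ha1 b hb1
        rw [hc.mul_pow, ha2, hb2, one_mul]
      one_mem' := ⟨A.one_mem, one_pow q⟩
      inv_mem' := by
        rintro a ⟨ha1, ha2⟩
        exact ⟨A.inv_mem ha1, by rw [inv_pow, ha2, inv_one]⟩ }
  have hBmem : ∀ a, a ∈ B ↔ a ∈ A ∧ a ^ q = 1 := fun a => Iff.rfl
  refine ⟨q, B, hq, ?_, ?_, fun a ha b hb => hA3 a ha.1 b hb.1, fun b hb => hb.2⟩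
  · constructor
    intro b hb g
    rw [hBmem] at hb ⊢
    exact ⟨hA1.conj_mem b hb.1 g, by rw [conj_pow, hb.2, mul_one, mul_inv_cancel]⟩
  · obtain ⟨x, hx⟩ := exists_prime_orderOf_dvd_card' q hqA
    intro h
    have h1 : x.1 ∈ B := by
      rw [hBmem]
      refine ⟨x.2, ?_⟩
      have h2 := pow_orderOf_eq_one x
      rw [hx] at h2
      exact congrArg Subtype.val h2
    rw [h, Subgroup.mem_bot] at h1
    have h3 : x = 1 := Subtype.ext h1
    rw [h3, orderOf_one] at hx
    exact hq.one_lt.ne hx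

/-- `m = q ^ b` is a prime power with `b ≥ 2` dividing `s² + 1`, `m > 2 s`, `r ^ f m ≤ s² + 1` for every prime `r` and
`f ≥ 1` with `r ^ (2 f - 1) ∣ s + 1`, and, with `c` the remainder of `m - 1` modulo `2 s`, `c (s + 1) ≤ s² - 1 + m` and
`2 s (q - 1)` divides `(s + 1) ((s² + 1) / m) ((s + 1) (m - 1) - c)`. -/
def Admissible (s q b : ℕ) : Prop :=
  q.Prime ∧ 2 ≤ b ∧ q ^ b ∣ s ^ 2 + 1 ∧ 2 * s < q ^ b ∧
    (∀ r f : ℕ, r.Prime → 1 ≤ f → r ^ (2 * f - 1) ∣ s + 1 → r ^ f * q ^ b ≤ s ^ 2 + 1) ∧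
    ((q ^ b - 1) % (2 * s)) * (s + 1) ≤ s ^ 2 - 1 + q ^ b ∧
    2 * s * (q - 1) ∣ (s + 1) * ((s ^ 2 + 1) / q ^ b) * ((s + 1) * (q ^ b - 1) - (q ^ b - 1) % (2 * s))

/-- `s ≤ 1000`, or `s + 1` is a prime, or no prime power `q ^ b > 2 s` with `b ≥ 2` divides `s² + 1`. -/
def Good (s : ℕ) : Prop :=
  s ≤ 1000 ∨ (s + 1).Prime ∨ ∀ q b : ℕ, q.Prime → 2 ≤ b → q ^ b ∣ s ^ 2 + 1 → q ^ b ≤ 2 * s

section
variable {P L : Type*} [Finite P] [Finite L] {I : P → L → Prop} {n k : ℕ}
variable {G : Type*} [Group G] [Finite G] [MulAction G P] [MulAction G L]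

/-- A nontrivial solvable normal subgroup gives an admissible prime power. -/
theorem solvable_case (hI : IsConfiguration I n k) (hT : TrilateralFree I)
    (hn : n = k * (k - 1) ^ 2 + k) (hk3 : 3 ≤ k) (hodd : Odd k)
    (hG : ∀ (g : G) (p : P) (l : L), I (g • p) (g • l) ↔ I p l)
    (hf : ∀ g : G, (∀ x : P, g • x = x) → g = 1) (ht : ∀ x y : P, ∃ g : G, g • x = y)
    (N : Subgroup G) (hN : N.Normal) (hS : Group.IsSolvable N) (hne : N ≠ ⊥) :
    ∃ q b : ℕ, Admissible (k - 1) q b := by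
  classical
  have hk : k % 2 = 1 := Nat.odd_iff.1 hodd
  obtain ⟨q, B, hq, hBn, hBne, hab, hexp⟩ := exists_elementary N hN hS hne
  have := Fact.mk hq
  have hPB : IsPGroup q B := by
    intro b
    exact ⟨1, by rw [pow_one]; exact Subtype.ext (hexp b.1 b.2)⟩
  obtain ⟨a, ha⟩ := IsPGroup.iff_card.1 hPB
  have hnp : n = k * ((k - 1) ^ 2 + 1) := by rw [hn]; ring
  have hcardP : Nat.card P = n := hI.card_points
  obtain ⟨x0⟩ : Nonempty P := by
    rw [← Finite.card_pos_iff, hcardP, hnp]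
    exact Nat.mul_pos (by omega) (by omega)
  have : MulAction.IsPretransitive G P := ⟨ht⟩
  have h1 : (MulAction.orbit B x0).ncard ∣ Nat.card P :=
    (MulAction.IsBlock.orbit_of_normal (G := G) (N := B) x0).ncard_dvd_card
      ⟨x0, MulAction.mem_orbit_self x0⟩
  have h2 : (MulAction.orbit B x0).ncard ∣ q ^ a := by
    rw [← ha, ← MulAction.index_stabilizer]
    exact Subgroup.index_dvd_card _
  obtain ⟨b, hb, hm⟩ := (Nat.dvd_prime_pow hq).1 h2
  have h3 := Main.long_orbits hI hT hn hk hk3 hG hf ht B hBne x0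
  have hU := Upper.upper hI hT hn hk hk3 hG ht B x0
  rw [hcardP, hnp, hm] at h1
  rw [hm] at h3
  have hb0 : b ≠ 0 := by
    rintro rfl
    rw [pow_zero] at h3
    omega
  have hcop : Nat.Coprime k ((k - 1) ^ 2 + 1) := by
    obtain ⟨t, hkt⟩ := hodd
    have e1 : k - 1 = 2 * t := by omega
    rw [e1, hkt]
    have e2 : (2 * t) ^ 2 + 1 = 2 + (2 * t + 1) * (2 * t - 1) := by
      rcases Nat.eq_zero_or_pos t with h | h
      · omega
      · obtain ⟨u, hu⟩ : ∃ u, 2 * t = u + 1 := ⟨2 * t - 1, by omega⟩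
        rw [hu, Nat.add_sub_cancel]
        ring
    rw [e2, Nat.coprime_add_mul_left_right]
    exact (Nat.coprime_two_right).2 ⟨t, rfl⟩
  have h4 : q ^ b ∣ (k - 1) ^ 2 + 1 := by
    rcases (hcop.isPrimePow_dvd_mul (hq.isPrimePow.pow hb0)).1 h1 with h4 | h4
    · have := Nat.le_of_dvd (by omega) h4
      omega
    · exact h4
  have hqd : q ∣ (k - 1) ^ 2 + 1 := (dvd_pow_self q hb0).trans h4
  have hsemi := Semi.semiregular hI hT hn hk hk3 hG hf ht B hab q hq hPB hqd
  have hst : MulAction.stabilizer B x0 = ⊥ := by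
    rw [Subgroup.eq_bot_iff_forall]
    intro c hc
    by_contra hc1
    refine hsemi c.1 c.2 ?_ x0 (MulAction.mem_stabilizer_iff.1 hc)
    intro h
    exact hc1 (Subtype.ext h)
  have hB : Nat.card B = q ^ b := by
    rw [← hm, ← MulAction.index_stabilizer, hst, Subgroup.index_bot]
  have hR : ∀ r f : ℕ, r.Prime → 1 ≤ f → r ^ (2 * f - 1) ∣ k → r ^ f * q ^ b ≤ (k - 1) ^ 2 + 1 := by
    intro r f hr hf1 hrk
    rw [← hB]
    exact Big.prime_pow_factor hI hT hn hk hk3 hG ht B hab hsemi (by rw [hB]; exact h4) (by rw [hB]; exact h3) r hr f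
      hf1 hrk
  have hD := Galois.galois_case hI hT hn hk hk3 hG ht B q hq hexp x0 (by rw [hm]; exact h4)
  rw [hm] at hU hD
  have hk1 : k - 1 + 1 = k := Nat.sub_add_cancel (by omega : 1 ≤ k)
  refine ⟨q, b, hq, ?_, h4, h3, ?_, ?_, ?_⟩
  · by_contra hb2
    have hb1 : b = 1 := by omega
    rw [hb1, pow_one] at h3 h4 hB
    exact Ab6.no_prime' hI hT hn hk hk3 hG hf ht B q hq h3 hB h4
  · rw [hk1]
    exact hR
  · rw [hk1]
    exact hU
  · rw [hk1]
    exact hD

end

private theorem half {P L : Type*} [Finite P] [Finite L] (I : P → L → Prop) (n k : ℕ)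
    (hI : IsConfiguration I n k) (hT : TrilateralFree I) (hn : n = k * (k - 1) ^ 2 + k) (hodd : Odd k)
    (hk : 3 ≤ k) (G : Subgroup (Equiv.Perm P × Equiv.Perm L)) (hG : ∀ g ∈ G, ∀ p l, I (g.1 p) (g.2 l) ↔ I p l)
    (ht : ∀ p q : P, ∃ g ∈ G, g.1 p = q) (N : Subgroup G) (hN : N.Normal) (hne : N ≠ ⊥)
    (hS : Group.IsSolvable N) : ∃ q b : ℕ, Admissible (k - 1) q b := by
  classical
  let i1 : MulAction G P :=
    MulAction.compHom P ((MonoidHom.fst (Equiv.Perm P) (Equiv.Perm L)).comp G.subtype)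
  let i2 : MulAction G L :=
    MulAction.compHom L ((MonoidHom.snd (Equiv.Perm P) (Equiv.Perm L)).comp G.subtype)
  have e1 : ∀ (g : G) (p : P), g • p = g.1.1 p := fun g p => rfl
  have e2 : ∀ (g : G) (l : L), g • l = g.1.2 l := fun g l => rfl
  have a1 : ∀ (g : G) (p : P) (l : L), I (g • p) (g • l) ↔ I p l := by
    intro g p l
    rw [e1, e2]
    exact hG g.1 g.2 p l
  have a2 : ∀ g : G, (∀ p : P, g • p = p) → g = 1 := by
    intro g hg
    have h1 : ∀ p, g.1.1 p = p := fun p => hg p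
    have h2 : ∀ l, g.1.2 l = l := by
      intro l
      by_contra hl
      have h3 : ∀ p, I p l → I p (g.1.2 l) := by
        intro p hpl
        have := (hG g.1 g.2 p l).2 hpl
        rwa [h1] at this
      have h4 : 1 < {p | I p l}.ncard := by rw [hI.card_on_line]; omega
      obtain ⟨p, q, hp1, hq1, hpq⟩ := (Set.one_lt_ncard_iff).1 h4
      exact hl (hI.unique_line p q (g.1.2 l) l hpq (h3 p hp1) (h3 q hq1) hp1 hq1)
    apply Subtype.ext
    apply Prod.ext
    · exact Equiv.ext h1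
    · exact Equiv.ext h2
  have a3 : ∀ p q : P, ∃ g : G, g • p = q := by
    intro p q
    obtain ⟨g, hg, hgp⟩ := ht p q
    exact ⟨⟨g, hg⟩, hgp⟩
  exact solvable_case hI hT hn hk hodd a1 a2 a3 N hN hS hne

/-- For these even `s` there is no admissible prime power. -/
theorem not_admissible (s : ℕ) (h2 : 2 ≤ s) (hs : Even s) (h : Good s) (q b : ℕ) : ¬ Admissible s q b := by
  rintro ⟨h3, hb, h4, h5, hr, h6, h7⟩
  rcases h with h | h | h
  · exact Num.no_solution s q b (Nat.even_iff.1 hs) h2 h h3 h4 h5 h6 h7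
  · have h8 := hr (s + 1) 1 h le_rfl (by simp)
    rw [pow_one] at h8
    have h9 : (s + 1) * (2 * s + 1) ≤ (s + 1) * q ^ b := Nat.mul_le_mul_left _ h5
    nlinarith
  · exact absurd (h q b h3 hb h4) (by omega)

/-- Let `k ≥ 3` be odd, `I` a trilateral-free configuration `(n_k)` with `n = k (k - 1)² + k`, and `G` a group of
automorphisms of `I`, transitive on the points or on the lines. A solvable normal subgroup `N ≠ 1` gives an admissible
prime power `q ^ b`. If `k ≤ 1001`, or `k` is a prime, or no prime power `q ^ b > 2 (k - 1)` with `b ≥ 2` divides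
`(k - 1)² + 1`, then all solvable normal subgroups of `G` are trivial, and `G` is not solvable. -/
theorem all_parts {P L : Type*} (I : P → L → Prop) (n k : ℕ) (hI : IsConfiguration I n k)
    (hT : TrilateralFree I) (hn : n = k * (k - 1) ^ 2 + k) (hodd : Odd k) (hk : 3 ≤ k)
    (G : Subgroup (Equiv.Perm P × Equiv.Perm L)) (hG : G ≤ autGroup I)
    (ht : (∀ p q : P, ∃ g ∈ G, g.1 p = q) ∨ (∀ l m : L, ∃ g ∈ G, g.2 l = m)) :
    (∀ N : Subgroup G, N.Normal → Group.IsSolvable N → N ≠ ⊥ → ∃ q b : ℕ, Admissible (k - 1) q b) ∧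
    (Good (k - 1) → (∀ N : Subgroup G, N.Normal → Group.IsSolvable N → N = ⊥) ∧ ¬ Group.IsSolvable G) := by
  classical
  have : Finite P := Nat.finite_of_card_ne_zero (by rw [hI.card_points]; omega)
  have : Finite L := Nat.finite_of_card_ne_zero (by rw [hI.card_lines]; omega)
  have main : ∀ N : Subgroup G, N.Normal → Group.IsSolvable N → N ≠ ⊥ → ∃ q b : ℕ, Admissible (k - 1) q b := by
    intro N hN hS hne
    rcases ht with ht | ht
    · exact half I n k hI hT hn hodd hk G (fun g hg => hG hg) ht N hN hne hS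
    · obtain ⟨hI', hT'⟩ := dualize I n k hI hT
      let sw : Equiv.Perm P × Equiv.Perm L ≃* Equiv.Perm L × Equiv.Perm P := MulEquiv.prodComm
      let G' : Subgroup (Equiv.Perm L × Equiv.Perm P) := G.map sw.toMonoidHom
      let e : G ≃* G' := G.equivMapOfInjective sw.toMonoidHom sw.injective
      have h1 : (N.map e.toMonoidHom).Normal := hN.map e.toMonoidHom e.surjective
      have h0 : N.map e.toMonoidHom ≠ ⊥ :=
        fun h => hne ((Subgroup.map_eq_bot_iff_of_injective _ e.injective).1 h)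
      exact half (fun l p => I p l) n k hI' hT' hn hodd hk G' (by
        rintro _ ⟨g, hg, rfl⟩ l p
        exact hG hg p l) (by
        intro l m
        obtain ⟨g, hg, hgl⟩ := ht l m
        exact ⟨sw g, ⟨g, hg, rfl⟩, hgl⟩) (N.map e.toMonoidHom) h1 h0
        (Group.isSolvable_of_surjective
          (f := (N.equivMapOfInjective e.toMonoidHom e.injective).toMonoidHom)
          (N.equivMapOfInjective e.toMonoidHom e.injective).surjective)
  refine ⟨main, fun hs => ?_⟩
  have key : ∀ N : Subgroup G, N.Normal → Group.IsSolvable N → N = ⊥ := by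
    intro N hN hS
    by_contra hne
    obtain ⟨q, b, h⟩ := main N hN hS hne
    refine not_admissible (k - 1) (by omega) ?_ hs q b h
    obtain ⟨t, rfl⟩ := hodd
    exact ⟨t, by omega⟩
  refine ⟨key, ?_⟩
  intro hsol
  have h1 : (⊤ : Subgroup G) = ⊥ := key ⊤ inferInstance
    (Group.isSolvable_of_surjective (f := (Subgroup.topEquiv (G := G)).symm.toMonoidHom)
      (Subgroup.topEquiv (G := G)).symm.surjective)
  have h2 : ∀ g ∈ G, g = 1 := by
    intro g hg
    have h3 : (⟨g, hg⟩ : G) ∈ (⊤ : Subgroup G) := Subgroup.mem_top _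
    rw [h1, Subgroup.mem_bot] at h3
    exact congrArg Subtype.val h3
  have hn2 : 2 ≤ n := by rw [hn]; omega
  rcases ht with ht | ht
  · have h4 : 1 < Nat.card P := by rw [hI.card_points]; omega
    have := Finite.one_lt_card_iff_nontrivial.1 h4
    obtain ⟨p, q, hpq⟩ := exists_pair_ne P
    obtain ⟨g, hg, hgp⟩ := ht p q
    rw [h2 g hg] at hgp
    exact hpq hgp
  · have h4 : 1 < Nat.card L := by rw [hI.card_lines]; omega
    have := Finite.one_lt_card_iff_nontrivial.1 h4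
    obtain ⟨p, q, hpq⟩ := exists_pair_ne L
    obtain ⟨g, hg, hgp⟩ := ht p q
    rw [h2 g hg] at hgp
    exact hpq hgp

end Pool.Agent.Lib.MP_e0c1ed_co.Rad
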