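import Pool.Agent.Lib.MP_e0c1ed_co.AS3
import Pool.Agent.Lib.MP_e0c1ed_co.Rad

/-!
# MP_e0c1ed / AS4: almost simple groups for prime `k`

If `k` is a prime and `(k - 1)² + 1` has a prime factor `p > k`, then a point transitive group is almost simple.
-/

set_option autoImplicit false

namespace Pool.Agent.Lib.MP_e0c1ed_co.AS4

open Pool.Agent.Results.MP_e0c1ed_co.SelfDualSquare Pool.Agent.Lib.MP_e0c1ed_co

/-- a nontrivial element of `k`-power order has a power of order `k` -/
theorem exists_pow {X : Type*} [Group X] (k : ℕ) (b : X) (hb1 : b ≠ 1) (e : ℕ) (hb : b ^ (k ^ e) = 1) :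
    ∃ i, b ^ (k ^ i) ≠ 1 ∧ (b ^ (k ^ i)) ^ k = 1 := by
  induction e with
  | zero => exact absurd (by simpa using hb) hb1
  | succ e ih =>
    by_cases h : b ^ (k ^ e) = 1
    · exact ih h
    · exact ⟨e, h, by rw [← pow_mul, ← pow_succ]; exact hb⟩

/-- the arithmetic of two commuting elements -/
theorem arith (k p u c z : ℤ) (t v : ℤ) (hk : k = 2 * t + 1) (hu : u = 2 * v + 1) (ht : 1 ≤ t)
    (h1 : k * p * c = k ^ 2 + 2 * (k - 1) * z) (h2 : p * u = (k - 1) ^ 2 + 1) (hc0 : 0 ≤ c) (hcu : c ≤ u)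
    (hus : u < k - 1) : False := by
  have key : c - u - (k - 1) = 2 * (k - 1) *
      (v + k * u * (t + 1) + z * k * u - c * ((t + 1) + t + 2 * (2 * t) * t * (t + 1))) := by
    subst hk hu
    linear_combination ((2 * t + 1) * (2 * v + 1)) * h1 - ((2 * t + 1) ^ 2 * c) * h2
  set w := v + k * u * (t + 1) + z * k * u - c * ((t + 1) + t + 2 * (2 * t) * t * (t + 1)) with hw
  have hs : 2 ≤ k - 1 := by omega
  have h3 : -1 < w := by
    by_contra h
    have : w ≤ -1 := by omega
    nlinarith
  have h4 : w < 0 := by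
    by_contra h
    have : 0 ≤ w := by omega
    nlinarith
  omega

section
variable {P L G : Type*} [Finite P] [Finite L] [Group G] [Finite G] [MulAction G P] [MulAction G L]
  {I : P → L → Prop} {n k : ℕ}

/-- For a prime `k` no element of order `k` commutes with an element of prime order `p > k`, `p ∣ (k - 1)² + 1`. -/
theorem no_commute (hI : IsConfiguration I n k) (hT : TrilateralFree I) (hn : n = k * (k - 1) ^ 2 + k)
    (hk : k % 2 = 1) (hk3 : 3 ≤ k) (hkp : k.Prime) (hG : ∀ (g : G) (p : P) (l : L), I (g • p) (g • l) ↔ I p l)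
    (hf : ∀ g : G, (∀ p : P, g • p = p) → g = 1) (p u : ℕ) (hp : p.Prime) (hpk : k < p)
    (hps : p * u = (k - 1) ^ 2 + 1) (a b : G) (ha : a ^ p = 1) (ha1 : a ≠ 1) (hb : b ^ k = 1) (hb1 : b ≠ 1)
    (hab : a * b = b * a) : False := by
  classical
  have := Fact.mk hkp
  have := Fact.mk hp
  have h1 : ∀ x : P, a • x ≠ x := fun x hx =>
    ha1 (hf a (point_fixed hI hT hn (by omega) hG p hpk a ha x hx))
  have hbne : ∃ y : P, b • y ≠ y := by
    by_contra h
    push Not at h
    exact hb1 (hf b h)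
  have hn' : n = k * (p * u) := by rw [hn, hps]; ring
  have hus : u < k - 1 := by
    by_contra h
    have h2 : k - 1 ≤ u := by omega
    have h3 : (k + 1) * (k - 1) ≤ p * u := Nat.mul_le_mul hpk h2
    obtain ⟨s, rfl⟩ : ∃ s, k = s + 1 := ⟨k - 1, by omega⟩
    rw [hps, Nat.add_sub_cancel] at h3
    nlinarith
  have hcard : Nat.card P = n := hI.card_points
  have hkpc : Nat.Coprime k p := (Nat.coprime_primes hkp hp).2 (by omega)
  set F : Set P := {x | b • x = x} with hF
  set X : Set P := {x | b • x ≠ x ∧ ∃ l, I x l ∧ I (b • x) l} with hX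
  have hFp : p ∣ F.ncard := by
    have h2 := set_modEq a p ha F (by
      intro x hx
      change b • a • x = a • x
      rw [smul_smul, ← hab, ← smul_smul, show b • x = x from hx])
    have h3 : {x ∈ F | a • x = x} = ∅ := by
      rw [Set.eq_empty_iff_forall_notMem]
      rintro x ⟨-, hx⟩
      exact h1 x hx
    rw [h3, Set.ncard_empty] at h2
    exact (Nat.modEq_zero_iff_dvd).1 h2
  have hXp : p ∣ X.ncard := by
    have h2 := set_modEq a p ha X (fun x hx => moved_inv hG b a hab x hx)
    have h3 : {x ∈ X | a • x = x} = ∅ := by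
      rw [Set.eq_empty_iff_forall_notMem]
      rintro x ⟨-, hx⟩
      exact h1 x hx
    rw [h3, Set.ncard_empty] at h2
    exact (Nat.modEq_zero_iff_dvd).1 h2
  have hXk : k ∣ X.ncard := by
    have h2 := set_modEq b k hb X (fun x hx => moved_inv hG b b rfl x hx)
    have h3 : {x ∈ X | b • x = x} = ∅ := by
      rw [Set.eq_empty_iff_forall_notMem]
      rintro x ⟨hx, hx'⟩
      exact hx.1 hx'
    rw [h3, Set.ncard_empty] at h2
    exact (Nat.modEq_zero_iff_dvd).1 h2
  have hFk : k ∣ F.ncard := by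
    have h2 := set_modEq b k hb (Set.univ : Set P) (fun x _ => Set.mem_univ _)
    have h3 : {x ∈ (Set.univ : Set P) | b • x = x} = F := by
      ext x
      simp [hF]
    rw [h3, Set.ncard_univ, hcard, hn'] at h2
    exact (Nat.modEq_zero_iff_dvd).1 (h2.symm.trans (Nat.modEq_zero_iff_dvd.2 (Dvd.intro _ rfl)))
  rcases Nat.eq_zero_or_pos F.ncard with h0 | h0
  · obtain ⟨c, hc⟩ := hkpc.mul_dvd_of_dvd_of_dvd hXk hXp
    obtain ⟨z, hz⟩ := benson_act hI hT hn (by omega) hG b
    have hXle : X.ncard ≤ n := by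
      rw [← hcard, ← Set.ncard_univ]
      exact Set.ncard_le_ncard (Set.subset_univ _)
    have hcu : c ≤ u := by
      have h2 : k * p * c ≤ k * p * u := by
        rw [← hc, mul_assoc, ← hn']
        exact hXle
      exact Nat.le_of_mul_le_mul_left h2 (Nat.mul_pos hkp.pos hp.pos)
    have hz' : (k : ℤ) * (F.ncard : ℤ) + (X.ncard : ℤ) = (k : ℤ) ^ 2 + 2 * ((k : ℤ) - 1) * z := hz
    rw [h0, hc] at hz'
    push_cast at hz'
    have hps' : (p : ℤ) * u = ((k : ℤ) - 1) ^ 2 + 1 := by
      have := congrArg (fun x : ℕ => (x : ℤ)) hps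
      push_cast [Nat.cast_sub (by omega : 1 ≤ k)] at this
      exact this
    have huodd : u % 2 = 1 := by
      obtain ⟨t, ht⟩ : ∃ t, k - 1 = 2 * t := ⟨(k - 1) / 2, by omega⟩
      rw [ht] at hps
      have h5 : (p * u) % 2 = 1 := by
        rw [hps]
        have : (2 * t) ^ 2 + 1 = 2 * (2 * t ^ 2) + 1 := by ring
        omega
      rw [Nat.mul_mod] at h5
      rcases Nat.mod_two_eq_zero_or_one u with h6 | h6
      · rw [h6] at h5
        simp at h5
      · exact h6
    exact arith k p u c z ((k - 1) / 2 : ℕ) (u / 2 : ℕ) (by omega) (by omega) (by omega) (by linarith) hps'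
      (by positivity) (by exact_mod_cast hcu) (by omega)
  · have h2 : F.ncard * k ≤ n := fixed_le hI hT hn (by omega) hG b hb hbne
    obtain ⟨c, hc⟩ := hkpc.mul_dvd_of_dvd_of_dvd hFk hFp
    rw [hc] at h2 h0
    have hc0 : 1 ≤ c := by
      rcases Nat.eq_zero_or_pos c with h | h
      · rw [h] at h0; omega
      · exact h
    have h3 : k * p * (k * c) ≤ k * p * u := by
      calc k * p * (k * c) = k * p * c * k := by ring
        _ ≤ n := h2
        _ = k * p * u := by rw [hn']; ring
    have h4 := Nat.le_of_mul_le_mul_left h3 (Nat.mul_pos hkp.pos hp.pos)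
    have h5 : k * 1 ≤ k * c := Nat.mul_le_mul_left _ hc0
    omega

/-- A `k`-group (`k` a prime) fixing a point has at most `k` elements. -/
theorem card_stab (hI : IsConfiguration I n k) (hT : TrilateralFree I) (hn : n = k * (k - 1) ^ 2 + k)
    (hk3 : 3 ≤ k) (hkp : k.Prime) (hG : ∀ (g : G) (p : P) (l : L), I (g • p) (g • l) ↔ I p l)
    (hf : ∀ g : G, (∀ p : P, g • p = p) → g = 1) (x : P) (U : Subgroup G) (e : ℕ) (hU : Nat.card U = k ^ e)
    (hUx : ∀ g ∈ U, g • x = x) : Nat.card U ≤ k := by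
  classical
  have := Fact.mk hkp
  obtain ⟨l, hl⟩ : ({l | I x l} : Set L).Nonempty := by
    rw [← Set.ncard_pos, hI.card_through_point x]
    omega
  have hm : ∀ g : U, I x (g.1 • l) := by
    intro g
    have h1 := (hG g.1 x l).2 hl
    rwa [hUx g.1 g.2] at h1
  have hinj : Function.Injective (fun g : U => (⟨g.1 • l, hm g⟩ : {l | I x l})) := by
    intro g h hgh
    have h1 : g.1 • l = h.1 • l := congrArg Subtype.val hgh
    have h2 : (h⁻¹ * g).1 • l = l := by
      change (h.1⁻¹ * g.1) • l = l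
      rw [mul_smul, h1, inv_smul_smul]
    have h3 : h⁻¹ * g = 1 := by
      by_contra hne
      have h4 : (h⁻¹ * g) ^ (k ^ e) = 1 := by rw [← hU]; exact pow_card_eq_one'
      obtain ⟨i, h5, h6⟩ := exists_pow k (h⁻¹ * g) hne e h4
      set d := (h⁻¹ * g) ^ (k ^ i) with hd
      have h7 : d.1 ^ k = 1 := congrArg Subtype.val h6
      have h8 : d.1 • l = l := by
        have h9 : ∀ j : ℕ, ((h⁻¹ * g) ^ j).1 • l = l := by
          intro j
          induction j with
          | zero => simp
          | succ j ih =>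
            rw [pow_succ]
            change (((h⁻¹ * g) ^ j).1 * (h⁻¹ * g).1) • l = l
            rw [mul_smul, h2, ih]
        exact h9 _
      apply h5
      apply Subtype.ext
      exact hf d.1 (flag_fixed hI hT hn (by omega) hG k le_rfl d.1 h7 x l (hUx d.1 d.2) h8 hl)
    rw [inv_mul_eq_one] at h3
    exact h3.symm
  have h1 := Nat.card_le_card_of_injective _ hinj
  rwa [Nat.card_coe_set_eq, hI.card_through_point x] at h1

/-- `k ^ 3` does not divide the order of `G`. -/
theorem cube (hI : IsConfiguration I n k) (hT : TrilateralFree I) (hn : n = k * (k - 1) ^ 2 + k)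
    (hk3 : 3 ≤ k) (hkp : k.Prime) (hG : ∀ (g : G) (p : P) (l : L), I (g • p) (g • l) ↔ I p l)
    (hf : ∀ g : G, (∀ p : P, g • p = p) → g = 1) (ht : ∀ p q : P, ∃ g : G, g • p = q)
    (hcop : Nat.Coprime k ((k - 1) ^ 2 + 1)) : ¬ k ^ 3 ∣ Nat.card G := by
  classical
  intro h
  have := Fact.mk hkp
  have hPret : MulAction.IsPretransitive G P := ⟨ht⟩
  have hcard : Nat.card P = k * ((k - 1) ^ 2 + 1) := by
    rw [hI.card_points, hn]
    ring
  obtain ⟨x⟩ : Nonempty P := by
    rw [← Finite.card_pos_iff, hcard]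
    positivity
  have h1 : Nat.card P * Nat.card (MulAction.stabilizer G x) = Nat.card G := by
    rw [← MulAction.index_stabilizer_of_transitive G x, mul_comm]
    exact Subgroup.card_mul_index _
  rw [← h1, hcard, pow_succ' k 2, mul_assoc] at h
  have h2 := (Nat.Coprime.pow_left 2 hcop).dvd_of_dvd_mul_left (Nat.dvd_of_mul_dvd_mul_left hkp.pos h)
  obtain ⟨K, hK⟩ := Sylow.exists_subgroup_card_pow_prime k h2
  set U : Subgroup G := K.map (MulAction.stabilizer G x).subtype with hU
  have hUc : Nat.card U = k ^ 2 := by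
    rw [← hK]
    exact (Nat.card_congr (K.equivMapOfInjective _ (MulAction.stabilizer G x).subtype_injective).toEquiv).symm
  have h3 := card_stab hI hT hn hk3 hkp hG hf x U 2 hUc (by
    rintro _ ⟨g, -, rfl⟩
    exact g.2)
  rw [hUc] at h3
  nlinarith

/-- Every nontrivial normal subgroup has order divisible by `p`. -/
theorem dvd_card (hI : IsConfiguration I n k) (hT : TrilateralFree I) (hn : n = k * (k - 1) ^ 2 + k)
    (hk : k % 2 = 1) (hk3 : 3 ≤ k) (hkp : k.Prime) (hG : ∀ (g : G) (p : P) (l : L), I (g • p) (g • l) ↔ I p l)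
    (hf : ∀ g : G, (∀ p : P, g • p = p) → g = 1) (ht : ∀ p q : P, ∃ g : G, g • p = q)
    (hcop : Nat.Coprime k ((k - 1) ^ 2 + 1)) (p u : ℕ) (hp : p.Prime) (hpk : k < p)
    (hps : p * u = (k - 1) ^ 2 + 1) (N : Subgroup G) [N.Normal] (hne : N ≠ ⊥) : p ∣ Nat.card N := by
  classical
  by_contra hcon
  have := Fact.mk hkp
  have := Fact.mk hp
  have hPret : MulAction.IsPretransitive G P := ⟨ht⟩
  have hus : u < k - 1 := by
    by_contra h
    have h2 : k - 1 ≤ u := by omega
    have h3 : (k + 1) * (k - 1) ≤ p * u := Nat.mul_le_mul hpk h2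
    obtain ⟨s, rfl⟩ : ∃ s, k = s + 1 := ⟨k - 1, by omega⟩
    rw [hps, Nat.add_sub_cancel] at h3
    nlinarith
  have hu0 : 0 < u := by
    rcases Nat.eq_zero_or_pos u with h | h
    · rw [h, mul_zero] at hps
      omega
    · exact h
  have hcard : Nat.card P = k * (p * u) := by
    rw [hI.card_points, hn, hps]
    ring
  obtain ⟨x⟩ : Nonempty P := by
    rw [← Finite.card_pos_iff, hcard]
    exact Nat.mul_pos hkp.pos (Nat.mul_pos hp.pos hu0)
  have h1 : Nat.card P * Nat.card (MulAction.stabilizer G x) = Nat.card G := by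
    rw [← MulAction.index_stabilizer_of_transitive G x, mul_comm]
    exact Subgroup.card_mul_index _
  have hm := Main.long_orbits hI hT hn hk hk3 hG hf ht N hne x
  have h5 : (MulAction.orbit N x).ncard ∣ Nat.card P :=
    (MulAction.IsBlock.orbit_of_normal (G := G) (N := N) x).ncard_dvd_card ⟨x, MulAction.mem_orbit_self x⟩
  have h6 : (MulAction.orbit N x).ncard ∣ Nat.card N := by
    rw [← MulAction.index_stabilizer N x]
    exact Subgroup.index_dvd_card _
  have hkN : k ∣ Nat.card N := by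
    by_contra hkm
    have h7 : Nat.Coprime (MulAction.orbit N x).ncard k :=
      ((Nat.Prime.coprime_iff_not_dvd hkp).2 (fun h => hkm (h.trans h6))).symm
    have h8 : Nat.Coprime (MulAction.orbit N x).ncard p :=
      ((Nat.Prime.coprime_iff_not_dvd hp).2 (fun h => hcon (h.trans h6))).symm
    rw [hcard] at h5
    have h9 := h8.dvd_of_dvd_mul_left (h7.dvd_of_dvd_mul_left h5)
    have := Nat.le_of_dvd hu0 h9
    omega
  -- Frattini
  let R : Sylow k N := default
  set R' : Subgroup G := (R : Subgroup N).map N.subtype with hR'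
  have hFr : Subgroup.normalizer (R' : Set G) ⊔ N = ⊤ := Sylow.normalizer_sup_eq_top R
  have hcs := AS3.card_sup (Subgroup.normalizer (R' : Set G)) N
  rw [hFr, Subgroup.card_top] at hcs
  have hpG : p ∣ Nat.card G := by
    rw [← h1, hcard]
    exact Dvd.dvd.mul_right (Dvd.dvd.mul_left (Dvd.intro u rfl) k) _
  have hpH : p ∣ Nat.card (Subgroup.normalizer (R' : Set G)) := by
    have h7 : p ∣ Nat.card (Subgroup.normalizer (R' : Set G)) * Nat.card N := hcs ▸ hpG.mul_right _
    exact ((Nat.Prime.dvd_mul hp).1 h7).resolve_right hcon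
  obtain ⟨a, ha⟩ := exists_prime_orderOf_dvd_card' (G := Subgroup.normalizer (R' : Set G)) p hpH
  have hap : (a : G) ^ p = 1 := by
    have := pow_orderOf_eq_one a
    rw [ha] at this
    exact congrArg Subtype.val this
  have ha1 : (a : G) ≠ 1 := by
    intro h
    have h7 : a = 1 := Subtype.ext h
    rw [h7, orderOf_one] at ha
    exact hp.one_lt.ne ha
  -- the order of `R`
  obtain ⟨e, he⟩ := IsPGroup.iff_card.1 R.isPGroup'
  have hRc : Nat.card R' = k ^ e := by
    rw [← he]
    exact (Nat.card_congr ((R : Subgroup N).equivMapOfInjective _ N.subtype_injective).toEquiv).symm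
  have he2 : e ≤ 2 := by
    by_contra h
    apply cube hI hT hn hk3 hkp hG hf ht hcop
    exact (pow_dvd_pow k (by omega : 3 ≤ e)).trans (hRc ▸ Subgroup.card_subgroup_dvd_card R')
  have he1 : e ≠ 0 := by
    rintro rfl
    have h7 : ¬ k ∣ (R : Subgroup N).index := R.not_dvd_index
    have h8 := Subgroup.card_mul_index (R : Subgroup N)
    rw [he, pow_zero, one_mul] at h8
    exact h7 (h8 ▸ hkN)
  -- the action of `a` on `R' ∖ {1}`
  have hS : ∀ b ∈ ((R' : Set G) \ {1}), ConjAct.toConjAct (a : G) • b ∈ ((R' : Set G) \ {1}) := by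
    rintro b ⟨hb, hb1⟩
    rw [ConjAct.toConjAct_smul]
    refine ⟨(Subgroup.mem_normalizer_iff.1 a.2 b).1 hb, ?_⟩
    intro h
    apply hb1
    rw [Set.mem_singleton_iff] at h ⊢
    exact conj_eq_one_iff.1 h
  have h7 := set_modEq (ConjAct.toConjAct (a : G)) p (by rw [← map_pow, hap, map_one]) ((R' : Set G) \ {1}) hS
  have h8 : ((R' : Set G) \ {1}).ncard = k ^ e - 1 := by
    rw [Set.ncard_sdiff_singleton_of_mem R'.one_mem, ← Nat.card_coe_set_eq]
    change Nat.card R' - 1 = _
    rw [hRc]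
  have h9 : {b ∈ ((R' : Set G) \ {1}) | ConjAct.toConjAct (a : G) • b = b}.Nonempty := by
    by_contra h
    rw [Set.not_nonempty_iff_eq_empty] at h
    rw [h, Set.ncard_empty, h8, Nat.modEq_zero_iff_dvd] at h7
    obtain ⟨s, rfl⟩ : ∃ s, k = s + 1 := ⟨k - 1, by omega⟩
    have h10 : e = 1 ∨ e = 2 := by omega
    rcases h10 with rfl | rfl
    · rw [pow_one, Nat.add_sub_cancel] at h7
      have := Nat.le_of_dvd (by omega) h7
      omega
    · have h11 : (s + 1) ^ 2 - 1 = s * (s + 2) := by
        have : (s + 1) ^ 2 = s * (s + 2) + 1 := by ring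
        omega
      rw [h11] at h7
      rcases (Nat.Prime.dvd_mul hp).1 h7 with h12 | h12
      · have := Nat.le_of_dvd (by omega) h12
        omega
      · have h13 := Nat.le_of_dvd (by omega) h12
        have h14 : p = s + 2 := by omega
        rcases hp.eq_two_or_odd with h15 | h15
        · omega
        · omega
  obtain ⟨b, ⟨hb, hb1⟩, hab⟩ := h9
  rw [ConjAct.toConjAct_smul] at hab
  have hab' : (a : G) * b = b * a := by
    calc (a : G) * b = ((a : G) * b * (a : G)⁻¹) * a := by group
      _ = b * a := by rw [hab]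
  have hb2 : b ^ (k ^ e) = 1 := by
    have h10 : (⟨b, hb⟩ : R') ^ (k ^ e) = 1 := by rw [← hRc]; exact pow_card_eq_one'
    exact congrArg Subtype.val h10
  obtain ⟨i, h11, h12⟩ := exists_pow k b hb1 e hb2
  refine no_commute hI hT hn hk hk3 hkp hG hf p u hp hpk hps (a : G) (b ^ (k ^ i)) hap ha1 h12 h11 ?_
  have h13 : Commute (a : G) b := hab'
  exact h13.pow_right _

/-- Every nontrivial normal subgroup has order divisible by `k`. -/
theorem dvd_card_k (hI : IsConfiguration I n k) (hT : TrilateralFree I) (hn : n = k * (k - 1) ^ 2 + k)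
    (hk : k % 2 = 1) (hk3 : 3 ≤ k) (hkp : k.Prime) (hG : ∀ (g : G) (p : P) (l : L), I (g • p) (g • l) ↔ I p l)
    (hf : ∀ g : G, (∀ p : P, g • p = p) → g = 1) (ht : ∀ p q : P, ∃ g : G, g • p = q)
    (p u : ℕ) (hp : p.Prime) (hpk : k < p) (hps : p * u = (k - 1) ^ 2 + 1) (h2 : ¬ p ^ 2 ∣ Nat.card G)
    (N : Subgroup G) [N.Normal] (hpN : p ∣ Nat.card N) : k ∣ Nat.card N := by
  classical
  by_contra hcon
  have := Fact.mk hkp
  have := Fact.mk hp
  have hPret : MulAction.IsPretransitive G P := ⟨ht⟩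
  have hus : u < k - 1 := by
    by_contra h
    have h2 : k - 1 ≤ u := by omega
    have h3 : (k + 1) * (k - 1) ≤ p * u := Nat.mul_le_mul hpk h2
    obtain ⟨s, rfl⟩ : ∃ s, k = s + 1 := ⟨k - 1, by omega⟩
    rw [hps, Nat.add_sub_cancel] at h3
    nlinarith
  have hu0 : 0 < u := by
    rcases Nat.eq_zero_or_pos u with h | h
    · rw [h, mul_zero] at hps
      omega
    · exact h
  have hcard : Nat.card P = k * (p * u) := by
    rw [hI.card_points, hn, hps]
    ring
  obtain ⟨x⟩ : Nonempty P := by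
    rw [← Finite.card_pos_iff, hcard]
    exact Nat.mul_pos hkp.pos (Nat.mul_pos hp.pos hu0)
  have h1 : Nat.card P * Nat.card (MulAction.stabilizer G x) = Nat.card G := by
    rw [← MulAction.index_stabilizer_of_transitive G x, mul_comm]
    exact Subgroup.card_mul_index _
  let R : Sylow p N := default
  set R' : Subgroup G := (R : Subgroup N).map N.subtype with hR'
  have hFr : Subgroup.normalizer (R' : Set G) ⊔ N = ⊤ := Sylow.normalizer_sup_eq_top R
  have hcs := AS3.card_sup (Subgroup.normalizer (R' : Set G)) N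
  rw [hFr, Subgroup.card_top] at hcs
  have hkG : k ∣ Nat.card G := by
    rw [← h1, hcard]
    exact Dvd.dvd.mul_right (Dvd.intro _ rfl) _
  have hkH : k ∣ Nat.card (Subgroup.normalizer (R' : Set G)) := by
    have h7 : k ∣ Nat.card (Subgroup.normalizer (R' : Set G)) * Nat.card N := hcs ▸ hkG.mul_right _
    exact ((Nat.Prime.dvd_mul hkp).1 h7).resolve_right hcon
  obtain ⟨a, ha⟩ := exists_prime_orderOf_dvd_card' (G := Subgroup.normalizer (R' : Set G)) k hkH
  have hak : (a : G) ^ k = 1 := by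
    have := pow_orderOf_eq_one a
    rw [ha] at this
    exact congrArg Subtype.val this
  have ha1 : (a : G) ≠ 1 := by
    intro h
    have h7 : a = 1 := Subtype.ext h
    rw [h7, orderOf_one] at ha
    exact hkp.one_lt.ne ha
  obtain ⟨e, he⟩ := IsPGroup.iff_card.1 R.isPGroup'
  have hRc : Nat.card R' = p ^ e := by
    rw [← he]
    exact (Nat.card_congr ((R : Subgroup N).equivMapOfInjective _ N.subtype_injective).toEquiv).symm
  have he2 : e ≤ 1 := by
    by_contra h
    exact h2 ((pow_dvd_pow p (by omega : 2 ≤ e)).trans (hRc ▸ Subgroup.card_subgroup_dvd_card R'))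
  have he1 : e ≠ 0 := by
    rintro rfl
    have h7 : ¬ p ∣ (R : Subgroup N).index := R.not_dvd_index
    have h8 := Subgroup.card_mul_index (R : Subgroup N)
    rw [he, pow_zero, one_mul] at h8
    exact h7 (h8 ▸ hpN)
  have he3 : e = 1 := by omega
  rw [he3, pow_one] at hRc
  have hS : ∀ b ∈ ((R' : Set G) \ {1}), ConjAct.toConjAct (a : G) • b ∈ ((R' : Set G) \ {1}) := by
    rintro b ⟨hb, hb1⟩
    rw [ConjAct.toConjAct_smul]
    refine ⟨(Subgroup.mem_normalizer_iff.1 a.2 b).1 hb, ?_⟩
    intro h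
    apply hb1
    rw [Set.mem_singleton_iff] at h ⊢
    exact conj_eq_one_iff.1 h
  have h7 := set_modEq (ConjAct.toConjAct (a : G)) k (by rw [← map_pow, hak, map_one]) ((R' : Set G) \ {1}) hS
  have h8 : ((R' : Set G) \ {1}).ncard = p - 1 := by
    rw [Set.ncard_sdiff_singleton_of_mem R'.one_mem, ← Nat.card_coe_set_eq]
    change Nat.card R' - 1 = _
    rw [hRc]
  have h9 : {b ∈ ((R' : Set G) \ {1}) | ConjAct.toConjAct (a : G) • b = b} = ∅ := by
    rw [Set.eq_empty_iff_forall_notMem]
    rintro b ⟨⟨hb, hb1⟩, hab⟩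
    rw [ConjAct.toConjAct_smul] at hab
    have hab' : b * (a : G) = a * b := by
      calc b * (a : G) = ((a : G) * b * (a : G)⁻¹) * a := by rw [hab]
        _ = a * b := by group
    have hb2 : b ^ p = 1 := by
      have h10 : (⟨b, hb⟩ : R') ^ p = 1 := by rw [← hRc]; exact pow_card_eq_one'
      exact congrArg Subtype.val h10
    exact no_commute hI hT hn hk hk3 hkp hG hf p u hp hpk hps b (a : G) hb2 hb1 hak ha1 hab'
  rw [h9, Set.ncard_empty, h8, Nat.modEq_zero_iff_dvd] at h7
  -- `p ≡ 1` modulo `k`, so `u ≡ 2`, `u = 2`: but `u` is odd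
  obtain ⟨w, hw⟩ := h7
  obtain ⟨t, ht'⟩ : ∃ t, k = 2 * t + 1 := ⟨k / 2, by omega⟩
  have h10 : p = k * w + 1 := by
    have := hp.one_lt
    omega
  have h11 : k - 1 = 2 * t := by omega
  have h12 : k * (w * u) + u = 4 * (t * t) + 1 := by
    have : p * u = (2 * t) ^ 2 + 1 := by rw [hps, h11]
    rw [h10] at this
    nlinarith
  have h13 : 4 * (t * t) + 1 = k * (2 * t - 1) + 2 := by
    obtain ⟨v, rfl⟩ : ∃ v, t = v + 1 := ⟨t - 1, by omega⟩
    rw [ht']
    have : 2 * (v + 1) - 1 = 2 * v + 1 := by omega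
    rw [this]
    ring
  have h14 : u % k = 2 % k := by
    have h15 : (k * (w * u) + u) % k = (k * (2 * t - 1) + 2) % k := by rw [h12, h13]
    rwa [Nat.mul_add_mod, Nat.mul_add_mod] at h15
  rw [Nat.mod_eq_of_lt (by omega : u < k), Nat.mod_eq_of_lt (by omega : 2 < k)] at h14
  rw [h14, show k * (w * 2) = 2 * (k * w) by ring] at h12
  omega

/-- **If `k` is a prime and `(k - 1)² + 1` has a prime factor `p > k`, then a point transitive group is almost
simple.** -/
theorem main (hI : IsConfiguration I n k) (hT : TrilateralFree I) (hn : n = k * (k - 1) ^ 2 + k)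
    (hk : k % 2 = 1) (hk3 : 3 ≤ k) (hkp : k.Prime) (hG : ∀ (g : G) (p : P) (l : L), I (g • p) (g • l) ↔ I p l)
    (hf : ∀ g : G, (∀ p : P, g • p = p) → g = 1) (ht : ∀ p q : P, ∃ g : G, g • p = q)
    (p : ℕ) (hp : p.Prime) (hpk : k < p) (hps : p ∣ (k - 1) ^ 2 + 1) :
    ∃ T : Subgroup G, T.Normal ∧ IsSimpleGroup T ∧ (∃ a b : T, a * b ≠ b * a) ∧
      Subgroup.centralizer (T : Set G) = ⊥ := by
  classical
  obtain ⟨u, hu⟩ := hps
  have := Fact.mk hkp
  have := Fact.mk hp
  have hPret : MulAction.IsPretransitive G P := ⟨ht⟩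
  have hodd : Odd k := Nat.odd_iff.2 hk
  have hcop : Nat.Coprime k ((k - 1) ^ 2 + 1) := by
    obtain ⟨t, hkt⟩ := hodd
    have e1 : k - 1 = 2 * t := by omega
    rw [e1, hkt]
    have e2 : (2 * t) ^ 2 + 1 = 2 + (2 * t + 1) * (2 * t - 1) := by
      rcases Nat.eq_zero_or_pos t with h | h
      · omega
      · obtain ⟨u, hu⟩ : ∃ u, 2 * t = u + 1 := ⟨2 * t - 1, by omega⟩
        rw [hu, Nat.add_sub_cancel]
        ring
    rw [e2, Nat.coprime_add_mul_left_right]
    exact (Nat.coprime_two_right).2 ⟨t, rfl⟩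
  have hus : u < k - 1 := by
    by_contra h
    have h2 : k - 1 ≤ u := by omega
    have h3 : (k + 1) * (k - 1) ≤ p * u := Nat.mul_le_mul hpk h2
    obtain ⟨s, rfl⟩ : ∃ s, k = s + 1 := ⟨k - 1, by omega⟩
    rw [← hu, Nat.add_sub_cancel] at h3
    nlinarith
  have hu0 : 0 < u := by
    rcases Nat.eq_zero_or_pos u with h | h
    · rw [h, mul_zero] at hu
      omega
    · exact h
  have hcard : Nat.card P = k * (p * u) := by
    rw [hI.card_points, hn, ← hu]
    ring
  obtain ⟨x⟩ : Nonempty P := by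
    rw [← Finite.card_pos_iff, hcard]
    exact Nat.mul_pos hkp.pos (Nat.mul_pos hp.pos hu0)
  have h1 : Nat.card P * Nat.card (MulAction.stabilizer G x) = Nat.card G := by
    rw [← MulAction.index_stabilizer_of_transitive G x, mul_comm]
    exact Subgroup.card_mul_index _
  have hnt : Nontrivial G := by
    by_contra h
    rw [not_nontrivial_iff_subsingleton] at h
    have h1 : 1 < Nat.card P := by
      rw [hcard]
      have h3 : 1 ≤ p * u := Nat.mul_pos hp.pos hu0
      nlinarith
    have := Finite.one_lt_card_iff_nontrivial.1 h1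
    obtain ⟨a, b, hab⟩ := exists_pair_ne P
    obtain ⟨g, hg⟩ := ht a b
    rw [Subsingleton.elim g 1, one_smul] at hg
    exact hab hg
  refine AS3.almost_simple p hp ?_ ?_
  · intro h
    have h2 : ¬ p ∣ Nat.card (MulAction.stabilizer G x) := by
      intro h3
      obtain ⟨g, hg⟩ := exists_prime_orderOf_dvd_card' (G := MulAction.stabilizer G x) p h3
      have h4 : (g : G) ^ p = 1 := by
        have := pow_orderOf_eq_one g
        rw [hg] at this
        exact congrArg Subtype.val this
      have h5 := hf g (point_fixed hI hT hn (by omega) hG p hpk g h4 x g.2)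
      have h6 : g = 1 := Subtype.ext h5
      rw [h6, orderOf_one] at hg
      exact hp.one_lt.ne hg
    have h3 : p ^ 2 ∣ p * (k * u * Nat.card (MulAction.stabilizer G x)) := by
      have : p * (k * u * Nat.card (MulAction.stabilizer G x)) = Nat.card G := by
        rw [← h1, hcard]
        ring
      rw [this]
      exact h
    rw [pow_two] at h3
    have h4 := Nat.dvd_of_mul_dvd_mul_left hp.pos h3
    rcases (Nat.Prime.dvd_mul hp).1 h4 with h5 | h5
    · rcases (Nat.Prime.dvd_mul hp).1 h5 with h6 | h6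
      · have := Nat.le_of_dvd (by omega) h6
        omega
      · have := Nat.le_of_dvd hu0 h6
        omega
    · exact h2 h5
  · intro N hN hNe
    refine ⟨dvd_card hI hT hn hk hk3 hkp hG hf ht hcop p u hp hpk hu.symm N hNe, fun h => ?_⟩
    have hcyc : IsCyclic N := isCyclic_of_prime_card h
    have hS : Group.IsSolvable N := Group.isSolvable_of_comm fun a b => by
      obtain ⟨g, hg⟩ := hcyc.exists_generator
      obtain ⟨i, hi⟩ := hg a
      obtain ⟨j, hj⟩ := hg b
      rw [← hi, ← hj]
      change g ^ i * g ^ j = g ^ j * g ^ i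
      rw [← zpow_add, ← zpow_add, add_comm]
    obtain ⟨q, b, hqb⟩ := Rad.solvable_case hI hT hn hk3 hodd hG hf ht N hN hS hNe
    refine Rad.not_admissible (k - 1) (by omega) ?_ (Or.inr (Or.inl ?_)) q b hqb
    · obtain ⟨t, rfl⟩ := hodd
      exact ⟨t, by omega⟩
    · rw [Nat.sub_add_cancel (by omega : 1 ≤ k)]
      exact hkp

end

end Pool.Agent.Lib.MP_e0c1ed_co.AS4
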