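import Pool.Agent.Lib.MP_e0c1ed_co.Fin2
import Pool.Agent.Lib.MP_e0c1ed_co.Ovoid

/-!
# MP_e0c1ed / Tr: normal subgroups of transitive automorphism groups of extremal trilateral-free configurations
-/

set_option autoImplicit false

namespace Pool.Agent.Lib.MP_e0c1ed_co.Tr

open Pool.Agent.Results.MP_e0c1ed_co.SelfDualSquare Pool.Agent.Lib.MP_e0c1ed_co

/-- The group of automorphisms: pairs of a permutation of the points and a permutation of the lines which preserve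
incidence. -/
def autGroup {P L : Type*} (I : P → L → Prop) : Subgroup (Equiv.Perm P × Equiv.Perm L) where
  carrier := {g | ∀ p l, I (g.1 p) (g.2 l) ↔ I p l}
  mul_mem' := by
    intro g h hg hh p l
    change I (g.1 (h.1 p)) (g.2 (h.2 l)) ↔ I p l
    rw [hg, hh]
  one_mem' := fun p l => Iff.rfl
  inv_mem' := by
    intro g hg p l
    change I (g.1⁻¹ p) (g.2⁻¹ l) ↔ I p l
    rw [← hg]
    change I (g.1 (g.1.symm p)) (g.2 (g.2.symm l)) ↔ I p l
    rw [Equiv.apply_symm_apply, Equiv.apply_symm_apply]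

/-- `m` divides `n = (s + 1) (s² + 1)`, `m > 2 s`, `m ≠ s² + 1` and, with `c` the remainder of `m - 1` modulo `2 s`,
`c (s + 1) ≤ s² - 1 + m`. -/
def OrbitLength (s m : ℕ) : Prop :=
  m ∣ (s + 1) * (s ^ 2 + 1) ∧ 2 * s < m ∧ m ≠ s ^ 2 + 1 ∧ ((m - 1) % (2 * s)) * (s + 1) ≤ s ^ 2 - 1 + m

/-- `m = q ^ b` is a prime power with `b ≥ 2` dividing `s² + 1`, `m > 2 s`, and, with `c` the remainder of `m - 1`
modulo `2 s`, `c (s + 1) ≤ s² - 1 + m` and `2 s (q - 1)` divides `(s + 1) ((s² + 1) / m) ((s + 1) (m - 1) - c)`. -/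
def Admissible (s q b : ℕ) : Prop :=
  q.Prime ∧ 2 ≤ b ∧ q ^ b ∣ s ^ 2 + 1 ∧ 2 * s < q ^ b ∧
    ((q ^ b - 1) % (2 * s)) * (s + 1) ≤ s ^ 2 - 1 + q ^ b ∧
    2 * s * (q - 1) ∣ (s + 1) * ((s ^ 2 + 1) / q ^ b) * ((s + 1) * (q ^ b - 1) - (q ^ b - 1) % (2 * s))

private theorem half {P L : Type*} [Finite P] [Finite L] (I : P → L → Prop) (n k : ℕ)
    (hI : IsConfiguration I n k) (hT : TrilateralFree I) (hn : n = k * (k - 1) ^ 2 + k) (hodd : Odd k)
    (hk : 3 ≤ k) (G : Subgroup (Equiv.Perm P × Equiv.Perm L)) (hG : ∀ g ∈ G, ∀ p l, I (g.1 p) (g.2 l) ↔ I p l)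
    (ht : ∀ p q : P, ∃ g ∈ G, g.1 p = q) (N : Subgroup G) (hN : N.Normal) :
    (N ≠ ⊥ → ∀ x : P, OrbitLength (k - 1) {y | ∃ g ∈ N, g.1.1 x = y}.ncard) ∧
      ((∀ g h : G, g * h * g⁻¹ * h⁻¹ ∈ N) → ∀ (x : P) (ν : ℕ), n = ν * {y | ∃ g ∈ N, g.1.1 x = y}.ncard →
        ν ≤ k ∨ ν ∣ (k - 1) ^ 2 + 1) ∧
      (N ≠ ⊥ → Group.IsSolvable N → ∃ q b : ℕ, Admissible (k - 1) q b) := by
  classical
  have : Fintype P := Fintype.ofFinite P
  have : Fintype L := Fintype.ofFinite L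
  let i1 : MulAction G P :=
    MulAction.compHom P ((MonoidHom.fst (Equiv.Perm P) (Equiv.Perm L)).comp G.subtype)
  let i2 : MulAction G L :=
    MulAction.compHom L ((MonoidHom.snd (Equiv.Perm P) (Equiv.Perm L)).comp G.subtype)
  have e1 : ∀ (g : G) (p : P), g • p = g.1.1 p := fun g p => rfl
  have e2 : ∀ (g : G) (l : L), g • l = g.1.2 l := fun g l => rfl
  have a1 : ∀ (g : G) (p : P) (l : L), I (g • p) (g • l) ↔ I p l := by
    intro g p l
    rw [e1, e2]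
    exact hG g.1 g.2 p l
  have a2 : ∀ g : G, (∀ p : P, g • p = p) → g = 1 := by
    intro g hg
    have h1 : ∀ p, g.1.1 p = p := fun p => hg p
    have h2 : ∀ l, g.1.2 l = l := by
      intro l
      by_contra hl
      have h3 : ∀ p, I p l → I p (g.1.2 l) := by
        intro p hpl
        have := (hG g.1 g.2 p l).2 hpl
        rwa [h1] at this
      have h4 : 1 < {p | I p l}.ncard := by rw [hI.card_on_line]; omega
      obtain ⟨p, q, hp1, hq1, hpq⟩ := (Set.one_lt_ncard_iff).1 h4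
      exact hl (hI.unique_line p q (g.1.2 l) l hpq (h3 p hp1) (h3 q hq1) hp1 hq1)
    apply Subtype.ext
    apply Prod.ext
    · exact Equiv.ext h1
    · exact Equiv.ext h2
  have a3 : ∀ p q : P, ∃ g : G, g • p = q := by
    intro p q
    obtain ⟨g, hg, hgp⟩ := ht p q
    exact ⟨⟨g, hg⟩, hgp⟩
  have a4 : ∀ x : P, (MulAction.orbit N x) = {y | ∃ g ∈ N, g.1.1 x = y} := by
    intro x
    ext y
    constructor
    · rintro ⟨g, hg⟩
      exact ⟨g.1, g.2, hg⟩
    · rintro ⟨g, hg, h⟩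
      exact ⟨⟨g, hg⟩, h⟩
  refine ⟨?_, ?_, ?_⟩
  · intro hne x
    have h1 := Main.long_orbits hI hT hn (Nat.odd_iff.1 hodd) hk a1 a2 a3 N hne x
    have h3 := Ovoid.no_ovoid hI hT hn (Nat.odd_iff.1 hodd) hk a1 a3 N x
    have h4 := Upper.upper hI hT hn (Nat.odd_iff.1 hodd) hk a1 a3 N x
    have : MulAction.IsPretransitive G P := ⟨a3⟩
    have h5 : (MulAction.orbit N x).ncard ∣ Nat.card P :=
      (MulAction.IsBlock.orbit_of_normal (G := G) (N := N) x).ncard_dvd_card ⟨x, MulAction.mem_orbit_self x⟩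
    have h6 : Nat.card P = (k - 1 + 1) * ((k - 1) ^ 2 + 1) := by
      rw [hI.card_points, hn, Nat.sub_add_cancel (by omega : 1 ≤ k)]
      ring
    rw [h6] at h5
    rw [a4] at h1 h3 h4 h5
    refine ⟨h5, h1, h3, ?_⟩
    rwa [Nat.sub_add_cancel (by omega : 1 ≤ k)]
  · intro hab x ν hν
    have : Fintype N := Fintype.ofFinite N
    rw [← a4] at hν
    exact Ab5.abel hI hT hn (Nat.odd_iff.1 hodd) hk (fun g p l h => (a1 g p l).2 h) a3 N hab x ν hν
  · intro hne hS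
    obtain ⟨q, b, h1, hb, h2, h3, h4, h5⟩ := Fin2.solvable_case hI hT hn hk hodd a1 a2 a3 N hN hS hne
    refine ⟨q, b, h1, hb, h2, h3, ?_, ?_⟩
    · rwa [Nat.sub_add_cancel (by omega : 1 ≤ k)]
    · rwa [Nat.sub_add_cancel (by omega : 1 ≤ k)]

theorem dualize {P L : Type*} (I : P → L → Prop) (n k : ℕ) (hI : IsConfiguration I n k)
    (hT : TrilateralFree I) : IsConfiguration (fun l p => I p l) n k ∧ TrilateralFree (fun l p => I p l) := by
  refine ⟨⟨hI.card_lines, hI.card_points, hI.card_through_point, hI.card_on_line, ?_⟩, ?_⟩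
  · intro l m p q hlm h1 h2 h3 h4
    by_contra hpq
    exact hlm (hI.unique_line p q l m hpq h1 h3 h2 h4)
  · intro l m r p q s h1 h2 h3 h4 h5 h6 h7
    obtain ⟨a1, a2, a3, a4, a5, a6⟩ := h7
    exact hT p q s m r l h4 h5 h6 h2 h3 h1 ⟨a2, a3, a4, a5, a6, a1⟩

/-- `s ≤ 1000`, or no prime power `q ^ b > 2 s` with `b ≥ 2` divides `s² + 1`. -/
def Good (s : ℕ) : Prop :=
  s ≤ 1000 ∨ ∀ q b : ℕ, q.Prime → 2 ≤ b → q ^ b ∣ s ^ 2 + 1 → q ^ b ≤ 2 * s

/-- For these even `s` there is no admissible prime power. -/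
theorem not_admissible (s : ℕ) (h2 : 2 ≤ s) (hs : Even s) (h : Good s) (q b : ℕ) : ¬ Admissible s q b := by
  rintro ⟨h3, hb, h4, h5, h6, h7⟩
  rcases h with h | h
  · exact Num.no_solution s q b (Nat.even_iff.1 hs) h2 h h3 h4 h5 h6 h7
  · exact absurd (h q b h3 hb h4) (by omega)

private theorem full_of_prime (k : ℕ) (hk : 3 ≤ k) (h1 : k.Prime) (h2 : ((k - 1) ^ 2 + 1).Prime) {m : ℕ}
    (h : OrbitLength (k - 1) m) : m = (k - 1 + 1) * ((k - 1) ^ 2 + 1) := by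
  obtain ⟨h3, h4, h5, -⟩ := h
  rw [Nat.sub_add_cancel (by omega : 1 ≤ k)] at h3 ⊢
  obtain ⟨a, b, ha, hb, rfl⟩ := exists_dvd_and_dvd_of_dvd_mul h3
  rcases (Nat.dvd_prime h1).1 ha with rfl | rfl <;> rcases (Nat.dvd_prime h2).1 hb with rfl | rfl
  · omega
  · rw [one_mul] at h5
    exact absurd rfl h5
  · omega
  · rfl

/-- All parts in one statement. Let `k ≥ 3` be odd, `I` a trilateral-free configuration `(n_k)` with `n = k (k - 1)² + k`, and `G` a
group of automorphisms of `I`. If `G` is transitive on the points, then the lengths `m` of the point orbits of every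
normal subgroup `N ≠ 1` of `G` satisfy `OrbitLength`, and `N` is transitive on the points if `k` and `(k - 1)² + 1` are
primes; a normal subgroup with abelian quotient has at most `k` point orbits, or their number divides `(k - 1)² + 1`.
If `G` is transitive on the lines, then the same holds for the lines; in both cases a solvable normal `N ≠ 1` gives an
admissible prime power `q ^ b`. If `k ≤ 1001`, or if no prime power `q ^ b > 2 (k - 1)` with `b ≥ 2` divides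
`(k - 1)² + 1`, then all solvable normal subgroups of `G` are trivial, and `G` is not solvable. -/
theorem all_parts {P L : Type*} (I : P → L → Prop) (n k : ℕ) (hI : IsConfiguration I n k)
    (hT : TrilateralFree I) (hn : n = k * (k - 1) ^ 2 + k) (hodd : Odd k) (hk : 3 ≤ k)
    (G : Subgroup (Equiv.Perm P × Equiv.Perm L)) (hG : G ≤ autGroup I) :
    ((∀ p q : P, ∃ g ∈ G, g.1 p = q) → ∀ N : Subgroup G, N.Normal →
      (N ≠ ⊥ → ∀ x : P, OrbitLength (k - 1) {y | ∃ g ∈ N, g.1.1 x = y}.ncard) ∧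
      (N ≠ ⊥ → k.Prime → ((k - 1) ^ 2 + 1).Prime → ∀ x y : P, ∃ g ∈ N, g.1.1 x = y) ∧
      ((∀ g h : G, g * h * g⁻¹ * h⁻¹ ∈ N) → ∀ (x : P) (ν : ℕ), n = ν * {y | ∃ g ∈ N, g.1.1 x = y}.ncard →
        ν ≤ k ∨ ν ∣ (k - 1) ^ 2 + 1)) ∧
    ((∀ l m : L, ∃ g ∈ G, g.2 l = m) → ∀ N : Subgroup G, N.Normal →
      (N ≠ ⊥ → ∀ x : L, OrbitLength (k - 1) {y | ∃ g ∈ N, g.1.2 x = y}.ncard) ∧
      (N ≠ ⊥ → k.Prime → ((k - 1) ^ 2 + 1).Prime → ∀ x y : L, ∃ g ∈ N, g.1.2 x = y) ∧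
      ((∀ g h : G, g * h * g⁻¹ * h⁻¹ ∈ N) → ∀ (x : L) (ν : ℕ), n = ν * {y | ∃ g ∈ N, g.1.2 x = y}.ncard →
        ν ≤ k ∨ ν ∣ (k - 1) ^ 2 + 1)) ∧
    ((∀ p q : P, ∃ g ∈ G, g.1 p = q) ∨ (∀ l m : L, ∃ g ∈ G, g.2 l = m) →
      ∀ N : Subgroup G, N.Normal → Group.IsSolvable N → N ≠ ⊥ → ∃ q b : ℕ, Admissible (k - 1) q b) ∧
    ((∀ p q : P, ∃ g ∈ G, g.1 p = q) ∨ (∀ l m : L, ∃ g ∈ G, g.2 l = m) →
      Good (k - 1) → (∀ N : Subgroup G, N.Normal → Group.IsSolvable N → N = ⊥) ∧ ¬ Group.IsSolvable G) := by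
  classical
  have : Finite P := Nat.finite_of_card_ne_zero (by rw [hI.card_points]; omega)
  have : Finite L := Nat.finite_of_card_ne_zero (by rw [hI.card_lines]; omega)
  have mainP : (∀ p q : P, ∃ g ∈ G, g.1 p = q) → ∀ N : Subgroup G, N.Normal →
      (N ≠ ⊥ → ∀ x : P, OrbitLength (k - 1) {y | ∃ g ∈ N, g.1.1 x = y}.ncard) ∧
        ((∀ g h : G, g * h * g⁻¹ * h⁻¹ ∈ N) → ∀ (x : P) (ν : ℕ), n = ν * {y | ∃ g ∈ N, g.1.1 x = y}.ncard →
          ν ≤ k ∨ ν ∣ (k - 1) ^ 2 + 1) ∧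
        (N ≠ ⊥ → Group.IsSolvable N → ∃ q b : ℕ, Admissible (k - 1) q b) :=
    fun ht N hN => half I n k hI hT hn hodd hk G (fun g hg => hG hg) ht N hN
  have mainL : (∀ l m : L, ∃ g ∈ G, g.2 l = m) → ∀ N : Subgroup G, N.Normal →
      (N ≠ ⊥ → ∀ x : L, OrbitLength (k - 1) {y | ∃ g ∈ N, g.1.2 x = y}.ncard) ∧
        ((∀ g h : G, g * h * g⁻¹ * h⁻¹ ∈ N) → ∀ (x : L) (ν : ℕ), n = ν * {y | ∃ g ∈ N, g.1.2 x = y}.ncard →
          ν ≤ k ∨ ν ∣ (k - 1) ^ 2 + 1) ∧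
        (N ≠ ⊥ → Group.IsSolvable N → ∃ q b : ℕ, Admissible (k - 1) q b) := by
    intro ht N hN
    obtain ⟨hI', hT'⟩ := dualize I n k hI hT
    let sw : Equiv.Perm P × Equiv.Perm L ≃* Equiv.Perm L × Equiv.Perm P := MulEquiv.prodComm
    let G' : Subgroup (Equiv.Perm L × Equiv.Perm P) := G.map sw.toMonoidHom
    let e : G ≃* G' := G.equivMapOfInjective sw.toMonoidHom sw.injective
    have := hN
    have h1 : (N.map e.toMonoidHom).Normal := hN.map e.toMonoidHom e.surjective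
    have h0 : N ≠ ⊥ → N.map e.toMonoidHom ≠ ⊥ :=
      fun hne h => hne ((Subgroup.map_eq_bot_iff_of_injective _ e.injective).1 h)
    obtain ⟨h3, h6, h4⟩ := half (fun l p => I p l) n k hI' hT' hn hodd hk G' (by
      rintro _ ⟨g, hg, rfl⟩ l p
      exact hG hg p l) (by
      intro l m
      obtain ⟨g, hg, hgl⟩ := ht l m
      exact ⟨sw g, ⟨g, hg, rfl⟩, hgl⟩) (N.map e.toMonoidHom) h1
    have h5 : ∀ x : L, {y | ∃ g ∈ N.map e.toMonoidHom, g.1.1 x = y} = {y | ∃ g ∈ N, g.1.2 x = y} := by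
      intro x
      ext y
      constructor
      · rintro ⟨_, ⟨g, hg, rfl⟩, h⟩
        exact ⟨g, hg, h⟩
      · rintro ⟨g, hg, h⟩
        exact ⟨e g, ⟨g, hg, rfl⟩, h⟩
    refine ⟨?_, ?_, ?_⟩
    · intro hne x
      rw [← h5]
      exact h3 (h0 hne) x
    · intro hab x ν hν
      rw [← h5] at hν
      refine h6 ?_ x ν hν
      intro g h
      refine ⟨e.symm g * e.symm h * (e.symm g)⁻¹ * (e.symm h)⁻¹, hab _ _, ?_⟩
      show e _ = _
      simp
    · intro hne hS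
      exact h4 (h0 hne) (Group.isSolvable_of_surjective
        (f := (N.equivMapOfInjective e.toMonoidHom e.injective).toMonoidHom)
        (N.equivMapOfInjective e.toMonoidHom e.injective).surjective)
  have main : (∀ p q : P, ∃ g ∈ G, g.1 p = q) ∨ (∀ l m : L, ∃ g ∈ G, g.2 l = m) →
      ∀ N : Subgroup G, N.Normal → Group.IsSolvable N → N ≠ ⊥ → ∃ q b : ℕ, Admissible (k - 1) q b := by
    rintro (ht | ht) N hN hS hne
    · exact (mainP ht N hN).2.2 hne hS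
    · exact (mainL ht N hN).2.2 hne hS
  have hkk : (k - 1 + 1) * ((k - 1) ^ 2 + 1) = n := by
    rw [hn, Nat.sub_add_cancel (by omega : 1 ≤ k)]
    ring
  refine ⟨fun ht N hN => ⟨(mainP ht N hN).1, fun hne h1 h2 x y => ?_, (mainP ht N hN).2.1⟩,
    fun ht N hN => ⟨(mainL ht N hN).1, fun hne h1 h2 x y => ?_, (mainL ht N hN).2.1⟩, main, ?_⟩
  · have h3 := full_of_prime k hk h1 h2 ((mainP ht N hN).1 hne x)
    rw [hkk, ← hI.card_points, ← Set.ncard_univ] at h3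
    have h4 := Set.eq_of_subset_of_ncard_le (Set.subset_univ _) h3.ge
    have h5 : y ∈ {y | ∃ g ∈ N, g.1.1 x = y} := by rw [h4]; exact Set.mem_univ y
    exact h5
  · have h3 := full_of_prime k hk h1 h2 ((mainL ht N hN).1 hne x)
    rw [hkk, ← hI.card_lines, ← Set.ncard_univ] at h3
    have h4 := Set.eq_of_subset_of_ncard_le (Set.subset_univ _) h3.ge
    have h5 : y ∈ {y | ∃ g ∈ N, g.1.2 x = y} := by rw [h4]; exact Set.mem_univ y
    exact h5
  intro ht hs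
  have key : ∀ N : Subgroup G, N.Normal → Group.IsSolvable N → N = ⊥ := by
    intro N hN hS
    by_contra hne
    obtain ⟨q, b, h⟩ := main ht N hN hS hne
    refine not_admissible (k - 1) (by omega) ?_ hs q b h
    obtain ⟨t, rfl⟩ := hodd
    exact ⟨t, by omega⟩
  refine ⟨key, ?_⟩
  intro hsol
  have h1 : (⊤ : Subgroup G) = ⊥ := key ⊤ inferInstance
    (Group.isSolvable_of_surjective (f := (Subgroup.topEquiv (G := G)).symm.toMonoidHom)
      (Subgroup.topEquiv (G := G)).symm.surjective)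
  have h2 : ∀ g ∈ G, g = 1 := by
    intro g hg
    have h3 : (⟨g, hg⟩ : G) ∈ (⊤ : Subgroup G) := Subgroup.mem_top _
    rw [h1, Subgroup.mem_bot] at h3
    exact congrArg Subtype.val h3
  have hn2 : 2 ≤ n := by rw [hn]; omega
  rcases ht with ht | ht
  · have h4 : 1 < Nat.card P := by rw [hI.card_points]; omega
    have := Finite.one_lt_card_iff_nontrivial.1 h4
    obtain ⟨p, q, hpq⟩ := exists_pair_ne P
    obtain ⟨g, hg, hgp⟩ := ht p q
    rw [h2 g hg] at hgp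
    exact hpq hgp
  · have h4 : 1 < Nat.card L := by rw [hI.card_lines]; omega
    have := Finite.one_lt_card_iff_nontrivial.1 h4
    obtain ⟨p, q, hpq⟩ := exists_pair_ne L
    obtain ⟨g, hg, hgp⟩ := ht p q
    rw [h2 g hg] at hgp
    exact hpq hgp

end Pool.Agent.Lib.MP_e0c1ed_co.Tr
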