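import Pool.Agent.Lib.MP_e0c1ed_co.M8
import Pool.Agent.Lib.MP_e0c1ed_co.Tr

/-!
# MP_e0c1ed / AS5: `k` a prime and no possible orbit length divides `(k - 1)² + 1`: almost simple
-/

set_option autoImplicit false

namespace Pool.Agent.Lib.MP_e0c1ed_co.AS5

open Pool.Agent.Results.MP_e0c1ed_co.SelfDualSquare Pool.Agent.Lib.MP_e0c1ed_co Pool.Agent.Lib.MP_e0c1ed_co.Tr

variable {P L G : Type*} [Finite P] [Finite L] [Group G] [Finite G] [MulAction G P] [MulAction G L]
  {I : P → L → Prop} {n k : ℕ}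

/-- **If `k` is a prime and no divisor of `(k - 1)² + 1` satisfies `OrbitLength`, then a point transitive group is
almost simple.** -/
theorem main (hI : IsConfiguration I n k) (hT : TrilateralFree I) (hn : n = k * (k - 1) ^ 2 + k)
    (hk : k % 2 = 1) (hk3 : 3 ≤ k) (hkp : k.Prime) (hG : ∀ (g : G) (p : P) (l : L), I (g • p) (g • l) ↔ I p l)
    (hf : ∀ g : G, (∀ p : P, g • p = p) → g = 1) (ht : ∀ p q : P, ∃ g : G, g • p = q)
    (hm : ∀ m : ℕ, m ∣ (k - 1) ^ 2 + 1 → ¬ OrbitLength (k - 1) m) :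
    ∃ T : Subgroup G, T.Normal ∧ IsSimpleGroup T ∧ (∃ a b : T, a * b ≠ b * a) ∧
      Subgroup.centralizer (T : Set G) = ⊥ := by
  classical
  by_cases h2 : k ^ 2 ∣ Nat.card G
  · exact M8.main hI hT hn hk hk3 hkp hG hf ht h2
  have := Fact.mk hkp
  have hPret : MulAction.IsPretransitive G P := ⟨ht⟩
  have hcard : Nat.card P = k * ((k - 1) ^ 2 + 1) := by
    rw [hI.card_points, hn]
    ring
  obtain ⟨x⟩ : Nonempty P := by
    rw [← Finite.card_pos_iff, hcard]
    exact Nat.mul_pos hkp.pos (Nat.succ_pos _)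
  have hnt : Nontrivial G := by
    by_contra h
    rw [not_nontrivial_iff_subsingleton] at h
    have h1 : 1 < Nat.card P := by
      rw [hcard]
      have h3 : 1 ≤ (k - 1) ^ 2 + 1 := Nat.succ_pos _
      nlinarith
    have := Finite.one_lt_card_iff_nontrivial.1 h1
    obtain ⟨a, b, hab⟩ := exists_pair_ne P
    obtain ⟨g, hg⟩ := ht a b
    rw [Subsingleton.elim g 1, one_smul] at hg
    exact hab hg
  refine AS3.almost_simple k hkp h2 ?_
  intro N hN hNe
  constructor
  · by_contra hcon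
    have h3 := Main.long_orbits hI hT hn hk hk3 hG hf ht N hNe x
    have h4 := Ovoid.no_ovoid hI hT hn hk hk3 hG ht N x
    have hU := Upper.upper hI hT hn hk hk3 hG ht N x
    have h5 : (MulAction.orbit N x).ncard ∣ Nat.card P :=
      (MulAction.IsBlock.orbit_of_normal (G := G) (N := N) x).ncard_dvd_card ⟨x, MulAction.mem_orbit_self x⟩
    have h6 : (MulAction.orbit N x).ncard ∣ Nat.card N := by
      rw [← MulAction.index_stabilizer N x]
      exact Subgroup.index_dvd_card _
    have h7 : Nat.Coprime (MulAction.orbit N x).ncard k :=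
      ((Nat.Prime.coprime_iff_not_dvd hkp).2 (fun h => hcon (h.trans h6))).symm
    rw [hcard] at h5
    have h8 := h7.dvd_of_dvd_mul_left h5
    refine hm _ h8 ⟨h8.mul_left _, h3, h4, ?_⟩
    rw [Nat.sub_add_cancel (by omega : 1 ≤ k)]
    exact hU
  · intro h
    have hcyc : IsCyclic N := isCyclic_of_prime_card h
    have hS : Group.IsSolvable N := Group.isSolvable_of_comm fun a b => by
      obtain ⟨g, hg⟩ := hcyc.exists_generator
      obtain ⟨i, hi⟩ := hg a
      obtain ⟨j, hj⟩ := hg b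
      rw [← hi, ← hj]
      change g ^ i * g ^ j = g ^ j * g ^ i
      rw [← zpow_add, ← zpow_add, add_comm]
    exact hNe (K8.no_solvable hI hT hn hk hk3 hG hf ht N hN hS)

/-- `k = 19` satisfies the condition. -/
theorem nineteen : ∀ m : ℕ, m ∣ (19 - 1) ^ 2 + 1 → ¬ OrbitLength (19 - 1) m := by
  rintro m ⟨c, hc⟩ ⟨-, h3, h4, h5⟩
  norm_num at hc h3 h4 h5
  have h6 : c ≤ 9 := by
    by_contra h
    have h7 : 36 * 10 ≤ m * c := Nat.mul_le_mul (by omega) (by omega)
    omega
  interval_cases c <;> omega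

end Pool.Agent.Lib.MP_e0c1ed_co.AS5
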