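import Pool.Agent.Lib.MP_e0c1ed_co.Ub

/-!
# MP_e0c1ed / Ab1: averages over cosets of a normal subgroup with abelian quotient
-/

set_option autoImplicit false

namespace Pool.Agent.Lib.MP_e0c1ed_co.Ab1

open Finset Pool.Agent.Results.MP_e0c1ed_co.SelfDualSquare Bens Grp Orb Norm

section
variable {P L G : Type*} [Fintype P] [Fintype L] [DecidableEq P] [Group G] [MulAction G P] [MulAction G L]
  {I : P → L → Prop} {n k : ℕ}

/-- the average over the coset of `g` -/
noncomputable def E (I : P → L → Prop) (n k : ℕ) (N : Subgroup G) [Fintype N] (g : G) : Matrix P P ℚ :=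
  (1 / (Fintype.card N : ℚ)) • ∑ b : N, T I n k (g * (b : G))

theorem E_mul (hI : IsConfiguration I n k) (hT : TrilateralFree I) (hn : n = k * (k - 1) ^ 2 + k) (hk : 2 ≤ k)
    (hinv : ∀ (g : G) x l, I x l → I (g • x) (g • l)) (N : Subgroup G) [N.Normal] [Fintype N] (g h : G) :
    E I n k N g * E I n k N h = E I n k N (g * h) := by
  have hB : (Fintype.card N : ℚ) ≠ 0 := by
    exact_mod_cast Fintype.card_ne_zero
  unfold E
  rw [Matrix.smul_mul, Matrix.mul_smul, Finset.sum_mul_sum]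
  have h1 : ∀ b : N, ∑ c : N, T I n k (g * (b : G)) * T I n k (h * (c : G)) = ∑ c : N, T I n k (g * h * (c : G)) := by
    intro b
    rw [← Equiv.sum_comp (Equiv.mulLeft (MulAut.conjNormal h⁻¹ b : N)) (fun c : N => T I n k (g * h * (c : G)))]
    refine Finset.sum_congr rfl fun c _ => ?_
    rw [T_mul hI hT hn hk hinv]
    congr 1
    rw [Equiv.coe_mulLeft, Subgroup.coe_mul, MulAut.conjNormal_apply]
    group
  rw [Finset.sum_congr rfl (fun b _ => h1 b), Finset.sum_const, Finset.card_univ, smul_smul, ← Nat.cast_smul_eq_nsmul ℚ,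
    smul_smul]
  congr 1
  field_simp

theorem E_pow (hI : IsConfiguration I n k) (hT : TrilateralFree I) (hn : n = k * (k - 1) ^ 2 + k) (hk : 2 ≤ k)
    (hinv : ∀ (g : G) x l, I x l → I (g • x) (g • l)) (N : Subgroup G) [N.Normal] [Fintype N] (g : G) (j : ℕ) :
    (E I n k N g) ^ (j + 1) = E I n k N (g ^ (j + 1)) := by
  induction j with
  | zero => simp
  | succ j ih => rw [pow_succ, ih, E_mul hI hT hn hk hinv, pow_succ g (j + 1)]

/-- **(1)** -/
theorem coset_avg [Finite G] (hI : IsConfiguration I n k) (hT : TrilateralFree I) (hn : n = k * (k - 1) ^ 2 + k)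
    (hk : 2 ≤ k) (hinv : ∀ (g : G) x l, I x l → I (g • x) (g • l)) (N : Subgroup G) [N.Normal] [Fintype N] (g : G) :
    ∃ z : ℤ, ∑ b : N, ∑ x, S I x ((g * (b : G)) • x) = Fintype.card N * ((k : ℚ) ^ 2 + (2 * k - 2) * z) := by
  have hk1 : (2 * (k : ℚ) - 2) ≠ 0 := by
    have : (2 : ℚ) ≤ k := by exact_mod_cast hk
    intro h
    linarith
  have hB : (Fintype.card N : ℚ) ≠ 0 := by
    exact_mod_cast Fintype.card_ne_zero
  obtain ⟨z, hz⟩ := IntTrace.int_trace (E I n k N g) (orderOf g) (orderOf_pos g) (by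
    rw [E_pow hI hT hn hk hinv, pow_succ, pow_orderOf_eq_one, one_mul])
  refine ⟨z, ?_⟩
  unfold E at hz
  rw [Matrix.trace_smul, Matrix.trace_sum,
    Finset.sum_congr rfl (fun (b : N) _ => T_trace hI (n_ne hn hk) (g * (b : G))),
    ← Finset.sum_div, Finset.sum_sub_distrib, Finset.sum_const, Finset.card_univ, nsmul_eq_mul, smul_eq_mul] at hz
  rw [one_div, inv_mul_eq_iff_eq_mul₀ hB, div_eq_iff hk1] at hz
  linarith

/-- the sum over the orbit of `y` under `N` -/
noncomputable def rho (I : P → L → Prop) (N : Subgroup G) [Fintype N] (x y : P) : ℚ :=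
  ∑ w ∈ univ.image (fun b : N => b • y), S I x w

/-- the sum over a coset is the same at all points -/
theorem coset_const (hinv : ∀ (g : G) x l, I x l → I (g • x) (g • l)) (N : Subgroup G) [N.Normal] [Fintype N]
    (hab : ∀ a b : G, a⁻¹ * b⁻¹ * a * b ∈ N) (g h : G) (x : P) :
    ∑ b : N, S I (h • x) ((g * (b : G)) • (h • x)) = ∑ b : N, S I x ((g * (b : G)) • x) := by
  rw [← Equiv.sum_comp (((MulAut.conjNormal h⁻¹ : N ≃* N).toEquiv).trans (Equiv.mulLeft (⟨g⁻¹ * h⁻¹ * g * h, hab g h⟩ : N)))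
    (fun b : N => S I x ((g * (b : G)) • x))]
  refine Finset.sum_congr rfl fun b _ => ?_
  have h1 : (g * (b : G)) • (h • x) = h • ((g * (((((MulAut.conjNormal h⁻¹ : N ≃* N).toEquiv).trans
      (Equiv.mulLeft (⟨g⁻¹ * h⁻¹ * g * h, hab g h⟩ : N))) b : N) : G)) • x) := by
    rw [← mul_smul, ← mul_smul]
    congr 1
    show g * (b : G) * h = h * (g * ((⟨g⁻¹ * h⁻¹ * g * h, hab g h⟩ : N) * (MulAut.conjNormal h⁻¹ b : N) : N))
    rw [Subgroup.coe_mul, MulAut.conjNormal_apply]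
    group
  rw [h1, S_inv hinv]

theorem coset_sum (N : Subgroup G) [N.Normal] [Fintype N] (g : G) (x : P) :
    ∑ b : N, S I x ((g * (b : G)) • x) = ((univ.filter fun b : N => b • x = x).card : ℚ) * rho I N x (g • x) := by
  have h1 : ∀ b : N, S I x ((g * (b : G)) • x) = (fun y => S I x (g • y)) (b • x) := by
    intro b
    show S I x ((g * (b : G)) • x) = S I x (g • ((b : G) • x))
    rw [mul_smul]
  rw [Finset.sum_congr rfl (fun b _ => h1 b), sum_orbit (B := N) x (fun y => S I x (g • y))]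
  congr 1
  unfold rho
  refine Finset.sum_nbij' (fun y => g • y) (fun y => g⁻¹ • y) ?_ ?_ ?_ ?_ ?_
  · intro y hy
    obtain ⟨b, -, rfl⟩ := Finset.mem_image.1 hy
    refine Finset.mem_image.2 ⟨(MulAut.conjNormal g b : N), Finset.mem_univ _, ?_⟩
    show ((MulAut.conjNormal g b : N) : G) • (g • x) = g • ((b : G) • x)
    rw [MulAut.conjNormal_apply, ← mul_smul, ← mul_smul]
    congr 1
    group
  · intro y hy
    obtain ⟨b, -, rfl⟩ := Finset.mem_image.1 hy
    refine Finset.mem_image.2 ⟨(MulAut.conjNormal g⁻¹ b : N), Finset.mem_univ _, ?_⟩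
    show ((MulAut.conjNormal g⁻¹ b : N) : G) • x = g⁻¹ • ((b : G) • (g • x))
    rw [MulAut.conjNormal_apply, ← mul_smul, ← mul_smul]
    congr 1
    group
  · intro y _
    exact inv_smul_smul g y
  · intro y _
    exact smul_inv_smul g y
  · intro y _
    rfl

/-- **(2)** -/
theorem rho_eq [Finite G] (hI : IsConfiguration I n k) (hT : TrilateralFree I) (hn : n = k * (k - 1) ^ 2 + k)
    (hk : 2 ≤ k) (hinv : ∀ (g : G) x l, I x l → I (g • x) (g • l)) (ht : ∀ x y : P, ∃ g : G, g • x = y)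
    (N : Subgroup G) [N.Normal] [Fintype N] (hab : ∀ a b : G, a⁻¹ * b⁻¹ * a * b ∈ N) (x y : P) :
    ∃ z : ℤ, (n : ℚ) * rho I N x y = (MulAction.orbit N x).ncard * ((k : ℚ) ^ 2 + (2 * k - 2) * z) := by
  obtain ⟨g, rfl⟩ := ht x y
  obtain ⟨z, hz⟩ := coset_avg hI hT hn hk hinv N g
  refine ⟨z, ?_⟩
  obtain ⟨σ, m, c, a, r, hσ, hm, hcard, hm1, -⟩ := Ub.orbit_data hI hT hn hk hinv ht N x
  have hσ0 : (σ : ℚ) ≠ 0 := by
    have : 0 < σ := by rw [hσ]; exact Finset.card_pos.2 ⟨1, by simp⟩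
    exact_mod_cast this.ne'
  have hcardP : (Fintype.card P : ℚ) = n := by
    rw [← Nat.card_eq_fintype_card, hI.card_points]
  have h1 : ∀ y, ∑ b : N, S I y ((g * (b : G)) • y) = ∑ b : N, S I x ((g * (b : G)) • x) := by
    intro y
    obtain ⟨h, rfl⟩ := ht x y
    exact coset_const hinv N hab g h x
  rw [Finset.sum_comm, Finset.sum_congr rfl (fun y _ => h1 y), Finset.sum_const, Finset.card_univ, nsmul_eq_mul, hcardP,
    coset_sum, ← hσ, hcard] at hz
  rw [← hm]
  push_cast at hz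
  have h2 : (σ : ℚ) * (n * rho I N x (g • x)) = σ * (m * ((k : ℚ) ^ 2 + (2 * k - 2) * z)) := by
    linear_combination hz
  exact mul_left_cancel₀ hσ0 h2

/-- **(1)**, form of the skeleton -/
theorem coset_int [Finite G] (hI : IsConfiguration I n k) (hT : TrilateralFree I) (hn : n = k * (k - 1) ^ 2 + k)
    (hk : 2 ≤ k) (hinv : ∀ (g : G) x l, I x l → I (g • x) (g • l)) (N : Subgroup G) [N.Normal] [Fintype N] (g : G) :
    ∃ z : ℤ, ∑ b : N, ∑ x, S I x ((g * (b : G)) • x) = Fintype.card N * ((k : ℚ) ^ 2 + (2 * k - 2) * z) :=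
  coset_avg hI hT hn hk hinv N g

/-- **(2)**, form of the skeleton -/
theorem all_int [Finite G] (hI : IsConfiguration I n k) (hT : TrilateralFree I) (hn : n = k * (k - 1) ^ 2 + k)
    (hk : 2 ≤ k) (hinv : ∀ (g : G) x l, I x l → I (g • x) (g • l)) (ht : ∀ x y : P, ∃ g : G, g • x = y)
    (N : Subgroup G) [N.Normal] [Fintype N] (hab : ∀ g h : G, g * h * g⁻¹ * h⁻¹ ∈ N) (x y : P) :
    ∃ z : ℤ, (n : ℚ) * ∑ b : N, S I x ((b : G) • y) = Fintype.card N * ((k : ℚ) ^ 2 + (2 * k - 2) * z) := by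
  have hab' : ∀ a b : G, a⁻¹ * b⁻¹ * a * b ∈ N := by
    intro a b
    have := hab a⁻¹ b⁻¹
    rwa [inv_inv, inv_inv] at this
  have hcardP : (Fintype.card P : ℚ) = n := by
    rw [← Nat.card_eq_fintype_card, hI.card_points]
  obtain ⟨g, rfl⟩ := ht x y
  obtain ⟨z, hz⟩ := coset_avg hI hT hn hk hinv N g
  refine ⟨z, ?_⟩
  have h1 : ∀ y, ∑ b : N, S I y ((g * (b : G)) • y) = ∑ b : N, S I x ((g * (b : G)) • x) := by
    intro y
    obtain ⟨h, rfl⟩ := ht x y
    exact coset_const hinv N hab' g h x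
  have h2 : ∑ b : N, S I x ((b : G) • (g • x)) = ∑ b : N, S I x ((g * (b : G)) • x) := by
    rw [← Equiv.sum_comp ((MulAut.conjNormal g : N ≃* N).toEquiv) (fun b : N => S I x ((b : G) • (g • x)))]
    refine Finset.sum_congr rfl fun b _ => ?_
    congr 1
    show ((MulAut.conjNormal g b : N) : G) • (g • x) = _
    rw [MulAut.conjNormal_apply, ← mul_smul]
    congr 1
    group
  rw [Finset.sum_comm, Finset.sum_congr rfl (fun y _ => h1 y), Finset.sum_const, Finset.card_univ, nsmul_eq_mul, hcardP] at hz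
  rw [h2, hz]

end

end Pool.Agent.Lib.MP_e0c1ed_co.Ab1
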