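import Pool.Agent.Lib.MP_e0c1ed_co.Norm

/-!
# MP_e0c1ed / Ab3: the collinearity kernel summed over a group

`R x y` is the sum of `S x (b • y)` over `b` in the group `B` (any group of automorphisms). Its row sums and the row sums of its squares.
-/

set_option autoImplicit false

namespace Pool.Agent.Lib.MP_e0c1ed_co.Ab3

open Finset Pool.Agent.Results.MP_e0c1ed_co.SelfDualSquare Bens Grp

section
variable {P L B : Type*} [Fintype P] [Fintype L] [DecidableEq P] [Group B] [Fintype B] [MulAction B P] [MulAction B L]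
  {I : P → L → Prop} {n k : ℕ}

/-- the kernel summed over the group -/
noncomputable def R (I : P → L → Prop) (B : Type*) [Group B] [Fintype B] [MulAction B P] (x y : P) : ℚ :=
  ∑ b : B, S I x (b • y)

omit [Fintype P] [DecidableEq P] [MulAction B L] in
theorem R_right (c : B) (x y : P) : R I B x (c • y) = R I B x y := by
  unfold R
  rw [← Equiv.sum_comp (Equiv.mulRight c) (fun b : B => S I x (b • y))]
  refine Finset.sum_congr rfl fun b _ => ?_
  rw [smul_smul]
  rfl

theorem R_comm (hinv : ∀ (b : B) x l, I x l → I (b • x) (b • l)) (x y : P) : R I B x y = R I B y x := by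
  unfold R
  rw [← Equiv.sum_comp (Equiv.inv B) (fun b : B => S I y (b • x))]
  refine Finset.sum_congr rfl fun b _ => ?_
  change S I x (b • y) = S I y (b⁻¹ • x)
  rw [← S_inv hinv b y (b⁻¹ • x), smul_inv_smul, S_comm]

theorem R_left (hinv : ∀ (b : B) x l, I x l → I (b • x) (b • l)) (c : B) (x y : P) :
    R I B (c • x) y = R I B x y := by
  rw [R_comm hinv, R_right, R_comm hinv]

omit [DecidableEq P] [MulAction B L] in
theorem R_sum (hI : IsConfiguration I n k) (x : P) :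
    ∑ y, R I B x y = (Fintype.card B : ℚ) * (k : ℚ) ^ 2 := by
  unfold R
  rw [Finset.sum_comm]
  have h1 : ∀ b : B, ∑ y, S I x (b • y) = (k : ℚ) ^ 2 := by
    intro b
    rw [← S_sum_right hI x]
    exact Equiv.sum_comp (MulAction.toPerm b : Equiv.Perm P) (fun y => S I x y)
  rw [Finset.sum_congr rfl (fun b _ => h1 b), Finset.sum_const, Finset.card_univ, nsmul_eq_mul]

theorem R_sq (hI : IsConfiguration I n k) (hT : TrilateralFree I) (hn : n = k * (k - 1) ^ 2 + k) (hk : 1 ≤ k)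
    (hinv : ∀ (b : B) x l, I x l → I (b • x) (b • l)) (x : P) :
    ∑ y, R I B x y ^ 2 = (Fintype.card B : ℚ) * ((2 * (k : ℚ) - 2) * R I B x x + k * (Fintype.card B : ℚ)) := by
  have h1 : ∀ y, R I B x y ^ 2 = ∑ b : B, S I x (b • y) * R I B (b • y) x := by
    intro y
    rw [pow_two]
    conv_lhs => rw [R, Finset.sum_mul]
    refine Finset.sum_congr rfl fun b _ => ?_
    rw [R_left hinv, R_comm hinv y x]
    rfl
  rw [Finset.sum_congr rfl (fun y _ => h1 y), Finset.sum_comm]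
  have h2 : ∀ b : B, ∑ y, S I x (b • y) * R I B (b • y) x = (2 * (k : ℚ) - 2) * R I B x x + k * (Fintype.card B : ℚ) := by
    intro b
    have h3 : ∑ y, S I x (b • y) * R I B (b • y) x = ∑ y, S I x y * R I B y x :=
      Equiv.sum_comp (MulAction.toPerm b : Equiv.Perm P) (fun y => S I x y * R I B y x)
    rw [h3]
    have h4 : ∀ y, S I x y * R I B y x = ∑ c : B, S I x y * S I y (c • x) := by
      intro y
      rw [R, Finset.mul_sum]
    rw [Finset.sum_congr rfl (fun y _ => h4 y), Finset.sum_comm,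
      Finset.sum_congr rfl (fun c _ => SS hI hT hn hk x (c • x)), Finset.sum_add_distrib, ← Finset.mul_sum,
      Finset.sum_const, Finset.card_univ, nsmul_eq_mul, R]
    ring
  rw [Finset.sum_congr rfl (fun b _ => h2 b), Finset.sum_const, Finset.card_univ, nsmul_eq_mul]

/-- if `n R x y = |B| (k² + 2 (k - 1) z y)` with integers `z y`, then `∑ z = 0` and `∑ z² = n z x` -/
theorem sums (hI : IsConfiguration I n k) (hT : TrilateralFree I) (hn : n = k * (k - 1) ^ 2 + k) (hk : 2 ≤ k)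
    (hinv : ∀ (b : B) x l, I x l → I (b • x) (b • l)) (x : P) (z : P → ℤ)
    (hz : ∀ y, (n : ℚ) * R I B x y = (Fintype.card B : ℚ) * ((k : ℚ) ^ 2 + (2 * (k : ℚ) - 2) * z y)) :
    ∑ y, z y = 0 ∧ ∑ y, z y ^ 2 = n * z x := by
  have hk1 : (2 * (k : ℚ) - 2) ≠ 0 := by
    have : (2 : ℚ) ≤ k := by exact_mod_cast hk
    intro h
    linarith
  have hB : (Fintype.card B : ℚ) ≠ 0 := by
    exact_mod_cast Fintype.card_ne_zero
  have hcard : (Fintype.card P : ℚ) = n := by
    rw [← Nat.card_eq_fintype_card, hI.card_points]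
  have hnc : (n : ℚ) = k * (((k : ℚ) - 1) ^ 2 + 1) := by
    have h1 : ((k - 1 : ℕ) : ℚ) = (k : ℚ) - 1 := by
      rw [Nat.cast_sub (by omega), Nat.cast_one]
    rw [hn]
    push_cast [h1]
    ring
  have h0 : ∑ y, (n : ℚ) * R I B x y = n * ((Fintype.card B : ℚ) * (k : ℚ) ^ 2) := by
    rw [← Finset.mul_sum, R_sum hI]
  have h1 : (∑ y, (z y : ℚ)) = 0 := by
    rw [Finset.sum_congr rfl (fun y _ => hz y), ← Finset.mul_sum, Finset.sum_add_distrib, Finset.sum_const,
      Finset.card_univ, nsmul_eq_mul, hcard, ← Finset.mul_sum] at h0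
    have h2 : (Fintype.card B : ℚ) * ((2 * (k : ℚ) - 2) * ∑ y, (z y : ℚ)) = 0 := by linear_combination h0
    rcases mul_eq_zero.1 h2 with h3 | h3
    · exact absurd h3 hB
    · rcases mul_eq_zero.1 h3 with h4 | h4
      · exact absurd h4 hk1
      · exact h4
  refine ⟨by exact_mod_cast h1, ?_⟩
  have h2 : ∑ y, ((n : ℚ) * R I B x y) ^ 2 =
      n ^ 2 * ((Fintype.card B : ℚ) * ((2 * (k : ℚ) - 2) * R I B x x + k * (Fintype.card B : ℚ))) := by
    rw [← R_sq hI hT hn (by omega) hinv x, Finset.mul_sum]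
    exact Finset.sum_congr rfl fun y _ => by ring
  have h3 : ∀ y, ((n : ℚ) * R I B x y) ^ 2 = (Fintype.card B : ℚ) ^ 2 * ((k : ℚ) ^ 4) +
      (Fintype.card B : ℚ) ^ 2 * (2 * (k : ℚ) ^ 2 * (2 * (k : ℚ) - 2)) * z y +
      (Fintype.card B : ℚ) ^ 2 * (2 * (k : ℚ) - 2) ^ 2 * (z y : ℚ) ^ 2 := by
    intro y
    rw [hz]
    ring
  rw [Finset.sum_congr rfl (fun y _ => h3 y), Finset.sum_add_distrib, Finset.sum_add_distrib, Finset.sum_const,
    Finset.card_univ, nsmul_eq_mul, hcard, ← Finset.mul_sum, ← Finset.mul_sum, h1] at h2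
  have h4 := hz x
  have h5 : (Fintype.card B : ℚ) ^ 2 * (2 * (k : ℚ) - 2) ^ 2 * (∑ y, (z y : ℚ) ^ 2) =
      (Fintype.card B : ℚ) ^ 2 * (2 * (k : ℚ) - 2) ^ 2 * (n * z x) := by
    have h6 : (Fintype.card B : ℚ) ^ 2 * (2 * (k : ℚ) - 2) ^ 2 * (∑ y, (z y : ℚ) ^ 2) =
        n * (Fintype.card B : ℚ) * (2 * (k : ℚ) - 2) * (n * R I B x x) + n ^ 2 * (Fintype.card B : ℚ) ^ 2 * k -
          n * ((Fintype.card B : ℚ) ^ 2 * (k : ℚ) ^ 4) := by
      linear_combination h2
    rw [h6, h4, hnc]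
    ring
  have h7 : (∑ y, (z y : ℚ) ^ 2) = n * z x := by
    apply mul_left_cancel₀ _ h5
    exact mul_ne_zero (pow_ne_zero 2 hB) (pow_ne_zero 2 hk1)
  exact_mod_cast h7

end

section
variable {P L G : Type*} [Fintype P] [Fintype L] [DecidableEq P] [Group G] [MulAction G P] [MulAction G L]
  {I : P → L → Prop} {n k : ℕ}

/-- proof: `S_sum_right` -/
theorem sum_one (hI : IsConfiguration I n k) (N : Subgroup G) [Fintype N] (x : P) :
    ∑ y, ∑ b : N, S I x ((b : G) • y) = Fintype.card N * (k : ℚ) ^ 2 :=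
  R_sum (B := N) hI x

/-- proof: expand, `S x (b y) = S (b⁻¹ x) y` (`S_inv`), `SS`, `S (b⁻¹ x) (b'⁻¹ x) = S x (b b'⁻¹ x)`, substitution -/
theorem sum_two (hI : IsConfiguration I n k) (hT : TrilateralFree I) (hn : n = k * (k - 1) ^ 2 + k) (hk : 2 ≤ k)
    (hinv : ∀ (g : G) x l, I x l → I (g • x) (g • l)) (N : Subgroup G) [Fintype N] (x : P) :
    ∑ y, (∑ b : N, S I x ((b : G) • y)) ^ 2 =
      Fintype.card N * ((2 * k - 2) * ∑ b : N, S I x ((b : G) • x) + k * Fintype.card N) :=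
  R_sq (B := N) hI hT hn (by omega) (fun b x l h => hinv (b : G) x l h) x

/-- consequences for the integers `z` -/
theorem two_sums (hI : IsConfiguration I n k) (hT : TrilateralFree I) (hn : n = k * (k - 1) ^ 2 + k) (hk : 2 ≤ k)
    (hinv : ∀ (g : G) x l, I x l → I (g • x) (g • l)) (N : Subgroup G) [Fintype N] (x : P) (z : P → ℤ)
    (hz : ∀ y, (n : ℚ) * ∑ b : N, S I x ((b : G) • y) = Fintype.card N * ((k : ℚ) ^ 2 + (2 * k - 2) * z y)) :
    ∑ y, z y = 0 ∧ ∑ y, (z y) ^ 2 = n * z x :=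
  sums (B := N) hI hT hn hk (fun b x l h => hinv (b : G) x l h) x z hz

end

end Pool.Agent.Lib.MP_e0c1ed_co.Ab3
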