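import Pool.Agent.Lib.MP_e0c1ed_co.Ab1
import Pool.Agent.Lib.MP_e0c1ed_co.Ab3
import Pool.Agent.Lib.MP_e0c1ed_co.Ab4

/-!
# MP_e0c1ed / Ab5: the number of orbits of a normal subgroup with abelian quotient
-/

set_option autoImplicit false

namespace Pool.Agent.Lib.MP_e0c1ed_co.Ab5

open Finset Pool.Agent.Results.MP_e0c1ed_co.SelfDualSquare Bens Grp Orb

section
variable {P L G : Type*} [Fintype P] [Fintype L] [Group G] [Finite G] [MulAction G P] [MulAction G L]
  {I : P → L → Prop} {n k : ℕ}

theorem S_int (x y : P) : ∃ r : ℤ, S I x y = r ∧ 0 ≤ r := by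
  classical
  refine ⟨∑ m, (if I x m ∧ I y m then 1 else 0), ?_, Finset.sum_nonneg fun m _ => by split_ifs <;> norm_num⟩
  unfold S
  push_cast
  refine Finset.sum_congr rfl fun m _ => ?_
  by_cases h1 : I x m
  · by_cases h2 : I y m
    · rw [inc_of I h1, inc_of I h2]; simp [h1, h2]
    · rw [inc_of_not I h2]; simp [h2]
  · rw [inc_of_not I h1]; simp [h1]

/-- **The number of orbits of a normal subgroup with abelian quotient is at most `k` or divides `(k - 1)² + 1`.** -/
theorem abel (hI : IsConfiguration I n k) (hT : TrilateralFree I) (hn : n = k * (k - 1) ^ 2 + k) (hk : k % 2 = 1)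
    (hk3 : 3 ≤ k) (hinv : ∀ (g : G) x l, I x l → I (g • x) (g • l)) (ht : ∀ x y : P, ∃ g : G, g • x = y)
    (N : Subgroup G) [N.Normal] [Fintype N] (hab : ∀ g h : G, g * h * g⁻¹ * h⁻¹ ∈ N) (x : P) (ν : ℕ)
    (hν : n = ν * (MulAction.orbit N x).ncard) : ν ≤ k ∨ ν ∣ (k - 1) ^ 2 + 1 := by
  classical
  obtain ⟨s, rfl⟩ : ∃ s, k = s + 1 := ⟨k - 1, by omega⟩
  choose z hz using fun y => Ab1.all_int hI hT hn (by omega) hinv ht N hab x y
  obtain ⟨h1, h2⟩ := Ab3.two_sums hI hT hn (by omega) hinv N x z hz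
  set m := (MulAction.orbit N x).ncard with hm
  have hcardP : Fintype.card P = n := by rw [← Nat.card_eq_fintype_card, hI.card_points]
  have hn' : n = (s + 1) * (s ^ 2 + 1) := by rw [hn, Nat.add_sub_cancel]; ring
  have hn0 : 0 < n := by rw [hn']; positivity
  have hm1 : 1 ≤ m := by
    rcases Nat.eq_zero_or_pos m with h | h
    · rw [h, mul_zero] at hν; omega
    · exact h
  have hOy : ∀ y : P, (univ.image (fun b : N => b • y)).card = m := by
    intro y
    rw [hm, Norm.orbit_ncard ht N x y, ← Set.ncard_coe_finset]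
    congr 1
    ext w
    simp [MulAction.mem_orbit_iff]
  have hstab : ∀ y : P, ((univ.filter fun b : N => b • y = y).card : ℚ) ≠ 0 := by
    intro y
    have : 0 < (univ.filter fun b : N => b • y = y).card := Finset.card_pos.2 ⟨1, by simp⟩
    exact_mod_cast this.ne'
  have hcard : ∀ y : P, (Fintype.card N : ℚ) = ((univ.filter fun b : N => b • y = y).card : ℚ) * m := by
    intro y
    have := sum_orbit (B := N) y (fun _ => (1 : ℚ))
    rw [Finset.sum_const, Finset.sum_const, Finset.card_univ, nsmul_eq_mul, nsmul_eq_mul, mul_one, mul_one, hOy] at this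
    exact this
  have hm0 : (m : ℚ) ≠ 0 := by exact_mod_cast (by omega : m ≠ 0)
  have hνn : (n : ℚ) = ν * m := by exact_mod_cast hν
  have hk2 : (((s + 1 : ℕ) : ℚ)) = s + 1 := by push_cast; ring
  -- the key equation
  have hkey : ∀ y : P, (ν : ℚ) * ∑ w ∈ univ.image (fun b : N => b • y), S I x w = ((s : ℚ) + 1) ^ 2 + 2 * s * z y := by
    intro y
    have h3 := hz y
    have h4 := sum_orbit (B := N) y (fun w => S I x w)
    have h5 : ∑ b : N, S I x ((b : G) • y) = ∑ b : N, S I x (b • y) := rfl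
    rw [h5, h4, hcard y, hνn, hk2] at h3
    have h6 : (((univ.filter fun b : N => b • y = y).card : ℚ) * m) *
        ((ν : ℚ) * ∑ w ∈ univ.image (fun b : N => b • y), S I x w) =
        (((univ.filter fun b : N => b • y = y).card : ℚ) * m) * (((s : ℚ) + 1) ^ 2 + 2 * s * z y) := by
      linear_combination h3
    exact mul_left_cancel₀ (mul_ne_zero (hstab y) hm0) h6
  have hdiv : ∀ y, (ν : ℤ) ∣ ((s : ℤ) + 1) ^ 2 + 2 * s * z y := by
    intro y
    choose r hr hr0 using fun w => S_int (I := I) x w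
    refine ⟨∑ w ∈ univ.image (fun b : N => b • y), r w, ?_⟩
    have h3 := hkey y
    rw [Finset.sum_congr rfl (fun w _ => hr w)] at h3
    exact_mod_cast h3.symm
  have hzT : ∀ y ∈ univ.image (fun b : N => b • x), z y = z x := by
    intro y hy
    obtain ⟨b0, -, rfl⟩ := Finset.mem_image.1 hy
    have h3 := hkey (b0 • x)
    have h4 := hkey x
    have h5 : univ.image (fun b : N => b • b0 • x) = univ.image (fun b : N => b • x) := by
      ext w
      simp only [Finset.mem_image, Finset.mem_univ, true_and]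
      constructor
      · rintro ⟨b, rfl⟩; exact ⟨b * b0, mul_smul _ _ _⟩
      · rintro ⟨b, rfl⟩; exact ⟨b * b0⁻¹, by rw [mul_smul, inv_smul_smul]⟩
    rw [h5, h4] at h3
    have h6 : (s : ℚ) ≠ 0 := by
      have : 2 ≤ s := by omega
      exact_mod_cast (by omega : s ≠ 0)
    have h7 : (z x : ℚ) = z (b0 • x) := by
      have h8 : (2 * (s : ℚ)) * z x = (2 * (s : ℚ)) * z (b0 • x) := by linarith
      exact mul_left_cancel₀ (mul_ne_zero two_ne_zero h6) h8
    exact_mod_cast h7.symm
  rcases Ab4.int_case z x (univ.image (fun b : N => b • x)) n m ν s (by omega) (by omega) hn' hν hm1 (hOy x) hzT hcardP h1 h2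
    hdiv with h | h
  · left
    have h3 := hkey x
    rw [h] at h3
    have h4 : ((s : ℚ) + 1) ≤ ∑ w ∈ univ.image (fun b : N => b • x), S I x w := by
      have h5 : S I x x = ((s : ℚ) + 1) := by rw [S_self hI]; push_cast; ring
      rw [← h5]
      refine Finset.single_le_sum (f := fun w => S I x w) (fun w _ => ?_) (Finset.mem_image.2 ⟨1, Finset.mem_univ _, one_smul _ _⟩)
      obtain ⟨r, hr, hr0⟩ := S_int (I := I) x w
      show 0 ≤ S I x w
      rw [hr]
      exact_mod_cast hr0
    have h6 : (ν : ℚ) * (s + 1) ≤ (s + 1) * (s + 1) := by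
      have h7 : (ν : ℚ) * (s + 1) ≤ ν * ∑ w ∈ univ.image (fun b : N => b • x), S I x w :=
        mul_le_mul_of_nonneg_left h4 (Nat.cast_nonneg _)
      rw [h3] at h7
      push_cast at h7
      linarith
    have h8 : (ν : ℚ) ≤ s + 1 := le_of_mul_le_mul_right h6 (by positivity)
    exact_mod_cast h8
  · right
    rw [Nat.add_sub_cancel]
    exact h

end

end Pool.Agent.Lib.MP_e0c1ed_co.Ab5
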