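import Pool.Agent.Lib.MP_e0c1ed_co.Ab1
import Pool.Agent.Lib.MP_e0c1ed_co.TransRad

/-!
# MP_e0c1ed / Ab5a: the centralizer of a normal subgroup of prime order
-/

set_option autoImplicit false

namespace Pool.Agent.Lib.MP_e0c1ed_co.Ab5a

open Finset Pool.Agent.Results.MP_e0c1ed_co.SelfDualSquare
open scoped Pointwise

/-- If all orbits in an invariant set have `m` elements, then `m` divides the cardinality of the set. -/
theorem dvd_ncard {N α : Type*} [Group N] [MulAction N α] [Finite α] (m : ℕ) (X : Set α)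
    (hX : ∀ (g : N), ∀ x ∈ X, g • x ∈ X) (hm : ∀ x ∈ X, (MulAction.orbit N x).ncard = m) : m ∣ X.ncard := by
  classical
  have : Fintype α := Fintype.ofFinite α
  let f : α → Quotient (MulAction.orbitRel N α) := fun x => Quotient.mk _ x
  have h1 : X.toFinset.card = ∑ b ∈ X.toFinset.image f, (X.toFinset.filter fun a => f a = b).card :=
    Finset.card_eq_sum_card_image f X.toFinset
  have h2 : ∀ b ∈ X.toFinset.image f, (X.toFinset.filter fun a => f a = b).card = m := by
    intro b hb
    obtain ⟨x, hx, rfl⟩ := Finset.mem_image.1 hb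
    rw [Set.mem_toFinset] at hx
    rw [← hm x hx, ← Set.ncard_coe_finset]
    congr 1
    ext y
    simp only [Finset.coe_filter, Set.mem_toFinset, Set.mem_ofPred_eq]
    constructor
    · rintro ⟨-, h⟩
      exact MulAction.orbitRel_apply.1 (Quotient.exact h)
    · intro h
      refine ⟨?_, Quotient.sound (MulAction.orbitRel_apply.2 h)⟩
      obtain ⟨g, rfl⟩ := h
      exact hX g x hx
  rw [Set.ncard_eq_toFinset_card', h1, Finset.sum_congr rfl h2, Finset.sum_const, smul_eq_mul]
  exact Dvd.intro_left _ rfl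

/-- The centralizer of a normal subgroup `B` of prime order `q`. -/
theorem cent_data {G : Type*} [Group G] [Finite G] (B : Subgroup G) [B.Normal] (q : ℕ) (hq : q.Prime)
    (hB : Nat.card B = q) :
    ∃ N : Subgroup G, N.Normal ∧ (∀ g h : G, g * h * g⁻¹ * h⁻¹ ∈ N) ∧ N.index ∣ q - 1 ∧
      ∀ g ∈ N, ∀ b ∈ B, g * b = b * g := by
  have hqF : Fact q.Prime := ⟨hq⟩
  have hcyc : IsCyclic B := isCyclic_of_prime_card hB
  let φ : G →* MulAut B := MulAut.conjNormal
  have hcomm : ∀ a b : MulAut B, a * b = b * a := by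
    intro a b
    apply (IsCyclic.mulAutMulEquiv B).injective
    rw [map_mul, map_mul, mul_comm]
  refine ⟨φ.ker, inferInstance, ?_, ?_, ?_⟩
  · intro g h
    rw [MonoidHom.mem_ker, map_mul, map_mul, map_mul, map_inv, map_inv, hcomm (φ g) (φ h)]
    group
  · rw [Subgroup.index_ker]
    have h1 : Nat.card φ.range ∣ Nat.card (MulAut B) := Subgroup.card_subgroup_dvd_card _
    rw [IsCyclic.card_mulAut, hB, Nat.totient_prime hq] at h1
    exact h1
  · intro g hg b hb
    have h1 : φ g ⟨b, hb⟩ = ⟨b, hb⟩ := by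
      rw [MonoidHom.mem_ker.1 hg]; rfl
    have h2 : g * b * g⁻¹ = b := by
      have := congrArg Subtype.val h1
      rwa [MulAut.conjNormal_apply] at this
    rw [mul_inv_eq_iff_eq_mul] at h2
    exact h2

section
variable {P L G : Type*} [Finite P] [Finite L] [Group G] [Finite G] [MulAction G P] [MulAction G L]
  {I : P → L → Prop} {n k : ℕ}

/-- the number of orbits of a normal subgroup divides its index -/
theorem orbits_dvd_index (ht : ∀ x y : P, ∃ g : G, g • x = y) (N : Subgroup G) [N.Normal] (x : P) :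
    ∃ ν : ℕ, ν * (MulAction.orbit N x).ncard = Nat.card P ∧ ν ∣ N.index := by
  have : MulAction.IsPretransitive G P := ⟨ht⟩
  have hb := MulAction.IsBlock.orbit_of_normal (G := G) (N := N) x
  have h1 := hb.ncard_block_mul_ncard_orbit_eq ⟨x, MulAction.mem_orbit_self x⟩
  refine ⟨_, by rw [mul_comm]; exact h1, ?_⟩
  rw [← MulAction.index_stabilizer (G := G) (x := (MulAction.orbit N x : Set P))]
  apply Subgroup.index_dvd_of_le
  intro g hg
  rw [MulAction.mem_stabilizer_iff]
  ext y
  constructor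
  · rintro ⟨z, ⟨b, rfl⟩, rfl⟩
    refine ⟨⟨g, hg⟩ * b, ?_⟩
    show ((⟨g, hg⟩ : N) * b) • x = g • (b • x)
    rw [mul_smul]
    rfl
  · rintro ⟨b, rfl⟩
    refine ⟨((⟨g, hg⟩ : N)⁻¹ * b) • x, ⟨_, rfl⟩, ?_⟩
    show g • (((⟨g, hg⟩ : N)⁻¹ * b) • x) = b • x
    rw [mul_smul]
    show g • ((g⁻¹ : G) • (b • x)) = b • x
    rw [smul_inv_smul]

/-- The set of points moved by `b` to a collinear point consists of orbits of `N`, if `b` commutes with `N`. -/
theorem moved_dvd (hG : ∀ (g : G) (p : P) (l : L), I (g • p) (g • l) ↔ I p l) (ht : ∀ x y : P, ∃ g : G, g • x = y)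
    (N : Subgroup G) [N.Normal] (b : G) (hb : ∀ g ∈ N, g * b = b * g) (x : P) :
    (MulAction.orbit N x).ncard ∣ {p : P | b • p ≠ p ∧ ∃ l, I p l ∧ I (b • p) l}.ncard := by
  classical
  have : Fintype P := Fintype.ofFinite P
  apply dvd_ncard (N := N)
  · rintro g p ⟨h1, l, h2, h3⟩
    have h4 : b • (g • p) = g • (b • p) := by
      show b • ((g : G) • p) = (g : G) • (b • p)
      rw [← mul_smul, ← mul_smul, hb g g.2]
    refine ⟨?_, (g : G) • l, ?_, ?_⟩
    · rw [h4]
      intro h
      exact h1 (MulAction.injective g h)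
    · exact (hG (g : G) p l).2 h2
    · rw [h4]
      exact (hG (g : G) (b • p) l).2 h3
  · intro y _
    exact Norm.orbit_ncard ht N y x

end

end Pool.Agent.Lib.MP_e0c1ed_co.Ab5a
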