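import Pool.Agent.Lib.MP_e0c1ed_co.Ab6h
import Pool.Agent.Lib.MP_e0c1ed_co.Ab5

/-!
# MP_e0c1ed / Ab6: no normal subgroup of prime order `p > 2 (k - 1)`
-/

set_option autoImplicit false

namespace Pool.Agent.Lib.MP_e0c1ed_co.Ab6

open Finset Pool.Agent.Results.MP_e0c1ed_co.SelfDualSquare

section
variable {P L G : Type*} [Finite P] [Finite L] [Group G] [Finite G] [MulAction G P] [MulAction G L]
  {I : P → L → Prop} {n k : ℕ}

theorem no_prime' (hI : IsConfiguration I n k) (hT : TrilateralFree I) (hn : n = k * (k - 1) ^ 2 + k) (hk : k % 2 = 1)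
    (hk3 : 3 ≤ k) (hG : ∀ (g : G) (p : P) (l : L), I (g • p) (g • l) ↔ I p l)
    (hf : ∀ g : G, (∀ x : P, g • x = x) → g = 1) (ht : ∀ p q : P, ∃ g : G, g • p = q)
    (B : Subgroup G) [B.Normal] (p : ℕ) (hp : p.Prime) (hkp : 2 * (k - 1) < p) (hB : Nat.card B = p)
    (hpd : p ∣ (k - 1) ^ 2 + 1) : False := by
  classical
  have : Fintype P := Fintype.ofFinite P
  have : Fintype L := Fintype.ofFinite L
  refine Ab6h.prime_none hI hT hn hk hk3 hG hf ht ?_ B p hp hB hkp hpd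
  intro N hN hab x ν hν
  have : Fintype N := Fintype.ofFinite N
  exact Ab5.abel hI hT hn hk hk3 (fun g p l h => (hG g p l).2 h) ht N hab x ν hν.symm

end

end Pool.Agent.Lib.MP_e0c1ed_co.Ab6
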