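import Pool.Agent.Lib.MP_e0c1ed_co.Ab5a
import Pool.Agent.Lib.MP_e0c1ed_co.Ab5

/-!
# MP_e0c1ed / Ab6h: no normal subgroup of prime order `q > 2 (k - 1)`
-/

set_option autoImplicit false

namespace Pool.Agent.Lib.MP_e0c1ed_co.Ab6h

open Finset Pool.Agent.Results.MP_e0c1ed_co.SelfDualSquare

theorem arith5 (t q w ν m e : ℕ) (z : ℤ) (ht : 1 ≤ t) (hq : 4 * t < q) (hqw : q * w = (2 * t) ^ 2 + 1)
    (hνm : ν * m = (2 * t + 1) * ((2 * t) ^ 2 + 1)) (hme : (m : ℤ) * e = (2 * t + 1) ^ 2 + 4 * t * z) (he : e ≤ ν)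
    (hνq : ν ∣ q - 1) (h4 : ν ≤ 2 * t + 1 ∨ ν ∣ (2 * t) ^ 2 + 1) : False := by
  have hw0 : 0 < w := by
    rcases Nat.eq_zero_or_pos w with h | h
    · rw [h] at hqw; simp at hqw
    · exact h
  have hwt : w ≤ t := by
    by_contra h
    have h1 : t + 1 ≤ w := by omega
    nlinarith
  have hw2 : w ≠ 2 := by
    rintro rfl
    have h1 : (2 * t) ^ 2 = 4 * (t * t) := by ring
    rw [h1] at hqw
    omega
  -- `e` is odd
  obtain ⟨e', he'⟩ : ∃ e', e = 2 * e' + 1 := by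
    have h1 : ¬ Even e := by
      rintro ⟨r, hr⟩
      have h2 : (m : ℤ) * (r + r) = (2 * t + 1) ^ 2 + 4 * t * z := by rw [← hme, hr]; push_cast; ring
      have h3 : (2 : ℤ) * (m * r - 2 * t ^ 2 - 2 * t - 2 * t * z) = 1 := by linear_combination h2
      omega
    obtain ⟨e', he'⟩ := Nat.not_even_iff_odd.1 h1
    exact ⟨e', he'⟩
  have hνmZ : (ν : ℤ) * m = (2 * t + 1) * ((2 * t) ^ 2 + 1) := by exact_mod_cast hνm
  have heZ : (e : ℤ) = 2 * e' + 1 := by exact_mod_cast he'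
  have hY : (e : ℤ) + 2 * t - ν = 4 * t * ((t + 1) * ν + ν * z - (2 * t ^ 2 + t) * e - e') := by
    linear_combination (ν : ℤ) * hme - (e : ℤ) * hνmZ - (2 * (t : ℤ)) * heZ
  set Y : ℤ := (t + 1) * ν + ν * z - (2 * t ^ 2 + t) * e - e' with hYdef
  have ht1 : (1 : ℤ) ≤ t := by exact_mod_cast ht
  have heν : (e : ℤ) ≤ ν := by exact_mod_cast he
  have he0 : (1 : ℤ) ≤ e := by omega
  rcases h4 with h4 | h4
  · have h5 : (ν : ℤ) ≤ 2 * t + 1 := by exact_mod_cast h4
    have hY0 : Y = 0 := by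
      rcases lt_trichotomy Y 0 with h | h | h
      · have : 4 * (t : ℤ) * Y ≤ 4 * t * (-1) := by
          apply mul_le_mul_of_nonneg_left _ (by omega)
          omega
        omega
      · exact h
      · have : 4 * (t : ℤ) * 1 ≤ 4 * t * Y := by
          apply mul_le_mul_of_nonneg_left _ (by omega)
          omega
        omega
    rw [hY0, mul_zero] at hY
    have h6 : ν = 2 * t + 1 := by omega
    rw [h6] at hνq
    obtain ⟨r, hr⟩ := hνq
    have hq1 : q = (2 * t + 1) * r + 1 := by omega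
    rw [hq1] at hqw
    have hqwZ : ((2 * (t : ℤ) + 1) * r + 1) * w = (2 * t) ^ 2 + 1 := by exact_mod_cast hqw
    have h7 : (2 * (t : ℤ) + 1) ∣ 2 - w := ⟨r * w - (2 * t - 1), by linear_combination (-1 : ℤ) * hqwZ⟩
    have h8 : (2 : ℤ) - w = 0 := by
      apply Int.eq_zero_of_abs_lt_dvd h7
      rw [abs_lt]
      constructor <;> omega
    apply hw2
    omega
  · have h5 : ν.Coprime q := by
      have h6 : ν.gcd q ∣ 1 := by
        have h7 : ν.gcd q ∣ q - 1 := (Nat.gcd_dvd_left _ _).trans hνq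
        have h8 : ν.gcd q ∣ q := Nat.gcd_dvd_right _ _
        have h9 := Nat.dvd_sub h8 h7
        have h10 : q - (q - 1) = 1 := by omega
        rwa [h10] at h9
      exact Nat.dvd_one.1 h6
    rw [← hqw] at h4
    have h6 : ν ≤ w := Nat.le_of_dvd hw0 (h5.dvd_of_dvd_mul_left h4)
    have h7 : (ν : ℤ) ≤ t := by exact_mod_cast h6.trans hwt
    rcases le_or_gt Y 0 with h | h
    · have : 4 * (t : ℤ) * Y ≤ 0 := mul_nonpos_of_nonneg_of_nonpos (by omega) h
      omega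
    · have : 4 * (t : ℤ) * 1 ≤ 4 * t * Y := by
        apply mul_le_mul_of_nonneg_left _ (by omega)
        omega
      omega

section
variable {P L G : Type*} [Finite P] [Finite L] [Group G] [Finite G] [MulAction G P] [MulAction G L]
  {I : P → L → Prop} {n k : ℕ}

/-- A point transitive group has no normal subgroup of prime order `q > 2 (k - 1)` with `q ∣ (k - 1)² + 1`. -/
theorem prime_none (hI : IsConfiguration I n k) (hT : TrilateralFree I) (hn : n = k * (k - 1) ^ 2 + k)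
    (hk : k % 2 = 1) (hk3 : 3 ≤ k) (hG : ∀ (g : G) (p : P) (l : L), I (g • p) (g • l) ↔ I p l)
    (hf : ∀ g : G, (∀ x : P, g • x = x) → g = 1) (ht : ∀ x y : P, ∃ g : G, g • x = y)
    (hAb : ∀ (N : Subgroup G) (_ : N.Normal), (∀ g h : G, g * h * g⁻¹ * h⁻¹ ∈ N) → ∀ (x : P) (ν : ℕ),
      ν * (MulAction.orbit N x).ncard = n → ν ≤ k ∨ ν ∣ (k - 1) ^ 2 + 1)
    (B : Subgroup G) [B.Normal] (q : ℕ) (hq : q.Prime) (hB : Nat.card B = q) (hqk : 2 * (k - 1) < q)
    (hqd : q ∣ (k - 1) ^ 2 + 1) : False := by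
  classical
  have hqF : Fact q.Prime := ⟨hq⟩
  obtain ⟨w, hw⟩ := hqd
  obtain ⟨N, hN, hab, hidx, hcomm⟩ := Ab5a.cent_data B q hq hB
  have hcardP : Nat.card P = n := hI.card_points
  obtain ⟨x0⟩ : Nonempty P := by
    rw [← Finite.card_pos_iff, hcardP, hn]
    omega
  obtain ⟨ν, hν1, hν2⟩ := Ab5a.orbits_dvd_index ht N x0
  rw [hcardP] at hν1
  have h4 := hAb N hN hab x0 ν hν1
  -- an element of order `q`
  obtain ⟨θ, hθB, hθ1⟩ : ∃ θ ∈ B, θ ≠ 1 := by
    have h1 : B ≠ ⊥ := by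
      rintro rfl
      rw [Subgroup.card_bot] at hB
      exact hq.one_lt.ne hB
    obtain ⟨a, ha⟩ := (Subgroup.ne_bot_iff_exists_ne_one).1 h1
    exact ⟨a.1, a.2, fun h => ha (Subtype.ext h)⟩
  have hθq : θ ^ q = 1 := by
    have h1 : (⟨θ, hθB⟩ : B) ^ Nat.card B = 1 := pow_card_eq_one'
    rw [hB] at h1
    exact congrArg Subtype.val h1
  have hfix : ∀ x : P, θ • x ≠ x := by
    intro x hx
    exact hθ1 (hf θ fun y => point_fixed hI hT hn (by omega) hG q (by omega) θ hθq x hx y)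
  obtain ⟨z, hz⟩ := benson_act hI hT hn (by omega) hG θ
  have hX0 : {p : P | θ • p = p}.ncard = 0 := by
    rw [Set.ncard_eq_zero]
    ext y
    simp only [Set.mem_ofPred_eq, Set.mem_empty_iff_false, iff_false]
    exact hfix y
  obtain ⟨e, he⟩ := Ab5a.moved_dvd (I := I) hG ht N θ (fun g hg => hcomm g hg θ hθB) x0
  rw [hX0, he] at hz
  have hle : (MulAction.orbit N x0).ncard * e ≤ n := by
    rw [← he, ← hcardP, ← Set.ncard_univ]
    exact Set.ncard_le_ncard (Set.subset_univ _)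
  set m := (MulAction.orbit N x0).ncard with hm
  have hm0 : 0 < m := by
    rcases Nat.eq_zero_or_pos m with h | h
    · rw [h, mul_zero, hn] at hν1
      omega
    · exact h
  have heν : e ≤ ν := by
    rw [← hν1, mul_comm ν m] at hle
    exact Nat.le_of_mul_le_mul_left hle hm0
  obtain ⟨t, rfl⟩ : ∃ t, k = 2 * t + 1 := ⟨k / 2, by omega⟩
  have h2t : 2 * t + 1 - 1 = 2 * t := by omega
  rw [h2t] at hw h4 hn hqk
  refine arith5 t q w ν m e z (by omega) (by omega) hw.symm ?_ ?_ heν (hν2.trans hidx) h4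
  · rw [hν1, hn]; ring
  · push_cast at hz
    linear_combination hz

end

end Pool.Agent.Lib.MP_e0c1ed_co.Ab6h
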