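import Mathlib

/-!
# MP_e0c1ed / Ab7a: the integers of an abelian quotient, exact form
-/

set_option autoImplicit false

namespace Pool.Agent.Lib.MP_e0c1ed_co.Ab7

open Finset

theorem int_case' {P : Type*} [Fintype P] [DecidableEq P] (z : P → ℤ) (x : P) (T : Finset P) (n m ν s : ℕ)
    (hs : s % 2 = 0) (hs2 : 2 ≤ s) (hn : n = (s + 1) * (s ^ 2 + 1)) (hnm : n = ν * m) (hm : 1 ≤ m)
    (hT : T.card = m) (hzT : ∀ y ∈ T, z y = z x) (hcard : Fintype.card P = n)
    (h1 : ∑ y, z y = 0) (h2 : ∑ y, (z y) ^ 2 = n * z x)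
    (hdiv : ∀ y, (ν : ℤ) ∣ ((s : ℤ) + 1) ^ 2 + 2 * s * z y) :
    (z x = 0 ∧ ∀ y, z y = 0) ∨ (z x ≠ 0 ∧ ν ∣ s ^ 2 + 1 ∧ z x = ν - 1 ∧ ∀ y ∉ T, z y = -1) := by
  have hnpos : 0 < n := by rw [hn]; positivity
  have hν : 0 < ν := by
    rcases Nat.eq_zero_or_pos ν with h | h
    · rw [h, zero_mul] at hnm; omega
    · exact h
  have hνn : (ν : ℤ) ∣ ((s : ℤ) + 1) * (s ^ 2 + 1) := ⟨(m : ℤ), by exact_mod_cast (hn.symm.trans hnm)⟩
  -- coprimality
  have hcop : IsCoprime (ν : ℤ) (2 * (s : ℤ)) := by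
    obtain ⟨c, hc⟩ := hνn
    obtain ⟨t, ht⟩ : ∃ t : ℕ, s = 2 * t := ⟨s / 2, by omega⟩
    have ht' : (s : ℤ) = 2 * t := by exact_mod_cast ht
    refine ⟨c * (1 - 2 * t), 4 * t ^ 3, ?_⟩
    rw [ht'] at hc ⊢
    linear_combination (-(1 - 2 * (t : ℤ))) * hc
  choose u hu using fun y => (show (ν : ℤ) ∣ z x - z y by
    have h3 : (ν : ℤ) ∣ (2 * s) * (z x - z y) := by
      have := dvd_sub (hdiv x) (hdiv y)
      have e : ((s : ℤ) + 1) ^ 2 + 2 * s * z x - (((s : ℤ) + 1) ^ 2 + 2 * s * z y) = (2 * s) * (z x - z y) := by ring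
      rwa [e] at this
    exact hcop.dvd_of_dvd_mul_left h3)
  have hz : ∀ y, z y = z x - ν * u y := fun y => by have := hu y; linarith
  have hν' : (0 : ℤ) < ν := by exact_mod_cast hν
  have huT : ∀ y ∈ T, u y = 0 := by
    intro y hy
    have h3 := hu y
    rw [hzT y hy, sub_self] at h3
    rcases mul_eq_zero.1 h3.symm with h | h
    · omega
    · exact h
  have hcard' : (Fintype.card P : ℤ) = ν * m := by rw [hcard, hnm]; push_cast; ring
  have hU1 : ∑ y, u y = m * z x := by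
    have h3 : ∑ y, z y = Fintype.card P * z x - ν * ∑ y, u y := by
      rw [Finset.sum_congr rfl (fun y _ => hz y), Finset.sum_sub_distrib, Finset.sum_const, Finset.card_univ, nsmul_eq_mul,
        ← Finset.mul_sum]
    rw [h1, hcard'] at h3
    have h4 : (ν : ℤ) * ∑ y, u y = ν * (m * z x) := by linarith
    exact mul_left_cancel₀ hν'.ne' h4
  have hU2 : (ν : ℤ) * ∑ y, (u y) ^ 2 = m * (z x * (z x + 1)) := by
    have h3 : ∑ y, (z y) ^ 2 = Fintype.card P * (z x) ^ 2 - 2 * ν * z x * ∑ y, u y + ν ^ 2 * ∑ y, (u y) ^ 2 := by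
      have h4 : ∀ y, (z y) ^ 2 = (z x) ^ 2 - 2 * ν * z x * u y + ν ^ 2 * (u y) ^ 2 := fun y => by rw [hz y]; ring
      rw [Finset.sum_congr rfl (fun y _ => h4 y), Finset.sum_add_distrib, Finset.sum_sub_distrib, Finset.sum_const,
        Finset.card_univ, nsmul_eq_mul, ← Finset.mul_sum, ← Finset.mul_sum]
    rw [h2, hU1, hcard'] at h3
    have h5 : (n : ℤ) = ν * m := by exact_mod_cast hnm
    have h4 : (ν : ℤ) * (ν * ∑ y, (u y) ^ 2) = ν * (m * (z x * (z x + 1))) := by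
      rw [h5] at h3
      linear_combination -h3
    exact mul_left_cancel₀ hν'.ne' h4
  have hz0 : 0 ≤ z x := by
    have h3 : (0 : ℤ) ≤ n * z x := by rw [← h2]; exact Finset.sum_nonneg fun y _ => sq_nonneg _
    have h4 : (0 : ℤ) < n := by exact_mod_cast hnpos
    exact nonneg_of_mul_nonneg_right h3 h4
  have hm' : (0 : ℤ) < m := by exact_mod_cast hm
  rcases hz0.eq_or_lt with h0 | h0
  · left
    refine ⟨h0.symm, fun y => ?_⟩
    rw [← h0, zero_mul, mul_zero] at hU2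
    have h3 : ∑ y, (u y) ^ 2 = 0 := by
      rcases mul_eq_zero.1 hU2 with h | h
      · omega
      · exact h
    have h4 := (Finset.sum_eq_zero_iff_of_nonneg (fun y _ => sq_nonneg (u y))).1 h3 y (Finset.mem_univ y)
    rw [hz y, ← h0, pow_eq_zero_iff two_ne_zero |>.1 h4]
    ring
  right
  -- lower bound
  have hle : ∑ y, u y ≤ ∑ y, (u y) ^ 2 := Finset.sum_le_sum fun y _ => Int.le_self_sq (u y)
  have hlow : (ν : ℤ) ≤ z x + 1 := by
    have h3 : (ν : ℤ) * (m * z x) ≤ m * (z x * (z x + 1)) := by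
      rw [← hU1, ← hU2]
      exact mul_le_mul_of_nonneg_left hle hν'.le
    have h4 : (m * z x) * (ν : ℤ) ≤ (m * z x) * (z x + 1) := by linarith
    exact le_of_mul_le_mul_left h4 (mul_pos hm' h0)
  -- upper bound
  have hup : z x + 1 ≤ ν := by
    have h3 : (∑ y ∈ Tᶜ, u y) ^ 2 ≤ (Tᶜ.card : ℤ) * ∑ y ∈ Tᶜ, (u y) ^ 2 := sq_sum_le_card_mul_sum_sq
    have h4 : ∑ y ∈ Tᶜ, u y = ∑ y, u y := by
      have h41 := Finset.sum_add_sum_compl T u
      rw [Finset.sum_eq_zero huT, zero_add] at h41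
      exact h41
    have h5 : ∑ y ∈ Tᶜ, (u y) ^ 2 = ∑ y, (u y) ^ 2 := by
      have h51 := Finset.sum_add_sum_compl T (fun y => (u y) ^ 2)
      rw [Finset.sum_eq_zero (fun y hy => by rw [huT y hy]; rfl), zero_add] at h51
      exact h51
    have h6 : (Tᶜ.card : ℤ) = ν * m - m := by
      rw [Finset.card_compl, hT, hcard, hnm, Nat.cast_sub (Nat.le_mul_of_pos_left m hν)]
      push_cast; ring
    rw [h4, h5, h6, hU1] at h3
    have h7 : (ν : ℤ) * (m * z x) ^ 2 ≤ (ν * m - m) * (m * (z x * (z x + 1))) := by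
      have h8 := mul_le_mul_of_nonneg_left h3 hν'.le
      rw [← hU2]
      linarith
    have h9 : (m ^ 2 * z x) * (ν * z x) ≤ (m ^ 2 * z x) * ((ν - 1) * (z x + 1)) := by linarith
    have h10 := le_of_mul_le_mul_left h9 (mul_pos (pow_pos hm' 2) h0)
    linarith
  have hzν : z x = ν - 1 := by linarith
  have hsum0 : ∑ y, ((u y) ^ 2 - u y) = 0 := by
    rw [Finset.sum_sub_distrib, hU1]
    have h3 : (ν : ℤ) * (∑ y, (u y) ^ 2 - m * z x) = 0 := by
      rw [mul_sub, hU2, hzν]; ring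
    rcases mul_eq_zero.1 h3 with h | h
    · omega
    · exact h
  have hu01 : ∀ y, (u y) ^ 2 - u y = 0 := fun y =>
    (Finset.sum_eq_zero_iff_of_nonneg (fun y _ => sub_nonneg.2 (Int.le_self_sq (u y)))).1 hsum0 y (Finset.mem_univ y)
  have hu1 : ∀ y ∉ T, u y = 1 := by
    have h3 : ∑ y ∈ Tᶜ, (1 - u y) = 0 := by
      have h41 := Finset.sum_add_sum_compl T u
      rw [Finset.sum_eq_zero huT, zero_add, hU1, hzν] at h41
      have h6 : (Tᶜ.card : ℤ) = ν * m - m := by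
        rw [Finset.card_compl, hT, hcard, hnm, Nat.cast_sub (Nat.le_mul_of_pos_left m hν)]
        push_cast; ring
      rw [Finset.sum_sub_distrib, Finset.sum_const, nsmul_eq_mul, mul_one, h41, h6]
      ring
    intro y hy
    have h4 : ∀ y ∈ Tᶜ, 0 ≤ 1 - u y := by
      intro y _
      have h5 : u y * (u y - 1) = 0 := by have := hu01 y; linarith
      rcases mul_eq_zero.1 h5 with h | h <;> omega
    have h5 := (Finset.sum_eq_zero_iff_of_nonneg h4).1 h3 y (Finset.mem_compl.2 hy)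
    omega
  have hz1 : ∀ y ∉ T, z y = -1 := by
    intro y hy
    rw [hz y, hu1 y hy, hzν]; ring
  refine ⟨h0.ne', ?_, hzν, hz1⟩
  obtain ⟨y, hy⟩ : ∃ y, y ∉ T := by
    by_contra hcon
    push Not at hcon
    rw [Finset.sum_eq_zero (fun y _ => huT y (hcon y))] at hU1
    have := mul_pos hm' h0
    omega
  have h3 := hdiv y
  rw [hz1 y hy] at h3
  have h4 : ((s : ℤ) + 1) ^ 2 + 2 * s * (-1) = ((s ^ 2 + 1 : ℕ) : ℤ) := by push_cast; ring
  rw [h4] at h3
  exact_mod_cast h3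

end Pool.Agent.Lib.MP_e0c1ed_co.Ab7
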