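import Pool.Agent.Lib.MP_e0c1ed_co.Ab5
import Pool.Agent.Lib.MP_e0c1ed_co.Ab7a

/-!
# MP_e0c1ed / Ab7: the orbits of a normal subgroup with abelian quotient are ovoids or tight sets
-/

set_option autoImplicit false

namespace Pool.Agent.Lib.MP_e0c1ed_co.Ab7

open Finset Pool.Agent.Results.MP_e0c1ed_co.SelfDualSquare Bens Grp Orb

section
variable {P L G : Type*} [Fintype P] [Fintype L] [DecidableEq P] [Group G] [Finite G] [MulAction G P] [MulAction G L]
  {I : P → L → Prop} {n k : ℕ}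

/-- all row sums over the orbits -/
theorem rows (hI : IsConfiguration I n k) (hT : TrilateralFree I) (hn : n = k * (k - 1) ^ 2 + k) (hk : k % 2 = 1)
    (hk3 : 3 ≤ k) (hinv : ∀ (g : G) x l, I x l → I (g • x) (g • l)) (ht : ∀ x y : P, ∃ g : G, g • x = y)
    (N : Subgroup G) [N.Normal] [Fintype N] (hab : ∀ g h : G, g * h * g⁻¹ * h⁻¹ ∈ N) (x : P) (ν : ℕ)
    (hν : n = ν * (MulAction.orbit N x).ncard) :
    ((ν : ℚ) * ∑ w ∈ univ.image (fun b : N => b • x), S I x w = (k : ℚ) ^ 2 ∧
        ∀ y : P, (ν : ℚ) * ∑ w ∈ univ.image (fun b : N => b • y), S I x w = (k : ℚ) ^ 2) ∨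
      ((ν : ℚ) * ∑ w ∈ univ.image (fun b : N => b • x), S I x w ≠ (k : ℚ) ^ 2 ∧ ν ∣ (k - 1) ^ 2 + 1 ∧
        ∀ y ∉ univ.image (fun b : N => b • x),
          (ν : ℚ) * ∑ w ∈ univ.image (fun b : N => b • y), S I x w = ((k : ℚ) - 1) ^ 2 + 1) := by
  obtain ⟨s, rfl⟩ : ∃ s, k = s + 1 := ⟨k - 1, by omega⟩
  choose z hz using fun y => Ab1.all_int hI hT hn (by omega) hinv ht N hab x y
  obtain ⟨h1, h2⟩ := Ab3.two_sums hI hT hn (by omega) hinv N x z hz
  set m := (MulAction.orbit N x).ncard with hm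
  have hcardP : Fintype.card P = n := by rw [← Nat.card_eq_fintype_card, hI.card_points]
  have hn' : n = (s + 1) * (s ^ 2 + 1) := by rw [hn, Nat.add_sub_cancel]; ring
  have hn0 : 0 < n := by rw [hn']; positivity
  have hm1 : 1 ≤ m := by
    rcases Nat.eq_zero_or_pos m with h | h
    · rw [h, mul_zero] at hν; omega
    · exact h
  have hOy : ∀ y : P, (univ.image (fun b : N => b • y)).card = m := by
    intro y
    rw [hm, Norm.orbit_ncard ht N x y, ← Set.ncard_coe_finset]
    congr 1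
    ext w
    simp [MulAction.mem_orbit_iff]
  have hstab : ∀ y : P, ((univ.filter fun b : N => b • y = y).card : ℚ) ≠ 0 := by
    intro y
    have : 0 < (univ.filter fun b : N => b • y = y).card := Finset.card_pos.2 ⟨1, by simp⟩
    exact_mod_cast this.ne'
  have hcard : ∀ y : P, (Fintype.card N : ℚ) = ((univ.filter fun b : N => b • y = y).card : ℚ) * m := by
    intro y
    have := sum_orbit (B := N) y (fun _ => (1 : ℚ))
    rw [Finset.sum_const, Finset.sum_const, Finset.card_univ, nsmul_eq_mul, nsmul_eq_mul, mul_one, mul_one, hOy] at this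
    exact this
  have hm0 : (m : ℚ) ≠ 0 := by exact_mod_cast (by omega : m ≠ 0)
  have hνn : (n : ℚ) = ν * m := by exact_mod_cast hν
  have hk2 : (((s + 1 : ℕ) : ℚ)) = s + 1 := by push_cast; ring
  have hs0 : (s : ℚ) ≠ 0 := by exact_mod_cast (by omega : s ≠ 0)
  -- the key equation
  have hkey : ∀ y : P, (ν : ℚ) * ∑ w ∈ univ.image (fun b : N => b • y), S I x w = ((s : ℚ) + 1) ^ 2 + 2 * s * z y := by
    intro y
    have h3 := hz y
    have h4 := sum_orbit (B := N) y (fun w => S I x w)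
    have h5 : ∑ b : N, S I x ((b : G) • y) = ∑ b : N, S I x (b • y) := rfl
    rw [h5, h4, hcard y, hνn, hk2] at h3
    have h6 : (((univ.filter fun b : N => b • y = y).card : ℚ) * m) *
        ((ν : ℚ) * ∑ w ∈ univ.image (fun b : N => b • y), S I x w) =
        (((univ.filter fun b : N => b • y = y).card : ℚ) * m) * (((s : ℚ) + 1) ^ 2 + 2 * s * z y) := by
      linear_combination h3
    exact mul_left_cancel₀ (mul_ne_zero (hstab y) hm0) h6
  have hdiv : ∀ y, (ν : ℤ) ∣ ((s : ℤ) + 1) ^ 2 + 2 * s * z y := by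
    intro y
    choose r hr hr0 using fun w => Ab5.S_int (I := I) x w
    refine ⟨∑ w ∈ univ.image (fun b : N => b • y), r w, ?_⟩
    have h3 := hkey y
    rw [Finset.sum_congr rfl (fun w _ => hr w)] at h3
    exact_mod_cast h3.symm
  have hzT : ∀ y ∈ univ.image (fun b : N => b • x), z y = z x := by
    intro y hy
    obtain ⟨b0, -, rfl⟩ := Finset.mem_image.1 hy
    have h3 := hkey (b0 • x)
    have h4 := hkey x
    have h5 : univ.image (fun b : N => b • b0 • x) = univ.image (fun b : N => b • x) := by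
      ext w
      simp only [Finset.mem_image, Finset.mem_univ, true_and]
      constructor
      · rintro ⟨b, rfl⟩; exact ⟨b * b0, mul_smul _ _ _⟩
      · rintro ⟨b, rfl⟩; exact ⟨b * b0⁻¹, by rw [mul_smul, inv_smul_smul]⟩
    rw [h5, h4] at h3
    have h7 : (z x : ℚ) = z (b0 • x) := by
      have h8 : (2 * (s : ℚ)) * z x = (2 * (s : ℚ)) * z (b0 • x) := by linarith
      exact mul_left_cancel₀ (mul_ne_zero two_ne_zero hs0) h8
    exact_mod_cast h7.symm
  rcases int_case' z x (univ.image (fun b : N => b • x)) n m ν s (by omega) (by omega) hn' hν hm1 (hOy x) hzT hcardP h1 h2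
    hdiv with ⟨h, h'⟩ | ⟨h, hd, -, h'⟩
  · left
    refine ⟨?_, fun y => ?_⟩
    · rw [hkey x, h]; push_cast; ring
    · rw [hkey y, h' y]; push_cast; ring
  · right
    refine ⟨?_, by rw [Nat.add_sub_cancel]; exact hd, fun y hy => ?_⟩
    · rw [hkey x, hk2]
      intro h9
      apply h
      have h10 : (2 * (s : ℚ)) * z x = 0 := by linarith
      rcases mul_eq_zero.1 h10 with h11 | h11
      · exact absurd h11 (mul_ne_zero two_ne_zero hs0)
      · exact_mod_cast h11
    · rw [hkey y, h' y hy]; push_cast; ring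

/-- the row sum over the own orbit does not depend on the point -/
theorem own (hinv : ∀ (g : G) x l, I x l → I (g • x) (g • l)) (ht : ∀ x y : P, ∃ g : G, g • x = y)
    (N : Subgroup G) [N.Normal] [Fintype N] (x y : P) :
    ∑ w ∈ univ.image (fun b : N => b • x), S I x w = ∑ w ∈ univ.image (fun b : N => b • y), S I y w := by
  obtain ⟨g, rfl⟩ := ht x y
  symm
  refine Finset.sum_nbij' (fun w => g⁻¹ • w) (fun w => g • w) ?_ ?_ ?_ ?_ ?_
  · intro w hw
    obtain ⟨b, -, rfl⟩ := Finset.mem_image.1 hw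
    refine Finset.mem_image.2 ⟨⟨g⁻¹ * (b : G) * g, by simpa using (‹N.Normal›).conj_mem _ b.2 g⁻¹⟩, Finset.mem_univ _, ?_⟩
    show (g⁻¹ * (b : G) * g) • x = g⁻¹ • ((b : G) • (g • x))
    rw [mul_smul, mul_smul]
  · intro w hw
    obtain ⟨b, -, rfl⟩ := Finset.mem_image.1 hw
    refine Finset.mem_image.2 ⟨⟨g * (b : G) * g⁻¹, (‹N.Normal›).conj_mem _ b.2 g⟩, Finset.mem_univ _, ?_⟩
    show (g * (b : G) * g⁻¹) • (g • x) = g • ((b : G) • x)
    rw [← mul_smul, ← mul_smul]
    congr 1
    group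
  · intro w _; simp
  · intro w _; simp
  · intro w _
    rw [← S_inv hinv g x (g⁻¹ • w), smul_inv_smul]

open Classical in
/-- in the first case every line meets the orbit of `y` in `k / ν` points -/
theorem ovoid (hI : IsConfiguration I n k) (hk3 : 3 ≤ k) (Δ : Finset P) (ν : ℕ) (hν0 : 0 < ν)
    (hν : n = ν * Δ.card) (h : ∀ x : P, (ν : ℚ) * ∑ w ∈ Δ, S I x w = (k : ℚ) ^ 2) (l : L) :
    ν * (Δ.filter fun p => I p l).card = k := by
  have hnq : (n : ℚ) = ν * Δ.card := by exact_mod_cast hν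
  have hL : (Fintype.card L : ℚ) = n := by rw [← Nat.card_eq_fintype_card, hI.card_lines]
  have h1 : ∑ l : L, ((ν : ℚ) * ∑ w ∈ Δ, inc I w l - k) ^ 2 = 0 := by
    have h2 : ∀ l : L, ((ν : ℚ) * ∑ w ∈ Δ, inc I w l - k) ^ 2 =
        (ν : ℚ) ^ 2 * ∑ w ∈ Δ, ∑ v ∈ Δ, inc I w l * inc I v l - 2 * ν * k * ∑ w ∈ Δ, inc I w l + (k : ℚ) ^ 2 := by
      intro l
      rw [← Finset.sum_mul_sum]
      ring
    rw [Finset.sum_congr rfl (fun l _ => h2 l), Finset.sum_add_distrib, Finset.sum_sub_distrib, ← Finset.mul_sum,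
      ← Finset.mul_sum, Finset.sum_const, Finset.card_univ, nsmul_eq_mul, hL]
    have h3 : ∑ l : L, ∑ w ∈ Δ, ∑ v ∈ Δ, inc I w l * inc I v l = ∑ w ∈ Δ, ∑ v ∈ Δ, S I w v := by
      rw [Finset.sum_comm]
      refine Finset.sum_congr rfl fun w _ => ?_
      rw [Finset.sum_comm]
      rfl
    have h4 : ∑ l : L, ∑ w ∈ Δ, inc I w l = Δ.card * (k : ℚ) := by
      rw [Finset.sum_comm, Finset.sum_congr rfl (fun w _ => by rw [inc_sum_right, hI.card_through_point]), Finset.sum_const,
        nsmul_eq_mul]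
    have h5 : (ν : ℚ) * ∑ w ∈ Δ, ∑ v ∈ Δ, S I w v = Δ.card * (k : ℚ) ^ 2 := by
      rw [Finset.mul_sum, Finset.sum_congr rfl (fun w _ => h w), Finset.sum_const, nsmul_eq_mul]
    rw [h3, h4, hnq]
    linear_combination (ν : ℚ) * h5
  have h2 := (Finset.sum_eq_zero_iff_of_nonneg (fun l _ => sq_nonneg _)).1 h1 l (Finset.mem_univ l)
  have h3 : (ν : ℚ) * ∑ w ∈ Δ, inc I w l = k := by
    have := pow_eq_zero_iff two_ne_zero |>.1 h2
    linarith
  have h4 : ∑ w ∈ Δ, inc I w l = ((Δ.filter fun p => I p l).card : ℚ) := by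
    rw [← Finset.sum_boole]
    refine Finset.sum_congr rfl fun w _ => ?_
    by_cases h5 : I w l
    · rw [inc_of I h5, if_pos h5]
    · rw [inc_of_not I h5, if_neg h5]
  rw [h4] at h3
  exact_mod_cast h3

end

section
variable {P L G : Type*} [Finite P] [Finite L] [Group G] [Finite G] [MulAction G P] [MulAction G L]
  {I : P → L → Prop} {n k : ℕ}

/-- **Abelian quotients.** Let `N` be a normal subgroup with abelian quotient, with `ν` orbits on the points. Either `ν ∣ k` and
every line meets every orbit of `N` in `k / ν` points, or `ν ∣ (k - 1)² + 1` and every point `x` is collinear with exactly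
`((k - 1)² + 1) / ν` points of every orbit of `N` that does not contain `x`. -/
theorem ovoid_or_tight (hI : IsConfiguration I n k) (hT : TrilateralFree I) (hn : n = k * (k - 1) ^ 2 + k)
    (hk : k % 2 = 1) (hk3 : 3 ≤ k) (hG : ∀ (g : G) (p : P) (l : L), I (g • p) (g • l) ↔ I p l)
    (ht : ∀ p q : P, ∃ g : G, g • p = q) (N : Subgroup G) [N.Normal] (hab : ∀ g h : G, g * h * g⁻¹ * h⁻¹ ∈ N) :
    ∃ ν : ℕ, 0 < ν ∧ (∀ x : P, n = ν * (MulAction.orbit N x).ncard) ∧
      ((∀ (y : P) (l : L), ν * {p | p ∈ MulAction.orbit N y ∧ I p l}.ncard = k) ∨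
        (ν ∣ (k - 1) ^ 2 + 1 ∧ ∀ x y : P, x ∉ MulAction.orbit N y →
          ν * {p | p ∈ MulAction.orbit N y ∧ ∃ l, I x l ∧ I p l}.ncard = (k - 1) ^ 2 + 1)) := by
  classical
  have : Fintype P := Fintype.ofFinite P
  have : Fintype L := Fintype.ofFinite L
  have : Fintype N := Fintype.ofFinite N
  have hinv : ∀ (g : G) x l, I x l → I (g • x) (g • l) := fun g p l h => (hG g p l).2 h
  have hnpos : 0 < n := by rw [hn]; omega
  have hP : 0 < Nat.card P := by rw [hI.card_points]; exact hnpos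
  obtain ⟨x0⟩ : Nonempty P := (Nat.card_pos_iff.1 hP).1
  have : MulAction.IsPretransitive G P := ⟨ht⟩
  obtain ⟨ν, hν0⟩ : (MulAction.orbit N x0).ncard ∣ Nat.card P :=
    (MulAction.IsBlock.orbit_of_normal (G := G) (N := N) x0).ncard_dvd_card ⟨x0, MulAction.mem_orbit_self x0⟩
  have hν : ∀ x : P, n = ν * (MulAction.orbit N x).ncard := by
    intro x
    rw [Norm.orbit_ncard ht N x x0, ← hI.card_points, hν0, mul_comm]
  have hν1 : 0 < ν := by
    rcases Nat.eq_zero_or_pos ν with h | h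
    · have := hν x0; rw [h, zero_mul] at this; omega
    · exact h
  have him : ∀ y : P, ((univ.image (fun b : N => b • y) : Finset P) : Set P) = MulAction.orbit N y := by
    intro y
    ext w
    simp [MulAction.mem_orbit_iff]
  have himc : ∀ y : P, (univ.image (fun b : N => b • y)).card = (MulAction.orbit N y).ncard := by
    intro y
    rw [← him y, Set.ncard_coe_finset]
  refine ⟨ν, hν1, hν, ?_⟩
  by_cases hc : (ν : ℚ) * ∑ w ∈ univ.image (fun b : N => b • x0), S I x0 w = (k : ℚ) ^ 2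
  · left
    intro y l
    have h1 : ∀ x : P, (ν : ℚ) * ∑ w ∈ univ.image (fun b : N => b • y), S I x w = (k : ℚ) ^ 2 := by
      intro x
      rcases rows hI hT hn hk hk3 hinv ht N hab x ν (hν x) with ⟨-, h⟩ | ⟨h, -⟩
      · exact h y
      · exact absurd (by rw [own hinv ht N x x0]; exact hc) h
    have h2 := ovoid hI hk3 (univ.image (fun b : N => b • y)) ν hν1 (by rw [himc]; exact hν y) h1 l
    rw [← Set.ncard_coe_finset] at h2
    convert h2 using 3
    ext w
    rw [Finset.coe_filter]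
    simp only [Set.mem_ofPred_eq]
    rw [← Finset.mem_coe, him y]
  · right
    have h1 : ∀ x : P, ν ∣ (k - 1) ^ 2 + 1 ∧ ∀ y ∉ univ.image (fun b : N => b • x),
          (ν : ℚ) * ∑ w ∈ univ.image (fun b : N => b • y), S I x w = ((k : ℚ) - 1) ^ 2 + 1 := by
      intro x
      rcases rows hI hT hn hk hk3 hinv ht N hab x ν (hν x) with ⟨h, -⟩ | ⟨-, h⟩
      · exact absurd (by rw [own hinv ht N x0 x]; exact h) hc
      · exact h
    refine ⟨(h1 x0).1, fun x y hxy => ?_⟩
    have hyx : y ∉ univ.image (fun b : N => b • x) := by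
      rw [← Finset.mem_coe, him x]
      intro h
      exact hxy (MulAction.orbit_eq_iff.1 (MulAction.orbit_eq_iff.2 h).symm)
    have h2 := (h1 x).2 y hyx
    have h3 : ∑ w ∈ univ.image (fun b : N => b • y), S I x w =
        (((univ.image (fun b : N => b • y)).filter fun p => ∃ l, I x l ∧ I p l).card : ℚ) := by
      rw [← Finset.sum_boole]
      refine Finset.sum_congr rfl fun w hw => ?_
      by_cases h : ∃ l, I x l ∧ I w l
      · rw [if_pos h]
        obtain ⟨l, h4, h5⟩ := h
        refine S_col hI ?_ h4 h5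
        rintro rfl
        rw [← Finset.mem_coe, him y] at hw
        exact hxy hw
      · rw [if_neg h]
        exact S_ncol h
    rw [h3] at h2
    have h4 : ν * ((univ.image (fun b : N => b • y)).filter fun p => ∃ l, I x l ∧ I p l).card = (k - 1) ^ 2 + 1 := by
      obtain ⟨s, rfl⟩ : ∃ s, k = s + 1 := ⟨k - 1, by omega⟩
      rw [Nat.add_sub_cancel]
      have h5 : (((s + 1 : ℕ) : ℚ) - 1) = s := by push_cast; ring
      rw [h5] at h2
      exact_mod_cast h2
    rw [← Set.ncard_coe_finset] at h4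
    convert h4 using 3
    ext w
    rw [Finset.coe_filter]
    simp only [Set.mem_ofPred_eq]
    rw [← Finset.mem_coe, him y]

end

end Pool.Agent.Lib.MP_e0c1ed_co.Ab7
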