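import Pool.Agent.Lib.MP_e0c1ed_co.Main
import Pool.Agent.Lib.MP_e0c1ed_co.Ovoid

/-!
# MP_e0c1ed / AlmSimple: point transitive groups are almost simple if `k` and `(k - 1)² + 1` are primes
-/

set_option autoImplicit false

namespace Pool.Agent.Lib.MP_e0c1ed_co.AlmSimple

open Pool.Agent.Results.MP_e0c1ed_co.SelfDualSquare

section abstractPart

variable {G P : Type*} [Group G] [Finite G] [MulAction G P] [Finite P]

/-- A transitive group of order `p q` (primes `p < q`) all of whose nontrivial normal subgroups are transitive does not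
exist on `p q` points. -/
theorem no_pq (p q : ℕ) (hp : p.Prime) (hq : q.Prime) (hpq : p < q) (hP : Nat.card P = p * q)
    (R : Subgroup G) (hR : Nat.card R = p * q)
    (hqp : ∀ K : Subgroup R, K.Normal → K ≠ ⊥ → ∀ x y : P, ∃ h ∈ K, h • x = y) : False := by
  classical
  have := Fact.mk hq
  obtain ⟨g, hg⟩ := exists_prime_orderOf_dvd_card' (G := R) q (by rw [hR]; exact Dvd.intro_left p rfl)
  have h1 : Nat.card (Subgroup.zpowers g) = q := by rw [Nat.card_zpowers, hg]
  have h2 : (Subgroup.zpowers g).index = p := by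
    have h3 := Subgroup.card_mul_index (Subgroup.zpowers g)
    rw [h1, hR, mul_comm p q] at h3
    exact Nat.eq_of_mul_eq_mul_left hq.pos h3
  have h4 : (Nat.card R).minFac = p := by
    rw [hR]
    apply le_antisymm
    · exact Nat.minFac_le_of_dvd hp.two_le (Dvd.intro q rfl)
    · have h5 : (p * q).minFac.Prime := Nat.minFac_prime (by
        have := Nat.mul_le_mul hp.two_le hq.two_le
        omega)
      rcases (Nat.Prime.dvd_mul h5).1 (Nat.minFac_dvd (p * q)) with h6 | h6
      · exact ((Nat.prime_dvd_prime_iff_eq h5 hp).1 h6).ge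
      · rw [(Nat.prime_dvd_prime_iff_eq h5 hq).1 h6]
        exact hpq.le
  have h5 : (Subgroup.zpowers g).Normal := Subgroup.normal_of_index_eq_minFac_card (by rw [h2, h4])
  have h6 : Subgroup.zpowers g ≠ ⊥ := by
    intro h
    rw [h, Subgroup.card_bot] at h1
    exact hq.one_lt.ne h1
  have h7 := hqp _ h5 h6
  have : Nonempty P := by
    rw [← Finite.card_pos_iff, hP]
    exact Nat.mul_pos hp.pos hq.pos
  obtain ⟨x⟩ := this
  have h8 : Function.Surjective (fun h : Subgroup.zpowers g => (h : R) • x) := by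
    intro y
    obtain ⟨h, hh, hy⟩ := h7 x y
    exact ⟨⟨h, hh⟩, hy⟩
  have h9 := Nat.card_le_card_of_surjective _ h8
  rw [h1, hP] at h9
  have h10 : 2 * q ≤ p * q := Nat.mul_le_mul_right _ hp.two_le
  have := hq.pos
  omega

/-- Two commuting transitive subgroups: the second has as many elements as there are points. -/
theorem card_of_commute (hf : ∀ g : G, (∀ x : P, g • x = x) → g = 1) [Nonempty P] (A B : Subgroup G)
    (hA : ∀ x y : P, ∃ h ∈ A, h • x = y) (hB : ∀ x y : P, ∃ h ∈ B, h • x = y)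
    (hAB : ∀ a ∈ A, ∀ b ∈ B, a * b = b * a) : Nat.card B = Nat.card P := by
  classical
  obtain ⟨x⟩ := ‹Nonempty P›
  refine Nat.card_congr (Equiv.ofBijective (fun b : B => (b : G) • x) ⟨?_, ?_⟩)
  · intro b c hbc
    have hbc' : (b : G) • x = (c : G) • x := hbc
    apply Subtype.ext
    have h1 : (c : G)⁻¹ * b = 1 := by
      apply hf
      intro y
      obtain ⟨a, ha, rfl⟩ := hA x y
      have h2 := hAB a ha ((c : G)⁻¹ * b) (B.mul_mem (B.inv_mem c.2) b.2)
      rw [smul_smul, ← h2, ← smul_smul]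
      congr 1
      rw [mul_smul, hbc', inv_smul_smul]
    rw [inv_mul_eq_one] at h1
    exact h1.symm
  · intro y
    obtain ⟨b, hb, hy⟩ := hB x y
    exact ⟨⟨b, hb⟩, hy⟩

/-- **The group theory.** -/
theorem almost_simple (p q : ℕ) (hp : p.Prime) (hq : q.Prime) (hpq : p < q) (hP : Nat.card P = p * q)
    (hf : ∀ g : G, (∀ x : P, g • x = x) → g = 1) (ht : ∀ x y : P, ∃ g : G, g • x = y)
    (hqp : ∀ H : Subgroup G, (∀ x y : P, ∃ h ∈ H, h • x = y) → ∀ K : Subgroup H, K.Normal → K ≠ ⊥ →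
      ∀ x y : P, ∃ h ∈ K, h • x = y) :
    ∃ T : Subgroup G, T.Normal ∧ IsSimpleGroup T ∧ (∃ a b : T, a * b ≠ b * a) ∧
      (∀ x y : P, ∃ h ∈ T, h • x = y) ∧ Subgroup.centralizer (T : Set G) = ⊥ := by
  classical
  have hPne : Nonempty P := by
    rw [← Finite.card_pos_iff, hP]
    exact Nat.mul_pos hp.pos hq.pos
  have hP2 : 1 < Nat.card P := by
    rw [hP]
    have := Nat.mul_le_mul hp.two_le hq.two_le
    omega
  -- transitivity of normal subgroups of transitive subgroups, inside `G`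
  have hqp' : ∀ H K : Subgroup G, (∀ x y : P, ∃ h ∈ H, h • x = y) → K ≤ H →
      (∀ h ∈ H, ∀ x ∈ K, h * x * h⁻¹ ∈ K) → K ≠ ⊥ → ∀ x y : P, ∃ h ∈ K, h • x = y := by
    intro H K hH hKH hn hK x y
    have h1 : (K.subgroupOf H).Normal := by
      constructor
      intro a ha g
      rw [Subgroup.mem_subgroupOf] at ha ⊢
      exact hn g g.2 a ha
    have h2 : K.subgroupOf H ≠ ⊥ := by
      intro h
      rw [Subgroup.subgroupOf_eq_bot, disjoint_iff, inf_eq_left.2 hKH] at h
      exact hK h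
    obtain ⟨h, hh, hy⟩ := hqp H hH _ h1 h2 x y
    exact ⟨h, hh, hy⟩
  have hno : ∀ R : Subgroup G, (∀ x y : P, ∃ h ∈ R, h • x = y) → Nat.card R = Nat.card P → False := by
    intro R hR hc
    exact no_pq p q hp hq hpq hP R (by rw [hc, hP]) (fun K hK hne x y => by
      obtain ⟨h, hh, hy⟩ := hqp R hR K hK hne x y
      exact ⟨h, hh, hy⟩)
  -- the minimal normal subgroup of `G`
  have hGne : (⊤ : Subgroup G) ≠ ⊥ := by
    intro h
    have h1 : ∀ g : G, g = 1 := by
      intro g
      have h2 : g ∈ (⊤ : Subgroup G) := Subgroup.mem_top g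
      rw [h, Subgroup.mem_bot] at h2
      exact h2
    have := Finite.one_lt_card_iff_nontrivial.1 hP2
    obtain ⟨x, y, hxy⟩ := exists_pair_ne P
    obtain ⟨g, hg⟩ := ht x y
    rw [h1 g, one_smul] at hg
    exact hxy hg
  obtain ⟨N, ⟨hN1, hN2⟩, hNmin⟩ := WellFounded.has_min (α := Subgroup G) (r := (· < ·)) wellFounded_lt
    {N | N.Normal ∧ N ≠ ⊥} ⟨⊤, inferInstance, hGne⟩
  have htG : ∀ x y : P, ∃ h ∈ (⊤ : Subgroup G), h • x = y := by
    intro x y
    obtain ⟨g, hg⟩ := ht x y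
    exact ⟨g, Subgroup.mem_top g, hg⟩
  have hNt : ∀ x y : P, ∃ h ∈ N, h • x = y :=
    hqp' ⊤ N htG le_top (fun h _ x hx => hN1.conj_mem x hx h) hN2
  -- the minimal normal subgroup of `N`
  obtain ⟨T, ⟨hT1, hT2, hT3⟩, hTmin⟩ := WellFounded.has_min (α := Subgroup G) (r := (· < ·)) wellFounded_lt
    {T | T ≤ N ∧ (∀ h ∈ N, ∀ x ∈ T, h * x * h⁻¹ ∈ T) ∧ T ≠ ⊥}
    ⟨N, le_rfl, fun h hh x hx => N.mul_mem (N.mul_mem hh hx) (N.inv_mem hh), hN2⟩
  have hTt := hqp' N T hNt hT1 hT2 hT3
  have hconj : ∀ g : G, T.map (MulAut.conj g).toMonoidHom = T := by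
    intro g
    by_contra hne
    set S := T.map (MulAut.conj g).toMonoidHom with hS
    have hSN : S ≤ N := by
      rintro _ ⟨a, ha, rfl⟩
      exact hN1.conj_mem a (hT1 ha) g
    have hSn : ∀ h ∈ N, ∀ x ∈ S, h * x * h⁻¹ ∈ S := by
      rintro h hh _ ⟨a, ha, rfl⟩
      refine ⟨(g⁻¹ * h * g) * a * (g⁻¹ * h * g)⁻¹, hT2 _ ?_ a ha, ?_⟩
      · have := hN1.conj_mem h hh g⁻¹
        rwa [inv_inv] at this
      · simp only [MulEquiv.coe_toMonoidHom, MulAut.conj_apply]
        group
    have hcardS : Nat.card S = Nat.card T :=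
      (Nat.card_congr (T.equivMapOfInjective _ (MulAut.conj g).injective).toEquiv).symm
    have hSne : S ≠ ⊥ := by
      intro h
      exact hT3 ((Subgroup.map_eq_bot_iff_of_injective _ (MulAut.conj g).injective).1 h)
    have hSt := hqp' N S hNt hSN hSn hSne
    have hinf : T ⊓ S = ⊥ := by
      by_contra h
      have h1 : ¬ (T ⊓ S < T) := hTmin (T ⊓ S)
        ⟨inf_le_left.trans hT1, fun a ha x hx => ⟨hT2 a ha x hx.1, hSn a ha x hx.2⟩, h⟩
      have h2 : T ⊓ S = T := by
        by_contra h3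
        exact h1 (lt_of_le_of_ne inf_le_left h3)
      have h3 : T ≤ S := inf_eq_left.1 h2
      exact hne (Subgroup.eq_of_le_of_card_ge h3 hcardS.le).symm
    have hcomm : ∀ a ∈ T, ∀ b ∈ S, a * b = b * a := by
      intro a ha b hb
      have h1 : a * b * a⁻¹ * b⁻¹ ∈ T ⊓ S := by
        constructor
        · have := hT2 b (hSN hb) a⁻¹ (T.inv_mem ha)
          have h2 := T.mul_mem ha this
          have h3 : a * (b * a⁻¹ * b⁻¹) = a * b * a⁻¹ * b⁻¹ := by group
          rwa [h3] at h2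
        · exact S.mul_mem (hSn a (hT1 ha) b hb) (S.inv_mem hb)
      rw [hinf, Subgroup.mem_bot] at h1
      have h2 : a * b = (a * b * a⁻¹ * b⁻¹) * (b * a) := by group
      rw [h2, h1, one_mul]
    exact hno S hSt (card_of_commute hf T S hTt hSt hcomm)
  have hTN : T.Normal := by
    constructor
    intro a ha g
    have h1 : g * a * g⁻¹ ∈ T.map (MulAut.conj g).toMonoidHom := ⟨a, ha, rfl⟩
    rwa [hconj g] at h1
  have hTeq : T = N := by
    by_contra h
    exact hNmin T ⟨hTN, hT3⟩ (lt_of_le_of_ne hT1 h)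
  subst hTeq
  have hcent : Subgroup.centralizer (T : Set G) = ⊥ := by
    by_contra h
    have h1 : (Subgroup.centralizer (T : Set G)).Normal := Subgroup.normal_centralizer
    have h2 := hqp' ⊤ _ htG le_top (fun a _ x hx => h1.conj_mem x hx a) h
    exact hno T hTt (card_of_commute hf _ T h2 hTt (fun a ha b hb => by
      rw [Subgroup.mem_centralizer_iff] at ha
      exact (ha b hb).symm))
  refine ⟨T, hTN, ?_, ?_, hTt, hcent⟩
  · have hnt : Nontrivial T := (Subgroup.nontrivial_iff_ne_bot T).2 hT3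
    refine { exists_pair_ne := hnt.exists_pair_ne, eq_bot_or_eq_top_of_normal := ?_ }
    intro K hK
    by_contra hcon
    push Not at hcon
    obtain ⟨h1, h2⟩ := hcon
    have h3 : K.map T.subtype < T := by
      refine lt_of_le_of_ne ?_ ?_
      · rintro _ ⟨a, ha, rfl⟩
        exact a.2
      · intro h
        apply h2
        rw [eq_top_iff]
        intro a _
        have h4 : (a : G) ∈ K.map T.subtype := by rw [h]; exact a.2
        obtain ⟨b, hb, hba⟩ := h4
        have : b = a := Subtype.ext hba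
        rwa [← this]
    refine hTmin _ ⟨h3.le, ?_, ?_⟩ h3
    · rintro a ha _ ⟨b, hb, rfl⟩
      exact ⟨⟨a, ha⟩ * b * ⟨a, ha⟩⁻¹, hK.conj_mem b hb ⟨a, ha⟩, rfl⟩
    · intro h
      exact h1 ((Subgroup.map_eq_bot_iff_of_injective _ T.subtype_injective).1 h)
  · by_contra hcon
    push Not at hcon
    apply hT3
    rw [eq_bot_iff, ← hcent]
    intro a ha
    rw [Subgroup.mem_centralizer_iff]
    intro b hb
    exact congrArg Subtype.val (hcon ⟨b, hb⟩ ⟨a, ha⟩)

end abstractPart

section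
variable {P L G : Type*} [Finite P] [Finite L] [Group G] [Finite G] [MulAction G P] [MulAction G L]
  {I : P → L → Prop} {n k : ℕ}

/-- If `k` and `(k - 1)² + 1` are primes, then nontrivial normal subgroups of transitive groups are transitive. -/
theorem quasi (hI : IsConfiguration I n k) (hT : TrilateralFree I) (hn : n = k * (k - 1) ^ 2 + k)
    (hk : k % 2 = 1) (hk3 : 3 ≤ k) (hG : ∀ (g : G) (p : P) (l : L), I (g • p) (g • l) ↔ I p l)
    (hf : ∀ g : G, (∀ p : P, g • p = p) → g = 1) (ht : ∀ p q : P, ∃ g : G, g • p = q)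
    (hkp : k.Prime) (hsp : ((k - 1) ^ 2 + 1).Prime) (N : Subgroup G) [N.Normal] (hne : N ≠ ⊥) (x y : P) :
    ∃ h ∈ N, h • x = y := by
  have h1 := Main.long_orbits hI hT hn hk hk3 hG hf ht N hne x
  have h3 := Ovoid.no_ovoid hI hT hn hk hk3 hG ht N x
  have : MulAction.IsPretransitive G P := ⟨ht⟩
  have h5 : (MulAction.orbit N x).ncard ∣ Nat.card P :=
    (MulAction.IsBlock.orbit_of_normal (G := G) (N := N) x).ncard_dvd_card ⟨x, MulAction.mem_orbit_self x⟩
  have h6 : Nat.card P = k * ((k - 1) ^ 2 + 1) := by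
    rw [hI.card_points, hn]
    ring
  rw [h6] at h5
  have h7 : (MulAction.orbit N x).ncard = k * ((k - 1) ^ 2 + 1) := by
    obtain ⟨a, b, ha, hb, hab⟩ := exists_dvd_and_dvd_of_dvd_mul h5
    rw [hab] at h1 h3 ⊢
    rcases (Nat.dvd_prime hkp).1 ha with rfl | rfl <;> rcases (Nat.dvd_prime hsp).1 hb with rfl | rfl
    · omega
    · rw [one_mul] at h3
      exact absurd rfl h3
    · omega
    · rfl
  have h8 : MulAction.orbit N x = Set.univ := by
    apply Set.eq_of_subset_of_ncard_le (Set.subset_univ _)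
    rw [Set.ncard_univ, h6, h7]
  have h9 : y ∈ MulAction.orbit N x := by rw [h8]; exact Set.mem_univ y
  obtain ⟨g, hg⟩ := h9
  exact ⟨g, g.2, hg⟩

/-- **If `k` and `(k - 1)² + 1` are primes, then a point transitive group is almost simple, with a point transitive
simple normal subgroup.** -/
theorem main (hI : IsConfiguration I n k) (hT : TrilateralFree I) (hn : n = k * (k - 1) ^ 2 + k)
    (hk : k % 2 = 1) (hk3 : 3 ≤ k) (hG : ∀ (g : G) (p : P) (l : L), I (g • p) (g • l) ↔ I p l)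
    (hf : ∀ g : G, (∀ p : P, g • p = p) → g = 1) (ht : ∀ p q : P, ∃ g : G, g • p = q)
    (hkp : k.Prime) (hsp : ((k - 1) ^ 2 + 1).Prime) :
    ∃ T : Subgroup G, T.Normal ∧ IsSimpleGroup T ∧ (∃ a b : T, a * b ≠ b * a) ∧
      (∀ x y : P, ∃ h ∈ T, h • x = y) ∧ Subgroup.centralizer (T : Set G) = ⊥ := by
  have hlt : k < (k - 1) ^ 2 + 1 := by
    obtain ⟨t, rfl⟩ : ∃ t, k = t + 2 := ⟨k - 2, by omega⟩
    have : t + 2 - 1 = t + 1 := by omega
    rw [this]
    have h2 : 1 ≤ t := by omega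
    nlinarith
  refine almost_simple k ((k - 1) ^ 2 + 1) hkp hsp hlt ?_ hf ht ?_
  · rw [hI.card_points, hn]
    ring
  · intro H hH K hK hKne x y
    obtain ⟨h, hh, hy⟩ := quasi (G := H) hI hT hn hk hk3 (fun g p l => hG (g : G) p l)
      (fun g hg => Subtype.ext (hf (g : G) hg))
      (fun x y => by
        obtain ⟨h, hh, hy⟩ := hH x y
        exact ⟨⟨h, hh⟩, hy⟩) hkp hsp K hKne x y
    exact ⟨h, hh, hy⟩

end

end Pool.Agent.Lib.MP_e0c1ed_co.AlmSimple
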