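import Mathlib

/-!
# MP_e0c1ed / Ar2: arithmetic for normal subgroups of large prime order
-/

set_option autoImplicit false

namespace Pool.Agent.Lib.MP_e0c1ed_co.Ar2

theorem arith2 (s p w c a : ℕ) (γ z : ℤ) (hp : p.Prime) (hs : s % 2 = 0) (hs2 : 2 ≤ s) (hps : s + 1 < p)
    (hpw : p * w = s ^ 2 + 1) (h1 : ((p : ℤ) - 1) * γ = ((s : ℤ) + 1) * (s ^ 2 + 1) * c)
    (h2 : γ = ((s : ℤ) + 1) ^ 2 + 2 * s * z)
    (h3 : (s + 1) * (s ^ 2 + 1) * (s + 1 + c) = p * ((s + 1) ^ 2 + 2 * s * a)) (h4 : a + 1 ≤ (s + 1) * w) :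
    2 * (p - 1) ≤ s * Nat.gcd w (p - 1) := by
  have hp0 : 0 < p := hp.pos
  have hw1 : 1 ≤ w := by
    rcases Nat.eq_zero_or_pos w with h | h
    · rw [h, mul_zero] at hpw; omega
    · exact h
  have hws : w < s := by
    by_contra h
    have h5 : (s + 2) * s ≤ p * w := Nat.mul_le_mul (by omega) (by omega)
    nlinarith
  have hwo : w % 2 = 1 := by
    rcases Nat.mod_two_eq_zero_or_one w with h | h
    · exfalso
      have h5 : (p * w) % 2 = 0 := by rw [Nat.mul_mod, h]; simp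
      rw [hpw, Nat.add_mod, Nat.pow_mod, hs] at h5
      simp at h5
    · exact h
  have hpwZ : (p : ℤ) * w = s ^ 2 + 1 := by exact_mod_cast hpw
  have hpZ : (0 : ℤ) < p := by exact_mod_cast hp0
  have hpsZ : (s : ℤ) + 1 < p := by exact_mod_cast hps
  have hs2Z : (2 : ℤ) ≤ s := by exact_mod_cast hs2
  have hw1Z : (1 : ℤ) ≤ w := by exact_mod_cast hw1
  have hwsZ : (w : ℤ) < s := by exact_mod_cast hws
  -- `γ = p j`
  set j : ℤ := γ - (s + 1) * w * c with hj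
  have hγ : γ = p * j := by
    rw [hj]
    linear_combination (-1 : ℤ) * h1 + ((s : ℤ) + 1) * c * hpwZ
  have hj1 : ((p : ℤ) - 1) * j = (s + 1) * w * c := by
    have h5 : (p : ℤ) * (((p : ℤ) - 1) * j) = p * ((s + 1) * w * c) := by
      have h6 : ((p : ℤ) - 1) * (p * j) = ((s : ℤ) + 1) * (p * w) * c := by
        rw [← hγ, h1, hpwZ]
      linear_combination h6
    exact mul_left_cancel₀ hpZ.ne' h5
  have hj0 : 0 ≤ j := by
    have h5 : 0 ≤ ((p : ℤ) - 1) * j := by rw [hj1]; positivity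
    have h6 : (0 : ℤ) < (p : ℤ) - 1 := by linarith
    exact nonneg_of_mul_nonneg_right h5 h6
  -- `j = w + 2 s ρ`
  have hcop : IsCoprime (2 * (s : ℤ)) (p : ℤ) := by
    have h5 : Nat.Coprime (2 * s) p := by
      rw [Nat.coprime_comm, Nat.Prime.coprime_iff_not_dvd hp]
      intro h
      rcases (Nat.Prime.dvd_mul hp).1 h with h | h
      · have := Nat.le_of_dvd (by norm_num) h
        omega
      · have := Nat.le_of_dvd (by omega) h
        omega
    have := Nat.isCoprime_iff_coprime.2 h5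
    push_cast at this
    exact this
  have h5 : (2 * (s : ℤ)) ∣ p * (j - w) := by
    refine ⟨z + 1, ?_⟩
    have h6 : (p : ℤ) * j = (s + 1) ^ 2 + 2 * s * z := by rw [← hγ, h2]
    linear_combination h6 - hpwZ
  obtain ⟨ρ, hρ⟩ := hcop.dvd_of_dvd_mul_left h5
  have hρ0 : 0 ≤ ρ := by
    by_contra h
    have h6 : ρ ≤ -1 := by omega
    nlinarith
  -- the bound
  have h6 : ((s : ℤ) + 1) * w * (s + 1 + c) = (s + 1) ^ 2 + 2 * s * a := by
    have h7 : (p : ℤ) * (((s : ℤ) + 1) * w * (s + 1 + c)) = p * ((s + 1) ^ 2 + 2 * s * a) := by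
      have h8 : ((s : ℤ) + 1) * (s ^ 2 + 1) * (s + 1 + c) = p * ((s + 1) ^ 2 + 2 * s * a) := by exact_mod_cast h3
      rw [← h8, ← hpwZ]
      ring
    exact mul_left_cancel₀ hpZ.ne' h7
  have h4Z : (a : ℤ) + 1 ≤ (s + 1) * w := by exact_mod_cast h4
  have h7 : 2 * ((p : ℤ) - 1) * ρ ≤ w * s := by
    have h8 : ((p : ℤ) - 1) * j ≤ p * w + w * (s ^ 2 - 1) := by
      rw [hj1, hpwZ]
      nlinarith
    have h9 : j = w + 2 * s * ρ := by linarith
    rw [h9] at h8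
    have h10 : (s : ℤ) * (2 * ((p : ℤ) - 1) * ρ) ≤ s * (w * s) := by nlinarith
    exact le_of_mul_le_mul_left h10 (by linarith)
  have h9 : j = w + 2 * s * ρ := by linarith
  have h10 : ((p : ℤ) - 1) * (2 * s * ρ) = w * ((s + 1) * c - (p - 1)) := by
    rw [h9] at hj1
    linear_combination hj1
  -- `ρ ≠ 0`
  have hρ1 : 1 ≤ ρ := by
    by_contra h
    have h11 : ρ = 0 := by omega
    rw [h11] at h10
    have h12 : (s + 1 : ℤ) * c - (p - 1) = 0 := by
      have h13 : (w : ℤ) * ((s + 1) * c - (p - 1)) = 0 := by rw [← h10]; ring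
      rcases mul_eq_zero.1 h13 with h14 | h14
      · omega
      · exact h14
    have h13 : ((s : ℤ) + 1) ∣ (w : ℤ) - 2 := by
      refine ⟨s - 1 - w * c, ?_⟩
      linear_combination (w : ℤ) * h12 + hpwZ
    have h14 : (w : ℤ) - 2 = 0 := by
      apply Int.eq_zero_of_abs_lt_dvd h13
      rw [abs_lt]
      constructor <;> linarith
    omega
  -- `w ∣ (p - 1) ρ`
  obtain ⟨ρn, rfl⟩ : ∃ ρn : ℕ, ρ = ρn := ⟨ρ.toNat, (Int.toNat_of_nonneg hρ0).symm⟩
  have hp1 : ((p - 1 : ℕ) : ℤ) = (p : ℤ) - 1 := by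
    rw [Nat.cast_sub hp0, Nat.cast_one]
  have h11 : w ∣ (p - 1) * ρn := by
    have h12 : (w : ℤ) ∣ 2 * s * (((p : ℤ) - 1) * ρn) := ⟨(s + 1) * c - (p - 1), by rw [← h10]; ring⟩
    have h13 : IsCoprime (w : ℤ) (2 * s) := by
      have h14 : Nat.Coprime w (2 * s) := by
        apply Nat.Coprime.mul_right
        · rw [Nat.coprime_comm, Nat.coprime_two_left]
          exact Nat.odd_iff.2 hwo
        · have h15 : Nat.gcd w s ∣ 1 := by
            have h16 : Nat.gcd w s ∣ s ^ 2 + 1 := by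
              rw [← hpw]
              exact Dvd.dvd.mul_left (Nat.gcd_dvd_left w s) p
            have h17 : Nat.gcd w s ∣ s ^ 2 := dvd_pow (Nat.gcd_dvd_right w s) (by norm_num)
            exact (Nat.dvd_add_right h17).1 h16
          exact Nat.dvd_one.1 h15
      have := Nat.isCoprime_iff_coprime.2 h14
      push_cast at this
      exact this
    have h14 := h13.dvd_of_dvd_mul_left h12
    rw [← hp1] at h14
    exact_mod_cast h14
  set g := Nat.gcd w (p - 1) with hg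
  have hg0 : 0 < g := Nat.gcd_pos_of_pos_left _ hw1
  have h12 : w ≤ g * ρn := by
    have h13 : w / g ∣ ρn := by
      have h14 : Nat.Coprime (w / g) ((p - 1) / g) := Nat.coprime_div_gcd_div_gcd hg0
      apply h14.dvd_of_dvd_mul_left
      have h15 : w / g ∣ (p - 1) * ρn / g := Nat.div_dvd_div (Nat.gcd_dvd_left _ _) h11
      rwa [Nat.mul_div_right_comm (Nat.gcd_dvd_right w (p - 1))] at h15
    have h14 : w / g ≤ ρn := Nat.le_of_dvd (by
      have : (1 : ℤ) ≤ (ρn : ℤ) := hρ1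
      exact_mod_cast this) h13
    calc w = g * (w / g) := (Nat.mul_div_cancel' (Nat.gcd_dvd_left _ _)).symm
      _ ≤ g * ρn := Nat.mul_le_mul_left _ h14
  have h13 : 2 * (p - 1) * ρn ≤ w * s := by
    have : (2 * ((p - 1 : ℕ) : ℤ) * ρn) ≤ w * s := by rw [hp1]; exact h7
    exact_mod_cast this
  have h14 : w * (2 * (p - 1)) ≤ w * (s * g) := by
    calc w * (2 * (p - 1)) ≤ (g * ρn) * (2 * (p - 1)) := Nat.mul_le_mul_right _ h12
      _ = g * (2 * (p - 1) * ρn) := by ring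
      _ ≤ g * (w * s) := Nat.mul_le_mul_left _ h13
      _ = w * (s * g) := by ring
  exact Nat.le_of_mul_le_mul_left h14 hw1

/-- `(2 t²)² + 1` has no prime power divisor larger than `2 · 2 t²`. -/
theorem two_sq (t : ℕ) (ht : 2 ≤ t) (q a : ℕ) (hq : q.Prime) (h : q ^ a ∣ (2 * t ^ 2) ^ 2 + 1) : q ^ a ≤ 2 * (2 * t ^ 2) := by
  have h1 : (2 * t ^ 2) ^ 2 + 1 = (2 * t ^ 2 + 2 * t + 1) * (2 * t ^ 2 + 1 - 2 * t) := by
    have h2 : 2 * t ≤ 2 * t ^ 2 + 1 := by nlinarith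
    zify [h2]
    ring
  rw [h1] at h
  have h2 : 2 * t ≤ 2 * t ^ 2 + 1 := by nlinarith
  have hA : 2 * t ^ 2 + 2 * t + 1 ≤ 2 * (2 * t ^ 2) := by nlinarith
  have hB : 2 * t ^ 2 + 1 - 2 * t ≤ 2 * (2 * t ^ 2) := by omega
  have hnot : ¬ (q ∣ 2 * t ^ 2 + 2 * t + 1 ∧ q ∣ 2 * t ^ 2 + 1 - 2 * t) := by
    rintro ⟨h3, h4⟩
    have h5 : q ∣ 4 * t := by
      have h6 : 4 * t = (2 * t ^ 2 + 2 * t + 1) - (2 * t ^ 2 + 1 - 2 * t) := by omega
      rw [h6]
      exact Nat.dvd_sub h3 h4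
    have h6 : ¬ q ∣ 2 := by
      intro h7
      have h8 : 2 ∣ 2 * t ^ 2 + 2 * t + 1 := by
        have h9 : q = 2 := (Nat.prime_dvd_prime_iff_eq hq Nat.prime_two).1 h7
        subst h9
        exact h3
      omega
    have h7 : q ∣ t := by
      rcases (Nat.Prime.dvd_mul hq).1 h5 with h8 | h8
      · exfalso
        have h9 : q ∣ 2 := by
          have h10 : (4 : ℕ) = 2 ^ 2 := by norm_num
          rw [h10] at h8
          exact hq.dvd_of_dvd_pow h8
        exact h6 h9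
      · exact h8
    have h8 : q ∣ 2 * t ^ 2 + 2 * t := Dvd.dvd.trans h7 ⟨2 * t + 2, by ring⟩
    have h9 : q ∣ 1 := (Nat.dvd_add_right h8).1 h3
    exact hq.one_lt.ne' (Nat.dvd_one.1 h9)
  by_cases h3 : q ∣ 2 * t ^ 2 + 2 * t + 1
  · have h4 : ¬ q ∣ 2 * t ^ 2 + 1 - 2 * t := fun h5 => hnot ⟨h3, h5⟩
    have h5 : Nat.Coprime (q ^ a) (2 * t ^ 2 + 1 - 2 * t) := Nat.Coprime.pow_left _ ((Nat.Prime.coprime_iff_not_dvd hq).2 h4)
    exact (Nat.le_of_dvd (by omega) (h5.dvd_of_dvd_mul_right h)).trans hA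
  · have h5 : Nat.Coprime (q ^ a) (2 * t ^ 2 + 2 * t + 1) := Nat.Coprime.pow_left _ ((Nat.Prime.coprime_iff_not_dvd hq).2 h3)
    have h6 : 0 < 2 * t ^ 2 + 1 - 2 * t := by
      have : 2 * t < 2 * t ^ 2 + 1 := by nlinarith
      omega
    exact (Nat.le_of_dvd h6 (h5.dvd_of_dvd_mul_left h)).trans hB

end Pool.Agent.Lib.MP_e0c1ed_co.Ar2
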