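import Pool.Agent.Results.MP_e0c1ed_co.SelfDualSquare

/-!
# MP_e0c1ed / Aut: the group of automorphisms of a configuration
-/

set_option autoImplicit false

namespace Pool.Agent.Lib.MP_e0c1ed_co.Aut

open Pool.Agent.Results.MP_e0c1ed_co.SelfDualSquare

/-- The group of automorphisms: pairs of a permutation of the points and a permutation of the lines which preserve
incidence. -/
def autGroup {P L : Type*} (I : P → L → Prop) : Subgroup (Equiv.Perm P × Equiv.Perm L) where
  carrier := {g | ∀ p l, I (g.1 p) (g.2 l) ↔ I p l}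
  mul_mem' := by
    intro g h hg hh p l
    change I (g.1 (h.1 p)) (g.2 (h.2 l)) ↔ I p l
    rw [hg, hh]
  one_mem' := fun p l => Iff.rfl
  inv_mem' := by
    intro g hg p l
    change I (g.1⁻¹ p) (g.2⁻¹ l) ↔ I p l
    rw [← hg]
    change I (g.1 (g.1.symm p)) (g.2 (g.2.symm l)) ↔ I p l
    rw [Equiv.apply_symm_apply, Equiv.apply_symm_apply]

theorem dualize {P L : Type*} (I : P → L → Prop) (n k : ℕ) (hI : IsConfiguration I n k)
    (hT : TrilateralFree I) : IsConfiguration (fun l p => I p l) n k ∧ TrilateralFree (fun l p => I p l) := by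
  refine ⟨⟨hI.card_lines, hI.card_points, hI.card_through_point, hI.card_on_line, ?_⟩, ?_⟩
  · intro l m p q hlm h1 h2 h3 h4
    by_contra hpq
    exact hlm (hI.unique_line p q l m hpq h1 h3 h2 h4)
  · intro l m r p q s h1 h2 h3 h4 h5 h6 h7
    obtain ⟨a1, a2, a3, a4, a5, a6⟩ := h7
    exact hT p q s m r l h4 h5 h6 h2 h3 h1 ⟨a2, a3, a4, a5, a6, a1⟩

end Pool.Agent.Lib.MP_e0c1ed_co.Aut
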