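import Mathlib

/-!
# MP_e0c1ed / IntTrace: traces of rational matrices of finite order are integers
-/

set_option autoImplicit false

namespace Pool.Agent.Lib.MP_e0c1ed_co.IntTrace

open Matrix

/-- If a rational matrix satisfies `T ^ (N + 1) = T` with `N ≥ 1`, then its trace is an integer. -/
theorem int_trace {n : Type*} [Fintype n] [DecidableEq n] (T : Matrix n n ℚ) (N : ℕ) (hN : 1 ≤ N)
    (hT : T ^ (N + 1) = T) : ∃ z : ℤ, T.trace = z := by
  set U : Matrix n n ℂ := T.map (algebraMap ℚ ℂ) with hU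
  have hUT : U ^ (N + 1) = U := by
    have h1 : ((algebraMap ℚ ℂ).mapMatrix T) ^ (N + 1) = (algebraMap ℚ ℂ).mapMatrix T := by
      rw [← map_pow, hT]
    exact h1
  have hroot : ∀ a ∈ U.charpoly.roots, IsIntegral ℤ a := by
    intro a ha
    have h1 : U.charpoly.eval a = 0 := (Polynomial.mem_roots'.1 ha).2
    rw [Matrix.eval_charpoly] at h1
    obtain ⟨v, hv0, hv⟩ := Matrix.exists_mulVec_eq_zero_iff.2 h1
    have h2 : U *ᵥ v = a • v := by
      rw [Matrix.sub_mulVec, sub_eq_zero] at hv
      rw [← hv]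
      ext i
      simp [Matrix.scalar_apply, Matrix.mulVec_diagonal]
    have h3 : ∀ m : ℕ, (U ^ m) *ᵥ v = a ^ m • v := by
      intro m
      induction m with
      | zero => simp
      | succ m ih =>
        rw [pow_succ, ← Matrix.mulVec_mulVec, h2, Matrix.mulVec_smul, ih, smul_smul, pow_succ, mul_comm]
    have h4 := h3 (N + 1)
    rw [hUT, h2] at h4
    obtain ⟨i, hi⟩ : ∃ i, v i ≠ 0 := by
      by_contra hcon
      push Not at hcon
      exact hv0 (funext hcon)
    have h5 : a = a ^ (N + 1) := by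
      have := congrFun h4 i
      simp only [Pi.smul_apply, smul_eq_mul] at this
      exact mul_right_cancel₀ hi this
    refine ⟨Polynomial.X ^ (N + 1) - Polynomial.X, Polynomial.monic_X_pow_sub ?_, ?_⟩
    · rw [Polynomial.degree_X]
      exact_mod_cast Nat.lt_succ_of_le hN
    · simp [← h5]
  have h1 : IsIntegral ℤ (algebraMap ℚ ℂ T.trace) := by
    have h2 : algebraMap ℚ ℂ T.trace = U.trace := by
      rw [hU, Matrix.trace, Matrix.trace, map_sum]
      rfl
    rw [h2, Matrix.trace_eq_sum_roots_charpoly]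
    exact IsIntegral.multiset_sum hroot
  have h2 : IsIntegral ℤ T.trace := (isIntegral_algebraMap_iff (algebraMap ℚ ℂ).injective).1 h1
  obtain ⟨z, hz⟩ := IsIntegrallyClosed.isIntegral_iff.1 h2
  exact ⟨z, by rw [← hz]; simp⟩

end Pool.Agent.Lib.MP_e0c1ed_co.IntTrace
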