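import Pool.Agent.Results.MP_e0c1ed_co.SelfDualSquare
import Pool.Agent.Lib.MP_e0c1ed_co.IntTrace

/-!
# MP_e0c1ed / Bens: Benson's congruence and its average over a group

`F` is the projection onto the eigenspace of the collinearity matrix for the eigenvalue `k - 2`. For an automorphism `b` with
`f` fixed points and `g` points moved to collinear points the number `(k f + g - k ^ 2) / (2 (k - 1))` is the trace of `b` on this
eigenspace, an integer; for a group the average of these numbers is the dimension of the space of fixed vectors.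
-/

set_option autoImplicit false

namespace Pool.Agent.Lib.MP_e0c1ed_co.Bens

open Finset Pool.Agent.Results.MP_e0c1ed_co.SelfDualSquare

section
variable {P L : Type*} [Fintype P] [Fintype L] {I : P → L → Prop} {n k : ℕ}

/-- the number of lines on `p` and `q` -/
noncomputable def S (I : P → L → Prop) (p q : P) : ℚ := ∑ m, inc I p m * inc I q m

theorem S_sum_right (hI : IsConfiguration I n k) (p : P) : ∑ q, S I p q = (k : ℚ) ^ 2 := by
  unfold S
  rw [Finset.sum_comm]
  have h1 : ∀ m, ∑ q, inc I p m * inc I q m = inc I p m * (k : ℚ) := by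
    intro m
    rw [← Finset.mul_sum, inc_sum_left, hI.card_on_line]
  rw [Finset.sum_congr rfl (fun m _ => h1 m), ← Finset.sum_mul, inc_sum_right, hI.card_through_point]
  ring

theorem S_comm (p q : P) : S I p q = S I q p := by
  unfold S
  exact Finset.sum_congr rfl fun m _ => mul_comm _ _

theorem SS (hI : IsConfiguration I n k) (hT : TrilateralFree I) (hn : n = k * (k - 1) ^ 2 + k) (hk : 1 ≤ k) (p r : P) :
    ∑ q, S I p q * S I q r = (2 * (k : ℚ) - 2) * S I p r + k := by
  have h1 : ∀ q, S I p q * S I q r = ∑ l, ∑ m, inc I r l * (inc I p m * (inc I q m * inc I q l)) := by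
    intro q
    unfold S
    rw [Finset.sum_mul_sum, Finset.sum_comm]
    refine Finset.sum_congr rfl fun l _ => Finset.sum_congr rfl fun m _ => ?_
    ring
  rw [Finset.sum_congr rfl (fun q _ => h1 q), Finset.sum_comm]
  have h2 : ∀ l, ∑ q, ∑ m, inc I r l * (inc I p m * (inc I q m * inc I q l)) =
      inc I r l * ((2 * (k : ℚ) - 2) * inc I p l + 1) := by
    intro l
    rw [← key_entry hI hT hn hk p l, Finset.sum_comm, Finset.mul_sum]
    refine Finset.sum_congr rfl fun m _ => ?_
    rw [Finset.mul_sum, Finset.mul_sum]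
  rw [Finset.sum_congr rfl (fun l _ => h2 l)]
  have h3 : ∀ l, inc I r l * ((2 * (k : ℚ) - 2) * inc I p l + 1) = (2 * (k : ℚ) - 2) * (inc I p l * inc I r l) + inc I r l := by
    intro l; ring
  rw [Finset.sum_congr rfl (fun l _ => h3 l), Finset.sum_add_distrib, ← Finset.mul_sum, inc_sum_right, hI.card_through_point]
  rfl

/-- the projection -/
noncomputable def F (I : P → L → Prop) (n k : ℕ) (p q : P) : ℚ := (S I p q - (k : ℚ) ^ 2 / n) / (2 * k - 2)

theorem FF (hI : IsConfiguration I n k) (hT : TrilateralFree I) (hn : n = k * (k - 1) ^ 2 + k) (hk : 2 ≤ k) (p r : P) :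
    ∑ q, F I n k p q * F I n k q r = F I n k p r := by
  have hk1 : (2 * (k : ℚ) - 2) ≠ 0 := by
    have : (2 : ℚ) ≤ k := by exact_mod_cast hk
    intro h
    linarith
  have hnc : (n : ℚ) = k * ((k : ℚ) - 1) ^ 2 + k := by
    have h1 : ((k - 1 : ℕ) : ℚ) = (k : ℚ) - 1 := by
      rw [Nat.cast_sub (by omega), Nat.cast_one]
    rw [hn]
    push_cast [h1]
    ring
  have hn0 : (n : ℚ) ≠ 0 := by
    rw [hnc]
    have : (2 : ℚ) ≤ k := by exact_mod_cast hk
    nlinarith [sq_nonneg ((k : ℚ) - 1), mul_nonneg (show (0 : ℚ) ≤ k by linarith) (sq_nonneg ((k : ℚ) - 1))]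
  have hcard : (Fintype.card P : ℚ) = n := by
    rw [← Nat.card_eq_fintype_card, hI.card_points]
  have h1 : ∀ q, F I n k p q * F I n k q r = (1 / (2 * (k : ℚ) - 2) ^ 2) *
      (S I p q * S I q r - (k : ℚ) ^ 2 / n * S I p q - (k : ℚ) ^ 2 / n * S I q r + ((k : ℚ) ^ 2 / n) ^ 2) := by
    intro q
    unfold F
    field_simp
    ring
  have h2 : ∑ q, S I q r = (k : ℚ) ^ 2 := by
    rw [Finset.sum_congr rfl (fun q _ => S_comm q r)]
    exact S_sum_right hI r
  rw [Finset.sum_congr rfl (fun q _ => h1 q), ← Finset.mul_sum, Finset.sum_add_distrib, Finset.sum_sub_distrib,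
    Finset.sum_sub_distrib, SS hI hT hn (by omega), ← Finset.mul_sum, ← Finset.mul_sum, S_sum_right hI, h2,
    Finset.sum_const, Finset.card_univ, nsmul_eq_mul, hcard]
  set a : ℚ := (k : ℚ) ^ 2 / n with ha
  set w : ℚ := 2 * (k : ℚ) - 2 with hw
  have han : a * n = (k : ℚ) ^ 2 := div_mul_cancel₀ _ hn0
  have h3 : (k : ℚ) - a * k ^ 2 + w * a = 0 := by
    have h4 : ((k : ℚ) - a * k ^ 2 + w * a) * n = 0 := by
      have h5 : ((k : ℚ) - a * k ^ 2 + w * a) * n = k * n - (a * n) * k ^ 2 + w * (a * n) := by ring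
      rw [h5, han, hnc, hw]
      ring
    rcases mul_eq_zero.1 h4 with h | h
    · exact h
    · exact absurd h hn0
  have h6 : F I n k p r = (S I p r - a) / w := rfl
  have h7 : (n : ℚ) * a ^ 2 = a * k ^ 2 := by
    rw [← han]; ring
  rw [h6, h7]
  field_simp
  linear_combination h3

end

end Pool.Agent.Lib.MP_e0c1ed_co.Bens
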