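import Pool.Agent.Results.MP_e0c1ed_co.SelfDualSquare

/-!
# Extremal trilateral-free configurations: integrality of a trace and Benson's congruence
-/

set_option autoImplicit false

namespace Pool.Agent.Lib.MP_e0c1ed_co

open Matrix Finset Pool.Agent.Results.MP_e0c1ed_co.SelfDualSquare

/-- a rational matrix `T` with `T ^ (m + 1) = T` has an integral trace -/
theorem trace_int {n : Type*} [Fintype n] [DecidableEq n] (T : Matrix n n ℚ) (m : ℕ)
    (h : T ^ (m + 1) = T) (hm : 1 ≤ m) : ∃ z : ℤ, T.trace = z := by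
  classical
  set φ : ℚ →+* ℂ := algebraMap ℚ ℂ with hφ
  set A : Matrix n n ℂ := φ.mapMatrix T with hA
  have hA1 : A ^ (m + 1) = A := by
    rw [hA, ← map_pow, h]
  have hμ : ∀ μ ∈ A.charpoly.roots, IsIntegral ℤ μ := by
    intro μ hμ
    have h1 : A.charpoly.IsRoot μ := Polynomial.isRoot_of_mem_roots hμ
    have h2 : (Matrix.scalar n μ - A).det = 0 := by
      rw [← Matrix.eval_charpoly]
      exact h1
    obtain ⟨v, hv0, hv⟩ := Matrix.exists_mulVec_eq_zero_iff.2 h2
    have h3 : A *ᵥ v = μ • v := by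
      rw [Matrix.sub_mulVec, sub_eq_zero] at hv
      rw [← hv]
      ext i
      simp [Matrix.scalar_apply, Matrix.mulVec_diagonal]
    have h4 : ∀ j : ℕ, (A ^ j) *ᵥ v = μ ^ j • v := by
      intro j
      induction j with
      | zero => simp
      | succ j ih =>
        rw [pow_succ, ← Matrix.mulVec_mulVec, h3, Matrix.mulVec_smul, ih, smul_smul, pow_succ, mul_comm]
    have h5 : μ ^ (m + 1) = μ := by
      have h6 := h4 (m + 1)
      rw [hA1, h3] at h6
      obtain ⟨i, hi⟩ : ∃ i, v i ≠ 0 := Function.ne_iff.1 hv0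
      have h7 := congrFun h6 i
      simp only [Pi.smul_apply, smul_eq_mul] at h7
      exact (mul_right_cancel₀ hi h7).symm
    refine ⟨Polynomial.X ^ (m + 1) - Polynomial.X, ?_, ?_⟩
    · apply Polynomial.monic_X_pow_sub
      rw [Polynomial.degree_X]
      exact_mod_cast (by omega : 1 < m + 1)
    · simp [h5]
  have h6 : IsIntegral ℤ A.trace := by
    rw [Matrix.trace_eq_sum_roots_charpoly]
    exact IsIntegral.multiset_sum hμ
  have h7 : A.trace = φ T.trace := by
    rw [hA, RingHom.mapMatrix_apply]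
    exact (AddMonoidHom.map_trace φ.toAddMonoidHom T).symm
  rw [h7, hφ, isIntegral_algebraMap_iff (algebraMap ℚ ℂ).injective] at h6
  obtain ⟨z, hz⟩ := IsIntegrallyClosed.isIntegral_iff.1 h6
  exact ⟨z, by rw [← hz]; simp⟩

/-- the idempotent of the eigenvalue `2 (k - 1)` -/
theorem exists_idem {P L : Type*} [Fintype P] [Fintype L] {I : P → L → Prop} {n k : ℕ}
    (hI : IsConfiguration I n k) (hT : TrilateralFree I) (hn : n = k * (k - 1) ^ 2 + k) (hk : 2 ≤ k) :
    ∃ (E : Matrix P P ℚ) (c : ℚ), E * E = E ∧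
      (∀ p q, (2 * ((k : ℚ) - 1)) * E p q = (∑ l, inc I p l * inc I q l) - c) ∧
      c * (Fintype.card P : ℚ) = k * k := by
  classical
  have hk1 : 1 ≤ k := by omega
  set N : Matrix P L ℚ := inc I with hN
  obtain ⟨J, hJ⟩ : ∃ J : Matrix P P ℚ, ∀ p q, J p q = 1 := ⟨fun _ _ => 1, fun _ _ => rfl⟩
  obtain ⟨J', hJ'⟩ : ∃ J' : Matrix P L ℚ, ∀ p q, J' p q = 1 := ⟨fun _ _ => 1, fun _ _ => rfl⟩
  set s : ℚ := (k : ℚ) - 1 with hs
  have hk2 : (2 : ℚ) ≤ k := by exact_mod_cast hk
  have hs1 : 1 ≤ s := by rw [hs]; linarith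
  have hks : (k : ℚ) = s + 1 := by rw [hs]; ring
  have hs0 : (2 * s) ≠ 0 := by nlinarith
  have hs2 : s ^ 2 + 1 ≠ 0 := by positivity
  have hcard : (Fintype.card P : ℚ) = (k : ℚ) * (s ^ 2 + 1) := by
    rw [← Nat.card_eq_fintype_card, hI.card_points, hn]
    have : ((k - 1 : ℕ) : ℚ) = s := by rw [Nat.cast_sub hk1, Nat.cast_one]
    push_cast [this]
    ring
  have hrow : ∀ p, ∑ l, N p l = k := by
    intro p; rw [hN, inc_sum_right, hI.card_through_point]
  have hcol : ∀ l, ∑ p, N p l = k := by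
    intro l; rw [hN, inc_sum_left, hI.card_on_line]
  set M : Matrix P P ℚ := N * Nᵀ with hM
  have hMM : M * M = (2 * s) • M + (k : ℚ) • J := by
    have h1 : N * (Nᵀ * N) = (2 * s) • N + J' := by
      ext p l
      rw [Matrix.mul_apply]
      have h2 := key_entry hI hT hn hk1 p l
      have h3 : ∀ m, (Nᵀ * N) m l = ∑ q, inc I q m * inc I q l := by
        intro m; rw [Matrix.mul_apply]; rfl
      rw [Finset.sum_congr rfl (fun m _ => by rw [h3 m])]
      rw [h2]
      simp only [Matrix.add_apply, Matrix.smul_apply, smul_eq_mul, hN, hs, hJ']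
      ring
    calc M * M = (N * (Nᵀ * N)) * Nᵀ := by rw [hM]; simp only [Matrix.mul_assoc]
      _ = ((2 * s) • N + J') * Nᵀ := by rw [h1]
      _ = (2 * s) • M + (k : ℚ) • J := by
        rw [Matrix.add_mul, Matrix.smul_mul]
        congr 1
        ext p q
        rw [Matrix.mul_apply]
        simp only [Matrix.transpose_apply, one_mul, Matrix.smul_apply, hJ, hJ', smul_eq_mul,
          mul_one]
        exact hrow q
  have hNt : ∀ (p q : P), M p q = ∑ l, N p l * N q l := by
    intro p q; rw [hM, Matrix.mul_apply]; rfl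
  have hMJ : M * J = ((k : ℚ) * k) • J := by
    ext p q
    rw [Matrix.mul_apply]
    simp only [hJ, mul_one, Matrix.smul_apply, smul_eq_mul]
    rw [Finset.sum_congr rfl (fun r _ => hNt p r), Finset.sum_comm]
    rw [Finset.sum_congr rfl (fun l _ => (Finset.mul_sum _ _ _).symm)]
    rw [Finset.sum_congr rfl (fun l _ => by rw [hcol l]), ← Finset.sum_mul, hrow]
  have hMt : Mᵀ = M := by rw [hM, Matrix.transpose_mul, Matrix.transpose_transpose]
  have hJt : Jᵀ = J := by ext p q; rw [Matrix.transpose_apply, hJ, hJ]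
  have hJM : J * M = ((k : ℚ) * k) • J := by
    have := congrArg Matrix.transpose hMJ
    rwa [Matrix.transpose_mul, Matrix.transpose_smul, hMt, hJt] at this
  have hJJ : J * J = ((k : ℚ) * (s ^ 2 + 1)) • J := by
    ext p q
    rw [Matrix.mul_apply]
    simp only [hJ, mul_one, Matrix.smul_apply, smul_eq_mul, Finset.sum_const, Finset.card_univ,
      nsmul_eq_mul, hcard]
  set c : ℚ := (k : ℚ) / (s ^ 2 + 1) with hc
  have hcs : c * (s ^ 2 + 1) = k := by rw [hc]; field_simp
  set E : Matrix P P ℚ := (1 / (2 * s)) • (M - c • J) with hE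
  have h2sE : (2 * s) • E = M - c • J := by
    rw [hE, smul_smul, mul_one_div_cancel hs0, one_smul]
  have hEM : E * M = (2 * s) • E := by
    rw [h2sE, hE, Matrix.smul_mul, Matrix.sub_mul, Matrix.smul_mul, hMM, hJM]
    ext p q
    simp only [Matrix.smul_apply, Matrix.sub_apply, Matrix.add_apply, smul_eq_mul, hJ, mul_one]
    rw [one_div, inv_mul_eq_iff_eq_mul₀ hs0]
    have : (k : ℚ) - c * (k * k) = - (2 * s * c) := by
      have e : c * (s ^ 2 + 1) = s + 1 := by rw [hcs, hks]
      rw [hks]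
      linear_combination -e
    linear_combination this
  have hEJ : E * J = 0 := by
    rw [hE, Matrix.smul_mul, Matrix.sub_mul, Matrix.smul_mul, hMJ, hJJ]
    ext p q
    simp only [Matrix.smul_apply, Matrix.sub_apply, smul_eq_mul, hJ, mul_one, Matrix.zero_apply]
    have : c * ((k : ℚ) * (s ^ 2 + 1)) = k * k := by
      rw [mul_left_comm, hcs]
    rw [this, sub_self, mul_zero]
  have hEE : E * E = E := by
    have h1 : (2 * s) • (E * E) = (2 * s) • E := by
      rw [← Matrix.mul_smul, h2sE, Matrix.mul_sub, Matrix.mul_smul, hEJ, hEM, smul_zero, sub_zero,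
        h2sE]
    have h2 := congrArg (fun X => (1 / (2 * s)) • X) h1
    simpa only [smul_smul, one_div_mul_cancel hs0, one_smul] using h2
  refine ⟨E, c, hEE, ?_, ?_⟩
  · intro p q
    have h1 := congrFun (congrFun h2sE p) q
    simp only [Matrix.smul_apply, Matrix.sub_apply, smul_eq_mul, hJ, mul_one] at h1
    rw [h1, hNt]
  · rw [hcard, mul_left_comm, hcs]

/-- **Benson's congruence** for an automorphism of an extremal trilateral-free configuration -/
theorem benson {P L : Type*} [Finite P] [Finite L] {I : P → L → Prop} {n k : ℕ}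
    (hI : IsConfiguration I n k) (hT : TrilateralFree I) (hn : n = k * (k - 1) ^ 2 + k) (hk : 2 ≤ k)
    (σ : Equiv.Perm P) (τ : Equiv.Perm L) (h : ∀ p l, I (σ p) (τ l) ↔ I p l) :
    ∃ z : ℤ, (k : ℤ) * ({p | σ p = p}.ncard : ℤ) + ({p | σ p ≠ p ∧ ∃ l, I p l ∧ I (σ p) l}.ncard : ℤ) =
      (k : ℤ) ^ 2 + 2 * ((k : ℤ) - 1) * z := by
  classical
  have : Fintype P := Fintype.ofFinite P
  have : Fintype L := Fintype.ofFinite L
  obtain ⟨E, c, hEE, hE, hc⟩ := exists_idem hI hT hn hk
  have hk2 : (2 : ℚ) ≤ k := by exact_mod_cast hk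
  have hs0 : (2 * ((k : ℚ) - 1)) ≠ 0 := by
    have : 0 < (k : ℚ) - 1 := by linarith
    positivity
  have hinv : ∀ p q, E (σ p) (σ q) = E p q := by
    intro p q
    apply mul_left_cancel₀ hs0
    rw [hE, hE]
    congr 1
    rw [← Equiv.sum_comp τ]
    apply Finset.sum_congr rfl
    intro l _
    simp only [inc, h]
  set T : Matrix P P ℚ := fun p q => E (σ p) q with hTd
  have hpow : ∀ j : ℕ, ∀ p q, (T ^ (j + 1)) p q = E ((σ ^ (j + 1)) p) q := by
    intro j
    induction j with
    | zero => intro p q; rw [zero_add, pow_one, pow_one]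
    | succ j ih =>
      intro p q
      rw [pow_succ, Matrix.mul_apply]
      have h1 : ∀ r, (T ^ (j + 1)) p r * T r q = E ((σ ^ (j + 1 + 1)) p) (σ r) * E (σ r) q := by
        intro r
        rw [ih, hTd, pow_succ' σ (j + 1), Equiv.Perm.mul_apply, hinv]
      rw [Finset.sum_congr rfl (fun r _ => h1 r),
        Equiv.sum_comp σ (fun r => E ((σ ^ (j + 1 + 1)) p) r * E r q), ← Matrix.mul_apply, hEE]
  have hord : 1 ≤ orderOf σ := orderOf_pos σ
  obtain ⟨z, hz⟩ := trace_int T (orderOf σ) (by
    ext p q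
    rw [hpow, pow_succ, pow_orderOf_eq_one, one_mul]) hord
  have htr : (2 * ((k : ℚ) - 1)) * z = (∑ p, ∑ l, inc I (σ p) l * inc I p l) - k * k := by
    rw [← hz, Matrix.trace, Finset.mul_sum, ← hc]
    have h1 : ∀ p, (2 * ((k : ℚ) - 1)) * Matrix.diag T p = (∑ l, inc I (σ p) l * inc I p l) - c := by
      intro p
      rw [Matrix.diag_apply, hTd, hE]
    rw [Finset.sum_congr rfl (fun p _ => h1 p), Finset.sum_sub_distrib, Finset.sum_const,
      Finset.card_univ, nsmul_eq_mul, mul_comm c]
  have hent : ∀ p, ∑ l, inc I (σ p) l * inc I p l =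
      (k : ℚ) * (if σ p = p then 1 else 0) + (if σ p ≠ p ∧ ∃ l, I p l ∧ I (σ p) l then 1 else 0) := by
    intro p
    by_cases hp : σ p = p
    · rw [if_pos hp, if_neg (by simp [hp]), hp, mul_one, add_zero]
      have h3 : ∀ l, inc I p l * inc I p l = inc I p l := by
        intro l; unfold inc; split_ifs <;> simp
      rw [Finset.sum_congr rfl (fun l _ => h3 l), inc_sum_right, hI.card_through_point]
    · rw [if_neg hp, mul_zero, zero_add]
      by_cases hl : ∃ l, I p l ∧ I (σ p) l
      · rw [if_pos ⟨hp, hl⟩]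
        obtain ⟨l, hl1, hl2⟩ := hl
        rw [Finset.sum_eq_single l]
        · rw [inc_of I hl1, inc_of I hl2, mul_one]
        · intro m _ hm
          by_cases h1 : I p m
          · by_cases h2 : I (σ p) m
            · exact absurd (hI.unique_line (σ p) p m l hp h2 h1 hl2 hl1) hm
            · rw [inc_of_not I h2, zero_mul]
          · rw [inc_of_not I h1, mul_zero]
        · intro h'; exact absurd (Finset.mem_univ l) h'
      · rw [if_neg (fun h' => hl h'.2)]
        apply Finset.sum_eq_zero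
        intro l _
        by_cases h1 : I p l
        · by_cases h2 : I (σ p) l
          · exact absurd ⟨l, h1, h2⟩ hl
          · rw [inc_of_not I h2, zero_mul]
        · rw [inc_of_not I h1, mul_zero]
  rw [Finset.sum_congr rfl (fun p _ => hent p), Finset.sum_add_distrib, ← Finset.mul_sum,
    Finset.sum_boole, Finset.sum_boole] at htr
  have h1 : {p | σ p = p}.ncard = (Finset.univ.filter fun p => σ p = p).card := by
    rw [Set.ncard_eq_toFinset_card']
    congr 1
    ext; simp
  have h2 : {p | σ p ≠ p ∧ ∃ l, I p l ∧ I (σ p) l}.ncard =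
      (Finset.univ.filter fun p => σ p ≠ p ∧ ∃ l, I p l ∧ I (σ p) l).card := by
    rw [Set.ncard_eq_toFinset_card']
    congr 1
    ext; simp
  refine ⟨z, ?_⟩
  rw [h1, h2]
  have h3 : ((k : ℚ) * ((Finset.univ.filter fun p => σ p = p).card : ℚ) +
      ((Finset.univ.filter fun p => σ p ≠ p ∧ ∃ l, I p l ∧ I (σ p) l).card : ℚ)) =
      (k : ℚ) ^ 2 + 2 * ((k : ℚ) - 1) * z := by
    linear_combination -htr
  exact_mod_cast h3

/-- the axiom of a generalized quadrangle -/
theorem gq_axiom {P L : Type*} [Finite P] [Finite L] {I : P → L → Prop} {n k : ℕ}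
    (hI : IsConfiguration I n k) (hT : TrilateralFree I) (hn : n = k * (k - 1) ^ 2 + k) (hk : 1 ≤ k)
    (p : P) (l : L) (hpl : ¬ I p l) : ∃ m q, I p m ∧ I q m ∧ I q l := by
  classical
  have : Fintype P := Fintype.ofFinite P
  have : Fintype L := Fintype.ofFinite L
  have h1 := key_entry hI hT hn hk p l
  rw [inc_of_not I hpl, mul_zero, zero_add] at h1
  by_contra hex
  have h2 : ∑ m, inc I p m * ∑ q, inc I q m * inc I q l = 0 := by
    apply Finset.sum_eq_zero
    intro m _
    by_cases hpm : I p m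
    · rw [Finset.sum_eq_zero, mul_zero]
      intro q _
      by_cases hq1 : I q m
      · by_cases hq2 : I q l
        · exact absurd ⟨m, q, hpm, hq1, hq2⟩ hex
        · rw [inc_of_not I hq2, mul_zero]
      · rw [inc_of_not I hq1, zero_mul]
    · rw [inc_of_not I hpm, zero_mul]
  rw [h2] at h1
  exact zero_ne_one h1

end Pool.Agent.Lib.MP_e0c1ed_co
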