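import Mathlib

/-!
# MP_e0c1ed / Cena: arithmetic for the centralizer of the derived subgroup
-/

set_option autoImplicit false

namespace Pool.Agent.Lib.MP_e0c1ed_co.Cen

/-- `e = 1` and `ν = s + 1` -/
theorem arith1 (s M e ν m w : ℕ) (z : ℤ) (hs : s % 2 = 0) (hs2 : 2 ≤ s) (hνm : (s + 1) * (s ^ 2 + 1) = ν * M)
    (hme : (M : ℤ) * e = ((s : ℤ) + 1) ^ 2 + 2 * s * z) (heν : e ≤ ν) (hm2 : 2 * s < m)
    (hmw : s ^ 2 + 1 = m * w) (hνw : ν ∣ (s + 1) * w) (hcase : ν ≤ s + 1 ∨ ν ∣ s ^ 2 + 1) :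
    M * e = s ^ 2 + 1 := by
  obtain ⟨t, ht⟩ : ∃ t, s = 2 * t := ⟨s / 2, by omega⟩
  have hts : (s : ℤ) = 2 * t := by exact_mod_cast ht
  have hw0 : 0 < w := by
    rcases Nat.eq_zero_or_pos w with h | h
    · rw [h, mul_zero] at hmw; omega
    · exact h
  have hw : w < s := by
    by_contra h
    push Not at h
    have h1 : (2 * s + 1) * s ≤ m * w := Nat.mul_le_mul (by omega) h
    rw [← hmw] at h1
    nlinarith
  -- `ν` is odd
  have hνodd : ν % 2 = 1 := by
    have h1 : ((s + 1) * (s ^ 2 + 1)) % 2 = 1 := by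
      have h2 : (s + 1) * (s ^ 2 + 1) = 2 * (4 * t ^ 3 + 2 * t ^ 2 + t) + 1 := by rw [ht]; ring
      omega
    rw [hνm, Nat.mul_mod] at h1
    rcases Nat.mod_two_eq_zero_or_one ν with h | h
    · rw [h] at h1; simp at h1
    · exact h
  have h1 : ((s : ℤ) + 1) * e - ν = 2 * s * (ν * (t + 1 + z) - (s + 1) * t * e) := by
    have h2 : ((s : ℤ) + 1) * (s ^ 2 + 1) = ν * M := by exact_mod_cast hνm
    have h3 : (ν : ℤ) * (M * e) = ν * (((s : ℤ) + 1) ^ 2 + 2 * s * z) := by rw [hme]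
    have h4 : ((s : ℤ) + 1) * (s ^ 2 + 1) * e = ν * (((s : ℤ) + 1) ^ 2 + 2 * s * z) := by
      rw [h2, ← h3]; ring
    rw [hts] at h4 ⊢
    linear_combination h4
  obtain ⟨Z, hZ⟩ : ∃ Z : ℤ, (e : ℤ) + s - ν = 2 * s * Z := by
    have heodd : e % 2 = 1 := by
      have h5 : (e : ℤ) = ν + 2 * (s * (ν * (t + 1 + z) - (s + 1) * t * e) - t * e) := by
        rw [hts] at h1 ⊢
        linear_combination h1
      have h6 : (e : ℤ) % 2 = (ν : ℤ) % 2 := by
        rw [h5, Int.add_mul_emod_self_left]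
      omega
    obtain ⟨e', he'⟩ : ∃ e', e = 2 * e' + 1 := ⟨e / 2, by omega⟩
    refine ⟨ν * (t + 1 + z) - (s + 1) * t * e - e', ?_⟩
    have he'' : (e : ℤ) = 2 * e' + 1 := by exact_mod_cast he'
    have h7 : (e : ℤ) + s - ν = (((s : ℤ) + 1) * e - ν) - 2 * s * e' := by
      rw [he'']; ring
    rw [h7, h1]
    ring
  have he1 : 1 ≤ e := by
    rcases Nat.eq_zero_or_pos e with h | h
    · exfalso
      rw [h] at h1
      push_cast at h1
      have h6 : (ν : ℤ) = 2 * (-(s * (ν * (t + 1 + z) - (s + 1) * t * 0))) := by linear_combination -h1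
      omega
    · exact h
  have hspos : (0 : ℤ) < 2 * s := by omega
  have hup : Z ≤ 0 := by
    by_contra h
    have h5 : (1 : ℤ) ≤ Z := by omega
    have h6 : 2 * (s : ℤ) * 1 ≤ 2 * s * Z := mul_le_mul_of_nonneg_left h5 hspos.le
    rw [← hZ] at h6
    omega
  have h7 : 2 * (s : ℤ) * Z ≤ 0 := mul_nonpos_of_nonneg_of_nonpos hspos.le hup
  rcases hcase with hc | hc
  · have h5 : (e : ℤ) + s - ν = 0 := by
      have h6 : (0 : ℤ) ≤ e + s - ν := by omega
      omega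
    have hν : ν = s + 1 := by omega
    have he : e = 1 := by omega
    rw [hν] at hνm
    rw [he, mul_one]
    exact (Nat.eq_of_mul_eq_mul_left (by omega) hνm).symm
  · exfalso
    have hcop : Nat.Coprime ν (s + 1) := by
      have h8 : Nat.Coprime (s ^ 2 + 1) (s + 1) := by
        have h9 : IsCoprime ((s : ℤ) ^ 2 + 1) ((s : ℤ) + 1) := by
          refine ⟨t + 1, -(s * (t + 1) - t), ?_⟩
          rw [hts]
          ring
        rw [Nat.isCoprime_iff_coprime.symm]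
        exact_mod_cast h9
      exact Nat.Coprime.coprime_dvd_left hc h8
    have h5 : ν ∣ w := hcop.dvd_of_dvd_mul_left hνw
    have h6 := Nat.le_of_dvd hw0 h5
    omega

/-- `s + 1 ∣ m - 1` is impossible -/
theorem arith2 (s m w : ℕ) (hs : s % 2 = 0) (hs2 : 2 ≤ s) (hm2 : 2 * s < m) (hmw : s ^ 2 + 1 = m * w)
    (h : (s + 1) ∣ m - 1) : False := by
  obtain ⟨t, ht⟩ : ∃ t, s = 2 * t := ⟨s / 2, by omega⟩
  have hw0 : 0 < w := by
    rcases Nat.eq_zero_or_pos w with h | h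
    · rw [h, mul_zero] at hmw; omega
    · exact h
  have hw : w < s := by
    by_contra h
    push Not at h
    have h1 : (2 * s + 1) * s ≤ m * w := Nat.mul_le_mul (by omega) h
    rw [← hmw] at h1
    nlinarith
  have h1 : ((s : ℤ) + 1) ∣ (m : ℤ) - 1 := by
    have h2 : ((s + 1 : ℕ) : ℤ) ∣ ((m - 1 : ℕ) : ℤ) := by exact_mod_cast h
    rw [Nat.cast_sub (by omega), Nat.cast_one] at h2
    exact_mod_cast h2
  have h3 : ((s : ℤ) + 1) ∣ (w : ℤ) - 2 := by
    have h4 : (w : ℤ) - 2 = (s + 1) * (s - 1) - (m - 1) * w := by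
      have h5 : (s : ℤ) ^ 2 + 1 = m * w := by exact_mod_cast hmw
      linear_combination -h5
    rw [h4]
    exact dvd_sub (dvd_mul_right _ _) (h1.mul_right _)
  have h4 : (w : ℤ) - 2 = 0 := by
    apply Int.eq_zero_of_abs_lt_dvd h3
    rw [abs_lt]
    constructor <;> omega
  have h5 : w = 2 := by omega
  rw [h5, ht] at hmw
  have h7 : (2 * t) ^ 2 + 1 = 2 * (2 * t ^ 2) + 1 := by ring
  omega

end Pool.Agent.Lib.MP_e0c1ed_co.Cen
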