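import Pool.Agent.Lib.MP_e0c1ed_co.Ab5
import Pool.Agent.Lib.MP_e0c1ed_co.Big
import Pool.Agent.Lib.MP_e0c1ed_co.Semi
import Pool.Agent.Lib.MP_e0c1ed_co.Cena

/-!
# MP_e0c1ed / Cen: the centralizer of the derived subgroup is trivial
-/

set_option autoImplicit false

namespace Pool.Agent.Lib.MP_e0c1ed_co.Cen

open Finset Pool.Agent.Results.MP_e0c1ed_co.SelfDualSquare Bens Grp Orb Big

section
variable {P L G : Type*} [Finite P] [Finite L] [Group G] [Finite G] [MulAction G P] [MulAction G L]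
  {I : P → L → Prop} {n k : ℕ}

theorem no_central (hI : IsConfiguration I n k) (hT : TrilateralFree I) (hn : n = k * (k - 1) ^ 2 + k)
    (hk : k % 2 = 1) (hk3 : 3 ≤ k) (hG : ∀ (g : G) (p : P) (l : L), I (g • p) (g • l) ↔ I p l)
    (ht : ∀ p q : P, ∃ g : G, g • p = q) (B : Subgroup G) [B.Normal] (hab : ∀ a ∈ B, ∀ b ∈ B, a * b = b * a)
    (hsemi : ∀ b ∈ B, b ≠ 1 → ∀ x : P, b • x ≠ x) (hm : Nat.card B ∣ (k - 1) ^ 2 + 1) (hm2 : 2 * (k - 1) < Nat.card B)
    (hcomm : ∀ g h : G, ∀ b ∈ B, (g * h * g⁻¹ * h⁻¹) * b = b * (g * h * g⁻¹ * h⁻¹)) : False := by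
  classical
  have : Fintype P := Fintype.ofFinite P
  have : Fintype L := Fintype.ofFinite L
  have : MulAction.IsPretransitive G P := ⟨ht⟩
  have hinv : ∀ (g : G) x l, I x l → I (g • x) (g • l) := fun g p l h => (hG g p l).2 h
  obtain ⟨s, rfl⟩ : ∃ s, k = s + 1 := ⟨k - 1, by omega⟩
  have hnk := hn
  rw [Nat.add_sub_cancel] at hn hm hm2
  obtain ⟨w, hw⟩ := hm
  set m := Nat.card B with hmdef
  have hm0 : 0 < m := by omega
  have hn' : n = (s + 1) * (s ^ 2 + 1) := by rw [hn]; ring
  have hn'' : n = (s + 1) * w * m := by rw [hn', hw]; ring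
  have hPc : Nat.card P = n := hI.card_points
  have hPpos : 0 < Nat.card P := by rw [hPc, hn']; positivity
  obtain ⟨x0⟩ : Nonempty P := (Nat.card_pos_iff.1 hPpos).1
  -- the action by conjugation on `B`
  let act : MulAction G B := MulAction.compHom B (MulAut.conjNormal : G →* MulAut B)
  have hact : ∀ (g : G) (b : B), ((g • b : B) : G) = g * b * g⁻¹ := fun g b => MulAut.conjNormal_apply g b
  -- orbits of `B` on the points
  have hBorb : ∀ y : P, (MulAction.orbit B y).ncard = m := by
    intro y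
    rw [← MulAction.index_stabilizer]
    have h1 : MulAction.stabilizer B y = ⊥ := by
      rw [Subgroup.eq_bot_iff_forall]
      intro b hb
      by_contra hb1
      exact hsemi b b.2 (fun h => hb1 (Subtype.ext h)) y hb
    rw [h1, Subgroup.index_bot]
  -- the centralizer of `B`
  let N : Subgroup G := (MulAut.conjNormal : G →* MulAut B).ker
  have : Fintype N := Fintype.ofFinite N
  have hNmem : ∀ g : G, g ∈ N ↔ ∀ b : B, g * b * g⁻¹ = b := by
    intro g
    constructor
    · intro h b
      have h1 : (MulAut.conjNormal : G →* MulAut B) g = 1 := MonoidHom.mem_ker.1 h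
      have h2 := congrArg (fun f : MulAut B => ((f b : B) : G)) h1
      simpa [MulAut.conjNormal_apply] using h2
    · intro h
      refine MonoidHom.mem_ker.2 ?_
      apply MulEquiv.ext
      intro b
      apply Subtype.ext
      rw [MulAut.conjNormal_apply]
      exact h b
  have hNab : ∀ g h : G, g * h * g⁻¹ * h⁻¹ ∈ N := by
    intro g h
    rw [hNmem]
    intro b
    rw [hcomm g h b b.2, mul_inv_cancel_right]
  have hBN : ∀ b ∈ B, b ∈ N := by
    intro b hb
    rw [hNmem]
    intro a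
    rw [hab b hb a a.2, mul_inv_cancel_right]
  -- the orbits of `N`
  set M := (MulAction.orbit N x0).ncard with hM
  obtain ⟨ν, hν0⟩ : M ∣ Nat.card P :=
    (MulAction.IsBlock.orbit_of_normal (G := G) (N := N) x0).ncard_dvd_card ⟨x0, MulAction.mem_orbit_self x0⟩
  have hν : n = ν * M := by rw [← hPc, hν0, mul_comm]
  have hMy : ∀ y : P, (MulAction.orbit N y).ncard = M := fun y => Norm.orbit_ncard ht N y x0
  have hcase : ν ≤ s + 1 ∨ ν ∣ s ^ 2 + 1 := by
    have h1 := Ab5.abel hI hT hnk hk hk3 hinv ht N hNab x0 ν hν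
    rwa [Nat.add_sub_cancel] at h1
  obtain ⟨μ, hμ⟩ : m ∣ M := by
    have h1 := dvd_of_orbits (G := B) (MulAction.orbit N x0) (by
      intro c y hy
      obtain ⟨a, ha⟩ := hy
      refine ⟨⟨c, hBN c c.2⟩ * a, ?_⟩
      rw [← ha]
      exact mul_smul _ _ _) 1 m (fun y _ => by rw [hBorb y, one_mul])
    rwa [one_mul] at h1
  have hνw : ν ∣ (s + 1) * w := by
    have h1 : m * ((s + 1) * w) = m * (ν * μ) := by
      have h2 : m * ((s + 1) * w) = n := by rw [hn'']; ring
      rw [h2, hν, hμ]; ring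
    exact ⟨μ, Nat.eq_of_mul_eq_mul_left hm0 h1⟩
  -- the conjugacy classes in `B`
  have key : ∀ b : B, b ≠ 1 → (s + 1) ∣ (MulAction.orbit G b).ncard := by
    intro b hb
    have hb1 : (b : G) ≠ 1 := fun h => hb (Subtype.ext h)
    set A : Set P := {y | ∃ l, I y l ∧ I ((b : G) • y) l} with hAdef
    have hA : ∀ g : G, g * b * g⁻¹ = b → ∀ y ∈ A, g • y ∈ A := by
      rintro g hg y ⟨l, h1, h2⟩
      refine ⟨g • l, hinv g y l h1, ?_⟩
      have h3 : (b : G) • (g • y) = g • ((b : G) • y) := by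
        rw [← mul_smul, ← mul_smul]
        congr 1
        calc (b : G) * g = (g * b * g⁻¹) * g := by rw [hg]
          _ = g * b := by group
      rw [h3]
      exact hinv g _ l h2
    obtain ⟨e, he⟩ : M ∣ A.ncard := by
      have h1 := dvd_of_orbits (G := N) A (fun c y hy => hA c ((hNmem c).1 c.2 b) y hy) 1 M
        (fun y _ => by rw [hMy y, one_mul])
      rwa [one_mul] at h1
    obtain ⟨z, hz⟩ := Grp.benson (B := G) hI hT hnk (by omega) hinv (b : G)
    have hsum : ∑ y, S I y ((b : G) • y) = (A.ncard : ℚ) := by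
      have h1 : A.ncard = (univ.filter fun y => ∃ l, I y l ∧ I ((b : G) • y) l).card := by
        rw [← Set.ncard_coe_finset]
        congr 1
        ext y
        simp [hAdef]
      rw [h1, ← Finset.sum_boole]
      refine Finset.sum_congr rfl fun y _ => ?_
      by_cases h : ∃ l, I y l ∧ I ((b : G) • y) l
      · rw [if_pos h]
        obtain ⟨l, h1, h2⟩ := h
        exact S_col hI (fun h => hsemi b b.2 hb1 y h.symm) h1 h2
      · rw [if_neg h]
        exact S_ncol h
    have heZ : (M : ℤ) * e = ((s : ℤ) + 1) ^ 2 + 2 * s * z := by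
      rw [hsum, he] at hz
      have h1 : ((M * e : ℕ) : ℚ) = (((s : ℤ) + 1) ^ 2 + 2 * s * z : ℤ) := by
        rw [hz]; push_cast; ring
      exact_mod_cast h1
    have hM0 : 0 < M := by
      rcases Nat.eq_zero_or_pos M with h | h
      · rw [h, mul_zero] at hν
        rw [hPc, hν] at hPpos
        omega
      · exact h
    have heν : e ≤ ν := by
      have h1 : A.ncard ≤ Nat.card P := Set.ncard_le_card A
      rw [he, hPc, hν, mul_comm ν M] at h1
      exact Nat.le_of_mul_le_mul_left h1 hM0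
    have h1 := arith1 s M e ν m w z (by omega) (by omega) (hn'.symm.trans hν) heZ heν hm2 hw hνw hcase
    -- the centralizer
    set C : Subgroup G := MulAction.stabilizer G b with hC
    have hCmem : ∀ c : C, (c : G) * b * (c : G)⁻¹ = b := by
      intro c
      have h1 : (c : G) • b = b := c.2
      have h2 := congrArg (Subtype.val) h1
      rw [hact] at h2
      exact h2
    have hdiv : n ∣ C.index * A.ncard := by
      refine dvd_of_orbits (G := C) A (fun c y hy => hA c (hCmem c) y hy) C.index n (fun y _ => ?_)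
      have h2 : (MulAction.stabilizer G y ⊓ C).relIndex C * C.index = (MulAction.stabilizer G y ⊓ C).index :=
        Subgroup.relIndex_mul_index inf_le_right
      have h6 : (MulAction.stabilizer G y ⊓ C).relIndex C = (MulAction.orbit C y).ncard := by
        rw [← MulAction.index_stabilizer, Subgroup.inf_relIndex_right]
        rfl
      have h1 : (MulAction.stabilizer G y).index = n := by
        rw [MulAction.index_stabilizer, MulAction.orbit_eq_univ, Set.ncard_univ, hPc]
      rw [mul_comm, ← h6, h2, ← h1]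
      exact Subgroup.index_dvd_of_le inf_le_left
    rw [he, h1, hn'] at hdiv
    rw [← MulAction.index_stabilizer]
    exact Nat.dvd_of_mul_dvd_mul_right (by positivity) hdiv
  -- `|B| ≡ 1`
  have hBfin : Finite B := Nat.finite_of_card_ne_zero (by omega)
  have hone : (s + 1) ∣ m - 1 := by
    have h1 := dvd_of_orbits (G := G) (S := B) {b | b ≠ 1} (by
      intro g b hb h
      apply hb
      have h2 := congrArg Subtype.val h
      rw [hact] at h2
      apply Subtype.ext
      have h3 : g * (b : G) * g⁻¹ = 1 := h2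
      have h4 : (b : G) = g⁻¹ * (g * (b : G) * g⁻¹) * g := by group
      rw [h4, h3]
      simp) 1 (s + 1) (fun b hb => by rw [one_mul]; exact key b hb)
    rw [one_mul] at h1
    have h2 : ({b | b ≠ 1} : Set B).ncard = m - 1 := by
      have h3 : ({b | b ≠ 1} : Set B) = Set.univ \ {1} := by ext b; simp
      rw [h3, Set.ncard_sdiff (Set.subset_univ _), Set.ncard_univ, Set.ncard_singleton]
    rwa [h2] at h1
  exact arith2 s m w (by omega) (by omega) hm2 hw hone

/-- An abelian normal subgroup centralized by the derived subgroup is trivial. -/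
theorem no_abelian (hI : IsConfiguration I n k) (hT : TrilateralFree I) (hn : n = k * (k - 1) ^ 2 + k)
    (hk : k % 2 = 1) (hk3 : 3 ≤ k) (hG : ∀ (g : G) (p : P) (l : L), I (g • p) (g • l) ↔ I p l)
    (hf : ∀ g : G, (∀ p : P, g • p = p) → g = 1) (ht : ∀ p q : P, ∃ g : G, g • p = q)
    (A : Subgroup G) (hAn : A.Normal) (hAab : ∀ a ∈ A, ∀ b ∈ A, a * b = b * a)
    (hcomm : ∀ g h : G, ∀ b ∈ A, (g * h * g⁻¹ * h⁻¹) * b = b * (g * h * g⁻¹ * h⁻¹)) : A = ⊥ := by
  classical
  by_contra hA2
  obtain ⟨q, hq, hqA⟩ := Nat.exists_prime_and_dvd (n := Nat.card A) (by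
    intro h
    exact hA2 (Subgroup.card_eq_one.1 h))
  have := Fact.mk hq
  let B : Subgroup G :=
    { carrier := {a | a ∈ A ∧ a ^ q = 1}
      mul_mem' := by
        rintro a b ⟨ha1, ha2⟩ ⟨hb1, hb2⟩
        refine ⟨A.mul_mem ha1 hb1, ?_⟩
        have hc : Commute a b := hAab a ha1 b hb1
        rw [hc.mul_pow, ha2, hb2, one_mul]
      one_mem' := ⟨A.one_mem, one_pow q⟩
      inv_mem' := by
        rintro a ⟨ha1, ha2⟩
        exact ⟨A.inv_mem ha1, by rw [inv_pow, ha2, inv_one]⟩ }
  have hBmem : ∀ a, a ∈ B ↔ a ∈ A ∧ a ^ q = 1 := fun a => Iff.rfl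
  have hBn : B.Normal := by
    constructor
    intro b hb g
    rw [hBmem] at hb ⊢
    exact ⟨hAn.conj_mem b hb.1 g, by rw [conj_pow, hb.2, mul_one, mul_inv_cancel]⟩
  have hBne : B ≠ ⊥ := by
    obtain ⟨x, hx⟩ := exists_prime_orderOf_dvd_card' q hqA
    intro h
    have h1 : x.1 ∈ B := by
      rw [hBmem]
      refine ⟨x.2, ?_⟩
      have h2 := pow_orderOf_eq_one x
      rw [hx] at h2
      exact congrArg Subtype.val h2
    rw [h, Subgroup.mem_bot] at h1
    have h3 : x = 1 := Subtype.ext h1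
    rw [h3, orderOf_one] at hx
    exact hq.one_lt.ne hx
  have hexp : ∀ b ∈ B, b ^ q = 1 := fun b hb => hb.2
  have hBab : ∀ a ∈ B, ∀ b ∈ B, a * b = b * a := fun a ha b hb => hAab a ha.1 b hb.1
  have hPB : IsPGroup q B := by
    intro b
    exact ⟨1, by rw [pow_one]; exact Subtype.ext (hexp b.1 b.2)⟩
  obtain ⟨a, ha⟩ := IsPGroup.iff_card.1 hPB
  have hnp : n = k * ((k - 1) ^ 2 + 1) := by rw [hn]; ring
  have hcardP : Nat.card P = n := hI.card_points
  obtain ⟨x0⟩ : Nonempty P := by
    rw [← Finite.card_pos_iff, hcardP, hnp]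
    exact Nat.mul_pos (by omega) (by omega)
  have : MulAction.IsPretransitive G P := ⟨ht⟩
  have h1 : (MulAction.orbit B x0).ncard ∣ Nat.card P :=
    (MulAction.IsBlock.orbit_of_normal (G := G) (N := B) x0).ncard_dvd_card
      ⟨x0, MulAction.mem_orbit_self x0⟩
  have h2 : (MulAction.orbit B x0).ncard ∣ q ^ a := by
    rw [← ha, ← MulAction.index_stabilizer]
    exact Subgroup.index_dvd_card _
  obtain ⟨b, hb, hm⟩ := (Nat.dvd_prime_pow hq).1 h2
  have h3 := Main.long_orbits hI hT hn hk hk3 hG hf ht B hBne x0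
  rw [hcardP, hnp, hm] at h1
  rw [hm] at h3
  have hb0 : b ≠ 0 := by
    rintro rfl
    rw [pow_zero] at h3
    omega
  have hcop : Nat.Coprime k ((k - 1) ^ 2 + 1) := by
    obtain ⟨t, hkt⟩ : ∃ t, k = 2 * t + 1 := ⟨k / 2, by omega⟩
    have e1 : k - 1 = 2 * t := by omega
    rw [e1, hkt]
    have e2 : (2 * t) ^ 2 + 1 = 2 + (2 * t + 1) * (2 * t - 1) := by
      rcases Nat.eq_zero_or_pos t with h | h
      · omega
      · obtain ⟨u, hu⟩ : ∃ u, 2 * t = u + 1 := ⟨2 * t - 1, by omega⟩
        rw [hu, Nat.add_sub_cancel]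
        ring
    rw [e2, Nat.coprime_add_mul_left_right]
    exact (Nat.coprime_two_right).2 ⟨t, rfl⟩
  have h4 : q ^ b ∣ (k - 1) ^ 2 + 1 := by
    rcases (hcop.isPrimePow_dvd_mul (hq.isPrimePow.pow hb0)).1 h1 with h4 | h4
    · have := Nat.le_of_dvd (by omega) h4
      omega
    · exact h4
  have hsemi := Semi.semiregular hI hT hn hk hk3 hG hf ht B hBab q hq hPB ((dvd_pow_self q hb0).trans h4)
  have hcB : Nat.card B = q ^ b := by
    have h5 : MulAction.stabilizer B x0 = ⊥ := by
      rw [Subgroup.eq_bot_iff_forall]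
      intro c hc
      by_contra hc1
      exact hsemi c c.2 (fun h => hc1 (Subtype.ext h)) x0 hc
    rw [← hm, ← MulAction.index_stabilizer, h5, Subgroup.index_bot]
  exact no_central hI hT hn hk hk3 hG ht B hBab hsemi (by rw [hcB]; exact h4) (by rw [hcB]; exact h3)
    (fun g h c hc => hcomm g h c hc.1)

/-- **The centralizer of the derived subgroup of a point transitive group is trivial.** -/
theorem main (hI : IsConfiguration I n k) (hT : TrilateralFree I) (hn : n = k * (k - 1) ^ 2 + k)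
    (hk : k % 2 = 1) (hk3 : 3 ≤ k) (hG : ∀ (g : G) (p : P) (l : L), I (g • p) (g • l) ↔ I p l)
    (hf : ∀ g : G, (∀ p : P, g • p = p) → g = 1) (ht : ∀ p q : P, ∃ g : G, g • p = q) :
    Subgroup.centralizer ((commutator G : Subgroup G) : Set G) = ⊥ := by
  set D : Subgroup G := Subgroup.centralizer ((commutator G : Subgroup G) : Set G) with hD
  have hDmem : ∀ d, d ∈ D ↔ ∀ c ∈ commutator G, c * d = d * c := fun d => Subgroup.mem_centralizer_iff
  have hcc : ∀ g h : G, g * h * g⁻¹ * h⁻¹ ∈ commutator G := fun g h =>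
    Subgroup.commutator_mem_commutator (Subgroup.mem_top g) (Subgroup.mem_top h)
  have hDn : D.Normal := by
    constructor
    intro d hd g
    rw [hDmem] at hd ⊢
    intro c hc
    have h1 : g⁻¹ * c * g ∈ commutator G := by
      have := (inferInstance : (commutator G).Normal).conj_mem c hc g⁻¹
      simpa using this
    have h2 := hd _ h1
    calc c * (g * d * g⁻¹) = g * ((g⁻¹ * c * g) * d) * g⁻¹ := by group
      _ = g * (d * (g⁻¹ * c * g)) * g⁻¹ := by rw [h2]
      _ = g * d * g⁻¹ * c := by group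
  have hDc : ∀ g h : G, ∀ b ∈ D, (g * h * g⁻¹ * h⁻¹) * b = b * (g * h * g⁻¹ * h⁻¹) := fun g h b hb =>
    (hDmem b).1 hb _ (hcc g h)
  -- the derived subgroup of `D`
  have hD1 : ⁅D, D⁆ ≤ D := Subgroup.commutator_le_left D D
  have hD2 : ⁅D, D⁆ ≤ commutator G := Subgroup.commutator_mono le_top le_top
  have h1 : (⁅D, D⁆ : Subgroup G) = ⊥ := by
    refine no_abelian hI hT hn hk hk3 hG hf ht ⁅D, D⁆ inferInstance ?_ (fun g h b hb => hDc g h b (hD1 hb))
    intro a ha b hb
    exact (hDmem b).1 (hD1 hb) a (hD2 ha)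
  refine no_abelian hI hT hn hk hk3 hG hf ht D hDn ?_ hDc
  intro a ha b hb
  have h2 := Subgroup.commutator_mem_commutator ha hb
  rw [h1, Subgroup.mem_bot, commutatorElement_eq_one_iff_mul_comm] at h2
  exact h2

end

end Pool.Agent.Lib.MP_e0c1ed_co.Cen
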