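import Pool.Agent.Lib.MP_e0c1ed_co.TransSol

/-!
# MP_e0c1ed / E1: a finite solvable group has a subgroup of odd order whose index is a power of two
-/

set_option autoImplicit false

namespace Pool.Agent.Lib.MP_e0c1ed_co.E1

universe u

private theorem aux (n : ℕ) : ∀ (G : Type u) [Group G] [Finite G], Nat.card G ≤ n → Group.IsSolvable G →
    ∃ K : Subgroup G, Odd (Nat.card K) ∧ ∃ a : ℕ, K.index = 2 ^ a := by
  induction n with
  | zero =>
    intro G _ _ h _
    have : 0 < Nat.card G := Nat.card_pos
    omega
  | succ n ih =>
    intro G _ _ hn hS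
    by_cases hG : (⊤ : Subgroup G) = ⊥
    · refine ⟨⊤, ?_, 0, by simp⟩
      rw [hG]
      simp
    · have hStop : Group.IsSolvable (⊤ : Subgroup G) :=
        Group.isSolvable_of_surjective (f := (Subgroup.topEquiv (G := G)).symm.toMonoidHom)
          (Subgroup.topEquiv (G := G)).symm.surjective
      obtain ⟨q, B, hq, hBn, hBne, hexp⟩ := exists_elementary (⊤ : Subgroup G) inferInstance hStop hG
      have := Fact.mk hq
      have hPB : IsPGroup q B := by
        intro b
        exact ⟨1, by rw [pow_one]; exact Subtype.ext (hexp b.1 b.2)⟩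
      obtain ⟨j, hj⟩ := IsPGroup.iff_card.1 hPB
      have hGB : Nat.card B * B.index = Nat.card G := B.card_mul_index
      have hB1 : 1 < Nat.card B := by
        have h1 : 0 < Nat.card B := Nat.card_pos
        have h2 : Nat.card B ≠ 1 := fun h => hBne (Subgroup.card_eq_one.1 h)
        omega
      have hi0 : 0 < B.index := Nat.pos_of_ne_zero B.index_ne_zero_of_finite
      have hlt : Nat.card (G ⧸ B) ≤ n := by
        have h1 : Nat.card (G ⧸ B) = B.index := rfl
        rw [h1]
        nlinarith
      have hSQ : Group.IsSolvable (G ⧸ B) :=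
        Group.isSolvable_of_surjective (f := QuotientGroup.mk' B) (QuotientGroup.mk'_surjective B)
      obtain ⟨K0, hK0, a, ha⟩ := ih (G ⧸ B) hlt hSQ
      have hidx : (K0.comap (QuotientGroup.mk' B)).index = 2 ^ a := by
        rw [Subgroup.index_comap_of_surjective _ (QuotientGroup.mk'_surjective B)]
        exact ha
      have h2a : 0 < 2 ^ a := by positivity
      have hcK : Nat.card (K0.comap (QuotientGroup.mk' B)) = Nat.card B * Nat.card K0 := by
        have h1 := (K0.comap (QuotientGroup.mk' B)).card_mul_index
        have h2 : Nat.card K0 * K0.index = B.index := K0.card_mul_index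
        rw [hidx, ← hGB, ← h2, ha, ← mul_assoc] at h1
        exact Nat.eq_of_mul_eq_mul_right h2a h1
      have hle : B ≤ K0.comap (QuotientGroup.mk' B) := by
        intro b hb
        rw [Subgroup.mem_comap]
        have h1 : (QuotientGroup.mk' B) b = 1 := (QuotientGroup.eq_one_iff b).2 hb
        rw [h1]
        exact K0.one_mem
      generalize K0.comap (QuotientGroup.mk' B) = K' at hidx hcK hle
      rcases hq.eq_two_or_odd' with rfl | hqo
      · have hcB : Nat.card (B.subgroupOf K') = 2 ^ j := by
          rw [Nat.card_congr (Subgroup.subgroupOfEquivOfLe hle).toEquiv, hj]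
        have hiB : (B.subgroupOf K').index = Nat.card K0 := by
          have h1 := (B.subgroupOf K').card_mul_index
          rw [hcB, hcK, hj] at h1
          exact Nat.eq_of_mul_eq_mul_left (by positivity) h1
        have hcop : Nat.Coprime (Nat.card (B.subgroupOf K')) (B.subgroupOf K').index := by
          rw [hcB, hiB]
          exact Nat.Coprime.pow_left _ (Nat.coprime_two_left.2 hK0)
        obtain ⟨H, hH⟩ := Subgroup.exists_right_complement'_of_coprime hcop
        have hcH : Nat.card H = Nat.card K0 := by
          have h1 := hH.card_mul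
          rw [hcB, hcK, hj] at h1
          exact Nat.eq_of_mul_eq_mul_left (by positivity) h1
        have hcM : Nat.card (H.map K'.subtype) = Nat.card K0 := by
          rw [← Nat.card_congr (H.equivMapOfInjective K'.subtype K'.subtype_injective).toEquiv, hcH]
        refine ⟨H.map K'.subtype, by rw [hcM]; exact hK0, j + a, ?_⟩
        have h1 := (H.map K'.subtype).card_mul_index
        have h2 := K'.card_mul_index
        rw [hcM, ← h2, hcK, hidx, hj] at h1
        have h3 : Nat.card K0 * (H.map K'.subtype).index = Nat.card K0 * 2 ^ (j + a) := by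
          rw [h1, pow_add]
          ring
        exact Nat.eq_of_mul_eq_mul_left Nat.card_pos h3
      · refine ⟨K', ?_, a, hidx⟩
        rw [hcK, hj]
        exact (hqo.pow).mul hK0

/-- A finite solvable group has a subgroup of odd order whose index is a power of two. -/
theorem hall2 (G : Type u) [Group G] [Finite G] (h : Group.IsSolvable G) :
    ∃ K : Subgroup G, Odd (Nat.card K) ∧ ∃ a : ℕ, K.index = 2 ^ a :=
  aux (Nat.card G) G le_rfl h

end Pool.Agent.Lib.MP_e0c1ed_co.E1
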