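import Mathlib

/-!
# MP_e0c1ed / E2: subgroups of 2-power index of a transitive group of odd degree are transitive
-/

set_option autoImplicit false

namespace Pool.Agent.Lib.MP_e0c1ed_co.E2

/-- A subgroup of 2-power index of a transitive group of odd degree is transitive. -/
theorem trans_of_index {G P : Type*} [Group G] [MulAction G P] [Finite P] [Finite G]
    (ht : ∀ x y : P, ∃ g : G, g • x = y) (hodd : Odd (Nat.card P)) (K : Subgroup G) (a : ℕ) (hK : K.index = 2 ^ a) :
    ∀ x y : P, ∃ g : K, g • x = y := by
  intro x y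
  have h0 : MulAction.orbit G x = Set.univ := by
    ext z
    simp only [Set.mem_univ, iff_true]
    obtain ⟨g, hg⟩ := ht x z
    exact ⟨g, hg⟩
  have h1 : (MulAction.stabilizer G x).index = Nat.card P := by
    rw [MulAction.index_stabilizer, h0, Set.ncard_univ]
  have h3 : (MulAction.stabilizer G x).relIndex K = (MulAction.orbit K x).ncard := by
    rw [← MulAction.index_stabilizer]
    rfl
  have h4 := Subgroup.relIndex_mul_index (H := MulAction.stabilizer G x ⊓ K) (K := K) inf_le_right
  have h5 := Subgroup.relIndex_mul_index (H := MulAction.stabilizer G x ⊓ K) (K := MulAction.stabilizer G x) inf_le_left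
  rw [Subgroup.inf_relIndex_right, h3] at h4
  have h6 : Nat.card P ∣ (MulAction.orbit K x).ncard * 2 ^ a := by
    rw [← hK, h4, ← h5, ← h1]
    exact Dvd.intro_left _ rfl
  have h7 : Nat.Coprime (Nat.card P) (2 ^ a) := Nat.Coprime.pow_right a (Nat.coprime_two_right.2 hodd)
  have h8 : Nat.card P ∣ (MulAction.orbit K x).ncard := h7.dvd_of_dvd_mul_right h6
  have h9 : 0 < (MulAction.orbit K x).ncard := (Set.ncard_pos).2 ⟨x, MulAction.mem_orbit_self x⟩
  have h10 : MulAction.orbit K x = Set.univ := by
    apply Set.eq_of_subset_of_ncard_le (Set.subset_univ _)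
    rw [Set.ncard_univ]
    exact Nat.le_of_dvd h9 h8
  have h11 : y ∈ MulAction.orbit K x := by rw [h10]; exact Set.mem_univ y
  exact h11

end Pool.Agent.Lib.MP_e0c1ed_co.E2
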