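import Pool.Agent.Lib.MP_e0c1ed_co.Ub

/-!
# MP_e0c1ed / E3: transitive groups of odd order
-/

set_option autoImplicit false

namespace Pool.Agent.Lib.MP_e0c1ed_co.E3

open Finset Pool.Agent.Results.MP_e0c1ed_co.SelfDualSquare Bens Grp Orb

/-- a function on a group of odd order with `z g⁻¹ = z g`: the sum has the parity of `z 1` -/
theorem pair_sum {G : Type*} [Group G] [Fintype G] [DecidableEq G] (hodd : Odd (Nat.card G)) (z : G → ℤ)
    (hz : ∀ g, z g⁻¹ = z g) : ∃ w : ℤ, ∑ g, z g = z 1 + 2 * w := by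
  have h1 : ∀ g : G, g⁻¹ = g → g = 1 := by
    intro g hg
    have h2 : g ^ 2 = 1 := by rw [pow_two]; nth_rewrite 1 [← hg]; exact inv_mul_cancel g
    have h3 : orderOf g ∣ 2 := orderOf_dvd_of_pow_eq_one h2
    have h4 : orderOf g ∣ Nat.card G := orderOf_dvd_natCard g
    have h5 : Nat.Coprime 2 (Nat.card G) := (Nat.coprime_two_left).2 hodd
    have h6 : orderOf g ∣ 1 := by
      rw [← h5]
      exact Nat.dvd_gcd h3 h4
    exact orderOf_eq_one_iff.1 (Nat.dvd_one.1 h6)
  rw [← Finset.sum_erase_add _ _ (Finset.mem_univ (1 : G))]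
  have h2 : ((∑ g ∈ univ.erase (1 : G), z g : ℤ) : ZMod 2) = 0 := by
    push_cast
    refine Finset.sum_involution (fun g _ => g⁻¹) ?_ ?_ ?_ ?_
    · intro g _
      rw [hz g]
      exact CharTwo.add_self_eq_zero _
    · intro g hg _ h
      exact (Finset.mem_erase.1 hg).1 (h1 g h)
    · intro g hg
      refine Finset.mem_erase.2 ⟨?_, Finset.mem_univ _⟩
      intro h
      exact (Finset.mem_erase.1 hg).1 (inv_eq_one.1 h)
    · intro g _
      exact inv_inv g
  have h3 := (ZMod.intCast_zmod_eq_zero_iff_dvd _ 2).1 h2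
  obtain ⟨w, hw⟩ := h3
  exact ⟨w, by rw [hw]; push_cast; ring⟩

section
variable {P L G : Type*} [Finite P] [Finite L] [Group G] [Finite G] [MulAction G P] [MulAction G L]
  {I : P → L → Prop} {n k : ℕ}

/-- **A point transitive group of odd order forces `k ≡ 1` modulo `4`.** -/
theorem odd_order (hI : IsConfiguration I n k) (hT : TrilateralFree I) (hn : n = k * (k - 1) ^ 2 + k)
    (hk : k % 2 = 1) (hk3 : 3 ≤ k) (hG : ∀ (g : G) (p : P) (l : L), I (g • p) (g • l) ↔ I p l)
    (ht : ∀ p q : P, ∃ g : G, g • p = q) (hodd : Odd (Nat.card G)) : k % 4 = 1 := by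
  classical
  have : Fintype P := Fintype.ofFinite P
  have : Fintype L := Fintype.ofFinite L
  have : Fintype G := Fintype.ofFinite G
  have hinv : ∀ (g : G) x l, I x l → I (g • x) (g • l) := fun g p l h => (hG g p l).2 h
  obtain ⟨s, rfl⟩ : ∃ s, k = s + 1 := ⟨k - 1, by omega⟩
  rw [Nat.add_sub_cancel] at hn
  have hn' : (n : ℚ) = (s + 1) * (s ^ 2 + 1) := by rw [hn]; push_cast; ring
  have hk2 : (((s + 1 : ℕ) : ℚ)) = s + 1 := by push_cast; ring
  have hs0 : (2 * (s : ℚ)) ≠ 0 := by
    have : (s : ℚ) ≠ 0 := by exact_mod_cast (by omega : s ≠ 0)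
    exact mul_ne_zero two_ne_zero this
  have hcardP : (Fintype.card P : ℚ) = n := by rw [← Nat.card_eq_fintype_card, hI.card_points]
  choose z hz using fun g : G => Grp.benson (B := G) hI hT (by rw [Nat.add_sub_cancel]; exact hn) (by omega) hinv g
  have hz' : ∀ g : G, ∑ x, S I x (g • x) = ((s : ℚ) + 1) ^ 2 + 2 * s * z g := by
    intro g
    rw [hz g, hk2]
    ring
  -- inverses
  have hzi : ∀ g, z g⁻¹ = z g := by
    intro g
    have h1 : ∑ x, S I x (g⁻¹ • x) = ∑ x, S I x (g • x) := by
      rw [← Equiv.sum_comp (MulAction.toPerm g : Equiv.Perm P) (fun x => S I x (g⁻¹ • x))]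
      refine Finset.sum_congr rfl fun x _ => ?_
      rw [MulAction.toPerm_apply, inv_smul_smul]
      exact S_comm _ _
    rw [hz', hz'] at h1
    have h2 : (2 * (s : ℚ)) * z g⁻¹ = (2 * (s : ℚ)) * z g := by linarith
    exact_mod_cast mul_left_cancel₀ hs0 h2
  -- the identity
  have hz1 : (2 : ℤ) * z 1 = (s + 1) ^ 2 * s := by
    have h1 := hz' 1
    have h2 : ∑ x, S I x ((1 : G) • x) = (n : ℚ) * (s + 1) := by
      rw [Finset.sum_congr rfl (fun x _ => by rw [one_smul, S_self hI]), Finset.sum_const, Finset.card_univ, nsmul_eq_mul,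
        hcardP, hk2]
    rw [h2, hn'] at h1
    have h3 : (2 * (s : ℚ)) * (2 * z 1) = (2 * (s : ℚ)) * ((s + 1) ^ 2 * s) := by linear_combination -2 * h1
    exact_mod_cast mul_left_cancel₀ hs0 h3
  -- the total sum
  have hsum : ∑ g, z g = 0 := by
    have h1 : ∑ g : G, ∑ x, S I x (g • x) = (Fintype.card G : ℚ) * ((s : ℚ) + 1) ^ 2 := by
      have hPpos : 0 < Nat.card P := by rw [hI.card_points, hn]; omega
      obtain ⟨x0⟩ : Nonempty P := (Nat.card_pos_iff.1 hPpos).1
      rw [Finset.sum_comm]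
      have h2 : ∀ x, ∑ g : G, S I x (g • x) = ((univ.filter fun b : G => b • x = x).card : ℚ) * ((s : ℚ) + 1) ^ 2 := by
        intro x
        rw [sum_orbit (B := G) x (fun y => S I x y)]
        have h3 : univ.image (fun b : G => b • x) = univ := by
          ext y
          simp only [Finset.mem_image, Finset.mem_univ, true_and, iff_true]
          exact ht x y
        rw [h3, S_sum_right hI, hk2]
      have h4 : ∀ x : P, (Fintype.card G : ℚ) = ((univ.filter fun b : G => b • x = x).card : ℚ) * n := by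
        intro x
        have := sum_orbit (B := G) x (fun _ => (1 : ℚ))
        have h3 : univ.image (fun b : G => b • x) = univ := by
          ext y
          simp only [Finset.mem_image, Finset.mem_univ, true_and, iff_true]
          exact ht x y
        rw [h3, Finset.sum_const, Finset.sum_const, Finset.card_univ, Finset.card_univ, nsmul_eq_mul, nsmul_eq_mul, mul_one,
          mul_one, hcardP] at this
        exact this
      rw [Finset.sum_congr rfl (fun x _ => h2 x), ← Finset.sum_mul]
      congr 1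
      have h5 : ∀ x : P, ((univ.filter fun b : G => b • x = x).card : ℚ) = ((univ.filter fun b : G => b • x0 = x0).card : ℚ) := by
        intro x
        have hn0 : (n : ℚ) ≠ 0 := by rw [hn']; positivity
        exact mul_right_cancel₀ hn0 ((h4 x).symm.trans (h4 x0))
      rw [Finset.sum_congr rfl (fun x _ => h5 x), Finset.sum_const, Finset.card_univ, nsmul_eq_mul, hcardP, h4 x0]
      ring
    rw [Finset.sum_congr rfl (fun g _ => hz' g), Finset.sum_add_distrib, Finset.sum_const, Finset.card_univ, nsmul_eq_mul,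
      ← Finset.mul_sum] at h1
    have h2 : (2 * (s : ℚ)) * ∑ g, (z g : ℚ) = 0 := by linarith
    have h3 : ∑ g, (z g : ℚ) = 0 := by
      rcases mul_eq_zero.1 h2 with h | h
      · exact absurd h hs0
      · exact h
    exact_mod_cast h3
  obtain ⟨w, hw⟩ := pair_sum hodd z hzi
  rw [hsum] at hw
  have h1 : ((s : ℤ) + 1) ^ 2 * s = 4 * (-w) := by rw [← hz1]; linarith
  -- `4` divides `s`
  obtain ⟨t, ht'⟩ : ∃ t, s = 2 * t := ⟨s / 2, by omega⟩
  have ht2 : (s : ℤ) = 2 * t := by exact_mod_cast ht'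
  rw [ht2] at h1
  have h2 : (t : ℤ) = 2 * (-w - (2 * t ^ 2 + 2 * t) * t) := by linarith
  have h3 : t % 2 = 0 := by omega
  omega

end

end Pool.Agent.Lib.MP_e0c1ed_co.E3
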