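import Pool.Agent.Lib.MP_e0c1ed_co.E1
import Pool.Agent.Lib.MP_e0c1ed_co.E2
import Pool.Agent.Lib.MP_e0c1ed_co.E3

/-!
# MP_e0c1ed / E4: for `k ≡ 3` modulo `4` a point transitive group has even order and is not solvable
-/

set_option autoImplicit false

namespace Pool.Agent.Lib.MP_e0c1ed_co.E4

open Pool.Agent.Results.MP_e0c1ed_co.SelfDualSquare

universe u v w

theorem even_not_solvable {P : Type v} {L : Type w} {G : Type u} [Finite P] [Finite L] [Group G] [Finite G]
    [MulAction G P] [MulAction G L] {I : P → L → Prop} {n k : ℕ}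
    (hI : IsConfiguration I n k) (hT : TrilateralFree I) (hn : n = k * (k - 1) ^ 2 + k)
    (hk : k % 4 = 3) (hG : ∀ (g : G) (p : P) (l : L), I (g • p) (g • l) ↔ I p l)
    (ht : ∀ p q : P, ∃ g : G, g • p = q) : Even (Nat.card G) ∧ ¬ Group.IsSolvable G := by
  constructor
  · rw [← Nat.not_odd_iff_even]
    intro h
    have := E3.odd_order hI hT hn (by omega) (by omega) hG ht h
    omega
  · intro h
    obtain ⟨K, hK, a, ha⟩ := E1.hall2 G h
    have hodd : Odd (Nat.card P) := by
      rw [hI.card_points, hn]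
      obtain ⟨t, rfl⟩ : ∃ t, k = 2 * t + 1 := ⟨k / 2, by omega⟩
      rw [Nat.add_sub_cancel]
      exact ⟨2 * t ^ 2 * (2 * t + 1) + t, by ring⟩
    have htK := E2.trans_of_index ht hodd K a ha
    have := E3.odd_order (G := K) hI hT hn (by omega) (by omega) (fun g p l => hG (g : G) p l) htK hK
    omega

end Pool.Agent.Lib.MP_e0c1ed_co.E4
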