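import Pool.Agent.Lib.MP_e0c1ed_co.Norm

/-!
# MP_e0c1ed / Main: normal subgroups of point transitive groups have orbits longer than `2 (k - 1)`
-/

set_option autoImplicit false

namespace Pool.Agent.Lib.MP_e0c1ed_co.Main

open Pool.Agent.Results.MP_e0c1ed_co.SelfDualSquare

/-- Let `G` be a finite group of automorphisms of a generalized quadrangle of order `(k - 1, k - 1)`, `k` odd, transitive on the
points. Then the point orbits of every normal subgroup `B ≠ 1` are longer than `2 (k - 1)`. -/
theorem long_orbits {P L G : Type*} [Finite P] [Finite L] [Group G] [Finite G] [MulAction G P] [MulAction G L]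
    {I : P → L → Prop} {n k : ℕ} (hI : IsConfiguration I n k) (hT : TrilateralFree I) (hn : n = k * (k - 1) ^ 2 + k)
    (hk : k % 2 = 1) (hk3 : 3 ≤ k) (hG : ∀ (g : G) (p : P) (l : L), I (g • p) (g • l) ↔ I p l)
    (hf : ∀ g : G, (∀ p : P, g • p = p) → g = 1) (ht : ∀ p q : P, ∃ g : G, g • p = q)
    (B : Subgroup G) [B.Normal] (hne : B ≠ ⊥) (x : P) : 2 * (k - 1) < (MulAction.orbit B x).ncard := by
  have : Fintype P := Fintype.ofFinite P
  have : Fintype L := Fintype.ofFinite L
  by_contra hcon
  have h1 := Norm.trivial_of_short hI hT hn hk hk3 (fun g p l h => (hG g p l).2 h) ht B x (not_lt.1 hcon)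
  exact hne ((Subgroup.eq_bot_iff_forall B).2 fun b hb => hf b (h1 b hb))

end Pool.Agent.Lib.MP_e0c1ed_co.Main
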