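import Pool.Agent.Lib.MP_e0c1ed_co.Upper
import Pool.Agent.Lib.MP_e0c1ed_co.Ovoid
import Pool.Agent.Lib.MP_e0c1ed_co.Main

/-!
# MP_e0c1ed / F1: an orbit of a nontrivial normal subgroup contains two collinear points
-/

set_option autoImplicit false

namespace Pool.Agent.Lib.MP_e0c1ed_co.F1

open Finset Pool.Agent.Results.MP_e0c1ed_co.SelfDualSquare Pool.Agent.Lib.MP_e0c1ed_co.Bens

private theorem arith (h m r a : ℤ) (hh : 1 ≤ h) (hm : 4 * h < m) (hm' : m ≠ 4 * h ^ 2 + 1) (i : ℤ) (hi : m = 1 + 4 * h * i)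
    (hr : r * (2 * h + 1) = (2 * h + 1) ^ 2 + 4 * h * a) (ha : 0 ≤ a) (hrm : r * m = (2 * h + 1) * (4 * h ^ 2 + 1)) :
    False := by
  obtain ⟨j, hj⟩ : ∃ j, r = 2 * h + 1 + 4 * h * j :=
    ⟨a * (2 * h + 1) - (h + 1) * (r - (2 * h + 1)), by linear_combination (2 * h + 1) * hr⟩
  have hi1 : 1 ≤ i := by
    by_contra hcon
    have : i ≤ 0 := by omega
    nlinarith
  have hj0 : 0 ≤ j := by
    by_contra hcon
    have h1 : j ≤ -1 := by omega
    subst hj
    nlinarith [mul_nonneg (by omega : (0 : ℤ) ≤ h) ha, mul_pos (by omega : (0 : ℤ) < h) (by omega : (0 : ℤ) < 2 * h + 1)]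
  have h4h : (4 * h : ℤ) ≠ 0 := by omega
  have key : j + i * (2 * h + 1) + 4 * h * i * j = h * (2 * h + 1) := by
    have h1 : 4 * h * (j + i * (2 * h + 1) + 4 * h * i * j) = 4 * h * (h * (2 * h + 1)) := by
      subst hj hi
      linear_combination hrm
    exact mul_left_cancel₀ h4h h1
  rcases eq_or_lt_of_le hj0 with h0 | h0
  · rw [← h0] at key
    have h1 : i * (2 * h + 1) = h * (2 * h + 1) := by linear_combination key
    have h2 : i = h := mul_right_cancel₀ (by omega : (2 * h + 1 : ℤ) ≠ 0) h1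
    apply hm'
    rw [hi, h2]
    ring
  · have h1 : i + j = h * (2 * h + 1 - 2 * i - 4 * i * j) := by linear_combination key
    set w := 2 * h + 1 - 2 * i - 4 * i * j with hw
    have hw1 : 1 ≤ w := by
      by_contra hcon
      have : w ≤ 0 := by omega
      nlinarith
    have h2 : h ≤ i + j := by nlinarith
    have h3 : 2 * i + 4 * (i * j) ≤ 2 * h := by
      have : 4 * i * j = 4 * (i * j) := by ring
      omega
    nlinarith

section
variable {P L G : Type*} [Finite P] [Finite L] [Group G] [Finite G] [MulAction G P] [MulAction G L]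
  {I : P → L → Prop} {n k : ℕ}

/-- **Every orbit of a nontrivial normal subgroup contains two collinear points.** -/
theorem collinear (hI : IsConfiguration I n k) (hT : TrilateralFree I) (hn : n = k * (k - 1) ^ 2 + k)
    (hk : k % 2 = 1) (hk3 : 3 ≤ k) (hG : ∀ (g : G) (p : P) (l : L), I (g • p) (g • l) ↔ I p l)
    (hf : ∀ g : G, (∀ p : P, g • p = p) → g = 1) (ht : ∀ p q : P, ∃ g : G, g • p = q)
    (N : Subgroup G) [N.Normal] (hne : N ≠ ⊥) (x : P) :
    ∃ g ∈ N, g • x ≠ x ∧ ∃ l, I x l ∧ I (g • x) l := by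
  classical
  have : Fintype P := Fintype.ofFinite P
  have : Fintype L := Fintype.ofFinite L
  have : Fintype N := Fintype.ofFinite N
  by_contra hcon
  push Not at hcon
  have hinv : ∀ (g : G) x l, I x l → I (g • x) (g • l) := fun g p l h => (hG g p l).2 h
  obtain ⟨σ, m, c, a, r, hσ, hm, hcard, hm1, hc, hr, hkey, ha, hsum⟩ := Ub.orbit_data hI hT hn (by omega) hinv ht N x
  have hlong := Main.long_orbits hI hT hn hk hk3 hG hf ht N hne x
  have hov := Ovoid.no_ovoid hI hT hn hk hk3 hG ht N x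
  rw [← hm] at hlong hov
  have hS : ∀ y, ∑ b : N, S I y (b • y) = ∑ b : N, S I x (b • x) := by
    intro y
    obtain ⟨g, rfl⟩ := ht x y
    exact Norm.conj_sum N (S I) (fun g p q => Grp.S_inv hinv g p q) g x
  have hx : ∑ b : N, S I x (b • x) = (σ : ℚ) * k := by
    have h1 : ∀ b : N, S I x (b • x) = if b • x = x then (k : ℚ) else 0 := by
      intro b
      by_cases h : b • x = x
      · rw [if_pos h, h, Orb.S_self hI]
      · rw [if_neg h]
        apply Orb.S_ncol
        rintro ⟨l, h2, h3⟩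
        exact hcon b b.2 h l h2 h3
    rw [Finset.sum_congr rfl (fun b _ => h1 b), ← Finset.sum_filter, Finset.sum_const, nsmul_eq_mul, ← hσ]
  rw [Finset.sum_comm, Finset.sum_congr rfl (fun y _ => hS y), hx, Finset.sum_const, Finset.card_univ, nsmul_eq_mul,
    ← Nat.card_eq_fintype_card, hI.card_points] at hsum
  have hσ0 : σ ≠ 0 := by
    rw [hσ]
    exact (Finset.card_pos.2 ⟨1, by simp⟩).ne'
  have hn0 : n ≠ 0 := by rw [hn]; omega
  have hc0 : c = 0 := by
    have h1 : n * (σ * k) = n * (σ * (k + c)) := by exact_mod_cast hsum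
    have h2 := Nat.eq_of_mul_eq_mul_left (Nat.pos_of_ne_zero hn0) h1
    have h3 := Nat.eq_of_mul_eq_mul_left (Nat.pos_of_ne_zero hσ0) h2
    omega
  subst hc0
  have hmod := Upper.mod_eq k n m 0 a r hk hk3 hn hkey hr hm1
  rw [Nat.zero_mod] at hmod
  obtain ⟨i, hi⟩ := Nat.dvd_of_mod_eq_zero hmod
  obtain ⟨h, rfl⟩ : ∃ h, k = 2 * h + 1 := ⟨k / 2, by omega⟩
  have e1 : 2 * h + 1 - 1 = 2 * h := by omega
  have e2 : 2 * (2 * h + 1) - 2 = 4 * h := by omega
  rw [e1] at hi hlong hov hn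
  rw [e2, add_zero] at hkey
  have hk2 : r * (2 * h + 1) = (2 * h + 1) ^ 2 + 4 * h * a := by
    rw [hr] at hkey
    have h1 : m * (r * (2 * h + 1)) = m * ((2 * h + 1) ^ 2 + 4 * h * a) := by rw [← hkey]; ring
    exact Nat.eq_of_mul_eq_mul_left hm1 h1
  refine arith h m r a (by omega) (by omega) ?_ i ?_ (by exact_mod_cast hk2) (by omega) ?_
  · intro h1
    apply hov
    have h2 : m = 4 * h ^ 2 + 1 := by exact_mod_cast h1
    rw [h2]
    ring
  · have h1 : m = 1 + 4 * h * i := by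
      have h2 : 2 * (2 * h) * i = 4 * h * i := by ring
      rw [h2] at hi
      omega
    exact_mod_cast h1
  · have h1 : r * m = (2 * h + 1) * (4 * h ^ 2 + 1) := by
      rw [← hr, hn]
      ring
    exact_mod_cast h1

end

end Pool.Agent.Lib.MP_e0c1ed_co.F1
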