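import Pool.Agent.Lib.MP_e0c1ed_co.K8
import Pool.Agent.Lib.MP_e0c1ed_co.V3
import Pool.Agent.Lib.MP_e0c1ed_co.Benson
import Pool.Agent.Lib.MP_e0c1ed_co.F1

/-!
# MP_e0c1ed / F2: stabilizers in a normal subgroup of a flag transitive group
-/

set_option autoImplicit false

namespace Pool.Agent.Lib.MP_e0c1ed_co

open Pool.Agent.Results.MP_e0c1ed_co.SelfDualSquare

section
variable {P L G : Type*} [Finite P] [Finite L] [Group G] [Finite G] [MulAction G P] [MulAction G L]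
  {I : P → L → Prop} {n k : ℕ}

theorem F2.ex_line (hI : IsConfiguration I n k) (hk3 : 3 ≤ k) (y : P) : ∃ l, I y l := by
  have h1 : 1 < {l | I y l}.ncard := by rw [hI.card_through_point]; omega
  obtain ⟨l, m, hl, hm, -⟩ := (Set.one_lt_ncard_iff).1 h1
  exact ⟨l, hl⟩

theorem F2.semi (hI : IsConfiguration I n k) (hT : TrilateralFree I) (hn : n = k * (k - 1) ^ 2 + k)
    (hk3 : 3 ≤ k) (hf : ∀ g : G, (∀ p : P, g • p = p) → g = 1)
    (N : Subgroup G) (h1 : ∀ g ∈ N, ∀ (x : P) (l : L), g • x = x → I x l → g • l = l)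
    (h2 : ∀ g ∈ N, ∀ (x : P) (l : L), g • l = l → I x l → g • x = x) :
    ∀ g ∈ N, g ≠ 1 → ∀ x : P, g • x ≠ x := by
  intro g hg hg1 x hx
  refine hg1 (hf g fun y => ?_)
  obtain ⟨l, hyl⟩ := F2.ex_line hI hk3 y
  by_cases hxl : I x l
  · exact h2 g hg y l (h1 g hg x l hx hxl) hyl
  · obtain ⟨m, q, hm, hqm, hql⟩ := gq_axiom hI hT hn (by omega) x l hxl
    exact h2 g hg y l (h1 g hg q l (h2 g hg q m (h1 g hg x m hx hm) hqm) hql) hyl

theorem F2.fix_lines (hI : IsConfiguration I n k) (hT : TrilateralFree I) (hn : n = k * (k - 1) ^ 2 + k)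
    (hk : k % 2 = 1) (hk3 : 3 ≤ k) (hG : ∀ (g : G) (p : P) (l : L), I (g • p) (g • l) ↔ I p l)
    (hf : ∀ g : G, (∀ p : P, g • p = p) → g = 1)
    (hfl : ∀ (p q : P) (l m : L), I p l → I q m → ∃ g : G, g • p = q ∧ g • l = m)
    (A B : Subgroup G) [A.Normal] [B.Normal] (hB : B ≠ ⊥) (hAB : ∀ a ∈ A, ∀ b ∈ B, a * b = b * a) :
    ∀ g ∈ A, ∀ (x : P) (l : L), g • x = x → I x l → g • l = l := by
  intro g hg x l hx hxl
  have ht : ∀ p q : P, ∃ g : G, g • p = q := by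
    intro p q
    obtain ⟨l1, h1⟩ := F2.ex_line hI hk3 p
    obtain ⟨l2, h2⟩ := F2.ex_line hI hk3 q
    obtain ⟨h, h3, -⟩ := hfl p q l1 l2 h1 h2
    exact ⟨h, h3⟩
  obtain ⟨b, hb, hbx, l0, h3, h4⟩ := F1.collinear hI hT hn hk hk3 hG hf ht B hB x
  obtain ⟨h, hhx, hhl⟩ := hfl x x l0 l h3 hxl
  have hg' : h⁻¹ * g * h ∈ A := by
    have := (‹A.Normal›).conj_mem g hg h⁻¹
    simpa using this
  have hgx : (h⁻¹ * g * h) • x = x := by
    rw [mul_smul, mul_smul, hhx, hx, inv_smul_eq_iff, hhx]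
  have hgb : (h⁻¹ * g * h) • (b • x) = b • x := by
    rw [← mul_smul, hAB _ hg' b hb, mul_smul, hgx]
  have hgl : (h⁻¹ * g * h) • l0 = l0 := by
    have e1 : I x ((h⁻¹ * g * h) • l0) := by
      have := (hG (h⁻¹ * g * h) x l0).2 h3
      rwa [hgx] at this
    have e2 : I (b • x) ((h⁻¹ * g * h) • l0) := by
      have := (hG (h⁻¹ * g * h) (b • x) l0).2 h4
      rwa [hgb] at this
    exact hI.unique_line x (b • x) _ l0 (fun h => hbx h.symm) e1 e2 h3 h4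
  rw [mul_smul, mul_smul, inv_smul_eq_iff, hhl] at hgl
  exact hgl

end

end Pool.Agent.Lib.MP_e0c1ed_co
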