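import Pool.Agent.Lib.MP_e0c1ed_co.K6
import Pool.Agent.Lib.MP_e0c1ed_co.V3
import Pool.Agent.Lib.MP_e0c1ed_co.TransRad

/-!
# MP_e0c1ed / F3: no commuting fixed point free elements of prime orders `q₁ ∣ (k - 1)² + 1` and `q₂ ∣ k`
-/

set_option autoImplicit false

namespace Pool.Agent.Lib.MP_e0c1ed_co.F3

open Pool.Agent.Results.MP_e0c1ed_co.SelfDualSquare Pool.Agent.Lib.MP_e0c1ed_co

variable {P L G : Type*} [Finite P] [Finite L] [Group G] [Finite G] [MulAction G P] [MulAction G L]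
  {I : P → L → Prop} {n k : ℕ}

/-- an element of prime order `q` which acts freely divides the number of points moved to collinear points by an
element which it centralizes -/
theorem dvd_moved (hG : ∀ (g : G) (p : P) (l : L), I (g • p) (g • l) ↔ I p l) (q : ℕ) (hq : q.Prime) (a b : G)
    (hb : b ^ q = 1) (hab : b * a = a * b) (hfb : ∀ x : P, b • x ≠ x) :
    q ∣ {p : P | a • p ≠ p ∧ ∃ l, I p l ∧ I (a • p) l}.ncard := by
  have := Fact.mk hq
  have h2 := set_modEq b q hb {p : P | a • p ≠ p ∧ ∃ l, I p l ∧ I (a • p) l} (fun x hx => moved_inv hG a b hab x hx)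
  have h3 : {x ∈ {p : P | a • p ≠ p ∧ ∃ l, I p l ∧ I (a • p) l} | b • x = x} = ∅ := by
    rw [Set.eq_empty_iff_forall_notMem]
    rintro x ⟨-, hx⟩
    exact hfb x hx
  rw [h3, Set.ncard_empty] at h2
  exact (Nat.modEq_zero_iff_dvd).1 h2

/-- There are no commuting fixed point free elements of prime orders `q₁ ∣ (k - 1)² + 1` and `q₂ ∣ k`. -/
theorem none (hI : IsConfiguration I n k) (hT : TrilateralFree I) (hn : n = k * (k - 1) ^ 2 + k)
    (hk : k % 2 = 1) (hk3 : 3 ≤ k) (hG : ∀ (g : G) (p : P) (l : L), I (g • p) (g • l) ↔ I p l)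
    (q1 q2 : ℕ) (h1 : q1.Prime) (h2 : q2.Prime) (hq1 : q1 ∣ (k - 1) ^ 2 + 1) (hq2 : q2 ∣ k) (a b : G)
    (ha : a ^ q1 = 1) (hb : b ^ q2 = 1) (hab : a * b = b * a) (hfa : ∀ x : P, a • x ≠ x) (hfb : ∀ x : P, b • x ≠ x) :
    False := by
  obtain ⟨t, hkt⟩ : ∃ t, k = 2 * t + 1 := ⟨k / 2, by omega⟩
  have hk1 : k - 1 = 2 * t := by omega
  have hne2 : q2 ≠ 2 := by
    rintro rfl
    omega
  have hval : (k - 1) ^ 2 + 1 + k * 2 = k * k + 2 := by
    rw [hk1, hkt]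
    ring
  have hq2n : ¬ q2 ∣ 2 := fun h => hne2 ((Nat.prime_dvd_prime_iff_eq h2 Nat.prime_two).1 h)
  -- `q2 ∤ (k - 1)² + 1`
  have hq2' : ¬ q2 ∣ (k - 1) ^ 2 + 1 := by
    intro h
    apply hq2n
    have h3 : q2 ∣ k * k + 2 := hval ▸ dvd_add h (hq2.mul_right 2)
    exact (Nat.dvd_add_right (hq2.mul_right k)).1 h3
  -- `q1 ∤ k`
  have hq1n : ¬ q1 ∣ k := by
    intro h
    have h3 : q1 ∣ k * k + 2 := hval ▸ dvd_add hq1 (h.mul_right 2)
    have h4 : q1 ∣ 2 := (Nat.dvd_add_right (h.mul_right k)).1 h3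
    have h5 : q1 = 2 := (Nat.prime_dvd_prime_iff_eq h1 Nat.prime_two).1 h4
    rw [h5] at h
    omega
  have k1 := K6.moved_sum hI hT hn hk hk3 hG q1 h1 hq1 a ha hfa
  have k2 := V3.moved_sum2 hI hT hn hk3 hG q2 h2 hne2 hq2 b hb hfb
  have hc : Commute a b := hab
  have d1 : q2 ∣ (q1 - 1) * ((k - 1) ^ 2 + 1) := by
    rw [← k1]
    exact Finset.dvd_sum fun i _ => dvd_moved hG q2 h2 (a ^ (i + 1)) b hb (hc.symm.pow_right (i + 1)) hfb
  have d2 : q1 ∣ (q2 - 1) * k ^ 2 := by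
    rw [← k2]
    exact Finset.dvd_sum fun i _ => dvd_moved hG q1 h1 (b ^ (i + 1)) a ha (hc.pow_right (i + 1)) hfa
  have e1 := ((Nat.Prime.dvd_mul h2).1 d1).resolve_right hq2'
  have e2 := ((Nat.Prime.dvd_mul h1).1 d2).resolve_right (fun h => hq1n (h1.dvd_of_dvd_pow h))
  have f1 := Nat.le_of_dvd (by have := h1.two_le; omega) e1
  have f2 := Nat.le_of_dvd (by have := h2.two_le; omega) e2
  have := h1.two_le
  have := h2.two_le
  omega

/-- The same, with another order of the arguments. -/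
theorem no_pair (hI : IsConfiguration I n k) (hT : TrilateralFree I) (hn : n = k * (k - 1) ^ 2 + k)
    (hk : k % 2 = 1) (hk3 : 3 ≤ k) (hG : ∀ (g : G) (p : P) (l : L), I (g • p) (g • l) ↔ I p l)
    (a b : G) (hab : a * b = b * a) (p q : ℕ) (hp : p.Prime) (hq : q.Prime) (hpd : p ∣ (k - 1) ^ 2 + 1) (hqk : q ∣ k)
    (ha : a ^ p = 1) (hb : b ^ q = 1) (hfa : ∀ x : P, a • x ≠ x) (hfb : ∀ x : P, b • x ≠ x) : False :=
  none hI hT hn hk hk3 hG p q hp hq hpd hqk a b ha hb hab hfa hfb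

end Pool.Agent.Lib.MP_e0c1ed_co.F3
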