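import Pool.Agent.Lib.MP_e0c1ed_co.Norm

/-!
# MP_e0c1ed / F4: flag transitive groups and normal subgroups of order prime to `k`
-/

set_option autoImplicit false

namespace Pool.Agent.Lib.MP_e0c1ed_co.F4

open Pool.Agent.Results.MP_e0c1ed_co.SelfDualSquare

variable {P L G : Type*} [Finite P] [Finite L] [Group G] [Finite G] [MulAction G P] [MulAction G L]
  {I : P → L → Prop} {n k : ℕ}

/-- If `N` is a normal subgroup of order prime to `k` of a flag transitive group, then an element of `N` which fixes a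
point `x` fixes every line on `x`. -/
theorem fix_lines (hI : IsConfiguration I n k) (hn : n = k * (k - 1) ^ 2 + k)
    (hk3 : 3 ≤ k) (hG : ∀ (g : G) (p : P) (l : L), I (g • p) (g • l) ↔ I p l)
    (hfl : ∀ (p q : P) (l m : L), I p l → I q m → ∃ g : G, g • p = q ∧ g • l = m)
    (N : Subgroup G) [hNn : N.Normal] (hN : Nat.Coprime (Nat.card N) k) :
    ∀ g ∈ N, ∀ (x : P) (l : L), g • x = x → I x l → g • l = l := by
  classical
  intro g hg x l hgx hxl
  let H : Subgroup G := MulAction.stabilizer G x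
  let A : SubMulAction H L :=
    { carrier := {m | I x m}
      smul_mem' := by
        intro d m hm
        have h1 : (d : G) • x = x := d.2
        have h2 := (hG (d : G) x m).2 hm
        rw [h1] at h2
        exact h2 }
  have hcard : Nat.card A = k := by
    rw [← hI.card_through_point x, ← Nat.card_coe_set_eq]
    rfl
  have hpre : MulAction.IsPretransitive H A := by
    constructor
    rintro ⟨m, hm⟩ ⟨m', hm'⟩
    obtain ⟨d, h1, h2⟩ := hfl x x m m' hm hm'
    exact ⟨⟨d, h1⟩, Subtype.ext h2⟩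
  have hK : (N.subgroupOf H).Normal := ⟨fun t ht h => hNn.conj_mem t ht h⟩
  let a : A := ⟨l, hxl⟩
  have h1 : (MulAction.orbit (N.subgroupOf H) a).ncard ∣ Nat.card A :=
    (MulAction.IsBlock.orbit_of_normal (G := H) (N := N.subgroupOf H) a).ncard_dvd_card ⟨a, MulAction.mem_orbit_self a⟩
  have h2 : (MulAction.orbit (N.subgroupOf H) a).ncard ∣ Nat.card (N.subgroupOf H) := by
    rw [← MulAction.index_stabilizer (N.subgroupOf H) a]
    exact Subgroup.index_dvd_card _
  have h3 : Nat.card (N.subgroupOf H) ∣ Nat.card N := by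
    have h4 : Nat.card ((N.subgroupOf H).map H.subtype) = Nat.card (N.subgroupOf H) :=
      (Nat.card_congr ((N.subgroupOf H).equivMapOfInjective _ H.subtype_injective).toEquiv).symm
    rw [← h4]
    refine Subgroup.card_dvd_of_le ?_
    rintro _ ⟨t, ht, rfl⟩
    exact ht
  have h4 : (MulAction.orbit (N.subgroupOf H) a).ncard = 1 := by
    apply Nat.dvd_one.1
    rw [← hN]
    exact Nat.dvd_gcd (h2.trans h3) (hcard ▸ h1)
  obtain ⟨c, hc⟩ := Set.ncard_eq_one.1 h4
  have h5 : a ∈ MulAction.orbit (N.subgroupOf H) a := MulAction.mem_orbit_self a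
  have h6 : (⟨⟨g, hgx⟩, hg⟩ : N.subgroupOf H) • a ∈ MulAction.orbit (N.subgroupOf H) a := MulAction.mem_orbit _ _
  rw [hc] at h5 h6
  have h7 : (⟨⟨g, hgx⟩, hg⟩ : N.subgroupOf H) • a = a := h6.trans h5.symm
  exact congrArg Subtype.val h7

end Pool.Agent.Lib.MP_e0c1ed_co.F4
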