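import Pool.Agent.Lib.MP_e0c1ed_co.TransMain

/-!
# Extremal trilateral-free configurations: solvable normal subgroups of point-transitive groups
-/

set_option autoImplicit false

namespace Pool.Agent.Lib.MP_e0c1ed_co

open Pool.Agent.Results.MP_e0c1ed_co.SelfDualSquare

/-- a nontrivial solvable normal subgroup contains a nontrivial abelian normal subgroup -/
theorem exists_abelian {G : Type*} [Group G] (N : Subgroup G) (hN : N.Normal) (hS : Group.IsSolvable N)
    (hne : N ≠ ⊥) : ∃ A : Subgroup G, A.Normal ∧ A ≠ ⊥ ∧ ∀ a ∈ A, ∀ b ∈ A, a * b = b * a := by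
  classical
  have h := hS.solvable
  have hm := Nat.find_spec h
  have hm0 : Nat.find h ≠ 0 := by
    intro h0
    rw [h0, derivedSeries_zero] at hm
    apply hne
    rw [Subgroup.eq_bot_iff_forall]
    intro x hx
    have h1 : (⟨x, hx⟩ : N) ∈ (⊤ : Subgroup N) := Subgroup.mem_top _
    rw [hm, Subgroup.mem_bot] at h1
    exact congrArg Subtype.val h1
  obtain ⟨j, hj⟩ := Nat.exists_eq_succ_of_ne_zero hm0
  have h1 : derivedSeries N j ≠ ⊥ := Nat.find_min h (by omega)
  rw [hj, derivedSeries_succ] at hm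
  have : (derivedSeries N j).Characteristic := derivedSeries_characteristic N j
  refine ⟨(derivedSeries N j).map N.subtype, inferInstance, ?_, ?_⟩
  · intro h2
    exact h1 ((Subgroup.map_eq_bot_iff_of_injective _ N.subtype_injective).1 h2)
  · rintro _ ⟨a, ha, rfl⟩ _ ⟨b, hb, rfl⟩
    have h2 := Subgroup.commutator_mem_commutator ha hb
    rw [hm, Subgroup.mem_bot, commutatorElement_eq_one_iff_mul_comm] at h2
    rw [← map_mul, ← map_mul, h2]

/-- a nontrivial solvable normal subgroup of a finite group contains a nontrivial elementary abelian normal subgroup -/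
theorem exists_elementary {G : Type*} [Group G] [Finite G] (N : Subgroup G) (hN : N.Normal)
    (hS : Group.IsSolvable N) (hne : N ≠ ⊥) :
    ∃ (q : ℕ) (B : Subgroup G), q.Prime ∧ B.Normal ∧ B ≠ ⊥ ∧ ∀ b ∈ B, b ^ q = 1 := by
  classical
  obtain ⟨A, hA1, hA2, hA3⟩ := exists_abelian N hN hS hne
  obtain ⟨q, hq, hqA⟩ := Nat.exists_prime_and_dvd (n := Nat.card A) (by
    intro h
    exact hA2 (Subgroup.card_eq_one.1 h))
  have := Fact.mk hq
  let B : Subgroup G :=
    { carrier := {a | a ∈ A ∧ a ^ q = 1}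
      mul_mem' := by
        rintro a b ⟨ha1, ha2⟩ ⟨hb1, hb2⟩
        refine ⟨A.mul_mem ha1 hb1, ?_⟩
        have hc : Commute a b := hA3 a ha1 b hb1
        rw [hc.mul_pow, ha2, hb2, one_mul]
      one_mem' := ⟨A.one_mem, one_pow q⟩
      inv_mem' := by
        rintro a ⟨ha1, ha2⟩
        exact ⟨A.inv_mem ha1, by rw [inv_pow, ha2, inv_one]⟩ }
  have hBmem : ∀ a, a ∈ B ↔ a ∈ A ∧ a ^ q = 1 := fun a => Iff.rfl
  refine ⟨q, B, hq, ?_, ?_, fun b hb => hb.2⟩
  · constructor
    intro b hb g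
    rw [hBmem] at hb ⊢
    exact ⟨hA1.conj_mem b hb.1 g, by rw [conj_pow, hb.2, mul_one, mul_inv_cancel]⟩
  · obtain ⟨x, hx⟩ := exists_prime_orderOf_dvd_card' q hqA
    intro h
    have h1 : x.1 ∈ B := by
      rw [hBmem]
      refine ⟨x.2, ?_⟩
      have h2 := pow_orderOf_eq_one x
      rw [hx] at h2
      exact congrArg Subtype.val h2
    rw [h, Subgroup.mem_bot] at h1
    have h3 : x = 1 := Subtype.ext h1
    rw [h3, orderOf_one] at hx
    exact hq.one_lt.ne hx

section

variable {P L : Type*} [Finite P] [Finite L] {I : P → L → Prop} {n k : ℕ}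
variable {G : Type*} [Group G] [Finite G] [MulAction G P] [MulAction G L]

/-- if the orbits of all nontrivial normal subgroups are long, then the solvable radical is trivial for suitable `k` -/
theorem no_solvable (hI : IsConfiguration I n k) (hT : TrilateralFree I)
    (hn : n = k * (k - 1) ^ 2 + k) (hk3 : 3 ≤ k) (hodd : Odd k)
    (hG : ∀ (g : G) (p : P) (l : L), I (g • p) (g • l) ↔ I p l)
    (hf : ∀ g : G, (∀ x : P, g • x = x) → g = 1) (ht : ∀ x y : P, ∃ g : G, g • x = y)
    (hbig : ∀ B : Subgroup G, B.Normal → B ≠ ⊥ → ∀ x : P, 2 * (k - 1) < (MulAction.orbit B x).ncard)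
    (hpp : ((k - 1) ^ 2 + 1).Prime ∨
      ∀ q a : ℕ, q.Prime → q ^ a ∣ (k - 1) ^ 2 + 1 → q ^ a ≤ 2 * (k - 1))
    (N : Subgroup G) (hN : N.Normal) (hS : Group.IsSolvable N) : N = ⊥ := by
  classical
  by_contra hne
  obtain ⟨q, B, hq, hBn, hBne, hexp⟩ := exists_elementary N hN hS hne
  have := Fact.mk hq
  have hPB : IsPGroup q B := by
    intro b
    exact ⟨1, by rw [pow_one]; exact Subtype.ext (hexp b.1 b.2)⟩
  obtain ⟨a, ha⟩ := IsPGroup.iff_card.1 hPB
  have hnp : n = k * ((k - 1) ^ 2 + 1) := by rw [hn]; ring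
  have hcardP : Nat.card P = n := hI.card_points
  obtain ⟨x0⟩ : Nonempty P := by
    rw [← Finite.card_pos_iff, hcardP, hnp]
    exact Nat.mul_pos (by omega) (by omega)
  have : MulAction.IsPretransitive G P := ⟨ht⟩
  have h1 : (MulAction.orbit B x0).ncard ∣ Nat.card P :=
    (MulAction.IsBlock.orbit_of_normal (G := G) (N := B) x0).ncard_dvd_card
      ⟨x0, MulAction.mem_orbit_self x0⟩
  have h2 : (MulAction.orbit B x0).ncard ∣ q ^ a := by
    rw [← ha, ← MulAction.index_stabilizer]
    exact Subgroup.index_dvd_card _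
  obtain ⟨b, hb, hm⟩ := (Nat.dvd_prime_pow hq).1 h2
  have h3 := hbig B hBn hBne x0
  rw [hcardP, hnp, hm] at h1
  rw [hm] at h3
  have hb0 : b ≠ 0 := by
    rintro rfl
    rw [pow_zero] at h3
    omega
  have hcop : Nat.Coprime k ((k - 1) ^ 2 + 1) := by
    obtain ⟨t, hkt⟩ := hodd
    have e1 : k - 1 = 2 * t := by omega
    rw [e1, hkt]
    have e2 : (2 * t) ^ 2 + 1 = 2 + (2 * t + 1) * (2 * t - 1) := by
      rcases Nat.eq_zero_or_pos t with h | h
      · omega
      · obtain ⟨u, hu⟩ : ∃ u, 2 * t = u + 1 := ⟨2 * t - 1, by omega⟩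
        rw [hu, Nat.add_sub_cancel]
        ring
    rw [e2, Nat.coprime_add_mul_left_right]
    exact (Nat.coprime_two_right).2 ⟨t, rfl⟩
  rcases (hcop.isPrimePow_dvd_mul (hq.isPrimePow.pow hb0)).1 h1 with h4 | h4
  · have := Nat.le_of_dvd (by omega) h4
    omega
  · rcases hpp with hpp | hpp
    · have h5 : q ^ b = (k - 1) ^ 2 + 1 := by
        rcases (Nat.dvd_prime hpp).1 h4 with h6 | h6
        · omega
        · exact h6
      have h6 : b = 1 := by
        rw [← h5] at hpp
        exact hpp.eq_one_of_pow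
      rw [h6, pow_one] at h5
      subst h5
      exact case_p hI hT hn hk3 hodd hpp hG hf ht B hBne hexp
    · have := hpp q b hq h4
      omega

end

end Pool.Agent.Lib.MP_e0c1ed_co
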