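import Pool.Agent.Lib.MP_e0c1ed_co.K7
import Pool.Agent.Lib.MP_e0c1ed_co.Aut
import Pool.Agent.Lib.MP_e0c1ed_co.TransSol

/-!
# MP_e0c1ed / K8: transitive groups have no solvable normal subgroups
-/

set_option autoImplicit false

namespace Pool.Agent.Lib.MP_e0c1ed_co.K8

open Pool.Agent.Results.MP_e0c1ed_co.SelfDualSquare Pool.Agent.Lib.MP_e0c1ed_co Pool.Agent.Lib.MP_e0c1ed_co.Aut

/-- A nontrivial solvable normal subgroup of a finite group contains a nontrivial elementary abelian normal subgroup of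
the group. -/
theorem exists_elementary {G : Type*} [Group G] [Finite G] (N : Subgroup G) (hN : N.Normal)
    (hS : Group.IsSolvable N) (hne : N ≠ ⊥) :
    ∃ (q : ℕ) (B : Subgroup G), q.Prime ∧ B.Normal ∧ B ≠ ⊥ ∧ (∀ a ∈ B, ∀ b ∈ B, a * b = b * a) ∧
      ∀ b ∈ B, b ^ q = 1 := by
  classical
  obtain ⟨A, hA1, hA2, hA3⟩ := exists_abelian N hN hS hne
  obtain ⟨q, hq, hqA⟩ := Nat.exists_prime_and_dvd (n := Nat.card A) (by
    intro h
    exact hA2 (Subgroup.card_eq_one.1 h))
  have := Fact.mk hq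
  let B : Subgroup G :=
    { carrier := {a | a ∈ A ∧ a ^ q = 1}
      mul_mem' := by
        rintro a b ⟨ha1, ha2⟩ ⟨hb1, hb2⟩
        refine ⟨A.mul_mem ha1 hb1, ?_⟩
        have hc : Commute a b := hA3 a ha1 b hb1
        rw [hc.mul_pow, ha2, hb2, one_mul]
      one_mem' := ⟨A.one_mem, one_pow q⟩
      inv_mem' := by
        rintro a ⟨ha1, ha2⟩
        exact ⟨A.inv_mem ha1, by rw [inv_pow, ha2, inv_one]⟩ }
  have hBmem : ∀ a, a ∈ B ↔ a ∈ A ∧ a ^ q = 1 := fun a => Iff.rfl
  refine ⟨q, B, hq, ?_, ?_, fun a ha b hb => hA3 a ha.1 b hb.1, fun b hb => hb.2⟩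
  · constructor
    intro b hb g
    rw [hBmem] at hb ⊢
    exact ⟨hA1.conj_mem b hb.1 g, by rw [conj_pow, hb.2, mul_one, mul_inv_cancel]⟩
  · obtain ⟨x, hx⟩ := exists_prime_orderOf_dvd_card' q hqA
    intro h
    have h1 : x.1 ∈ B := by
      rw [hBmem]
      refine ⟨x.2, ?_⟩
      have h2 := pow_orderOf_eq_one x
      rw [hx] at h2
      exact congrArg Subtype.val h2
    rw [h, Subgroup.mem_bot] at h1
    have h3 : x = 1 := Subtype.ext h1
    rw [h3, orderOf_one] at hx
    exact hq.one_lt.ne hx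

section
variable {P L : Type*} [Finite P] [Finite L] {I : P → L → Prop} {n k : ℕ}
variable {G : Type*} [Group G] [Finite G] [MulAction G P] [MulAction G L]

/-- **Solvable normal subgroups of a point transitive group are trivial.** -/
theorem no_solvable (hI : IsConfiguration I n k) (hT : TrilateralFree I) (hn : n = k * (k - 1) ^ 2 + k)
    (hk : k % 2 = 1) (hk3 : 3 ≤ k) (hG : ∀ (g : G) (p : P) (l : L), I (g • p) (g • l) ↔ I p l)
    (hf : ∀ g : G, (∀ p : P, g • p = p) → g = 1) (ht : ∀ p q : P, ∃ g : G, g • p = q)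
    (N : Subgroup G) (hN : N.Normal) (hS : Group.IsSolvable N) : N = ⊥ := by
  by_contra hne
  obtain ⟨q, B, hq, hBn, hBne, hab, hexp⟩ := exists_elementary N hN hS hne
  exact K7.none hI hT hn hk hk3 hG hf ht B hBne hab q hq hexp

end

private theorem half {P L : Type*} [Finite P] [Finite L] (I : P → L → Prop) (n k : ℕ)
    (hI : IsConfiguration I n k) (hT : TrilateralFree I) (hn : n = k * (k - 1) ^ 2 + k) (hodd : Odd k)
    (hk : 3 ≤ k) (G : Subgroup (Equiv.Perm P × Equiv.Perm L)) (hG : ∀ g ∈ G, ∀ p l, I (g.1 p) (g.2 l) ↔ I p l)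
    (ht : ∀ p q : P, ∃ g ∈ G, g.1 p = q) (N : Subgroup G) (hN : N.Normal) (hS : Group.IsSolvable N) : N = ⊥ := by
  classical
  let i1 : MulAction G P :=
    MulAction.compHom P ((MonoidHom.fst (Equiv.Perm P) (Equiv.Perm L)).comp G.subtype)
  let i2 : MulAction G L :=
    MulAction.compHom L ((MonoidHom.snd (Equiv.Perm P) (Equiv.Perm L)).comp G.subtype)
  have e1 : ∀ (g : G) (p : P), g • p = g.1.1 p := fun g p => rfl
  have e2 : ∀ (g : G) (l : L), g • l = g.1.2 l := fun g l => rfl
  have a1 : ∀ (g : G) (p : P) (l : L), I (g • p) (g • l) ↔ I p l := by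
    intro g p l
    rw [e1, e2]
    exact hG g.1 g.2 p l
  have a2 : ∀ g : G, (∀ p : P, g • p = p) → g = 1 := by
    intro g hg
    have h1 : ∀ p, g.1.1 p = p := fun p => hg p
    have h2 : ∀ l, g.1.2 l = l := by
      intro l
      by_contra hl
      have h3 : ∀ p, I p l → I p (g.1.2 l) := by
        intro p hpl
        have := (hG g.1 g.2 p l).2 hpl
        rwa [h1] at this
      have h4 : 1 < {p | I p l}.ncard := by rw [hI.card_on_line]; omega
      obtain ⟨p, q, hp1, hq1, hpq⟩ := (Set.one_lt_ncard_iff).1 h4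
      exact hl (hI.unique_line p q (g.1.2 l) l hpq (h3 p hp1) (h3 q hq1) hp1 hq1)
    apply Subtype.ext
    apply Prod.ext
    · exact Equiv.ext h1
    · exact Equiv.ext h2
  have a3 : ∀ p q : P, ∃ g : G, g • p = q := by
    intro p q
    obtain ⟨g, hg, hgp⟩ := ht p q
    exact ⟨⟨g, hg⟩, hgp⟩
  exact no_solvable hI hT hn (Nat.odd_iff.1 hodd) hk a1 a2 a3 N hN hS

/-- Let `k ≥ 3` be odd, `I` a trilateral-free configuration `(n_k)` with `n = k (k - 1)² + k`, and `G` a group of
automorphisms of `I`, transitive on the points or on the lines. Then every solvable normal subgroup of `G` is trivial,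
and `G` is not solvable. -/
theorem all_odd {P L : Type*} (I : P → L → Prop) (n k : ℕ) (hI : IsConfiguration I n k)
    (hT : TrilateralFree I) (hn : n = k * (k - 1) ^ 2 + k) (hodd : Odd k) (hk : 3 ≤ k)
    (G : Subgroup (Equiv.Perm P × Equiv.Perm L)) (hG : G ≤ autGroup I)
    (ht : (∀ p q : P, ∃ g ∈ G, g.1 p = q) ∨ (∀ l m : L, ∃ g ∈ G, g.2 l = m)) :
    (∀ N : Subgroup G, N.Normal → Group.IsSolvable N → N = ⊥) ∧ ¬ Group.IsSolvable G := by
  classical
  have : Finite P := Nat.finite_of_card_ne_zero (by rw [hI.card_points]; omega)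
  have : Finite L := Nat.finite_of_card_ne_zero (by rw [hI.card_lines]; omega)
  have key : ∀ N : Subgroup G, N.Normal → Group.IsSolvable N → N = ⊥ := by
    intro N hN hS
    rcases ht with ht | ht
    · exact half I n k hI hT hn hodd hk G (fun g hg => hG hg) ht N hN hS
    · obtain ⟨hI', hT'⟩ := dualize I n k hI hT
      let sw : Equiv.Perm P × Equiv.Perm L ≃* Equiv.Perm L × Equiv.Perm P := MulEquiv.prodComm
      let G' : Subgroup (Equiv.Perm L × Equiv.Perm P) := G.map sw.toMonoidHom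
      let e : G ≃* G' := G.equivMapOfInjective sw.toMonoidHom sw.injective
      have h1 : (N.map e.toMonoidHom).Normal := hN.map e.toMonoidHom e.surjective
      have h2 := half (fun l p => I p l) n k hI' hT' hn hodd hk G' (by
        rintro _ ⟨g, hg, rfl⟩ l p
        exact hG hg p l) (by
        intro l m
        obtain ⟨g, hg, hgl⟩ := ht l m
        exact ⟨sw g, ⟨g, hg, rfl⟩, hgl⟩) (N.map e.toMonoidHom) h1
        (Group.isSolvable_of_surjective
          (f := (N.equivMapOfInjective e.toMonoidHom e.injective).toMonoidHom)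
          (N.equivMapOfInjective e.toMonoidHom e.injective).surjective)
      exact (Subgroup.map_eq_bot_iff_of_injective _ e.injective).1 h2
  refine ⟨key, ?_⟩
  intro hsol
  have h1 : (⊤ : Subgroup G) = ⊥ := key ⊤ inferInstance
    (Group.isSolvable_of_surjective (f := (Subgroup.topEquiv (G := G)).symm.toMonoidHom)
      (Subgroup.topEquiv (G := G)).symm.surjective)
  have h2 : ∀ g ∈ G, g = 1 := by
    intro g hg
    have h3 : (⟨g, hg⟩ : G) ∈ (⊤ : Subgroup G) := Subgroup.mem_top _
    rw [h1, Subgroup.mem_bot] at h3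
    exact congrArg Subtype.val h3
  have hn2 : 2 ≤ n := by rw [hn]; omega
  rcases ht with ht | ht
  · have h4 : 1 < Nat.card P := by rw [hI.card_points]; omega
    have := Finite.one_lt_card_iff_nontrivial.1 h4
    obtain ⟨p, q, hpq⟩ := exists_pair_ne P
    obtain ⟨g, hg, hgp⟩ := ht p q
    rw [h2 g hg] at hgp
    exact hpq hgp
  · have h4 : 1 < Nat.card L := by rw [hI.card_lines]; omega
    have := Finite.one_lt_card_iff_nontrivial.1 h4
    obtain ⟨p, q, hpq⟩ := exists_pair_ne L
    obtain ⟨g, hg, hgp⟩ := ht p q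
    rw [h2 g hg] at hgp
    exact hpq hgp

end Pool.Agent.Lib.MP_e0c1ed_co.K8
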