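import Pool.Agent.Lib.MP_e0c1ed_co.F2
import Pool.Agent.Lib.MP_e0c1ed_co.F3
import Pool.Agent.Lib.MP_e0c1ed_co.F4
import Pool.Agent.Lib.MP_e0c1ed_co.AS3
import Pool.Agent.Lib.MP_e0c1ed_co.Main
import Pool.Agent.Lib.MP_e0c1ed_co.K8
import Pool.Agent.Lib.MP_e0c1ed_co.Aut

/-!
# MP_e0c1ed / F5: flag transitive groups have no two commuting nontrivial normal subgroups
-/

set_option autoImplicit false

namespace Pool.Agent.Lib.MP_e0c1ed_co

open Pool.Agent.Results.MP_e0c1ed_co.SelfDualSquare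

section
variable {P L G : Type*} [Finite P] [Finite L] [Group G] [Finite G] [MulAction G P] [MulAction G L]
  {I : P → L → Prop} {n k : ℕ}

/-- The order of a normal subgroup which acts semiregularly is the length of its orbits and divides the number of
points. -/
theorem F5.card_orbit (ht : ∀ p q : P, ∃ g : G, g • p = q) (N : Subgroup G) [N.Normal]
    (h : ∀ g ∈ N, g ≠ 1 → ∀ x : P, g • x ≠ x) (x : P) :
    (MulAction.orbit N x).ncard = Nat.card N ∧ Nat.card N ∣ Nat.card P := by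
  have : MulAction.IsPretransitive G P := ⟨ht⟩
  have h1 : (MulAction.orbit N x).ncard ∣ Nat.card P :=
    (MulAction.IsBlock.orbit_of_normal (G := G) (N := N) x).ncard_dvd_card
      ⟨x, MulAction.mem_orbit_self x⟩
  have h2 : MulAction.stabilizer N x = ⊥ := by
    rw [Subgroup.eq_bot_iff_forall]
    intro g hg
    by_contra hne
    exact h g.1 g.2 (fun h3 => hne (Subtype.ext h3)) x hg
  have h3 : (MulAction.orbit N x).ncard = Nat.card N := by
    rw [← MulAction.index_stabilizer, h2, Subgroup.index_bot]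
  exact ⟨h3, h3 ▸ h1⟩

theorem F5.exists_elt (N : Subgroup G) (h : ∀ g ∈ N, g ≠ 1 → ∀ x : P, g • x ≠ x) (q : ℕ) (hq : q.Prime)
    (hd : q ∣ Nat.card N) : ∃ a ∈ N, a ^ q = 1 ∧ ∀ x : P, a • x ≠ x := by
  have := Fact.mk hq
  obtain ⟨a, ha⟩ := exists_prime_orderOf_dvd_card' q hd
  refine ⟨a.1, a.2, ?_, h a.1 a.2 ?_⟩
  · have h1 := pow_orderOf_eq_one a
    rw [ha] at h1
    exact congrArg Subtype.val h1
  · intro h1
    have h2 : a = 1 := Subtype.ext h1
    rw [h2, orderOf_one] at ha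
    exact hq.one_lt.ne ha

/-- a flag transitive group has no two commuting nontrivial normal subgroups -/
theorem F5.no_commuting (hI : IsConfiguration I n k) (hT : TrilateralFree I) (hn : n = k * (k - 1) ^ 2 + k)
    (hk : k % 2 = 1) (hk3 : 3 ≤ k) (hG : ∀ (g : G) (p : P) (l : L), I (g • p) (g • l) ↔ I p l)
    (hf : ∀ g : G, (∀ p : P, g • p = p) → g = 1)
    (hfl : ∀ (p q : P) (l m : L), I p l → I q m → ∃ g : G, g • p = q ∧ g • l = m)
    (A B : Subgroup G) [A.Normal] [B.Normal] (hA : A ≠ ⊥) (hB : B ≠ ⊥) (hAB : ∀ a ∈ A, ∀ b ∈ B, a * b = b * a) :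
    False := by
  classical
  have ht : ∀ p q : P, ∃ g : G, g • p = q := by
    intro p q
    obtain ⟨l1, h1⟩ := F2.ex_line hI hk3 p
    obtain ⟨l2, h2⟩ := F2.ex_line hI hk3 q
    obtain ⟨h, h3, -⟩ := hfl p q l1 l2 h1 h2
    exact ⟨h, h3⟩
  -- the dual structure
  obtain ⟨hI', hT'⟩ := Aut.dualize I n k hI hT
  have hG' : ∀ (g : G) (l : L) (p : P), (fun l p => I p l) (g • l) (g • p) ↔ (fun l p => I p l) l p :=
    fun g l p => hG g p l
  have hf' : ∀ g : G, (∀ l : L, g • l = l) → g = 1 := by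
    intro g hg
    refine hf g fun p => ?_
    have h1 : 1 < {l | I p l}.ncard := by rw [hI.card_through_point]; omega
    obtain ⟨l, m, hl, hm, hlm⟩ := (Set.one_lt_ncard_iff).1 h1
    by_contra hp
    have h2 : I (g • p) l := by
      have := (hG g p l).2 hl
      rwa [hg l] at this
    have h3 : I (g • p) m := by
      have := (hG g p m).2 hm
      rwa [hg m] at this
    exact hlm (hI.unique_line (g • p) p l m hp h2 hl h3 hm)
  have hfl' : ∀ (l m : L) (p q : P), (fun l p => I p l) l p → (fun l p => I p l) m q →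
      ∃ g : G, g • l = m ∧ g • p = q := by
    intro l m p q h1 h2
    obtain ⟨g, h3, h4⟩ := hfl p q l m h1 h2
    exact ⟨g, h4, h3⟩
  have hBA : ∀ b ∈ B, ∀ a ∈ A, b * a = a * b := fun b hb a ha => (hAB a ha b hb).symm
  -- `A` and `B` are semiregular
  have sA := F2.semi hI hT hn hk3 hf A (F2.fix_lines hI hT hn hk hk3 hG hf hfl A B hB hAB)
    (fun g hg x l h1 h2 => F2.fix_lines hI' hT' hn hk hk3 hG' hf' hfl' A B hB hAB g hg l x h1 h2)
  have sB := F2.semi hI hT hn hk3 hf B (F2.fix_lines hI hT hn hk hk3 hG hf hfl B A hA hBA)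
    (fun g hg x l h1 h2 => F2.fix_lines hI' hT' hn hk hk3 hG' hf' hfl' B A hA hBA g hg l x h1 h2)
  have hnp : n = k * ((k - 1) ^ 2 + 1) := by rw [hn]; ring
  have hcardP : Nat.card P = n := hI.card_points
  obtain ⟨x0⟩ : Nonempty P := by
    rw [← Finite.card_pos_iff, hcardP, hnp]
    exact Nat.mul_pos (by omega) (by omega)
  obtain ⟨a1, a2⟩ := F5.card_orbit ht A sA x0
  obtain ⟨b1, b2⟩ := F5.card_orbit ht B sB x0
  have a3 := Main.long_orbits hI hT hn hk hk3 hG hf ht A hA x0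
  have b3 := Main.long_orbits hI hT hn hk hk3 hG hf ht B hB x0
  rw [a1] at a3
  rw [b1] at b3
  rw [hcardP, hnp] at a2 b2
  -- primes dividing the orders
  have key : ∀ X : Subgroup G, 2 * (k - 1) < Nat.card X → Nat.card X ∣ k * ((k - 1) ^ 2 + 1) →
      ∃ p : ℕ, p.Prime ∧ p ∣ Nat.card X ∧ p ∣ (k - 1) ^ 2 + 1 := by
    intro X h1 h2
    by_contra hcon
    push Not at hcon
    have h3 : Nat.Coprime (Nat.card X) ((k - 1) ^ 2 + 1) :=
      Nat.coprime_of_dvd fun p hp h4 h5 => hcon p hp h4 h5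
    have h4 := Nat.le_of_dvd (by omega) (h3.dvd_of_dvd_mul_right h2)
    omega
  obtain ⟨p, hp, hpA, hps⟩ := key A a3 a2
  obtain ⟨p', hp', hpB, hps'⟩ := key B b3 b2
  obtain ⟨a, haA, hap, hax⟩ := F5.exists_elt A sA p hp hpA
  obtain ⟨b, hbB, hbp, hbx⟩ := F5.exists_elt B sB p' hp' hpB
  have cB : Nat.Coprime (Nat.card B) k := by
    refine Nat.coprime_of_dvd fun q hq h4 h5 => ?_
    obtain ⟨c, hcB, hcq, hcx⟩ := F5.exists_elt B sB q hq h4
    exact F3.no_pair hI hT hn hk hk3 hG a c (hAB a haA c hcB) p q hp hq hps h5 hap hcq hax hcx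
  have cA : Nat.Coprime (Nat.card A) k := by
    refine Nat.coprime_of_dvd fun q hq h4 h5 => ?_
    obtain ⟨c, hcA, hcq, hcx⟩ := F5.exists_elt A sA q hq h4
    exact F3.no_pair hI hT hn hk hk3 hG b c (hBA b hbB c hcA) p' q hp' hq hps' h5 hbp hcq hbx hcx
  -- `A ∩ B` is trivial
  have hinf : A ⊓ B = ⊥ := by
    refine K8.no_solvable hI hT hn hk hk3 hG hf ht (A ⊓ B) inferInstance ?_
    exact Group.isSolvable_of_comm fun u v => Subtype.ext (hAB u.1 u.2.1 v.1 v.2.2)
  have hcard := AS3.card_sup A B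
  rw [hinf, Subgroup.card_bot, mul_one] at hcard
  -- `A ⊔ B` is semiregular
  have cN : Nat.Coprime (Nat.card (A ⊔ B : Subgroup G)) k := by
    rw [hcard]
    exact Nat.Coprime.mul_left cA cB
  have sN := F2.semi hI hT hn hk3 hf (A ⊔ B) (F4.fix_lines hI hn hk3 hG hfl (A ⊔ B) cN)
    (fun g hg x l h1 h2 => F4.fix_lines hI' hn hk3 hG' hfl' (A ⊔ B) cN g hg l x h1 h2)
  obtain ⟨n1, n2⟩ := F5.card_orbit ht (A ⊔ B) sN x0
  rw [hcardP, hnp] at n2
  have n3 := Nat.le_of_dvd (by omega) (cN.dvd_of_dvd_mul_left n2)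
  rw [hcard] at n3
  have n4 : (2 * (k - 1) + 1) * (2 * (k - 1) + 1) ≤ Nat.card A * Nat.card B :=
    Nat.mul_le_mul (by omega) (by omega)
  have n5 : (2 * (k - 1) + 1) * (2 * (k - 1) + 1) ≤ (k - 1) ^ 2 + 1 := n4.trans n3
  have n6 : 1 ≤ k - 1 := by omega
  generalize k - 1 = s at n5 n6
  nlinarith

end

end Pool.Agent.Lib.MP_e0c1ed_co
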