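import Pool.Agent.Lib.MP_e0c1ed_co.F5

/-!
# MP_e0c1ed / F6: flag transitive groups have a unique minimal normal subgroup, with trivial centralizer
-/

set_option autoImplicit false

namespace Pool.Agent.Lib.MP_e0c1ed_co.F6

open Pool.Agent.Results.MP_e0c1ed_co.SelfDualSquare Pool.Agent.Lib.MP_e0c1ed_co

/-- If no two nontrivial normal subgroups of a nontrivial finite group commute, then one nontrivial normal subgroup
lies in all others, and its centralizer is trivial. -/
theorem of_no_commuting {G : Type*} [Group G] [Finite G] [Nontrivial G]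
    (h : ∀ A B : Subgroup G, A.Normal → B.Normal → A ≠ ⊥ → B ≠ ⊥ → ¬ ∀ a ∈ A, ∀ b ∈ B, a * b = b * a) :
    ∃ M : Subgroup G, M.Normal ∧ M ≠ ⊥ ∧ (∀ N : Subgroup G, N.Normal → N ≠ ⊥ → M ≤ N) ∧
      Subgroup.centralizer (M : Set G) = ⊥ := by
  classical
  have hfin : {N : Subgroup G | N.Normal ∧ N ≠ ⊥}.Finite := Set.toFinite _
  have hne : {N : Subgroup G | N.Normal ∧ N ≠ ⊥}.Nonempty := ⟨⊤, inferInstance, top_ne_bot⟩
  obtain ⟨M, ⟨hM1, hM2⟩, hmin⟩ := hfin.exists_minimal hne
  refine ⟨M, hM1, hM2, ?_, ?_⟩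
  · intro N hN hNb
    have h1 : M ⊓ N ≠ ⊥ := by
      intro h2
      refine h M N hM1 hN hM2 hNb fun a ha b hb => ?_
      have h3 : a * b * a⁻¹ * b⁻¹ ∈ M ⊓ N := by
        refine ⟨?_, ?_⟩
        · have := M.mul_mem ha (hM1.conj_mem _ (M.inv_mem ha) b)
          simpa [mul_assoc] using this
        · exact N.mul_mem (hN.conj_mem b hb a) (N.inv_mem hb)
      rw [h2, Subgroup.mem_bot] at h3
      have h4 : a * b * a⁻¹ = b := mul_inv_eq_one.1 h3
      exact mul_inv_eq_iff_eq_mul.1 h4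
    have h2 : M ≤ M ⊓ N := hmin ⟨inferInstance, h1⟩ inf_le_left
    exact h2.trans inf_le_right
  · by_contra hc
    have h1 : (Subgroup.centralizer (M : Set G)).Normal := inferInstance
    refine h M _ hM1 h1 hM2 hc fun a ha b hb => ?_
    exact Subgroup.mem_centralizer_iff.1 hb a ha

section
variable {P L G : Type*} [Finite P] [Finite L] [Group G] [Finite G] [MulAction G P] [MulAction G L]
  {I : P → L → Prop} {n k : ℕ}

/-- **A flag transitive group has a nontrivial normal subgroup which lies in every nontrivial normal subgroup, and its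
centralizer is trivial.** -/
theorem monolith (hI : IsConfiguration I n k) (hT : TrilateralFree I) (hn : n = k * (k - 1) ^ 2 + k)
    (hk : k % 2 = 1) (hk3 : 3 ≤ k) (hG : ∀ (g : G) (p : P) (l : L), I (g • p) (g • l) ↔ I p l)
    (hf : ∀ g : G, (∀ p : P, g • p = p) → g = 1)
    (hfl : ∀ (p q : P) (l m : L), I p l → I q m → ∃ g : G, g • p = q ∧ g • l = m) :
    ∃ M : Subgroup G, M.Normal ∧ M ≠ ⊥ ∧ (∀ N : Subgroup G, N.Normal → N ≠ ⊥ → M ≤ N) ∧
      Subgroup.centralizer (M : Set G) = ⊥ := by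
  have hnt : Nontrivial G := by
    by_contra hcon
    rw [not_nontrivial_iff_subsingleton] at hcon
    have h1 : 1 < Nat.card P := by
      rw [hI.card_points, hn]
      have : 1 ≤ k * (k - 1) ^ 2 := Nat.mul_pos (by omega) (Nat.pow_pos (by omega))
      omega
    have := Finite.one_lt_card_iff_nontrivial.1 h1
    obtain ⟨p, q, hpq⟩ := exists_pair_ne P
    obtain ⟨l, hl⟩ := F2.ex_line hI hk3 p
    obtain ⟨m, hm⟩ := F2.ex_line hI hk3 q
    obtain ⟨g, hg, -⟩ := hfl p q l m hl hm
    rw [Subsingleton.elim g 1, one_smul] at hg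
    exact hpq hg
  refine of_no_commuting fun A B hA hB hA0 hB0 hAB => ?_
  exact F5.no_commuting hI hT hn hk hk3 hG hf hfl A B hA0 hB0 hAB

end

end Pool.Agent.Lib.MP_e0c1ed_co.F6
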