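import Pool.Agent.Lib.MP_e0c1ed_co.F6

/-!
# MP_e0c1ed / F7: quasiprimitive groups
-/

set_option autoImplicit false

namespace Pool.Agent.Lib.MP_e0c1ed_co.F7

open Pool.Agent.Results.MP_e0c1ed_co.SelfDualSquare Pool.Agent.Lib.MP_e0c1ed_co

section
variable {P L G : Type*} [Finite P] [Finite L] [Group G] [Finite G] [MulAction G P] [MulAction G L]
  {I : P → L → Prop} {n k : ℕ}

/-- Two commuting subgroups are not both transitive on the points. -/
theorem no_transitive_pair (hI : IsConfiguration I n k) (hT : TrilateralFree I) (hn : n = k * (k - 1) ^ 2 + k)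
    (hk : k % 2 = 1) (hk3 : 3 ≤ k) (hG : ∀ (g : G) (p : P) (l : L), I (g • p) (g • l) ↔ I p l)
    (hf : ∀ g : G, (∀ p : P, g • p = p) → g = 1) (A B : Subgroup G)
    (hA : ∀ x y : P, ∃ a ∈ A, a • x = y) (hB : ∀ x y : P, ∃ b ∈ B, b • x = y)
    (hAB : ∀ a ∈ A, ∀ b ∈ B, a * b = b * a) : False := by
  have sA : ∀ g ∈ A, g ≠ 1 → ∀ x : P, g • x ≠ x := by
    intro g hg hg1 x hx
    refine hg1 (hf g fun y => ?_)
    obtain ⟨b, hb, rfl⟩ := hB x y
    rw [← mul_smul, hAB g hg b hb, mul_smul, hx]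
  have sB : ∀ g ∈ B, g ≠ 1 → ∀ x : P, g • x ≠ x := by
    intro g hg hg1 x hx
    refine hg1 (hf g fun y => ?_)
    obtain ⟨a, ha, rfl⟩ := hA x y
    rw [← mul_smul, ← hAB a ha g hg, mul_smul, hx]
  have hnp : n = k * ((k - 1) ^ 2 + 1) := by rw [hn]; ring
  have hcardP : Nat.card P = n := hI.card_points
  obtain ⟨x0⟩ : Nonempty P := by
    rw [← Finite.card_pos_iff, hcardP, hnp]
    exact Nat.mul_pos (by omega) (by omega)
  have key : ∀ X : Subgroup G, (∀ x y : P, ∃ a ∈ X, a • x = y) → n ∣ Nat.card X := by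
    intro X hX
    have : MulAction.IsPretransitive X P := ⟨fun x y => by
      obtain ⟨a, ha, h⟩ := hX x y
      exact ⟨⟨a, ha⟩, h⟩⟩
    rw [← hcardP, ← MulAction.index_stabilizer_of_transitive X x0]
    exact Subgroup.index_dvd_card _
  obtain ⟨p, hp, hps⟩ := Nat.exists_prime_and_dvd (n := (k - 1) ^ 2 + 1) (by
    have : 0 < (k - 1) ^ 2 := Nat.pow_pos (by omega)
    omega)
  obtain ⟨q, hq, hqk⟩ := Nat.exists_prime_and_dvd (n := k) (by omega)
  obtain ⟨a, ha, hap, hax⟩ := F5.exists_elt A sA p hp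
    ((hps.trans ⟨k, by rw [hnp]; ring⟩).trans (key A hA))
  obtain ⟨b, hb, hbq, hbx⟩ := F5.exists_elt B sB q hq
    ((hqk.trans ⟨(k - 1) ^ 2 + 1, hnp⟩).trans (key B hB))
  exact F3.no_pair hI hT hn hk hk3 hG a b (hAB a ha b hb) p q hp hq hps hqk hap hbq hax hbx

/-- **A flag transitive group, and a point transitive group all of whose nontrivial normal subgroups are transitive on
the points (or dually), has a nontrivial normal subgroup which lies in every nontrivial normal subgroup, and its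
centralizer is trivial.** -/
theorem monolith (hI : IsConfiguration I n k) (hT : TrilateralFree I) (hn : n = k * (k - 1) ^ 2 + k)
    (hk : k % 2 = 1) (hk3 : 3 ≤ k) (hG : ∀ (g : G) (p : P) (l : L), I (g • p) (g • l) ↔ I p l)
    (hf : ∀ g : G, (∀ p : P, g • p = p) → g = 1)
    (h : (∀ (p q : P) (l m : L), I p l → I q m → ∃ g : G, g • p = q ∧ g • l = m) ∨
      ((∀ x y : P, ∃ g : G, g • x = y) ∧ ∀ N : Subgroup G, N.Normal → N ≠ ⊥ → ∀ x y : P, ∃ g ∈ N, g • x = y) ∨
      ((∀ x y : L, ∃ g : G, g • x = y) ∧ ∀ N : Subgroup G, N.Normal → N ≠ ⊥ → ∀ x y : L, ∃ g ∈ N, g • x = y)) :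
    ∃ M : Subgroup G, M.Normal ∧ M ≠ ⊥ ∧ (∀ N : Subgroup G, N.Normal → N ≠ ⊥ → M ≤ N) ∧
      Subgroup.centralizer (M : Set G) = ⊥ := by
  have hn1 : 1 < n := by
    rw [hn]
    have : 1 ≤ k * (k - 1) ^ 2 := Nat.mul_pos (by omega) (Nat.pow_pos (by omega))
    omega
  rcases h with h | ⟨ht, h⟩ | ⟨ht, h⟩
  · exact F6.monolith hI hT hn hk hk3 hG hf h
  · have hnt : Nontrivial G := by
      by_contra hcon
      rw [not_nontrivial_iff_subsingleton] at hcon
      have := Finite.one_lt_card_iff_nontrivial.1 (show 1 < Nat.card P by rw [hI.card_points]; exact hn1)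
      obtain ⟨p, q, hpq⟩ := exists_pair_ne P
      obtain ⟨g, hg⟩ := ht p q
      rw [Subsingleton.elim g 1, one_smul] at hg
      exact hpq hg
    refine F6.of_no_commuting fun A B hA hB hA0 hB0 hAB => ?_
    exact no_transitive_pair hI hT hn hk hk3 hG hf A B (h A hA hA0) (h B hB hB0) hAB
  · have hnt : Nontrivial G := by
      by_contra hcon
      rw [not_nontrivial_iff_subsingleton] at hcon
      have := Finite.one_lt_card_iff_nontrivial.1 (show 1 < Nat.card L by rw [hI.card_lines]; exact hn1)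
      obtain ⟨p, q, hpq⟩ := exists_pair_ne L
      obtain ⟨g, hg⟩ := ht p q
      rw [Subsingleton.elim g 1, one_smul] at hg
      exact hpq hg
    obtain ⟨hI', hT'⟩ := Aut.dualize I n k hI hT
    have hf' : ∀ g : G, (∀ l : L, g • l = l) → g = 1 := by
      intro g hg
      refine hf g fun p => ?_
      have h1 : 1 < {l | I p l}.ncard := by rw [hI.card_through_point]; omega
      obtain ⟨l, m, hl, hm, hlm⟩ := (Set.one_lt_ncard_iff).1 h1
      by_contra hp
      have h2 : I (g • p) l := by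
        have := (hG g p l).2 hl
        rwa [hg l] at this
      have h3 : I (g • p) m := by
        have := (hG g p m).2 hm
        rwa [hg m] at this
      exact hlm (hI.unique_line (g • p) p l m hp h2 hl h3 hm)
    refine F6.of_no_commuting fun A B hA hB hA0 hB0 hAB => ?_
    exact no_transitive_pair (I := fun l p => I p l) hI' hT' hn hk hk3 (fun g l p => hG g p l) hf' A B
      (h A hA hA0) (h B hB hB0) hAB

end

end Pool.Agent.Lib.MP_e0c1ed_co.F7
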