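import Pool.Agent.Lib.MP_e0c1ed_co.Prime

/-!
# MP_e0c1ed / Galois: normal subgroups of prime exponent
-/

set_option autoImplicit false

namespace Pool.Agent.Lib.MP_e0c1ed_co.Galois

open Finset Pool.Agent.Results.MP_e0c1ed_co.SelfDualSquare Bens Grp Orb Norm Ub Upper Prime

/-- A sum over the nontrivial elements of a group of exponent `q` which is constant on generators of cyclic subgroups. -/
theorem dvd_sum {B : Type*} [Group B] [Fintype B] [DecidableEq B] (q : ℕ) (hq : q.Prime) (hexp : ∀ b : B, b ^ q = 1)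
    (τ : B → ℤ) (hτ : ∀ b : B, ∀ r, 1 ≤ r → r < q → τ (b ^ r) = τ b) :
    ((q - 1 : ℕ) : ℤ) ∣ ∑ b ∈ univ.erase (1 : B), τ b := by
  classical
  have hqF : Fact q.Prime := ⟨hq⟩
  rw [← Finset.sum_fiberwise_of_maps_to (s := univ.erase (1 : B)) (t := (univ.erase (1 : B)).image (fun b => Subgroup.zpowers b))
    (g := fun b => Subgroup.zpowers b) (fun b hb => Finset.mem_image_of_mem _ hb)]
  refine Finset.dvd_sum fun H hH => ?_
  obtain ⟨b0, hb0, rfl⟩ := Finset.mem_image.1 hH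
  have hb01 : b0 ≠ 1 := (Finset.mem_erase.1 hb0).1
  have hord : orderOf b0 = q := orderOf_eq_prime (hexp b0) hb01
  -- the fibre consists of the powers of `b0`
  have hfib : (univ.erase (1 : B)).filter (fun b => Subgroup.zpowers b = Subgroup.zpowers b0) =
      (Finset.Icc 1 (q - 1)).image (fun r => b0 ^ r) := by
    ext b
    simp only [Finset.mem_filter, Finset.mem_erase, Finset.mem_univ, and_true, Finset.mem_image, Finset.mem_Icc]
    constructor
    · rintro ⟨hb1, hb⟩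
      have h1 : b ∈ Subgroup.zpowers b0 := by rw [← hb]; exact Subgroup.mem_zpowers b
      obtain ⟨r, hr, hr'⟩ := (mem_zpowers_iff_mem_range_orderOf).1 h1 |> Finset.mem_image.1
      rw [hord] at hr
      refine ⟨r, ⟨?_, ?_⟩, hr'⟩
      · rcases Nat.eq_zero_or_pos r with h | h
        · exfalso
          apply hb1
          rw [← hr', h, pow_zero]
        · exact h
      · have := Finset.mem_range.1 hr
        omega
    · rintro ⟨r, ⟨hr1, hr2⟩, rfl⟩
      have hrq : r < q := by have := hq.pos; omega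
      have hne : b0 ^ r ≠ 1 := by
        intro h
        have h2 := orderOf_dvd_of_pow_eq_one h
        rw [hord] at h2
        exact absurd (Nat.le_of_dvd hr1 h2) (by omega)
      refine ⟨hne, ?_⟩
      have h3 : Subgroup.zpowers (b0 ^ r) ≤ Subgroup.zpowers b0 := by
        rw [Subgroup.zpowers_le]
        exact Subgroup.pow_mem _ (Subgroup.mem_zpowers b0) r
      apply Subgroup.eq_of_le_of_card_ge h3
      rw [Nat.card_zpowers, Nat.card_zpowers, hord, orderOf_eq_prime (hexp (b0 ^ r)) hne]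
  rw [hfib, Finset.sum_image]
  · rw [Finset.sum_congr rfl (fun r hr => hτ b0 r (Finset.mem_Icc.1 hr).1
      (by have := (Finset.mem_Icc.1 hr).2; have := hq.pos; omega)), Finset.sum_const, Nat.card_Icc, nsmul_eq_mul]
    have : q - 1 + 1 - 1 = q - 1 := by omega
    rw [this]
    exact Dvd.intro _ rfl
  · intro r hr r' hr' h
    have h1 := Finset.mem_Icc.1 (Finset.mem_coe.1 hr)
    have h2 := Finset.mem_Icc.1 (Finset.mem_coe.1 hr')
    have hq0 := hq.pos
    exact pow_injOn_Iio_orderOf (by rw [hord]; exact Set.mem_Iio.2 (by omega)) (by rw [hord]; exact Set.mem_Iio.2 (by omega)) h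

section
variable {P L G : Type*} [Finite P] [Finite L] [Group G] [Finite G] [MulAction G P] [MulAction G L]
  {I : P → L → Prop} {n k : ℕ}

/-- **(D)** -/
theorem galois_case (hI : IsConfiguration I n k) (hT : TrilateralFree I) (hn : n = k * (k - 1) ^ 2 + k)
    (hk : k % 2 = 1) (hk3 : 3 ≤ k) (hG : ∀ (g : G) (p : P) (l : L), I (g • p) (g • l) ↔ I p l)
    (ht : ∀ p q : P, ∃ g : G, g • p = q) (B : Subgroup G) [B.Normal] (q : ℕ) (hq : q.Prime)
    (hexp : ∀ b ∈ B, b ^ q = 1) (x : P) (hdvd : (MulAction.orbit B x).ncard ∣ (k - 1) ^ 2 + 1) :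
    2 * (k - 1) * (q - 1) ∣ k * (((k - 1) ^ 2 + 1) / (MulAction.orbit B x).ncard) *
      (k * ((MulAction.orbit B x).ncard - 1) - ((MulAction.orbit B x).ncard - 1) % (2 * (k - 1))) := by
  classical
  have : Fintype P := Fintype.ofFinite P
  have : Fintype L := Fintype.ofFinite L
  have : Fintype B := Fintype.ofFinite B
  have hqF : Fact q.Prime := ⟨hq⟩
  have hinv : ∀ (g : G) x l, I x l → I (g • x) (g • l) := fun g p l h => (hG g p l).2 h
  obtain ⟨σ, m, c, a, r, hσ, hm, hcard, hm1, hc, hr, hkey, ha, hsum⟩ := orbit_data hI hT hn (by omega) hinv ht B x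
  rw [← hm] at hdvd ⊢
  have hmodc := mod_eq k n m c a r hk hk3 hn hkey hr hm1
  have hup := upper_arith k n m c a r hk hk3 hn hkey hr hm1 ha
  obtain ⟨s, rfl⟩ : ∃ s, k = s + 1 := ⟨k - 1, by omega⟩
  rw [Nat.add_sub_cancel] at hdvd hmodc hup ⊢
  have hn' : n = (s + 1) * (s ^ 2 + 1) := by rw [hn, Nat.add_sub_cancel]; ring
  obtain ⟨w, hw⟩ := hdvd
  have hwm : (s ^ 2 + 1) / m = w := by rw [hw]; exact Nat.mul_div_cancel_left w hm1
  rw [hwm]
  -- the residue
  have hcmod : (m - 1) % (2 * s) = c := by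
    rw [hmodc]
    apply Nat.mod_eq_of_lt
    have h4 : m ≤ s ^ 2 + 1 := Nat.le_of_dvd (by omega) ⟨w, hw⟩
    by_contra h5
    have h6 : 2 * s * (s + 1) ≤ c * (s + 1) := Nat.mul_le_mul_right _ (by omega)
    have h7 : 2 * s * (s + 1) ≤ s ^ 2 - 1 + (s ^ 2 + 1) := by omega
    have h8 : 1 ≤ s ^ 2 := Nat.one_le_pow _ _ (by omega)
    have h9 : s ^ 2 - 1 + (s ^ 2 + 1) = 2 * s ^ 2 := by omega
    rw [h9] at h7
    nlinarith
  rw [hcmod]
  -- Benson's integers
  choose z hz using fun b : B => benson (B := G) hI hT hn (by omega) hinv (b : G)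
  have hk1 : (2 * ((s + 1 : ℕ) : ℚ) - 2) ≠ 0 := by
    have : (2 : ℚ) ≤ ((s + 1 : ℕ) : ℚ) := by exact_mod_cast (by omega : 2 ≤ s + 1)
    intro h
    linarith
  have hzconst : ∀ b : B, ∀ r, 1 ≤ r → r < q → z (b ^ r) = z b := by
    intro b r hr1 hr2
    have h1 := const_sum hI hT hn (by omega) hinv q (b : G) (hexp b b.2) r hr1 hr2
    have h2 := hz (b ^ r)
    have h3 : (((b ^ r : B) : G)) = (b : G) ^ r := by push_cast; rfl
    rw [h3, h1, hz b] at h2
    have h4 : (2 * ((s + 1 : ℕ) : ℚ) - 2) * (z b : ℚ) = (2 * ((s + 1 : ℕ) : ℚ) - 2) * (z (b ^ r) : ℚ) := by linarith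
    have h5 := mul_left_cancel₀ hk1 h4
    exact_mod_cast h5.symm
  have hD := dvd_sum q hq (fun b : B => Subtype.ext (by
    have := hexp b b.2
    push_cast
    exact this)) z hzconst
  -- the sum of all
  have hcardP : (Fintype.card P : ℚ) = n := by
    rw [← Nat.card_eq_fintype_card, hI.card_points]
  have hztot : ∑ b : B, z b = (Fintype.card B : ℤ) * a := by
    have h1 : ∑ b : B, ∑ y, S I y (b • y) = ∑ b : B, (((s + 1 : ℕ) : ℚ) ^ 2 + (2 * ((s + 1 : ℕ) : ℚ) - 2) * z b) :=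
      Finset.sum_congr rfl fun b _ => hz b
    rw [Finset.sum_add_distrib, Finset.sum_const, Finset.card_univ, nsmul_eq_mul, ← Finset.mul_sum, hsum] at h1
    have h2 : (n : ℚ) * (σ * ((s + 1 : ℕ) + c)) = Fintype.card B * (((s + 1 : ℕ) : ℚ) ^ 2 + (2 * ((s + 1 : ℕ) : ℚ) - 2) * a) := by
      have h3 : (n : ℚ) * ((s + 1 : ℕ) + c) = m * (((s + 1 : ℕ) : ℚ) ^ 2 + (2 * ((s + 1 : ℕ) : ℚ) - 2) * a) := by
        have h4 : ((2 * (s + 1) - 2 : ℕ) : ℚ) = 2 * ((s + 1 : ℕ) : ℚ) - 2 := by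
          rw [Nat.cast_sub (by omega)]
          push_cast
          ring
        rw [← h4]
        exact_mod_cast hkey
      have h4 : (Fintype.card B : ℚ) = σ * m := by exact_mod_cast hcard
      rw [h4]
      linear_combination (σ : ℚ) * h3
    rw [h2] at h1
    have h3 : (2 * ((s + 1 : ℕ) : ℚ) - 2) * (∑ b : B, (z b : ℚ)) = (2 * ((s + 1 : ℕ) : ℚ) - 2) * (Fintype.card B * a) := by
      linarith
    have h4 := mul_left_cancel₀ hk1 h3
    exact_mod_cast h4
  have hz1 : 2 * (s : ℤ) * z 1 = (s + 1) ^ 2 * s ^ 2 := by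
    have h1 := hz 1
    have h2 : ∀ y : P, S I y (((1 : B) : G) • y) = (s : ℚ) + 1 := by
      intro y
      have : ((1 : B) : G) = 1 := rfl
      rw [this, one_smul, S_self hI]
      push_cast
      ring
    rw [Finset.sum_congr rfl (fun y _ => h2 y), Finset.sum_const, Finset.card_univ, nsmul_eq_mul, hcardP, hn'] at h1
    push_cast at h1
    have h3 : (2 * (s : ℚ) * z 1) = (s + 1) ^ 2 * s ^ 2 := by linear_combination -h1
    exact_mod_cast h3
  -- `card B = 1` modulo `q - 1`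
  have hq1 : ((q - 1 : ℕ) : ℤ) ∣ (Fintype.card B : ℤ) - 1 := by
    have h1 : IsPGroup q B := fun b => ⟨1, Subtype.ext (by
      have := hexp b b.2
      rw [pow_one]
      push_cast
      exact this)⟩
    obtain ⟨e, he⟩ := (IsPGroup.iff_card).1 h1
    rw [Nat.card_eq_fintype_card] at he
    rw [he, Nat.cast_sub hq.pos, Nat.cast_pow, Nat.cast_one]
    exact sub_one_dvd_pow_sub_one _ _
  have hfin : ((q - 1 : ℕ) : ℤ) ∣ (a : ℤ) - z 1 := by
    have h1 : ∑ b ∈ univ.erase (1 : B), z b = (Fintype.card B : ℤ) * a - z 1 := by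
      rw [← hztot, ← Finset.add_sum_erase univ z (Finset.mem_univ (1 : B))]
      ring
    rw [h1] at hD
    have h2 : (a : ℤ) - z 1 = ((Fintype.card B : ℤ) * a - z 1) - ((Fintype.card B : ℤ) - 1) * a := by ring
    rw [h2]
    exact dvd_sub hD (Dvd.dvd.mul_right hq1 _)
  obtain ⟨W, hW⟩ := hfin
  -- translation
  have hkey' : ((s : ℤ) + 1) * w * ((s + 1) + c) = (s + 1) ^ 2 + 2 * s * a := by
    have h1 : (m : ℤ) * (((s : ℤ) + 1) * w * ((s + 1) + c)) = m * ((s + 1) ^ 2 + 2 * s * a) := by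
      have h2 : 2 * (s + 1) - 2 = 2 * s := by omega
      rw [h2, hn', hw] at hkey
      have h3 : (((s : ℤ) + 1) * (m * w)) * ((s + 1) + c) = m * ((s + 1) ^ 2 + 2 * s * a) := by exact_mod_cast hkey
      linear_combination h3
    exact mul_left_cancel₀ (by exact_mod_cast (by omega : m ≠ 0)) h1
  have hwZ : (s : ℤ) ^ 2 + 1 = m * w := by exact_mod_cast hw
  have hcle : c ≤ (s + 1) * (m - 1) := hc.trans (Nat.le_mul_of_pos_left _ (by omega))
  have hgoal : (((2 * s * (q - 1) : ℕ)) : ℤ) ∣ (((s + 1) * w * ((s + 1) * (m - 1) - c) : ℕ) : ℤ) := by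
    have h1 : (((s + 1) * w * ((s + 1) * (m - 1) - c) : ℕ) : ℤ) = ((s : ℤ) + 1) * w * ((s + 1) * ((m : ℤ) - 1) - c) := by
      rw [Nat.cast_mul, Nat.cast_mul, Nat.cast_sub hcle, Nat.cast_mul, Nat.cast_sub hm1]
      push_cast
      ring
    rw [h1, Nat.cast_mul]
    refine ⟨-W, ?_⟩
    push_cast
    linear_combination (-(2 : ℤ) * s) * hW - hz1 - hkey' - ((s : ℤ) + 1) ^ 2 * hwZ
  exact_mod_cast hgoal

end

end Pool.Agent.Lib.MP_e0c1ed_co.Galois
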