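import Pool.Agent.Lib.MP_e0c1ed_co.Num

/-!
# MP_e0c1ed / Num2: the arithmetic conditions are never satisfied for odd `k ≤ 1001`
-/

set_option autoImplicit false

namespace Pool.Agent.Lib.MP_e0c1ed_co.Num

theorem chk_all (t : ℕ) (h1 : 1 ≤ t) (h2 : t ≤ 500) : chk1 (2 * t) = true ∧ chk2 (2 * t) = true := by
  have key : ∀ a b, chkR a b = true → a ≤ t → t < b → chk1 (2 * t) = true ∧ chk2 (2 * t) = true := by
    intro a b h ha hb
    have h3 := (List.all_eq_true.1 h) (t - a) (List.mem_range.2 (by omega))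
    have h4 : a + (t - a) = t := by omega
    rw [h4, Bool.and_eq_true] at h3
    exact h3
  rcases Nat.lt_or_ge t 301 with h | h
  · exact key 1 301 chkR1 h1 h
  · exact key 301 501 chkR2 h (by omega)

theorem bad_of (s m q : ℕ) (h3 : ((m - 1) % (2 * s)) * (s + 1) ≤ s ^ 2 - 1 + m)
    (h4 : 2 * s * (q - 1) ∣ (s + 1) * ((s ^ 2 + 1) / m) * ((s + 1) * (m - 1) - (m - 1) % (2 * s))) : bad s m q = true := by
  unfold bad
  rw [Bool.and_eq_true]
  exact ⟨by rw [Nat.ble_eq]; exact h3, by rw [Nat.beq_eq]; exact Nat.mod_eq_zero_of_dvd h4⟩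

/-- **Theorem.** There is no solution with `s ≤ 1000`. -/
theorem no_solution (s q b : ℕ) (hs : s % 2 = 0) (hs2 : 2 ≤ s) (hs3 : s ≤ 1000) (hq : q.Prime)
    (h1 : q ^ b ∣ s ^ 2 + 1) (h2 : 2 * s < q ^ b)
    (h3 : ((q ^ b - 1) % (2 * s)) * (s + 1) ≤ s ^ 2 - 1 + q ^ b)
    (h4 : 2 * s * (q - 1) ∣ (s + 1) * ((s ^ 2 + 1) / q ^ b) * ((s + 1) * (q ^ b - 1) - (q ^ b - 1) % (2 * s))) : False := by
  obtain ⟨t, rfl⟩ : ∃ t, s = 2 * t := ⟨s / 2, by omega⟩
  obtain ⟨c1, c2⟩ := chk_all t (by omega) (by omega)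
  have hbad := bad_of (2 * t) (q ^ b) q h3 h4
  have hodd : ((2 * t) ^ 2 + 1) % 2 = 1 := by
    rw [Nat.add_mod, Nat.pow_mod, Nat.mul_mod_right]
  have hb0 : b ≠ 0 := by
    rintro rfl
    rw [pow_zero] at h2
    omega
  have hqd : q ∣ (2 * t) ^ 2 + 1 := (dvd_pow_self q hb0).trans h1
  have hq2 : q % 2 = 1 := by
    rcases Nat.mod_two_eq_zero_or_one q with h | h
    · have : 2 ∣ (2 * t) ^ 2 + 1 := (Nat.dvd_of_mod_eq_zero h).trans hqd
      omega
    · exact h
  rcases Nat.lt_or_ge b 2 with hb | hb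
  · have hb1 : b = 1 := by omega
    subst hb1
    rw [pow_one] at h1 h2 hbad
    obtain ⟨w, hw⟩ := h1
    have hw0 : 0 < w := by
      rcases Nat.eq_zero_or_pos w with h | h
      · rw [h, mul_zero] at hw; omega
      · exact h
    have hwo : w % 2 = 1 := by
      rcases Nat.mod_two_eq_zero_or_one w with h | h
      · rw [hw, Nat.mul_mod, h] at hodd
        simp at hodd
      · exact h
    have hwt : w ≤ t := by
      by_contra hcon
      have h5 : (2 * (2 * t) + 1) * (t + 1) ≤ q * w := Nat.mul_le_mul (by omega) (by omega)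
      nlinarith
    have h5 := (List.all_eq_true.1 c1) (w / 2) (List.mem_range.2 (by omega))
    have h6 : 2 * (w / 2) + 1 = w := by omega
    have h7 : ((2 * t) ^ 2 + 1) / w = q := by rw [hw]; exact Nat.mul_div_cancel _ hw0
    have h8 : ((2 * t) ^ 2 + 1) % w = 0 := Nat.mod_eq_zero_of_dvd ⟨q, by rw [hw, mul_comm]⟩
    rw [h6, h7, h8, hbad] at h5
    exact absurd h5 (by decide)
  · have hq2d : q ^ 2 ∣ (2 * t) ^ 2 + 1 := (pow_dvd_pow q hb).trans h1
    have hqs : q ≤ 2 * t := by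
      by_contra hcon
      have h5 : (2 * t + 1) ^ 2 ≤ q ^ 2 := Nat.pow_le_pow_left (by omega) 2
      have h6 := Nat.le_of_dvd (by omega) hq2d
      nlinarith
    have hq3 : 3 ≤ q := by
      have := hq.two_le
      omega
    have hb22 : b < 22 := by
      by_contra hcon
      have h5 : 2 ^ 22 ≤ q ^ b := (Nat.pow_le_pow_right (by norm_num) (not_lt.1 hcon)).trans (Nat.pow_le_pow_left (by omega) b)
      have h6 := Nat.le_of_dvd (by omega) h1
      have h7 : (2 * t) ^ 2 ≤ 1000 ^ 2 := Nat.pow_le_pow_left (by omega) 2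
      omega
    have h5 := (List.all_eq_true.1 c2) ((q - 3) / 2) (List.mem_range.2 (by omega))
    have h6 : 2 * ((q - 3) / 2) + 3 = q := by omega
    have h7 : ((2 * t) ^ 2 + 1) % q ^ 2 = 0 := Nat.mod_eq_zero_of_dvd hq2d
    rw [h6, h7] at h5
    have h8 : ((List.range 22).all fun b => !(Nat.beq (((2 * t) ^ 2 + 1) % q ^ b) 0 && Nat.blt (2 * (2 * t)) (q ^ b) &&
      bad (2 * t) (q ^ b) q)) = true := by
      simpa using h5
    have h9 := (List.all_eq_true.1 h8) b (List.mem_range.2 hb22)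
    have h10 : ((2 * t) ^ 2 + 1) % q ^ b = 0 := Nat.mod_eq_zero_of_dvd h1
    have h11 : Nat.blt (2 * (2 * t)) (q ^ b) = true := by rw [Nat.blt_eq]; exact h2
    rw [h10, h11, hbad] at h9
    exact absurd h9 (by decide)

end Pool.Agent.Lib.MP_e0c1ed_co.Num
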