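import Pool.Agent.Lib.MP_e0c1ed_co.TransSol
import Pool.Agent.Lib.MP_e0c1ed_co.Main
import Pool.Agent.Lib.MP_e0c1ed_co.Galois
import Pool.Agent.Lib.MP_e0c1ed_co.Num2
import Pool.Agent.Lib.MP_e0c1ed_co.Ab6

/-!
# MP_e0c1ed / Fin2: solvable normal subgroups of point transitive groups
-/

set_option autoImplicit false

namespace Pool.Agent.Lib.MP_e0c1ed_co.Fin2

open Pool.Agent.Results.MP_e0c1ed_co.SelfDualSquare

section
variable {P L : Type*} [Finite P] [Finite L] {I : P → L → Prop} {n k : ℕ}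
variable {G : Type*} [Group G] [Finite G] [MulAction G P] [MulAction G L]

/-- A nontrivial solvable normal subgroup gives a prime power divisor `q ^ b`, `b ≥ 2`, of `(k - 1)² + 1` with three
properties. -/
theorem solvable_case (hI : IsConfiguration I n k) (hT : TrilateralFree I)
    (hn : n = k * (k - 1) ^ 2 + k) (hk3 : 3 ≤ k) (hodd : Odd k)
    (hG : ∀ (g : G) (p : P) (l : L), I (g • p) (g • l) ↔ I p l)
    (hf : ∀ g : G, (∀ x : P, g • x = x) → g = 1) (ht : ∀ x y : P, ∃ g : G, g • x = y)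
    (N : Subgroup G) (hN : N.Normal) (hS : Group.IsSolvable N) (hne : N ≠ ⊥) :
    ∃ q b : ℕ, q.Prime ∧ 2 ≤ b ∧ q ^ b ∣ (k - 1) ^ 2 + 1 ∧ 2 * (k - 1) < q ^ b ∧
      ((q ^ b - 1) % (2 * (k - 1))) * k ≤ (k - 1) ^ 2 - 1 + q ^ b ∧
      2 * (k - 1) * (q - 1) ∣ k * (((k - 1) ^ 2 + 1) / q ^ b) * (k * (q ^ b - 1) - (q ^ b - 1) % (2 * (k - 1))) := by
  classical
  have hk : k % 2 = 1 := Nat.odd_iff.1 hodd
  obtain ⟨q, B, hq, hBn, hBne, hexp⟩ := exists_elementary N hN hS hne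
  have := Fact.mk hq
  have hPB : IsPGroup q B := by
    intro b
    exact ⟨1, by rw [pow_one]; exact Subtype.ext (hexp b.1 b.2)⟩
  obtain ⟨a, ha⟩ := IsPGroup.iff_card.1 hPB
  have hnp : n = k * ((k - 1) ^ 2 + 1) := by rw [hn]; ring
  have hcardP : Nat.card P = n := hI.card_points
  obtain ⟨x0⟩ : Nonempty P := by
    rw [← Finite.card_pos_iff, hcardP, hnp]
    exact Nat.mul_pos (by omega) (by omega)
  have : MulAction.IsPretransitive G P := ⟨ht⟩
  have h1 : (MulAction.orbit B x0).ncard ∣ Nat.card P :=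
    (MulAction.IsBlock.orbit_of_normal (G := G) (N := B) x0).ncard_dvd_card
      ⟨x0, MulAction.mem_orbit_self x0⟩
  have h2 : (MulAction.orbit B x0).ncard ∣ q ^ a := by
    rw [← ha, ← MulAction.index_stabilizer]
    exact Subgroup.index_dvd_card _
  obtain ⟨b, hb, hm⟩ := (Nat.dvd_prime_pow hq).1 h2
  have h3 := Main.long_orbits hI hT hn hk hk3 hG hf ht B hBne x0
  have hU := Upper.upper hI hT hn hk hk3 hG ht B x0
  rw [hcardP, hnp, hm] at h1
  rw [hm] at h3
  have hb0 : b ≠ 0 := by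
    rintro rfl
    rw [pow_zero] at h3
    omega
  have hcop : Nat.Coprime k ((k - 1) ^ 2 + 1) := by
    obtain ⟨t, hkt⟩ := hodd
    have e1 : k - 1 = 2 * t := by omega
    rw [e1, hkt]
    have e2 : (2 * t) ^ 2 + 1 = 2 + (2 * t + 1) * (2 * t - 1) := by
      rcases Nat.eq_zero_or_pos t with h | h
      · omega
      · obtain ⟨u, hu⟩ : ∃ u, 2 * t = u + 1 := ⟨2 * t - 1, by omega⟩
        rw [hu, Nat.add_sub_cancel]
        ring
    rw [e2, Nat.coprime_add_mul_left_right]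
    exact (Nat.coprime_two_right).2 ⟨t, rfl⟩
  have h4 : q ^ b ∣ (k - 1) ^ 2 + 1 := by
    rcases (hcop.isPrimePow_dvd_mul (hq.isPrimePow.pow hb0)).1 h1 with h4 | h4
    · have := Nat.le_of_dvd (by omega) h4
      omega
    · exact h4
  have hD := Galois.galois_case hI hT hn hk hk3 hG ht B q hq hexp x0 (by rw [hm]; exact h4)
  rw [hm] at hU hD
  refine ⟨q, b, hq, ?_, h4, h3, hU, hD⟩
  by_contra hb2
  have hb1 : b = 1 := by omega
  rw [hb1, pow_one] at h3 h4 hm
  have hst : MulAction.stabilizer B x0 = ⊥ := by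
    rw [Subgroup.eq_bot_iff_forall]
    intro c hc
    have h5 : (c : G) = 1 := hf _ fun y =>
      point_fixed hI hT hn (by omega) hG q (by omega) (c : G) (hexp c.1 c.2) x0 (MulAction.mem_stabilizer_iff.1 hc) y
    exact Subtype.ext h5
  have hB : Nat.card B = q := by
    rw [← hm, ← MulAction.index_stabilizer, hst, Subgroup.index_bot]
  exact Ab6.no_prime' hI hT hn hk hk3 hG hf ht B q hq h3 hB h4

end

end Pool.Agent.Lib.MP_e0c1ed_co.Fin2
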