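import Pool.Agent.Lib.MP_e0c1ed_co.Norm

/-!
# MP_e0c1ed / G1: flag transitive groups, `k` a prime: the two cases for a normal subgroup
-/

set_option autoImplicit false

namespace Pool.Agent.Lib.MP_e0c1ed_co.G1

open Pool.Agent.Results.MP_e0c1ed_co.SelfDualSquare

variable {P L G : Type*} [Finite P] [Finite L] [Group G] [Finite G] [MulAction G P] [MulAction G L]
  {I : P → L → Prop} {n k : ℕ}

/-- one flag: the stabilizer of `x` in `N` fixes `l`, or it is transitive on the lines on `x` -/
private theorem local_dich (hI : IsConfiguration I n k)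
    (hG : ∀ (g : G) (p : P) (l : L), I (g • p) (g • l) ↔ I p l) (hkp : k.Prime)
    (hfl : ∀ (p q : P) (l m : L), I p l → I q m → ∃ g : G, g • p = q ∧ g • l = m)
    (N : Subgroup G) [hNn : N.Normal] (x : P) (l : L) (hxl : I x l) :
    (∀ g ∈ N, g • x = x → g • l = l) ∨ (∀ m : L, I x m → ∃ g ∈ N, g • x = x ∧ g • l = m) := by
  classical
  let H : Subgroup G := MulAction.stabilizer G x
  let A : SubMulAction H L :=
    { carrier := {m | I x m}
      smul_mem' := by
        intro d m hm
        have h1 : (d : G) • x = x := d.2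
        have h2 := (hG (d : G) x m).2 hm
        rw [h1] at h2
        exact h2 }
  have hcard : Nat.card A = k := by
    rw [← hI.card_through_point x, ← Nat.card_coe_set_eq]
    rfl
  have hpre : MulAction.IsPretransitive H A := by
    constructor
    rintro ⟨m, hm⟩ ⟨m', hm'⟩
    obtain ⟨d, h1, h2⟩ := hfl x x m m' hm hm'
    exact ⟨⟨d, h1⟩, Subtype.ext h2⟩
  have hK : (N.subgroupOf H).Normal := ⟨fun t ht h => hNn.conj_mem t ht h⟩
  let a : A := ⟨l, hxl⟩
  have h1 : (MulAction.orbit (N.subgroupOf H) a).ncard ∣ Nat.card A :=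
    (MulAction.IsBlock.orbit_of_normal (G := H) (N := N.subgroupOf H) a).ncard_dvd_card ⟨a, MulAction.mem_orbit_self a⟩
  rw [hcard] at h1
  rcases (Nat.dvd_prime hkp).1 h1 with h4 | h4
  · left
    intro g hg hgx
    obtain ⟨c, hc⟩ := Set.ncard_eq_one.1 h4
    have h5 : a ∈ MulAction.orbit (N.subgroupOf H) a := MulAction.mem_orbit_self a
    have h6 : (⟨⟨g, hgx⟩, hg⟩ : N.subgroupOf H) • a ∈ MulAction.orbit (N.subgroupOf H) a := MulAction.mem_orbit _ _
    rw [hc] at h5 h6
    have h7 : (⟨⟨g, hgx⟩, hg⟩ : N.subgroupOf H) • a = a := h6.trans h5.symm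
    exact congrArg Subtype.val h7
  · right
    intro m hm
    have h5 : MulAction.orbit (N.subgroupOf H) a = Set.univ := by
      apply Set.eq_of_subset_of_ncard_le (Set.subset_univ _)
      rw [Set.ncard_univ, hcard, h4]
    have h6 : (⟨m, hm⟩ : A) ∈ MulAction.orbit (N.subgroupOf H) a := by
      rw [h5]
      exact Set.mem_univ _
    obtain ⟨d, hd⟩ := h6
    exact ⟨((d : H) : G), d.2, (d : H).2, congrArg Subtype.val hd⟩

/-- **`k` a prime, `G` flag transitive, `N` normal:** either every element of `N` fixing a point fixes all lines on it,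
or the stabilizer in `N` of every point is transitive on the lines on this point. -/
theorem dich (hI : IsConfiguration I n k) (_hn : n = k * (k - 1) ^ 2 + k)
    (_hk3 : 3 ≤ k) (hG : ∀ (g : G) (p : P) (l : L), I (g • p) (g • l) ↔ I p l) (hkp : k.Prime)
    (hfl : ∀ (p q : P) (l m : L), I p l → I q m → ∃ g : G, g • p = q ∧ g • l = m)
    (N : Subgroup G) [hNn : N.Normal] :
    (∀ g ∈ N, ∀ (x : P) (l : L), g • x = x → I x l → g • l = l) ∨
      (∀ (x : P) (l m : L), I x l → I x m → ∃ g ∈ N, g • x = x ∧ g • l = m) := by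
  classical
  by_cases h : ∀ g ∈ N, ∀ (x : P) (l : L), g • x = x → I x l → g • l = l
  · exact Or.inl h
  · right
    push Not at h
    obtain ⟨g, hg, x, l, hgx, hxl, hgl⟩ := h
    intro y m m' hym hym'
    rcases local_dich hI hG hkp hfl N y m hym with h1 | h1
    · exfalso
      obtain ⟨d, hd1, hd2⟩ := hfl x y l m hxl hym
      apply hgl
      have h2 := h1 (d * g * d⁻¹) (hNn.conj_mem g hg d) (by
        rw [← hd1, smul_smul, inv_mul_cancel_right, mul_smul, hgx])
      rw [← hd2, smul_smul, inv_mul_cancel_right, mul_smul] at h2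
      exact smul_left_cancel d h2
    · exact h1 m' hym'

end Pool.Agent.Lib.MP_e0c1ed_co.G1
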