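import Pool.Agent.Lib.MP_e0c1ed_co.M6

/-!
# MP_e0c1ed / G2: no semiregular subgroups of order divisible by the prime `k` and larger than `2 (k - 1)`
-/

set_option autoImplicit false

namespace Pool.Agent.Lib.MP_e0c1ed_co.G2

open Pool.Agent.Results.MP_e0c1ed_co.SelfDualSquare Pool.Agent.Lib.MP_e0c1ed_co

variable {P L G : Type*} [Finite P] [Finite L] [Group G] [Finite G] [MulAction G P] [MulAction G L]
  {I : P → L → Prop} {n k : ℕ}

/-- For a prime `k` there is no group of automorphisms which acts freely on the points and whose order is divisible by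
`k` and larger than `2 (k - 1)`. -/
theorem no_semi (hI : IsConfiguration I n k) (hT : TrilateralFree I) (hn : n = k * (k - 1) ^ 2 + k)
    (hk : k % 2 = 1) (hk3 : 3 ≤ k) (hG : ∀ (g : G) (p : P) (l : L), I (g • p) (g • l) ↔ I p l) (hkp : k.Prime)
    (N : Subgroup G) (hkN : k ∣ Nat.card N) (hN : 2 * (k - 1) < Nat.card N)
    (hfree : ∀ g ∈ N, g ≠ 1 → ∀ x : P, g • x ≠ x) : False := by
  classical
  have := Fact.mk hkp
  obtain ⟨A, hA⟩ : ∃ A : Subgroup G, A = N := ⟨N, rfl⟩
  have hsemi : ∀ a ∈ A, a ≠ 1 → ∀ x : P, a • x ≠ x := hA ▸ hfree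
  rw [← hA] at hkN hN
  set Q := (k - 1) ^ 2 + 1 with hQ
  have hcard : Nat.card P = k * Q := by
    rw [hI.card_points, hn, hQ]
    ring
  have hdvd : Nat.card A ∣ Nat.card P := by
    refine M3.card_dvd_of_free (R := A) (X := P) ?_
    intro r hr x hx
    exact hsemi r.1 r.2 (fun h => hr (Subtype.ext h)) x hx
  obtain ⟨m, hcA⟩ := hkN
  rw [hcard, hcA] at hdvd
  have hmQ : m ∣ Q := Nat.dvd_of_mul_dvd_mul_left hkp.pos hdvd
  have hQ2 : Q = k * (k - 2) + 2 := by
    obtain ⟨t, rfl⟩ : ∃ t, k = t + 2 := ⟨k - 2, by omega⟩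
    rw [hQ, show t + 2 - 1 = t + 1 by omega, show t + 2 - 2 = t by omega]
    ring
  have hkQ : ¬ k ∣ Q := by
    rw [hQ2]
    intro h
    have h1 := (Nat.dvd_add_right (Dvd.intro (k - 2) rfl)).1 h
    have := Nat.le_of_dvd (by omega) h1
    omega
  have hk2 : ¬ k ^ 2 ∣ Nat.card A := by
    rw [hcA, pow_two]
    intro h
    exact hkQ ((Nat.dvd_of_mul_dvd_mul_left hkp.pos h).trans hmQ)
  let P0 : Sylow k A := default
  obtain ⟨e, he⟩ := IsPGroup.iff_card.1 P0.isPGroup'
  have hidx := Subgroup.card_mul_index (P0 : Subgroup A)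
  have he1 : e = 1 := by
    rcases Nat.lt_or_ge e 1 with h | h
    · exfalso
      have h1 : e = 0 := by omega
      have h7 : ¬ k ∣ (P0 : Subgroup A).index := P0.not_dvd_index
      rw [he, h1, pow_zero, one_mul, hcA] at hidx
      exact h7 (hidx ▸ Dvd.intro _ rfl)
    · by_contra h1
      exact hk2 ((pow_dvd_pow k (by omega : 2 ≤ e)).trans (he ▸ Subgroup.card_subgroup_dvd_card _))
  rw [he1, pow_one] at he
  set Nn : Subgroup A := Subgroup.normalizer ((P0 : Subgroup A) : Set A) with hNn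
  have hPN : (P0 : Subgroup A) ≤ Nn := Subgroup.le_normalizer
  -- the normalizer is a `k`-group
  have hprime : ∀ q : ℕ, q.Prime → q ∣ Nat.card Nn → q = k := by
    intro q hq hqN
    by_contra hqk
    have hqF := Fact.mk hq
    have hqA : q ∣ k * m := hcA ▸ hqN.trans (Subgroup.card_subgroup_dvd_card _)
    have hqk' : ¬ q ∣ k := fun h => hqk ((Nat.prime_dvd_prime_iff_eq hq hkp).1 h)
    have hqQ : q ∣ Q := (((Nat.Prime.dvd_mul hq).1 hqA).resolve_left hqk').trans hmQ
    have hqk1 : ¬ q ∣ k - 1 := by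
      intro h
      have h1 : q ∣ (k - 1) ^ 2 := Dvd.dvd.pow h (by norm_num)
      have h2 : q ∣ 1 := (Nat.dvd_add_right h1).1 hqQ
      exact hq.one_lt.ne' (Nat.dvd_one.1 h2)
    obtain ⟨c, hc⟩ := exists_prime_orderOf_dvd_card' (G := Nn) q hqN
    have hcq : (c : A) ^ q = 1 := by
      have := pow_orderOf_eq_one c
      rw [hc] at this
      exact congrArg Subtype.val this
    have hc1 : (c : A) ≠ 1 := by
      intro h
      have h7 : c = 1 := Subtype.ext h
      rw [h7, orderOf_one] at hc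
      exact hq.one_lt.ne hc
    have hS : ∀ b ∈ (((P0 : Subgroup A) : Set A) \ {1}),
        ConjAct.toConjAct (c : A) • b ∈ (((P0 : Subgroup A) : Set A) \ {1}) := by
      rintro b ⟨hb, hb1⟩
      rw [ConjAct.toConjAct_smul]
      refine ⟨(Subgroup.mem_normalizer_iff.1 c.2 b).1 hb, ?_⟩
      intro h
      apply hb1
      rw [Set.mem_singleton_iff] at h ⊢
      exact conj_eq_one_iff.1 h
    have h7 := set_modEq (ConjAct.toConjAct (c : A)) q (by rw [← map_pow, hcq, map_one])
      (((P0 : Subgroup A) : Set A) \ {1}) hS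
    have h8 : (((P0 : Subgroup A) : Set A) \ {1}).ncard = k - 1 := by
      rw [Set.ncard_sdiff_singleton_of_mem (P0 : Subgroup A).one_mem, ← Nat.card_coe_set_eq]
      change Nat.card (P0 : Subgroup A) - 1 = _
      rw [he]
    have h9 : {b ∈ (((P0 : Subgroup A) : Set A) \ {1}) | ConjAct.toConjAct (c : A) • b = b}.Nonempty := by
      by_contra h
      rw [Set.not_nonempty_iff_eq_empty] at h
      rw [h, Set.ncard_empty, h8, Nat.modEq_zero_iff_dvd] at h7
      exact hqk1 h7
    obtain ⟨a, ⟨haP, ha1⟩, hab⟩ := h9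
    rw [ConjAct.toConjAct_smul] at hab
    have hca : (c : A) * a = a * c := by
      calc (c : A) * a = ((c : A) * a * (c : A)⁻¹) * c := by group
        _ = a * c := by rw [hab]
    have hak : a ^ k = 1 := by
      have h10 : (⟨a, haP⟩ : (P0 : Subgroup A)) ^ (Nat.card (P0 : Subgroup A)) = 1 := pow_card_eq_one'
      have h11 : a ^ (Nat.card (P0 : Subgroup A)) = 1 := congrArg Subtype.val h10
      rwa [he] at h11
    -- in `G`
    have hakG : (a : G) ^ k = 1 := congrArg Subtype.val hak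
    have haG1 : (a : G) ≠ 1 := fun h => ha1 (Subtype.ext h)
    have hcqG : ((c : A) : G) ^ q = 1 := congrArg Subtype.val hcq
    have hcG1 : ((c : A) : G) ≠ 1 := fun h => hc1 (Subtype.ext h)
    have hcaG : ((c : A) : G) * (a : G) = (a : G) * ((c : A) : G) := congrArg Subtype.val hca
    have key := M1.moved_sum hI hT hn hk hk3 hG hkp (a : G) hakG (hsemi (a : G) a.2 haG1)
    have hdvd : q ∣ (k - 1) * k ^ 2 := by
      rw [← key]
      apply Finset.dvd_sum
      intro i _
      have hcomm : ((c : A) : G) * (a : G) ^ (i + 1) = (a : G) ^ (i + 1) * ((c : A) : G) :=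
        (Commute.pow_right (show Commute ((c : A) : G) (a : G) from hcaG) (i + 1))
      have h10 := set_modEq ((c : A) : G) q hcqG _ (fun x hx => moved_inv hG ((a : G) ^ (i + 1)) ((c : A) : G) hcomm x hx)
      have h11 : {x ∈ {p : P | (a : G) ^ (i + 1) • p ≠ p ∧ ∃ l, I p l ∧ I ((a : G) ^ (i + 1) • p) l} |
          ((c : A) : G) • x = x} = ∅ := by
        rw [Set.eq_empty_iff_forall_notMem]
        rintro x ⟨-, hx⟩
        exact hsemi _ (c : A).2 hcG1 x hx
      rw [h11, Set.ncard_empty, Nat.modEq_zero_iff_dvd] at h10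
      exact h10
    rcases (Nat.Prime.dvd_mul hq).1 hdvd with h | h
    · exact hqk1 h
    · exact hqk' (hq.dvd_of_dvd_pow h)
  have hNk : Nat.card Nn = k := by
    have h1 := Nat.eq_prime_pow_of_unique_prime_dvd (n := Nat.card Nn) (p := k) Nat.card_pos.ne'
      (fun {d} hd hdN => hprime d hd hdN)
    set j := (Nat.card Nn).primeFactorsList.length
    have h2 : k ∣ Nat.card Nn := he ▸ Subgroup.card_dvd_of_le hPN
    have h3 : j ≤ 1 := by
      by_contra h
      exact hk2 ((pow_dvd_pow k (by omega : 2 ≤ j)).trans (h1 ▸ Subgroup.card_subgroup_dvd_card Nn))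
    have h4 : j ≠ 0 := by
      intro h
      rw [h1, h, pow_zero] at h2
      exact hkp.one_lt.ne' (Nat.dvd_one.1 h2)
    rw [h1, show j = 1 by omega, pow_one]
  have h1 : Nat.card (Sylow k A) = Nn.index := Sylow.card_eq_index_normalizer P0
  have h2 : Nat.card (Sylow k A) ≡ 1 [MOD k] := card_sylow_modEq_one k A
  have h3 := Subgroup.card_mul_index Nn
  rw [hNk, hcA] at h3
  have h4 : Nn.index = m := Nat.eq_of_mul_eq_mul_left hkp.pos h3
  rw [h1, h4] at h2
  obtain ⟨ω, hω⟩ := hmQ
  rw [hcA] at hN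
  have h5 : ω = 1 := by
    refine M5.arith k m ω hk hk3 hω.symm hN (Or.inl ?_)
    rw [pow_two]
    exact Nat.ModEq.mul_left' k h2
  rw [h5, mul_one] at hω
  rw [← hω, hQ2] at h2
  have h6 : (k * (k - 2) + 2) % k = 1 % k := h2
  rw [Nat.mul_add_mod, Nat.mod_eq_of_lt (by omega : 2 < k), Nat.mod_eq_of_lt (by omega : 1 < k)] at h6
  omega

end Pool.Agent.Lib.MP_e0c1ed_co.G2
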