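import Pool.Agent.Lib.MP_e0c1ed_co.M8
import Pool.Agent.Lib.MP_e0c1ed_co.F2
import Pool.Agent.Lib.MP_e0c1ed_co.G1
import Pool.Agent.Lib.MP_e0c1ed_co.G2
import Pool.Agent.Lib.MP_e0c1ed_co.Aut

/-!
# MP_e0c1ed / G3: `k` a prime: nontrivial normal subgroups of flag transitive groups are flag transitive
-/

set_option autoImplicit false

namespace Pool.Agent.Lib.MP_e0c1ed_co.G3

open Pool.Agent.Results.MP_e0c1ed_co.SelfDualSquare Pool.Agent.Lib.MP_e0c1ed_co

variable {P L G : Type*} [Finite P] [Finite L] [Group G] [Finite G] [MulAction G P] [MulAction G L]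
  {I : P → L → Prop} {n k : ℕ}

/-- a group transitive on the points of every line is transitive on the points -/
theorem point_trans (hI : IsConfiguration I n k) (hT : TrilateralFree I) (hn : n = k * (k - 1) ^ 2 + k)
    (hk3 : 3 ≤ k) (N : Subgroup G)
    (h2 : ∀ (l : L) (x y : P), I x l → I y l → ∃ g ∈ N, g • l = l ∧ g • x = y) (x y : P) :
    ∃ g ∈ N, g • x = y := by
  obtain ⟨l, hl⟩ : ({l | I y l} : Set L).Nonempty := by
    rw [← Set.ncard_pos, hI.card_through_point y]
    omega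
  by_cases hxl : I x l
  · obtain ⟨g, hg, -, h3⟩ := h2 l x y hxl hl
    exact ⟨g, hg, h3⟩
  · obtain ⟨m, z, h3, h4, h5⟩ := gq_axiom hI hT hn (by omega) x l hxl
    obtain ⟨g, hg, -, h6⟩ := h2 m x z h3 h4
    obtain ⟨g', hg', -, h7⟩ := h2 l z y h5 hl
    exact ⟨g' * g, N.mul_mem hg' hg, by rw [mul_smul, h6, h7]⟩

/-- The mixed case is impossible. -/
theorem mixed (hI : IsConfiguration I n k) (hT : TrilateralFree I) (hn : n = k * (k - 1) ^ 2 + k)
    (hk : k % 2 = 1) (hk3 : 3 ≤ k) (hG : ∀ (g : G) (p : P) (l : L), I (g • p) (g • l) ↔ I p l)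
    (htL : ∀ l m : L, ∃ g : G, g • l = m) (N : Subgroup G) [N.Normal]
    (h1 : ∀ g ∈ N, ∀ (x : P) (l : L), g • x = x → I x l → g • l = l)
    (h2 : ∀ (l : L) (x y : P), I x l → I y l → ∃ g ∈ N, g • l = l ∧ g • x = y) : False := by
  classical
  have : Fintype P := Fintype.ofFinite P
  have : Fintype L := Fintype.ofFinite L
  obtain ⟨hI', hT'⟩ := Aut.dualize I n k hI hT
  have hcard : Nat.card P = k * ((k - 1) ^ 2 + 1) := by
    rw [hI.card_points, hn]
    ring
  have hcardL : Nat.card L = k * ((k - 1) ^ 2 + 1) := by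
    rw [hI.card_lines, hn]
    ring
  obtain ⟨l0⟩ : Nonempty L := by
    rw [← Finite.card_pos_iff, hcardL]
    exact Nat.mul_pos (by omega) (Nat.succ_pos _)
  obtain ⟨x0, hx0⟩ : ({x | I x l0} : Set P).Nonempty := by
    rw [← Set.ncard_pos, hI.card_on_line l0]
    omega
  set Λ : Finset L := Finset.univ.filter fun l => l ∈ MulAction.orbit N l0 with hΛ
  have hΛc : Λ.card = (MulAction.orbit N l0).ncard := by
    rw [← Set.ncard_coe_finset]
    congr 1
    ext l
    simp [hΛ]
  have key := Finset.card_mul_eq_card_mul (s := Λ) (t := (Finset.univ : Finset P)) (m := k) (n := 1)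
    (fun l x => I x l) ?_ ?_
  · rw [hΛc, mul_one, Finset.card_univ, ← Nat.card_eq_fintype_card, hcard, mul_comm] at key
    exact Ovoid.no_ovoid hI' hT' hn hk hk3 (fun g l p => hG g p l) htL N l0
      (Nat.eq_of_mul_eq_mul_left (by omega) key)
  · intro l _
    rw [← hI.card_on_line l, ← Set.ncard_coe_finset]
    congr 1
    ext x
    simp [Finset.bipartiteAbove]
  · intro y _
    rw [Finset.card_eq_one]
    obtain ⟨g, hg, hgx⟩ := point_trans hI hT hn hk3 N h2 x0 y
    have hgl : I y (g • l0) := by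
      have := (hG g x0 l0).2 hx0
      rwa [hgx] at this
    refine ⟨g • l0, ?_⟩
    ext m
    simp only [Finset.bipartiteBelow, Finset.mem_filter, hΛ, Finset.mem_univ, true_and, Finset.mem_singleton]
    constructor
    · rintro ⟨⟨⟨h, hh⟩, hhm⟩, hym⟩
      have hhm' : h • l0 = m := hhm
      -- `m = (h g⁻¹) (g l0)`
      have h3 : (h * g⁻¹) • (g • l0) = m := by rw [mul_smul, inv_smul_smul, hhm']
      have h4 : I ((h * g⁻¹) • y) m := by
        have := (hG (h * g⁻¹) y (g • l0)).2 hgl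
        rwa [h3] at this
      obtain ⟨d, hd, hdm, hdy⟩ := h2 m ((h * g⁻¹) • y) y h4 hym
      have h5 : (d * (h * g⁻¹)) • y = y := by rw [mul_smul, hdy]
      have h6 := h1 (d * (h * g⁻¹)) (N.mul_mem hd (N.mul_mem hh (N.inv_mem hg))) y (g • l0) h5 hgl
      rw [mul_smul, h3, hdm] at h6
      exact h6
    · rintro rfl
      exact ⟨⟨⟨g, hg⟩, rfl⟩, hgl⟩

/-- **Let `k` be a prime and `G` flag transitive. Then every nontrivial normal subgroup is flag transitive.** -/
theorem main (hI : IsConfiguration I n k) (hT : TrilateralFree I) (hn : n = k * (k - 1) ^ 2 + k)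
    (hk : k % 2 = 1) (hk3 : 3 ≤ k) (hG : ∀ (g : G) (p : P) (l : L), I (g • p) (g • l) ↔ I p l)
    (hf : ∀ g : G, (∀ p : P, g • p = p) → g = 1) (hkp : k.Prime)
    (hfl : ∀ (p q : P) (l m : L), I p l → I q m → ∃ g : G, g • p = q ∧ g • l = m)
    (N : Subgroup G) [N.Normal] (hne : N ≠ ⊥) :
    ∀ (p q : P) (l m : L), I p l → I q m → ∃ g ∈ N, g • p = q ∧ g • l = m := by
  classical
  have := Fact.mk hkp
  obtain ⟨hI', hT'⟩ := Aut.dualize I n k hI hT
  have hline : ∀ x : P, ∃ l, I x l := by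
    intro x
    have h4 : ({l | I x l} : Set L).Nonempty := by
      rw [← Set.ncard_pos, hI.card_through_point x]
      omega
    exact h4
  have hpoint : ∀ l : L, ∃ x, I x l := by
    intro l
    have h4 : ({x | I x l} : Set P).Nonempty := by
      rw [← Set.ncard_pos, hI.card_on_line l]
      omega
    exact h4
  have ht : ∀ p q : P, ∃ g : G, g • p = q := by
    intro p q
    obtain ⟨l, hl⟩ := hline p
    obtain ⟨m, hm⟩ := hline q
    obtain ⟨g, h1, -⟩ := hfl p q l m hl hm
    exact ⟨g, h1⟩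
  have htL : ∀ l m : L, ∃ g : G, g • l = m := by
    intro l m
    obtain ⟨p, hp⟩ := hpoint l
    obtain ⟨q, hq⟩ := hpoint m
    obtain ⟨g, -, h1⟩ := hfl p q l m hp hq
    exact ⟨g, h1⟩
  have hcard : Nat.card P = k * ((k - 1) ^ 2 + 1) := by
    rw [hI.card_points, hn]
    ring
  obtain ⟨x0⟩ : Nonempty P := by
    rw [← Finite.card_pos_iff, hcard]
    exact Nat.mul_pos (by omega) (Nat.succ_pos _)
  have h2 : k ^ 2 ∣ Nat.card G := M8.flag hI hn hk3 hG hfl
  obtain ⟨R, hR⟩ := Sylow.exists_subgroup_card_pow_prime k h2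
  have d1 := G1.dich hI hn hk3 hG hkp hfl N
  have d2 := G1.dich hI' hn hk3 (fun g l p => hG g p l) hkp
    (fun l m p q hp hq => by
      obtain ⟨g, h3, h4⟩ := hfl p q l m hp hq
      exact ⟨g, h4, h3⟩) N
  rcases d1 with d1 | d1 <;> rcases d2 with d2 | d2
  · exfalso
    have hfree := F2.semi hI hT hn hk3 hf N d1 (fun g hg x l hl hx => d2 g hg l x hl hx)
    have h3 := Main.long_orbits hI hT hn hk hk3 hG hf ht N hne x0
    have h6 : (MulAction.orbit N x0).ncard ∣ Nat.card N := by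
      rw [← MulAction.index_stabilizer N x0]
      exact Subgroup.index_dvd_card _
    exact G2.no_semi hI hT hn hk hk3 hG hkp N (M4.dvd_card hI hT hn hk hk3 hG hf ht hkp R hR N hne)
      (h3.trans_le (Nat.le_of_dvd Nat.card_pos h6)) hfree
  · exfalso
    exact mixed hI hT hn hk hk3 hG htL N d1 d2
  · exfalso
    exact mixed hI' hT' hn hk hk3 (fun g l p => hG g p l) ht N (fun g hg l x hl hx => d2 g hg l x hl hx) d1
  · intro p q l m hpl hqm
    obtain ⟨g, hg, hgp⟩ := point_trans hI hT hn hk3 N d2 p q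
    have h3 : I q (g • l) := by
      have := (hG g p l).2 hpl
      rwa [hgp] at this
    obtain ⟨d, hd, hdq, hdm⟩ := d1 q (g • l) m h3 hqm
    exact ⟨d * g, N.mul_mem hd hg, by rw [mul_smul, hgp, hdq], by rw [mul_smul, hdm]⟩

end Pool.Agent.Lib.MP_e0c1ed_co.G3
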