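import Pool.Agent.Lib.MP_e0c1ed_co.M8
import Pool.Agent.Lib.MP_e0c1ed_co.AS3

/-!
# MP_e0c1ed / G4: `k` a prime, `G` quasiprimitive on the points: almost simple
-/

set_option autoImplicit false

namespace Pool.Agent.Lib.MP_e0c1ed_co.G4

open Pool.Agent.Results.MP_e0c1ed_co.SelfDualSquare Pool.Agent.Lib.MP_e0c1ed_co

variable {P L G : Type*} [Finite P] [Finite L] [Group G] [Finite G] [MulAction G P] [MulAction G L]
  {I : P → L → Prop} {n k : ℕ}

/-- **If `k` is a prime and every nontrivial normal subgroup of `G` is transitive on the points, then `G` is almost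
simple.** -/
theorem main (hI : IsConfiguration I n k) (hT : TrilateralFree I) (hn : n = k * (k - 1) ^ 2 + k)
    (hk : k % 2 = 1) (hk3 : 3 ≤ k) (hkp : k.Prime) (hG : ∀ (g : G) (p : P) (l : L), I (g • p) (g • l) ↔ I p l)
    (hf : ∀ g : G, (∀ p : P, g • p = p) → g = 1) (ht : ∀ p q : P, ∃ g : G, g • p = q)
    (hq : ∀ N : Subgroup G, N.Normal → N ≠ ⊥ → ∀ x y : P, ∃ g ∈ N, g • x = y) :
    ∃ T : Subgroup G, T.Normal ∧ IsSimpleGroup T ∧ (∃ a b : T, a * b ≠ b * a) ∧
      Subgroup.centralizer (T : Set G) = ⊥ := by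
  classical
  by_cases h2 : k ^ 2 ∣ Nat.card G
  · exact M8.main hI hT hn hk hk3 hkp hG hf ht h2
  have hcard : Nat.card P = k * ((k - 1) ^ 2 + 1) := by
    rw [hI.card_points, hn]
    ring
  have hP1 : 1 < Nat.card P := by
    rw [hcard]
    have h3 : 1 ≤ (k - 1) ^ 2 + 1 := Nat.succ_pos _
    nlinarith
  have hnP := Finite.one_lt_card_iff_nontrivial.1 hP1
  obtain ⟨x, y, hxy⟩ := exists_pair_ne P
  have hnt : Nontrivial G := by
    by_contra h
    rw [not_nontrivial_iff_subsingleton] at h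
    obtain ⟨g, hg⟩ := ht x y
    rw [Subsingleton.elim g 1, one_smul] at hg
    exact hxy hg
  refine AS3.almost_simple k hkp h2 ?_
  intro N hN hne
  have h3 : Nat.card P ∣ Nat.card N := by
    have h4 : MulAction.orbit N x = Set.univ := by
      ext z
      simp only [Set.mem_univ, iff_true]
      obtain ⟨g, hg, h⟩ := hq N hN hne x z
      exact ⟨⟨g, hg⟩, h⟩
    rw [← Set.ncard_univ, ← h4, ← MulAction.index_stabilizer]
    exact Subgroup.index_dvd_card _
  rw [hcard] at h3
  refine ⟨(Dvd.intro _ rfl).trans h3, ?_⟩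
  intro h4
  have h5 := Nat.le_of_dvd Nat.card_pos h3
  rw [h4] at h5
  have h6 : 1 ≤ (k - 1) ^ 2 := Nat.one_le_pow _ _ (by omega)
  nlinarith

end Pool.Agent.Lib.MP_e0c1ed_co.G4
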