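import Mathlib

/-!
# MP_e0c1ed / Gal: an idempotent with an action of a group of prime order has constant traces
-/

set_option autoImplicit false

namespace Pool.Agent.Lib.MP_e0c1ed_co.Gal

open Matrix Polynomial

/-- the trace of an idempotent matrix over a field is a natural number -/
theorem trace_idem {K : Type*} [Field K] {n : Type*} [Fintype n] [DecidableEq n] (E : Matrix n n K) (hE : E * E = E) :
    ∃ m : ℕ, E.trace = (m : K) := by
  have h1 : IsIdempotentElem (Matrix.toLin' E) := by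
    show Matrix.toLin' E * Matrix.toLin' E = Matrix.toLin' E
    rw [Module.End.mul_eq_comp, ← Matrix.toLin'_mul, hE]
  have h2 := (LinearMap.IsIdempotentElem.isProj_range _ h1).trace
  refine ⟨Module.finrank K (LinearMap.range (Matrix.toLin' E)), ?_⟩
  rw [← h2, Matrix.trace_toLin'_eq]

theorem coeff_const (p : ℕ) [hp : Fact p.Prime] (ω : ℂ) (hω : IsPrimitiveRoot ω p) (t : ℕ → ℚ) (q : ℚ)
    (h : ∑ r ∈ Finset.range p, ω ^ r * (t r : ℂ) = q) : ∀ r, 1 ≤ r → r < p → t r = t 1 := by
  have hp2 := hp.out.two_le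
  set f : ℚ[X] := ∑ r ∈ Finset.range p, C (t r) * X ^ r - C q with hf
  have hf0 : aeval ω f = 0 := by
    rw [hf, map_sub, map_sum]
    simp only [map_mul, aeval_C, map_pow, aeval_X]
    rw [sub_eq_zero]
    have h1 : ∑ r ∈ Finset.range p, (algebraMap ℚ ℂ) (t r) * ω ^ r = ∑ r ∈ Finset.range p, ω ^ r * (t r : ℂ) :=
      Finset.sum_congr rfl fun r _ => mul_comm _ _
    rw [h1, h]
    rfl
  have hdvd : cyclotomic p ℚ ∣ f := by
    rw [cyclotomic_eq_minpoly_rat hω hp.out.pos]
    exact minpoly.dvd ℚ ω hf0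
  obtain ⟨g, hg⟩ := hdvd
  have hcoef : ∀ r, 1 ≤ r → r < p → f.coeff r = t r := by
    intro r h1 h2
    rw [hf, coeff_sub, finset_sum_coeff, coeff_C, if_neg (by omega), sub_zero, Finset.sum_eq_single r]
    · simp
    · intro i _ hi
      rw [coeff_C_mul, coeff_X_pow, if_neg (Ne.symm hi), mul_zero]
    · intro h3
      exact absurd (Finset.mem_range.2 h2) h3
  have hdeg : f.natDegree ≤ p - 1 := by
    rw [natDegree_le_iff_coeff_eq_zero]
    intro N hN
    rw [hf, coeff_sub, finset_sum_coeff, coeff_C, if_neg (by omega), sub_zero]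
    apply Finset.sum_eq_zero
    intro i hi
    have := Finset.mem_range.1 hi
    rw [coeff_C_mul, coeff_X_pow, if_neg (by omega), mul_zero]
  have hgc : ∃ c : ℚ, g = C c := by
    by_cases hg0 : g = 0
    · exact ⟨0, by rw [hg0, C_0]⟩
    · refine ⟨g.coeff 0, eq_C_of_natDegree_eq_zero ?_⟩
      have h1 : f.natDegree = (cyclotomic p ℚ).natDegree + g.natDegree := by
        rw [hg, natDegree_mul (cyclotomic_ne_zero p ℚ) hg0]
      rw [natDegree_cyclotomic, Nat.totient_prime hp.out] at h1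
      omega
  obtain ⟨c, rfl⟩ := hgc
  have hall : ∀ r, 1 ≤ r → r < p → t r = c := by
    intro r h1 h2
    rw [← hcoef r h1 h2, hg, coeff_mul_C, cyclotomic_prime, finset_sum_coeff, Finset.sum_eq_single r]
    · simp
    · intro i _ hi
      rw [coeff_X_pow, if_neg (Ne.symm hi)]
    · intro h3
      exact absurd (Finset.mem_range.2 h2) h3
  intro r h1 h2
  rw [hall r h1 h2, hall 1 le_rfl (by omega)]

theorem const_trace {n : Type*} [Fintype n] [DecidableEq n] (p : ℕ) [hp : Fact p.Prime] (T : ℕ → Matrix n n ℚ)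
    (hmul : ∀ a b, T a * T b = T (a + b)) (hper : ∀ a, T (a % p) = T a) :
    ∀ r, 1 ≤ r → r < p → (T r).trace = (T 1).trace := by
  have hp0 : (p : ℂ) ≠ 0 := by exact_mod_cast hp.out.ne_zero
  set ω : ℂ := Complex.exp (2 * Real.pi * Complex.I / p) with hω'
  have hω : IsPrimitiveRoot ω p := Complex.isPrimitiveRoot_exp p hp.out.ne_zero
  have hωp : ∀ x : ℕ, ω ^ (x % p) = ω ^ x := fun x => by
    conv_rhs => rw [← Nat.div_add_mod x p, pow_add, pow_mul, hω.pow_eq_one, one_pow, one_mul]
  set U : ℕ → Matrix n n ℂ := fun r => (T r).map (algebraMap ℚ ℂ) with hU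
  have hUmul : ∀ a b, U a * U b = U (a + b) := by
    intro a b
    rw [hU]
    show (T a).map (algebraMap ℚ ℂ) * (T b).map (algebraMap ℚ ℂ) = (T (a + b)).map (algebraMap ℚ ℂ)
    rw [← hmul a b, Matrix.map_mul]
  set φ : ZMod p → Matrix n n ℂ := fun r => ω ^ r.val • U r.val with hφ
  have hφmul : ∀ a b, φ a * φ b = φ (a + b) := by
    intro a b
    show (ω ^ a.val • U a.val) * (ω ^ b.val • U b.val) = ω ^ (a + b).val • U (a + b).val
    rw [ZMod.val_add, hωp, Matrix.smul_mul, Matrix.mul_smul, smul_smul, ← pow_add, hUmul]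
    congr 1
    show (T _).map (algebraMap ℚ ℂ) = (T _).map (algebraMap ℚ ℂ)
    rw [hper]
  set E : Matrix n n ℂ := (1 / (p : ℂ)) • ∑ r : ZMod p, φ r with hE
  have hEE : E * E = E := by
    rw [hE, Matrix.smul_mul, Matrix.mul_smul, Finset.sum_mul_sum]
    have h1 : ∀ a : ZMod p, ∑ b : ZMod p, φ a * φ b = ∑ b : ZMod p, φ b := by
      intro a
      rw [← Equiv.sum_comp (Equiv.addLeft a) (fun b => φ b)]
      exact Finset.sum_congr rfl fun b _ => hφmul a b
    rw [Finset.sum_congr rfl (fun a _ => h1 a), Finset.sum_const, Finset.card_univ, ZMod.card, smul_smul,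
      ← Nat.cast_smul_eq_nsmul ℂ, smul_smul]
    congr 1
    field_simp
  obtain ⟨m, hm⟩ := trace_idem E hEE
  have h2 : ∑ r ∈ Finset.range p, ω ^ r * (((T r).trace : ℚ) : ℂ) = ((p * m : ℚ) : ℂ) := by
    have h3 : ∀ r, (U r).trace = (((T r).trace : ℚ) : ℂ) := by
      intro r
      show ∑ i, (algebraMap ℚ ℂ) (T r i i) = _
      rw [← map_sum]
      rfl
    have h4 : ∑ r : ZMod p, ω ^ r.val * (((T r.val).trace : ℚ) : ℂ) = p * m := by
      have h5 : E.trace = (1 / (p : ℂ)) * ∑ r : ZMod p, ω ^ r.val * (((T r.val).trace : ℚ) : ℂ) := by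
        rw [hE, Matrix.trace_smul, Matrix.trace_sum, smul_eq_mul]
        congr 1
        refine Finset.sum_congr rfl fun r _ => ?_
        show (ω ^ r.val • U r.val).trace = _
        rw [Matrix.trace_smul, h3, smul_eq_mul]
      rw [hm] at h5
      rw [h5]
      field_simp
    push_cast
    rw [← h4]
    symm
    refine Finset.sum_nbij (fun r : ZMod p => r.val) ?_ ?_ ?_ ?_
    · intro r _
      exact Finset.mem_coe.2 (Finset.mem_range.2 (ZMod.val_lt r))
    · intro a _ b _ hab
      exact ZMod.val_injective p hab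
    · intro r hr
      have hr' : r < p := Finset.mem_range.1 (Finset.mem_coe.1 hr)
      exact ⟨(r : ZMod p), Finset.mem_coe.2 (Finset.mem_univ _), ZMod.val_cast_of_lt hr'⟩
    · intro r _
      rfl
  exact coeff_const p ω hω (fun r => (T r).trace) _ h2

end Pool.Agent.Lib.MP_e0c1ed_co.Gal
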