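import Pool.Agent.Lib.MP_e0c1ed_co.Bens

/-!
# MP_e0c1ed / Grp: Benson's congruence for an automorphism and for a group
-/

set_option autoImplicit false

namespace Pool.Agent.Lib.MP_e0c1ed_co.Grp

open Finset Pool.Agent.Results.MP_e0c1ed_co.SelfDualSquare Bens

section
variable {P L B : Type*} [Fintype P] [Fintype L] [DecidableEq P] [Group B] [MulAction B P] [MulAction B L]
  {I : P → L → Prop} {n k : ℕ}

theorem inc_inv (hinv : ∀ (b : B) x l, I x l → I (b • x) (b • l)) (b : B) (x : P) (l : L) :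
    inc I (b • x) (b • l) = inc I x l := by
  have h1 : I (b • x) (b • l) ↔ I x l := by
    constructor
    · intro h
      have := hinv b⁻¹ _ _ h
      simpa using this
    · exact hinv b x l
  by_cases h : I x l
  · rw [inc_of I h, inc_of I (h1.2 h)]
  · rw [inc_of_not I h, inc_of_not I (fun h' => h (h1.1 h'))]

theorem S_inv (hinv : ∀ (b : B) x l, I x l → I (b • x) (b • l)) (b : B) (p q : P) :
    S I (b • p) (b • q) = S I p q := by
  unfold S
  rw [← Equiv.sum_comp (MulAction.toPerm b : Equiv.Perm L)]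
  refine Finset.sum_congr rfl fun m _ => ?_
  rw [MulAction.toPerm_apply, inc_inv hinv, inc_inv hinv]

theorem F_inv (hinv : ∀ (b : B) x l, I x l → I (b • x) (b • l)) (b : B) (p q : P) :
    F I n k (b • p) (b • q) = F I n k p q := by
  unfold F
  rw [S_inv hinv]

/-- `b` composed with the projection -/
noncomputable def T (I : P → L → Prop) (n k : ℕ) (b : B) : Matrix P P ℚ := Matrix.of fun x y => F I n k x (b • y)

theorem T_mul (hI : IsConfiguration I n k) (hT : TrilateralFree I) (hn : n = k * (k - 1) ^ 2 + k) (hk : 2 ≤ k)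
    (hinv : ∀ (b : B) x l, I x l → I (b • x) (b • l)) (b c : B) : T I n k b * T I n k c = T I n k (b * c) := by
  ext x y
  rw [Matrix.mul_apply]
  have h1 : ∀ z, T I n k b x z * T I n k c z y = F I n k x (b • z) * F I n k (b • z) ((b * c) • y) := by
    intro z
    show F I n k x (b • z) * F I n k z (c • y) = _
    rw [mul_smul, F_inv hinv]
  rw [Finset.sum_congr rfl (fun z _ => h1 z)]
  exact (Equiv.sum_comp (MulAction.toPerm b : Equiv.Perm P)
    (fun z => F I n k x z * F I n k z ((b * c) • y))).trans (FF hI hT hn hk _ _)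

theorem T_pow (hI : IsConfiguration I n k) (hT : TrilateralFree I) (hn : n = k * (k - 1) ^ 2 + k) (hk : 2 ≤ k)
    (hinv : ∀ (b : B) x l, I x l → I (b • x) (b • l)) (b : B) (m : ℕ) :
    (T I n k b) ^ (m + 1) = T I n k (b ^ (m + 1)) := by
  induction m with
  | zero => simp
  | succ m ih => rw [pow_succ, ih, T_mul hI hT hn hk hinv, pow_succ b (m + 1)]

theorem T_trace (hI : IsConfiguration I n k) (hn0 : (n : ℚ) ≠ 0) (b : B) :
    (T I n k b).trace = (∑ x, S I x (b • x) - (k : ℚ) ^ 2) / (2 * k - 2) := by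
  have h1 : (T I n k b).trace = ∑ x, (S I x (b • x) - (k : ℚ) ^ 2 / n) / (2 * k - 2) := rfl
  rw [h1, ← Finset.sum_div, Finset.sum_sub_distrib, Finset.sum_const, Finset.card_univ, nsmul_eq_mul,
    ← Nat.card_eq_fintype_card, hI.card_points, mul_div_cancel₀ _ hn0]

theorem n_ne (hn : n = k * (k - 1) ^ 2 + k) (hk : 2 ≤ k) : (n : ℚ) ≠ 0 := by
  have : 0 < n := by rw [hn]; omega
  exact_mod_cast this.ne'

/-- Benson's congruence -/
theorem benson [Finite B] (hI : IsConfiguration I n k) (hT : TrilateralFree I) (hn : n = k * (k - 1) ^ 2 + k) (hk : 2 ≤ k)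
    (hinv : ∀ (b : B) x l, I x l → I (b • x) (b • l)) (b : B) :
    ∃ z : ℤ, ∑ x, S I x (b • x) = (k : ℚ) ^ 2 + (2 * k - 2) * z := by
  have hk1 : (2 * (k : ℚ) - 2) ≠ 0 := by
    have : (2 : ℚ) ≤ k := by exact_mod_cast hk
    intro h
    linarith
  obtain ⟨z, hz⟩ := IntTrace.int_trace (T I n k b) (orderOf b) (orderOf_pos b) (by
    rw [T_pow hI hT hn hk hinv, pow_succ, pow_orderOf_eq_one, one_mul])
  refine ⟨z, ?_⟩
  rw [T_trace hI (n_ne hn hk), div_eq_iff hk1] at hz
  linarith

/-- the average of Benson's congruence -/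
theorem average [Fintype B] (hI : IsConfiguration I n k) (hT : TrilateralFree I) (hn : n = k * (k - 1) ^ 2 + k)
    (hk : 2 ≤ k) (hinv : ∀ (b : B) x l, I x l → I (b • x) (b • l)) :
    ∃ a : ℕ, ∑ b : B, ∑ x, S I x (b • x) = Fintype.card B * ((k : ℚ) ^ 2 + (2 * k - 2) * a) := by
  have hk1 : (2 * (k : ℚ) - 2) ≠ 0 := by
    have : (2 : ℚ) ≤ k := by exact_mod_cast hk
    intro h
    linarith
  have hB : (Fintype.card B : ℚ) ≠ 0 := by
    exact_mod_cast Fintype.card_ne_zero
  set E : Matrix P P ℚ := (1 / (Fintype.card B : ℚ)) • ∑ b : B, T I n k b with hE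
  have hEE : E * E = E := by
    rw [hE, Matrix.smul_mul, Matrix.mul_smul, Finset.sum_mul_sum]
    have h1 : ∀ b : B, ∑ c : B, T I n k b * T I n k c = ∑ c : B, T I n k c := by
      intro b
      rw [← Equiv.sum_comp (Equiv.mulLeft b) (fun c => T I n k c)]
      exact Finset.sum_congr rfl fun c _ => T_mul hI hT hn hk hinv b c
    rw [Finset.sum_congr rfl (fun b _ => h1 b), Finset.sum_const, Finset.card_univ, smul_smul, ← Nat.cast_smul_eq_nsmul ℚ,
      smul_smul]
    congr 1
    field_simp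
  obtain ⟨a, ha, -⟩ := det_idem E hEE 1
  refine ⟨a, ?_⟩
  rw [hE, Matrix.trace_smul, Matrix.trace_sum, Finset.sum_congr rfl (fun b _ => T_trace hI (n_ne hn hk) b),
    ← Finset.sum_div, Finset.sum_sub_distrib, Finset.sum_const, Finset.card_univ, nsmul_eq_mul, smul_eq_mul] at ha
  rw [one_div, inv_mul_eq_iff_eq_mul₀ hB, div_eq_iff hk1] at ha
  linarith

end

end Pool.Agent.Lib.MP_e0c1ed_co.Grp
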