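import Pool.Agent.Lib.MP_e0c1ed_co.F1
import Pool.Agent.Lib.MP_e0c1ed_co.F2

/-!
# MP_e0c1ed / H1: the orbits of a normal subgroup of a flag transitive group, data

Let `G` be flag transitive and `N ≠ 1` normal. The number `e` of points of the orbit `N x` on a line `l` with `x` on `l`
does not depend on the flag. Averaging Benson's formula over `N` gives `r e = k`, where `r` is the number of orbits.
-/

set_option autoImplicit false

namespace Pool.Agent.Lib.MP_e0c1ed_co.H1

open Finset Pool.Agent.Results.MP_e0c1ed_co.SelfDualSquare Pool.Agent.Lib.MP_e0c1ed_co.Bens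

private theorem arith (k e r a : ℕ) (hk : k % 2 = 1) (hk3 : 3 ≤ k) (he : 2 ≤ e)
    (h : r * (k * e) = k ^ 2 + (2 * k - 2) * a) (ha : a + 1 ≤ r) : r * e = k ∧ 3 ≤ e := by
  obtain ⟨s, rfl⟩ : ∃ s, k = s + 1 := ⟨k - 1, by omega⟩
  have e0 : 2 * (s + 1) - 2 = 2 * s := by omega
  rw [e0] at h
  have hcop : Nat.Coprime (s + 1) (2 * s) := by
    refine Nat.Coprime.mul_right ?_ ?_
    · rw [Nat.coprime_two_right]
      exact Nat.odd_iff.2 hk
    · simp
  have hdvd : (s + 1) ∣ a := by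
    have h1 : (s + 1) ∣ 2 * s * a := by
      have h2 : (s + 1) ∣ (s + 1) ^ 2 + 2 * s * a := ⟨r * e, by rw [← h]; ring⟩
      exact (Nat.dvd_add_right (dvd_pow_self _ two_ne_zero)).1 h2
    exact hcop.dvd_of_dvd_mul_left h1
  obtain ⟨j, rfl⟩ := hdvd
  have h2 : r * e = (s + 1) + 2 * s * j := by
    have h3 : (s + 1) * (r * e) = (s + 1) * ((s + 1) + 2 * s * j) := by
      calc (s + 1) * (r * e) = r * ((s + 1) * e) := by ring
        _ = (s + 1) ^ 2 + 2 * s * ((s + 1) * j) := h
        _ = (s + 1) * ((s + 1) + 2 * s * j) := by ring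
    exact Nat.eq_of_mul_eq_mul_left (by omega) h3
  have he3 : 3 ≤ e := by
    by_contra hcon
    have h3 : e = 2 := by omega
    subst h3
    have h4 : 2 * s * j = 2 * (s * j) := by ring
    omega
  have hj : j = 0 := by
    by_contra hj0
    have hj1 : 1 ≤ j := by omega
    have h3 : ((s + 1) * j + 1) * 3 ≤ r * e := Nat.mul_le_mul ha he3
    have h4 : s ≤ s * j := Nat.le_mul_of_pos_right s hj1
    nlinarith
  subst hj
  exact ⟨by simpa using h2, he3⟩

section
variable {P L G : Type*} [Finite P] [Finite L] [Group G] [Finite G] [MulAction G P] [MulAction G L]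
  {I : P → L → Prop} {n k : ℕ}

/-- the number of points of the orbit of `x` on `l` is the same for all flags `(x, l)` -/
private theorem const (hG : ∀ (g : G) (p : P) (l : L), I (g • p) (g • l) ↔ I p l)
    (N : Subgroup G) [N.Normal] (g : G) (x : P) (l : L) :
    {y | I y (g • l) ∧ y ∈ MulAction.orbit N (g • x)}.ncard = {y | I y l ∧ y ∈ MulAction.orbit N x}.ncard := by
  have h1 : {y | I y (g • l) ∧ y ∈ MulAction.orbit N (g • x)} =
      (fun y : P => g • y) '' {y | I y l ∧ y ∈ MulAction.orbit N x} := by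
    ext y
    simp only [Set.mem_setOf_eq, Set.mem_image, MulAction.mem_orbit_iff]
    constructor
    · rintro ⟨h2, ⟨b, hb⟩, rfl⟩
      refine ⟨g⁻¹ • (⟨b, hb⟩ : N) • g • x, ⟨?_, ?_⟩, smul_inv_smul _ _⟩
      · rw [← hG g, smul_inv_smul]
        exact h2
      · refine ⟨⟨g⁻¹ * b * g, ?_⟩, ?_⟩
        · have := (inferInstance : N.Normal).conj_mem b hb g⁻¹
          rwa [inv_inv] at this
        · show (g⁻¹ * b * g) • x = g⁻¹ • b • g • x
          rw [mul_smul, mul_smul]
    · rintro ⟨z, ⟨h2, ⟨b, hb⟩, rfl⟩, rfl⟩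
      refine ⟨(hG g _ l).2 h2, ⟨g * b * g⁻¹, (inferInstance : N.Normal).conj_mem b hb g⟩, ?_⟩
      show (g * b * g⁻¹) • g • x = g • b • x
      rw [mul_smul, mul_smul, inv_smul_smul]
  rw [h1, Set.ncard_image_of_injective _ (MulAction.injective g)]

/-- **The orbits of a nontrivial normal subgroup of a flag transitive group.** -/
theorem data (hI : IsConfiguration I n k) (hT : TrilateralFree I) (hn : n = k * (k - 1) ^ 2 + k)
    (hk : k % 2 = 1) (hk3 : 3 ≤ k) (hG : ∀ (g : G) (p : P) (l : L), I (g • p) (g • l) ↔ I p l)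
    (hf : ∀ g : G, (∀ p : P, g • p = p) → g = 1)
    (hfl : ∀ (p q : P) (l m : L), I p l → I q m → ∃ g : G, g • p = q ∧ g • l = m)
    (N : Subgroup G) [N.Normal] (hne : N ≠ ⊥) :
    ∃ e r : ℕ, 3 ≤ e ∧ r * e = k ∧ (∀ x : P, (MulAction.orbit N x).ncard = e * ((k - 1) ^ 2 + 1)) ∧
      ∀ (x : P) (l : L), I x l → {y | I y l ∧ y ∈ MulAction.orbit N x}.ncard = e := by
  classical
  have : Fintype P := Fintype.ofFinite P
  have : Fintype L := Fintype.ofFinite L
  have : Fintype N := Fintype.ofFinite N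
  have ht : ∀ p q : P, ∃ g : G, g • p = q := by
    intro p q
    obtain ⟨l1, h1⟩ := F2.ex_line hI hk3 p
    obtain ⟨l2, h2⟩ := F2.ex_line hI hk3 q
    obtain ⟨h, h3, -⟩ := hfl p q l1 l2 h1 h2
    exact ⟨h, h3⟩
  have hinv : ∀ (g : G) x l, I x l → I (g • x) (g • l) := fun g p l h => (hG g p l).2 h
  have hn0 : n ≠ 0 := by rw [hn]; omega
  obtain ⟨x⟩ : Nonempty P := by
    rw [← Finite.card_pos_iff, hI.card_points]
    exact Nat.pos_of_ne_zero hn0
  obtain ⟨g0, hg0, hg0x, l0, hxl0, hgl0⟩ := F1.collinear hI hT hn hk hk3 hG hf ht N hne x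
  obtain ⟨e, he⟩ : ∃ e, e = {y | I y l0 ∧ y ∈ MulAction.orbit N x}.ncard := ⟨_, rfl⟩
  have he2 : 2 ≤ e := by
    rw [he]
    exact (Set.one_lt_ncard_iff (Set.toFinite _)).2 ⟨g0 • x, x, ⟨hgl0, ⟨⟨g0, hg0⟩, rfl⟩⟩,
      ⟨hxl0, MulAction.mem_orbit_self x⟩, hg0x⟩
  have hflag : ∀ (y : P) (l : L), I y l → {z | I z l ∧ z ∈ MulAction.orbit N y}.ncard = e := by
    intro y l hyl
    obtain ⟨g, rfl, rfl⟩ := hfl x y l0 l hxl0 hyl
    rw [const hG N g x l0, he]
  obtain ⟨σ, m, c, a, r, hσ, hm, hcard, hm1, hc, hr, hkey, ha, hsum⟩ := Ub.orbit_data hI hT hn (by omega) hinv ht N x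
  have hS : ∀ y, ∑ b : N, S I y (b • y) = ∑ b : N, S I x (b • x) := by
    intro y
    obtain ⟨g, rfl⟩ := ht x y
    exact Norm.conj_sum N (S I) (fun g p q => Grp.S_inv hinv g p q) g x
  set O : Finset P := univ.image (fun b : N => b • x) with hO
  have hx : ∑ b : N, S I x (b • x) = (σ : ℚ) * (k * e) := by
    rw [Orb.sum_orbit (B := N) x (fun y => S I x y), ← hσ]
    congr 1
    have h1 : ∀ m : L, ∑ y ∈ O, inc I x m * inc I y m = inc I x m * (e : ℚ) := by
      intro m
      by_cases hxm : I x m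
      · rw [← Finset.mul_sum]
        congr 1
        have h2 : ∀ y ∈ O, inc I y m = if I y m then (1 : ℚ) else 0 := fun y _ => rfl
        rw [Finset.sum_congr rfl h2, Finset.sum_boole]
        have h3 : (O.filter fun y => I y m).card = e := by
          rw [← hflag x m hxm, ← Set.ncard_coe_finset]
          congr 1
          ext y
          simp only [hO, coe_filter, mem_image, mem_univ, true_and, Set.mem_setOf_eq, MulAction.mem_orbit_iff]
          exact and_comm
        rw [h3]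
      · rw [inc_of_not I hxm, zero_mul]
        exact Finset.sum_eq_zero fun y _ => by rw [zero_mul]
    show ∑ y ∈ O, ∑ m, inc I x m * inc I y m = (k : ℚ) * e
    rw [Finset.sum_comm, Finset.sum_congr rfl (fun m _ => h1 m), ← Finset.sum_mul, inc_sum_right, hI.card_through_point]
  rw [Finset.sum_comm, Finset.sum_congr rfl (fun y _ => hS y), hx, Finset.sum_const, Finset.card_univ, nsmul_eq_mul,
    ← Nat.card_eq_fintype_card, hI.card_points] at hsum
  have hσ0 : σ ≠ 0 := by
    rw [hσ]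
    exact (Finset.card_pos.2 ⟨1, by simp⟩).ne'
  have hkc : k * e = k + c := by
    have h1 : n * (σ * (k * e)) = n * (σ * (k + c)) := by exact_mod_cast hsum
    have h2 := Nat.eq_of_mul_eq_mul_left (Nat.pos_of_ne_zero hn0) h1
    exact Nat.eq_of_mul_eq_mul_left (Nat.pos_of_ne_zero hσ0) h2
  have hkey2 : r * (k * e) = k ^ 2 + (2 * k - 2) * a := by
    rw [← hkc] at hkey
    have h1 : m * (r * (k * e)) = m * (k ^ 2 + (2 * k - 2) * a) := by
      rw [← hkey, hr]
      ring
    exact Nat.eq_of_mul_eq_mul_left hm1 h1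
  obtain ⟨hre, he3⟩ := arith k e r a hk hk3 he2 hkey2 ha
  have hr0 : 0 < r := by
    rcases Nat.eq_zero_or_pos r with h | h
    · rw [h, zero_mul] at hre
      omega
    · exact h
  have hme : m = e * ((k - 1) ^ 2 + 1) := by
    have h1 : r * m = r * (e * ((k - 1) ^ 2 + 1)) := by
      rw [← hr, hn, ← mul_assoc, hre]
      ring
    exact Nat.eq_of_mul_eq_mul_left hr0 h1
  refine ⟨e, r, he3, hre, ?_, hflag⟩
  intro y
  obtain ⟨g, rfl⟩ := ht x y
  rw [← hme, hm]
  have h1 : MulAction.orbit N (g • x) = (fun y : P => g • y) '' MulAction.orbit N x := by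
    ext z
    simp only [Set.mem_image, MulAction.mem_orbit_iff]
    constructor
    · rintro ⟨⟨b, hb⟩, rfl⟩
      refine ⟨g⁻¹ • (⟨b, hb⟩ : N) • g • x, ⟨⟨g⁻¹ * b * g, ?_⟩, ?_⟩, smul_inv_smul _ _⟩
      · have := (inferInstance : N.Normal).conj_mem b hb g⁻¹
        rwa [inv_inv] at this
      · show (g⁻¹ * b * g) • x = g⁻¹ • b • g • x
        rw [mul_smul, mul_smul]
    · rintro ⟨z, ⟨⟨b, hb⟩, rfl⟩, rfl⟩
      refine ⟨⟨g * b * g⁻¹, (inferInstance : N.Normal).conj_mem b hb g⟩, ?_⟩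
      show (g * b * g⁻¹) • g • x = g • b • x
      rw [mul_smul, mul_smul, inv_smul_smul]
  rw [h1, Set.ncard_image_of_injective _ (MulAction.injective g)]

end

end Pool.Agent.Lib.MP_e0c1ed_co.H1
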