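import Pool.Agent.Lib.MP_e0c1ed_co.Main

/-!
# MP_e0c1ed / H2: every line meets every orbit
-/

set_option autoImplicit false

namespace Pool.Agent.Lib.MP_e0c1ed_co.H2

open Finset Pool.Agent.Results.MP_e0c1ed_co.SelfDualSquare

variable {P L G : Type*} [Finite P] [Finite L] [Group G] [Finite G] [MulAction G P] [MulAction G L]
  {I : P → L → Prop} {n k : ℕ}

/-- If the orbits of `N` have `e * ((k - 1) ^ 2 + 1)` points and a line which meets an orbit meets it in `e` points, then
every line meets every orbit in `e` points. -/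
theorem all (hI : IsConfiguration I n k) (hn : n = k * (k - 1) ^ 2 + k) (N : Subgroup G) (e r : ℕ) (h3 : 3 ≤ e)
    (hr : r * e = k) (h1 : ∀ x : P, (MulAction.orbit N x).ncard = e * ((k - 1) ^ 2 + 1))
    (h2 : ∀ (x : P) (l : L), I x l → {y | I y l ∧ y ∈ MulAction.orbit N x}.ncard = e) (x : P) (l : L) :
    {y | I y l ∧ y ∈ MulAction.orbit N x}.ncard = e := by
  classical
  have : Fintype P := Fintype.ofFinite P
  -- the number is `0` or `e`
  have hor : ∀ y : P, {z | I z l ∧ z ∈ MulAction.orbit N y}.ncard = 0 ∨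
      {z | I z l ∧ z ∈ MulAction.orbit N y}.ncard = e := by
    intro y
    rcases Set.eq_empty_or_nonempty {z | I z l ∧ z ∈ MulAction.orbit N y} with h | ⟨z, hz1, hz2⟩
    · left
      rw [h, Set.ncard_empty]
    · right
      have h4 : MulAction.orbit N z = MulAction.orbit N y := MulAction.orbit_eq_iff.2 hz2
      rw [← h4]
      exact h2 z l hz1
  -- double counting
  have hset : ∀ (Q : P → Prop) [DecidablePred Q], {z | Q z}.ncard = ∑ z : P, if Q z then 1 else 0 := by
    intro Q _
    rw [Set.ncard_eq_toFinset_card', Finset.sum_boole, Nat.cast_id]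
    congr 1
    ext z
    simp
  have hsum : ∑ y : P, {z | I z l ∧ z ∈ MulAction.orbit N y}.ncard = k * (e * ((k - 1) ^ 2 + 1)) := by
    have e1 : ∀ y : P, {z | I z l ∧ z ∈ MulAction.orbit N y}.ncard =
        ∑ z : P, if I z l ∧ z ∈ MulAction.orbit N y then 1 else 0 := fun y => hset _
    have e2 : ∀ z : P, (∑ y : P, if I z l ∧ z ∈ MulAction.orbit N y then 1 else 0) =
        (if I z l then 1 else 0) * (e * ((k - 1) ^ 2 + 1)) := by
      intro z
      by_cases hz : I z l
      · rw [if_pos hz, one_mul, ← h1 z]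
        have e3 : MulAction.orbit N z = {y | I z l ∧ z ∈ MulAction.orbit N y} := by
          ext y
          simp only [Set.mem_setOf_eq, hz, true_and]
          exact MulAction.mem_orbit_symm
        rw [e3, hset]
      · rw [if_neg hz, zero_mul]
        exact Finset.sum_eq_zero fun y _ => if_neg fun h => hz h.1
    rw [Finset.sum_congr rfl (fun y _ => e1 y), Finset.sum_comm, Finset.sum_congr rfl (fun z _ => e2 z),
      ← Finset.sum_mul, ← hset, hI.card_on_line]
  rcases hor x with h0 | h0
  · exfalso
    have h5 : ∑ y : P, {z | I z l ∧ z ∈ MulAction.orbit N y}.ncard < ∑ _y : P, e := by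
      refine Finset.sum_lt_sum (fun y _ => ?_) ⟨x, Finset.mem_univ _, by rw [h0]; omega⟩
      rcases hor y with h | h <;> rw [h]
      exact Nat.zero_le _
    rw [hsum, Finset.sum_const, Finset.card_univ, ← Nat.card_eq_fintype_card, hI.card_points, hn, smul_eq_mul] at h5
    refine absurd h5 (not_lt.2 (le_of_eq ?_))
    ring
  · exact h0

end Pool.Agent.Lib.MP_e0c1ed_co.H2
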