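import Pool.Agent.Lib.MP_e0c1ed_co.AS4

/-!
# MP_e0c1ed / H3: almost simple groups from one large prime factor of `(k - 1)² + 1`

If the orders of all nontrivial normal subgroups of a point transitive group are proper multiples of a prime factor
`p > k` of `(k - 1)² + 1`, then the group is almost simple (`k` any odd number).
-/

set_option autoImplicit false

namespace Pool.Agent.Lib.MP_e0c1ed_co.H3

open Pool.Agent.Results.MP_e0c1ed_co.SelfDualSquare Pool.Agent.Lib.MP_e0c1ed_co

section
variable {P L G : Type*} [Finite P] [Finite L] [Group G] [Finite G] [MulAction G P] [MulAction G L]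
  {I : P → L → Prop} {n k : ℕ}

theorem main (hI : IsConfiguration I n k) (hT : TrilateralFree I) (hn : n = k * (k - 1) ^ 2 + k)
    (hk : k % 2 = 1) (hk3 : 3 ≤ k) (hG : ∀ (g : G) (p : P) (l : L), I (g • p) (g • l) ↔ I p l)
    (hf : ∀ g : G, (∀ p : P, g • p = p) → g = 1) (ht : ∀ p q : P, ∃ g : G, g • p = q)
    (p : ℕ) (hp : p.Prime) (hpk : k < p) (hps : p ∣ (k - 1) ^ 2 + 1)
    (hN : ∀ N : Subgroup G, N.Normal → N ≠ ⊥ → p ∣ Nat.card N ∧ p < Nat.card N) :
    ∃ T : Subgroup G, T.Normal ∧ IsSimpleGroup T ∧ (∃ a b : T, a * b ≠ b * a) ∧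
      Subgroup.centralizer (T : Set G) = ⊥ := by
  classical
  obtain ⟨u, hu⟩ := hps
  have := Fact.mk hp
  have hPret : MulAction.IsPretransitive G P := ⟨ht⟩
  have hus : u < k - 1 := by
    by_contra h
    have h2 : k - 1 ≤ u := by omega
    have h3 : (k + 1) * (k - 1) ≤ p * u := Nat.mul_le_mul hpk h2
    obtain ⟨s, rfl⟩ : ∃ s, k = s + 1 := ⟨k - 1, by omega⟩
    rw [← hu, Nat.add_sub_cancel] at h3
    nlinarith
  have hu0 : 0 < u := by
    rcases Nat.eq_zero_or_pos u with h | h
    · rw [h, mul_zero] at hu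
      omega
    · exact h
  have hcard : Nat.card P = k * (p * u) := by
    rw [hI.card_points, hn, ← hu]
    ring
  obtain ⟨x⟩ : Nonempty P := by
    rw [← Finite.card_pos_iff, hcard]
    exact Nat.mul_pos (by omega) (Nat.mul_pos hp.pos hu0)
  have h1 : Nat.card P * Nat.card (MulAction.stabilizer G x) = Nat.card G := by
    rw [← MulAction.index_stabilizer_of_transitive G x, mul_comm]
    exact Subgroup.card_mul_index _
  have hnt : Nontrivial G := by
    by_contra h
    rw [not_nontrivial_iff_subsingleton] at h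
    have h1 : 1 < Nat.card P := by
      rw [hcard]
      have h3 : 1 ≤ p * u := Nat.mul_pos hp.pos hu0
      nlinarith
    have := Finite.one_lt_card_iff_nontrivial.1 h1
    obtain ⟨a, b, hab⟩ := exists_pair_ne P
    obtain ⟨g, hg⟩ := ht a b
    rw [Subsingleton.elim g 1, one_smul] at hg
    exact hab hg
  refine AS3.almost_simple p hp ?_ (fun N h2 h3 => ⟨(hN N h2 h3).1, (hN N h2 h3).2.ne'⟩)
  intro h
  have h2 : ¬ p ∣ Nat.card (MulAction.stabilizer G x) := by
    intro h3
    obtain ⟨g, hg⟩ := exists_prime_orderOf_dvd_card' (G := MulAction.stabilizer G x) p h3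
    have h4 : (g : G) ^ p = 1 := by
      have := pow_orderOf_eq_one g
      rw [hg] at this
      exact congrArg Subtype.val this
    have h5 := hf g (point_fixed hI hT hn (by omega) hG p hpk g h4 x g.2)
    have h6 : g = 1 := Subtype.ext h5
    rw [h6, orderOf_one] at hg
    exact hp.one_lt.ne hg
  have h3 : p ^ 2 ∣ p * (k * u * Nat.card (MulAction.stabilizer G x)) := by
    have : p * (k * u * Nat.card (MulAction.stabilizer G x)) = Nat.card G := by
      rw [← h1, hcard]
      ring
    rw [this]
    exact h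
  rw [pow_two] at h3
  have h4 := Nat.dvd_of_mul_dvd_mul_left hp.pos h3
  rcases (Nat.Prime.dvd_mul hp).1 h4 with h5 | h5
  · rcases (Nat.Prime.dvd_mul hp).1 h5 with h6 | h6
    · have := Nat.le_of_dvd (by omega) h6
      omega
    · have := Nat.le_of_dvd hu0 h6
      omega
  · exact h2 h5

end

end Pool.Agent.Lib.MP_e0c1ed_co.H3
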