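import Pool.Agent.Lib.MP_e0c1ed_co.H1
import Pool.Agent.Lib.MP_e0c1ed_co.H2
import Pool.Agent.Lib.MP_e0c1ed_co.H3
import Pool.Agent.Lib.MP_e0c1ed_co.G3
import Pool.Agent.Lib.MP_e0c1ed_co.F6

/-!
# MP_e0c1ed / H4: flag transitive groups, the theorem
-/

set_option autoImplicit false

namespace Pool.Agent.Lib.MP_e0c1ed_co.H4

open Pool.Agent.Results.MP_e0c1ed_co.SelfDualSquare Pool.Agent.Lib.MP_e0c1ed_co

variable {P L G : Type*} [Finite P] [Finite L] [Group G] [Finite G] [MulAction G P] [MulAction G L]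
  {I : P → L → Prop} {n k : ℕ}

/-- Every line has exactly `e` points in every orbit of a normal subgroup. -/
theorem meet (hI : IsConfiguration I n k) (hT : TrilateralFree I) (hn : n = k * (k - 1) ^ 2 + k)
    (hk : k % 2 = 1) (hk3 : 3 ≤ k) (hG : ∀ (g : G) (p : P) (l : L), I (g • p) (g • l) ↔ I p l)
    (hf : ∀ g : G, (∀ p : P, g • p = p) → g = 1)
    (hfl : ∀ (p q : P) (l m : L), I p l → I q m → ∃ g : G, g • p = q ∧ g • l = m)
    (N : Subgroup G) [N.Normal] (hne : N ≠ ⊥) :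
    ∃ e : ℕ, 3 ≤ e ∧ e ∣ k ∧ ∀ (x : P) (l : L), {y | I y l ∧ ∃ g ∈ N, g • x = y}.ncard = e := by
  obtain ⟨e, r, h1, h2, h3, h4⟩ := H1.data hI hT hn hk hk3 hG hf hfl N hne
  refine ⟨e, h1, ⟨r, by rw [← h2]; ring⟩, fun x l => ?_⟩
  rw [← H2.all hI hn N e r h1 h2 h3 h4 x l]
  congr 1
  ext y
  constructor
  · rintro ⟨h5, g, hg, h6⟩
    exact ⟨h5, ⟨g, hg⟩, h6⟩
  · rintro ⟨h5, ⟨g, hg⟩, h6⟩
    exact ⟨h5, g, hg, h6⟩

/-- **The theorem on flag transitive groups.** -/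
theorem flag (hI : IsConfiguration I n k) (hT : TrilateralFree I) (hn : n = k * (k - 1) ^ 2 + k)
    (hk : k % 2 = 1) (hk3 : 3 ≤ k) (hG : ∀ (g : G) (p : P) (l : L), I (g • p) (g • l) ↔ I p l)
    (hf : ∀ g : G, (∀ p : P, g • p = p) → g = 1)
    (hfl : ∀ (p q : P) (l m : L), I p l → I q m → ∃ g : G, g • p = q ∧ g • l = m) :
    (∃ M : Subgroup G, M.Normal ∧ M ≠ ⊥ ∧ (∀ N : Subgroup G, N.Normal → N ≠ ⊥ → M ≤ N) ∧
      Subgroup.centralizer (M : Set G) = ⊥) ∧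
    (∀ N : Subgroup G, N.Normal → N ≠ ⊥ →
      (∃ e : ℕ, 3 ≤ e ∧ e ∣ k ∧ ∀ (x : P) (l : L), {y | I y l ∧ ∃ g ∈ N, g • x = y}.ncard = e) ∧
      (∃ e : ℕ, 3 ≤ e ∧ e ∣ k ∧ ∀ (l : L) (x : P), {m | I x m ∧ ∃ g ∈ N, g • l = m}.ncard = e)) ∧
    ((k.Prime ∨ ∃ p : ℕ, p.Prime ∧ p ∣ (k - 1) ^ 2 + 1 ∧ (k < p ∨ ¬ p ^ 2 ∣ Nat.card G)) →
      ∃ T : Subgroup G, T.Normal ∧ IsSimpleGroup T ∧ (∃ a b : T, a * b ≠ b * a) ∧
        Subgroup.centralizer (T : Set G) = ⊥) ∧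
    (k.Prime → ∀ N : Subgroup G, N.Normal → N ≠ ⊥ →
      ∀ (p q : P) (l m : L), I p l → I q m → ∃ g ∈ N, g • p = q ∧ g • l = m) := by
  classical
  have ht : ∀ p q : P, ∃ g : G, g • p = q := by
    intro p q
    obtain ⟨l1, h1⟩ := F2.ex_line hI hk3 p
    obtain ⟨l2, h2⟩ := F2.ex_line hI hk3 q
    obtain ⟨h, h3, -⟩ := hfl p q l1 l2 h1 h2
    exact ⟨h, h3⟩
  obtain ⟨hI', hT'⟩ := Aut.dualize I n k hI hT
  have hG' : ∀ (g : G) (l : L) (p : P), (fun l p => I p l) (g • l) (g • p) ↔ (fun l p => I p l) l p :=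
    fun g l p => hG g p l
  have hf' : ∀ g : G, (∀ l : L, g • l = l) → g = 1 := by
    intro g hg
    refine hf g fun p => ?_
    have h1 : 1 < {l | I p l}.ncard := by rw [hI.card_through_point]; omega
    obtain ⟨l, m, hl, hm, hlm⟩ := (Set.one_lt_ncard_iff).1 h1
    by_contra hp
    have h2 : I (g • p) l := by
      have := (hG g p l).2 hl
      rwa [hg l] at this
    have h3 : I (g • p) m := by
      have := (hG g p m).2 hm
      rwa [hg m] at this
    exact hlm (hI.unique_line (g • p) p l m hp h2 hl h3 hm)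
  have hfl' : ∀ (l m : L) (p q : P), (fun l p => I p l) l p → (fun l p => I p l) m q →
      ∃ g : G, g • l = m ∧ g • p = q := by
    intro l m p q h1 h2
    obtain ⟨g, h3, h4⟩ := hfl p q l m h1 h2
    exact ⟨g, h4, h3⟩
  refine ⟨F6.monolith hI hT hn hk hk3 hG hf hfl, fun N hN hne => ⟨meet hI hT hn hk hk3 hG hf hfl N hne,
    meet hI' hT' hn hk hk3 hG' hf' hfl' N hne⟩, ?_, fun hkp N hN hne => G3.main hI hT hn hk hk3 hG hf hkp hfl N hne⟩
  rintro (hkp | ⟨p, hp, hps, hpk⟩)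
  · exact M8.main hI hT hn hk hk3 hkp hG hf ht (M8.flag hI hn hk3 hG hfl)
  · have hN : ∀ N : Subgroup G, N.Normal → N ≠ ⊥ → p ∣ Nat.card N ∧ p < Nat.card N := by
      intro N hN hne
      obtain ⟨e, r, h1, h2, h3, -⟩ := H1.data hI hT hn hk hk3 hG hf hfl N hne
      obtain ⟨x⟩ : Nonempty P := by
        rw [← Finite.card_pos_iff, hI.card_points, hn]
        omega
      have h4 : e * ((k - 1) ^ 2 + 1) ∣ Nat.card N := by
        rw [← h3 x, ← MulAction.index_stabilizer]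
        exact Subgroup.index_dvd_card _
      refine ⟨(hps.mul_left e).trans h4, ?_⟩
      have h5 := Nat.le_of_dvd Nat.card_pos h4
      have h6 := Nat.le_of_dvd (Nat.succ_pos _) hps
      nlinarith
    rcases hpk with hpk | hp2
    · exact H3.main hI hT hn hk hk3 hG hf ht p hp hpk hps hN
    · have hnt : Nontrivial G := by
        by_contra hcon
        rw [not_nontrivial_iff_subsingleton] at hcon
        have h1 : 1 < Nat.card P := by
          rw [hI.card_points, hn]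
          have : 1 ≤ k * (k - 1) ^ 2 := Nat.mul_pos (by omega) (Nat.pow_pos (by omega))
          omega
        have := Finite.one_lt_card_iff_nontrivial.1 h1
        obtain ⟨y, z, hyz⟩ := exists_pair_ne P
        obtain ⟨g, hg⟩ := ht y z
        rw [Subsingleton.elim g 1, one_smul] at hg
        exact hyz hg
      exact AS3.almost_simple p hp hp2 fun N hN' hne => ⟨(hN N hN' hne).1, (hN N hN' hne).2.ne'⟩

end Pool.Agent.Lib.MP_e0c1ed_co.H4
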