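import Pool.Agent.Lib.MP_e0c1ed_co.H1
import Pool.Agent.Lib.MP_e0c1ed_co.H3
import Pool.Agent.Lib.MP_e0c1ed_co.AS3

/-!
# MP_e0c1ed / H6: flag transitive groups and prime factors of `(k - 1)² + 1`
-/

set_option autoImplicit false

namespace Pool.Agent.Lib.MP_e0c1ed_co.H6

open Pool.Agent.Results.MP_e0c1ed_co.SelfDualSquare Pool.Agent.Lib.MP_e0c1ed_co

variable {P L G : Type*} [Finite P] [Finite L] [Group G] [Finite G] [MulAction G P] [MulAction G L]
  {I : P → L → Prop} {n k : ℕ}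

/-- The order of a nontrivial normal subgroup of a flag transitive group is divisible by `(k - 1)² + 1` and larger. -/
theorem card_normal (hI : IsConfiguration I n k) (hT : TrilateralFree I) (hn : n = k * (k - 1) ^ 2 + k)
    (hk : k % 2 = 1) (hk3 : 3 ≤ k) (hG : ∀ (g : G) (p : P) (l : L), I (g • p) (g • l) ↔ I p l)
    (hf : ∀ g : G, (∀ p : P, g • p = p) → g = 1)
    (hfl : ∀ (p q : P) (l m : L), I p l → I q m → ∃ g : G, g • p = q ∧ g • l = m)
    (N : Subgroup G) [N.Normal] (hne : N ≠ ⊥) :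
    (k - 1) ^ 2 + 1 ∣ Nat.card N ∧ (k - 1) ^ 2 + 1 < Nat.card N := by
  obtain ⟨e, r, he, hre, h1, -⟩ := H1.data hI hT hn hk hk3 hG hf hfl N hne
  have hn0 : n ≠ 0 := by rw [hn]; omega
  obtain ⟨x⟩ : Nonempty P := by
    rw [← Finite.card_pos_iff, hI.card_points]
    exact Nat.pos_of_ne_zero hn0
  have h2 : (MulAction.orbit N x).ncard ∣ Nat.card N := by
    rw [← Nat.card_coe_set_eq, Nat.card_congr (MulAction.orbitEquivQuotientStabilizer N x)]
    exact Subgroup.card_quotient_dvd_card _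
  rw [h1 x] at h2
  have h3 := Nat.le_of_dvd Nat.card_pos h2
  refine ⟨(Dvd.intro_left e rfl).trans h2, lt_of_lt_of_le ?_ h3⟩
  have : 0 < (k - 1) ^ 2 + 1 := Nat.succ_pos _
  nlinarith

/-- **A flag transitive group is almost simple if `(k - 1)² + 1` has a prime factor `p` with `p > k` or `p² ∤ |G|`.** -/
theorem main (hI : IsConfiguration I n k) (hT : TrilateralFree I) (hn : n = k * (k - 1) ^ 2 + k)
    (hk : k % 2 = 1) (hk3 : 3 ≤ k) (hG : ∀ (g : G) (p : P) (l : L), I (g • p) (g • l) ↔ I p l)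
    (hf : ∀ g : G, (∀ p : P, g • p = p) → g = 1)
    (hfl : ∀ (p q : P) (l m : L), I p l → I q m → ∃ g : G, g • p = q ∧ g • l = m)
    (p : ℕ) (hp : p.Prime) (hps : p ∣ (k - 1) ^ 2 + 1) (h2 : k < p ∨ ¬ p ^ 2 ∣ Nat.card G) :
    ∃ T : Subgroup G, T.Normal ∧ IsSimpleGroup T ∧ (∃ a b : T, a * b ≠ b * a) ∧
      Subgroup.centralizer (T : Set G) = ⊥ := by
  classical
  have hN : ∀ N : Subgroup G, N.Normal → N ≠ ⊥ → p ∣ Nat.card N ∧ p < Nat.card N := by
    intro N hNn hne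
    obtain ⟨h3, h4⟩ := card_normal hI hT hn hk hk3 hG hf hfl N hne
    exact ⟨hps.trans h3, lt_of_le_of_lt (Nat.le_of_dvd (Nat.succ_pos _) hps) h4⟩
  have ht : ∀ p q : P, ∃ g : G, g • p = q := by
    intro p q
    obtain ⟨l1, h1⟩ := F2.ex_line hI hk3 p
    obtain ⟨l2, h2⟩ := F2.ex_line hI hk3 q
    obtain ⟨h, h3, -⟩ := hfl p q l1 l2 h1 h2
    exact ⟨h, h3⟩
  rcases h2 with h2 | h2
  · exact H3.main hI hT hn hk hk3 hG hf ht p hp h2 hps hN
  · have hnt : Nontrivial G := by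
      by_contra hcon
      rw [not_nontrivial_iff_subsingleton] at hcon
      have h1 : 1 < Nat.card P := by
        rw [hI.card_points, hn]
        have : 1 ≤ k * (k - 1) ^ 2 := Nat.mul_pos (by omega) (Nat.pow_pos (by omega))
        omega
      have := Finite.one_lt_card_iff_nontrivial.1 h1
      obtain ⟨a, b, hab⟩ := exists_pair_ne P
      obtain ⟨g, hg⟩ := ht a b
      rw [Subsingleton.elim g 1, one_smul] at hg
      exact hab hg
    exact AS3.almost_simple p hp h2 fun N hNn hne => ⟨(hN N hNn hne).1, (hN N hNn hne).2.ne'⟩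

end Pool.Agent.Lib.MP_e0c1ed_co.H6
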