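import Mathlib

/-!
# MP_e0c1ed / Spread: groups whose point orbits are cliques

`I` is the incidence relation of a generalized quadrangle of order `(k - 1, k - 1)`. If every point is moved by the group `B`
inside a set of pairwise collinear points, then an element of `B` which fixes a point fixes every point.
-/

set_option autoImplicit false

namespace Pool.Agent.Lib.MP_e0c1ed_co.Spread

variable {P L B : Type*} [Group B] [MulAction B P] [MulAction B L]

/-- The line of an orbit. -/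
theorem orbit_line (I : P → L → Prop)
    (huniq : ∀ p q l m, p ≠ q → I p l → I q l → I p m → I q m → l = m)
    (htf : ∀ p q r l m n, p ≠ q → q ≠ r → r ≠ p → l ≠ m → m ≠ n → n ≠ l →
      ¬ (I p l ∧ I q l ∧ I q m ∧ I r m ∧ I r n ∧ I p n))
    (hinv : ∀ (b : B) x l, I x l → I (b • x) (b • l))
    (horb : ∀ (b : B) x, b • x ≠ x → ∃ l, I x l ∧ I (b • x) l)
    (hmove : ∀ x : P, ∃ b : B, b • x ≠ x) (x : P) :
    ∃ l : L, (∀ b : B, I (b • x) l) ∧ ∀ b : B, b • l = l := by
  obtain ⟨c, hc⟩ := hmove x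
  obtain ⟨l, hxl, hcl⟩ := horb c x hc
  have h1 : ∀ b : B, I (b • x) l := by
    intro b
    by_contra hbl
    have hbx : b • x ≠ x := fun h => hbl (by rw [h]; exact hxl)
    have hbc : b • x ≠ c • x := fun h => hbl (by rw [h]; exact hcl)
    obtain ⟨n, hxn, hbn⟩ := horb b x hbx
    have h2 : (b * c⁻¹) • (c • x) = b • x := by rw [← mul_smul]; simp
    obtain ⟨m, hcm, hbm⟩ := horb (b * c⁻¹) (c • x) (by rw [h2]; exact hbc)
    rw [h2] at hbm
    have hlm : l ≠ m := fun h => hbl (by rw [h]; exact hbm)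
    have hnl : n ≠ l := fun h => hbl (by rw [← h]; exact hbn)
    have hmn : m ≠ n := by
      intro h
      apply hnl
      exact huniq x (c • x) n l hc.symm hxn (by rw [← h]; exact hcm) hxl hcl
    exact htf x (c • x) (b • x) l m n hc.symm hbc.symm hbx hlm hmn hnl ⟨hxl, hcl, hcm, hbm, hbn, hxn⟩
  refine ⟨l, h1, fun b => ?_⟩
  have h3 : I (b • x) (b • l) := hinv b x l hxl
  have h4 : I (b • (c • x)) (b • l) := hinv b _ l hcl
  have h5 : b • x ≠ b • (c • x) := fun h => hc ((smul_left_cancel b h).symm)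
  have h6 : I (b • (c • x)) l := by rw [← mul_smul]; exact h1 _
  exact huniq _ _ _ _ h5 h3 h4 (h1 b) h6

theorem no_fixed [Finite P] [Finite L] (I : P → L → Prop) (k : ℕ) (hk : 3 ≤ k)
    (hcard : Nat.card P = k * (k - 1) ^ 2 + k)
    (hline : ∀ l, {p | I p l}.ncard = k) (hpt : ∀ p, {l | I p l}.ncard = k)
    (huniq : ∀ p q l m, p ≠ q → I p l → I q l → I p m → I q m → l = m)
    (htf : ∀ p q r l m n, p ≠ q → q ≠ r → r ≠ p → l ≠ m → m ≠ n → n ≠ l →
      ¬ (I p l ∧ I q l ∧ I q m ∧ I r m ∧ I r n ∧ I p n))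
    (hgq : ∀ x M, ¬ I x M → ∃ z N, I z M ∧ I z N ∧ I x N)
    (hinv : ∀ (b : B) x l, I x l → I (b • x) (b • l))
    (horb : ∀ (b : B) x, b • x ≠ x → ∃ l, I x l ∧ I (b • x) l)
    (hmove : ∀ x : P, ∃ b : B, b • x ≠ x)
    (b : B) (x : P) (hb : b • x = x) (y : P) : b • y = y := by
  classical
  choose Λ hΛ1 hΛ2 using orbit_line I huniq htf hinv horb hmove
  have hΛ0 : ∀ z, I z (Λ z) := fun z => by simpa using hΛ1 z 1
  -- a point of `Λ z` has the same line
  have hΛ : ∀ z w, I w (Λ z) → Λ w = Λ z := by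
    intro z w hw
    obtain ⟨c, hc⟩ := hmove w
    have h1 : I (c • w) (Λ z) := by
      have := hinv c w (Λ z) hw
      rwa [hΛ2] at this
    exact huniq w (c • w) _ _ hc.symm (hΛ0 w) (hΛ1 w c) hw h1
  -- uniqueness of the projection
  have hproj : ∀ x M z z' N N', ¬ I x M → I z M → I z N → I x N → I z' M → I z' N' → I x N' → z = z' := by
    intro x M z z' N N' hx h1 h2 h3 h4 h5 h6
    by_contra hne
    have hxz : x ≠ z := fun h => hx (by rw [h]; exact h1)
    have hxz' : z' ≠ x := fun h => hx (by rw [← h]; exact h4)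
    have hNM : N ≠ M := fun h => hx (by rw [← h]; exact h3)
    have hMN' : M ≠ N' := fun h => hx (by rw [h]; exact h6)
    have hNN' : N' ≠ N := by
      intro h
      apply hNM
      exact huniq z z' N M hne h2 (by rw [← h]; exact h5) h1 h4
    exact htf x z z' N M N' hxz hne hxz' hNM hMN' hNN' ⟨h3, h2, h1, h4, h5, h6⟩
  -- the projection of a fixed point to a line `Λ z` is fixed
  have hfix : ∀ x', b • x' = x' → ∀ z w N, ¬ I x' (Λ z) → I w (Λ z) → I w N → I x' N → b • w = w := by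
    intro x' hx' z w N h1 h2 h3 h4
    have h5 : I (b • w) (Λ z) := by
      have := hinv b w (Λ z) h2
      rwa [hΛ2] at this
    have h6 : I (b • w) (b • N) := hinv b w N h3
    have h7 : I x' (b • N) := by
      have := hinv b x' N h4
      rwa [hx'] at this
    exact hproj x' (Λ z) (b • w) w (b • N) N h1 h5 h6 h7 h2 h3 h4
  by_contra hy
  -- fixed points collinear with a point `u` which is not fixed are on `Λ u`
  have hcol : ∀ u, b • u ≠ u → ∀ x' N, b • x' = x' → I u N → I x' N → I x' (Λ u) := by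
    intro u hu x' N hx' h1 h2
    by_contra h3
    exact hu (hfix x' hx' u u N h3 (hΛ0 u) h1 h2)
  -- a line on `y` different from `Λ y`
  obtain ⟨N, hyN, hNΛ⟩ : ∃ N, I y N ∧ N ≠ Λ y := by
    by_contra hcon
    push Not at hcon
    have h1 : {l | I y l} ⊆ {Λ y} := fun l hl => hcon l hl
    have h2 := Set.ncard_le_ncard h1 (Set.finite_singleton _)
    rw [hpt y, Set.ncard_singleton] at h2
    omega
  have hN : ∀ u, I u N → b • u ≠ u := by
    intro u huN hu
    have h1 : I u (Λ y) := hcol y hy u N hu hyN huN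
    have h2 : u ≠ y := fun h => hy (by rw [← h]; exact hu)
    exact hNΛ (huniq u y N (Λ y) h2 huN hyN h1 (hΛ0 y))
  -- a point not covered by the lines `Λ u`, `u ∈ N`
  obtain ⟨w, hw⟩ : ∃ w, ∀ u, I u N → ¬ I w (Λ u) := by
    by_contra hcon
    push Not at hcon
    have h1 : (Set.univ : Set P) ⊆ ⋃ u ∈ {u | I u N}, {w | I w (Λ u)} := by
      intro w _
      obtain ⟨u, hu1, hu2⟩ := hcon w
      simp only [Set.mem_iUnion]
      exact ⟨u, hu1, hu2⟩
    have hfin : {u | I u N}.Finite := Set.toFinite _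
    have h2 : (Set.univ : Set P).ncard ≤ (⋃ u ∈ {u | I u N}, {w | I w (Λ u)}).ncard :=
      Set.ncard_le_ncard h1 (Set.toFinite _)
    have h3 : (⋃ u ∈ {u | I u N}, {w | I w (Λ u)}).ncard ≤ ∑ u ∈ hfin.toFinset, {w | I w (Λ u)}.ncard := by
      have h4 : (⋃ u ∈ {u | I u N}, {w | I w (Λ u)}) = ⋃ u ∈ hfin.toFinset, {w | I w (Λ u)} := by
        ext w
        simp
      rw [h4]
      exact Finset.set_ncard_biUnion_le _ _
    rw [Set.ncard_univ, hcard] at h2
    have h5 : ∑ u ∈ hfin.toFinset, {w | I w (Λ u)}.ncard = k * k := by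
      rw [Finset.sum_congr rfl (fun u _ => hline (Λ u)), Finset.sum_const, smul_eq_mul,
        ← Set.ncard_eq_toFinset_card _ hfin, hline N]
    rw [h5] at h3
    have h6 : k * (k - 1) ^ 2 + k ≤ k * k := h2.trans h3
    obtain ⟨j, rfl⟩ : ∃ j, k = j + 3 := ⟨k - 3, by omega⟩
    have h7 : j + 3 - 1 = j + 2 := by omega
    rw [h7] at h6
    nlinarith
  -- a fixed point on `Λ w`
  obtain ⟨x', hx'1, hx'2⟩ : ∃ x', b • x' = x' ∧ I x' (Λ w) := by
    by_cases hxw : I x (Λ w)
    · exact ⟨x, hb, hxw⟩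
    · obtain ⟨z, M, h1, h2, h3⟩ := hgq x (Λ w) hxw
      exact ⟨z, hfix x hb w z M hxw h1 h2 h3, h1⟩
  have hx'N : ¬ I x' N := fun h => hN x' h hx'1
  obtain ⟨u, M, h1, h2, h3⟩ := hgq x' N hx'N
  have h4 : I x' (Λ u) := hcol u (hN u h1) x' M hx'1 h2 h3
  have h5 : Λ x' = Λ u := hΛ u x' h4
  have h6 : Λ x' = Λ w := hΛ w x' hx'2
  exact hw u h1 (by rw [← h5, h6]; exact hΛ0 w)

end Pool.Agent.Lib.MP_e0c1ed_co.Spread
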