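import Pool.Agent.Lib.MP_e0c1ed_co.Orb
import Pool.Agent.Lib.MP_e0c1ed_co.Spread

/-!
# MP_e0c1ed / Norm: normal subgroups of point transitive groups have long orbits
-/

set_option autoImplicit false

namespace Pool.Agent.Lib.MP_e0c1ed_co.Norm

open Finset Pool.Agent.Results.MP_e0c1ed_co.SelfDualSquare Bens Grp Orb

theorem arith (k n m c a r : ℕ) (hk : k % 2 = 1) (hk3 : 3 ≤ k) (hn : n = k * (k - 1) ^ 2 + k)
    (h1 : n * (k + c) = m * (k ^ 2 + (2 * k - 2) * a)) (h2 : n = r * m) (hm : m ≤ 2 * (k - 1)) (hm1 : 1 ≤ m)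
    (hc : c ≤ m - 1) : c = m - 1 := by
  obtain ⟨t, rfl⟩ : ∃ t, k = 2 * t + 1 := ⟨k / 2, by omega⟩
  have hmo : m % 2 = 1 := by
    have hno : n % 2 = 1 := by
      rw [hn]
      have : (2 * t + 1) - 1 = 2 * t := by omega
      rw [this, Nat.add_mod, Nat.mul_mod, Nat.pow_mod]
      simp
    rcases Nat.mod_two_eq_zero_or_one m with h | h
    · rw [h2, Nat.mul_mod, h] at hno
      simp at hno
    · exact h
  obtain ⟨u, rfl⟩ : ∃ u, m = 2 * u + 1 := ⟨m / 2, by omega⟩
  have h3 : ((2 * t + 1 : ℤ) * (2 * t) ^ 2 + (2 * t + 1)) * (2 * t + 1 + c) =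
      (2 * u + 1) * ((2 * t + 1) ^ 2 + 4 * t * a) := by
    have h4 : (2 * t + 1) - 1 = 2 * t := by omega
    have h5 : 2 * (2 * t + 1) - 2 = 4 * t := by omega
    rw [hn, h4, h5] at h1
    exact_mod_cast h1
  have h6 : (4 * t : ℤ) ∣ (c : ℤ) - 2 * u :=
    ⟨u + (2 * t + 1) * (2 * u + 1) * (t + 1 + a) - (2 * t + 1 + 4 * t ^ 2 * (t + 1)) * (2 * t + 1 + c), by
      linear_combination (2 * t + 1) * h3⟩
  have h7 : (c : ℤ) - 2 * u = 0 := by
    apply Int.eq_zero_of_abs_lt_dvd h6
    rw [abs_lt]
    constructor <;> omega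
  omega

section
variable {P L G : Type*} [Fintype P] [Fintype L] [Group G] [MulAction G P] [MulAction G L]
  {I : P → L → Prop} {n k : ℕ}

/-- sums over a normal subgroup are constant along orbits of the group -/
theorem conj_sum (N : Subgroup G) [N.Normal] [Fintype N] (f : P → P → ℚ) (hf : ∀ (g : G) x y, f (g • x) (g • y) = f x y)
    (g : G) (x : P) : ∑ b : N, f (g • x) (b • (g • x)) = ∑ b : N, f x (b • x) := by
  rw [← Equiv.sum_comp (MulAut.conjNormal g : N ≃* N).toEquiv]
  refine Finset.sum_congr rfl fun b _ => ?_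
  have h1 : ((MulAut.conjNormal g : N ≃* N).toEquiv b) • (g • x) = g • (b • x) := by
    show (((MulAut.conjNormal g : N ≃* N) b : N) : G) • (g • x) = g • ((b : G) • x)
    rw [MulAut.conjNormal_apply, ← mul_smul, ← mul_smul]
    congr 1
    group
  rw [h1, hf]

/-- **Orbits of length at most `2 (k - 1)` are cliques.** -/
theorem clique [Finite G] (hI : IsConfiguration I n k) (hT : TrilateralFree I) (hn : n = k * (k - 1) ^ 2 + k)
    (hk : k % 2 = 1) (hk3 : 3 ≤ k) (hinv : ∀ (g : G) x l, I x l → I (g • x) (g • l))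
    (htrans : ∀ x y : P, ∃ g : G, g • x = y) (N : Subgroup G) [N.Normal] (x : P)
    (hm : (MulAction.orbit N x).ncard ≤ 2 * (k - 1)) (b : N) (hb : b • x ≠ x) : ∃ l, I x l ∧ I (b • x) l := by
  classical
  have : Fintype N := Fintype.ofFinite N
  have hinvN : ∀ (b : N) x l, I x l → I (b • x) (b • l) := fun b x l h => hinv (b : G) x l h
  set O : Finset P := univ.image (fun b : N => b • x) with hO
  set σ : ℕ := (univ.filter fun b : N => b • x = x).card with hσ
  have hσ0 : (σ : ℚ) ≠ 0 := by
    have : 0 < σ := Finset.card_pos.2 ⟨1, by simp⟩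
    exact_mod_cast this.ne'
  have hOm : O.card = (MulAction.orbit N x).ncard := by
    rw [← Set.ncard_coe_finset]
    congr 1
    ext y
    simp [hO, MulAction.mem_orbit_iff]
  have hxO : x ∈ O := Finset.mem_image.2 ⟨1, Finset.mem_univ _, one_smul _ _⟩
  have hn0 : (n : ℚ) ≠ 0 := n_ne hn (by omega)
  have hcardP : (Fintype.card P : ℚ) = n := by
    rw [← Nat.card_eq_fintype_card, hI.card_points]
  -- the order of `N`
  have hcard : (Fintype.card N : ℚ) = σ * O.card := by
    have := sum_orbit (B := N) x (fun _ => (1 : ℚ))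
    simpa using this
  -- the average of Benson's congruence
  obtain ⟨a, ha⟩ := average (B := N) hI hT hn (by omega) hinvN
  rw [Finset.sum_comm] at ha
  have hS : ∀ y, ∑ b : N, S I y (b • y) = ∑ b : N, S I x (b • x) := by
    intro y
    obtain ⟨g, rfl⟩ := htrans x y
    exact conj_sum N (S I) (fun g p q => S_inv hinv g p q) g x
  rw [Finset.sum_congr rfl (fun y _ => hS y), Finset.sum_const, Finset.card_univ, nsmul_eq_mul, hcardP,
    sum_orbit (B := N) x (fun y => S I x y)] at ha
  -- the number of orbits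
  obtain ⟨r, hr⟩ : ∃ r : ℕ, n = r * O.card := by
    have h1 := MulAction.sum_card_fixedBy_eq_card_orbits_mul_card_group N P
    have h2 : ∀ b : N, (Fintype.card (MulAction.fixedBy P b) : ℚ) = ∑ y : P, if b • y = y then (1 : ℚ) else 0 := by
      intro b
      rw [Finset.sum_boole]
      congr 1
      rw [Fintype.card_subtype]
      rfl
    have h3 : ∀ y : P, ∑ b : N, (if b • y = y then (1 : ℚ) else 0) = σ := by
      intro y
      obtain ⟨g, rfl⟩ := htrans x y
      have := conj_sum N (fun p q => if q = p then (1 : ℚ) else 0) (fun g p q => by simp) g x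
      rw [this, Finset.sum_boole]
    have h4 : ∑ b : N, (Fintype.card (MulAction.fixedBy P b) : ℚ) = n * σ := by
      rw [Finset.sum_congr rfl (fun b _ => h2 b), Finset.sum_comm, Finset.sum_congr rfl (fun y _ => h3 y),
        Finset.sum_const, Finset.card_univ, nsmul_eq_mul, hcardP]
    refine ⟨Fintype.card (Quotient (MulAction.orbitRel N P)), ?_⟩
    have h5 : (n : ℚ) * σ = Fintype.card (Quotient (MulAction.orbitRel N P)) * (σ * O.card) := by
      rw [← h4, ← hcard]
      exact_mod_cast h1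
    have h6 : (n : ℚ) = Fintype.card (Quotient (MulAction.orbitRel N P)) * O.card := by
      have h7 : (σ : ℚ) * n = σ * (Fintype.card (Quotient (MulAction.orbitRel N P)) * O.card) := by
        rw [mul_comm, h5]; ring
      exact mul_left_cancel₀ hσ0 h7
    exact_mod_cast h6
  -- points of the orbit collinear with `x`
  set C : Finset P := (O.erase x).filter (fun y => ∃ l, I x l ∧ I y l) with hC
  have hsum : ∑ y ∈ O, S I x y = k + C.card := by
    rw [← Finset.add_sum_erase O _ hxO, S_self hI]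
    congr 1
    have h1 : ∀ y ∈ O.erase x, S I x y = if ∃ l, I x l ∧ I y l then (1 : ℚ) else 0 := by
      intro y hy
      have hxy : x ≠ y := fun h => (Finset.mem_erase.1 hy).1 h.symm
      split_ifs with h
      · obtain ⟨l, h2, h3⟩ := h
        exact S_col hI hxy h2 h3
      · exact S_ncol h
    rw [Finset.sum_congr rfl h1, Finset.sum_boole]
  have hCle : C.card ≤ O.card - 1 := by
    rw [← Finset.card_erase_of_mem hxO]
    exact Finset.card_filter_le _ _
  have hO1 : 1 ≤ O.card := Finset.card_pos.2 ⟨x, hxO⟩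
  have hkey : n * (k + C.card) = O.card * (k ^ 2 + (2 * k - 2) * a) := by
    have h1 : (n : ℚ) * (k + C.card) = O.card * ((k : ℚ) ^ 2 + (2 * k - 2) * a) := by
      rw [hsum, hcard] at ha
      have h2 : (σ : ℚ) * (n * (k + C.card)) = σ * (O.card * ((k : ℚ) ^ 2 + (2 * k - 2) * a)) := by
        linear_combination ha
      exact mul_left_cancel₀ hσ0 h2
    have h3 : ((2 * k - 2 : ℕ) : ℚ) = 2 * (k : ℚ) - 2 := by
      rw [Nat.cast_sub (by omega)]
      push_cast
      ring
    rw [← h3] at h1
    exact_mod_cast h1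
  have hfin : C.card = O.card - 1 := arith k n O.card C.card a r hk hk3 hn hkey hr (by rw [hOm]; exact hm) hO1 hCle
  have hCe : C = O.erase x := by
    apply Finset.eq_of_subset_of_card_le (Finset.filter_subset _ _)
    rw [hfin, Finset.card_erase_of_mem hxO]
  have hbO : b • x ∈ O.erase x :=
    Finset.mem_erase.2 ⟨hb, Finset.mem_image.2 ⟨b, Finset.mem_univ _, rfl⟩⟩
  rw [← hCe] at hbO
  exact (Finset.mem_filter.1 hbO).2

/-- the projection axiom of generalized quadrangles -/
theorem gq (hI : IsConfiguration I n k) (hT : TrilateralFree I) (hn : n = k * (k - 1) ^ 2 + k) (hk : 1 ≤ k)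
    (x : P) (M : L) (hx : ¬ I x M) : ∃ z N, I z M ∧ I z N ∧ I x N := by
  by_contra hcon
  push Not at hcon
  have h1 := key_entry hI hT hn hk x M
  rw [inc_of_not I hx, mul_zero, zero_add] at h1
  have h2 : ∑ m, inc I x m * ∑ q, inc I q m * inc I q M = 0 := by
    apply Finset.sum_eq_zero
    intro m _
    by_cases h3 : I x m
    · rw [Finset.sum_eq_zero, mul_zero]
      intro q _
      by_cases h4 : I q M
      · by_cases h5 : I q m
        · exact absurd h3 (hcon q m h4 h5)
        · rw [inc_of_not I h5, zero_mul]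
      · rw [inc_of_not I h4, mul_zero]
    · rw [inc_of_not I h3, zero_mul]
  rw [h2] at h1
  exact zero_ne_one h1

/-- all orbits of a normal subgroup of a transitive group have the same length -/
theorem orbit_ncard (htrans : ∀ x y : P, ∃ g : G, g • x = y) (N : Subgroup G) [N.Normal] (x y : P) :
    (MulAction.orbit N x).ncard = (MulAction.orbit N y).ncard := by
  obtain ⟨g, rfl⟩ := htrans x y
  have h1 : MulAction.orbit N (g • x) = (fun z => g • z) '' MulAction.orbit N x := by
    ext z
    constructor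
    · rintro ⟨b, rfl⟩
      refine ⟨(⟨g⁻¹ * (b : G) * g, by simpa using (‹N.Normal›).conj_mem _ b.2 g⁻¹⟩ : N) • x, ⟨_, rfl⟩, ?_⟩
      show g • ((g⁻¹ * (b : G) * g) • x) = (b : G) • (g • x)
      rw [← mul_smul, ← mul_smul]
      congr 1
      group
    · rintro ⟨w, ⟨b, rfl⟩, rfl⟩
      refine ⟨⟨g * (b : G) * g⁻¹, (‹N.Normal›).conj_mem _ b.2 g⟩, ?_⟩
      show (g * (b : G) * g⁻¹) • (g • x) = g • ((b : G) • x)
      rw [← mul_smul, ← mul_smul]
      congr 1
      group
  rw [h1, Set.ncard_image_of_injective _ (MulAction.injective g)]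

/-- **Normal subgroups with short orbits are trivial.** -/
theorem trivial_of_short [Finite G] (hI : IsConfiguration I n k) (hT : TrilateralFree I) (hn : n = k * (k - 1) ^ 2 + k)
    (hk : k % 2 = 1) (hk3 : 3 ≤ k) (hinv : ∀ (g : G) x l, I x l → I (g • x) (g • l))
    (htrans : ∀ x y : P, ∃ g : G, g • x = y) (N : Subgroup G) [N.Normal] (x : P)
    (hm : (MulAction.orbit N x).ncard ≤ 2 * (k - 1)) : ∀ b ∈ N, ∀ y : P, b • y = y := by
  classical
  intro b hb y
  by_contra hby
  have hmm : ∀ z : P, (MulAction.orbit N z).ncard ≤ 2 * (k - 1) := fun z => by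
    rw [orbit_ncard htrans N z x]; exact hm
  have hcl : ∀ (c : N) (z : P), c • z ≠ z → ∃ l, I z l ∧ I (c • z) l := fun c z h =>
    clique hI hT hn hk hk3 hinv htrans N z (hmm z) c h
  -- every point is moved
  have hmove : ∀ z : P, ∃ c : N, c • z ≠ z := by
    intro z
    by_contra hcon
    push Not at hcon
    have h1 : MulAction.orbit N z = {z} := by
      ext w
      constructor
      · rintro ⟨c, rfl⟩
        exact hcon c
      · rintro rfl
        exact MulAction.mem_orbit_self _
    have h2 : (MulAction.orbit N y).ncard = 1 := by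
      rw [orbit_ncard htrans N y z, h1, Set.ncard_singleton]
    obtain ⟨w, hw⟩ := Set.ncard_eq_one.1 h2
    have h3 : y ∈ MulAction.orbit N y := MulAction.mem_orbit_self _
    have h4 : (⟨b, hb⟩ : N) • y ∈ MulAction.orbit N y := MulAction.mem_orbit _ _
    rw [hw] at h3 h4
    exact hby (h4.trans h3.symm)
  -- `b` has no fixed point
  have hfree : ∀ z : P, (⟨b, hb⟩ : N) • z ≠ z := by
    intro z hz
    refine hby (Spread.no_fixed (B := N) I k hk3 (by rw [hI.card_points, hn]) hI.card_on_line hI.card_through_point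
      hI.unique_line hT (fun x M h => gq hI hT hn (by omega) x M h) (fun c x l h => hinv (c : G) x l h) hcl hmove
      ⟨b, hb⟩ z hz y)
  -- Benson's congruence
  obtain ⟨z, hz⟩ := benson (B := G) hI hT hn (by omega) hinv b
  have h1 : ∀ w : P, S I w (b • w) = 1 := by
    intro w
    obtain ⟨l, h2, h3⟩ := hcl ⟨b, hb⟩ w (hfree w)
    exact S_col hI (fun h => hfree w h.symm) h2 h3
  rw [Finset.sum_congr rfl (fun w _ => h1 w), Finset.sum_const, Finset.card_univ, nsmul_eq_mul, mul_one,
    ← Nat.card_eq_fintype_card, hI.card_points] at hz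
  obtain ⟨t, rfl⟩ : ∃ t, k = 2 * t + 1 := ⟨k / 2, by omega⟩
  have h4 : (2 * t + 1) - 1 = 2 * t := by omega
  rw [hn, h4] at hz
  have h5 : ((2 * t + 1 : ℤ)) * (2 * t) ^ 2 + (2 * t + 1) = (2 * t + 1) ^ 2 + 4 * t * z := by
    have h6 : ((2 * t + 1 : ℚ)) * (2 * t) ^ 2 + (2 * t + 1) = (2 * t + 1) ^ 2 + 4 * t * z := by
      push_cast at hz
      linear_combination hz
    exact_mod_cast h6
  have h6 : (t : ℤ) * (4 * t ^ 2 - 1 - 2 * z) = 0 := by
    have h7 : (2 : ℤ) * ((t : ℤ) * (4 * t ^ 2 - 1 - 2 * z)) = 0 := by linear_combination h5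
    omega
  rcases mul_eq_zero.1 h6 with h | h
  · omega
  · omega

end

end Pool.Agent.Lib.MP_e0c1ed_co.Norm
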