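import Pool.Agent.Lib.MP_e0c1ed_co.J0
import Pool.Agent.Lib.MP_e0c1ed_co.Norm

/-!
# MP_e0c1ed / J3: the number of points of a closed substructure
-/

set_option autoImplicit false

namespace Pool.Agent.Lib.MP_e0c1ed_co

open Pool.Agent.Results.MP_e0c1ed_co.SelfDualSquare

section
variable {P L : Type*} [Fintype P] [Fintype L] {I : P → L → Prop} {n k : ℕ}

/-- Every point of `X` is on the line `l`, or on a line of `Y` through a point of `X` on `l`. -/
theorem J3.card_le (hI : IsConfiguration I n k) (hT : TrilateralFree I) (hn : n = k * (k - 1) ^ 2 + k) (hk3 : 3 ≤ k)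
    (X : Set P) (Y : Set L) (hC : J0.Closed I X Y) (a b : ℕ) (hX : ∀ x ∈ X, {l | l ∈ Y ∧ I x l}.ncard = b)
    (hY : ∀ l ∈ Y, {x | x ∈ X ∧ I x l}.ncard = a) (l : L) (hl : l ∈ Y) :
    X.ncard ≤ a * (1 + (b - 1) * (a - 1)) := by
  classical
  let XF : Finset P := Finset.univ.filter fun x => x ∈ X
  let A : L → Finset P := fun m => Finset.univ.filter fun x => x ∈ X ∧ I x m
  let B : P → Finset L := fun z => Finset.univ.filter fun m => m ∈ Y ∧ I z m
  have hA : ∀ m ∈ Y, (A m).card = a := by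
    intro m hm
    rw [← hY m hm, ← Set.ncard_coe_finset]
    congr 1
    ext x
    simp [A]
  have hB : ∀ z ∈ X, (B z).card = b := by
    intro z hz
    rw [← hX z hz, ← Set.ncard_coe_finset]
    congr 1
    ext m
    simp [B]
  have hXF : X.ncard = XF.card := by
    rw [← Set.ncard_coe_finset]
    congr 1
    ext x
    simp [XF]
  have hsub : XF ⊆ (A l).biUnion fun z => insert z (((B z).erase l).biUnion fun m => (A m).erase z) := by
    intro x hx
    have hxX : x ∈ X := (Finset.mem_filter.1 hx).2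
    rw [Finset.mem_biUnion]
    by_cases hxl : I x l
    · exact ⟨x, Finset.mem_filter.2 ⟨Finset.mem_univ _, hxX, hxl⟩, Finset.mem_insert_self _ _⟩
    · obtain ⟨z, m, hzl, hzm, hxm⟩ := Norm.gq hI hT hn (by omega) x l hxl
      obtain ⟨hz, hm⟩ := hC.2.2 x hxX l hl m z hxl hxm hzm hzl
      refine ⟨z, Finset.mem_filter.2 ⟨Finset.mem_univ _, hz, hzl⟩, Finset.mem_insert_of_mem ?_⟩
      rw [Finset.mem_biUnion]
      refine ⟨m, Finset.mem_erase.2 ⟨?_, Finset.mem_filter.2 ⟨Finset.mem_univ _, hm, hzm⟩⟩,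
        Finset.mem_erase.2 ⟨?_, Finset.mem_filter.2 ⟨Finset.mem_univ _, hxX, hxm⟩⟩⟩
      · rintro rfl
        exact hxl hxm
      · rintro rfl
        exact hxl hzl
  rw [hXF, ← hA l hl]
  refine (Finset.card_le_card hsub).trans (Finset.card_biUnion_le_card_mul _ _ _ ?_)
  intro z hz
  obtain ⟨-, hzX, hzl⟩ := Finset.mem_filter.1 hz
  refine (Finset.card_insert_le _ _).trans ?_
  rw [add_comm]
  refine Nat.add_le_add_left ?_ 1
  have h1 : ((B z).erase l).card = b - 1 := by
    rw [Finset.card_erase_of_mem (Finset.mem_filter.2 ⟨Finset.mem_univ _, hl, hzl⟩), hB z hzX]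
  rw [← h1]
  refine Finset.card_biUnion_le_card_mul _ _ _ ?_
  intro m hm
  obtain ⟨hml, hm'⟩ := Finset.mem_erase.1 hm
  obtain ⟨-, hmY, hzm⟩ := Finset.mem_filter.1 hm'
  rw [Finset.card_erase_of_mem (Finset.mem_filter.2 ⟨Finset.mem_univ _, hzX, hzm⟩), hA m hmY, hA l hl]

end

end Pool.Agent.Lib.MP_e0c1ed_co
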