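import Pool.Agent.Lib.MP_e0c1ed_co.J1
import Pool.Agent.Lib.MP_e0c1ed_co.J3

/-!
# MP_e0c1ed / J4: the inequality for subquadrangles
-/

set_option autoImplicit false

namespace Pool.Agent.Lib.MP_e0c1ed_co.J4

open Finset Pool.Agent.Results.MP_e0c1ed_co.SelfDualSquare Pool.Agent.Lib.MP_e0c1ed_co

private theorem ncard_eq {α : Type*} [Fintype α] (Q : α → Prop) [DecidablePred Q] :
    {z | Q z}.ncard = ∑ z : α, if Q z then 1 else 0 := by
  rw [Set.ncard_eq_toFinset_card', Finset.sum_boole, Nat.cast_id]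
  congr 1
  ext z
  simp

variable {P L : Type*} [Fintype P] [Fintype L] {I : P → L → Prop} {n k : ℕ}

/-- A closed substructure with `a` points on every line and `b` lines on every point: `a = k` or
`(a - 1) (b - 1) ≤ k - 1`. -/
theorem sub (hI : IsConfiguration I n k) (hT : TrilateralFree I) (hn : n = k * (k - 1) ^ 2 + k) (hk3 : 3 ≤ k)
    (X : Set P) (Y : Set L) (hC : J0.Closed I X Y) (a b : ℕ) (ha : 1 ≤ a) (hb : 1 ≤ b)
    (hX : ∀ x ∈ X, {l | l ∈ Y ∧ I x l}.ncard = b)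
    (hY : ∀ l ∈ Y, {x | x ∈ X ∧ I x l}.ncard = a) (x : P) (hx : x ∈ X) :
    a = k ∨ (a - 1) * (b - 1) ≤ k - 1 := by
  classical
  obtain ⟨l0, hl0, hxl0⟩ : {l | l ∈ Y ∧ I x l}.Nonempty := by
    rw [← Set.ncard_pos, hX x hx]
    omega
  have h3 := J3.card_le hI hT hn hk3 X Y hC a b hX hY l0 hl0
  have h1 := J1.ineq hI hT hn hk3 X
  have hF : 0 < X.ncard := (Set.ncard_pos).2 ⟨x, hx⟩
  have hak : a ≤ k := by
    rw [← hY l0 hl0, ← hI.card_on_line l0]
    exact Set.ncard_le_ncard (fun y hy => hy.2)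
  -- double counting of flags
  have s1 : ∑ l : L, {x | x ∈ X ∧ I x l}.ncard = k * X.ncard := by
    have e1 : ∀ l : L, {x | x ∈ X ∧ I x l}.ncard = ∑ x : P, if x ∈ X ∧ I x l then 1 else 0 := fun l => ncard_eq _
    have e2 : ∀ x : P, (∑ l : L, if x ∈ X ∧ I x l then 1 else 0) = (if x ∈ X then 1 else 0) * k := by
      intro x
      by_cases hx : x ∈ X
      · rw [if_pos hx, one_mul, ← hI.card_through_point x, ncard_eq]
        exact Finset.sum_congr rfl fun l _ => by simp [hx]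
      · rw [if_neg hx, zero_mul]
        exact Finset.sum_eq_zero fun l _ => if_neg fun h => hx h.1
    rw [Finset.sum_congr rfl (fun l _ => e1 l), Finset.sum_comm, Finset.sum_congr rfl (fun x _ => e2 x),
      ← Finset.sum_mul, ← ncard_eq, mul_comm]
    rfl
  have s2 : ∑ l : L, (if l ∈ Y then {x | x ∈ X ∧ I x l}.ncard else 0) = b * X.ncard := by
    have e1 : ∀ l : L, (if l ∈ Y then {x | x ∈ X ∧ I x l}.ncard else 0) =
        ∑ x : P, if x ∈ X ∧ (l ∈ Y ∧ I x l) then 1 else 0 := by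
      intro l
      by_cases hl : l ∈ Y
      · rw [if_pos hl, ncard_eq]
        exact Finset.sum_congr rfl fun x _ => by simp [hl]
      · rw [if_neg hl]
        exact (Finset.sum_eq_zero fun x _ => if_neg fun h => hl h.2.1).symm
    have e2 : ∀ x : P, (∑ l : L, if x ∈ X ∧ (l ∈ Y ∧ I x l) then 1 else 0) = (if x ∈ X then 1 else 0) * b := by
      intro x
      by_cases hx : x ∈ X
      · rw [if_pos hx, one_mul, ← hX x hx, ncard_eq]
        exact Finset.sum_congr rfl fun l _ => by simp [hx]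
      · rw [if_neg hx, zero_mul]
        exact Finset.sum_eq_zero fun l _ => if_neg fun h => hx h.1
    rw [Finset.sum_congr rfl (fun l _ => e1 l), Finset.sum_comm, Finset.sum_congr rfl (fun x _ => e2 x),
      ← Finset.sum_mul, ← ncard_eq, mul_comm]
    rfl
  have s3 : ∑ l : L, ({x | x ∈ X ∧ I x l}.ncard) ^ 2 = k * X.ncard + (a - 1) * (b * X.ncard) := by
    rw [← s1, ← s2, Finset.mul_sum, ← Finset.sum_add_distrib]
    refine Finset.sum_congr rfl fun l _ => ?_
    by_cases hl : l ∈ Y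
    · rw [if_pos hl, hY l hl]
      obtain ⟨c, rfl⟩ : ∃ c, a = c + 1 := ⟨a - 1, by omega⟩
      rw [Nat.add_sub_cancel]
      ring
    · rw [if_neg hl, mul_zero, add_zero]
      have h5 : {x | x ∈ X ∧ I x l}.ncard ≤ 1 := by
        rw [Set.ncard_le_one_iff]
        rintro y z ⟨hy1, hy2⟩ ⟨hz1, hz2⟩
        by_contra hne
        exact hl (hC.1 y hy1 z hz1 l hne hy2 hz2)
      rcases Nat.le_one_iff_eq_zero_or_eq_one.1 h5 with h | h <;> rw [h] <;> norm_num
  rw [s3] at h1
  have h4 : k * (k + (a - 1) * b) ≤ 2 * (k - 1) * k + X.ncard := by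
    refine Nat.le_of_mul_le_mul_right (c := X.ncard) ?_ hF
    calc k * (k + (a - 1) * b) * X.ncard = k * (k * X.ncard + (a - 1) * (b * X.ncard)) := by ring
      _ ≤ _ := h1
      _ = _ := by ring
  have h5 := h4.trans (Nat.add_le_add_left h3 _)
  by_cases hake : a = k
  · exact Or.inl hake
  right
  obtain ⟨s, rfl⟩ : ∃ s, k = s + 1 := ⟨k - 1, by omega⟩
  obtain ⟨u, rfl⟩ : ∃ u, a = u + 1 := ⟨a - 1, by omega⟩
  obtain ⟨v, rfl⟩ : ∃ v, b = v + 1 := ⟨b - 1, by omega⟩
  simp only [Nat.add_sub_cancel] at h5 ⊢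
  have hus : u < s := by omega
  by_contra hcon
  push Not at hcon
  zify at h5 hus hcon
  have h6 : (0 : ℤ) < (s - u) * (u * v - s) := mul_pos (by linarith) (by linarith)
  nlinarith

end Pool.Agent.Lib.MP_e0c1ed_co.J4
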