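import Pool.Agent.Lib.MP_e0c1ed_co.J2
import Pool.Agent.Lib.MP_e0c1ed_co.J4
import Pool.Agent.Lib.MP_e0c1ed_co.Aut
import Pool.Agent.Lib.MP_e0c1ed_co.TransRad
import Pool.Agent.Lib.MP_e0c1ed_co.Benson

/-!
# MP_e0c1ed / J5: elements of prime order `p ∣ (k - 1)² + 1` with `((k - 1) mod p)² > k - 1` fix no point
-/

set_option autoImplicit false

namespace Pool.Agent.Lib.MP_e0c1ed_co.J5

open Pool.Agent.Results.MP_e0c1ed_co.SelfDualSquare Pool.Agent.Lib.MP_e0c1ed_co

variable {P L G : Type*} [Finite P] [Finite L] [Group G] [Finite G] [MulAction G P] [MulAction G L]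
  {I : P → L → Prop} {n k : ℕ}

private theorem fixed_closed (hI : IsConfiguration I n k) (hT : TrilateralFree I)
    (hG : ∀ (g : G) (p : P) (l : L), I (g • p) (g • l) ↔ I p l) (g : G) :
    J0.Closed I {x : P | g • x = x} {l : L | g • l = l} := by
  have c1 : ∀ x ∈ {x : P | g • x = x}, ∀ y ∈ {x : P | g • x = x}, ∀ l, x ≠ y → I x l → I y l →
      l ∈ {l : L | g • l = l} := by
    intro x hx y hy l hxy h1 h2
    have h3 := (hG g x l).2 h1
    have h4 := (hG g y l).2 h2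
    rw [show g • x = x from hx] at h3
    rw [show g • y = y from hy] at h4
    exact hI.unique_line x y (g • l) l hxy h3 h4 h1 h2
  refine ⟨c1, ?_, ?_⟩
  · intro l hl m hm x hlm h1 h2
    have h3 := (hG g x l).2 h1
    have h4 := (hG g x m).2 h2
    rw [show g • l = l from hl] at h3
    rw [show g • m = m from hm] at h4
    by_contra hx
    exact hlm (hI.unique_line (g • x) x l m hx h3 h1 h4 h2)
  · intro x hx l hl m z hxl hxm hzm hzl
    have h3 := (hG g x m).2 hxm
    have h4 := (hG g z m).2 hzm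
    have h5 := (hG g z l).2 hzl
    rw [show g • x = x from hx] at h3
    rw [show g • l = l from hl] at h5
    have h6 : z ∈ {x : P | g • x = x} :=
      (Semi.proj_unique hI hT x l hxl hzl h5 hzm hxm h4 h3).symm
    refine ⟨h6, c1 x hx z h6 m ?_ hxm hzm⟩
    rintro rfl
    exact hxl hzl

/-- **Elements of prime order `p ∣ (k - 1)² + 1` with `((k - 1) mod p)² > k - 1` fix no point.** -/
theorem free (hI : IsConfiguration I n k) (hT : TrilateralFree I) (hn : n = k * (k - 1) ^ 2 + k)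
    (hk : k % 2 = 1) (hk3 : 3 ≤ k) (hG : ∀ (g : G) (p : P) (l : L), I (g • p) (g • l) ↔ I p l)
    (hf : ∀ g : G, (∀ p : P, g • p = p) → g = 1) (p : ℕ) (hp : p.Prime) (hps : p ∣ (k - 1) ^ 2 + 1)
    (hr : k - 1 < ((k - 1) % p) ^ 2) (g : G) (hg : g ^ p = 1) (hne : g ≠ 1) : ∀ x : P, g • x ≠ x := by
  classical
  intro x hx
  have : Fintype P := Fintype.ofFinite P
  have : Fintype L := Fintype.ofFinite L
  have := Fact.mk hp
  obtain ⟨hI', hT'⟩ := Aut.dualize I n k hI hT
  -- the residue `r` of `k - 1`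
  have hp2 : p ≠ 2 := by
    rintro rfl
    obtain ⟨t, hkt⟩ : ∃ t, k = 2 * t + 1 := ⟨k / 2, by omega⟩
    have e1 : (k - 1) ^ 2 + 1 = 2 * (2 * t ^ 2) + 1 := by
      rw [hkt, Nat.add_sub_cancel]
      ring
    rw [e1] at hps
    omega
  obtain ⟨r, hrd⟩ : ∃ r, r = (k - 1) % p := ⟨_, rfl⟩
  rw [← hrd] at hr
  have hrp : r < p := hrd ▸ Nat.mod_lt _ hp.pos
  have hr2 : 2 ≤ r := by
    by_contra h
    have h1 : r ≤ 1 := by omega
    have h2 : r ^ 2 ≤ 1 := by
      calc r ^ 2 ≤ 1 ^ 2 := Nat.pow_le_pow_left h1 2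
        _ = 1 := by norm_num
    omega
  have hpr : p ∣ r ^ 2 + 1 := by
    have h1 : r ^ 2 + 1 ≡ (k - 1) ^ 2 + 1 [MOD p] := by
      rw [hrd]
      exact ((Nat.mod_modEq (k - 1) p).pow 2).add_right 1
    exact (Nat.modEq_zero_iff_dvd).1 (h1.trans ((Nat.modEq_zero_iff_dvd).2 hps))
  have hr1 : r + 1 < p := by
    by_contra h
    have h1 : p = r + 1 := by omega
    have h2 : r ^ 2 + 1 + 2 * p = p * p + 2 := by
      rw [h1]
      ring
    have h3 : p ∣ 2 := (Nat.dvd_add_right (dvd_mul_right p p)).1 (h2 ▸ dvd_add hpr (dvd_mul_left p 2))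
    exact hp2 ((Nat.prime_dvd_prime_iff_eq hp Nat.prime_two).1 h3)
  have hkmod : k % p = r + 1 := by
    have h1 : k ≡ r + 1 [MOD p] := by
      have h2 : (k - 1) + 1 ≡ r + 1 [MOD p] := by
        rw [hrd]
        exact (Nat.mod_modEq (k - 1) p).symm.add_right 1
      rwa [Nat.sub_add_cancel (by omega)] at h2
    rw [h1, Nat.mod_eq_of_lt hr1]
  have hbig : ∀ c : ℕ, k ≡ c [MOD p] → r + 1 ≤ c := by
    intro c hc
    rw [← hkmod, hc]
    exact Nat.mod_le _ _
  have hC := fixed_closed hI hT hG g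
  obtain ⟨X, hXd⟩ : ∃ X : Set P, X = {x : P | g • x = x} := ⟨_, rfl⟩
  obtain ⟨Y, hYd⟩ : ∃ Y : Set L, Y = {l : L | g • l = l} := ⟨_, rfl⟩
  rw [← hXd, ← hYd] at hC
  have hC' : J0.Closed (fun l p => I p l) Y X :=
    ⟨hC.2.1, hC.1, fun l hl x hx z m h1 h2 h3 h4 => (hC.2.2 x hx l hl m z h1 h4 h3 h2).symm⟩
  have hxX : x ∈ X := by rw [hXd]; exact hx
  -- the degrees
  have hY3 : ∀ l ∈ Y, r + 1 ≤ {x | x ∈ X ∧ I x l}.ncard := by
    intro l hl
    rw [hYd] at hl
    apply hbig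
    have h1 := set_modEq g p hg {y : P | I y l} (fun y hy => by
      have := (hG g y l).2 hy
      rwa [show g • l = l from hl] at this)
    rw [hI.card_on_line l] at h1
    have h2 : {x | x ∈ X ∧ I x l} = {y ∈ {y : P | I y l} | g • y = y} := by
      ext y
      rw [hXd]
      exact and_comm
    rw [h2]
    exact h1
  have hX3 : ∀ x ∈ X, r + 1 ≤ {l | l ∈ Y ∧ I x l}.ncard := by
    intro x hx
    rw [hXd] at hx
    apply hbig
    have h1 := set_modEq g p hg {l : L | I x l} (fun l hl => by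
      have := (hG g x l).2 hl
      rwa [show g • x = x from hx] at this)
    rw [hI.card_through_point x] at h1
    have h2 : {l | l ∈ Y ∧ I x l} = {l ∈ {l : L | I x l} | g • l = l} := by
      ext l
      rw [hYd]
      exact and_comm
    rw [h2]
    exact h1
  obtain ⟨l0, hl0, hxl0⟩ : {l | l ∈ Y ∧ I x l}.Nonempty := by
    rw [← Set.ncard_pos]
    have := hX3 x hxX
    omega
  obtain ⟨a, ha⟩ : ∃ a, a = {x | x ∈ X ∧ I x l0}.ncard := ⟨_, rfl⟩
  obtain ⟨b, hb⟩ : ∃ b, b = {l | l ∈ Y ∧ I x l}.ncard := ⟨_, rfl⟩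
  have hYa : ∀ l ∈ Y, {x | x ∈ X ∧ I x l}.ncard = a := by
    intro l hl
    rw [ha]
    exact J2.const hI hT hn hk3 X Y hC (fun x hx => (by omega : 3 ≤ r + 1).trans (hX3 x hx))
      (fun l hl => (by omega : 3 ≤ r + 1).trans (hY3 l hl)) l l0 hl hl0
  have hXb : ∀ y ∈ X, {l | l ∈ Y ∧ I y l}.ncard = b := by
    intro y hy
    rw [hb]
    exact J2.const (I := fun l p => I p l) hI' hT' hn hk3 Y X hC'
      (fun l hl => (by omega : 3 ≤ r + 1).trans (hY3 l hl))
      (fun x hx => (by omega : 3 ≤ r + 1).trans (hX3 x hx)) y x hy hxX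
  have har : r + 1 ≤ a := ha ▸ hY3 l0 hl0
  have hbr : r + 1 ≤ b := hb ▸ hX3 x hxX
  have hab : k - 1 < (a - 1) * (b - 1) := by
    refine hr.trans_le ?_
    rw [sq]
    exact Nat.mul_le_mul (by omega) (by omega)
  have hak : a = k := by
    rcases J4.sub hI hT hn hk3 X Y hC a b (by omega) (by omega) hXb hYa x hxX with h | h
    · exact h
    · omega
  have hbk : b = k := by
    rcases J4.sub (I := fun l p => I p l) hI' hT' hn hk3 Y X hC' b a (by omega) (by omega) hYa hXb l0 hl0 with h | h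
    · exact h
    · rw [mul_comm] at h
      omega
  -- everything is fixed
  have f1 : ∀ l ∈ Y, ∀ y, I y l → y ∈ X := by
    intro l hl y hy
    have h1 : {x | x ∈ X ∧ I x l} = {x | I x l} := by
      apply Set.eq_of_subset_of_ncard_le (fun z hz => hz.2)
      rw [hI.card_on_line l, hYa l hl, hak]
    have h2 : y ∈ {x | x ∈ X ∧ I x l} := by rw [h1]; exact hy
    exact h2.1
  have f2 : ∀ y ∈ X, ∀ l, I y l → l ∈ Y := by
    intro y hy l hl
    have h1 : {l | l ∈ Y ∧ I y l} = {l | I y l} := by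
      apply Set.eq_of_subset_of_ncard_le (fun z hz => hz.2)
      rw [hI.card_through_point y, hXb y hy, hbk]
    have h2 : l ∈ {l | l ∈ Y ∧ I y l} := by rw [h1]; exact hl
    exact h2.1
  refine hne (hf g fun y => ?_)
  have hyX : y ∈ X := by
    have h1 : 1 < {l | I y l}.ncard := by rw [hI.card_through_point]; omega
    obtain ⟨l, m, hyl, -, -⟩ := (Set.one_lt_ncard_iff).1 h1
    by_cases hxl : I x l
    · exact f1 l (f2 x hxX l hxl) y hyl
    · obtain ⟨m, q, hm, hqm, hql⟩ := gq_axiom hI hT hn (by omega) x l hxl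
      exact f1 l (f2 q (f1 m (f2 x hxX m hm) q hqm) l hql) y hyl
  rw [hXd] at hyX
  exact hyX

end Pool.Agent.Lib.MP_e0c1ed_co.J5
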