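import Pool.Agent.Lib.MP_e0c1ed_co.H6
import Pool.Agent.Lib.MP_e0c1ed_co.J5

/-!
# MP_e0c1ed / J6: flag transitive groups are almost simple for almost all odd `k`
-/

set_option autoImplicit false

namespace Pool.Agent.Lib.MP_e0c1ed_co.J6

open Pool.Agent.Results.MP_e0c1ed_co.SelfDualSquare Pool.Agent.Lib.MP_e0c1ed_co

variable {P L G : Type*} [Finite P] [Finite L] [Group G] [Finite G] [MulAction G P] [MulAction G L]
  {I : P → L → Prop} {n k : ℕ}

/-- If `G` is transitive on the points, `p² ∤ |G|` for these primes `p`. -/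
theorem not_sq_dvd (hI : IsConfiguration I n k) (hT : TrilateralFree I) (hn : n = k * (k - 1) ^ 2 + k)
    (hk : k % 2 = 1) (hk3 : 3 ≤ k) (hG : ∀ (g : G) (p : P) (l : L), I (g • p) (g • l) ↔ I p l)
    (hf : ∀ g : G, (∀ p : P, g • p = p) → g = 1) (ht : ∀ p q : P, ∃ g : G, g • p = q)
    (p : ℕ) (hp : p.Prime) (hps : p ∣ (k - 1) ^ 2 + 1) (hp2 : ¬ p ^ 2 ∣ (k - 1) ^ 2 + 1)
    (hr : k - 1 < ((k - 1) % p) ^ 2) : ¬ p ^ 2 ∣ Nat.card G := by
  classical
  intro h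
  have := Fact.mk hp
  have hPret : MulAction.IsPretransitive G P := ⟨ht⟩
  have hcard : Nat.card P = k * ((k - 1) ^ 2 + 1) := by
    rw [hI.card_points, hn]
    ring
  obtain ⟨x⟩ : Nonempty P := by
    rw [← Finite.card_pos_iff, hcard]
    positivity
  have h1 : Nat.card P * Nat.card (MulAction.stabilizer G x) = Nat.card G := by
    rw [← MulAction.index_stabilizer_of_transitive G x, mul_comm]
    exact Subgroup.card_mul_index _
  -- `p ∤ |G_x|`
  have h2 : ¬ p ∣ Nat.card (MulAction.stabilizer G x) := by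
    intro h3
    obtain ⟨a, ha⟩ := exists_prime_orderOf_dvd_card' p h3
    have h4 : a.1 ^ p = 1 := by
      have h5 := pow_orderOf_eq_one a
      rw [ha] at h5
      exact congrArg Subtype.val h5
    have h6 : a.1 ≠ 1 := by
      intro h7
      have h8 : a = 1 := Subtype.ext h7
      rw [h8, orderOf_one] at ha
      exact hp.one_lt.ne ha
    exact J5.free hI hT hn hk hk3 hG hf p hp hps hr a.1 h4 h6 x a.2
  -- `p ∤ k`
  have h3 : ¬ p ∣ k := by
    intro h4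
    obtain ⟨t, hkt⟩ : ∃ t, k = 2 * t + 1 := ⟨k / 2, by omega⟩
    have h5 : (k - 1) ^ 2 + 1 + k * 2 = k * k + 2 := by
      rw [hkt, Nat.add_sub_cancel]
      ring
    have h6 : p ∣ k * k + 2 := h5 ▸ dvd_add hps (h4.mul_right 2)
    have h7 : p ∣ 2 := (Nat.dvd_add_right (h4.mul_right k)).1 h6
    have h8 : p = 2 := (Nat.prime_dvd_prime_iff_eq hp Nat.prime_two).1 h7
    rw [h8] at h4
    omega
  rw [← h1, hcard] at h
  have c1 : Nat.Coprime (p ^ 2) k := Nat.Coprime.pow_left 2 ((Nat.Prime.coprime_iff_not_dvd hp).2 h3)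
  have c2 : Nat.Coprime (p ^ 2) (Nat.card (MulAction.stabilizer G x)) :=
    Nat.Coprime.pow_left 2 ((Nat.Prime.coprime_iff_not_dvd hp).2 h2)
  exact hp2 (c1.dvd_of_dvd_mul_left (c2.dvd_of_dvd_mul_right h))

/-- **Theorem J.** -/
theorem main (hI : IsConfiguration I n k) (hT : TrilateralFree I) (hn : n = k * (k - 1) ^ 2 + k)
    (hk : k % 2 = 1) (hk3 : 3 ≤ k) (hG : ∀ (g : G) (p : P) (l : L), I (g • p) (g • l) ↔ I p l)
    (hf : ∀ g : G, (∀ p : P, g • p = p) → g = 1)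
    (hfl : ∀ (p q : P) (l m : L), I p l → I q m → ∃ g : G, g • p = q ∧ g • l = m)
    (p : ℕ) (hp : p.Prime) (hps : p ∣ (k - 1) ^ 2 + 1) (hp2 : ¬ p ^ 2 ∣ (k - 1) ^ 2 + 1)
    (hr : k - 1 < ((k - 1) % p) ^ 2) :
    ∃ T : Subgroup G, T.Normal ∧ IsSimpleGroup T ∧ (∃ a b : T, a * b ≠ b * a) ∧
      Subgroup.centralizer (T : Set G) = ⊥ := by
  have ht : ∀ p q : P, ∃ g : G, g • p = q := by
    intro p q
    obtain ⟨l1, h1⟩ := F2.ex_line hI hk3 p
    obtain ⟨l2, h2⟩ := F2.ex_line hI hk3 q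
    obtain ⟨h, h3, -⟩ := hfl p q l1 l2 h1 h2
    exact ⟨h, h3⟩
  exact H6.main hI hT hn hk hk3 hG hf hfl p hp hps
    (Or.inr (not_sq_dvd hI hT hn hk hk3 hG hf ht p hp hps hp2 hr))

end Pool.Agent.Lib.MP_e0c1ed_co.J6
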