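import Pool.Agent.Lib.MP_e0c1ed_co.H4
import Pool.Agent.Lib.MP_e0c1ed_co.J6

/-!
# MP_e0c1ed / H7: flag transitive groups, the theorem with the condition on the residue of `k - 1` modulo `p`
-/

set_option autoImplicit false

namespace Pool.Agent.Lib.MP_e0c1ed_co.H7

open Pool.Agent.Results.MP_e0c1ed_co.SelfDualSquare Pool.Agent.Lib.MP_e0c1ed_co

variable {P L G : Type*} [Finite P] [Finite L] [Group G] [Finite G] [MulAction G P] [MulAction G L]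
  {I : P → L → Prop} {n k : ℕ}

/-- **The theorem on flag transitive groups**, `H4.flag` and `J6.main` together. A prime factor `p > k` of
`(k - 1)² + 1` satisfies the last alternative: then `p² > (k - 1)² + 1` and the residue of `k - 1` is `k - 1`. -/
theorem flag (hI : IsConfiguration I n k) (hT : TrilateralFree I) (hn : n = k * (k - 1) ^ 2 + k)
    (hk : k % 2 = 1) (hk3 : 3 ≤ k) (hG : ∀ (g : G) (p : P) (l : L), I (g • p) (g • l) ↔ I p l)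
    (hf : ∀ g : G, (∀ p : P, g • p = p) → g = 1)
    (hfl : ∀ (p q : P) (l m : L), I p l → I q m → ∃ g : G, g • p = q ∧ g • l = m) :
    (∃ M : Subgroup G, M.Normal ∧ M ≠ ⊥ ∧ (∀ N : Subgroup G, N.Normal → N ≠ ⊥ → M ≤ N) ∧
      Subgroup.centralizer (M : Set G) = ⊥) ∧
    (∀ N : Subgroup G, N.Normal → N ≠ ⊥ →
      (∃ e : ℕ, 3 ≤ e ∧ e ∣ k ∧ ∀ (x : P) (l : L), {y | I y l ∧ ∃ g ∈ N, g • x = y}.ncard = e) ∧
      (∃ e : ℕ, 3 ≤ e ∧ e ∣ k ∧ ∀ (l : L) (x : P), {m | I x m ∧ ∃ g ∈ N, g • l = m}.ncard = e)) ∧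
    ((k.Prime ∨ ∃ p : ℕ, p.Prime ∧ p ∣ (k - 1) ^ 2 + 1 ∧
        (¬ p ^ 2 ∣ Nat.card G ∨ (¬ p ^ 2 ∣ (k - 1) ^ 2 + 1 ∧ k - 1 < ((k - 1) % p) ^ 2))) →
      ∃ T : Subgroup G, T.Normal ∧ IsSimpleGroup T ∧ (∃ a b : T, a * b ≠ b * a) ∧
        Subgroup.centralizer (T : Set G) = ⊥) ∧
    (k.Prime → ∀ N : Subgroup G, N.Normal → N ≠ ⊥ →
      ∀ (p q : P) (l m : L), I p l → I q m → ∃ g ∈ N, g • p = q ∧ g • l = m) := by
  obtain ⟨h1, h2, h3, h4⟩ := H4.flag hI hT hn hk hk3 hG hf hfl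
  refine ⟨h1, h2, ?_, h4⟩
  rintro (hkp | ⟨p, hp, hps, hp2 | ⟨hp3, hr⟩⟩)
  · exact h3 (Or.inl hkp)
  · exact h3 (Or.inr ⟨p, hp, hps, Or.inr hp2⟩)
  · exact J6.main hI hT hn hk hk3 hG hf hfl p hp hps hp3 hr

end Pool.Agent.Lib.MP_e0c1ed_co.H7
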