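import Mathlib.Data.Set.Card

/-!
# MP_e0c1ed / J0: closed substructures
-/

set_option autoImplicit false

namespace Pool.Agent.Lib.MP_e0c1ed_co.J0

/-- a set of points and a set of lines closed under joining, meeting and projecting (for instance the fixed points and
lines of an automorphism) -/
def Closed {P L : Type*} (I : P → L → Prop) (X : Set P) (Y : Set L) : Prop :=
  (∀ x ∈ X, ∀ y ∈ X, ∀ l, x ≠ y → I x l → I y l → l ∈ Y) ∧
  (∀ l ∈ Y, ∀ m ∈ Y, ∀ x, l ≠ m → I x l → I x m → x ∈ X) ∧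
  (∀ x ∈ X, ∀ l ∈ Y, ∀ m z, ¬ I x l → I x m → I z m → I z l → z ∈ X ∧ m ∈ Y)

end Pool.Agent.Lib.MP_e0c1ed_co.J0
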