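import Pool.Agent.Results.MP_e0c1ed_co.SelfDualSquare

/-!
# MP_e0c1ed / J1: the spectral inequality for a set of points

For a set `X` of points with `c(l)` points on the line `l`: `k ∑ c(l)² ≤ 2 (k - 1) k |X| + |X|²`. This is
`0 ≤ ∑ (2 k (k - 1) f - k u + |X|)²` for the indicator function `f` of `X` and `u x = ∑_{l ∋ x} c(l)`.
-/

set_option autoImplicit false

namespace Pool.Agent.Lib.MP_e0c1ed_co

open Finset Pool.Agent.Results.MP_e0c1ed_co.SelfDualSquare

section
variable {P L : Type*} [Fintype P] [Fintype L] {I : P → L → Prop} {n k : ℕ}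

theorem J1.ineq (hI : IsConfiguration I n k) (hT : TrilateralFree I) (hn : n = k * (k - 1) ^ 2 + k) (hk3 : 3 ≤ k)
    (X : Set P) :
    k * ∑ l : L, ({x | x ∈ X ∧ I x l}.ncard) ^ 2 ≤ 2 * (k - 1) * k * X.ncard + X.ncard ^ 2 := by
  classical
  set f : P → ℚ := fun x => if x ∈ X then 1 else 0 with hf
  set v : L → ℚ := fun l => ∑ x, inc I x l * f x with hv
  set u : P → ℚ := fun x => ∑ l, inc I x l * v l with hu
  set σ : ℚ := (X.ncard : ℚ) with hσ
  have hff : ∀ x, f x * f x = f x := by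
    intro x
    rw [hf]
    dsimp only
    split_ifs <;> norm_num
  have hfs : ∑ x, f x = σ := by
    rw [hf, hσ, Finset.sum_boole, Set.ncard_eq_toFinset_card']
    congr 2
    ext x
    simp
  have hvc : ∀ l, v l = ({x | x ∈ X ∧ I x l}.ncard : ℚ) := by
    intro l
    have h1 : ∀ x, inc I x l * f x = if x ∈ X ∧ I x l then (1 : ℚ) else 0 := by
      intro x
      by_cases h : I x l
      · rw [inc_of I h, one_mul]
        simp [hf, h]
      · rw [inc_of_not I h, zero_mul, if_neg (fun h' => h h'.2)]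
    rw [hv]
    dsimp only
    rw [Finset.sum_congr rfl (fun x _ => h1 x), Finset.sum_boole, Set.ncard_eq_toFinset_card']
    congr 2
    ext x
    simp
  have hvs : ∑ l, v l = k * σ := by
    rw [hv]
    dsimp only
    rw [Finset.sum_comm]
    have h1 : ∀ x, ∑ l, inc I x l * f x = (k : ℚ) * f x := by
      intro x
      rw [← Finset.sum_mul, inc_sum_right, hI.card_through_point]
    rw [Finset.sum_congr rfl (fun x _ => h1 x), ← Finset.mul_sum, hfs]
  have hus : ∑ x, u x = k * (k * σ) := by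
    rw [hu]
    dsimp only
    rw [Finset.sum_comm]
    have h1 : ∀ l, ∑ x, inc I x l * v l = (k : ℚ) * v l := by
      intro l
      rw [← Finset.sum_mul, inc_sum_left, hI.card_on_line]
    rw [Finset.sum_congr rfl (fun l _ => h1 l), ← Finset.mul_sum, hvs]
  set T : ℚ := ∑ l, v l ^ 2 with hTT
  have hfu : ∑ x, f x * u x = T := by
    rw [hu]
    dsimp only
    simp only [Finset.mul_sum]
    rw [Finset.sum_comm, hTT]
    refine Finset.sum_congr rfl fun l _ => ?_
    have h1 : ∀ x, f x * (inc I x l * v l) = (inc I x l * f x) * v l := fun x => by ring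
    rw [Finset.sum_congr rfl (fun x _ => h1 x), ← Finset.sum_mul, pow_two]
  have hSu : ∀ p, ∑ m, inc I p m * ∑ q, inc I q m * u q = (2 * (k : ℚ) - 2) * u p + k * σ := by
    intro p
    have h1 : ∀ m, inc I p m * ∑ q, inc I q m * u q = ∑ l, v l * (inc I p m * ∑ q, inc I q m * inc I q l) := by
      intro m
      rw [hu]
      dsimp only
      simp only [Finset.mul_sum]
      rw [Finset.sum_comm]
      exact Finset.sum_congr rfl fun l _ => Finset.sum_congr rfl fun q _ => by ring
    rw [Finset.sum_congr rfl (fun m _ => h1 m), Finset.sum_comm]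
    have h2 : ∀ l, ∑ m, v l * (inc I p m * ∑ q, inc I q m * inc I q l) =
        (2 * (k : ℚ) - 2) * (inc I p l * v l) + v l := by
      intro l
      rw [← Finset.mul_sum, key_entry hI hT hn (by omega) p l]
      ring
    rw [Finset.sum_congr rfl (fun l _ => h2 l), Finset.sum_add_distrib, ← Finset.mul_sum, hvs]
  have huu : ∑ x, u x * u x = (2 * (k : ℚ) - 2) * T + k * σ * σ := by
    have h1 : ∑ x, u x * u x = ∑ x, f x * ∑ m, inc I x m * ∑ q, inc I q m * u q := by
      have h2 : ∀ x, u x * u x = ∑ m, (∑ y, inc I y m * f y) * (inc I x m * u x) := by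
        intro x
        have h3 : u x = ∑ m, inc I x m * v m := rfl
        conv_lhs => rw [h3]
        rw [← h3, Finset.sum_mul]
        exact Finset.sum_congr rfl fun m _ => by rw [hv]; ring
      rw [Finset.sum_congr rfl (fun x _ => h2 x), Finset.sum_comm]
      have h4 : ∀ m, ∑ x, (∑ y, inc I y m * f y) * (inc I x m * u x) =
          ∑ y, f y * (inc I y m * ∑ x, inc I x m * u x) := by
        intro m
        rw [← Finset.mul_sum, Finset.sum_mul]
        exact Finset.sum_congr rfl fun y _ => by ring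
      rw [Finset.sum_congr rfl (fun m _ => h4 m), Finset.sum_comm]
      exact Finset.sum_congr rfl fun y _ => by rw [Finset.mul_sum]
    rw [h1]
    have h5 : ∀ x, f x * ∑ m, inc I x m * ∑ q, inc I q m * u q =
        (2 * (k : ℚ) - 2) * (f x * u x) + k * σ * f x := by
      intro x
      rw [hSu]
      ring
    rw [Finset.sum_congr rfl (fun x _ => h5 x), Finset.sum_add_distrib, ← Finset.mul_sum, ← Finset.mul_sum, hfu, hfs]
  have hcard : (Fintype.card P : ℚ) = k * ((k : ℚ) - 1) ^ 2 + k := by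
    have h1 : Fintype.card P = k * (k - 1) ^ 2 + k := by
      rw [← Nat.card_eq_fintype_card, hI.card_points, hn]
    rw [h1]
    push_cast [Nat.cast_sub (by omega : 1 ≤ k)]
    ring
  have hpos : 0 ≤ ∑ x, (2 * (k : ℚ) * (k - 1) * f x - k * u x + σ) ^ 2 := Finset.sum_nonneg fun x _ => sq_nonneg _
  have hexp : ∑ x, (2 * (k : ℚ) * (k - 1) * f x - k * u x + σ) ^ 2 =
      4 * (k : ℚ) ^ 2 * (k - 1) ^ 2 * ∑ x, f x + (k : ℚ) ^ 2 * ∑ x, u x * u x + (Fintype.card P : ℚ) * σ ^ 2
        - 4 * (k : ℚ) ^ 2 * (k - 1) * ∑ x, f x * u x + 4 * k * (k - 1) * σ * ∑ x, f x - 2 * k * σ * ∑ x, u x := by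
    have h1 : (Fintype.card P : ℚ) * σ ^ 2 = ∑ _x : P, σ ^ 2 := by
      rw [Finset.sum_const, Finset.card_univ, nsmul_eq_mul]
    rw [h1]
    simp only [Finset.mul_sum]
    rw [← Finset.sum_add_distrib, ← Finset.sum_add_distrib, ← Finset.sum_sub_distrib, ← Finset.sum_add_distrib,
      ← Finset.sum_sub_distrib]
    refine Finset.sum_congr rfl fun x _ => ?_
    linear_combination (4 * (k : ℚ) ^ 2 * (k - 1) ^ 2) * hff x
  rw [hexp, hfs, huu, hfu, hus, hcard] at hpos
  have hk1 : (3 : ℚ) ≤ k := by exact_mod_cast hk3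
  have hkey : 0 ≤ (2 * (k : ℚ) * (k - 1)) * (2 * k * (k - 1) * σ - k * T + σ ^ 2) := by
    have h1 : (2 * (k : ℚ) * (k - 1)) * (2 * k * (k - 1) * σ - k * T + σ ^ 2) =
        4 * (k : ℚ) ^ 2 * (k - 1) ^ 2 * σ + (k : ℚ) ^ 2 * ((2 * (k : ℚ) - 2) * T + k * σ * σ) +
          (k * ((k : ℚ) - 1) ^ 2 + k) * σ ^ 2 - 4 * (k : ℚ) ^ 2 * (k - 1) * T + 4 * k * (k - 1) * σ * σ
          - 2 * k * σ * (k * (k * σ)) := by ring
    rw [h1]
    exact hpos
  have hfin : 0 ≤ 2 * k * ((k : ℚ) - 1) * σ - k * T + σ ^ 2 := by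
    have h1 : 0 < 2 * (k : ℚ) * (k - 1) := by nlinarith
    exact nonneg_of_mul_nonneg_right hkey h1
  have hres : ((k * ∑ l : L, ({x | x ∈ X ∧ I x l}.ncard) ^ 2 : ℕ) : ℚ) ≤
      ((2 * (k - 1) * k * X.ncard + X.ncard ^ 2 : ℕ) : ℚ) := by
    push_cast [Nat.cast_sub (by omega : 1 ≤ k)]
    have h1 : ∑ l : L, ({x | x ∈ X ∧ I x l}.ncard : ℚ) ^ 2 = T := by
      rw [hTT]
      exact Finset.sum_congr rfl fun l _ => by rw [hvc l]
    rw [h1]
    linarith
  exact_mod_cast hres

end

end Pool.Agent.Lib.MP_e0c1ed_co
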