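import Pool.Agent.Lib.MP_e0c1ed_co.J0
import Pool.Agent.Lib.MP_e0c1ed_co.Semi

/-!
# MP_e0c1ed / J2: the lines of a closed substructure have the same number of points
-/

set_option autoImplicit false

namespace Pool.Agent.Lib.MP_e0c1ed_co.J2

open Pool.Agent.Results.MP_e0c1ed_co.SelfDualSquare Pool.Agent.Lib.MP_e0c1ed_co

variable {P L : Type*} [Fintype P] [Fintype L] {I : P → L → Prop} {n k : ℕ}

private theorem le (hI : IsConfiguration I n k) (hT : TrilateralFree I) (hn : n = k * (k - 1) ^ 2 + k) (hk3 : 3 ≤ k)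
    (X : Set P) (Y : Set L) (hC : J0.Closed I X Y) (l m : L) (hm : m ∈ Y) (hdis : ∀ x, I x l → ¬ I x m) :
    {x | x ∈ X ∧ I x l}.ncard ≤ {x | x ∈ X ∧ I x m}.ncard := by
  classical
  have h1 : ∀ x, x ∈ X → I x l → ∃ z, z ∈ X ∧ I z m ∧ ∃ h, I x h ∧ I z h := by
    intro x hx hxl
    obtain ⟨h, z, h2, h3, h4⟩ := gq_axiom hI hT hn (by omega) x m (hdis x hxl)
    exact ⟨z, (hC.2.2 x hx m hm h z (hdis x hxl) h2 h3 h4).1, h4, h, h2, h3⟩
  choose! φ h2 h3 h4 using h1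
  refine Set.ncard_le_ncard_of_injOn φ (fun x hx => ⟨h2 x hx.1 hx.2, h3 x hx.1 hx.2⟩) ?_ (Set.toFinite _)
  intro x hx y hy hxy
  have hz : ¬ I (φ x) l := fun h => hdis _ h (h3 x hx.1 hx.2)
  obtain ⟨h, h5, h6⟩ := h4 x hx.1 hx.2
  obtain ⟨h', h7, h8⟩ := h4 y hy.1 hy.2
  have h9 : I (φ x) h' := by
    rw [hxy]
    exact h8
  exact Semi.proj_unique hI hT (φ x) l hz hx.2 hy.2 h5 h6 h7 h9

private theorem disj (hI : IsConfiguration I n k) (hT : TrilateralFree I) (hn : n = k * (k - 1) ^ 2 + k) (hk3 : 3 ≤ k)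
    (X : Set P) (Y : Set L) (hC : J0.Closed I X Y) (l m : L) (hl : l ∈ Y) (hm : m ∈ Y) (hdis : ∀ x, I x l → ¬ I x m) :
    {x | x ∈ X ∧ I x l}.ncard = {x | x ∈ X ∧ I x m}.ncard :=
  le_antisymm (le hI hT hn hk3 X Y hC l m hm hdis) (le hI hT hn hk3 X Y hC m l hl fun x h h' => hdis x h' h)

/-- In a closed substructure with at least three lines on a point and at least three points on a line, all lines have the
same number of points. -/
theorem const (hI : IsConfiguration I n k) (hT : TrilateralFree I) (hn : n = k * (k - 1) ^ 2 + k) (hk3 : 3 ≤ k)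
    (X : Set P) (Y : Set L) (hC : J0.Closed I X Y) (hX : ∀ x ∈ X, 3 ≤ {l | l ∈ Y ∧ I x l}.ncard)
    (hY : ∀ l ∈ Y, 3 ≤ {x | x ∈ X ∧ I x l}.ncard) (l m : L) (hl : l ∈ Y) (hm : m ∈ Y) :
    {x | x ∈ X ∧ I x l}.ncard = {x | x ∈ X ∧ I x m}.ncard := by
  classical
  by_cases hlm : l = m
  · rw [hlm]
  by_cases hmeet : ∃ x0, I x0 l ∧ I x0 m
  · obtain ⟨x0, h0l, h0m⟩ := hmeet
    obtain ⟨x1, ⟨hx1, h1l⟩, h10⟩ := Set.exists_ne_of_one_lt_ncard (lt_of_lt_of_le (by norm_num : 1 < 3) (hY l hl)) x0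
    obtain ⟨h, ⟨hh, h1h⟩, hhl⟩ := Set.exists_ne_of_one_lt_ncard (lt_of_lt_of_le (by norm_num : 1 < 3) (hX x1 hx1)) l
    obtain ⟨y, ⟨hy, hyh⟩, hy1⟩ := Set.exists_ne_of_one_lt_ncard (lt_of_lt_of_le (by norm_num : 1 < 3) (hY h hh)) x1
    have hyl : ¬ I y l := fun h2 => hhl (hI.unique_line y x1 h l hy1 hyh h1h h2 h1l)
    have hym : ¬ I y m := fun h2 => h10 (Semi.proj_unique hI hT y l hyl h1l h0l h1h hyh h0m h2)
    obtain ⟨g', z', h2, h3, h4⟩ := gq_axiom hI hT hn (by omega) y m hym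
    have h5 : ({h, g'} : Set L).ncard < {l | l ∈ Y ∧ I y l}.ncard :=
      lt_of_le_of_lt ((Set.ncard_insert_le h {g'}).trans (by rw [Set.ncard_singleton]))
        (lt_of_lt_of_le (by norm_num : 2 < 3) (hX y hy))
    obtain ⟨g, ⟨hg, hyg⟩, hgn⟩ := Set.exists_mem_notMem_of_ncard_lt_ncard h5 (Set.toFinite _)
    have hgh : g ≠ h := fun h6 => hgn (by rw [h6]; exact Set.mem_insert _ _)
    have hgg' : g ≠ g' := fun h6 => hgn (by rw [h6]; exact Set.mem_insert_of_mem _ rfl)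
    have d1 : ∀ w, I w l → ¬ I w g := by
      intro w hwl hwg
      have h6 : x1 = w := Semi.proj_unique hI hT y l hyl h1l hwl h1h hyh hwg hyg
      subst h6
      exact hgh (hI.unique_line y x1 g h hy1 hyg hwg hyh h1h)
    have d2 : ∀ w, I w m → ¬ I w g := by
      intro w hwm hwg
      have h6 : z' = w := Semi.proj_unique hI hT y m hym h4 hwm h3 h2 hwg hyg
      subst h6
      exact hgg' (hI.unique_line y z' g g' (fun h7 => hym (h7 ▸ hwm)) hyg hwg h2 h3)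
    rw [disj hI hT hn hk3 X Y hC l g hl hg d1, disj hI hT hn hk3 X Y hC m g hm hg d2]
  · exact disj hI hT hn hk3 X Y hC l m hl hm fun x h1 h2 => hmeet ⟨x, h1, h2⟩

end Pool.Agent.Lib.MP_e0c1ed_co.J2
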