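import Pool.Agent.Lib.MP_e0c1ed_co.M8
import Pool.Agent.Lib.MP_e0c1ed_co.Tr
import Pool.Agent.Lib.MP_e0c1ed_co.F3
import Pool.Agent.Lib.MP_e0c1ed_co.J6

/-!
# MP_e0c1ed / J7: `k` a prime, point transitive groups, a prime factor `p` of `(k - 1)² + 1`

If `p` divides `(k - 1)² + 1` exactly once, `((k - 1) mod p)² > k - 1` and no divisor of `((k - 1)² + 1) / p` is a
possible orbit length, then `G` is almost simple.
-/

set_option autoImplicit false

namespace Pool.Agent.Lib.MP_e0c1ed_co.J7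

open Pool.Agent.Results.MP_e0c1ed_co.SelfDualSquare Pool.Agent.Lib.MP_e0c1ed_co Pool.Agent.Lib.MP_e0c1ed_co.Tr

variable {P L G : Type*} [Finite P] [Finite L] [Group G] [Finite G] [MulAction G P] [MulAction G L]
  {I : P → L → Prop} {n k : ℕ}

/-- Frattini: if `k² ∤ |G|` and `p ∤ |N|`, then `k ∤ |N|`. -/
private theorem not_dvd (hI : IsConfiguration I n k) (hT : TrilateralFree I) (hn : n = k * (k - 1) ^ 2 + k)
    (hk : k % 2 = 1) (hk3 : 3 ≤ k) (hkp : k.Prime) (hG : ∀ (g : G) (p : P) (l : L), I (g • p) (g • l) ↔ I p l)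
    (hf : ∀ g : G, (∀ p : P, g • p = p) → g = 1) (ht : ∀ p q : P, ∃ g : G, g • p = q)
    (h2 : ¬ k ^ 2 ∣ Nat.card G)
    (p : ℕ) (hp : p.Prime) (hps : p ∣ (k - 1) ^ 2 + 1)
    (hr : k - 1 < ((k - 1) % p) ^ 2) (N : Subgroup G) [N.Normal] (hcon : ¬ p ∣ Nat.card N) : ¬ k ∣ Nat.card N := by
  classical
  intro hkN
  have := Fact.mk hkp
  have := Fact.mk hp
  have hPret : MulAction.IsPretransitive G P := ⟨ht⟩
  have hcard : Nat.card P = k * ((k - 1) ^ 2 + 1) := by
    rw [hI.card_points, hn]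
    ring
  have hst : ∀ x : P, Nat.card P * Nat.card (MulAction.stabilizer G x) = Nat.card G := by
    intro x
    rw [← MulAction.index_stabilizer_of_transitive G x, mul_comm]
    exact Subgroup.card_mul_index _
  obtain ⟨x⟩ : Nonempty P := by
    rw [← Finite.card_pos_iff, hcard]
    exact Nat.mul_pos hkp.pos (Nat.succ_pos _)
  -- Frattini
  let R : Sylow k N := default
  set R' : Subgroup G := (R : Subgroup N).map N.subtype with hR'
  have hFr : Subgroup.normalizer (R' : Set G) ⊔ N = ⊤ := Sylow.normalizer_sup_eq_top R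
  have hcs := AS3.card_sup (Subgroup.normalizer (R' : Set G)) N
  rw [hFr, Subgroup.card_top] at hcs
  have hpG : p ∣ Nat.card G := by
    rw [← hst x, hcard]
    exact Dvd.dvd.mul_right (Dvd.dvd.mul_left hps k) _
  have hpH : p ∣ Nat.card (Subgroup.normalizer (R' : Set G)) := by
    have h7 : p ∣ Nat.card (Subgroup.normalizer (R' : Set G)) * Nat.card N := hcs ▸ hpG.mul_right _
    exact ((Nat.Prime.dvd_mul hp).1 h7).resolve_right hcon
  obtain ⟨a, ha⟩ := exists_prime_orderOf_dvd_card' (G := Subgroup.normalizer (R' : Set G)) p hpH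
  have hap : (a : G) ^ p = 1 := by
    have := pow_orderOf_eq_one a
    rw [ha] at this
    exact congrArg Subtype.val this
  have ha1 : (a : G) ≠ 1 := by
    intro h
    have h7 : a = 1 := Subtype.ext h
    rw [h7, orderOf_one] at ha
    exact hp.one_lt.ne ha
  -- the order of `R`
  obtain ⟨e, he⟩ := IsPGroup.iff_card.1 R.isPGroup'
  have hRc : Nat.card R' = k ^ e := by
    rw [← he]
    exact (Nat.card_congr ((R : Subgroup N).equivMapOfInjective _ N.subtype_injective).toEquiv).symm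
  have he2 : e < 2 := by
    by_contra h
    exact h2 ((pow_dvd_pow k (by omega : 2 ≤ e)).trans (hRc ▸ Subgroup.card_subgroup_dvd_card R'))
  have he0 : e ≠ 0 := by
    rintro rfl
    have h7 : ¬ k ∣ (R : Subgroup N).index := R.not_dvd_index
    have h8 := Subgroup.card_mul_index (R : Subgroup N)
    rw [he, pow_zero, one_mul] at h8
    exact h7 (h8 ▸ hkN)
  have he1 : e = 1 := by omega
  rw [he1, pow_one] at hRc
  -- the action of `a` on `R' ∖ {1}`
  have hS : ∀ b ∈ ((R' : Set G) \ {1}), ConjAct.toConjAct (a : G) • b ∈ ((R' : Set G) \ {1}) := by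
    rintro b ⟨hb, hb1⟩
    rw [ConjAct.toConjAct_smul]
    refine ⟨(Subgroup.mem_normalizer_iff.1 a.2 b).1 hb, ?_⟩
    intro h
    apply hb1
    rw [Set.mem_singleton_iff] at h ⊢
    exact conj_eq_one_iff.1 h
  have h7 := set_modEq (ConjAct.toConjAct (a : G)) p (by rw [← map_pow, hap, map_one]) ((R' : Set G) \ {1}) hS
  have h8 : ((R' : Set G) \ {1}).ncard = k - 1 := by
    rw [Set.ncard_sdiff_singleton_of_mem R'.one_mem, ← Nat.card_coe_set_eq]
    change Nat.card R' - 1 = _
    rw [hRc]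
  have h9 : {b ∈ ((R' : Set G) \ {1}) | ConjAct.toConjAct (a : G) • b = b}.Nonempty := by
    by_contra h
    rw [Set.not_nonempty_iff_eq_empty] at h
    rw [h, Set.ncard_empty, h8, Nat.modEq_zero_iff_dvd] at h7
    have h10 : p ∣ 1 := (Nat.dvd_add_right (dvd_pow h7 two_ne_zero)).1 hps
    exact hp.one_lt.ne' (Nat.dvd_one.1 h10)
  obtain ⟨b, ⟨hb, hb1⟩, hab⟩ := h9
  rw [ConjAct.toConjAct_smul] at hab
  have hab' : (a : G) * b = b * a := by
    calc (a : G) * b = ((a : G) * b * (a : G)⁻¹) * a := by group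
      _ = b * a := by rw [hab]
  have hb2 : b ^ k = 1 := by
    have h10 : (⟨b, hb⟩ : R') ^ k = 1 := by rw [← hRc]; exact pow_card_eq_one'
    exact congrArg Subtype.val h10
  have hbf : ∀ y : P, b • y ≠ y := by
    intro y hy
    apply h2
    rw [← hst y, hcard, pow_two, mul_assoc]
    refine mul_dvd_mul_left k (Dvd.dvd.mul_left ?_ _)
    have h10 : orderOf (⟨b, hy⟩ : MulAction.stabilizer G y) = k := by
      refine orderOf_eq_prime ?_ ?_
      · exact Subtype.ext hb2
      · intro h11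
        exact hb1 (congrArg Subtype.val h11)
    rw [← h10]
    exact orderOf_dvd_natCard _
  exact F3.no_pair hI hT hn hk hk3 hG (a : G) b hab' p k hp hkp hps (dvd_refl k) hap hb2
    (J5.free hI hT hn hk hk3 hG hf p hp hps hr (a : G) hap ha1) hbf

/-- **Point transitive groups, `k` a prime.** -/
theorem main (hI : IsConfiguration I n k) (hT : TrilateralFree I) (hn : n = k * (k - 1) ^ 2 + k)
    (hk : k % 2 = 1) (hk3 : 3 ≤ k) (hkp : k.Prime) (hG : ∀ (g : G) (p : P) (l : L), I (g • p) (g • l) ↔ I p l)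
    (hf : ∀ g : G, (∀ p : P, g • p = p) → g = 1) (ht : ∀ p q : P, ∃ g : G, g • p = q)
    (p : ℕ) (hp : p.Prime) (hps : p ∣ (k - 1) ^ 2 + 1) (hp2 : ¬ p ^ 2 ∣ (k - 1) ^ 2 + 1)
    (hr : k - 1 < ((k - 1) % p) ^ 2)
    (hm : ∀ m : ℕ, m ∣ ((k - 1) ^ 2 + 1) / p → ¬ OrbitLength (k - 1) m) :
    ∃ T : Subgroup G, T.Normal ∧ IsSimpleGroup T ∧ (∃ a b : T, a * b ≠ b * a) ∧
      Subgroup.centralizer (T : Set G) = ⊥ := by
  classical
  by_cases h2 : k ^ 2 ∣ Nat.card G
  · exact M8.main hI hT hn hk hk3 hkp hG hf ht h2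
  have := Fact.mk hkp
  have hPret : MulAction.IsPretransitive G P := ⟨ht⟩
  have hcard : Nat.card P = k * ((k - 1) ^ 2 + 1) := by
    rw [hI.card_points, hn]
    ring
  obtain ⟨x⟩ : Nonempty P := by
    rw [← Finite.card_pos_iff, hcard]
    exact Nat.mul_pos hkp.pos (Nat.succ_pos _)
  have hnt : Nontrivial G := by
    by_contra h
    rw [not_nontrivial_iff_subsingleton] at h
    have h1 : 1 < Nat.card P := by
      rw [hcard]
      have h3 : 1 ≤ (k - 1) ^ 2 + 1 := Nat.succ_pos _
      nlinarith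
    have := Finite.one_lt_card_iff_nontrivial.1 h1
    obtain ⟨a, b, hab⟩ := exists_pair_ne P
    obtain ⟨g, hg⟩ := ht a b
    rw [Subsingleton.elim g 1, one_smul] at hg
    exact hab hg
  refine AS3.almost_simple p hp (J6.not_sq_dvd hI hT hn hk hk3 hG hf ht p hp hps hp2 hr) ?_
  intro N hN hNe
  constructor
  · by_contra hcon
    have h3 := Main.long_orbits hI hT hn hk hk3 hG hf ht N hNe x
    have h4 := Ovoid.no_ovoid hI hT hn hk hk3 hG ht N x
    have hU := Upper.upper hI hT hn hk hk3 hG ht N x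
    have h5 : (MulAction.orbit N x).ncard ∣ Nat.card P :=
      (MulAction.IsBlock.orbit_of_normal (G := G) (N := N) x).ncard_dvd_card ⟨x, MulAction.mem_orbit_self x⟩
    have h6 : (MulAction.orbit N x).ncard ∣ Nat.card N := by
      rw [← MulAction.index_stabilizer N x]
      exact Subgroup.index_dvd_card _
    have hkN := not_dvd hI hT hn hk hk3 hkp hG hf ht h2 p hp hps hr N hcon
    have h7 : Nat.Coprime (MulAction.orbit N x).ncard k :=
      ((Nat.Prime.coprime_iff_not_dvd hkp).2 (fun h => hkN (h.trans h6))).symm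
    have h7' : Nat.Coprime (MulAction.orbit N x).ncard p :=
      ((Nat.Prime.coprime_iff_not_dvd hp).2 (fun h => hcon (h.trans h6))).symm
    rw [hcard] at h5
    have h8 := h7.dvd_of_dvd_mul_left h5
    have h9 : (MulAction.orbit N x).ncard ∣ ((k - 1) ^ 2 + 1) / p := by
      obtain ⟨u, hu⟩ := hps
      rw [hu, Nat.mul_div_cancel_left u hp.pos]
      rw [hu] at h8
      exact h7'.dvd_of_dvd_mul_left h8
    refine hm _ h9 ⟨h8.mul_left _, h3, h4, ?_⟩
    rw [Nat.sub_add_cancel (by omega : 1 ≤ k)]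
    exact hU
  · intro h
    have := Fact.mk hp
    have hcyc : IsCyclic N := isCyclic_of_prime_card h
    have hS : Group.IsSolvable N := Group.isSolvable_of_comm fun a b => by
      obtain ⟨g, hg⟩ := hcyc.exists_generator
      obtain ⟨i, hi⟩ := hg a
      obtain ⟨j, hj⟩ := hg b
      rw [← hi, ← hj]
      change g ^ i * g ^ j = g ^ j * g ^ i
      rw [← zpow_add, ← zpow_add, add_comm]
    exact hNe (K8.no_solvable hI hT hn hk hk3 hG hf ht N hN hS)

end Pool.Agent.Lib.MP_e0c1ed_co.J7
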