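import Mathlib

/-!
# MP_e0c1ed / K0: permutation matrices
-/

set_option autoImplicit false

namespace Pool.Agent.Lib.MP_e0c1ed_co

/-- the permutation matrix -/
def K0.Tz {P : Type*} [DecidableEq P] (θ : Equiv.Perm P) : Matrix P P ℤ := Matrix.of fun x y => if θ x = y then 1 else 0

end Pool.Agent.Lib.MP_e0c1ed_co
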