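import Mathlib

/-!
# MP_e0c1ed / K1: the rank of the last power of a nilpotent map
-/

set_option autoImplicit false

namespace Pool.Agent.Lib.MP_e0c1ed_co

/-- If `U` maps `W` into itself and `U ^ q = 0` on `W`, then `dim W ≥ q dim (U ^ (q - 1) W)`. -/
theorem K1.nil_rank {K V : Type*} [Field K] [AddCommGroup V] [Module K V] [FiniteDimensional K V] (U : V →ₗ[K] V)
    (q : ℕ) (hq : 1 ≤ q) (W : Submodule K V) (hW : W.map U ≤ W) (hU : ∀ v ∈ W, (U ^ q) v = 0) :
    q * Module.finrank K (W.map (U ^ (q - 1))) ≤ Module.finrank K W := by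
  have hpow : ∀ j : ℕ, W.map (U ^ j) ≤ W := by
    intro j
    induction j with
    | zero =>
      rintro _ ⟨v, hv, rfl⟩
      simpa using hv
    | succ j ih =>
      rintro _ ⟨v, hv, rfl⟩
      rw [pow_succ']
      exact hW ⟨(U ^ j) v, ih ⟨v, hv, rfl⟩, rfl⟩
  have hstep : ∀ i : ℕ, i < q → Module.finrank K (W.map (U ^ (i + 1))) + Module.finrank K (W.map (U ^ (q - 1))) ≤
      Module.finrank K (W.map (U ^ i)) := by
    intro i hi
    set Wi := W.map (U ^ i) with hWi
    have h1 := LinearMap.finrank_range_add_finrank_ker (U.domRestrict Wi)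
    have h2 : LinearMap.range (U.domRestrict Wi) = W.map (U ^ (i + 1)) := by
      rw [LinearMap.range_domRestrict, hWi, ← Submodule.map_comp]
      congr 1
      rw [pow_succ']
      rfl
    have h3 : Module.finrank K (LinearMap.ker (U.domRestrict Wi)) = Module.finrank K (Wi ⊓ LinearMap.ker U : Submodule K V) := by
      have h4 : LinearMap.ker (U.domRestrict Wi) = (LinearMap.ker U).comap Wi.subtype := by
        ext v
        simp [LinearMap.mem_ker]
      rw [h4, ← Submodule.map_comap_subtype, Submodule.finrank_map_subtype_eq]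
    have h5 : W.map (U ^ (q - 1)) ≤ Wi ⊓ LinearMap.ker U := by
      rintro _ ⟨v, hv, rfl⟩
      refine ⟨⟨(U ^ (q - 1 - i)) v, hpow _ ⟨v, hv, rfl⟩, ?_⟩, ?_⟩
      · rw [← Module.End.mul_apply, ← pow_add]
        congr 2
        omega
      · rw [SetLike.mem_coe, LinearMap.mem_ker, ← Module.End.mul_apply, ← pow_succ', Nat.sub_add_cancel hq]
        exact hU v hv
    have h6 := Submodule.finrank_mono h5
    rw [h2, h3] at h1
    omega
  have hall : ∀ j : ℕ, j ≤ q → j * Module.finrank K (W.map (U ^ (q - 1))) ≤ Module.finrank K (W.map (U ^ (q - j))) := by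
    intro j
    induction j with
    | zero => intro _; simp
    | succ j ih =>
      intro hj
      have h1 := ih (by omega)
      have h2 := hstep (q - (j + 1)) (by omega)
      have h3 : q - (j + 1) + 1 = q - j := by omega
      rw [h3] at h2
      calc (j + 1) * Module.finrank K (W.map (U ^ (q - 1)))
          = j * Module.finrank K (W.map (U ^ (q - 1))) + Module.finrank K (W.map (U ^ (q - 1))) := by ring
        _ ≤ Module.finrank K (W.map (U ^ (q - j))) + Module.finrank K (W.map (U ^ (q - 1))) := by omega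
        _ ≤ _ := h2
  have h1 := hall q le_rfl
  refine h1.trans ?_
  exact Submodule.finrank_mono (hpow _)

end Pool.Agent.Lib.MP_e0c1ed_co
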