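import Mathlib

/-!
# MP_e0c1ed / K2: the rank of an integer matrix modulo a prime is at most its rank
-/

set_option autoImplicit false

namespace Pool.Agent.Lib.MP_e0c1ed_co

/-- Integer vectors which are independent modulo `q` are independent. -/
theorem K2.indep {P ι : Type*} [Fintype P] [Fintype ι] (q : ℕ) [Fact q.Prime] (v : ι → P → ℤ)
    (h : LinearIndependent (ZMod q) (fun i => fun x => ((v i x : ℤ) : ZMod q)))
    (c : ι → ℤ) (hc : ∀ x, ∑ i, c i * v i x = 0) : ∀ i, c i = 0 := by
  have hq : q.Prime := Fact.out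
  have key : ∀ k : ℕ, ∀ c : ι → ℤ, (∀ x, ∑ i, c i * v i x = 0) → ∀ i, ((q : ℤ) ^ k) ∣ c i := by
    intro k
    induction k with
    | zero => intro c _ i; rw [pow_zero]; exact one_dvd _
    | succ k ih =>
      intro c hc i
      have h1 : ∀ i, ((c i : ℤ) : ZMod q) = 0 := by
        rw [Fintype.linearIndependent_iff] at h
        apply h (fun i => ((c i : ℤ) : ZMod q))
        ext x
        have h2 := congrArg (Int.cast : ℤ → ZMod q) (hc x)
        rw [Int.cast_sum, Int.cast_zero] at h2
        rw [Finset.sum_apply, Pi.zero_apply, ← h2]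
        refine Finset.sum_congr rfl fun i _ => ?_
        rw [Pi.smul_apply, smul_eq_mul, Int.cast_mul]
      have h2 : ∀ i, ∃ d, c i = q * d := fun i => (ZMod.intCast_zmod_eq_zero_iff_dvd _ _).1 (h1 i)
      choose d hd using h2
      have h3 : ∀ x, ∑ i, d i * v i x = 0 := by
        intro x
        have h4 := hc x
        have h5 : ∑ i, c i * v i x = q * ∑ i, d i * v i x := by
          rw [Finset.mul_sum]
          refine Finset.sum_congr rfl fun i _ => ?_
          rw [hd i]
          ring
        rw [h5] at h4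
        exact (mul_eq_zero.1 h4).resolve_left (by exact_mod_cast hq.ne_zero)
      rw [hd i, pow_succ, mul_comm]
      exact mul_dvd_mul_left _ (ih d h3 i)
  intro i
  by_contra hne
  have h1 := key (c i).natAbs c hc i
  have h2 := Int.natAbs_dvd_natAbs.2 h1
  rw [Int.natAbs_pow, Int.natAbs_natCast] at h2
  have h3 := Nat.le_of_dvd (Int.natAbs_pos.2 hne) h2
  exact absurd h3 (not_le.2 (Nat.lt_pow_self hq.one_lt))

theorem K2.rank_mod {P : Type*} [Fintype P] [DecidableEq P] (Z : Matrix P P ℤ) (q : ℕ) [Fact q.Prime] :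
    (Z.map (Int.castRingHom (ZMod q))).rank ≤ (Z.map (Int.castRingHom ℚ)).rank := by
  classical
  rw [Matrix.rank_eq_finrank_span_cols, Matrix.rank_eq_finrank_span_cols]
  obtain ⟨b, hb1, hb2, hb3⟩ := exists_linearIndependent (ZMod q)
    (Set.range (Z.map (Int.castRingHom (ZMod q))).col)
  have hfin : b.Finite := (Set.finite_range _).subset hb1
  have : Fintype b := hfin.fintype
  choose f hf using fun w : b => hb1 w.2
  rw [← hb2, finrank_span_set_eq_card hb3]
  have hv : LinearIndependent (ZMod q) (fun w : b => fun x => ((Z x (f w) : ℤ) : ZMod q)) := by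
    have h1 : (fun w : b => fun x => ((Z x (f w) : ℤ) : ZMod q)) = (Subtype.val : b → (P → ZMod q)) := by
      funext w
      rw [← hf w]
      rfl
    rw [h1]
    exact hb3
  have hz : LinearIndependent ℤ (fun w : b => fun x => ((Z x (f w) : ℤ) : ℚ)) := by
    rw [Fintype.linearIndependent_iff]
    intro c hc
    apply K2.indep q (fun w : b => fun x => Z x (f w)) hv c
    intro x
    have h1 := congrFun hc x
    rw [Finset.sum_apply, Pi.zero_apply] at h1
    have h2 : ((∑ i, c i * Z x (f i) : ℤ) : ℚ) = 0 := by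
      rw [← h1]
      push_cast
      refine Finset.sum_congr rfl fun i _ => ?_
      rw [Pi.smul_apply, zsmul_eq_mul]
    exact_mod_cast h2
  have hQ : LinearIndependent ℚ (fun w : b => fun x => ((Z x (f w) : ℤ) : ℚ)) :=
    (LinearIndependent.iff_fractionRing ℤ ℚ).1 hz
  rw [Set.toFinset_card, ← finrank_span_eq_card hQ]
  apply Submodule.finrank_mono
  apply Submodule.span_mono
  rintro _ ⟨w, rfl⟩
  exact ⟨f w, rfl⟩

end Pool.Agent.Lib.MP_e0c1ed_co
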