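import Mathlib

/-!
# MP_e0c1ed / K3: rank and trace of a multiple of an idempotent matrix
-/

set_option autoImplicit false

namespace Pool.Agent.Lib.MP_e0c1ed_co

theorem K3.rank_idem {P : Type*} [Fintype P] [DecidableEq P] (Z : Matrix P P ℚ) (d : ℚ) (hd : d ≠ 0)
    (hZ : Z * Z = d • Z) : (Z.rank : ℚ) * d = Z.trace := by
  set E : Matrix P P ℚ := d⁻¹ • Z with hE
  have hEE : E * E = E := by
    rw [hE, Matrix.smul_mul, Matrix.mul_smul, hZ, smul_smul, smul_smul]
    congr 1
    field_simp
  have h1 : IsIdempotentElem (Matrix.toLin' E) := by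
    show Matrix.toLin' E * Matrix.toLin' E = Matrix.toLin' E
    rw [Module.End.mul_eq_comp, ← Matrix.toLin'_mul, hEE]
  have h2 := (LinearMap.IsIdempotentElem.isProj_range _ h1).trace
  rw [Matrix.trace_toLin'_eq] at h2
  have h3 : E.rank = Module.finrank ℚ (LinearMap.range (Matrix.toLin' E)) := rfl
  have h4 : E.rank = Z.rank := by
    apply le_antisymm
    · have : E = (d⁻¹ • (1 : Matrix P P ℚ)) * Z := by rw [Matrix.smul_mul, Matrix.one_mul]
      rw [this]
      exact Matrix.rank_mul_le_right _ _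
    · have : Z = (d • (1 : Matrix P P ℚ)) * E := by
        rw [Matrix.smul_mul, Matrix.one_mul, hE, smul_smul, mul_inv_cancel₀ hd, one_smul]
      rw [this]
      exact Matrix.rank_mul_le_right _ _
  rw [← h3, h4] at h2
  rw [← h2, hE, Matrix.trace_smul, smul_eq_mul]
  field_simp

end Pool.Agent.Lib.MP_e0c1ed_co
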