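import Pool.Agent.Lib.MP_e0c1ed_co.K0

/-!
# MP_e0c1ed / K4: the rank of the orbit sum of a free permutation of prime order
-/

set_option autoImplicit false

namespace Pool.Agent.Lib.MP_e0c1ed_co

namespace K4

open Finset

variable {P : Type*} [Fintype P] [DecidableEq P]

theorem Tz_pow (θ : Equiv.Perm P) (i : ℕ) (x y : P) : (K0.Tz θ ^ i) x y = if (θ ^ i) x = y then 1 else 0 := by
  induction i generalizing x with
  | zero => simp [Matrix.one_apply]
  | succ i ih =>
    rw [pow_succ', Matrix.mul_apply]
    have h1 : ∀ z, K0.Tz θ x z * (K0.Tz θ ^ i) z y = if θ x = z then (if (θ ^ i) z = y then 1 else 0) else 0 := by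
      intro z
      rw [ih]
      simp only [K0.Tz, Matrix.of_apply]
      split_ifs <;> simp
    rw [Finset.sum_congr rfl (fun z _ => h1 z), Finset.sum_ite_eq]
    simp only [Finset.mem_univ, if_true]
    rw [pow_succ, Equiv.Perm.mul_apply]

theorem free_rank (θ : Equiv.Perm P) (q : ℕ) [hq : Fact q.Prime]
    (hθ : ∀ x, (θ ^ q) x = x) (hfree : ∀ x, θ x ≠ x) :
    Fintype.card P ≤ q * (((∑ i ∈ Finset.range q, K0.Tz θ ^ i).map (Int.castRingHom (ZMod q))).rank) := by
  classical
  have hper : ∀ i x, i < q → (θ ^ i) x = x → i = 0 := by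
    intro i x hi h
    by_contra h0
    have h2 : Function.IsPeriodicPt θ i x := by
      show θ^[i] x = x
      rw [Equiv.Perm.iterate_eq_pow]; exact h
    have h3 : Function.IsPeriodicPt θ q x := by
      show θ^[q] x = x
      rw [Equiv.Perm.iterate_eq_pow]; exact hθ x
    have h4 := h2.gcd h3
    have h5 : Nat.gcd i q = 1 := by
      rw [Nat.gcd_comm]
      exact (Nat.Prime.coprime_iff_not_dvd hq.out).2 (fun hd => by
        have := Nat.le_of_dvd (by omega) hd
        omega)
    rw [h5] at h4
    exact hfree x h4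
  have hmod : ∀ j x, (θ ^ j) x = (θ ^ (j % q)) x := by
    intro j x
    have h1 : θ ^ q = 1 := Equiv.ext hθ
    conv_lhs => rw [← Nat.div_add_mod j q, pow_add, pow_mul, h1, one_pow, one_mul]
  -- the relation
  let s : Setoid P :=
    { r := fun x y => ∃ i, i < q ∧ (θ ^ i) x = y
      iseqv := by
        refine ⟨fun x => ⟨0, hq.out.pos, rfl⟩, ?_, ?_⟩
        · rintro x y ⟨i, hi, rfl⟩
          refine ⟨(q - i) % q, Nat.mod_lt _ hq.out.pos, ?_⟩
          rw [← hmod, ← Equiv.Perm.mul_apply, ← pow_add, Nat.sub_add_cancel hi.le, hθ]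
        · rintro x y z ⟨i, _, rfl⟩ ⟨j, _, rfl⟩
          refine ⟨(j + i) % q, Nat.mod_lt _ hq.out.pos, ?_⟩
          rw [← hmod, pow_add, Equiv.Perm.mul_apply] }
  have hfib : Fintype.card P ≤ q * Fintype.card (Quotient s) := by
    have h1 := Finset.card_le_mul_card_image (f := fun x : P => (Quotient.mk s x)) (Finset.univ : Finset P) q (by
      intro c _
      obtain ⟨x, rfl⟩ := Quotient.exists_rep c
      have h2 : (Finset.univ.filter fun y => Quotient.mk s y = Quotient.mk s x) ⊆
          (Finset.range q).image fun i => (θ ^ i) x := by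
        intro y hy
        have h3 := (Finset.mem_filter.1 hy).2
        obtain ⟨i, hi, h4⟩ := Quotient.exact h3.symm
        exact Finset.mem_image.2 ⟨i, Finset.mem_range.2 hi, h4⟩
      exact (Finset.card_le_card h2).trans (Finset.card_image_le.trans (by rw [Finset.card_range])))
    rw [Finset.card_univ] at h1
    exact h1.trans (Nat.mul_le_mul_left _ (Finset.card_le_univ _))
  refine hfib.trans (Nat.mul_le_mul_left _ ?_)
  set f := (Int.castRingHom (ZMod q)) with hf
  set S := (∑ i ∈ Finset.range q, K0.Tz θ ^ i) with hS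
  have hsub : (S.map f).submatrix (Quotient.out : Quotient s → P) (Quotient.out : Quotient s → P) = 1 := by
    ext c d
    rw [Matrix.submatrix_apply, Matrix.map_apply, hS, Matrix.sum_apply]
    have h1 : ∀ i ∈ Finset.range q, (K0.Tz θ ^ i) c.out d.out = if i = 0 then (if c = d then 1 else 0) else 0 := by
      intro i hi
      rw [Tz_pow]
      by_cases h0 : i = 0
      · rw [h0, if_pos rfl, pow_zero, Equiv.Perm.one_apply]
        by_cases h : c = d
        · rw [if_pos h, h, if_pos rfl]
        · rw [if_neg h, if_neg]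
          intro h'
          exact h (by rw [← Quotient.out_eq c, ← Quotient.out_eq d, h'])
      · rw [if_neg h0, if_neg]
        intro h
        have h3 : c = d := by
          rw [← Quotient.out_eq c, ← Quotient.out_eq d]
          exact Quotient.sound ⟨i, Finset.mem_range.1 hi, h⟩
        rw [h3] at h
        exact h0 (hper i d.out (Finset.mem_range.1 hi) h)
    rw [Finset.sum_congr rfl h1, Finset.sum_ite_eq' (range q) 0, if_pos (Finset.mem_range.2 hq.out.pos)]
    rw [Matrix.one_apply]
    split_ifs <;> simp
  have h1 : ((S.map f).submatrix (Quotient.out : Quotient s → P) (Quotient.out : Quotient s → P)).rank ≤ (S.map f).rank :=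
    Matrix.rank_submatrix_le _ _ _
  rw [hsub, Matrix.rank_one] at h1
  exact h1

end K4

end Pool.Agent.Lib.MP_e0c1ed_co
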