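import Pool.Agent.Lib.MP_e0c1ed_co.K0
import Pool.Agent.Lib.MP_e0c1ed_co.K1
import Pool.Agent.Lib.MP_e0c1ed_co.K2
import Pool.Agent.Lib.MP_e0c1ed_co.K3
import Pool.Agent.Lib.MP_e0c1ed_co.K4

/-!
# MP_e0c1ed / K5: free permutations of prime order and multiples of idempotent integer matrices
-/

set_option autoImplicit false

namespace Pool.Agent.Lib.MP_e0c1ed_co

namespace K5

open Finset

variable {P : Type*} [Fintype P] [DecidableEq P]

theorem Tz_pow (θ : Equiv.Perm P) (i : ℕ) (x y : P) : (K0.Tz θ ^ i) x y = if (θ ^ i) x = y then 1 else 0 := by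
  induction i generalizing x with
  | zero => simp [Matrix.one_apply]
  | succ i ih =>
    rw [pow_succ', Matrix.mul_apply]
    have h1 : ∀ z, K0.Tz θ x z * (K0.Tz θ ^ i) z y = if θ x = z then (if (θ ^ i) z = y then 1 else 0) else 0 := by
      intro z
      rw [ih]
      simp only [K0.Tz, Matrix.of_apply]
      split_ifs <;> simp
    rw [Finset.sum_congr rfl (fun z _ => h1 z), Finset.sum_ite_eq]
    simp only [Finset.mem_univ, if_true]
    rw [pow_succ, Equiv.Perm.mul_apply]

theorem Tz_pow_mul (θ : Equiv.Perm P) (i : ℕ) (X : Matrix P P ℤ) (x y : P) :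
    (K0.Tz θ ^ i * X) x y = X ((θ ^ i) x) y := by
  rw [Matrix.mul_apply]
  have h1 : ∀ z, (K0.Tz θ ^ i) x z * X z y = if (θ ^ i) x = z then X z y else 0 := by
    intro z
    rw [Tz_pow]
    split_ifs <;> simp
  rw [Finset.sum_congr rfl (fun z _ => h1 z), Finset.sum_ite_eq]
  simp

/-- `U ^ (q - 1) = ∑ T ^ i` in characteristic `q` -/
theorem sub_one_pow {R : Type*} [Ring R] (q : ℕ) [hq : Fact q.Prime] [Algebra (ZMod q) R] (T : R) :
    (T - 1) ^ (q - 1) = ∑ i ∈ range q, T ^ i := by
  have h1 : (Polynomial.X - 1 : Polynomial (ZMod q)) ^ (q - 1) = ∑ i ∈ range q, Polynomial.X ^ i := by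
    have h2 : (Polynomial.X - 1 : Polynomial (ZMod q)) ≠ 0 := by
      rw [← Polynomial.C_1]
      exact Polynomial.X_sub_C_ne_zero 1
    apply mul_left_cancel₀ h2
    rw [mul_geom_sum, ← pow_succ', Nat.sub_add_cancel hq.out.one_lt.le, sub_pow_char, one_pow]
  have h3 := congrArg (Polynomial.aeval T) h1
  simpa using h3

omit [DecidableEq P] in
theorem rank_add_le' {K : Type*} [Field K] (M N : Matrix P P K) : (M + N).rank ≤ M.rank + N.rank := by
  have h1 : LinearMap.range (M + N).mulVecLin ≤ LinearMap.range M.mulVecLin ⊔ LinearMap.range N.mulVecLin := by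
    rintro _ ⟨v, rfl⟩
    rw [Matrix.mulVecLin_add, LinearMap.add_apply]
    exact Submodule.add_mem_sup ⟨v, rfl⟩ ⟨v, rfl⟩
  exact (Submodule.finrank_mono h1).trans (Submodule.finrank_add_le_finrank_add_finrank _ _)

theorem trace_eq (θ : Equiv.Perm P) (q : ℕ) [hq : Fact q.Prime]
    (hθ : ∀ x, (θ ^ q) x = x) (hfree : ∀ x, θ x ≠ x) (X : Matrix P P ℤ) (D : ℤ) (hD : ¬ (q : ℤ) ∣ D)
    (hX : X * X = D • X) (hinv : ∀ x y, X (θ x) (θ y) = X x y) :
    ∑ i ∈ Finset.range q, ∑ x, X ((θ ^ i) x) x = ∑ x, X x x := by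
  classical
  set T := K0.Tz θ with hT
  set S := ∑ i ∈ range q, T ^ i with hS
  have hTX : T * X = X * T := by
    ext x y
    have h1 := Tz_pow_mul θ 1 X x y
    rw [pow_one, pow_one] at h1
    rw [h1, Matrix.mul_apply]
    have h2 : ∀ z, X x z * T z y = if z = θ.symm y then X x z else 0 := by
      intro z
      simp only [hT, K0.Tz, Matrix.of_apply]
      by_cases h : θ z = y
      · rw [if_pos h, if_pos (by rw [← h, Equiv.symm_apply_apply]), mul_one]
      · rw [if_neg h, if_neg (fun h' => h (by rw [h', Equiv.apply_symm_apply])), mul_zero]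
    rw [Finset.sum_congr rfl (fun z _ => h2 z), Finset.sum_ite_eq']
    simp only [Finset.mem_univ, if_true]
    rw [← hinv x (θ.symm y), Equiv.apply_symm_apply]
  have hTq : T ^ q = 1 := by
    ext x y
    rw [hT, Tz_pow, hθ, Matrix.one_apply]
  set Y : Matrix P P ℤ := D • 1 - X with hY
  have hYY : Y * Y = D • Y := by
    rw [hY, sub_mul, mul_sub, mul_sub, hX]
    simp only [Matrix.smul_mul, Matrix.mul_smul, Matrix.one_mul, Matrix.mul_one, smul_sub]
    abel
  have hTY : T * Y = Y * T := by
    rw [hY, sub_mul, mul_sub, hTX]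
    simp only [Matrix.smul_mul, Matrix.mul_smul, Matrix.one_mul, Matrix.mul_one]
  have hTS : T * S = S := by
    have h1 : (T - 1) * S = 0 := by rw [hS, mul_geom_sum, hTq, sub_self]
    rw [sub_mul, one_mul, sub_eq_zero] at h1
    exact h1
  have hTiS : ∀ i : ℕ, T ^ i * S = S := by
    intro i
    induction i with
    | zero => rw [pow_zero, one_mul]
    | succ i ih => rw [pow_succ, mul_assoc, hTS, ih]
  have hSS : S * S = (q : ℤ) • S := by
    conv_lhs => rw [hS, Finset.sum_mul]
    rw [Finset.sum_congr rfl (fun i _ => hTiS i), Finset.sum_const, Finset.card_range, natCast_zsmul]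
  have hSZ : ∀ Z : Matrix P P ℤ, T * Z = Z * T → S * Z = Z * S := by
    intro Z hZ
    have h1 : ∀ i : ℕ, T ^ i * Z = Z * T ^ i := by
      intro i
      exact ((show Commute T Z from hZ).pow_left i).eq
    rw [hS, Finset.sum_mul, Finset.mul_sum]
    exact Finset.sum_congr rfl fun i _ => h1 i
  have hsq : ∀ Z : Matrix P P ℤ, T * Z = Z * T → Z * Z = D • Z → (S * Z) * (S * Z) = ((q : ℤ) * D) • (S * Z) := by
    intro Z hZ hZZ
    calc (S * Z) * (S * Z) = S * (Z * S) * Z := by noncomm_ring
      _ = S * (S * Z) * Z := by rw [hSZ Z hZ]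
      _ = (S * S) * (Z * Z) := by noncomm_ring
      _ = ((q : ℤ) * D) • (S * Z) := by
        rw [hSS, hZZ, Matrix.smul_mul, Matrix.mul_smul, smul_smul]
  have hD0 : D ≠ 0 := by
    rintro rfl
    exact hD (dvd_zero _)
  have hDQ : (D : ℚ) ≠ 0 := by exact_mod_cast hD0
  have hqQ : (q : ℚ) ≠ 0 := by exact_mod_cast hq.out.ne_zero
  -- over `ℚ`
  have hrank : ∀ (Z : Matrix P P ℤ) (d : ℤ), d ≠ 0 → Z * Z = d • Z →
      ((Z.map (Int.castRingHom ℚ)).rank : ℚ) * d = (Z.trace : ℤ) := by
    intro Z d hd hZ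
    have h1 := K3.rank_idem (Z.map (Int.castRingHom ℚ)) (d : ℚ) (by exact_mod_cast hd) (by
      have h2 := congrArg (fun M : Matrix P P ℤ => M.map (Int.castRingHom ℚ)) hZ
      rw [Matrix.map_mul] at h2
      rw [h2]
      ext x y
      simp only [Matrix.map_apply, Matrix.smul_apply, smul_eq_mul, map_mul]
      rfl)
    rw [h1]
    simp [Matrix.trace]
  set rX := (X.map (Int.castRingHom ℚ)).rank with hrX
  set rY := (Y.map (Int.castRingHom ℚ)).rank with hrY
  set aX := ((S * X).map (Int.castRingHom ℚ)).rank with haX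
  set aY := ((S * Y).map (Int.castRingHom ℚ)).rank with haY
  have e1 := hrank X D hD0 hX
  have e2 := hrank Y D hD0 hYY
  have hqD : (q : ℤ) * D ≠ 0 := mul_ne_zero (by exact_mod_cast hq.out.ne_zero) hD0
  have e3 := hrank (S * X) ((q : ℤ) * D) hqD (hsq X hTX hX)
  have e4 := hrank (S * Y) ((q : ℤ) * D) hqD (hsq Y hTY hYY)
  have htrY : Y.trace = D * Fintype.card P - X.trace := by
    rw [hY, Matrix.trace_sub, Matrix.trace_smul, Matrix.trace_one, smul_eq_mul]
  have htrS : S.trace = Fintype.card P := by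
    have h1 : ∀ i ∈ range q, (T ^ i).trace = if i = 0 then (Fintype.card P : ℤ) else 0 := by
      intro i hi
      have hi' := Finset.mem_range.1 hi
      by_cases h0 : i = 0
      · rw [h0, pow_zero, Matrix.trace_one, if_pos rfl]
      · rw [if_neg h0, Matrix.trace]
        apply Finset.sum_eq_zero
        intro x _
        rw [Matrix.diag_apply, hT, Tz_pow, if_neg]
        intro h
        have h2 : Function.IsPeriodicPt θ i x := by
          show θ^[i] x = x
          rw [Equiv.Perm.iterate_eq_pow]; exact h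
        have h3 : Function.IsPeriodicPt θ q x := by
          show θ^[q] x = x
          rw [Equiv.Perm.iterate_eq_pow]; exact hθ x
        have h4 := h2.gcd h3
        have h5 : Nat.gcd i q = 1 := by
          rw [Nat.gcd_comm]
          exact (Nat.Prime.coprime_iff_not_dvd hq.out).2 (fun hd => by
            have := Nat.le_of_dvd (by omega) hd
            omega)
        rw [h5] at h4
        exact hfree x h4
    rw [hS, Matrix.trace_sum, Finset.sum_congr rfl h1, Finset.sum_ite_eq' (range q) 0]
    simp [hq.out.pos]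
  have htrSY : (S * Y).trace = D * Fintype.card P - (S * X).trace := by
    rw [hY, mul_sub, Matrix.mul_smul, Matrix.mul_one, Matrix.trace_sub, Matrix.trace_smul, htrS, smul_eq_mul]
  have hsum1 : rX + rY = Fintype.card P := by
    have h1 : ((rX : ℚ) + rY) * D = (Fintype.card P) * D := by
      rw [add_mul, e1, e2, htrY]
      push_cast
      ring
    exact_mod_cast mul_right_cancel₀ hDQ h1
  have hsum2 : q * (aX + aY) = Fintype.card P := by
    have h1 : ((q : ℚ) * (aX + aY)) * D = (Fintype.card P) * D := by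
      rw [htrSY] at e4
      push_cast at e3 e4
      linear_combination e3 + e4
    exact_mod_cast mul_right_cancel₀ hDQ h1
  -- over `F_q`
  have hF : ∀ Z : Matrix P P ℤ, T * Z = Z * T →
      q * ((S * Z).map (Int.castRingHom (ZMod q))).rank ≤ (Z.map (Int.castRingHom (ZMod q))).rank := by
    intro Z hZ
    set f := (Int.castRingHom (ZMod q)) with hf
    set T' : Matrix P P (ZMod q) := T.map f with hT'
    set Z' : Matrix P P (ZMod q) := Z.map f with hZ'
    have hfm : ∀ M N : Matrix P P ℤ, (M * N).map f = M.map f * N.map f := fun M N => Matrix.map_mul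
    have hS' : S.map f = (T' - 1) ^ (q - 1) := by
      rw [sub_one_pow q T', hS]
      have h1 : (∑ i ∈ range q, T ^ i).map f = f.mapMatrix (∑ i ∈ range q, T ^ i) := rfl
      rw [h1, map_sum]
      refine Finset.sum_congr rfl fun i _ => ?_
      rw [map_pow]
      rfl
    have hT'q : T' ^ q = 1 := by
      have h1 : T' ^ q = f.mapMatrix (T ^ q) := by rw [map_pow]; rfl
      rw [h1, hTq, map_one]
    have hcomm : T' * Z' = Z' * T' := by rw [hT', hZ', ← hfm, ← hfm, hZ]
    have hUq : (T' - 1) ^ q = 0 := by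
      have h1 : (T' - 1) ^ q = (T' - 1) * (T' - 1) ^ (q - 1) := by
        rw [← pow_succ', Nat.sub_add_cancel hq.out.one_lt.le]
      rw [h1, sub_one_pow q T', mul_geom_sum, hT'q, sub_self]
    have h2 := K1.nil_rank (Matrix.toLin' (T' - 1)) q hq.out.one_lt.le (LinearMap.range (Matrix.toLin' Z')) (by
      rintro _ ⟨_, ⟨v, rfl⟩, rfl⟩
      refine ⟨(T' - 1).mulVec v, ?_⟩
      rw [Matrix.toLin'_apply, Matrix.toLin'_apply, Matrix.toLin'_apply, Matrix.mulVec_mulVec, Matrix.mulVec_mulVec,
        sub_mul, mul_sub, hcomm, one_mul, mul_one]) (by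
      intro v _
      rw [← Matrix.toLin'_pow, hUq, map_zero, LinearMap.zero_apply])
    have h3 : (LinearMap.range (Matrix.toLin' Z')).map (Matrix.toLin' (T' - 1) ^ (q - 1)) =
        LinearMap.range (Matrix.toLin' ((S * Z).map f)) := by
      rw [← Matrix.toLin'_pow, ← hS', hfm, Matrix.toLin'_mul, LinearMap.range_comp]
    rw [h3] at h2
    exact h2
  have f1 := hF X hTX
  have f2 := hF Y hTY
  have g1 := K2.rank_mod X q
  have g2 := K2.rank_mod Y q
  have g3 := K2.rank_mod (S * X) q
  have g4 := K2.rank_mod (S * Y) q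
  have f3 := K4.free_rank θ q hθ hfree
  have f4 : (S.map (Int.castRingHom (ZMod q))).rank ≤ ((S * X).map (Int.castRingHom (ZMod q))).rank +
      ((S * Y).map (Int.castRingHom (ZMod q))).rank := by
    set f := (Int.castRingHom (ZMod q)) with hf
    have hDF : (D : ZMod q) ≠ 0 := by
      intro h
      exact hD ((ZMod.intCast_zmod_eq_zero_iff_dvd D q).1 h)
    have h1 : S * X + S * Y = D • S := by
      rw [← mul_add, hY, add_sub_cancel, Matrix.mul_smul, Matrix.mul_one]
    have h2 : S.map f = ((D : ZMod q)⁻¹ • (1 : Matrix P P (ZMod q))) * ((S * X).map f + (S * Y).map f) := by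
      have h3 : (S * X).map f + (S * Y).map f = (D : ZMod q) • S.map f := by
        rw [← Matrix.map_add f (map_add f), h1]
        ext x y
        simp only [Matrix.map_apply, Matrix.smul_apply, smul_eq_mul, map_mul]
        rfl
      rw [h3, Matrix.smul_mul, Matrix.one_mul, smul_smul, inv_mul_cancel₀ hDF, one_smul]
    rw [h2]
    exact (Matrix.rank_mul_le_right _ _).trans (rank_add_le' _ _)
  have hfin : q * aX = rX := by
    have k1 : q * (S.map (Int.castRingHom (ZMod q))).rank ≤ q * ((S * X).map (Int.castRingHom (ZMod q))).rank +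
        q * ((S * Y).map (Int.castRingHom (ZMod q))).rank := by
      rw [← mul_add]
      exact Nat.mul_le_mul_left _ f4
    have k2 : q * ((S * X).map (Int.castRingHom (ZMod q))).rank ≤ q * aX := Nat.mul_le_mul_left _ g3
    have k3 : q * ((S * Y).map (Int.castRingHom (ZMod q))).rank ≤ q * aY := Nat.mul_le_mul_left _ g4
    rw [mul_add] at hsum2
    have k4 : Fintype.card P ≤ q * (S.map (Int.castRingHom (ZMod q))).rank := f3
    omega
  have hend : (S * X).trace = X.trace := by
    have h1 : (((S * X).trace : ℤ) : ℚ) = ((X.trace : ℤ) : ℚ) := by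
      rw [← e3, ← e1]
      push_cast
      have h2 : ((q : ℚ) * aX) = rX := by exact_mod_cast hfin
      linear_combination (D : ℚ) * h2
    exact_mod_cast h1
  have h9 : (S * X).trace = ∑ i ∈ Finset.range q, ∑ x, X ((θ ^ i) x) x := by
    rw [hS, Finset.sum_mul, Matrix.trace_sum]
    refine Finset.sum_congr rfl fun i _ => ?_
    rw [Matrix.trace]
    exact Finset.sum_congr rfl fun x _ => by rw [Matrix.diag_apply, hT, Tz_pow_mul]
  rw [← h9, hend]
  rfl

end K5

end Pool.Agent.Lib.MP_e0c1ed_co
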