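import Pool.Agent.Lib.MP_e0c1ed_co.K5
import Pool.Agent.Lib.MP_e0c1ed_co.Ab5

/-!
# MP_e0c1ed / K6: the points moved to collinear points by the powers of an element of order `q ∣ (k - 1)² + 1`
-/

set_option autoImplicit false

namespace Pool.Agent.Lib.MP_e0c1ed_co

open Pool.Agent.Results.MP_e0c1ed_co.SelfDualSquare Finset Bens Grp Orb

namespace K6

variable {P L G : Type*} [Finite P] [Finite L] [Group G] [Finite G] [MulAction G P] [MulAction G L]
  {I : P → L → Prop} {n k : ℕ}

theorem moved_sum (hI : IsConfiguration I n k) (hT : TrilateralFree I) (hn : n = k * (k - 1) ^ 2 + k)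
    (hk : k % 2 = 1) (hk3 : 3 ≤ k) (hG : ∀ (g : G) (p : P) (l : L), I (g • p) (g • l) ↔ I p l)
    (q : ℕ) (hq : q.Prime) (hqd : q ∣ (k - 1) ^ 2 + 1) (b : G) (hb : b ^ q = 1) (hfree : ∀ x : P, b • x ≠ x) :
    ∑ i ∈ Finset.range (q - 1), {p : P | b ^ (i + 1) • p ≠ p ∧ ∃ l, I p l ∧ I (b ^ (i + 1) • p) l}.ncard =
      (q - 1) * ((k - 1) ^ 2 + 1) := by
  classical
  have : Fintype P := Fintype.ofFinite P
  have : Fintype L := Fintype.ofFinite L
  have hqF := Fact.mk hq
  obtain ⟨s, rfl⟩ : ∃ s, k = s + 1 := ⟨k - 1, by omega⟩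
  rw [Nat.add_sub_cancel] at hqd ⊢
  have hn' : n = (s + 1) * (s ^ 2 + 1) := by rw [hn, Nat.add_sub_cancel]; ring
  have hinv : ∀ (g : G) x l, I x l → I (g • x) (g • l) := fun g p l h => (hG g p l).2 h
  have hcardP : Fintype.card P = n := by rw [← Nat.card_eq_fintype_card, hI.card_points]
  choose c hc hc0 using fun x y => Ab5.S_int (I := I) x y
  let X : Matrix P P ℤ := Matrix.of fun x y => ((s : ℤ) + 1) * c x y - 1
  have hXe : ∀ x y, X x y = ((s : ℤ) + 1) * c x y - 1 := fun x y => rfl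
  set D : ℤ := ((s : ℤ) + 1) * (2 * s) with hD
  have hSum : ∀ x, ∑ y, c x y = ((s : ℤ) + 1) ^ 2 := by
    intro x
    have h1 := S_sum_right hI x
    rw [Finset.sum_congr rfl (fun y _ => hc x y)] at h1
    exact_mod_cast h1
  have hcomm : ∀ x y, c x y = c y x := by
    intro x y
    have h1 : S I x y = S I y x := S_comm x y
    rw [hc, hc] at h1
    exact_mod_cast h1
  have hSS : ∀ x z, ∑ y, c x y * c y z = 2 * (s : ℤ) * c x z + (s + 1) := by
    intro x z
    have h1 := SS hI hT hn (by omega) x z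
    rw [Finset.sum_congr rfl (fun y _ => by rw [hc x y, hc y z]), hc x z] at h1
    have h2 : ((∑ y, c x y * c y z : ℤ) : ℚ) = ((2 * (s : ℤ) * c x z + (s + 1) : ℤ) : ℚ) := by
      push_cast
      rw [h1]
      push_cast
      ring
    exact_mod_cast h2
  have hXX : X * X = D • X := by
    ext x z
    rw [Matrix.mul_apply, Matrix.smul_apply, smul_eq_mul, hXe]
    have h1 : ∀ y, X x y * X y z = ((s : ℤ) + 1) ^ 2 * (c x y * c y z) - (s + 1) * c x y - (s + 1) * c z y + 1 := by
      intro y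
      rw [hXe, hXe, hcomm z y]
      ring
    rw [Finset.sum_congr rfl (fun y _ => h1 y), Finset.sum_add_distrib, Finset.sum_sub_distrib, Finset.sum_sub_distrib,
      ← Finset.mul_sum, ← Finset.mul_sum, ← Finset.mul_sum, hSS, hSum, hSum, Finset.sum_const, Finset.card_univ, hcardP,
      hn', hD]
    simp only [nsmul_eq_mul]
    push_cast
    ring
  have hDq : ¬ (q : ℤ) ∣ D := by
    intro h
    have hs2 : (q : ℤ) ∣ (s : ℤ) ^ 2 + 1 := by exact_mod_cast hqd
    have hqp : Prime (q : ℤ) := Nat.prime_iff_prime_int.1 hq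
    have hq2 : q ≠ 2 := by
      rintro rfl
      obtain ⟨t, rfl⟩ : ∃ t, s = 2 * t := ⟨s / 2, by omega⟩
      have h5 : (2 * t) ^ 2 + 1 = 2 * (2 * t ^ 2) + 1 := by ring
      rw [h5] at hqd
      omega
    have hnot2 : ¬ (q : ℤ) ∣ 2 := by
      intro h
      have h1 : q ∣ 2 := by exact_mod_cast h
      exact hq2 ((Nat.prime_dvd_prime_iff_eq hq Nat.prime_two).1 h1)
    rw [hD] at h
    rcases hqp.dvd_or_dvd h with h | h
    · apply hnot2
      have h1 : (2 : ℤ) = ((s : ℤ) ^ 2 + 1) - (s + 1) * (s - 1) := by ring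
      rw [h1]
      exact dvd_sub hs2 (h.mul_right _)
    · rcases hqp.dvd_or_dvd h with h | h
      · exact hnot2 h
      · have h1 : (q : ℤ) ∣ 1 := by
          have h2 : (1 : ℤ) = ((s : ℤ) ^ 2 + 1) - s * s := by ring
          rw [h2]
          exact dvd_sub hs2 (h.mul_right _)
        have h2 : q ∣ 1 := by exact_mod_cast h1
        exact hq.one_lt.ne' (Nat.dvd_one.1 h2)
  set θ : Equiv.Perm P := MulAction.toPermHom G P b with hθd
  have hθi : ∀ (i : ℕ) (x : P), (θ ^ i) x = b ^ i • x := by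
    intro i x
    rw [hθd, ← map_pow]
    rfl
  have hθx : ∀ x, θ x = b • x := fun x => rfl
  have hXinv : ∀ x y, X (θ x) (θ y) = X x y := by
    intro x y
    rw [hXe, hXe, hθx, hθx]
    have h1 := S_inv hinv b x y
    rw [hc, hc] at h1
    have h2 : c (b • x) (b • y) = c x y := by exact_mod_cast h1
    rw [h2]
  have key := K5.trace_eq θ q (fun x => by rw [hθi, hb, one_smul]) (fun x => by rw [hθx]; exact hfree x) X D hDq hXX hXinv
  -- powers are fixed point free
  have hper : ∀ (i : ℕ) (x : P), i + 1 < q → b ^ (i + 1) • x ≠ x := by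
    intro i x hi h
    have h2 : Function.IsPeriodicPt θ (i + 1) x := by
      show θ^[i + 1] x = x
      rw [Equiv.Perm.iterate_eq_pow, hθi]; exact h
    have h3 : Function.IsPeriodicPt θ q x := by
      show θ^[q] x = x
      rw [Equiv.Perm.iterate_eq_pow, hθi, hb, one_smul]
    have h4 := h2.gcd h3
    have h5 : Nat.gcd (i + 1) q = 1 := by
      rw [Nat.gcd_comm]
      exact (Nat.Prime.coprime_iff_not_dvd hq).2 (fun hd => by
        have := Nat.le_of_dvd (by omega) hd
        omega)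
    rw [h5] at h4
    exact hfree x h4
  have hterm : ∀ i ∈ Finset.range (q - 1), ∑ x, X ((θ ^ (i + 1)) x) x =
      ((s : ℤ) + 1) * ({p : P | b ^ (i + 1) • p ≠ p ∧ ∃ l, I p l ∧ I (b ^ (i + 1) • p) l}.ncard : ℤ) - n := by
    intro i hi
    have hi' : i + 1 < q := by
      have := Finset.mem_range.1 hi
      omega
    set A : Set P := {p : P | b ^ (i + 1) • p ≠ p ∧ ∃ l, I p l ∧ I (b ^ (i + 1) • p) l} with hA
    have h1 : ∀ x, X ((θ ^ (i + 1)) x) x = ((s : ℤ) + 1) * (if x ∈ A then 1 else 0) - 1 := by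
      intro x
      rw [hXe, hθi]
      congr 2
      by_cases hx : x ∈ A
      · rw [if_pos hx]
        obtain ⟨h2, l, h3, h4⟩ := hx
        have h5 := S_col hI h2 h4 h3
        rw [hc] at h5
        exact_mod_cast h5
      · rw [if_neg hx]
        have h5 : S I (b ^ (i + 1) • x) x = 0 := by
          apply S_ncol
          rintro ⟨l, h3, h4⟩
          exact hx ⟨hper i x hi', l, h4, h3⟩
        rw [hc] at h5
        exact_mod_cast h5
    rw [Finset.sum_congr rfl (fun x _ => h1 x), Finset.sum_sub_distrib, ← Finset.mul_sum, Finset.sum_boole,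
      Finset.sum_const, Finset.card_univ, hcardP]
    have h2 : (Finset.univ.filter fun x => x ∈ A).card = A.ncard := by
      rw [← Set.ncard_coe_finset]
      congr 1
      ext x
      simp
    rw [h2]
    simp
  have hq1 : q = (q - 1) + 1 := by have := hq.one_lt; omega
  have h0 : ∑ x, X ((θ ^ 0) x) x = ∑ x, X x x := by simp
  rw [show Finset.range q = Finset.range ((q - 1) + 1) by rw [← hq1], Finset.sum_range_succ', h0,
    Finset.sum_congr rfl hterm] at key
  have h1 : ∑ i ∈ Finset.range (q - 1), (((s : ℤ) + 1) *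
      ({p : P | b ^ (i + 1) • p ≠ p ∧ ∃ l, I p l ∧ I (b ^ (i + 1) • p) l}.ncard : ℤ) - n) = 0 := by
    linarith
  rw [Finset.sum_sub_distrib, ← Finset.mul_sum, Finset.sum_const, Finset.card_range, nsmul_eq_mul] at h1
  have h2 : ((s : ℤ) + 1) * (∑ i ∈ Finset.range (q - 1),
      ({p : P | b ^ (i + 1) • p ≠ p ∧ ∃ l, I p l ∧ I (b ^ (i + 1) • p) l}.ncard : ℤ)) =
      ((s : ℤ) + 1) * (((q - 1 : ℕ) : ℤ) * ((s : ℤ) ^ 2 + 1)) := by
    have h3 : (n : ℤ) = (s + 1) * (s ^ 2 + 1) := by rw [hn']; push_cast; ring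
    rw [h3] at h1
    linear_combination h1
  have h4 := mul_left_cancel₀ (show ((s : ℤ) + 1) ≠ 0 by omega) h2
  exact_mod_cast h4

end K6

end Pool.Agent.Lib.MP_e0c1ed_co
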