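import Pool.Agent.Lib.MP_e0c1ed_co.K6
import Pool.Agent.Lib.MP_e0c1ed_co.Semi
import Pool.Agent.Lib.MP_e0c1ed_co.Cena
import Pool.Agent.Lib.MP_e0c1ed_co.Main

/-!
# MP_e0c1ed / K7: a point transitive group has no elementary abelian normal subgroup
-/

set_option autoImplicit false

namespace Pool.Agent.Lib.MP_e0c1ed_co.K7

open Finset Pool.Agent.Results.MP_e0c1ed_co.SelfDualSquare

/-- averaging over a group of prime exponent: if the values of `M` at the powers `b, b², …, b^(q-1)` of every `b ≠ 1`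
have sum `(q - 1) c`, then the sum of all values at `b ≠ 1` is `(|B| - 1) c` -/
theorem sum_pow {B : Type*} [Group B] [Fintype B] (q : ℕ) (hq : q.Prime) (hB : IsPGroup q B) (M : B → ℕ) (c : ℕ)
    (h1 : M 1 = 0) (hM : ∀ b : B, b ≠ 1 → ∑ i ∈ range (q - 1), M (b ^ (i + 1)) = (q - 1) * c) :
    ∑ b, M b = (Fintype.card B - 1) * c := by
  classical
  have := Fact.mk hq
  obtain ⟨a, ha⟩ := IsPGroup.iff_card.1 hB
  have h2 : ∑ b : B, ∑ i ∈ range (q - 1), M (b ^ (i + 1)) = (q - 1) * ∑ b, M b := by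
    rw [Finset.sum_comm]
    have h3 : ∀ i ∈ range (q - 1), ∑ b : B, M (b ^ (i + 1)) = ∑ b, M b := by
      intro i hi
      have hi' := Finset.mem_range.1 hi
      have hcop : (Nat.card B).Coprime (i + 1) := by
        rw [ha]
        apply Nat.Coprime.pow_left
        exact (Nat.Prime.coprime_iff_not_dvd hq).2 fun h => absurd (Nat.le_of_dvd (Nat.succ_pos i) h) (by omega)
      exact (powCoprime hcop).sum_comp M
    rw [Finset.sum_congr rfl h3, Finset.sum_const, Finset.card_range, smul_eq_mul]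
  have h4 : ∑ b : B, ∑ i ∈ range (q - 1), M (b ^ (i + 1)) = (Fintype.card B - 1) * ((q - 1) * c) := by
    rw [← Finset.sum_erase_add _ _ (Finset.mem_univ (1 : B))]
    have h5 : ∑ i ∈ range (q - 1), M ((1 : B) ^ (i + 1)) = 0 := by
      apply Finset.sum_eq_zero
      intro i _
      rw [one_pow, h1]
    rw [h5, add_zero, Finset.sum_congr rfl (fun b hb => hM b (Finset.ne_of_mem_erase hb)), Finset.sum_const,
      Finset.card_erase_of_mem (Finset.mem_univ _), Finset.card_univ, smul_eq_mul]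
  have h6 : (q - 1) * ∑ b, M b = (q - 1) * ((Fintype.card B - 1) * c) := by
    rw [← h2, h4]; ring
  exact Nat.eq_of_mul_eq_mul_left (by have := hq.two_le; omega) h6

section
variable {P L G : Type*} [Finite P] [Finite L] [Group G] [Finite G] [MulAction G P] [MulAction G L]
  {I : P → L → Prop} {n k : ℕ}

/-- There is no semiregular elementary abelian normal subgroup of order `> 2 (k - 1)` dividing `(k - 1)² + 1`. -/
theorem none_aux (hI : IsConfiguration I n k) (hT : TrilateralFree I) (hn : n = k * (k - 1) ^ 2 + k)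
    (hk : k % 2 = 1) (hk3 : 3 ≤ k) (hG : ∀ (g : G) (p : P) (l : L), I (g • p) (g • l) ↔ I p l)
    (ht : ∀ p q : P, ∃ g : G, g • p = q)
    (B : Subgroup G) [B.Normal] (q : ℕ) (hq : q.Prime) (hexp : ∀ b ∈ B, b ^ q = 1)
    (hsemi : ∀ b ∈ B, b ≠ 1 → ∀ x : P, b • x ≠ x) (hqd : q ∣ (k - 1) ^ 2 + 1)
    (hm : Nat.card B ∣ (k - 1) ^ 2 + 1) (hm2 : 2 * (k - 1) < Nat.card B) : False := by
  classical
  have : Fintype P := Fintype.ofFinite P
  have : Fintype B := Fintype.ofFinite B
  have hPB : IsPGroup q B := by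
    intro b
    exact ⟨1, by rw [pow_one]; exact Subtype.ext (hexp b.1 b.2)⟩
  have hnp : n = k * ((k - 1) ^ 2 + 1) := by rw [hn]; ring
  have hcardP : Nat.card P = n := hI.card_points
  obtain ⟨x0⟩ : Nonempty P := by
    rw [← Finite.card_pos_iff, hcardP, hnp]
    exact Nat.mul_pos (by omega) (by omega)
  have hinv : ∀ (g : G) x l, I x l → I (g • x) (g • l) := fun g p l h => (hG g p l).2 h
  let Q : G → P → Prop := fun b x => b • x ≠ x ∧ ∃ l, I x l ∧ I (b • x) l
  let M : B → ℕ := fun b => {x : P | Q b x}.ncard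
  have hM1 : M 1 = 0 := by
    show {x : P | Q ((1 : B) : G) x}.ncard = 0
    have : {x : P | Q ((1 : B) : G) x} = ∅ := by
      ext x
      simp [Q]
    rw [this, Set.ncard_empty]
  have hM : ∀ b : B, b ≠ 1 → ∑ i ∈ range (q - 1), M (b ^ (i + 1)) = (q - 1) * ((k - 1) ^ 2 + 1) := by
    intro b hb
    have hb1 : (b : G) ≠ 1 := fun h => hb (Subtype.ext h)
    exact K6.moved_sum hI hT hn hk hk3 hG q hq hqd (b : G) (hexp b b.2) (fun x => hsemi b b.2 hb1 x)
  have hsum := sum_pow q hq hPB M _ hM1 hM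
  -- the number of `b` moving `x` to a collinear point
  let c : P → ℕ := fun x => (univ.filter fun b : B => Q b x).card
  have hc : ∀ x, c x = c x0 := by
    intro x
    obtain ⟨g, rfl⟩ := ht x0 x
    symm
    refine Finset.card_bij (fun b _ => ⟨g * b * g⁻¹, (inferInstance : B.Normal).conj_mem b b.2 g⟩) ?_ ?_ ?_
    · intro b hb
      rw [Finset.mem_filter] at hb ⊢
      obtain ⟨-, h1, l, h2, h3⟩ := hb
      have h4 : (g * (b : G) * g⁻¹) • (g • x0) = g • ((b : G) • x0) := by
        rw [← mul_smul, ← mul_smul]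
        congr 1
        group
      refine ⟨Finset.mem_univ _, ?_, g • l, hinv g _ _ h2, ?_⟩
      · show (g * (b : G) * g⁻¹) • (g • x0) ≠ g • x0
        rw [h4]
        intro h
        exact h1 (smul_left_cancel g h)
      · show I ((g * (b : G) * g⁻¹) • (g • x0)) (g • l)
        rw [h4]
        exact hinv g _ _ h3
    · intro b _ d _ h
      have h1 : g * (b : G) * g⁻¹ = g * (d : G) * g⁻¹ := congrArg Subtype.val h
      exact Subtype.ext (mul_left_cancel (mul_right_cancel h1))
    · intro d hd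
      rw [Finset.mem_filter] at hd
      obtain ⟨-, h1, l, h2, h3⟩ := hd
      have hmem : g⁻¹ * (d : G) * g ∈ B := by
        have := (inferInstance : B.Normal).conj_mem d d.2 g⁻¹
        simpa using this
      have h4 : (g⁻¹ * (d : G) * g) • x0 = g⁻¹ • ((d : G) • (g • x0)) := by
        rw [← mul_smul, ← mul_smul, mul_assoc]
      refine ⟨⟨g⁻¹ * d * g, hmem⟩, ?_, ?_⟩
      · rw [Finset.mem_filter]
        refine ⟨Finset.mem_univ _, ?_, g⁻¹ • l, ?_, ?_⟩
        · show (g⁻¹ * (d : G) * g) • x0 ≠ x0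
          rw [h4]
          intro h
          apply h1
          rw [inv_smul_eq_iff] at h
          exact h
        · have := hinv g⁻¹ _ _ h2
          rwa [inv_smul_smul] at this
        · show I ((g⁻¹ * (d : G) * g) • x0) (g⁻¹ • l)
          rw [h4]
          exact hinv g⁻¹ _ _ h3
      · apply Subtype.ext
        show g * (g⁻¹ * (d : G) * g) * g⁻¹ = d
        group
  have hdc : ∑ b, M b = n * c x0 := by
    have h1 : ∀ b : B, M b = ∑ x : P, if Q b x then 1 else 0 := by
      intro b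
      rw [Finset.sum_boole, Nat.cast_id]
      show {x : P | Q b x}.ncard = _
      rw [← Set.ncard_coe_finset]
      congr 1
      ext x
      simp
    have h2 : ∀ x : P, c x = ∑ b : B, if Q b x then 1 else 0 := by
      intro x
      rw [Finset.sum_boole, Nat.cast_id]
    rw [Finset.sum_congr rfl (fun b _ => h1 b), Finset.sum_comm]
    rw [Finset.sum_congr rfl (fun x _ => (h2 x).symm), Finset.sum_congr rfl (fun x _ => hc x), Finset.sum_const,
      Finset.card_univ, ← Nat.card_eq_fintype_card, hcardP, smul_eq_mul]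
  rw [hdc, hnp, ← Nat.card_eq_fintype_card] at hsum
  have h1 : k * c x0 = Nat.card B - 1 := by
    have h2 : ((k - 1) ^ 2 + 1) * (k * c x0) = ((k - 1) ^ 2 + 1) * (Nat.card B - 1) := by
      rw [mul_comm ((k - 1) ^ 2 + 1) (Nat.card B - 1), ← hsum]
      ring
    exact Nat.eq_of_mul_eq_mul_left (by omega) h2
  obtain ⟨w, hw⟩ := hm
  obtain ⟨s, rfl⟩ : ∃ s, k = s + 1 := ⟨k - 1, by omega⟩
  rw [Nat.add_sub_cancel] at hw hm2
  exact Cen.arith2 s (Nat.card B) w (by omega) (by omega) hm2 hw ⟨c x0, h1.symm⟩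

/-- **A point transitive group has no nontrivial elementary abelian normal subgroup.** -/
theorem none (hI : IsConfiguration I n k) (hT : TrilateralFree I) (hn : n = k * (k - 1) ^ 2 + k)
    (hk : k % 2 = 1) (hk3 : 3 ≤ k) (hG : ∀ (g : G) (p : P) (l : L), I (g • p) (g • l) ↔ I p l)
    (hf : ∀ g : G, (∀ p : P, g • p = p) → g = 1) (ht : ∀ p q : P, ∃ g : G, g • p = q)
    (B : Subgroup G) [B.Normal] (hne : B ≠ ⊥) (hab : ∀ a ∈ B, ∀ b ∈ B, a * b = b * a) (q : ℕ) (hq : q.Prime)
    (hexp : ∀ b ∈ B, b ^ q = 1) : False := by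
  classical
  have := Fact.mk hq
  have hPB : IsPGroup q B := by
    intro b
    exact ⟨1, by rw [pow_one]; exact Subtype.ext (hexp b.1 b.2)⟩
  obtain ⟨a, ha⟩ := IsPGroup.iff_card.1 hPB
  have hnp : n = k * ((k - 1) ^ 2 + 1) := by rw [hn]; ring
  have hcardP : Nat.card P = n := hI.card_points
  obtain ⟨x0⟩ : Nonempty P := by
    rw [← Finite.card_pos_iff, hcardP, hnp]
    exact Nat.mul_pos (by omega) (by omega)
  have : MulAction.IsPretransitive G P := ⟨ht⟩
  have h1 : (MulAction.orbit B x0).ncard ∣ Nat.card P :=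
    (MulAction.IsBlock.orbit_of_normal (G := G) (N := B) x0).ncard_dvd_card
      ⟨x0, MulAction.mem_orbit_self x0⟩
  have h2 : (MulAction.orbit B x0).ncard ∣ q ^ a := by
    rw [← ha, ← MulAction.index_stabilizer]
    exact Subgroup.index_dvd_card _
  obtain ⟨b, hb, hm⟩ := (Nat.dvd_prime_pow hq).1 h2
  have h3 := Main.long_orbits hI hT hn hk hk3 hG hf ht B hne x0
  rw [hcardP, hnp, hm] at h1
  rw [hm] at h3
  have hb0 : b ≠ 0 := by
    rintro rfl
    rw [pow_zero] at h3
    omega
  have hcop : Nat.Coprime k ((k - 1) ^ 2 + 1) := by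
    obtain ⟨t, hkt⟩ : ∃ t, k = 2 * t + 1 := ⟨k / 2, by omega⟩
    have e1 : k - 1 = 2 * t := by omega
    rw [e1, hkt]
    have e2 : (2 * t) ^ 2 + 1 = 2 + (2 * t + 1) * (2 * t - 1) := by
      rcases Nat.eq_zero_or_pos t with h | h
      · omega
      · obtain ⟨u, hu⟩ : ∃ u, 2 * t = u + 1 := ⟨2 * t - 1, by omega⟩
        rw [hu, Nat.add_sub_cancel]
        ring
    rw [e2, Nat.coprime_add_mul_left_right]
    exact (Nat.coprime_two_right).2 ⟨t, rfl⟩
  have h4 : q ^ b ∣ (k - 1) ^ 2 + 1 := by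
    rcases (hcop.isPrimePow_dvd_mul (hq.isPrimePow.pow hb0)).1 h1 with h4 | h4
    · have := Nat.le_of_dvd (by omega) h4
      omega
    · exact h4
  have hqd : q ∣ (k - 1) ^ 2 + 1 := (dvd_pow_self q hb0).trans h4
  have hsemi := Semi.semiregular hI hT hn hk hk3 hG hf ht B hab q hq hPB hqd
  have hst : MulAction.stabilizer B x0 = ⊥ := by
    rw [Subgroup.eq_bot_iff_forall]
    intro c hc
    by_contra hc1
    refine hsemi c.1 c.2 ?_ x0 (MulAction.mem_stabilizer_iff.1 hc)
    intro h
    exact hc1 (Subtype.ext h)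
  have hB : Nat.card B = q ^ b := by
    rw [← hm, ← MulAction.index_stabilizer, hst, Subgroup.index_bot]
  exact none_aux hI hT hn hk hk3 hG ht B q hq hexp hsemi hqd (by rw [hB]; exact h4) (by rw [hB]; exact h3)

end

end Pool.Agent.Lib.MP_e0c1ed_co.K7
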