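import Pool.Agent.Lib.MP_e0c1ed_co.M1
import Pool.Agent.Lib.MP_e0c1ed_co.Aut
import Pool.Agent.Lib.MP_e0c1ed_co.TransRad
import Pool.Agent.Lib.MP_e0c1ed_co.Semi

/-!
# MP_e0c1ed / M2: an element of prime order `k` has at most `k` fixed points
-/

set_option autoImplicit false

namespace Pool.Agent.Lib.MP_e0c1ed_co.M2

open Pool.Agent.Results.MP_e0c1ed_co.SelfDualSquare Pool.Agent.Lib.MP_e0c1ed_co

variable {P L G : Type*} [Finite P] [Finite L] [Group G] [Finite G] [MulAction G P] [MulAction G L]
  {I : P → L → Prop} {n k : ℕ}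

/-- An element of prime order `k` has at most `k` fixed points. -/
theorem fixed_le_k (hI : IsConfiguration I n k) (hT : TrilateralFree I) (hn : n = k * (k - 1) ^ 2 + k)
    (hk : k % 2 = 1) (hk3 : 3 ≤ k) (hG : ∀ (g : G) (p : P) (l : L), I (g • p) (g • l) ↔ I p l)
    (hf : ∀ g : G, (∀ p : P, g • p = p) → g = 1) (hkp : k.Prime) (b : G) (hb : b ^ k = 1) (hb1 : b ≠ 1) :
    {x : P | b • x = x}.ncard ≤ k := by
  classical
  have := Fact.mk hkp
  have : Fintype P := Fintype.ofFinite P
  have : Fintype L := Fintype.ofFinite L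
  rcases Set.eq_empty_or_nonempty {x : P | b • x = x} with h0 | ⟨x0, hx0⟩
  · rw [h0, Set.ncard_empty]
    omega
  have hx0' : b • x0 = x0 := hx0
  have hL : ∀ l : L, b • l ≠ l := by
    intro l hl
    by_cases hxl : I x0 l
    · exact hb1 (hf b (flag_fixed hI hT hn (by omega) hG k le_rfl b hb x0 l hx0' hl hxl))
    · obtain ⟨m, z, h1, h2, h3⟩ := gq_axiom hI hT hn (by omega) x0 l hxl
      have h4 : I (b • z) l := by
        have := (hG b z l).2 h3
        rwa [hl] at this
      have h5 : I (b • z) (b • m) := (hG b z m).2 h2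
      have h6 : I x0 (b • m) := by
        have := (hG b x0 m).2 h1
        rwa [hx0'] at this
      have h7 : b • z = z := Semi.proj_unique hI hT x0 l hxl h4 h3 h5 h6 h2 h1
      exact hb1 (hf b (flag_fixed hI hT hn (by omega) hG k le_rfl b hb z l h7 hl h3))
  have hLi : ∀ i, i < k - 1 → ∀ l : L, b ^ (i + 1) • l ≠ l := by
    intro i hi l hl
    have hcop : Nat.Coprime (i + 1) k :=
      (Nat.coprime_comm.1 ((Nat.Prime.coprime_iff_not_dvd hkp).2 fun h => by
        have := Nat.le_of_dvd (by omega) h
        omega))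
    obtain ⟨m, -, hm⟩ := Nat.exists_mul_mod_eq_one_of_coprime hcop hkp.one_lt
    have h1 : (b ^ (i + 1)) ^ m = b := by
      rw [← pow_mul, pow_eq_pow_mod _ hb, hm, pow_one]
    have h2 : b ^ (i + 1) ∈ MulAction.stabilizer G l := hl
    have h3 := (MulAction.stabilizer G l).pow_mem h2 m
    rw [h1] at h3
    exact hL l h3
  have hpow : ∀ j : ℕ, ∀ x : P, b • x = x → b ^ j • x = x := by
    intro j x hx
    have h2 : b ∈ MulAction.stabilizer G x := hx
    exact (MulAction.stabilizer G x).pow_mem h2 j
  obtain ⟨hI', hT'⟩ := Aut.dualize I n k hI hT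
  have key := M1.moved_sum hI' hT' hn hk hk3 (fun g l p => hG g p l) hkp b hb hL
  set F : Finset P := Finset.univ.filter fun x => b • x = x with hF
  have hFc : {x : P | b • x = x}.ncard = F.card := by
    rw [← Set.ncard_coe_finset]
    congr 1
    ext x
    simp [hF]
  have hle : ∀ i, i < k - 1 → F.card * k ≤
      {l : L | b ^ (i + 1) • l ≠ l ∧ ∃ p, I p l ∧ I p (b ^ (i + 1) • l)}.ncard := by
    intro i hi
    have h1 : (F.biUnion fun x => Finset.univ.filter fun l => I x l).card = F.card * k := by
      rw [Finset.card_biUnion]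
      · rw [Finset.sum_const_nat (m := k)]
        intro x _
        rw [← hI.card_through_point x, ← Set.ncard_coe_finset]
        congr 1
        ext l
        simp
      · intro x hx y hy hxy
        rw [Function.onFun, Finset.disjoint_left]
        intro l h2 h3
        rw [Finset.mem_filter] at h2 h3
        have hx' : b • x = x := (Finset.mem_filter.1 hx).2
        have hy' : b • y = y := (Finset.mem_filter.1 hy).2
        have h4 : I x (b • l) := by
          have := (hG b x l).2 h2.2
          rwa [hx'] at this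
        have h5 : I y (b • l) := by
          have := (hG b y l).2 h3.2
          rwa [hy'] at this
        exact hL l (hI.unique_line x y (b • l) l hxy h4 h5 h2.2 h3.2)
    rw [← h1, ← Set.ncard_coe_finset]
    apply Set.ncard_le_ncard _ (Set.toFinite _)
    intro l hl
    rw [Finset.mem_coe, Finset.mem_biUnion] at hl
    obtain ⟨x, hx, hxl⟩ := hl
    have hx' : b • x = x := (Finset.mem_filter.1 hx).2
    have hxl' : I x l := (Finset.mem_filter.1 hxl).2
    refine ⟨hLi i hi l, x, hxl', ?_⟩
    have := (hG (b ^ (i + 1)) x l).2 hxl'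
    rwa [hpow (i + 1) x hx'] at this
  have hsum : (k - 1) * (F.card * k) ≤ (k - 1) * k ^ 2 := by
    rw [← key]
    calc (k - 1) * (F.card * k) = ∑ _i ∈ Finset.range (k - 1), F.card * k := by
          rw [Finset.sum_const, Finset.card_range, smul_eq_mul]
      _ ≤ _ := Finset.sum_le_sum fun i hi => hle i (Finset.mem_range.1 hi)
  have h1 := Nat.le_of_mul_le_mul_left hsum (by omega)
  rw [pow_two] at h1
  rw [hFc]
  exact Nat.le_of_mul_le_mul_right h1 (by omega)

end Pool.Agent.Lib.MP_e0c1ed_co.M2
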