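import Pool.Agent.Lib.MP_e0c1ed_co.M2
import Pool.Agent.Lib.MP_e0c1ed_co.AS4

/-!
# MP_e0c1ed / M3: the points fixed by nontrivial elements of a subgroup of order `k ^ 2`, `k` a prime
-/

set_option autoImplicit false

namespace Pool.Agent.Lib.MP_e0c1ed_co.M3

open Pool.Agent.Results.MP_e0c1ed_co.SelfDualSquare Pool.Agent.Lib.MP_e0c1ed_co

/-- a free action -/
theorem card_dvd_of_free {R X : Type*} [Group R] [MulAction R X] [Finite X] [Finite R]
    (h : ∀ r : R, r ≠ 1 → ∀ x : X, r • x ≠ x) : Nat.card R ∣ Nat.card X := by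
  classical
  have : Fintype X := Fintype.ofFinite X
  have : Fintype R := Fintype.ofFinite R
  rw [Nat.card_congr (MulAction.selfEquivSigmaOrbits R X), Nat.card_sigma]
  apply Finset.dvd_sum
  intro ω _
  have h1 : MulAction.stabilizer R (Quotient.out ω) = ⊥ := by
    rw [Subgroup.eq_bot_iff_forall]
    intro r hr
    by_contra hne
    exact h r hne _ hr
  have h2 : Nat.card (MulAction.orbit R (Quotient.out ω)) = Nat.card R := by
    rw [Nat.card_coe_set_eq, ← MulAction.index_stabilizer, h1, Subgroup.index_bot]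
  exact h2 ▸ dvd_rfl

section
variable {P L G : Type*} [Finite P] [Finite L] [Group G] [Finite G] [MulAction G P] [MulAction G L]
  {I : P → L → Prop} {n k : ℕ}

/-- the stabilizers of points in a group of order `k ^ 2` -/
theorem stab_card (hI : IsConfiguration I n k) (hT : TrilateralFree I) (hn : n = k * (k - 1) ^ 2 + k)
    (hk3 : 3 ≤ k) (hG : ∀ (g : G) (p : P) (l : L), I (g • p) (g • l) ↔ I p l)
    (hf : ∀ g : G, (∀ p : P, g • p = p) → g = 1) (hkp : k.Prime) (R : Subgroup G) (hR : Nat.card R = k ^ 2)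
    (y : P) : Nat.card (R ⊓ MulAction.stabilizer G y : Subgroup G) ∣ k := by
  have h1 : Nat.card (R ⊓ MulAction.stabilizer G y : Subgroup G) ∣ k ^ 2 :=
    hR ▸ Subgroup.card_dvd_of_le inf_le_left
  obtain ⟨e, he, hm⟩ := (Nat.dvd_prime_pow hkp).1 h1
  have h2 := AS4.card_stab hI hT hn hk3 hkp hG hf y (R ⊓ MulAction.stabilizer G y) e hm
    (fun g hg => hg.2)
  rw [hm] at h2 ⊢
  have h3 : e ≤ 1 := by
    by_contra h
    have h4 : k ^ 2 ≤ k ^ e := Nat.pow_le_pow_right hkp.pos (by omega)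
    nlinarith
  calc k ^ e ∣ k ^ 1 := pow_dvd_pow k h3
    _ = k := pow_one k

theorem mod_sq (hI : IsConfiguration I n k) (hT : TrilateralFree I) (hn : n = k * (k - 1) ^ 2 + k)
    (hk3 : 3 ≤ k) (hG : ∀ (g : G) (p : P) (l : L), I (g • p) (g • l) ↔ I p l)
    (hf : ∀ g : G, (∀ p : P, g • p = p) → g = 1) (hkp : k.Prime) (R : Subgroup G) (hR : Nat.card R = k ^ 2)
    (S : Set P) (hS : ∀ g ∈ R, ∀ x ∈ S, g • x ∈ S) :
    S.ncard ≡ (S ∩ {y : P | ∃ g ∈ R, g ≠ 1 ∧ g • y = y}).ncard [MOD k ^ 2] ∧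
      k ∣ (S ∩ {y : P | ∃ g ∈ R, g ≠ 1 ∧ g • y = y}).ncard := by
  classical
  have := Fact.mk hkp
  set Y : Set P := {y : P | ∃ g ∈ R, g ≠ 1 ∧ g • y = y} with hY
  have hYinv : ∀ g ∈ R, ∀ y, y ∈ Y ↔ g • y ∈ Y := by
    have h1 : ∀ g ∈ R, ∀ y, y ∈ Y → g • y ∈ Y := by
      rintro g hg y ⟨h, hh, hh1, hhy⟩
      refine ⟨g * h * g⁻¹, R.mul_mem (R.mul_mem hg hh) (R.inv_mem hg), ?_, ?_⟩
      · intro h2
        exact hh1 (conj_eq_one_iff.1 h2)
      · rw [smul_smul, inv_mul_cancel_right, mul_smul, hhy]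
    intro g hg y
    refine ⟨h1 g hg y, fun h2 => ?_⟩
    have h3 := h1 g⁻¹ (R.inv_mem hg) _ h2
    rwa [inv_smul_smul] at h3
  let S1 : SubMulAction R P := ⟨S \ Y, by
    rintro ⟨g, hg⟩ x ⟨hx, hx'⟩
    exact ⟨hS g hg x hx, fun h => hx' ((hYinv g hg x).2 h)⟩⟩
  let S2 : SubMulAction R P := ⟨S ∩ Y, by
    rintro ⟨g, hg⟩ x ⟨hx, hx'⟩
    exact ⟨hS g hg x hx, (hYinv g hg x).1 hx'⟩⟩
  have h1 : k ^ 2 ∣ (S \ Y).ncard := by
    rw [← hR, ← Nat.card_coe_set_eq]
    refine card_dvd_of_free (R := R) (X := S1) ?_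
    rintro ⟨g, hg⟩ hne ⟨x, hx⟩ hgx
    apply hx.2
    refine ⟨g, hg, fun h => hne (Subtype.ext h), ?_⟩
    exact congrArg Subtype.val hgx
  have h2 : k ∣ (S ∩ Y).ncard := by
    have hp : IsPGroup k R := IsPGroup.of_card hR
    have h3 := hp.card_modEq_card_fixedPoints S2
    have h4 : IsEmpty (MulAction.fixedPoints R S2) := by
      constructor
      rintro ⟨⟨y, hy⟩, hfix⟩
      have h5 : R ≤ MulAction.stabilizer G y := by
        intro g hg
        exact congrArg Subtype.val (hfix ⟨g, hg⟩)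
      have h6 := stab_card hI hT hn hk3 hG hf hkp R hR y
      rw [inf_eq_left.2 h5, hR] at h6
      have h7 := Nat.le_of_dvd hkp.pos h6
      nlinarith
    rw [Nat.card_of_isEmpty (α := MulAction.fixedPoints R S2), Nat.modEq_zero_iff_dvd] at h3
    rw [← Nat.card_coe_set_eq]
    exact h3
  refine ⟨?_, h2⟩
  rw [← Set.ncard_inter_add_ncard_sdiff_eq_ncard S Y (Set.toFinite _)]
  have h3 : (S \ Y).ncard ≡ 0 [MOD k ^ 2] := Nat.modEq_zero_iff_dvd.2 h1
  simpa using (Nat.ModEq.refl ((S ∩ Y).ncard)).add h3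

/-- The set of points fixed by some nontrivial element of a subgroup of order `k ^ 2` has `2 k` elements. -/
theorem card_Y (hI : IsConfiguration I n k) (hT : TrilateralFree I) (hn : n = k * (k - 1) ^ 2 + k)
    (hk : k % 2 = 1) (hk3 : 3 ≤ k) (hG : ∀ (g : G) (p : P) (l : L), I (g • p) (g • l) ↔ I p l)
    (hf : ∀ g : G, (∀ p : P, g • p = p) → g = 1) (hkp : k.Prime) (R : Subgroup G) (hR : Nat.card R = k ^ 2) :
    {y : P | ∃ g ∈ R, g ≠ 1 ∧ g • y = y}.ncard = 2 * k := by
  classical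
  have : Fintype P := Fintype.ofFinite P
  have : Fintype G := Fintype.ofFinite G
  set Y : Set P := {y : P | ∃ g ∈ R, g ≠ 1 ∧ g • y = y} with hY
  have h1 := (mod_sq hI hT hn hk3 hG hf hkp R hR Set.univ (fun _ _ _ _ => Set.mem_univ _)).1
  rw [Set.univ_inter, Set.ncard_univ, hI.card_points] at h1
  have h2 : n = k ^ 2 * (k - 2) + 2 * k := by
    obtain ⟨t, rfl⟩ : ∃ t, k = t + 2 := ⟨k - 2, by omega⟩
    rw [hn, show t + 2 - 1 = t + 1 by omega, show t + 2 - 2 = t by omega]
    ring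
  rw [h2] at h1
  -- the upper bound
  set s : Finset G := Finset.univ.filter fun g => g ∈ R ∧ g ≠ 1 with hs
  have hsc : s.card = k ^ 2 - 1 := by
    have h3 : s = (Finset.univ.filter fun g => g ∈ R).erase 1 := by
      ext g
      simp [hs, and_comm]
    rw [h3, Finset.card_erase_of_mem (by simp [R.one_mem])]
    congr 1
    rw [← hR, Nat.card_eq_fintype_card, Fintype.card_subtype]
  have hdc := Finset.sum_card_bipartiteAbove_eq_sum_card_bipartiteBelow (s := s) (t := (Finset.univ : Finset P))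
    (fun g y => g • y = y)
  have hup : ∑ g ∈ s, (Finset.bipartiteAbove (fun (g : G) (y : P) => g • y = y) Finset.univ g).card ≤
      (k ^ 2 - 1) * k := by
    rw [← hsc, ← smul_eq_mul]
    refine Finset.sum_le_card_nsmul _ _ _ fun g hg => ?_
    obtain ⟨hgR, hg1⟩ := (Finset.mem_filter.1 hg).2
    have h3 : (Finset.bipartiteAbove (fun (g : G) (y : P) => g • y = y) Finset.univ g).card =
        {x : P | g • x = x}.ncard := by
      rw [← Set.ncard_coe_finset]
      congr 1
      ext x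
      simp [Finset.bipartiteAbove]
    rw [h3]
    rcases Set.eq_empty_or_nonempty {x : P | g • x = x} with h0 | ⟨y, hy⟩
    · rw [h0, Set.ncard_empty]
      omega
    · have h4 := stab_card hI hT hn hk3 hG hf hkp R hR y
      have h5 : g ^ k = 1 := by
        have h6 : (⟨g, hgR, hy⟩ : (R ⊓ MulAction.stabilizer G y : Subgroup G)) ^ k = 1 := by
          obtain ⟨c, hc⟩ := h4
          conv_lhs => rw [hc]
          rw [pow_mul, pow_card_eq_one', one_pow]
        exact congrArg Subtype.val h6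
      exact M2.fixed_le_k hI hT hn hk hk3 hG hf hkp g h5 hg1
  have hlow : Y.ncard * (k - 1) ≤
      ∑ y ∈ (Finset.univ : Finset P), (Finset.bipartiteBelow (fun (g : G) (y : P) => g • y = y) s y).card := by
    have h3 : Y.ncard = (Finset.univ.filter fun y => y ∈ Y).card := by
      rw [← Set.ncard_coe_finset]
      congr 1
      ext x
      simp
    rw [h3, ← smul_eq_mul]
    refine le_trans (Finset.card_nsmul_le_sum _ (fun y =>
      (Finset.bipartiteBelow (fun (g : G) (y : P) => g • y = y) s y).card) _ fun y hy => ?_)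
      (Finset.sum_le_sum_of_subset (Finset.filter_subset _ _))
    obtain ⟨g, hg, hg1, hgy⟩ := (Finset.mem_filter.1 hy).2
    have h4 := stab_card hI hT hn hk3 hG hf hkp R hR y
    have h5 : Nat.card (R ⊓ MulAction.stabilizer G y : Subgroup G) = k := by
      rcases (Nat.dvd_prime hkp).1 h4 with h6 | h6
      · exfalso
        have h7 := Subgroup.card_eq_one.1 h6
        have h8 : g ∈ (R ⊓ MulAction.stabilizer G y : Subgroup G) := ⟨hg, hgy⟩
        rw [h7, Subgroup.mem_bot] at h8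
        exact hg1 h8
      · exact h6
    have h6 : Finset.bipartiteBelow (fun (g : G) (y : P) => g • y = y) s y =
        (Finset.univ.filter fun g => g ∈ (R ⊓ MulAction.stabilizer G y : Subgroup G)).erase 1 := by
      ext g
      simp only [Finset.bipartiteBelow, Finset.mem_filter, hs, Finset.mem_univ, true_and, Finset.mem_erase,
        Subgroup.mem_inf, MulAction.mem_stabilizer_iff]
      tauto
    rw [h6, Finset.card_erase_of_mem (by simp [R.one_mem])]
    have h7 : (Finset.univ.filter fun g => g ∈ (R ⊓ MulAction.stabilizer G y : Subgroup G)).card = k := by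
      rw [← h5, Nat.card_eq_fintype_card, Fintype.card_subtype]
    rw [h7]
  have h3 : Y.ncard * (k - 1) ≤ (k ^ 2 - 1) * k := hlow.trans (hdc ▸ hup)
  have h4 : Y.ncard ≤ k * (k + 1) := by
    obtain ⟨t, rfl⟩ : ∃ t, k = t + 1 := ⟨k - 1, by omega⟩
    have h5 : (t + 1) ^ 2 - 1 = t * (t + 2) := by
      have : (t + 1) ^ 2 = t * (t + 2) + 1 := by ring
      omega
    rw [h5, Nat.add_sub_cancel] at h3
    have h6 : t * Y.ncard ≤ t * ((t + 1) * (t + 1 + 1)) := by
      calc t * Y.ncard = Y.ncard * t := by ring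
        _ ≤ t * (t + 2) * (t + 1) := h3
        _ = _ := by ring
    exact Nat.le_of_mul_le_mul_left h6 (by omega)
  have h5 : Y.ncard % k ^ 2 = (2 * k) % k ^ 2 := by
    have h6 : (k ^ 2 * (k - 2) + 2 * k) % k ^ 2 = Y.ncard % k ^ 2 := h1
    rw [Nat.mul_add_mod] at h6
    exact h6.symm
  have h6 : 2 * k < k ^ 2 := by nlinarith
  rw [Nat.mod_eq_of_lt h6] at h5
  have h7 := Nat.div_add_mod Y.ncard (k ^ 2)
  rw [h5] at h7
  rcases Nat.eq_zero_or_pos (Y.ncard / k ^ 2) with h8 | h8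
  · rw [h8, mul_zero, zero_add] at h7
    exact h7.symm
  · have h9 : k ^ 2 * 1 ≤ k ^ 2 * (Y.ncard / k ^ 2) := Nat.mul_le_mul_left _ h8
    have h10 : k * (k + 1) = k ^ 2 + k := by ring
    omega

end

end Pool.Agent.Lib.MP_e0c1ed_co.M3
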