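import Pool.Agent.Lib.MP_e0c1ed_co.M3
import Pool.Agent.Lib.MP_e0c1ed_co.Ovoid

/-!
# MP_e0c1ed / M4: if `k` is a prime and `k ^ 2` divides the order of `G`, nontrivial normal subgroups have order
divisible by `k`
-/

set_option autoImplicit false

namespace Pool.Agent.Lib.MP_e0c1ed_co.M4

open Pool.Agent.Results.MP_e0c1ed_co.SelfDualSquare Pool.Agent.Lib.MP_e0c1ed_co
open scoped Pointwise

variable {P L G : Type*} [Finite P] [Finite L] [Group G] [Finite G] [MulAction G P] [MulAction G L]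
  {I : P → L → Prop} {n k : ℕ}

/-- every orbit of a normal subgroup of order prime to `k` contains a point fixed by a nontrivial element of `R` -/
theorem meets (hI : IsConfiguration I n k) (hT : TrilateralFree I) (hn : n = k * (k - 1) ^ 2 + k)
    (hk : k % 2 = 1) (hk3 : 3 ≤ k) (hG : ∀ (g : G) (p : P) (l : L), I (g • p) (g • l) ↔ I p l)
    (hf : ∀ g : G, (∀ p : P, g • p = p) → g = 1) (ht : ∀ p q : P, ∃ g : G, g • p = q) (hkp : k.Prime)
    (R : Subgroup G) (hR : Nat.card R = k ^ 2) (N : Subgroup G) [N.Normal] (hne : N ≠ ⊥)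
    (hcon : ¬ k ∣ Nat.card N) (x : P) : ∃ y ∈ MulAction.orbit N x, ∃ g ∈ R, g ≠ 1 ∧ g • y = y := by
  classical
  by_contra hno
  push Not at hno
  have := Fact.mk hkp
  have hPret : MulAction.IsPretransitive G P := ⟨ht⟩
  set Ω : Set P := MulAction.orbit N x with hΩ
  have hblock : MulAction.IsBlock G Ω := MulAction.IsBlock.orbit_of_normal (G := G) (N := N) x
  have h2 := Main.long_orbits hI hT hn hk hk3 hG hf ht N hne x
  have h6 : Ω.ncard ∣ Nat.card N := by
    rw [hΩ, ← MulAction.index_stabilizer N x]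
    exact Subgroup.index_dvd_card _
  set RΩ : Subgroup G := R ⊓ MulAction.stabilizer G Ω with hRΩ
  let S : SubMulAction RΩ P := ⟨Ω, by
    rintro ⟨g, hg⟩ y hy
    have h3 : g • Ω = Ω := hg.2
    rw [← h3]
    exact Set.smul_mem_smul_set hy⟩
  have h7 : Nat.card RΩ ∣ Ω.ncard := by
    rw [← Nat.card_coe_set_eq]
    refine M3.card_dvd_of_free (R := RΩ) (X := S) ?_
    rintro ⟨g, hg⟩ hne' ⟨y, hy⟩ hgy
    exact hno y hy g hg.1 (fun h => hne' (Subtype.ext h)) (congrArg Subtype.val hgy)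
  have h8 : Nat.card RΩ ∣ k ^ 2 := hR ▸ Subgroup.card_dvd_of_le inf_le_left
  have h9 : Nat.card RΩ = 1 := by
    obtain ⟨e, he, hm⟩ := (Nat.dvd_prime_pow hkp).1 h8
    rcases Nat.eq_zero_or_pos e with h | h
    · rw [hm, h, pow_zero]
    · exfalso
      exact hcon ((dvd_pow_self k (by omega)).trans (hm ▸ h7.trans h6))
  have h10 := Subgroup.card_eq_one.1 h9
  have hinj : Function.Injective (fun z : R × Ω => (z.1 : G) • (z.2 : P)) := by
    rintro ⟨⟨g, hg⟩, ⟨y, hy⟩⟩ ⟨⟨g', hg'⟩, ⟨y', hy'⟩⟩ h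
    have h11 : g • y = g' • y' := h
    have h12 : (g'⁻¹ * g) • y = y' := by rw [mul_smul, h11, inv_smul_smul]
    have h13 : (g'⁻¹ * g) • Ω = Ω := by
      rcases hblock.smul_eq_or_disjoint (g'⁻¹ * g) with h16 | h16
      · exact h16
      · exfalso
        have h17 : y' ∈ (g'⁻¹ * g) • Ω := by
          rw [← h12]
          exact Set.smul_mem_smul_set hy
        exact Set.disjoint_left.1 h16 h17 hy'
    have h14 : g'⁻¹ * g ∈ RΩ := ⟨R.mul_mem (R.inv_mem hg') hg, h13⟩
    rw [h10, Subgroup.mem_bot, inv_mul_eq_one] at h14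
    subst h14
    have h15 : y = y' := MulAction.injective g' h11
    subst h15
    rfl
  have h11 := Nat.card_le_card_of_injective _ hinj
  rw [Nat.card_prod, hR, Nat.card_coe_set_eq, hI.card_points, hn] at h11
  obtain ⟨s, rfl⟩ : ∃ s, k = s + 1 := ⟨k - 1, by omega⟩
  rw [Nat.add_sub_cancel] at h11 h2
  have h12 : (s + 1) ^ 2 * (2 * s + 1) ≤ (s + 1) ^ 2 * Ω.ncard := Nat.mul_le_mul_left _ h2
  nlinarith

/-- Every nontrivial normal subgroup has order divisible by `k`. -/
theorem dvd_card (hI : IsConfiguration I n k) (hT : TrilateralFree I) (hn : n = k * (k - 1) ^ 2 + k)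
    (hk : k % 2 = 1) (hk3 : 3 ≤ k) (hG : ∀ (g : G) (p : P) (l : L), I (g • p) (g • l) ↔ I p l)
    (hf : ∀ g : G, (∀ p : P, g • p = p) → g = 1) (ht : ∀ p q : P, ∃ g : G, g • p = q) (hkp : k.Prime)
    (R : Subgroup G) (hR : Nat.card R = k ^ 2) (N : Subgroup G) [N.Normal] (hne : N ≠ ⊥) : k ∣ Nat.card N := by
  classical
  by_contra hcon
  have := Fact.mk hkp
  have : Fintype P := Fintype.ofFinite P
  have hPret : MulAction.IsPretransitive G P := ⟨ht⟩
  have hcard : Nat.card P = k * ((k - 1) ^ 2 + 1) := by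
    rw [hI.card_points, hn]
    ring
  have hodd : ((k - 1) ^ 2 + 1) % 2 = 1 := by
    obtain ⟨t, ht⟩ : ∃ t, k - 1 = 2 * t := ⟨(k - 1) / 2, by omega⟩
    rw [ht]
    have : (2 * t) ^ 2 + 1 = 2 * (2 * t ^ 2) + 1 := by ring
    omega
  have hm : ∀ x : P, 3 * (MulAction.orbit N x).ncard ≤ (k - 1) ^ 2 + 1 := by
    intro x
    have h2 := Main.long_orbits hI hT hn hk hk3 hG hf ht N hne x
    have h3 := Ovoid.no_ovoid hI hT hn hk hk3 hG ht N x
    have h5 : (MulAction.orbit N x).ncard ∣ Nat.card P :=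
      (MulAction.IsBlock.orbit_of_normal (G := G) (N := N) x).ncard_dvd_card ⟨x, MulAction.mem_orbit_self x⟩
    have h6 : (MulAction.orbit N x).ncard ∣ Nat.card N := by
      rw [← MulAction.index_stabilizer N x]
      exact Subgroup.index_dvd_card _
    have h7 : Nat.Coprime (MulAction.orbit N x).ncard k :=
      ((Nat.Prime.coprime_iff_not_dvd hkp).2 (fun h => hcon (h.trans h6))).symm
    rw [hcard] at h5
    obtain ⟨w, hw⟩ := h7.dvd_of_dvd_mul_left h5
    have h8 : w ≠ 0 := by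
      rintro rfl
      omega
    have h9 : w ≠ 1 := by
      rintro rfl
      rw [mul_one] at hw
      exact h3 hw.symm
    have h10 : w ≠ 2 := by
      rintro rfl
      omega
    rw [hw, mul_comm 3]
    exact Nat.mul_le_mul_left _ (by omega)
  set Y : Set P := {y : P | ∃ g ∈ R, g ≠ 1 ∧ g • y = y} with hY
  have hYc : Y.ncard = 2 * k := M3.card_Y hI hT hn hk hk3 hG hf hkp R hR
  have h1 : (Finset.univ : Finset P) ⊆ (Finset.univ.filter fun y => y ∈ Y).biUnion
      fun y => Finset.univ.filter fun x => x ∈ MulAction.orbit N y := by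
    intro x _
    obtain ⟨y, hy, hy'⟩ := meets hI hT hn hk hk3 hG hf ht hkp R hR N hne hcon x
    rw [Finset.mem_biUnion]
    refine ⟨y, Finset.mem_filter.2 ⟨Finset.mem_univ _, hy'⟩, Finset.mem_filter.2 ⟨Finset.mem_univ _, ?_⟩⟩
    exact MulAction.mem_orbit_symm.1 hy
  have h2 := (Finset.card_le_card h1).trans (Finset.card_biUnion_le_card_mul _ _ (((k - 1) ^ 2 + 1) / 3) (by
    intro y _
    have h3 : (Finset.univ.filter fun x => x ∈ MulAction.orbit N y).card = (MulAction.orbit N y).ncard := by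
      rw [← Set.ncard_coe_finset]
      congr 1
      ext x
      simp
    rw [h3]
    have := hm y
    omega))
  have h3 : (Finset.univ.filter fun y => y ∈ Y).card = Y.ncard := by
    rw [← Set.ncard_coe_finset]
    congr 1
    ext x
    simp
  rw [h3, hYc, Finset.card_univ, ← Nat.card_eq_fintype_card, hcard] at h2
  have h4 : (k - 1) ^ 2 + 1 ≤ 2 * (((k - 1) ^ 2 + 1) / 3) := by
    have h5 : k * ((k - 1) ^ 2 + 1) ≤ k * (2 * (((k - 1) ^ 2 + 1) / 3)) := by
      calc k * ((k - 1) ^ 2 + 1) ≤ 2 * k * (((k - 1) ^ 2 + 1) / 3) := h2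
        _ = _ := by ring
    exact Nat.le_of_mul_le_mul_left h5 hkp.pos
  omega

end Pool.Agent.Lib.MP_e0c1ed_co.M4
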