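import Pool.Agent.Lib.MP_e0c1ed_co.M4
import Pool.Agent.Lib.MP_e0c1ed_co.M3
import Pool.Agent.Lib.MP_e0c1ed_co.M2
import Pool.Agent.Lib.MP_e0c1ed_co.K8
import Pool.Agent.Lib.MP_e0c1ed_co.Main

/-!
# MP_e0c1ed / M5: `k` prime, `k ^ 2 ∣ |G|`: two commuting nontrivial normal subgroups are transitive
-/

set_option autoImplicit false

namespace Pool.Agent.Lib.MP_e0c1ed_co

open Pool.Agent.Results.MP_e0c1ed_co.SelfDualSquare

namespace M5

theorem arith (k μ ω : ℕ) (hk : k % 2 = 1) (hk3 : 3 ≤ k) (h : μ * ω = (k - 1) ^ 2 + 1) (hμ : 2 * (k - 1) < k * μ)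
    (hmod : k * μ ≡ k * 1 [MOD k ^ 2] ∨ k * μ ≡ k * 2 [MOD k ^ 2]) : ω = 1 := by
  obtain ⟨t, ht⟩ : ∃ t, k = 2 * t + 1 := ⟨k / 2, by omega⟩
  have hk1 : k - 1 = 2 * t := by omega
  have hodd : (μ * ω) % 2 = 1 := by
    rw [h, hk1]
    have : (2 * t) ^ 2 + 1 = 2 * (2 * t ^ 2) + 1 := by ring
    omega
  have hμo : μ % 2 = 1 := by
    rw [Nat.mul_mod] at hodd
    rcases Nat.mod_two_eq_zero_or_one μ with h1 | h1
    · rw [h1, zero_mul] at hodd; exact absurd hodd (by norm_num)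
    · exact h1
  have hωo : ω % 2 = 1 := by
    rw [Nat.mul_mod] at hodd
    rcases Nat.mod_two_eq_zero_or_one ω with h1 | h1
    · rw [h1, mul_zero] at hodd; exact absurd hodd (by norm_num)
    · exact h1
  have hμ2 : 2 ≤ μ := by
    by_contra hlt
    have h1 : k * μ ≤ k * 1 := Nat.mul_le_mul_left _ (by omega)
    omega
  have hmod' : μ % k = 1 ∨ μ % k = 2 := by
    rw [pow_two] at hmod
    rcases hmod with h1 | h1
    · left
      have h2 := Nat.ModEq.mul_left_cancel' (by omega : k ≠ 0) h1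
      rw [Nat.ModEq, Nat.mod_eq_of_lt (by omega : 1 < k)] at h2
      exact h2
    · right
      have h2 := Nat.ModEq.mul_left_cancel' (by omega : k ≠ 0) h1
      rw [Nat.ModEq, Nat.mod_eq_of_lt (by omega : 2 < k)] at h2
      exact h2
  have hval : μ * ω = k * (k - 2) + 2 := by
    rw [h]
    obtain ⟨v, rfl⟩ : ∃ v, t = v + 1 := ⟨t - 1, by omega⟩
    have e1 : k - 2 = 2 * v + 1 := by omega
    rw [e1, hk1, ht]
    ring
  have hm := Nat.div_add_mod μ k
  have hw := Nat.div_add_mod ω k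
  have hv := Nat.mod_lt ω (by omega : 0 < k)
  generalize μ / k = j at hm
  generalize ω / k = u at hw
  generalize ω % k = v at hw hv
  have hbig : μ * ω < (2 * k + 1) * (k + 2) := by
    rw [hval]
    have h1 : k * (k - 2) ≤ k * k := Nat.mul_le_mul_left _ (by omega)
    nlinarith
  rcases hmod' with h1 | h1
  · exfalso
    rw [h1] at hm
    have h2 : μ * ω = k * (j * ω + u) + v := by
      rw [← hm, ← hw]; ring
    have h3 : v = 2 := by
      have h4 : (k * (j * ω + u) + v) % k = (k * (k - 2) + 2) % k := by rw [← h2, hval]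
      rw [Nat.mul_add_mod, Nat.mul_add_mod, Nat.mod_eq_of_lt hv, Nat.mod_eq_of_lt (by omega : 2 < k)] at h4
      exact h4
    have hj2 : 2 ≤ j := by
      by_contra hlt
      have h5 : j = 0 ∨ j = 1 := by omega
      rcases h5 with h5 | h5
      · rw [h5, mul_zero] at hm; omega
      · rw [h5, mul_one] at hm; omega
    have hu1 : 1 ≤ u := by
      by_contra hlt
      have h5 : u = 0 := by omega
      rw [h5, mul_zero, h3] at hw; omega
    have h6 : 2 * k + 1 ≤ μ := by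
      have : k * 2 ≤ k * j := Nat.mul_le_mul_left _ hj2
      omega
    have h7 : k + 2 ≤ ω := by
      have : k * 1 ≤ k * u := Nat.mul_le_mul_left _ hu1
      omega
    exact absurd (Nat.mul_le_mul h6 h7) (not_le.2 hbig)
  · rw [h1] at hm
    have h2 : μ * ω = k * (j * ω + 2 * u) + 2 * v := by
      rw [← hm]
      have h3 : (k * j + 2) * ω = k * j * ω + 2 * (k * u + v) := by rw [hw]; ring
      rw [h3]; ring
    have h3 : v = 1 := by
      have h4 : (k * (j * ω + 2 * u) + 2 * v) % k = (k * (k - 2) + 2) % k := by rw [← h2, hval]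
      rw [Nat.mul_add_mod, Nat.mul_add_mod, Nat.mod_eq_of_lt (by omega : 2 < k)] at h4
      have h5 := Nat.div_add_mod (2 * v) k
      rw [h4] at h5
      have h6 : 2 * v / k < 2 := by
        rw [Nat.div_lt_iff_lt_mul (by omega)]
        omega
      generalize 2 * v / k = e at h5 h6
      have h7 : e = 0 ∨ e = 1 := by omega
      rcases h7 with h7 | h7
      · rw [h7, mul_zero] at h5; omega
      · rw [h7, mul_one] at h5; omega
    have hj1 : 1 ≤ j := by
      by_contra hlt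
      have h5 : j = 0 := by omega
      rw [h5, mul_zero] at hm; omega
    have h6 : k + 2 ≤ μ := by
      have : k * 1 ≤ k * j := Nat.mul_le_mul_left _ hj1
      omega
    by_contra hne
    have hu2 : 2 ≤ u := by
      by_contra hlt
      have h5 : u = 0 ∨ u = 1 := by omega
      rcases h5 with h5 | h5
      · rw [h5, mul_zero] at hw; omega
      · rw [h5, mul_one] at hw; omega
    have h7 : 2 * k + 1 ≤ ω := by
      have : k * 2 ≤ k * u := Nat.mul_le_mul_left _ hu2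
      omega
    have h8 := Nat.mul_le_mul h6 h7
    rw [mul_comm (k + 2)] at h8
    exact absurd h8 (not_le.2 hbig)

section
variable {P L G : Type*} [Finite P] [Finite L] [Group G] [Finite G] [MulAction G P] [MulAction G L]
  {I : P → L → Prop} {n k : ℕ}

theorem trans (hI : IsConfiguration I n k) (hT : TrilateralFree I) (hn : n = k * (k - 1) ^ 2 + k)
    (hk : k % 2 = 1) (hk3 : 3 ≤ k) (hG : ∀ (g : G) (p : P) (l : L), I (g • p) (g • l) ↔ I p l)
    (hf : ∀ g : G, (∀ p : P, g • p = p) → g = 1) (ht : ∀ p q : P, ∃ g : G, g • p = q) (hkp : k.Prime)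
    (R : Subgroup G) (hR : Nat.card R = k ^ 2) (A B : Subgroup G) [A.Normal] [B.Normal] (hA : A ≠ ⊥) (hB : B ≠ ⊥)
    (hAB : ∀ a ∈ A, ∀ b ∈ B, a * b = b * a) : ∀ x y : P, ∃ b ∈ B, b • x = y := by
  classical
  have := Fact.mk hkp
  have hPret : MulAction.IsPretransitive G P := ⟨ht⟩
  -- `A ∩ B = 1`
  have hinf : A ⊓ B = ⊥ := by
    refine K8.no_solvable hI hT hn hk hk3 hG hf ht (A ⊓ B) inferInstance ?_
    exact Group.isSolvable_of_comm fun a b => Subtype.ext (hAB a a.2.1 b b.2.2)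
  have hkA : k ∣ Nat.card A := M4.dvd_card hI hT hn hk hk3 hG hf ht hkp R hR A hA
  have hkB : k ∣ Nat.card B := M4.dvd_card hI hT hn hk hk3 hG hf ht hkp R hR B hB
  obtain ⟨a, ha⟩ := exists_prime_orderOf_dvd_card' (G := A) k hkA
  obtain ⟨b, hb⟩ := exists_prime_orderOf_dvd_card' (G := B) k hkB
  -- the group `⟨a⟩ × ⟨b⟩`
  let f : Subgroup.zpowers a × Subgroup.zpowers b →* G :=
    MonoidHom.noncommCoprod (A.subtype.comp (Subgroup.zpowers a).subtype) (B.subtype.comp (Subgroup.zpowers b).subtype)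
      (fun x y => hAB _ x.1.2 _ y.1.2)
  have hfe : ∀ z, f z = (z.1.1 : G) * (z.2.1 : G) := fun z => rfl
  have hfinj : Function.Injective f := by
    rw [injective_iff_map_eq_one]
    intro z hz
    rw [hfe] at hz
    have h1 : (z.1.1 : G) = (z.2.1 : G)⁻¹ := eq_inv_of_mul_eq_one_left hz
    have h2 : (z.1.1 : G) ∈ A ⊓ B := ⟨z.1.1.2, by rw [h1]; exact B.inv_mem z.2.1.2⟩
    rw [hinf, Subgroup.mem_bot] at h2
    have h3 : (z.2.1 : G) = 1 := by rw [h2, one_mul] at hz; exact hz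
    exact Prod.ext (Subtype.ext (Subtype.ext h2)) (Subtype.ext (Subtype.ext h3))
  set Q : Subgroup G := f.range with hQ
  have hQc : Nat.card Q = k ^ 2 := by
    rw [← Nat.card_congr (MonoidHom.ofInjective hfinj).toEquiv, Nat.card_prod, Nat.card_zpowers, Nat.card_zpowers, ha, hb,
      pow_two]
  -- elements of order `k` of `B` act freely
  have hfree : ∀ c ∈ B, c ^ k = 1 → c ≠ 1 → ∀ x : P, c • x ≠ x := by
    intro c hc hck hc1 x hx
    have h1 := M2.fixed_le_k hI hT hn hk hk3 hG hf hkp c hck hc1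
    have h2 := Main.long_orbits hI hT hn hk hk3 hG hf ht A hA x
    have h3 : (MulAction.orbit A x).ncard ≤ {x : P | c • x = x}.ncard := by
      refine Set.ncard_le_ncard ?_ (Set.toFinite _)
      rintro _ ⟨d, rfl⟩
      show c • ((d : G) • x) = (d : G) • x
      rw [smul_smul, ← hAB d d.2 c hc, ← smul_smul, hx]
    omega
  -- a point `y` fixed by a nontrivial element `a' b'`
  set Y : Set P := {y : P | ∃ g ∈ Q, g ≠ 1 ∧ g • y = y} with hY
  have hYc : Y.ncard = 2 * k := M3.card_Y hI hT hn hk hk3 hG hf hkp Q hQc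
  obtain ⟨y, hyY⟩ : Y.Nonempty := by
    rw [← Set.ncard_pos, hYc]
    omega
  obtain ⟨g, ⟨⟨a', b'⟩, rfl⟩, hg1, hgy⟩ := hyY
  rw [hfe] at hg1 hgy
  have hyY : y ∈ Y := ⟨f (a', b'), ⟨(a', b'), rfl⟩, by rw [hfe]; exact hg1, by rw [hfe]; exact hgy⟩
  have ha' : a' ≠ 1 := by
    rintro rfl
    have h1 : (((1 : Subgroup.zpowers a) : A) : G) = 1 := rfl
    simp only [h1, one_mul] at hg1 hgy
    refine hfree (b'.1 : G) b'.1.2 ?_ hg1 y hgy
    have h2 : b' ^ k = 1 := by
      have h3 : Nat.card (Subgroup.zpowers b) = k := by rw [Nat.card_zpowers, hb]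
      rw [← h3]
      exact pow_card_eq_one'
    exact congrArg (fun z : Subgroup.zpowers b => (z.1 : G)) h2
  set Ω : Set P := MulAction.orbit B y with hΩ
  have hpw : ∀ j : ℕ, ∃ c ∈ B, ((a'.1 : A) : G) ^ j • y = c • y := by
    intro j
    induction j with
    | zero => exact ⟨1, B.one_mem, by simp⟩
    | succ j ih =>
      obtain ⟨c, hc, h1⟩ := ih
      have h2 : ((a'.1 : A) : G) • y = ((b'.1 : B) : G)⁻¹ • y := by
        rw [eq_inv_smul_iff, smul_smul, ← hAB _ a'.1.2 _ b'.1.2]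
        exact hgy
      refine ⟨c * ((b'.1 : B) : G)⁻¹, B.mul_mem hc (B.inv_mem b'.1.2), ?_⟩
      rw [pow_succ', ← smul_smul, h1, smul_smul, hAB _ a'.1.2 c hc, ← smul_smul, h2, smul_smul]
  have hΩS : ∀ g ∈ Q, ∀ x ∈ Ω, g • x ∈ Ω := by
    rintro _ ⟨⟨a'', b''⟩, rfl⟩ _ ⟨c, rfl⟩
    have hcA : Nat.card (Subgroup.zpowers a) = k := by rw [Nat.card_zpowers, ha]
    obtain ⟨j, hj⟩ : a'' ∈ Submonoid.powers a' := mem_powers_of_prime_card hcA ha'
    have hj' : ((a''.1 : A) : G) = ((a'.1 : A) : G) ^ j := by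
      have h1 : a' ^ j = a'' := hj
      rw [← h1]
      rfl
    obtain ⟨c', hc', h1⟩ := hpw j
    refine ⟨b''.1 * c * ⟨c', hc'⟩, ?_⟩
    show (((b''.1 : B) : G) * (c : G) * c') • y = f (a'', b'') • ((c : G) • y)
    rw [hfe, hj', mul_smul, ← h1]
    simp only [smul_smul]
    congr 1
    have h2 : ((a'.1 : A) : G) ^ j * (((b''.1 : B) : G) * (c : G)) = (((b''.1 : B) : G) * (c : G)) * ((a'.1 : A) : G) ^ j :=
      hAB _ (A.pow_mem a'.1.2 j) _ (B.mul_mem b''.1.2 c.2)
    rw [← h2]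
    group
  obtain ⟨h1, h2⟩ := M3.mod_sq hI hT hn hk3 hG hf hkp Q hQc Ω hΩS
  have hyΩ : y ∈ Ω := MulAction.mem_orbit_self y
  have h3 : 0 < (Ω ∩ Y).ncard := (Set.ncard_pos).2 ⟨y, hyΩ, hyY⟩
  have h4 : (Ω ∩ Y).ncard ≤ 2 * k := by
    rw [← hYc]
    exact Set.ncard_le_ncard Set.inter_subset_right
  obtain ⟨e, he⟩ := h2
  change (Ω ∩ Y).ncard = k * e at he
  change Ω.ncard ≡ (Ω ∩ Y).ncard [MOD k ^ 2] at h1
  rw [he] at h1 h3 h4
  have he12 : e = 1 ∨ e = 2 := by
    have h5 : e ≠ 0 := by rintro rfl; rw [mul_zero] at h3; exact lt_irrefl _ h3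
    have h6 : e ≤ 2 := by
      by_contra h7
      have h8 : k * 3 ≤ k * e := Nat.mul_le_mul_left _ (by omega)
      omega
    omega
  have hkΩ : k ∣ Ω.ncard := by
    have h5 : Ω.ncard ≡ k * e [MOD k] := h1.of_dvd (Dvd.intro_left k (pow_two k).symm)
    exact (Nat.modEq_zero_iff_dvd).1 (h5.trans (Nat.modEq_zero_iff_dvd.2 (Dvd.intro _ rfl)))
  obtain ⟨μ, hμ⟩ := hkΩ
  have hcard : Nat.card P = k * ((k - 1) ^ 2 + 1) := by
    rw [hI.card_points, hn]
    ring
  have hdvd : Ω.ncard ∣ Nat.card P :=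
    (MulAction.IsBlock.orbit_of_normal (G := G) (N := B) y).ncard_dvd_card ⟨y, MulAction.mem_orbit_self y⟩
  rw [hμ, hcard] at hdvd
  obtain ⟨ω, hω⟩ := Nat.dvd_of_mul_dvd_mul_left hkp.pos hdvd
  have hlong := Main.long_orbits hI hT hn hk hk3 hG hf ht B hB y
  change 2 * (k - 1) < Ω.ncard at hlong
  rw [hμ] at hlong h1
  have hω1 : ω = 1 := by
    apply arith k μ ω hk hk3 hω.symm hlong
    rcases he12 with rfl | rfl
    · exact Or.inl h1
    · exact Or.inr h1
  have hΩu : Ω = Set.univ := by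
    apply Set.eq_of_subset_of_ncard_le (Set.subset_univ _)
    rw [Set.ncard_univ, hcard, hμ, hω, hω1, mul_one]
  intro x z
  have hx : x ∈ Ω := hΩu ▸ Set.mem_univ x
  have hz : z ∈ Ω := hΩu ▸ Set.mem_univ z
  obtain ⟨c, hc⟩ := hx
  obtain ⟨d, hd⟩ := hz
  have hc' : (c : G) • y = x := hc
  have hd' : (d : G) • y = z := hd
  refine ⟨(d : G) * (c : G)⁻¹, B.mul_mem d.2 (B.inv_mem c.2), ?_⟩
  rw [mul_smul, ← hc', inv_smul_smul, hd']

end

end M5

end Pool.Agent.Lib.MP_e0c1ed_co
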