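import Pool.Agent.Lib.MP_e0c1ed_co.AS3

/-!
# MP_e0c1ed / M7: groups whose subgroups of index at most two have no two commuting normal subgroups
-/

set_option autoImplicit false

namespace Pool.Agent.Lib.MP_e0c1ed_co.M7

section
variable {G : Type*} [Group G]

/-- `M` is a normal subgroup of `N` -/
private def Inv (N M : Subgroup G) : Prop := M ≤ N ∧ ∀ n ∈ N, ∀ t ∈ M, n * t * n⁻¹ ∈ M

/-- the conjugate subgroup -/
private def cj (g : G) (M : Subgroup G) : Subgroup G := M.map (MulAut.conj g).toMonoidHom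

private theorem mem_cj {g : G} {M : Subgroup G} {x : G} : x ∈ cj g M ↔ g⁻¹ * x * g ∈ M := by
  constructor
  · rintro ⟨y, hy, rfl⟩
    show g⁻¹ * (g * y * g⁻¹) * g ∈ M
    have : g⁻¹ * (g * y * g⁻¹) * g = y := by group
    rw [this]
    exact hy
  · intro h
    refine ⟨_, h, ?_⟩
    show g * (g⁻¹ * x * g) * g⁻¹ = x
    group

private theorem cj_cj (g h : G) (M : Subgroup G) : cj g (cj h M) = cj (g * h) M := by
  ext x
  rw [mem_cj, mem_cj, mem_cj]
  have : h⁻¹ * (g⁻¹ * x * g) * h = (g * h)⁻¹ * x * (g * h) := by group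
  rw [this]

private theorem cj_one (M : Subgroup G) : cj 1 M = M := by
  ext x
  rw [mem_cj]
  simp

private theorem card_cj (g : G) (M : Subgroup G) : Nat.card (cj g M) = Nat.card M :=
  (Nat.card_congr (M.equivMapOfInjective _ (MulAut.conj g).injective).toEquiv).symm

private theorem inv_cj {N M : Subgroup G} (hN : N.Normal) (h : Inv N M) (g : G) : Inv N (cj g M) := by
  refine ⟨fun x hx => ?_, fun n hn t ht => ?_⟩
  · rw [mem_cj] at hx
    have h1 := hN.conj_mem _ (h.1 hx) g
    have h2 : g * (g⁻¹ * x * g) * g⁻¹ = x := by group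
    rwa [h2] at h1
  · rw [mem_cj] at ht ⊢
    have h1 := hN.conj_mem _ hn g⁻¹
    rw [inv_inv] at h1
    have h2 := h.2 _ h1 _ ht
    have h3 : g⁻¹ * n * g * (g⁻¹ * t * g) * (g⁻¹ * n * g)⁻¹ = g⁻¹ * (n * t * n⁻¹) * g := by group
    rwa [h3] at h2

private theorem cj_ne_bot {M : Subgroup G} (h : M ≠ ⊥) (g : G) : cj g M ≠ ⊥ := fun h1 =>
  h ((Subgroup.map_eq_bot_iff_of_injective _ (MulAut.conj g).injective).1 h1)

private theorem normal_of_cj {M : Subgroup G} (h : ∀ g, cj g M ≤ M) : M.Normal := by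
  constructor
  intro t ht g
  apply h g
  rw [mem_cj]
  have : g⁻¹ * (g * t * g⁻¹) * g = t := by group
  rwa [this]

private theorem card_sup' [Finite G] (N M K : Subgroup G) (hM : M ≤ N) (hK : Inv N K) :
    Nat.card (M ⊔ K : Subgroup G) * Nat.card (M ⊓ K : Subgroup G) = Nat.card M * Nat.card K := by
  have h1 : (K.subgroupOf N).Normal := ⟨fun t ht n => hK.2 n n.2 t ht⟩
  have h2 := AS3.card_sup (M.subgroupOf N) (K.subgroupOf N)
  have h3 : ∀ S : Subgroup G, S ≤ N → Nat.card (S.subgroupOf N) = Nat.card S := fun S hS =>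
    Nat.card_congr (Subgroup.subgroupOfEquivOfLe hS).toEquiv
  have h4 : M.subgroupOf N ⊔ K.subgroupOf N = (M ⊔ K).subgroupOf N := (Subgroup.subgroupOf_sup hM hK.1).symm
  have h5 : M.subgroupOf N ⊓ K.subgroupOf N = (M ⊓ K).subgroupOf N := rfl
  rw [h4, h5, h3 _ (sup_le hM hK.1), h3 _ (inf_le_left.trans hM), h3 _ hM, h3 _ hK.1] at h2
  exact h2

end

theorem almost_simple {G : Type*} [Group G] [Finite G] [Nontrivial G] (k : ℕ) (hk : k.Prime)
    (h3 : ¬ k ^ 3 ∣ Nat.card G) (hN : ∀ N : Subgroup G, N.Normal → N ≠ ⊥ → k ∣ Nat.card N)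
    (hab : ∀ N : Subgroup G, N.Normal → (∀ a ∈ N, ∀ b ∈ N, a * b = b * a) → N = ⊥)
    (hC : ∀ H : Subgroup G, H.index ≤ 2 → ∀ A B : Subgroup H, A.Normal → B.Normal → A ≠ ⊥ → B ≠ ⊥ →
      (∀ a ∈ A, ∀ b ∈ B, a * b = b * a) → False) :
    ∃ T : Subgroup G, T.Normal ∧ IsSimpleGroup T ∧ (∃ a b : T, a * b ≠ b * a) ∧
      Subgroup.centralizer (T : Set G) = ⊥ := by
  classical
  -- commuting normal subgroups of a subgroup `H` of index at most two, inside `G`
  have hC' : ∀ H : Subgroup G, H.index ≤ 2 → ∀ A B : Subgroup G, A ≤ H → B ≤ H →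
      (∀ h ∈ H, ∀ a ∈ A, h * a * h⁻¹ ∈ A) → (∀ h ∈ H, ∀ b ∈ B, h * b * h⁻¹ ∈ B) → A ≠ ⊥ → B ≠ ⊥ →
      (∀ a ∈ A, ∀ b ∈ B, a * b = b * a) → False := by
    intro H hH A B hA hB hAn hBn hA0 hB0 hAB
    refine hC H hH (A.subgroupOf H) (B.subgroupOf H) ⟨fun t ht n => hAn n n.2 t ht⟩ ⟨fun t ht n => hBn n n.2 t ht⟩
      ?_ ?_ (fun a ha b hb => Subtype.ext (hAB a ha b hb))
    · rw [Ne, Subgroup.subgroupOf_eq_bot, disjoint_iff, inf_eq_left.2 hA]
      exact hA0
    · rw [Ne, Subgroup.subgroupOf_eq_bot, disjoint_iff, inf_eq_left.2 hB]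
      exact hB0
  obtain ⟨N, ⟨hN1, hN2⟩, hNmin⟩ := WellFounded.has_min (α := Subgroup G) (r := (· < ·)) wellFounded_lt
    {N | N.Normal ∧ N ≠ ⊥} ⟨⊤, inferInstance, top_ne_bot⟩
  have hNle : ∀ M : Subgroup G, M.Normal → M ≠ ⊥ → M ≤ N → M = N := by
    intro M hM hM0 hle
    by_contra h
    exact hNmin _ ⟨hM, hM0⟩ (lt_of_le_of_ne hle h)
  -- the order of a normal subgroup of `N` is divisible by `k`
  have hdiv : ∀ M : Subgroup G, Inv N M → M ≠ ⊥ → k ∣ Nat.card M := by
    intro M hM hne
    by_contra hcon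
    obtain ⟨M', ⟨a1, a2⟩, a3⟩ := WellFounded.has_min (α := Subgroup G) (r := (· > ·)) wellFounded_gt
      {M | Inv N M ∧ ¬ k ∣ Nat.card M} ⟨M, hM, hcon⟩
    have hsup : ∀ K : Subgroup G, Inv N K → ¬ k ∣ Nat.card K → K ≤ M' := by
      intro K hK hqK
      by_contra hle
      have h3 : M' < M' ⊔ K := lt_of_le_of_ne le_sup_left (fun h => hle (by rw [h]; exact le_sup_right))
      refine a3 (M' ⊔ K) ⟨⟨sup_le a1.1 hK.1, ?_⟩, ?_⟩ h3
      · intro n hn t ht
        have h4 : cj n (M' ⊔ K) = cj n M' ⊔ cj n K := Subgroup.map_sup _ _ _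
        have h5 : cj n M' ≤ M' := by
          intro x hx
          rw [mem_cj] at hx
          have := a1.2 n hn _ hx
          have h6 : n * (n⁻¹ * x * n) * n⁻¹ = x := by group
          rwa [h6] at this
        have h6 : cj n K ≤ K := by
          intro x hx
          rw [mem_cj] at hx
          have := hK.2 n hn _ hx
          have h6 : n * (n⁻¹ * x * n) * n⁻¹ = x := by group
          rwa [h6] at this
        have h7 : cj n (M' ⊔ K) ≤ M' ⊔ K := by
          rw [h4]
          exact sup_le_sup h5 h6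
        apply h7
        rw [mem_cj]
        have : n⁻¹ * (n * t * n⁻¹) * n = t := by group
        rwa [this]
      · intro h4
        have h5 : k ∣ Nat.card M' * Nat.card K := by
          rw [← card_sup' N M' K a1.1 hK]
          exact h4.mul_right _
        rcases (Nat.Prime.dvd_mul hk).1 h5 with h6 | h6
        · exact a2 h6
        · exact hqK h6
    have h4 : M'.Normal := normal_of_cj fun g => hsup _ (inv_cj hN1 a1 g) (by rw [card_cj]; exact a2)
    have h5 : M' ≠ ⊥ := by
      intro h
      exact hne (le_bot_iff.1 (h ▸ hsup M hM hcon))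
    exact a2 (hN M' h4 h5)
  -- `N` is not abelian, centralizer of `N`
  have hNab : ∃ a ∈ N, ∃ b ∈ N, a * b ≠ b * a := by
    by_contra hcon
    push Not at hcon
    exact hN2 (hab N hN1 hcon)
  have hCN : Subgroup.centralizer (N : Set G) = ⊥ := by
    by_contra hne
    have hn : (Subgroup.centralizer (N : Set G)).Normal := Subgroup.normal_centralizer
    refine hC' ⊤ (by rw [Subgroup.index_top]; norm_num) N (Subgroup.centralizer (N : Set G)) le_top le_top
      (fun h _ a ha => hN1.conj_mem a ha h) (fun h _ a ha => hn.conj_mem a ha h) hN2 hne ?_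
    intro a ha b hb
    exact (Subgroup.mem_centralizer_iff.1 hb) a ha
  -- a minimal normal subgroup `T` of `N`
  obtain ⟨T, ⟨hT1, hT2⟩, hTmin⟩ := WellFounded.has_min (InvImage.wf (fun M : Subgroup G => Nat.card M) wellFounded_lt)
    {M : Subgroup G | Inv N M ∧ M ≠ ⊥} ⟨N, ⟨le_rfl, fun n hn t ht => N.mul_mem (N.mul_mem hn ht) (N.inv_mem hn)⟩, hN2⟩
  have hmin : ∀ M : Subgroup G, Inv N M → M ≠ ⊥ → Nat.card T ≤ Nat.card M := by
    intro M hM hM0
    by_contra h
    exact hTmin M ⟨hM, hM0⟩ (not_le.1 h)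
  -- subgroups of conjugates of `T`
  have hsub : ∀ (g : G) (M : Subgroup G), Inv N M → M ≠ ⊥ → M ≤ cj g T → M = cj g T := by
    intro g M hM hM0 hle
    exact Subgroup.eq_of_le_of_card_ge hle (by rw [card_cj]; exact hmin M hM hM0)
  have hmeet : ∀ g h : G, cj g T ≠ cj h T → cj g T ⊓ cj h T = ⊥ := by
    intro g h hne
    by_contra h0
    have h1 := inv_cj hN1 hT1 g
    have h2 := inv_cj hN1 hT1 h
    have h4 : Inv N (cj g T ⊓ cj h T) := ⟨inf_le_left.trans h1.1, fun n hn t ht =>
      ⟨h1.2 n hn t ht.1, h2.2 n hn t ht.2⟩⟩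
    exact hne ((hsub g _ h4 h0 inf_le_left).symm.trans (hsub h _ h4 h0 inf_le_right))
  have hcomm : ∀ g h : G, cj g T ≠ cj h T → ∀ a ∈ cj g T, ∀ b ∈ cj h T, a * b = b * a := by
    intro g h hne a ha b hb
    have h1 := inv_cj hN1 hT1 g
    have h2 := inv_cj hN1 hT1 h
    have h4 : a * b * a⁻¹ * b⁻¹ ∈ cj g T ⊓ cj h T := by
      refine ⟨?_, ?_⟩
      · have h5 := (cj g T).mul_mem ha (h1.2 b (h2.1 hb) _ ((cj g T).inv_mem ha))
        have h6 : a * (b * a⁻¹ * b⁻¹) = a * b * a⁻¹ * b⁻¹ := by group
        rwa [h6] at h5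
      · exact (cj h T).mul_mem (h2.2 a (h1.1 ha) _ hb) ((cj h T).inv_mem hb)
    rw [hmeet g h hne, Subgroup.mem_bot] at h4
    have h5 : a * b = (a * b * a⁻¹ * b⁻¹) * (b * a) := by group
    rw [h5, h4, one_mul]
  -- `T` is not abelian
  have hTab : ¬ ∀ a ∈ T, ∀ b ∈ T, a * b = b * a := by
    intro hcon
    have hall : ∀ g h : G, ∀ a ∈ cj g T, ∀ b ∈ cj h T, a * b = b * a := by
      intro g h a ha b hb
      by_cases hgh : cj g T = cj h T
      · rw [← hgh] at hb
        rw [mem_cj] at ha hb
        have h1 := hcon _ ha _ hb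
        have h2 : g * (g⁻¹ * a * g * (g⁻¹ * b * g)) * g⁻¹ = a * b := by group
        have h4 : g * (g⁻¹ * b * g * (g⁻¹ * a * g)) * g⁻¹ = b * a := by group
        rw [← h2, ← h4, h1]
      · exact hcomm g h hgh a ha b hb
    let J : Subgroup G := ⨆ g : G, cj g T
    have hJn : J.Normal := by
      apply normal_of_cj
      intro h
      show (⨆ g : G, cj g T).map _ ≤ _
      rw [Subgroup.map_iSup]
      refine iSup_le fun g => ?_
      have : (cj g T).map (MulAut.conj h).toMonoidHom = cj (h * g) T := cj_cj h g T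
      rw [this]
      exact le_iSup (fun g => cj g T) (h * g)
    have hJ0 : J ≠ ⊥ := by
      intro h
      have h1 : T ≤ J := by
        have := le_iSup (fun g => cj g T) 1
        rwa [cj_one] at this
      exact hT2 (le_bot_iff.1 (h ▸ h1))
    have hJc : ∀ a ∈ J, ∀ b ∈ J, a * b = b * a := by
      have h1 : ∀ h : G, J ≤ Subgroup.centralizer (cj h T : Set G) := by
        intro h
        refine iSup_le fun g => ?_
        intro a ha
        rw [Subgroup.mem_centralizer_iff]
        intro b hb
        exact hall h g b hb a ha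
      have h2 : J ≤ Subgroup.centralizer (J : Set G) := by
        refine iSup_le fun h => ?_
        rw [Subgroup.le_centralizer_iff]
        exact h1 h
      intro a ha b hb
      exact (Subgroup.mem_centralizer_iff.1 (h2 hb)) a ha
    exact hJ0 (hab J hJn hJc)
  have hTab' : ∀ g : G, ¬ ∀ a ∈ cj g T, ∀ b ∈ cj g T, a * b = b * a := by
    intro g hcon
    apply hTab
    intro a ha b hb
    have h1 : g * a * g⁻¹ ∈ cj g T := by
      rw [mem_cj]
      have : g⁻¹ * (g * a * g⁻¹) * g = a := by group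
      rwa [this]
    have h2 : g * b * g⁻¹ ∈ cj g T := by
      rw [mem_cj]
      have : g⁻¹ * (g * b * g⁻¹) * g = b := by group
      rwa [this]
    have h4 := hcon _ h1 _ h2
    have h5 : g⁻¹ * (g * a * g⁻¹ * (g * b * g⁻¹)) * g = a * b := by group
    have h6 : g⁻¹ * (g * b * g⁻¹ * (g * a * g⁻¹)) * g = b * a := by group
    rw [← h5, ← h6, h4]
  have hkT := hdiv T hT1 hT2
  -- `T` is normal in `G`
  have hTn : T.Normal := by
    by_contra hcon
    have hex : ∃ g : G, cj g T ≠ T := by
      by_contra h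
      push Not at h
      exact hcon (normal_of_cj fun g => (h g).le)
    obtain ⟨g, hg⟩ := hex
    -- only two conjugates
    have htwo : ∀ h : G, cj h T = T ∨ cj h T = cj g T := by
      intro h
      by_contra hh
      push Not at hh
      obtain ⟨hh1, hh2⟩ := hh
      have e1 : cj 1 T = T := cj_one T
      have c1 : ∀ a ∈ T, ∀ b ∈ cj h T, a * b = b * a := by
        have := hcomm 1 h (by rw [e1]; exact hh1.symm)
        rwa [e1] at this
      have c2 : ∀ a ∈ cj g T, ∀ b ∈ cj h T, a * b = b * a := hcomm g h hh2.symm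
      have m1 : T ⊓ cj g T = ⊥ := by
        have := hmeet 1 g (by rw [e1]; exact hg.symm)
        rwa [e1] at this
      have m2 : (T ⊔ cj g T) ⊓ cj h T = ⊥ := by
        by_contra h0
        have i1 := inv_cj hN1 hT1 g
        have i2 := inv_cj hN1 hT1 h
        have hle : (T ⊔ cj g T) ≤ Subgroup.centralizer (cj h T : Set G) := by
          refine sup_le ?_ ?_
          · intro a ha
            rw [Subgroup.mem_centralizer_iff]
            intro b hb
            exact (c1 a ha b hb).symm
          · intro a ha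
            rw [Subgroup.mem_centralizer_iff]
            intro b hb
            exact (c2 a ha b hb).symm
        have h4 : Inv N ((T ⊔ cj g T) ⊓ cj h T) := by
          refine ⟨inf_le_right.trans i2.1, fun n hn t ht => ⟨?_, i2.2 n hn t ht.2⟩⟩
          have h5 : cj n (T ⊔ cj g T) = cj n T ⊔ cj n (cj g T) := Subgroup.map_sup _ _ _
          have h6 : cj n T ≤ T := by
            intro x hx
            rw [mem_cj] at hx
            have := hT1.2 n hn _ hx
            have h6 : n * (n⁻¹ * x * n) * n⁻¹ = x := by group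
            rwa [h6] at this
          have h7 : cj n (cj g T) ≤ cj g T := by
            intro x hx
            rw [mem_cj] at hx
            have := i1.2 n hn _ hx
            have h6 : n * (n⁻¹ * x * n) * n⁻¹ = x := by group
            rwa [h6] at this
          have h8 : cj n (T ⊔ cj g T) ≤ T ⊔ cj g T := by
            rw [h5]
            exact sup_le_sup h6 h7
          apply h8
          rw [mem_cj]
          have : n⁻¹ * (n * t * n⁻¹) * n = t := by group
          rw [this]
          exact ht.1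
        have h5 := hsub h _ h4 h0 inf_le_right
        have h6 : cj h T ≤ T ⊔ cj g T := by
          rw [← h5]
          exact inf_le_left
        apply hTab' h
        intro a ha b hb
        exact ((Subgroup.mem_centralizer_iff.1 (hle (h6 ha))) b hb).symm
      have q1 := card_sup' N T (cj g T) hT1.1 (inv_cj hN1 hT1 g)
      rw [m1, Subgroup.card_bot, mul_one, card_cj] at q1
      have q2 := card_sup' N (T ⊔ cj g T) (cj h T) (sup_le hT1.1 (inv_cj hN1 hT1 g).1) (inv_cj hN1 hT1 h)
      rw [m2, Subgroup.card_bot, mul_one, card_cj, q1] at q2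
      apply h3
      have q3 : k ^ 3 ∣ Nat.card T * Nat.card T * Nat.card T := by
        have : k ^ 3 = k * k * k := by ring
        rw [this]
        exact mul_dvd_mul (mul_dvd_mul hkT hkT) hkT
      rw [← q2] at q3
      exact q3.trans (Subgroup.card_subgroup_dvd_card _)
    -- the normalizer of `T`
    let H : Subgroup G :=
      { carrier := {x | cj x T = T}
        mul_mem' := by
          intro a b ha hb
          show cj (a * b) T = T
          rw [← cj_cj, (show cj b T = T from hb)]
          exact ha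
        one_mem' := cj_one T
        inv_mem' := by
          intro a ha
          show cj a⁻¹ T = T
          have h1 : cj a T = T := ha
          conv_lhs => rw [← h1]
          rw [cj_cj, inv_mul_cancel, cj_one] }
    have hHmem : ∀ x, x ∈ H ↔ cj x T = T := fun x => Iff.rfl
    have hHi : H.index ≤ 2 := by
      have h1 : H.index = 2 := by
        rw [Subgroup.index_eq_two_iff]
        refine ⟨g, fun b => ?_⟩
        by_cases hb : b ∈ H
        · right
          refine ⟨hb, fun h1 => hg ?_⟩
          have h2 := H.mul_mem (H.inv_mem hb) h1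
          rw [inv_mul_cancel_left] at h2
          exact h2
        · left
          refine ⟨?_, hb⟩
          have h1 : b⁻¹ ∉ H := fun h => hb (by simpa using H.inv_mem h)
          have h2 : cj b⁻¹ T = cj g T := (htwo b⁻¹).resolve_left h1
          rw [hHmem, ← cj_cj, ← h2, cj_cj, mul_inv_cancel, cj_one]
      rw [h1]
    have hNH : N ≤ H := by
      intro n hn
      rw [hHmem]
      apply le_antisymm
      · intro x hx
        rw [mem_cj] at hx
        have := hT1.2 n hn _ hx
        have h6 : n * (n⁻¹ * x * n) * n⁻¹ = x := by group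
        rwa [h6] at this
      · intro x hx
        rw [mem_cj]
        have := hT1.2 n⁻¹ (N.inv_mem hn) _ hx
        rwa [inv_inv] at this
    refine hC' H hHi T (cj g T) (hT1.1.trans hNH) ((inv_cj hN1 hT1 g).1.trans hNH) ?_ ?_ hT2 (cj_ne_bot hT2 g) ?_
    · intro h hh a ha
      have h1 : cj h T = T := hh
      rw [← h1, mem_cj]
      have : h⁻¹ * (h * a * h⁻¹) * h = a := by group
      rwa [this]
    · intro h hh b hb
      have h1 : cj h T = T := hh
      have h2 : cj h (cj g T) = cj g T := by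
        rw [cj_cj]
        refine (htwo (h * g)).resolve_left ?_
        intro h2
        apply hg
        have h4 := H.mul_mem (H.inv_mem hh) (show h * g ∈ H from h2)
        rw [inv_mul_cancel_left] at h4
        exact h4
      rw [← h2, mem_cj]
      have : h⁻¹ * (h * b * h⁻¹) * h = b := by group
      rwa [this]
    · have := hcomm 1 g (by rw [cj_one]; exact hg.symm)
      rwa [cj_one] at this
  have hTN : T = N := hNle T hTn hT2 hT1.1
  subst hTN
  refine ⟨T, hN1, ?_, ?_, hCN⟩
  · have hnt : Nontrivial T := (Subgroup.nontrivial_iff_ne_bot T).2 hT2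
    refine { exists_pair_ne := hnt.exists_pair_ne, eq_bot_or_eq_top_of_normal := ?_ }
    intro K hK
    by_cases h : K = ⊥
    · exact Or.inl h
    · right
      have h1 : Inv T (K.map T.subtype) := by
        refine ⟨Subgroup.map_subtype_le K, ?_⟩
        rintro n hn _ ⟨t, ht, rfl⟩
        exact ⟨⟨n, hn⟩ * t * ⟨n, hn⟩⁻¹, hK.conj_mem t ht ⟨n, hn⟩, rfl⟩
      have h2 : K.map T.subtype ≠ ⊥ := fun h' =>
        h ((Subgroup.map_eq_bot_iff_of_injective _ T.subtype_injective).1 h')
      have h4 : K.map T.subtype = T := Subgroup.eq_of_le_of_card_ge h1.1 (hmin _ h1 h2)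
      rw [eq_top_iff]
      intro a _
      have h7 : (a : G) ∈ K.map T.subtype := by rw [h4]; exact a.2
      obtain ⟨b, hb, hba⟩ := h7
      have : b = a := Subtype.ext hba
      rwa [← this]
  · obtain ⟨a, ha, b, hb, hab'⟩ := hNab
    exact ⟨⟨a, ha⟩, ⟨b, hb⟩, fun h => hab' (congrArg Subtype.val h)⟩

end Pool.Agent.Lib.MP_e0c1ed_co.M7
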