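import Pool.Agent.Lib.MP_e0c1ed_co.M6
import Pool.Agent.Lib.MP_e0c1ed_co.M7
import Pool.Agent.Lib.MP_e0c1ed_co.E2

/-!
# MP_e0c1ed / M8: if `k` is a prime and `k ^ 2` divides the order of `G`, then `G` is almost simple
-/

set_option autoImplicit false

namespace Pool.Agent.Lib.MP_e0c1ed_co.M8

open Pool.Agent.Results.MP_e0c1ed_co.SelfDualSquare Pool.Agent.Lib.MP_e0c1ed_co

variable {P L G : Type*} [Finite P] [Finite L] [Group G] [Finite G] [MulAction G P] [MulAction G L]
  {I : P → L → Prop} {n k : ℕ}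

/-- **If `k` is a prime and `k ^ 2` divides the order of a point transitive group, then it is almost simple.** -/
theorem main (hI : IsConfiguration I n k) (hT : TrilateralFree I) (hn : n = k * (k - 1) ^ 2 + k)
    (hk : k % 2 = 1) (hk3 : 3 ≤ k) (hkp : k.Prime) (hG : ∀ (g : G) (p : P) (l : L), I (g • p) (g • l) ↔ I p l)
    (hf : ∀ g : G, (∀ p : P, g • p = p) → g = 1) (ht : ∀ p q : P, ∃ g : G, g • p = q)
    (h2 : k ^ 2 ∣ Nat.card G) :
    ∃ T : Subgroup G, T.Normal ∧ IsSimpleGroup T ∧ (∃ a b : T, a * b ≠ b * a) ∧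
      Subgroup.centralizer (T : Set G) = ⊥ := by
  classical
  have := Fact.mk hkp
  have hodd : Odd k := Nat.odd_iff.2 hk
  have hcop : Nat.Coprime k ((k - 1) ^ 2 + 1) := by
    obtain ⟨t, hkt⟩ := hodd
    have e1 : k - 1 = 2 * t := by omega
    rw [e1, hkt]
    have e2 : (2 * t) ^ 2 + 1 = 2 + (2 * t + 1) * (2 * t - 1) := by
      rcases Nat.eq_zero_or_pos t with h | h
      · omega
      · obtain ⟨u, hu⟩ : ∃ u, 2 * t = u + 1 := ⟨2 * t - 1, by omega⟩
        rw [hu, Nat.add_sub_cancel]
        ring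
    rw [e2, Nat.coprime_add_mul_left_right]
    exact (Nat.coprime_two_right).2 ⟨t, rfl⟩
  have hcard : Nat.card P = k * ((k - 1) ^ 2 + 1) := by
    rw [hI.card_points, hn]
    ring
  have hoddP : Odd (Nat.card P) := by
    rw [hcard]
    refine hodd.mul ?_
    obtain ⟨t, ht⟩ : ∃ t, k - 1 = 2 * t := ⟨(k - 1) / 2, by omega⟩
    rw [ht]
    exact ⟨2 * t ^ 2, by ring⟩
  have hnt : Nontrivial G := by
    rw [← Finite.one_lt_card_iff_nontrivial]
    have h3 := Nat.le_of_dvd Nat.card_pos h2
    nlinarith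
  obtain ⟨R, hR⟩ := Sylow.exists_subgroup_card_pow_prime k h2
  refine M7.almost_simple k hkp (AS4.cube hI hT hn hk3 hkp hG hf ht hcop)
    (fun N hN hne => M4.dvd_card hI hT hn hk hk3 hG hf ht hkp R hR N hne) ?_ ?_
  · intro N hN hab
    exact K8.no_solvable hI hT hn hk hk3 hG hf ht N hN
      (Group.isSolvable_of_comm fun a b => Subtype.ext (hab a a.2 b b.2))
  · intro H hH A B hA hB hA1 hB1 hAB
    obtain ⟨a, ha⟩ : ∃ a, H.index = 2 ^ a := by
      have hidx : H.index ≠ 0 := Subgroup.index_ne_zero_of_finite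
      have h4 : H.index = 1 ∨ H.index = 2 := by omega
      rcases h4 with h | h
      · exact ⟨0, by simpa using h⟩
      · exact ⟨1, by simpa using h⟩
    have htH := E2.trans_of_index ht hoddP H a ha
    have hcH : k ^ 2 ∣ Nat.card H := by
      have h3 := Subgroup.card_mul_index H
      rw [ha] at h3
      have h4 : Nat.Coprime (k ^ 2) (2 ^ a) := Nat.Coprime.pow _ _ (Nat.coprime_two_right.2 hodd)
      exact h4.dvd_of_dvd_mul_right (h3 ▸ h2)
    obtain ⟨R', hR'⟩ := Sylow.exists_subgroup_card_pow_prime k hcH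
    exact M6.none (G := H) hI hT hn hk hk3 (fun g p l => hG g p l) (fun g hg => Subtype.ext (hf g hg)) htH hkp
      R' hR' A B hA1 hB1 hAB

/-- The order of a flag transitive group is divisible by `k ^ 2`. -/
theorem flag (hI : IsConfiguration I n k) (hn : n = k * (k - 1) ^ 2 + k) (hk3 : 3 ≤ k)
    (hG : ∀ (g : G) (p : P) (l : L), I (g • p) (g • l) ↔ I p l)
    (hfl : ∀ (p q : P) (l m : L), I p l → I q m → ∃ g : G, g • p = q ∧ g • l = m) : k ^ 2 ∣ Nat.card G := by
  classical
  have : Fintype P := Fintype.ofFinite P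
  have : Fintype L := Fintype.ofFinite L
  have hcard : Nat.card P = k * ((k - 1) ^ 2 + 1) := by
    rw [hI.card_points, hn]
    ring
  obtain ⟨x⟩ : Nonempty P := by
    rw [← Finite.card_pos_iff, hcard]
    exact Nat.mul_pos (by omega) (Nat.succ_pos _)
  obtain ⟨l, hl⟩ : ({l | I x l} : Set L).Nonempty := by
    rw [← Set.ncard_pos, hI.card_through_point x]
    omega
  have h1 : MulAction.orbit G (x, l) = {z : P × L | I z.1 z.2} := by
    ext ⟨y, m⟩
    constructor
    · rintro ⟨g, hg⟩
      have h2 : (g • x, g • l) = (y, m) := hg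
      rw [Prod.mk.injEq] at h2
      change I y m
      rw [← h2.1, ← h2.2]
      exact (hG g x l).2 hl
    · intro hym
      obtain ⟨g, hg1, hg2⟩ := hfl x y l m hl hym
      exact ⟨g, Prod.ext hg1 hg2⟩
  have h2 : (MulAction.orbit G (x, l)).ncard ∣ Nat.card G := by
    rw [← MulAction.index_stabilizer]
    exact Subgroup.index_dvd_card _
  have h3 : ({z : P × L | I z.1 z.2} : Set (P × L)).ncard = Nat.card P * k := by
    have h4 : {z : P × L | I z.1 z.2} =
        ((Finset.univ.sigma fun y : P => Finset.univ.filter fun m => I y m).image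
          (fun z : (_ : P) × L => (z.1, z.2)) : Finset (P × L)) := by
      ext ⟨y, m⟩
      simp
    rw [h4, Set.ncard_coe_finset, Finset.card_image_of_injective, Finset.card_sigma,
      Finset.sum_const_nat (m := k), Finset.card_univ, Nat.card_eq_fintype_card]
    · intro y _
      rw [← hI.card_through_point y, ← Set.ncard_coe_finset]
      congr 1
      ext l
      simp
    · rintro ⟨a, b⟩ ⟨c, d⟩ h
      simp only [Prod.mk.injEq] at h
      obtain ⟨rfl, rfl⟩ := h
      rfl
  rw [h1, h3, hcard] at h2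
  refine dvd_trans ⟨(k - 1) ^ 2 + 1, ?_⟩ h2
  ring

end Pool.Agent.Lib.MP_e0c1ed_co.M8
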