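import Mathlib

/-!
# MP_e0c1ed / Num: the arithmetic conditions are never satisfied for small odd `k`
-/

set_option autoImplicit false

namespace Pool.Agent.Lib.MP_e0c1ed_co.Num

/-- the conditions (U) and (D) for the orbit length `m` and the prime `q` -/
def bad (s m q : ℕ) : Bool :=
  Nat.ble (((m - 1) % (2 * s)) * (s + 1)) (s ^ 2 - 1 + m) &&
    Nat.beq ((s + 1) * ((s ^ 2 + 1) / m) * ((s + 1) * (m - 1) - (m - 1) % (2 * s)) % (2 * s * (q - 1))) 0

/-- `m = (s² + 1) / w` prime, `w = 2 j + 1` -/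
def chk1 (s : ℕ) : Bool :=
  (List.range (s / 4 + 1)).all fun j =>
    !(Nat.beq ((s ^ 2 + 1) % (2 * j + 1)) 0 && bad s ((s ^ 2 + 1) / (2 * j + 1)) ((s ^ 2 + 1) / (2 * j + 1)))

/-- `m = q ^ b`, `b ≥ 2`, `q = 2 j + 3` -/
def chk2 (s : ℕ) : Bool :=
  (List.range (s / 2)).all fun j => !(Nat.beq ((s ^ 2 + 1) % (2 * j + 3) ^ 2) 0) ||
    (List.range 22).all fun b => !(Nat.beq ((s ^ 2 + 1) % (2 * j + 3) ^ b) 0 && Nat.blt (2 * s) ((2 * j + 3) ^ b) &&
      bad s ((2 * j + 3) ^ b) (2 * j + 3))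

/-- all even `s = 2 t`, `a ≤ t < b` -/
def chkR (a b : ℕ) : Bool := (List.range (b - a)).all fun i => chk1 (2 * (a + i)) && chk2 (2 * (a + i))

theorem chkR1 : chkR 1 301 = true := by decide +kernel

theorem chkR2 : chkR 301 501 = true := by decide +kernel

end Pool.Agent.Lib.MP_e0c1ed_co.Num
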