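import Mathlib

/-!
# MP_e0c1ed / Num3: no admissible prime power if `s² + 1` has a very large prime factor
-/

set_option autoImplicit false

namespace Pool.Agent.Lib.MP_e0c1ed_co.Num3

/-- The case of a prime `p`. -/
theorem prime_none (s p w : ℕ) (hs : s % 2 = 0) (hs2 : 2 ≤ s) (hp : p.Prime) (hpw : p * w = s ^ 2 + 1)
    (hw : w ^ 2 < 2 * s) (hU : ((p - 1) % (2 * s)) * (s + 1) ≤ s ^ 2 - 1 + p)
    (hD : 2 * s * (p - 1) ∣ (s + 1) * w * ((s + 1) * (p - 1) - (p - 1) % (2 * s))) : False := by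
  obtain ⟨s', rfl⟩ : ∃ s', s = 2 * s' := ⟨s / 2, by omega⟩
  obtain ⟨r, hr⟩ : ∃ r, p = r + 1 := ⟨p - 1, by have := hp.two_le; omega⟩
  have hr1 : 1 ≤ r := by have := hp.two_le; omega
  have hw0 : 0 < w := by
    rcases Nat.eq_zero_or_pos w with h | h
    · rw [h] at hpw; simp at hpw
    · exact h
  -- `w` is odd and not divisible by `3`
  have hw2 : w ≠ 2 := by
    rintro rfl
    have h1 : (2 * s') ^ 2 = 4 * (s' * s') := by ring
    rw [h1] at hpw
    omega
  have hw3 : w ≠ 3 := by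
    rintro rfl
    have h1 : ((2 * s') ^ 2 + 1) % 3 = 0 := by rw [← hpw]; simp
    have h2 : (2 * s') % 3 = 0 ∨ (2 * s') % 3 = 1 ∨ (2 * s') % 3 = 2 := by omega
    rcases h2 with h2 | h2 | h2 <;> simp [Nat.pow_mod, Nat.add_mod, h2] at h1
  have hc : (p - 1) % (2 * (2 * s')) ≤ p - 1 := Nat.mod_le _ _
  set c := (p - 1) % (2 * (2 * s')) with hcdef
  obtain ⟨z, hz⟩ := hD
  have hle : c ≤ (2 * s' + 1) * (p - 1) := hc.trans (Nat.le_mul_of_pos_left _ (by omega))
  have hp1 : p - 1 = r := by omega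
  rw [hp1] at hz hle hc
  zify [hle] at hz
  have hs1 : 1 ≤ (2 * s') ^ 2 := Nat.one_le_pow _ _ (by omega)
  rw [hr] at hU hpw
  zify [hs1] at hU
  have hpwZ : ((r : ℤ) + 1) * w = (2 * s') ^ 2 + 1 := by exact_mod_cast hpw
  have hwZ : (w : ℤ) ^ 2 < 2 * (2 * s') := by exact_mod_cast hw
  have hw0Z : (0 : ℤ) < w := by exact_mod_cast hw0
  have hrZ : (1 : ℤ) ≤ r := by exact_mod_cast hr1
  have hsZ : (1 : ℤ) ≤ s' := by omega
  have hcZ : (0 : ℤ) ≤ c := by positivity
  have hws : (w : ℤ) < 2 * (2 * s') := by nlinarith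
  set τ : ℤ := (s' + 1) * w - z with hτ
  have hu : (r : ℤ) * (w + 4 * s' * τ) = (2 * s' + 1) * w * c := by
    rw [hτ]
    linear_combination hz
  have hτ0 : 0 ≤ τ := by
    by_contra hneg
    have h1 : τ ≤ -1 := by omega
    have h2 : (w : ℤ) + 4 * s' * τ < 0 := by nlinarith
    have h3 : (r : ℤ) * (w + 4 * s' * τ) < 0 := mul_neg_of_pos_of_neg (by omega) h2
    have h4 : (0 : ℤ) ≤ (2 * s' + 1) * w * c := by positivity
    omega
  have hτ1 : τ < 1 := by
    by_contra hge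
    have h1 : 1 ≤ τ := by omega
    have h2 : (w : ℤ) + w ^ 2 + 1 ≤ w + 4 * s' * τ := by nlinarith
    have h3 : (r : ℤ) * (w + w ^ 2 + 1) ≤ (2 * s' + 1) * w * c := by
      rw [← hu]
      exact mul_le_mul_of_nonneg_left h2 (by omega)
    have h4 : (2 * (s' : ℤ) + 1) * w * c ≤ w * ((2 * s') ^ 2 - 1 + (r + 1)) := by
      have h5 := mul_le_mul_of_nonneg_left hU hw0Z.le
      nlinarith
    have h5 : (r : ℤ) ≤ w ^ 2 - w := by nlinarith
    have h6 : (w : ℤ) ^ 4 < 4 * ((r + 1) * w) := by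
      rw [hpwZ]
      have : (w : ℤ) ^ 2 * w ^ 2 < (2 * (2 * s')) * (2 * (2 * s')) := by
        apply mul_lt_mul'' hwZ hwZ <;> positivity
      nlinarith
    have h7 : (w : ℤ) ^ 3 < 4 * (r + 1) := by
      have : (w : ℤ) ^ 3 * w < 4 * (r + 1) * w := by linarith [h6, (by ring : (w : ℤ) ^ 3 * w = w ^ 4)]
      exact lt_of_mul_lt_mul_right this hw0Z.le
    have h8 : (w : ℤ) < 4 := by
      by_contra h
      have h9 : (4 : ℤ) ≤ w := by omega
      nlinarith [mul_self_nonneg ((w : ℤ) - 4)]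
    have h10 : w < 4 := by exact_mod_cast h8
    have h11 : w = 1 := by omega
    rw [h11] at h5
    norm_num at h5
    omega
  have hτe : τ = 0 := by omega
  rw [hτe, mul_zero, add_zero] at hu
  have h1 : (r : ℤ) = (2 * s' + 1) * c := by
    have : (r : ℤ) * w = (2 * s' + 1) * c * w := by linarith
    exact mul_right_cancel₀ hw0Z.ne' this
  have h2 : (2 * (s' : ℤ) + 1) ∣ 2 - w := by
    refine ⟨c * w - (2 * s' - 1), ?_⟩
    rw [h1] at hpwZ
    linear_combination (-1 : ℤ) * hpwZ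
  have h3 : (2 : ℤ) - w = 0 := by
    apply Int.eq_zero_of_abs_lt_dvd h2
    rw [abs_lt]
    constructor
    · nlinarith
    · omega
  apply hw2
  omega

/-- If `s² + 1 = p w` with `p` prime and `w² < 2 s`, then there is no admissible prime power. -/
theorem none (s p w q b : ℕ) (hs : s % 2 = 0) (hs2 : 2 ≤ s) (hp : p.Prime) (hpw : p * w = s ^ 2 + 1)
    (hw : w ^ 2 < 2 * s) (hq : q.Prime) (h1 : q ^ b ∣ s ^ 2 + 1) (h2 : 2 * s < q ^ b)
    (hU : ((q ^ b - 1) % (2 * s)) * (s + 1) ≤ s ^ 2 - 1 + q ^ b)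
    (hD : 2 * s * (q - 1) ∣ (s + 1) * ((s ^ 2 + 1) / q ^ b) * ((s + 1) * (q ^ b - 1) - (q ^ b - 1) % (2 * s))) :
    False := by
  have hw0 : 0 < w := by
    rcases Nat.eq_zero_or_pos w with h | h
    · rw [h] at hpw; simp at hpw
    · exact h
  have hws : w ≤ s := by
    by_contra h
    have : s + 1 ≤ w := by omega
    nlinarith
  have hqp : q = p := by
    by_contra hne
    have h3 : (q ^ b).Coprime p := Nat.Coprime.pow_left _ ((Nat.coprime_primes hq hp).2 hne)
    rw [← hpw] at h1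
    have h4 := Nat.le_of_dvd hw0 (h3.dvd_of_dvd_mul_left h1)
    omega
  subst hqp
  have hb : b = 1 := by
    rcases Nat.lt_or_ge b 2 with h | h
    · interval_cases b
      · simp at h2; omega
      · rfl
    · exfalso
      have h3 : q ^ 2 ∣ q * w := by
        rw [hpw]
        exact (pow_dvd_pow q h).trans h1
      rw [pow_two] at h3
      have h4 := Nat.le_of_dvd hw0 (Nat.dvd_of_mul_dvd_mul_left hp.pos h3)
      nlinarith
  subst hb
  rw [pow_one] at hU hD
  rw [← hpw, Nat.mul_div_cancel_left _ hp.pos] at hD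
  exact prime_none s q w hs hs2 hp hpw hw hU hD

end Pool.Agent.Lib.MP_e0c1ed_co.Num3
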