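import Pool.Agent.Lib.MP_e0c1ed_co.Grp

/-!
# MP_e0c1ed / Orb: the orbits of a normal subgroup
-/

set_option autoImplicit false

namespace Pool.Agent.Lib.MP_e0c1ed_co.Orb

open Finset Pool.Agent.Results.MP_e0c1ed_co.SelfDualSquare Bens

section
variable {P L : Type*} [Fintype P] [Fintype L] {I : P → L → Prop} {n k : ℕ}

theorem S_self (hI : IsConfiguration I n k) (x : P) : S I x x = k := by
  unfold S
  have h1 : ∀ m, inc I x m * inc I x m = inc I x m := by
    intro m
    by_cases h : I x m
    · rw [inc_of I h, one_mul]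
    · rw [inc_of_not I h, mul_zero]
  rw [Finset.sum_congr rfl (fun m _ => h1 m), inc_sum_right, hI.card_through_point]

theorem S_col (hI : IsConfiguration I n k) {x y : P} (hxy : x ≠ y) {l : L} (h1 : I x l) (h2 : I y l) : S I x y = 1 := by
  classical
  unfold S
  rw [Finset.sum_eq_single l]
  · rw [inc_of I h1, inc_of I h2, one_mul]
  · intro m _ hm
    by_cases h3 : I x m
    · by_cases h4 : I y m
      · exact absurd (hI.unique_line x y m l hxy h3 h4 h1 h2) hm
      · rw [inc_of_not I h4, mul_zero]
    · rw [inc_of_not I h3, zero_mul]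
  · intro h; exact absurd (Finset.mem_univ l) h

theorem S_ncol {x y : P} (h : ¬ ∃ l, I x l ∧ I y l) : S I x y = 0 := by
  unfold S
  apply Finset.sum_eq_zero
  intro m _
  by_cases h3 : I x m
  · by_cases h4 : I y m
    · exact absurd ⟨m, h3, h4⟩ h
    · rw [inc_of_not I h4, mul_zero]
  · rw [inc_of_not I h3, zero_mul]

end

section
variable {P B : Type*} [DecidableEq P] [Group B] [Fintype B] [MulAction B P]

/-- sums over a group as sums over an orbit -/
theorem sum_orbit (x : P) (h : P → ℚ) :
    ∑ b : B, h (b • x) = ((univ.filter fun b : B => b • x = x).card : ℚ) * ∑ y ∈ univ.image (fun b : B => b • x), h y := by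
  rw [← Finset.sum_fiberwise_of_maps_to (s := (univ : Finset B)) (t := univ.image (fun b : B => b • x)) (g := fun b => b • x)
    (fun b _ => Finset.mem_image_of_mem _ (Finset.mem_univ b)), Finset.mul_sum]
  refine Finset.sum_congr rfl fun y hy => ?_
  obtain ⟨b0, -, hb0⟩ := Finset.mem_image.1 hy
  have h1 : ∑ b ∈ univ.filter (fun b : B => b • x = y), h (b • x) = ∑ b ∈ univ.filter (fun b : B => b • x = y), h y :=
    Finset.sum_congr rfl fun b hb => by rw [(Finset.mem_filter.1 hb).2]
  rw [h1, Finset.sum_const, nsmul_eq_mul]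
  congr 2
  refine Finset.card_nbij' (fun b => b0⁻¹ * b) (fun b => b0 * b) ?_ ?_ ?_ ?_
  · intro b hb
    have h2 : b • x = y := by simpa using hb
    simp only [coe_filter, mem_univ, true_and, Set.mem_setOf_eq]
    rw [mul_smul, h2, ← hb0, inv_smul_smul]
  · intro b hb
    have h2 : b • x = x := by simpa using hb
    simp only [coe_filter, mem_univ, true_and, Set.mem_setOf_eq]
    rw [mul_smul, h2, hb0]
  · intro b _; simp
  · intro b _; simp

end

end Pool.Agent.Lib.MP_e0c1ed_co.Orb
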