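import Pool.Agent.Lib.MP_e0c1ed_co.Upper

/-!
# MP_e0c1ed / Prime: normal subgroups of large prime order
-/

set_option autoImplicit false

namespace Pool.Agent.Lib.MP_e0c1ed_co.Prime

open Finset Pool.Agent.Results.MP_e0c1ed_co.SelfDualSquare Bens Grp Orb Norm Ub Upper

theorem arith3 (s p w c : ℕ) (γ z : ℤ) (hp : p.Prime) (hs : s % 2 = 0) (hs2 : 2 ≤ s) (hps : s + 1 < p)
    (hpw : p * w = s ^ 2 + 1) (h1 : ((p : ℤ) - 1) * γ = ((s : ℤ) + 1) * (s ^ 2 + 1) * c)
    (h2 : γ = ((s : ℤ) + 1) ^ 2 + 2 * s * z) :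
    ∃ h : ℕ, (p - 1) * h = (s + 1) * w * c ∧ h ≡ w [MOD 2 * s] := by
  have hp0 : 0 < p := hp.pos
  have hpwZ : (p : ℤ) * w = s ^ 2 + 1 := by exact_mod_cast hpw
  have hpZ : (0 : ℤ) < p := by exact_mod_cast hp0
  have hpsZ : (s : ℤ) + 1 < p := by exact_mod_cast hps
  have hs2Z : (2 : ℤ) ≤ s := by exact_mod_cast hs2
  set j : ℤ := γ - (s + 1) * w * c with hj
  have hγ : γ = p * j := by
    rw [hj]
    linear_combination (-1 : ℤ) * h1 + ((s : ℤ) + 1) * c * hpwZ
  have hj1 : ((p : ℤ) - 1) * j = (s + 1) * w * c := by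
    have h5 : (p : ℤ) * (((p : ℤ) - 1) * j) = p * ((s + 1) * w * c) := by
      have h6 : ((p : ℤ) - 1) * (p * j) = ((s : ℤ) + 1) * (p * w) * c := by
        rw [← hγ, h1, hpwZ]
      linear_combination h6
    exact mul_left_cancel₀ hpZ.ne' h5
  have hj0 : 0 ≤ j := by
    have h5 : 0 ≤ ((p : ℤ) - 1) * j := by rw [hj1]; positivity
    have h6 : (0 : ℤ) < (p : ℤ) - 1 := by linarith
    exact nonneg_of_mul_nonneg_right h5 h6
  have hcop : IsCoprime (2 * (s : ℤ)) (p : ℤ) := by
    have h5 : Nat.Coprime (2 * s) p := by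
      rw [Nat.coprime_comm, Nat.Prime.coprime_iff_not_dvd hp]
      intro h
      rcases (Nat.Prime.dvd_mul hp).1 h with h | h
      · have := Nat.le_of_dvd (by norm_num) h
        omega
      · have := Nat.le_of_dvd (by omega) h
        omega
    have := Nat.isCoprime_iff_coprime.2 h5
    push_cast at this
    exact this
  have h5 : (2 * (s : ℤ)) ∣ p * (j - w) := by
    refine ⟨z + 1, ?_⟩
    have h6 : (p : ℤ) * j = (s + 1) ^ 2 + 2 * s * z := by rw [← hγ, h2]
    linear_combination h6 - hpwZ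
  have h6 := hcop.dvd_of_dvd_mul_left h5
  obtain ⟨h, hh⟩ : ∃ h : ℕ, j = h := ⟨j.toNat, (Int.toNat_of_nonneg hj0).symm⟩
  refine ⟨h, ?_, ?_⟩
  · have hp1 : ((p - 1 : ℕ) : ℤ) = (p : ℤ) - 1 := by
      rw [Nat.cast_sub hp0, Nat.cast_one]
    have : ((p - 1 : ℕ) : ℤ) * h = (s + 1) * w * c := by rw [hp1, ← hh]; exact hj1
    exact_mod_cast this
  · rw [hh] at h6
    have h7 : ((2 * s : ℕ) : ℤ) ∣ (w : ℤ) - h := by
      have : ((2 * s : ℕ) : ℤ) = 2 * (s : ℤ) := by push_cast; ring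
      rw [this]
      have h8 := (dvd_neg).2 h6
      rwa [neg_sub] at h8
    exact (Nat.modEq_iff_dvd).2 h7

section
variable {P L G : Type*} [Fintype P] [Fintype L] [DecidableEq P] [Group G] [Finite G] [MulAction G P] [MulAction G L]
  {I : P → L → Prop} {n k : ℕ}

/-- The number of points moved to collinear points is the same for all nontrivial elements of a group of prime order. -/
theorem const_sum (hI : IsConfiguration I n k) (hT : TrilateralFree I) (hn : n = k * (k - 1) ^ 2 + k)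
    (hk : 2 ≤ k) (hinv : ∀ (g : G) x l, I x l → I (g • x) (g • l)) (p : ℕ) [hp : Fact p.Prime] (ν : G)
    (hν : ν ^ p = 1) (r : ℕ) (hr1 : 1 ≤ r) (hrp : r < p) :
    ∑ y, S I y ((ν ^ r) • y) = ∑ y, S I y (ν • y) := by
  have hk1 : (2 * (k : ℚ) - 2) ≠ 0 := by
    have : (2 : ℚ) ≤ k := by exact_mod_cast hk
    intro h
    linarith
  have h1 := Gal.const_trace p (fun r => T I n k (ν ^ r)) (fun a b => by
      show T I n k (ν ^ a) * T I n k (ν ^ b) = T I n k (ν ^ (a + b))
      rw [T_mul hI hT hn hk hinv, pow_add]) (fun a => by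
      show T I n k (ν ^ (a % p)) = T I n k (ν ^ a)
      congr 1
      conv_rhs => rw [← Nat.div_add_mod a p, pow_add, pow_mul, hν, one_pow, one_mul]) r hr1 hrp
  have h2 : (T I n k (ν ^ r)).trace = (T I n k (ν ^ 1)).trace := h1
  rw [T_trace hI (n_ne hn hk), T_trace hI (n_ne hn hk), pow_one] at h2
  have h3 := (div_left_inj' hk1).1 h2
  linarith

end

section
variable {P L G : Type*} [Finite P] [Finite L] [Group G] [Finite G] [MulAction G P] [MulAction G L]
  {I : P → L → Prop} {n k : ℕ}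

/-- **(G)** -/
theorem prime_case (hI : IsConfiguration I n k) (hT : TrilateralFree I) (hn : n = k * (k - 1) ^ 2 + k)
    (hk : k % 2 = 1) (hk3 : 3 ≤ k) (hG : ∀ (g : G) (p : P) (l : L), I (g • p) (g • l) ↔ I p l)
    (ht : ∀ p q : P, ∃ g : G, g • p = q) (B : Subgroup G) [B.Normal] (p : ℕ) (hp : p.Prime) (hkp : k < p)
    (hB : Nat.card B = p) (hfree : ∀ b ∈ B, b ≠ 1 → ∀ x : P, b • x ≠ x) :
    ∃ w h : ℕ, p * w = (k - 1) ^ 2 + 1 ∧ (p - 1) * h = k * w * ((p - 1) % (2 * (k - 1))) ∧ h ≡ w [MOD 2 * (k - 1)] := by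
  classical
  have : Fintype P := Fintype.ofFinite P
  have : Fintype L := Fintype.ofFinite L
  have : Fintype B := Fintype.ofFinite B
  have hpF : Fact p.Prime := ⟨hp⟩
  have hinv : ∀ (g : G) x l, I x l → I (g • x) (g • l) := fun g p l h => (hG g p l).2 h
  have hnpos : 0 < n := by rw [hn]; omega
  have hP : 0 < Nat.card P := by rw [hI.card_points]; exact hnpos
  obtain ⟨x⟩ : Nonempty P := (Nat.card_pos_iff.1 hP).1
  obtain ⟨σ, m, c, a, r, hσ, hm, hcard, hm1, hc, hr, hkey, ha, hsum⟩ := orbit_data hI hT hn (by omega) hinv ht B x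
  have hσ1 : σ = 1 := by
    rw [hσ]
    have h1 : (univ.filter fun b : B => b • x = x) = {1} := by
      ext b
      simp only [Finset.mem_filter, Finset.mem_univ, true_and, Finset.mem_singleton]
      constructor
      · intro h
        by_contra hb
        exact hfree b b.2 (fun h' => hb (Subtype.ext h')) x h
      · rintro rfl
        exact one_smul _ _
    rw [h1, Finset.card_singleton]
  have hmp : m = p := by
    rw [hσ1, one_mul] at hcard
    rw [← hcard, ← Nat.card_eq_fintype_card, hB]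
  subst hmp
  obtain ⟨s, rfl⟩ : ∃ s, k = s + 1 := ⟨k - 1, by omega⟩
  have hn' : n = (s + 1) * (s ^ 2 + 1) := by rw [hn, Nat.add_sub_cancel]; ring
  rw [Nat.add_sub_cancel]
  -- `m ∣ s ^ 2 + 1`
  have hdvd : m ∣ s ^ 2 + 1 := by
    have h1 : m ∣ (s + 1) * (s ^ 2 + 1) := by rw [← hn', hr]; exact Dvd.intro_left r rfl
    rcases (Nat.Prime.dvd_mul hp).1 h1 with h | h
    · exact absurd (Nat.le_of_dvd (by omega) h) (by omega)
    · exact h
  obtain ⟨w, hw⟩ := hdvd
  -- a nontrivial element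
  obtain ⟨ν, hν1⟩ : ∃ ν : B, ν ≠ 1 := by
    have : Nontrivial B := by
      rw [← Finite.one_lt_card_iff_nontrivial, hB]
      exact hp.one_lt
    exact exists_ne 1
  have hνp : (ν : G) ^ m = 1 := by
    have h1 : ν ^ m = 1 := by rw [← hB]; exact pow_card_eq_one'
    have := congrArg (Subtype.val) h1
    simpa using this
  have hall : ∀ b : B, b ≠ 1 → ∑ y, S I y (b • y) = ∑ y, S I y ((ν : G) • y) := by
    intro b hb
    have h1 : b ∈ Submonoid.powers ν := mem_powers_of_prime_card hB hν1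
    obtain ⟨e, he⟩ := h1
    have he' : ν ^ (e % m) = b := by
      rw [← he]
      have h2 : ν ^ m = 1 := by rw [← hB]; exact pow_card_eq_one'
      show ν ^ (e % m) = ν ^ e
      conv_rhs => rw [← Nat.div_add_mod e m, pow_add, pow_mul, h2, one_pow, one_mul]
    have h3 : 1 ≤ e % m := by
      rcases Nat.eq_zero_or_pos (e % m) with h | h
      · rw [h, pow_zero] at he'
        exact absurd he'.symm hb
      · exact h
    have h4 := const_sum hI hT hn (by omega) hinv m (ν : G) hνp (e % m) h3 (Nat.mod_lt _ hp.pos)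
    rw [← h4]
    refine Finset.sum_congr rfl fun y _ => ?_
    congr 1
    rw [← he']
    rfl
  obtain ⟨z, hz⟩ := benson (B := G) hI hT hn (by omega) hinv (ν : G)
  set γ : ℤ := ((s : ℤ) + 1) ^ 2 + 2 * s * z with hγ
  have hγ' : ∑ y, S I y ((ν : G) • y) = (γ : ℚ) := by
    rw [hz, hγ]
    push_cast
    ring
  have hcardP : (Fintype.card P : ℚ) = n := by
    rw [← Nat.card_eq_fintype_card, hI.card_points]
  have htot : ∑ b : B, ∑ y, S I y (b • y) = n * (s + 1) + ((m : ℚ) - 1) * γ := by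
    rw [← Finset.add_sum_erase univ _ (Finset.mem_univ (1 : B))]
    congr 1
    · have h1 : ∀ y : P, S I y ((1 : B) • y) = (s : ℚ) + 1 := by
        intro y
        rw [one_smul, S_self hI]
        push_cast
        ring
      rw [Finset.sum_congr rfl (fun y _ => h1 y), Finset.sum_const, Finset.card_univ, nsmul_eq_mul, hcardP]
    · rw [Finset.sum_congr rfl (fun b hb => (hall b (Finset.mem_erase.1 hb).1).trans hγ'), Finset.sum_const,
        Finset.card_erase_of_mem (Finset.mem_univ _), Finset.card_univ, ← Nat.card_eq_fintype_card, hB, nsmul_eq_mul,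
        Nat.cast_sub hp.pos, Nat.cast_one]
  have h1 : ((m : ℤ) - 1) * γ = ((s : ℤ) + 1) * (s ^ 2 + 1) * c := by
    rw [htot, hσ1] at hsum
    have h2 : ((m : ℚ) - 1) * γ = n * c := by
      push_cast at hsum
      linear_combination hsum
    have h3 : (n : ℚ) = ((s : ℚ) + 1) * (s ^ 2 + 1) := by rw [hn']; push_cast; ring
    rw [h3] at h2
    exact_mod_cast h2
  obtain ⟨h, hh1, hh2⟩ := arith3 s m w c γ z hp (by omega) (by omega) hkp hw.symm h1 hγ
  -- the residue
  have hcmod : (m - 1) % (2 * s) = c := by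
    have h2 := mod_eq (s + 1) n m c a r hk hk3 hn hkey hr hm1
    rw [Nat.add_sub_cancel] at h2
    rw [h2]
    apply Nat.mod_eq_of_lt
    have h3 := upper_arith (s + 1) n m c a r hk hk3 hn hkey hr hm1 ha
    rw [Nat.add_sub_cancel] at h3
    have h4 : m ≤ s ^ 2 + 1 := Nat.le_of_dvd (by omega) ⟨w, hw⟩
    by_contra h5
    have h6 : 2 * s * (s + 1) ≤ c * (s + 1) := Nat.mul_le_mul_right _ (by omega)
    have h7 : 2 * s * (s + 1) ≤ s ^ 2 - 1 + (s ^ 2 + 1) := by omega
    have h8 : 1 ≤ s ^ 2 := Nat.one_le_pow _ _ (by omega)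
    have h9 : s ^ 2 - 1 + (s ^ 2 + 1) = 2 * s ^ 2 := by omega
    rw [h9] at h7
    nlinarith
  refine ⟨w, h, hw.symm, ?_, hh2⟩
  rw [hcmod, hh1]

end

end Pool.Agent.Lib.MP_e0c1ed_co.Prime
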