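import Pool.Agent.Lib.MP_e0c1ed_co.H1

/-!
# MP_e0c1ed / R1: the orbits of a normal subgroup of a flag transitive group, data for all `k`
-/

set_option autoImplicit false

namespace Pool.Agent.Lib.MP_e0c1ed_co.R1

open Finset Pool.Agent.Results.MP_e0c1ed_co.SelfDualSquare Pool.Agent.Lib.MP_e0c1ed_co.Bens

variable {P L G : Type*} [Finite P] [Finite L] [Group G] [Finite G] [MulAction G P] [MulAction G L]
  {I : P → L → Prop} {n k : ℕ}

private theorem const (hG : ∀ (g : G) (p : P) (l : L), I (g • p) (g • l) ↔ I p l)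
    (N : Subgroup G) [N.Normal] (g : G) (x : P) (l : L) :
    {y | I y (g • l) ∧ y ∈ MulAction.orbit N (g • x)}.ncard = {y | I y l ∧ y ∈ MulAction.orbit N x}.ncard := by
  have h1 : {y | I y (g • l) ∧ y ∈ MulAction.orbit N (g • x)} =
      (fun y : P => g • y) '' {y | I y l ∧ y ∈ MulAction.orbit N x} := by
    ext y
    simp only [Set.mem_setOf_eq, Set.mem_image, MulAction.mem_orbit_iff]
    constructor
    · rintro ⟨h2, ⟨b, hb⟩, rfl⟩
      refine ⟨g⁻¹ • (⟨b, hb⟩ : N) • g • x, ⟨?_, ?_⟩, smul_inv_smul _ _⟩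
      · rw [← hG g, smul_inv_smul]
        exact h2
      · refine ⟨⟨g⁻¹ * b * g, ?_⟩, ?_⟩
        · have := (inferInstance : N.Normal).conj_mem b hb g⁻¹
          rwa [inv_inv] at this
        · show (g⁻¹ * b * g) • x = g⁻¹ • b • g • x
          rw [mul_smul, mul_smul]
    · rintro ⟨z, ⟨h2, ⟨b, hb⟩, rfl⟩, rfl⟩
      refine ⟨(hG g _ l).2 h2, ⟨g * b * g⁻¹, (inferInstance : N.Normal).conj_mem b hb g⟩, ?_⟩
      show (g * b * g⁻¹) • g • x = g • b • x
      rw [mul_smul, mul_smul, inv_smul_smul]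
  rw [h1, Set.ncard_image_of_injective _ (MulAction.injective g)]

/-- The numbers belonging to the orbits of a normal subgroup of a flag transitive group, all `k`. -/
theorem data (hI : IsConfiguration I n k) (hT : TrilateralFree I) (hn : n = k * (k - 1) ^ 2 + k)
    (hk3 : 3 ≤ k) (hG : ∀ (g : G) (p : P) (l : L), I (g • p) (g • l) ↔ I p l)
    (hfl : ∀ (p q : P) (l m : L), I p l → I q m → ∃ g : G, g • p = q ∧ g • l = m)
    (N : Subgroup G) [N.Normal] (x : P) :
    ∃ e r a m : ℕ, 1 ≤ e ∧ e ≤ k ∧ 1 ≤ m ∧ n = r * m ∧ r * (k * e) = k ^ 2 + (2 * k - 2) * a ∧ a + 1 ≤ r ∧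
      k * e ≤ k + (m - 1) ∧ m = (MulAction.orbit N x).ncard := by
  classical
  have : Fintype P := Fintype.ofFinite P
  have : Fintype L := Fintype.ofFinite L
  have : Fintype N := Fintype.ofFinite N
  have ht : ∀ p q : P, ∃ g : G, g • p = q := by
    intro p q
    obtain ⟨l1, h1⟩ := F2.ex_line hI hk3 p
    obtain ⟨l2, h2⟩ := F2.ex_line hI hk3 q
    obtain ⟨h, h3, -⟩ := hfl p q l1 l2 h1 h2
    exact ⟨h, h3⟩
  have hinv : ∀ (g : G) x l, I x l → I (g • x) (g • l) := fun g p l h => (hG g p l).2 h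
  have hn0 : n ≠ 0 := by rw [hn]; omega
  obtain ⟨l0, hxl0⟩ := F2.ex_line hI hk3 x
  obtain ⟨e, he⟩ : ∃ e, e = {y | I y l0 ∧ y ∈ MulAction.orbit N x}.ncard := ⟨_, rfl⟩
  have he1 : 1 ≤ e := by
    rw [he]
    exact (Set.ncard_pos (Set.toFinite _)).2 ⟨x, hxl0, MulAction.mem_orbit_self x⟩
  have hek : e ≤ k := by
    rw [he, ← hI.card_on_line l0]
    exact Set.ncard_le_ncard (fun y hy => hy.1) (Set.toFinite _)
  have hflag : ∀ (y : P) (l : L), I y l → {z | I z l ∧ z ∈ MulAction.orbit N y}.ncard = e := by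
    intro y l hyl
    obtain ⟨g, rfl, rfl⟩ := hfl x y l0 l hxl0 hyl
    rw [const hG N g x l0, he]
  obtain ⟨σ, m, c, a, r, hσ, hm, hcard, hm1, hc, hr, hkey, ha, hsum⟩ := Ub.orbit_data hI hT hn (by omega) hinv ht N x
  have hS : ∀ y, ∑ b : N, S I y (b • y) = ∑ b : N, S I x (b • x) := by
    intro y
    obtain ⟨g, rfl⟩ := ht x y
    exact Norm.conj_sum N (S I) (fun g p q => Grp.S_inv hinv g p q) g x
  set O : Finset P := univ.image (fun b : N => b • x) with hO
  have hx : ∑ b : N, S I x (b • x) = (σ : ℚ) * (k * e) := by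
    rw [Orb.sum_orbit (B := N) x (fun y => S I x y), ← hσ]
    congr 1
    have h1 : ∀ m : L, ∑ y ∈ O, inc I x m * inc I y m = inc I x m * (e : ℚ) := by
      intro m
      by_cases hxm : I x m
      · rw [← Finset.mul_sum]
        congr 1
        have h2 : ∀ y ∈ O, inc I y m = if I y m then (1 : ℚ) else 0 := fun y _ => rfl
        rw [Finset.sum_congr rfl h2, Finset.sum_boole]
        have h3 : (O.filter fun y => I y m).card = e := by
          rw [← hflag x m hxm, ← Set.ncard_coe_finset]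
          congr 1
          ext y
          simp only [hO, coe_filter, mem_image, mem_univ, true_and, Set.mem_setOf_eq, MulAction.mem_orbit_iff]
          exact and_comm
        rw [h3]
      · rw [inc_of_not I hxm, zero_mul]
        exact Finset.sum_eq_zero fun y _ => by rw [zero_mul]
    show ∑ y ∈ O, ∑ m, inc I x m * inc I y m = (k : ℚ) * e
    rw [Finset.sum_comm, Finset.sum_congr rfl (fun m _ => h1 m), ← Finset.sum_mul, inc_sum_right, hI.card_through_point]
  rw [Finset.sum_comm, Finset.sum_congr rfl (fun y _ => hS y), hx, Finset.sum_const, Finset.card_univ, nsmul_eq_mul,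
    ← Nat.card_eq_fintype_card, hI.card_points] at hsum
  have hσ0 : σ ≠ 0 := by
    rw [hσ]
    exact (Finset.card_pos.2 ⟨1, by simp⟩).ne'
  have hkc : k * e = k + c := by
    have h1 : n * (σ * (k * e)) = n * (σ * (k + c)) := by exact_mod_cast hsum
    have h2 := Nat.eq_of_mul_eq_mul_left (Nat.pos_of_ne_zero hn0) h1
    exact Nat.eq_of_mul_eq_mul_left (Nat.pos_of_ne_zero hσ0) h2
  have hkey2 : r * (k * e) = k ^ 2 + (2 * k - 2) * a := by
    rw [← hkc] at hkey
    have h1 : m * (r * (k * e)) = m * (k ^ 2 + (2 * k - 2) * a) := by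
      rw [← hkey, hr]
      ring
    exact Nat.eq_of_mul_eq_mul_left hm1 h1
  exact ⟨e, r, a, m, he1, hek, hm1, hr, hkey2, ha, by omega, hm⟩

end Pool.Agent.Lib.MP_e0c1ed_co.R1
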