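import Mathlib

/-!
# MP_e0c1ed / R2: the arithmetic of orbit lengths which are prime powers, `k` even
-/

set_option autoImplicit false

namespace Pool.Agent.Lib.MP_e0c1ed_co.R2

/-- the orbit length `m` and the number `e` are congruent modulo `s` -/
theorem modeq (s r m e a : ℤ) (h1 : r * m = (s + 1) * (s ^ 2 + 1)) (h2 : r * ((s + 1) * e) = (s + 1) ^ 2 + 2 * s * a) :
    s ∣ m - e := by
  have hc : IsCoprime s r := ⟨-(s ^ 2 + s + 1), m, by linear_combination h1⟩
  refine hc.dvd_of_dvd_mul_left ⟨s ^ 2 - 1 - 2 * a + r * e, ?_⟩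
  linear_combination h1 - h2

/-- `m` divides `s² + 1` -/
private theorem case_b (s w m e a : ℤ) (hs : 3 ≤ s) (hw : 2 ≤ w) (hm : 1 < m) (he : 1 ≤ e) (h1 : w * m = s ^ 2 + 1)
    (h2 : (s + 1) * w * ((s + 1) * e) = (s + 1) ^ 2 + 2 * s * a) (h3 : a + 1 ≤ (s + 1) * w)
    (h4 : (s + 1) * e ≤ (s + 1) + (m - 1)) : False := by
  -- `w e = 1 + t s`
  obtain ⟨t, ht⟩ : s ∣ w * e - 1 := by
    have hc : IsCoprime s ((s + 1) ^ 2) := ⟨-(s + 2), 1, by ring⟩
    refine hc.dvd_of_dvd_mul_left ⟨2 * a, ?_⟩
    linear_combination h2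
  have ha : (s + 1) ^ 2 * t = 2 * a := by
    have h5 : s * ((s + 1) ^ 2 * t) = s * (2 * a) := by
      linear_combination h2 - (s + 1) ^ 2 * ht
    exact mul_left_cancel₀ (by omega) h5
  have h6 : (s + 1) * t < 2 * w := by
    by_contra hcon
    have h7 : (s + 1) * (2 * w) ≤ (s + 1) * ((s + 1) * t) := mul_le_mul_of_nonneg_left (by omega) (by omega)
    nlinarith
  obtain ⟨i, hi⟩ := modeq s ((s + 1) * w) m e a (by linear_combination (s + 1) * h1) h2
  have h8 : w * i = s - t := by
    have h9 : s * (w * i) = s * (s - t) := by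
      linear_combination h1 - ht - w * hi
    exact mul_left_cancel₀ (by omega) h9
  have h10 : e - 1 ≤ i := by
    have h11 : s * (e - 1) ≤ s * i := by linarith
    exact le_of_mul_le_mul_left h11 (by omega)
  have ht0 : 0 ≤ t := by
    by_contra hcon
    have h12 : w * e < 1 := by nlinarith
    nlinarith
  rcases (by omega : i ≤ 0 ∨ 1 ≤ i) with hi0 | hi1
  · have hi2 : i = 0 := by omega
    subst hi2
    have he1 : e = 1 := by omega
    subst he1
    omega
  · have h13 : w ≤ s - t := by nlinarith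
    have ht1 : t ≤ 1 := by
      by_contra hcon
      nlinarith
    rcases (by omega : t = 0 ∨ t = 1) with rfl | rfl
    · have h14 : w * e = 1 := by linarith
      nlinarith
    · -- `w (e - i) = 2`
      have h15 : w * (e - i) = 2 := by linarith
      have h16 : w ∣ 2 := ⟨e - i, h15.symm⟩
      have h17 := Int.le_of_dvd (by norm_num) h16
      omega

/-- **The arithmetic.** -/
theorem main (k r e a m q j : ℕ) (hk3 : 3 ≤ k) (hk : k % 2 = 0) (he : 1 ≤ e)
    (h1 : r * m = k * ((k - 1) ^ 2 + 1)) (h2 : r * (k * e) = k ^ 2 + (2 * k - 2) * a) (h3 : a + 1 ≤ r)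
    (h4 : k * e ≤ k + (m - 1)) (hq : q.Prime) (hm : m = q ^ j) (hm1 : 1 < m) : ∃ i, k = 2 ^ i := by
  obtain ⟨s, rfl⟩ : ∃ s, k = s + 1 := ⟨k - 1, by omega⟩
  have e0 : 2 * (s + 1) - 2 = 2 * s := by omega
  rw [e0] at h2
  rw [Nat.add_sub_cancel] at h1
  have hs3 : 3 ≤ s := by omega
  obtain ⟨t, rfl⟩ : ∃ t, s = 2 * t + 1 := ⟨s / 2, by omega⟩
  set s := 2 * t + 1 with hs
  -- `s ^ 2 + 1 = 2 u`, `u` odd
  obtain ⟨u, hu, huodd⟩ : ∃ u, s ^ 2 + 1 = 2 * u ∧ u % 2 = 1 :=
    ⟨2 * (t * t + t) + 1, by rw [hs]; ring, by omega⟩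
  have z1 : (r : ℤ) * m = ((s : ℤ) + 1) * ((s : ℤ) ^ 2 + 1) := by exact_mod_cast h1
  have z2 : (r : ℤ) * (((s : ℤ) + 1) * e) = ((s : ℤ) + 1) ^ 2 + 2 * s * a := by exact_mod_cast h2
  have z4 : ((s : ℤ) + 1) * e ≤ (s + 1) + ((m : ℤ) - 1) := by
    have : ((m - 1 : ℕ) : ℤ) = (m : ℤ) - 1 := by rw [Nat.cast_sub (by omega)]; norm_num
    rw [← this]
    exact_mod_cast h4
  obtain ⟨i, hi⟩ := modeq s r m e a z1 z2
  have hi0 : (e : ℤ) - 1 ≤ i := by
    have h11 : (s : ℤ) * (e - 1) ≤ s * i := by linarith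
    exact le_of_mul_le_mul_left h11 (by omega)
  have hj0 : j ≠ 0 := by
    rintro rfl
    rw [pow_zero] at hm
    omega
  have hmn : m ∣ (s + 1) * (s ^ 2 + 1) := ⟨r, by rw [← h1]; ring⟩
  rcases hq.eq_two_or_odd with h2q | hqo
  · -- `q = 2`
    subst h2q
    have hcop : Nat.Coprime m u := by
      rw [hm]
      exact Nat.Coprime.pow_left j ((Nat.coprime_two_left).2 (Nat.odd_iff.2 huodd))
    have hm2 : m ∣ 2 * (s + 1) := by
      rw [hu] at hmn
      have h5 : m ∣ (2 * (s + 1)) * u := by
        have h6 : (2 * (s + 1)) * u = (s + 1) * (2 * u) := by ring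
        rw [h6]
        exact hmn
      exact hcop.dvd_of_dvd_mul_right h5
    have hmle : m ≤ 2 * (s + 1) := Nat.le_of_dvd (by omega) hm2
    have hmev : m % 2 = 0 := by
      obtain ⟨j', rfl⟩ : ∃ j', j = j' + 1 := ⟨j - 1, by omega⟩
      rw [hm, pow_succ]
      omega
    have he2 : e ≤ 2 := by
      by_contra hcon
      have h5 : (s + 1) * 3 ≤ (s + 1) * e := Nat.mul_le_mul_left _ (by omega)
      omega
    have hi2 : i ≤ 2 := by
      by_contra hcon
      have h5 : (s : ℤ) * 3 ≤ s * i := mul_le_mul_of_nonneg_left (by omega) (by omega)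
      omega
    have hi00 : 0 ≤ i := by omega
    rcases (by omega : i = 0 ∨ i = 1 ∨ i = 2) with rfl | rfl | rfl
    · exfalso
      omega
    · rcases (by omega : e = 1 ∨ e = 2) with rfl | rfl
      · exact ⟨j, by omega⟩
      · exfalso
        omega
    · rcases (by omega : e = 1 ∨ e = 2) with rfl | rfl
      · exfalso
        omega
      · obtain ⟨j', rfl⟩ : ∃ j', j = j' + 1 := ⟨j - 1, by omega⟩
        rw [pow_succ] at hm
        exact ⟨j', by omega⟩
  · -- `q` odd
    exfalso
    have hmo : Odd m := by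
      rw [hm]
      exact (Nat.odd_iff.2 hqo).pow
    by_cases hqk : q ∣ s + 1
    · have hqs : ¬ q ∣ s ^ 2 + 1 := by
        intro h5
        have h6 : s ^ 2 + 1 + 2 * s = (s + 1) * (s + 1) := by ring
        have h7 : q ∣ 2 * s := (Nat.dvd_add_right h5).1 (h6 ▸ hqk.mul_right _)
        rcases (Nat.Prime.dvd_mul hq).1 h7 with h8 | h8
        · have := Nat.le_of_dvd (by norm_num) h8
          have := hq.two_le
          omega
        · have h9 : q ∣ 1 := (Nat.dvd_add_right h8).1 hqk
          exact hq.one_lt.ne' (Nat.dvd_one.1 h9)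
      have hcop : Nat.Coprime m (s ^ 2 + 1) := by
        rw [hm]
        exact Nat.Coprime.pow_left j ((Nat.Prime.coprime_iff_not_dvd hq).2 hqs)
      have hmk : m ∣ s + 1 := hcop.dvd_of_dvd_mul_right hmn
      obtain ⟨c, hc⟩ := hmk
      have hc2 : 2 ≤ c := by
        rcases Nat.lt_or_ge c 2 with h5 | h5
        · exfalso
          rcases (by omega : c = 0 ∨ c = 1) with rfl | rfl
          · omega
          · rw [mul_one] at hc
            have := Nat.odd_iff.1 hmo
            omega
        · exact h5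
      have hmle : m * 2 ≤ s + 1 := by
        rw [hc]
        exact Nat.mul_le_mul_left _ hc2
      have he1 : e = 1 := by
        by_contra hcon
        have h5 : (s + 1) * 2 ≤ (s + 1) * e := Nat.mul_le_mul_left _ (by omega)
        omega
      subst he1
      have hi1 : 1 ≤ i := by
        by_contra hcon
        have : i = 0 := by omega
        subst this
        omega
      have h5 : (s : ℤ) * 1 ≤ s * i := mul_le_mul_of_nonneg_left hi1 (by omega)
      omega
    · have hcop : Nat.Coprime m (s + 1) := by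
        rw [hm]
        exact Nat.Coprime.pow_left j ((Nat.Prime.coprime_iff_not_dvd hq).2 hqk)
      have hms : m ∣ s ^ 2 + 1 := hcop.dvd_of_dvd_mul_left hmn
      obtain ⟨w, hw⟩ := hms
      have hr : r = (s + 1) * w := by
        have h5 : m * r = m * ((s + 1) * w) := by
          calc m * r = r * m := by ring
            _ = (s + 1) * (s ^ 2 + 1) := h1
            _ = (s + 1) * (m * w) := by rw [← hw]
            _ = m * ((s + 1) * w) := by ring
        exact Nat.eq_of_mul_eq_mul_left (by omega) h5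
      have hw2 : 2 ≤ w := by
        rcases Nat.lt_or_ge w 2 with h5 | h5
        · exfalso
          rcases (by omega : w = 0 ∨ w = 1) with rfl | rfl
          · omega
          · rw [mul_one] at hw
            have := Nat.odd_iff.1 hmo
            omega
        · exact h5
      subst hr
      refine case_b s w m e a (by omega) (by exact_mod_cast hw2) (by exact_mod_cast hm1) (by exact_mod_cast he)
        ?_ ?_ ?_ z4
      · have : ((s : ℤ) ^ 2 + 1) = m * w := by exact_mod_cast hw
        rw [this]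
        ring
      · rw [← z2]
        push_cast
        ring
      · have : ((a : ℤ) + 1) ≤ (((s + 1) * w : ℕ) : ℤ) := by exact_mod_cast h3
        rw [Nat.cast_mul] at this
        exact_mod_cast this

end Pool.Agent.Lib.MP_e0c1ed_co.R2
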