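import Pool.Agent.Lib.MP_e0c1ed_co.Norm

/-!
# MP_e0c1ed / V4: orbits of length less than `k` of a normal subgroup of a point transitive group

They are cliques, and then an element which fixes a point fixes all points (any parity of `k`).
-/

set_option autoImplicit false

namespace Pool.Agent.Lib.MP_e0c1ed_co.V4

open Finset Pool.Agent.Results.MP_e0c1ed_co.SelfDualSquare Bens Grp Orb
open Pool.Agent.Lib.MP_e0c1ed_co.Norm (conj_sum gq orbit_ncard)

private theorem arith (k n m c a : ℕ) (hk3 : 3 ≤ k) (hn : n = k * (k - 1) ^ 2 + k)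
    (h1 : n * (k + c) = m * (k ^ 2 + (2 * k - 2) * a)) (hm : m < k) (hm1 : 1 ≤ m)
    (hc : c ≤ m - 1) : c = m - 1 := by
  obtain ⟨s, rfl⟩ : ∃ s, k = s + 1 := ⟨k - 1, by omega⟩
  obtain ⟨u, rfl⟩ : ∃ u, m = u + 1 := ⟨m - 1, by omega⟩
  have h3 : ((s + 1 : ℤ) * s ^ 2 + (s + 1)) * (s + 1 + c) = (u + 1) * ((s + 1) ^ 2 + 2 * s * a) := by
    have h4 : (s + 1) - 1 = s := by omega
    have h5 : 2 * (s + 1) - 2 = 2 * s := by omega
    rw [hn, h4, h5] at h1
    exact_mod_cast h1
  have h6 : (s : ℤ) ∣ (c : ℤ) - u :=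
    ⟨(u + 1) * (s + 2 + 2 * a) - (s ^ 2 + s + 1) * (s + 1 + c) - 1, by linear_combination h3⟩
  have h7 : (c : ℤ) - u = 0 := by
    apply Int.eq_zero_of_abs_lt_dvd h6
    rw [abs_lt]
    constructor <;> omega
  omega

section
variable {P L G : Type*} [Fintype P] [Fintype L] [Group G] [MulAction G P] [MulAction G L]
  {I : P → L → Prop} {n k : ℕ}

/-- **Orbits of length less than `k` are cliques** (any parity of `k`). -/
theorem clique [Finite G] (hI : IsConfiguration I n k) (hT : TrilateralFree I) (hn : n = k * (k - 1) ^ 2 + k)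
    (hk3 : 3 ≤ k) (hinv : ∀ (g : G) x l, I x l → I (g • x) (g • l))
    (htrans : ∀ x y : P, ∃ g : G, g • x = y) (N : Subgroup G) [N.Normal] (x : P)
    (hm : (MulAction.orbit N x).ncard < k) (b : N) (hb : b • x ≠ x) : ∃ l, I x l ∧ I (b • x) l := by
  classical
  have : Fintype N := Fintype.ofFinite N
  have hinvN : ∀ (b : N) x l, I x l → I (b • x) (b • l) := fun b x l h => hinv (b : G) x l h
  set O : Finset P := univ.image (fun b : N => b • x) with hO
  set σ : ℕ := (univ.filter fun b : N => b • x = x).card with hσ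
  have hσ0 : (σ : ℚ) ≠ 0 := by
    have : 0 < σ := Finset.card_pos.2 ⟨1, by simp⟩
    exact_mod_cast this.ne'
  have hOm : O.card = (MulAction.orbit N x).ncard := by
    rw [← Set.ncard_coe_finset]
    congr 1
    ext y
    simp [hO, MulAction.mem_orbit_iff]
  have hxO : x ∈ O := Finset.mem_image.2 ⟨1, Finset.mem_univ _, one_smul _ _⟩
  have hn0 : (n : ℚ) ≠ 0 := n_ne hn (by omega)
  have hcardP : (Fintype.card P : ℚ) = n := by
    rw [← Nat.card_eq_fintype_card, hI.card_points]
  -- the order of `N`
  have hcard : (Fintype.card N : ℚ) = σ * O.card := by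
    have := sum_orbit (B := N) x (fun _ => (1 : ℚ))
    simpa using this
  -- the average of Benson's congruence
  obtain ⟨a, ha⟩ := average (B := N) hI hT hn (by omega) hinvN
  rw [Finset.sum_comm] at ha
  have hS : ∀ y, ∑ b : N, S I y (b • y) = ∑ b : N, S I x (b • x) := by
    intro y
    obtain ⟨g, rfl⟩ := htrans x y
    exact conj_sum N (S I) (fun g p q => S_inv hinv g p q) g x
  rw [Finset.sum_congr rfl (fun y _ => hS y), Finset.sum_const, Finset.card_univ, nsmul_eq_mul, hcardP,
    sum_orbit (B := N) x (fun y => S I x y)] at ha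
  -- points of the orbit collinear with `x`
  set C : Finset P := (O.erase x).filter (fun y => ∃ l, I x l ∧ I y l) with hC
  have hsum : ∑ y ∈ O, S I x y = k + C.card := by
    rw [← Finset.add_sum_erase O _ hxO, S_self hI]
    congr 1
    have h1 : ∀ y ∈ O.erase x, S I x y = if ∃ l, I x l ∧ I y l then (1 : ℚ) else 0 := by
      intro y hy
      have hxy : x ≠ y := fun h => (Finset.mem_erase.1 hy).1 h.symm
      split_ifs with h
      · obtain ⟨l, h2, h3⟩ := h
        exact S_col hI hxy h2 h3
      · exact S_ncol h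
    rw [Finset.sum_congr rfl h1, Finset.sum_boole]
  have hCle : C.card ≤ O.card - 1 := by
    rw [← Finset.card_erase_of_mem hxO]
    exact Finset.card_filter_le _ _
  have hO1 : 1 ≤ O.card := Finset.card_pos.2 ⟨x, hxO⟩
  have hkey : n * (k + C.card) = O.card * (k ^ 2 + (2 * k - 2) * a) := by
    have h1 : (n : ℚ) * (k + C.card) = O.card * ((k : ℚ) ^ 2 + (2 * k - 2) * a) := by
      rw [hsum, hcard] at ha
      have h2 : (σ : ℚ) * (n * (k + C.card)) = σ * (O.card * ((k : ℚ) ^ 2 + (2 * k - 2) * a)) := by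
        linear_combination ha
      exact mul_left_cancel₀ hσ0 h2
    have h3 : ((2 * k - 2 : ℕ) : ℚ) = 2 * (k : ℚ) - 2 := by
      rw [Nat.cast_sub (by omega)]
      push_cast
      ring
    rw [← h3] at h1
    exact_mod_cast h1
  have hfin : C.card = O.card - 1 := arith k n O.card C.card a hk3 hn hkey (by rw [hOm]; exact hm) hO1 hCle
  have hCe : C = O.erase x := by
    apply Finset.eq_of_subset_of_card_le (Finset.filter_subset _ _)
    rw [hfin, Finset.card_erase_of_mem hxO]
  have hbO : b • x ∈ O.erase x :=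
    Finset.mem_erase.2 ⟨hb, Finset.mem_image.2 ⟨b, Finset.mem_univ _, rfl⟩⟩
  rw [← hCe] at hbO
  exact (Finset.mem_filter.1 hbO).2

/-- An element of a normal subgroup with orbits of length `m`, `1 < m < k`, fixing a point fixes all points. -/
theorem fixed_all [Finite G] (hI : IsConfiguration I n k) (hT : TrilateralFree I) (hn : n = k * (k - 1) ^ 2 + k)
    (hk3 : 3 ≤ k) (hinv : ∀ (g : G) x l, I x l → I (g • x) (g • l))
    (htrans : ∀ x y : P, ∃ g : G, g • x = y) (N : Subgroup G) [N.Normal] (x : P)
    (hm : (MulAction.orbit N x).ncard < k) (hm1 : (MulAction.orbit N x).ncard ≠ 1) (b : N) (z : P)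
    (hz : b • z = z) (y : P) : b • y = y := by
  classical
  have hmm : ∀ z : P, (MulAction.orbit N z).ncard < k := fun z => by
    rw [orbit_ncard htrans N z x]; exact hm
  have hcl : ∀ (c : N) (z : P), c • z ≠ z → ∃ l, I z l ∧ I (c • z) l := fun c z h =>
    clique hI hT hn hk3 hinv htrans N z (hmm z) c h
  have hmove : ∀ z : P, ∃ c : N, c • z ≠ z := by
    intro z
    by_contra hcon
    push Not at hcon
    have h1 : MulAction.orbit N z = {z} := by
      ext w
      constructor
      · rintro ⟨c, rfl⟩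
        exact hcon c
      · rintro rfl
        exact MulAction.mem_orbit_self _
    apply hm1
    rw [orbit_ncard htrans N x z, h1, Set.ncard_singleton]
  exact Spread.no_fixed (B := N) I k hk3 (by rw [hI.card_points, hn]) hI.card_on_line hI.card_through_point
      hI.unique_line hT (fun x M h => gq hI hT hn (by omega) x M h) (fun c x l h => hinv (c : G) x l h) hcl hmove
      b z hz y

end

end Pool.Agent.Lib.MP_e0c1ed_co.V4
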