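import Pool.Agent.Lib.MP_e0c1ed_co.R1
import Pool.Agent.Lib.MP_e0c1ed_co.R2
import Pool.Agent.Lib.MP_e0c1ed_co.V8

/-!
# MP_e0c1ed / R3: the solvable radical of a flag transitive group is trivial unless `k` is a power of `2`
-/

set_option autoImplicit false

namespace Pool.Agent.Lib.MP_e0c1ed_co.R3

open Pool.Agent.Results.MP_e0c1ed_co.SelfDualSquare Pool.Agent.Lib.MP_e0c1ed_co

section
variable {P L G : Type*} [Finite P] [Finite L] [Group G] [Finite G] [MulAction G P] [MulAction G L]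
  {I : P → L → Prop} {n k : ℕ}

/-- **A solvable normal subgroup of a flag transitive group is trivial unless `k` is a power of `2`.** -/
theorem flag (hI : IsConfiguration I n k) (hT : TrilateralFree I) (hn : n = k * (k - 1) ^ 2 + k)
    (hk3 : 3 ≤ k) (hk2 : ∀ i : ℕ, k ≠ 2 ^ i) (hG : ∀ (g : G) (p : P) (l : L), I (g • p) (g • l) ↔ I p l)
    (hf : ∀ g : G, (∀ p : P, g • p = p) → g = 1)
    (hfl : ∀ (p q : P) (l m : L), I p l → I q m → ∃ g : G, g • p = q ∧ g • l = m)
    (N : Subgroup G) (hN : N.Normal) (hS : Group.IsSolvable N) : N = ⊥ := by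
  classical
  by_contra hne
  have ht : ∀ p q : P, ∃ g : G, g • p = q := by
    intro p q
    obtain ⟨l1, h1⟩ := F2.ex_line hI hk3 p
    obtain ⟨l2, h2⟩ := F2.ex_line hI hk3 q
    obtain ⟨h, h3, -⟩ := hfl p q l1 l2 h1 h2
    exact ⟨h, h3⟩
  rcases Nat.even_or_odd k with hk | hk
  · obtain ⟨q, B, hq, -, hB, hBne, -, hexp⟩ := V8.exists_elementary_le N hN hS hne
    have := Fact.mk hq
    obtain ⟨b, hbB, hb1⟩ : ∃ b ∈ B, b ≠ 1 := (Subgroup.ne_bot_iff_exists_ne_one.1 hBne).elim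
      fun b hb => ⟨b.1, b.2, fun h => hb (Subtype.ext h)⟩
    obtain ⟨x, hx⟩ : ∃ x : P, b • x ≠ x := by
      by_contra hcon
      push Not at hcon
      exact hb1 (hf b hcon)
    obtain ⟨e, r, a, m, he1, hek, hm1, hnr, hkey, ha, hke, hm⟩ := R1.data hI hT hn hk3 hG hfl B x
    have hpg : IsPGroup q B := fun g => ⟨1, by
      rw [pow_one]
      exact Subtype.ext (hexp g.1 g.2)⟩
    obtain ⟨c, hc⟩ := IsPGroup.iff_card.1 hpg
    have hmd : m ∣ Nat.card B := by
      rw [hm, ← MulAction.index_stabilizer B x]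
      exact Subgroup.index_dvd_card _
    rw [hc] at hmd
    obtain ⟨j, -, hj⟩ := (Nat.dvd_prime_pow hq).1 hmd
    have hm2 : 1 < m := by
      rw [hm]
      exact (Set.one_lt_ncard_iff (Set.toFinite _)).2 ⟨b • x, x, ⟨⟨b, hbB⟩, rfl⟩, MulAction.mem_orbit_self x, hx⟩
    obtain ⟨i, hi⟩ := R2.main k r e a m q j hk3 (Nat.even_iff.1 hk) he1 (by
      rw [← hnr, hn]
      ring) hkey ha hke hq hj hm2
    exact hk2 i hi
  · have h1 := (V8.solvable_normal hI hT hn hk3 hG hf ht N hN hS hne).1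
    exact (Nat.not_even_iff_odd.2 hk) h1

end

/-- The same for groups of pairs of permutations. -/
theorem all {P L : Type*} (I : P → L → Prop) (n k : ℕ) (hI : IsConfiguration I n k)
    (hT : TrilateralFree I) (hn : n = k * (k - 1) ^ 2 + k) (hk : 3 ≤ k) (hk2 : ∀ i : ℕ, k ≠ 2 ^ i)
    (G : Subgroup (Equiv.Perm P × Equiv.Perm L)) (hG : G ≤ Aut.autGroup I)
    (hfl : ∀ (p q : P) (l m : L), I p l → I q m → ∃ g ∈ G, g.1 p = q ∧ g.2 l = m)
    (N : Subgroup G) (hN : N.Normal) (hS : Group.IsSolvable N) : N = ⊥ := by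
  classical
  have : Finite P := Nat.finite_of_card_ne_zero (by rw [hI.card_points]; omega)
  have : Finite L := Nat.finite_of_card_ne_zero (by rw [hI.card_lines]; omega)
  let i1 : MulAction G P :=
    MulAction.compHom P ((MonoidHom.fst (Equiv.Perm P) (Equiv.Perm L)).comp G.subtype)
  let i2 : MulAction G L :=
    MulAction.compHom L ((MonoidHom.snd (Equiv.Perm P) (Equiv.Perm L)).comp G.subtype)
  have hG' : ∀ g ∈ G, ∀ p l, I (g.1 p) (g.2 l) ↔ I p l := fun g hg => hG hg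
  have a2 : ∀ g : G, (∀ p : P, g • p = p) → g = 1 := by
    intro g hg
    have h1 : ∀ p, g.1.1 p = p := fun p => hg p
    have h2 : ∀ l, g.1.2 l = l := by
      intro l
      by_contra hl
      have h3 : ∀ p, I p l → I p (g.1.2 l) := by
        intro p hpl
        have := (hG' g.1 g.2 p l).2 hpl
        rwa [h1] at this
      have h4 : 1 < {p | I p l}.ncard := by rw [hI.card_on_line]; omega
      obtain ⟨p, q, hp1, hq1, hpq⟩ := (Set.one_lt_ncard_iff).1 h4
      exact hl (hI.unique_line p q (g.1.2 l) l hpq (h3 p hp1) (h3 q hq1) hp1 hq1)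
    apply Subtype.ext
    apply Prod.ext
    · exact Equiv.ext h1
    · exact Equiv.ext h2
  refine flag hI hT hn hk hk2 (fun g p l => hG' g.1 g.2 p l) a2 ?_ N hN hS
  intro p q l m hpl hqm
  obtain ⟨g, hg, h1, h2⟩ := hfl p q l m hpl hqm
  exact ⟨⟨g, hg⟩, h1, h2⟩

end Pool.Agent.Lib.MP_e0c1ed_co.R3
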