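import Pool.Agent.Lib.MP_e0c1ed_co.R1
import Pool.Agent.Lib.MP_e0c1ed_co.Aut

/-!
# MP_e0c1ed / R4: the lengths of the orbits of a normal subgroup of a flag transitive group, every `k`
-/

set_option autoImplicit false

namespace Pool.Agent.Lib.MP_e0c1ed_co.R4

/-- The length `m` of the orbits of a normal subgroup, from the count of the lines on the orbits. -/
theorem cls {k e r a m : ℕ} (hk : 3 ≤ k) (he : 1 ≤ e) (hrm : r * m = k * ((k - 1) ^ 2 + 1))
    (hre : r * (k * e) = k ^ 2 + (2 * k - 2) * a) (har : a + 1 ≤ r) (hkm : k * e ≤ k + (m - 1))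
    (hm : 1 < m) :
    m = k ∨ m = 2 * k ∨ (∃ f, f ∣ k ∧ m = f * ((k - 1) ^ 2 + 1)) ∨ (k = 8 ∧ m = 80) ∨
      (k = 14 ∧ m = 119) ∨ (k = 18 ∧ m = 87) := by
  obtain ⟨s, rfl⟩ : ∃ s, k = s + 1 := ⟨k - 1, by omega⟩
  have hs : 2 ≤ s := by omega
  rw [Nat.add_sub_cancel] at hrm
  rw [Nat.add_sub_cancel]
  have e1 : 2 * (s + 1) - 2 = 2 * s := by omega
  rw [e1] at hre
  -- `2 a = (s + 1) w`
  have hco : Nat.Coprime (s + 1) s := by simp
  have hd : (s + 1) ∣ 2 * a := by
    have h1 : (s + 1) ∣ 2 * s * a := by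
      have h2 : (s + 1) ∣ (s + 1) ^ 2 + 2 * s * a := by
        rw [← hre]
        exact ⟨r * e, by ring⟩
      exact (Nat.dvd_add_right ⟨s + 1, by ring⟩).1 h2
    have h3 : (s + 1) ∣ s * (2 * a) := by
      have : s * (2 * a) = 2 * s * a := by ring
      rw [this]
      exact h1
    exact hco.dvd_of_dvd_mul_left h3
  obtain ⟨w, hw⟩ := hd
  have hre2 : r * e = 1 + (w + 1) * s := by
    have h1 : (s + 1) * (r * e) = (s + 1) * (1 + (w + 1) * s) := by
      have h2 : 2 * s * a = s * (2 * a) := by ring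
      rw [h2, hw] at hre
      linarith [hre, show (s + 1) * (r * e) = r * ((s + 1) * e) by ring,
        show (s + 1) * (1 + (w + 1) * s) = (s + 1) ^ 2 + s * ((s + 1) * w) by ring]
    exact Nat.eq_of_mul_eq_mul_left (by omega) h1
  have hem : e + s * (e - 1) ≤ m := by
    obtain ⟨e', rfl⟩ : ∃ e', e = e' + 1 := ⟨e - 1, by omega⟩
    rw [Nat.add_sub_cancel]
    have h1 : (s + 1) * (e' + 1) = s * e' + e' + s + 1 := by ring
    rw [h1] at hkm
    omega
  obtain ⟨x, hx⟩ : ∃ x, m = e + x := ⟨m - e, by have := Nat.zero_le (s * (e - 1)); omega⟩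
  have hrx : r * x + (w + 1) * s = s * (s ^ 2 + s + 1) := by
    rw [hx] at hrm
    nlinarith [hrm, hre2]
  have hsx : s ∣ x := by
    have h1 : s ∣ r * x := by
      have h3 : s ∣ r * x + (w + 1) * s := by
        rw [hrx]
        exact ⟨s ^ 2 + s + 1, rfl⟩
      exact (Nat.dvd_add_left ⟨w + 1, by ring⟩).1 h3
    have h2 : Nat.Coprime s r := by
      have h3 : Nat.Coprime s (r * e) := by
        rw [hre2]
        simp
      exact Nat.Coprime.coprime_mul_right_right h3
    exact h2.dvd_of_dvd_mul_left h1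
  obtain ⟨i, rfl⟩ := hsx
  subst hx
  have hri : r * i + (w + 1) = s ^ 2 + s + 1 := by
    have h1 : s * (r * i + (w + 1)) = s * (s ^ 2 + s + 1) := by
      rw [← hrx]
      ring
    exact Nat.eq_of_mul_eq_mul_left (by omega) h1
  have hie : e - 1 ≤ i := by
    have h1 : s * (e - 1) ≤ s * i := by omega
    exact Nat.le_of_mul_le_mul_left h1 (by omega)
  have hbd : e * ((s + 1) * w + 2) ≤ 2 + 2 * ((w + 1) * s) := by
    have h1 : (s + 1) * w + 2 ≤ 2 * r := by omega
    have h2 := Nat.mul_le_mul_left e h1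
    nlinarith [h2, hre2]
  clear hem hrx hrm hre hkm hw har hco
  rcases Nat.eq_zero_or_pos w with rfl | hw1
  · -- `v = 1`
    refine Or.inr (Or.inr (Or.inl ⟨e, ?_, ?_⟩))
    · exact ⟨r, by linarith [hre2, mul_comm r e]⟩
    · have hr0 : 0 < r := by
        rcases Nat.eq_zero_or_pos r with rfl | h
        · omega
        · exact h
      have h1 : r * i = r * (s * e) := by
        have : r * (s * e) = s * (r * e) := by ring
        rw [this, hre2]
        nlinarith [hri]
      have h2 := Nat.eq_of_mul_eq_mul_left hr0 h1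
      rw [h2]
      ring
  · have he3 : e ≤ 3 := by
      by_contra hcon
      have h4 : 4 ≤ e := by omega
      have h5 : 4 * ((s + 1) * w + 2) ≤ e * ((s + 1) * w + 2) := Nat.mul_le_mul_right _ h4
      have h6 : s ≤ s * w := Nat.le_mul_of_pos_right s hw1
      nlinarith [h5, hbd, h6]
    interval_cases e
    · -- `e = 1`
      have hr : r = 1 + (w + 1) * s := by linarith [hre2]
      subst hr
      have hi1 : 1 ≤ i := by
        rcases Nat.eq_zero_or_pos i with rfl | h
        · simp at hm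
        · exact h
      left
      -- over the integers
      obtain ⟨h, hh⟩ : ∃ h : ℤ, h = (s : ℤ) + 1 - (w + 1) * i := ⟨_, rfl⟩
      have hz : (i : ℤ) + (w + 1) = 1 + h * s := by
        have := congrArg (Nat.cast : ℕ → ℤ) hri
        push_cast at this
        rw [hh]
        linarith
      have hs' : (2 : ℤ) ≤ s := by exact_mod_cast hs
      have hi' : (1 : ℤ) ≤ i := by exact_mod_cast hi1
      have hw' : (1 : ℤ) ≤ w := by exact_mod_cast hw1
      have h1 : 1 ≤ h := by
        by_contra hc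
        have : h ≤ 0 := by omega
        nlinarith
      have h2 : h ≤ 1 := by
        by_contra hc
        have : 2 ≤ h := by omega
        nlinarith [mul_nonneg (show (0 : ℤ) ≤ w by omega) (show (0 : ℤ) ≤ i - 1 by omega)]
      have h3 : h = 1 := by omega
      rw [h3] at hz hh
      have h4 : (w : ℤ) * ((s : ℤ) - (w + 1)) = 0 := by
        have : (i : ℤ) = s - w := by linarith
        rw [this] at hh
        linarith
      rcases mul_eq_zero.1 h4 with h5 | h5
      · omega
      · have : (i : ℤ) = 1 := by linarith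
        have : i = 1 := by exact_mod_cast this
        rw [this]
        ring
    · -- `e = 2`
      have hws : w + 1 ≤ s := by nlinarith [hbd]
      have hi1 : 1 ≤ i := hie
      obtain ⟨h, hh⟩ : ∃ h : ℤ, h = 2 * (s : ℤ) + 2 - (w + 1) * i := ⟨_, rfl⟩
      have hz : 2 * ((w : ℤ) + 1) + i = 2 + h * s := by
        have h1 := congrArg (Nat.cast : ℕ → ℤ) hri
        have h2 := congrArg (Nat.cast : ℕ → ℤ) hre2
        push_cast at h1 h2
        have h3 : (i : ℤ) * ((r : ℤ) * 2) = i * (1 + (w + 1) * s) := by rw [h2]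
        rw [hh]
        linarith
      have hs' : (2 : ℤ) ≤ s := by exact_mod_cast hs
      have hi' : (1 : ℤ) ≤ i := by exact_mod_cast hi1
      have hw' : (1 : ℤ) ≤ w := by exact_mod_cast hw1
      have hws' : (w : ℤ) + 1 ≤ s := by exact_mod_cast hws
      have h1 : 1 ≤ h := by
        by_contra hc
        have : h ≤ 0 := by omega
        nlinarith
      have h2 : h ≤ 2 := by
        by_contra hc
        have h3 : 3 ≤ h := by omega
        have h4 : 3 * (s : ℤ) ≤ h * s := by nlinarith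
        have h5 : (2 : ℤ) + s ≤ i := by linarith
        nlinarith
      have h3 : h = 1 ∨ h = 2 := by omega
      rcases h3 with h3 | h3
      · -- `(v - 2) (s - 2 v - 2) = 5`
        rw [h3] at hz hh
        have hi2 : (i : ℤ) = s - 2 * w := by linarith
        have h4 : ((w : ℤ) - 1) * (s - 2 * w - 4) = 5 := by
          rw [hi2] at hh
          linarith
        have h5 : ((w : ℤ) - 1) ∣ 5 := ⟨_, h4.symm⟩
        have h6 : (w : ℤ) - 1 ≤ 5 := Int.le_of_dvd (by norm_num) h5
        obtain ⟨u, hu⟩ : ∃ u : ℤ, u = (w : ℤ) - 1 := ⟨_, rfl⟩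
        rw [← hu] at h4 h6
        have h7 : 0 ≤ u := by omega
        have h8 : (u = 1 ∧ (s : ℤ) = 13) ∨ (u = 5 ∧ (s : ℤ) = 17) := by
          clear h5 hz hh hi2 hre2 hri hbd
          interval_cases u <;> omega
        right; right; right; right
        rcases h8 with ⟨h8, h9⟩ | ⟨h8, h9⟩
        · left
          have h10 : s = 13 := by exact_mod_cast h9
          have h11 : i = 9 := by omega
          subst h10 h11
          exact ⟨rfl, rfl⟩
        · right
          have h10 : s = 17 := by exact_mod_cast h9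
          have h11 : i = 5 := by omega
          subst h10 h11
          exact ⟨rfl, rfl⟩
      · rw [h3] at hz hh
        right; left
        have h4 : (w : ℤ) * ((s : ℤ) - (w + 1)) = 0 := by
          have : (i : ℤ) = 2 * s - 2 * w := by linarith
          rw [this] at hh
          linarith
        rcases mul_eq_zero.1 h4 with h5 | h5
        · omega
        · have : (i : ℤ) = 2 := by linarith
          have : i = 2 := by exact_mod_cast this
          rw [this]
          ring
    · -- `e = 3`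
      right; right; right; left
      have hw2 : w = 1 := by
        by_contra hc
        have h1 : 2 ≤ w := by omega
        nlinarith [Nat.mul_le_mul_left s h1]
      subst hw2
      have hs7 : 7 ≤ s := by nlinarith [hbd]
      have h1 := congrArg (Nat.cast : ℕ → ℤ) hri
      have h2 := congrArg (Nat.cast : ℕ → ℤ) hre2
      push_cast at h1 h2
      have h3 : (2 * (s : ℤ) + 1) * (3 * (2 * s + 1) - 4 * i) = 15 := by
        have h4 : (i : ℤ) * ((r : ℤ) * 3) = i * (1 + 2 * s) := by rw [h2]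
        nlinarith
      have h5 : (2 * (s : ℤ) + 1) ∣ 15 := ⟨_, h3.symm⟩
      have h6 : 2 * (s : ℤ) + 1 ≤ 15 := Int.le_of_dvd (by norm_num) h5
      have h7 : s = 7 := by omega
      subst h7
      have : (i : ℤ) = 11 := by push_cast at h3; linarith
      have : i = 11 := by exact_mod_cast this
      subst this
      norm_num

/-- The possible lengths of the orbits of a normal subgroup. -/
def Length (k m : ℕ) : Prop :=
  m = k ∨ m = 2 * k ∨ (∃ f, f ∣ k ∧ m = f * ((k - 1) ^ 2 + 1)) ∨ (k = 8 ∧ m = 80) ∨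
    (k = 14 ∧ m = 119) ∨ (k = 18 ∧ m = 87)

open Pool.Agent.Results.MP_e0c1ed_co.SelfDualSquare Pool.Agent.Lib.MP_e0c1ed_co

/-- **The lengths of the point orbits of a nontrivial normal subgroup of a flag transitive group.** -/
theorem orbits {P L G : Type*} [Finite P] [Finite L] [Group G] [Finite G] [MulAction G P] [MulAction G L]
    {I : P → L → Prop} {n k : ℕ} (hI : IsConfiguration I n k) (hT : TrilateralFree I)
    (hn : n = k * (k - 1) ^ 2 + k) (hk3 : 3 ≤ k) (hG : ∀ (g : G) (p : P) (l : L), I (g • p) (g • l) ↔ I p l)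
    (hf : ∀ g : G, (∀ p : P, g • p = p) → g = 1)
    (hfl : ∀ (p q : P) (l m : L), I p l → I q m → ∃ g : G, g • p = q ∧ g • l = m)
    (N : Subgroup G) (hN : N.Normal) (hne : N ≠ ⊥) :
    ∃ m : ℕ, Length k m ∧ ∀ x : P, (MulAction.orbit N x).ncard = m := by
  classical
  have ht : ∀ p q : P, ∃ g : G, g • p = q := by
    intro p q
    obtain ⟨l1, h1⟩ := F2.ex_line hI hk3 p
    obtain ⟨l2, h2⟩ := F2.ex_line hI hk3 q
    obtain ⟨h, h3, -⟩ := hfl p q l1 l2 h1 h2
    exact ⟨h, h3⟩
  obtain ⟨b, hbN, hb1⟩ : ∃ b ∈ N, b ≠ 1 := (Subgroup.ne_bot_iff_exists_ne_one.1 hne).elim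
    fun b hb => ⟨b.1, b.2, fun h => hb (Subtype.ext h)⟩
  obtain ⟨x, hx⟩ : ∃ x : P, b • x ≠ x := by
    by_contra hcon
    push Not at hcon
    exact hb1 (hf b hcon)
  obtain ⟨e, r, a, m, he1, -, hm1, hnr, hkey, ha, hke, hm⟩ := R1.data hI hT hn hk3 hG hfl N x
  have hm2 : 1 < m := by
    rw [hm]
    exact (Set.one_lt_ncard_iff (Set.toFinite _)).2 ⟨b • x, x, ⟨⟨b, hbN⟩, rfl⟩, MulAction.mem_orbit_self x, hx⟩
  refine ⟨m, cls hk3 he1 (by rw [← hnr, hn]; ring) hkey ha hke hm2, fun y => ?_⟩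
  obtain ⟨g, rfl⟩ := ht x y
  have h1 : MulAction.orbit N (g • x) = (fun y : P => g • y) '' MulAction.orbit N x := by
    ext y
    simp only [Set.mem_image, MulAction.mem_orbit_iff]
    constructor
    · rintro ⟨⟨b, hb⟩, rfl⟩
      refine ⟨g⁻¹ • (⟨b, hb⟩ : N) • g • x, ⟨⟨g⁻¹ * b * g, ?_⟩, ?_⟩, smul_inv_smul _ _⟩
      · have := hN.conj_mem b hb g⁻¹
        rwa [inv_inv] at this
      · show (g⁻¹ * b * g) • x = g⁻¹ • b • g • x
        rw [mul_smul, mul_smul]
    · rintro ⟨z, ⟨⟨b, hb⟩, rfl⟩, rfl⟩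
      refine ⟨⟨g * b * g⁻¹, hN.conj_mem b hb g⟩, ?_⟩
      show (g * b * g⁻¹) • g • x = g • b • x
      rw [mul_smul, mul_smul, inv_smul_smul]
  rw [h1, Set.ncard_image_of_injective _ (MulAction.injective g), hm]

/-- The same for groups of pairs of permutations. -/
theorem all {P L : Type*} (I : P → L → Prop) (n k : ℕ) (hI : IsConfiguration I n k)
    (hT : TrilateralFree I) (hn : n = k * (k - 1) ^ 2 + k) (hk : 3 ≤ k)
    (G : Subgroup (Equiv.Perm P × Equiv.Perm L)) (hG : G ≤ Aut.autGroup I)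
    (hfl : ∀ (p q : P) (l m : L), I p l → I q m → ∃ g ∈ G, g.1 p = q ∧ g.2 l = m)
    (N : Subgroup G) (hN : N.Normal) (hne : N ≠ ⊥) :
    (∃ m : ℕ, Length k m ∧ ∀ x : P, {y | ∃ g ∈ N, g.1.1 x = y}.ncard = m) ∧
    ∃ m : ℕ, Length k m ∧ ∀ l : L, {j | ∃ g ∈ N, g.1.2 l = j}.ncard = m := by
  classical
  have : Finite P := Nat.finite_of_card_ne_zero (by rw [hI.card_points]; omega)
  have : Finite L := Nat.finite_of_card_ne_zero (by rw [hI.card_lines]; omega)
  let i1 : MulAction G P :=
    MulAction.compHom P ((MonoidHom.fst (Equiv.Perm P) (Equiv.Perm L)).comp G.subtype)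
  let i2 : MulAction G L :=
    MulAction.compHom L ((MonoidHom.snd (Equiv.Perm P) (Equiv.Perm L)).comp G.subtype)
  have hG' : ∀ g ∈ G, ∀ p l, I (g.1 p) (g.2 l) ↔ I p l := fun g hg => hG hg
  have a2 : ∀ g : G, (∀ p : P, g • p = p) → g = 1 := by
    intro g hg
    have h1 : ∀ p, g.1.1 p = p := fun p => hg p
    have h2 : ∀ l, g.1.2 l = l := by
      intro l
      by_contra hl
      have h3 : ∀ p, I p l → I p (g.1.2 l) := by
        intro p hpl
        have := (hG' g.1 g.2 p l).2 hpl
        rwa [h1] at this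
      have h4 : 1 < {p | I p l}.ncard := by rw [hI.card_on_line]; omega
      obtain ⟨p, q, hp1, hq1, hpq⟩ := (Set.one_lt_ncard_iff).1 h4
      exact hl (hI.unique_line p q (g.1.2 l) l hpq (h3 p hp1) (h3 q hq1) hp1 hq1)
    apply Subtype.ext
    apply Prod.ext
    · exact Equiv.ext h1
    · exact Equiv.ext h2
  have a3 : ∀ g : G, (∀ l : L, g • l = l) → g = 1 := by
    intro g hg
    refine a2 g fun p => ?_
    have h1 : 1 < {l | I p l}.ncard := by rw [hI.card_through_point]; omega
    obtain ⟨l, m, hl, hm, hlm⟩ := (Set.one_lt_ncard_iff).1 h1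
    by_contra hp
    have h2 : I (g • p) l := by
      have := (hG' g.1 g.2 p l).2 hl
      rwa [show g.1.2 l = l from hg l] at this
    have h3 : I (g • p) m := by
      have := (hG' g.1 g.2 p m).2 hm
      rwa [show g.1.2 m = m from hg m] at this
    exact hlm (hI.unique_line (g • p) p l m hp h2 hl h3 hm)
  have b1 : ∀ (p q : P) (l m : L), I p l → I q m → ∃ g : G, g • p = q ∧ g • l = m := by
    intro p q l m hpl hqm
    obtain ⟨g, hg, h1, h2⟩ := hfl p q l m hpl hqm
    exact ⟨⟨g, hg⟩, h1, h2⟩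
  obtain ⟨hI', hT'⟩ := Aut.dualize I n k hI hT
  constructor
  · obtain ⟨m, hm, h⟩ := orbits hI hT hn hk (fun g p l => hG' g.1 g.2 p l) a2 b1 N hN hne
    refine ⟨m, hm, fun x => ?_⟩
    rw [← h x]
    congr 1
    ext y
    constructor
    · rintro ⟨g, hg, h1⟩
      exact ⟨⟨g, hg⟩, h1⟩
    · rintro ⟨⟨g, hg⟩, h1⟩
      exact ⟨g, hg, h1⟩
  · obtain ⟨m, hm, h⟩ := orbits (I := fun l p => I p l) hI' hT' hn hk (fun g l p => hG' g.1 g.2 p l) a3
      (fun l m p q h1 h2 => (b1 p q l m h1 h2).imp fun g hg => ⟨hg.2, hg.1⟩) N hN hne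
    refine ⟨m, hm, fun x => ?_⟩
    rw [← h x]
    congr 1
    ext y
    constructor
    · rintro ⟨g, hg, h1⟩
      exact ⟨⟨g, hg⟩, h1⟩
    · rintro ⟨⟨g, hg⟩, h1⟩
      exact ⟨g, hg, h1⟩

end Pool.Agent.Lib.MP_e0c1ed_co.R4
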