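import Pool.Agent.Lib.MP_e0c1ed_co.Rad
import Pool.Agent.Lib.MP_e0c1ed_co.E4
import Pool.Agent.Lib.MP_e0c1ed_co.Cen

/-!
# MP_e0c1ed / Rad2: the order, and the centralizer of the derived subgroup, of a transitive group
-/

set_option autoImplicit false

namespace Pool.Agent.Lib.MP_e0c1ed_co.Rad2

open Pool.Agent.Results.MP_e0c1ed_co.SelfDualSquare Pool.Agent.Lib.MP_e0c1ed_co Pool.Agent.Lib.MP_e0c1ed_co.Tr

private theorem half {P L : Type*} [Finite P] [Finite L] (I : P → L → Prop) (n k : ℕ)
    (hI : IsConfiguration I n k) (hT : TrilateralFree I) (hn : n = k * (k - 1) ^ 2 + k) (hodd : Odd k)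
    (hk : 3 ≤ k) (G : Subgroup (Equiv.Perm P × Equiv.Perm L)) (hG : ∀ g ∈ G, ∀ p l, I (g.1 p) (g.2 l) ↔ I p l)
    (ht : ∀ p q : P, ∃ g ∈ G, g.1 p = q) :
    (k % 4 = 3 → Even (Nat.card G) ∧ ¬ Group.IsSolvable G) ∧
      Subgroup.centralizer ((commutator G : Subgroup G) : Set G) = ⊥ := by
  classical
  let i1 : MulAction G P :=
    MulAction.compHom P ((MonoidHom.fst (Equiv.Perm P) (Equiv.Perm L)).comp G.subtype)
  let i2 : MulAction G L :=
    MulAction.compHom L ((MonoidHom.snd (Equiv.Perm P) (Equiv.Perm L)).comp G.subtype)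
  have e1 : ∀ (g : G) (p : P), g • p = g.1.1 p := fun g p => rfl
  have e2 : ∀ (g : G) (l : L), g • l = g.1.2 l := fun g l => rfl
  have a1 : ∀ (g : G) (p : P) (l : L), I (g • p) (g • l) ↔ I p l := by
    intro g p l
    rw [e1, e2]
    exact hG g.1 g.2 p l
  have a2 : ∀ g : G, (∀ p : P, g • p = p) → g = 1 := by
    intro g hg
    have h1 : ∀ p, g.1.1 p = p := fun p => hg p
    have h2 : ∀ l, g.1.2 l = l := by
      intro l
      by_contra hl
      have h3 : ∀ p, I p l → I p (g.1.2 l) := by
        intro p hpl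
        have := (hG g.1 g.2 p l).2 hpl
        rwa [h1] at this
      have h4 : 1 < {p | I p l}.ncard := by rw [hI.card_on_line]; omega
      obtain ⟨p, q, hp1, hq1, hpq⟩ := (Set.one_lt_ncard_iff).1 h4
      exact hl (hI.unique_line p q (g.1.2 l) l hpq (h3 p hp1) (h3 q hq1) hp1 hq1)
    apply Subtype.ext
    apply Prod.ext
    · exact Equiv.ext h1
    · exact Equiv.ext h2
  have a3 : ∀ p q : P, ∃ g : G, g • p = q := by
    intro p q
    obtain ⟨g, hg, hgp⟩ := ht p q
    exact ⟨⟨g, hg⟩, hgp⟩
  exact ⟨fun hk4 => E4.even_not_solvable hI hT hn hk4 a1 a3,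
    Cen.main hI hT hn (Nat.odd_iff.1 hodd) hk a1 a2 a3⟩

/-- an isomorphism maps the derived subgroup into the derived subgroup -/
theorem map_mem_commutator {A B : Type*} [Group A] [Group B] (e : A ≃* B) {y : A} (hy : y ∈ commutator A) :
    e y ∈ commutator B := by
  have h1 : e y ∈ (commutator A).map e.toMonoidHom := ⟨y, hy, rfl⟩
  have h2 : (commutator A).map e.toMonoidHom ≤ commutator B := by
    rw [commutator_def, commutator_def, Subgroup.map_commutator]
    exact Subgroup.commutator_mono le_top le_top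
  exact h2 h1

/-- the centralizer of the derived subgroup is trivial if it is so in an isomorphic group -/
theorem centralizer_of_equiv {A B : Type*} [Group A] [Group B] (e : A ≃* B)
    (h : Subgroup.centralizer ((commutator B : Subgroup B) : Set B) = ⊥) :
    Subgroup.centralizer ((commutator A : Subgroup A) : Set A) = ⊥ := by
  rw [Subgroup.eq_bot_iff_forall] at h ⊢
  intro x hx
  rw [Subgroup.mem_centralizer_iff] at hx
  have h1 : e x = 1 := by
    apply h
    rw [Subgroup.mem_centralizer_iff]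
    intro y hy
    have h2 : e.symm y ∈ commutator A := map_mem_commutator e.symm hy
    have h3 := congrArg e (hx _ h2)
    rwa [map_mul, map_mul, MulEquiv.apply_symm_apply] at h3
  exact (map_eq_one_iff e e.injective).1 h1

/-- Let `k ≥ 3` be odd, `I` a trilateral-free configuration `(n_k)` with `n = k (k - 1)² + k`, and `G` a group of
automorphisms of `I`, transitive on the points or on the lines. If `k ≡ 3` modulo `4`, then `G` has even order and is
not solvable. The centralizer of the derived subgroup of `G` is trivial. -/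
theorem order_and_centralizer {P L : Type*} (I : P → L → Prop) (n k : ℕ) (hI : IsConfiguration I n k)
    (hT : TrilateralFree I) (hn : n = k * (k - 1) ^ 2 + k) (hodd : Odd k) (hk : 3 ≤ k)
    (G : Subgroup (Equiv.Perm P × Equiv.Perm L)) (hG : G ≤ autGroup I)
    (ht : (∀ p q : P, ∃ g ∈ G, g.1 p = q) ∨ (∀ l m : L, ∃ g ∈ G, g.2 l = m)) :
    (k % 4 = 3 → Even (Nat.card G) ∧ ¬ Group.IsSolvable G) ∧
      Subgroup.centralizer ((commutator G : Subgroup G) : Set G) = ⊥ := by
  classical
  have : Finite P := Nat.finite_of_card_ne_zero (by rw [hI.card_points]; omega)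
  have : Finite L := Nat.finite_of_card_ne_zero (by rw [hI.card_lines]; omega)
  rcases ht with ht | ht
  · exact half I n k hI hT hn hodd hk G (fun g hg => hG hg) ht
  · obtain ⟨hI', hT'⟩ := dualize I n k hI hT
    let sw : Equiv.Perm P × Equiv.Perm L ≃* Equiv.Perm L × Equiv.Perm P := MulEquiv.prodComm
    let G' : Subgroup (Equiv.Perm L × Equiv.Perm P) := G.map sw.toMonoidHom
    let e : G ≃* G' := G.equivMapOfInjective sw.toMonoidHom sw.injective
    obtain ⟨h3, h4⟩ := half (fun l p => I p l) n k hI' hT' hn hodd hk G' (by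
      rintro _ ⟨g, hg, rfl⟩ l p
      exact hG hg p l) (by
      intro l m
      obtain ⟨g, hg, hgl⟩ := ht l m
      exact ⟨sw g, ⟨g, hg, rfl⟩, hgl⟩)
    refine ⟨fun hk4 => ?_, centralizer_of_equiv e h4⟩
    obtain ⟨h5, h6⟩ := h3 hk4
    refine ⟨?_, fun h => h6 (Group.isSolvable_of_surjective (f := e.toMonoidHom) e.surjective)⟩
    rw [Nat.card_congr e.toEquiv]
    exact h5

end Pool.Agent.Lib.MP_e0c1ed_co.Rad2
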