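import Mathlib

/-!
# MP_e0c1ed / Syl: sets invariant under a Sylow subgroup of a transitive group
-/

set_option autoImplicit false

namespace Pool.Agent.Lib.MP_e0c1ed_co.Syl

/-- Let `G` be transitive on `P`, `r` a prime divisor of `|P|` and `R` a Sylow `r`-subgroup of `G`. Then every
`R`-invariant subset of `P` has size divisible by `r`. -/
theorem dvd_inv {G P : Type*} [Group G] [Finite G] [MulAction G P] [Finite P] (ht : ∀ x y : P, ∃ g : G, g • x = y)
    (r : ℕ) [Fact r.Prime] (hr : r ∣ Nat.card P) (R : Sylow r G) (A : Set P)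
    (hA : ∀ g ∈ R, ∀ x ∈ A, g • x ∈ A) : r ∣ A.ncard := by
  classical
  let act : MulAction (R : Subgroup G) A :=
    { smul := fun g x => ⟨(g : G) • (x : P), hA g g.2 x x.2⟩
      one_smul := fun x => Subtype.ext (one_smul G (x : P))
      mul_smul := fun g h x => Subtype.ext (mul_smul (g : G) (h : G) (x : P)) }
  have hpg : IsPGroup r (R : Subgroup G) := R.isPGroup'
  have h1 := hpg.card_modEq_card_fixedPoints A
  have h2 : IsEmpty (MulAction.fixedPoints (R : Subgroup G) A) := by
    constructor
    rintro ⟨x, hx⟩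
    have h3 : (R : Subgroup G) ≤ MulAction.stabilizer G (x : P) := by
      intro g hg
      rw [MulAction.mem_stabilizer_iff]
      exact congrArg Subtype.val (hx ⟨g, hg⟩)
    have : MulAction.IsPretransitive G P := ⟨ht⟩
    have h4 : (MulAction.stabilizer G (x : P)).index = Nat.card P :=
      MulAction.index_stabilizer_of_transitive G (x : P)
    have h5 : (MulAction.stabilizer G (x : P)).index ∣ (R : Subgroup G).index := Subgroup.index_dvd_of_le h3
    rw [h4] at h5
    exact R.not_dvd_index (hr.trans h5)
  have h3 : Nat.card (MulAction.fixedPoints (R : Subgroup G) A) = 0 := Nat.card_of_isEmpty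
  rw [h3] at h1
  rw [← Nat.card_coe_set_eq]
  exact (Nat.modEq_zero_iff_dvd).1 h1

end Pool.Agent.Lib.MP_e0c1ed_co.Syl
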