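import Pool.Agent.Lib.MP_e0c1ed_co.TransRad

/-!
# Point-transitive groups of extremal trilateral-free configurations: no solvable normal subgroup
-/

set_option autoImplicit false

namespace Pool.Agent.Lib.MP_e0c1ed_co

open Pool.Agent.Results.MP_e0c1ed_co.SelfDualSquare

theorem double_count {α β : Type*} [Fintype α] [Fintype β] (R : α → β → Prop) :
    ∑ a, {b | R a b}.ncard = ∑ b, {a | R a b}.ncard := by
  classical
  have h1 : ∀ a, {b | R a b}.ncard = ∑ b, if R a b then 1 else 0 := by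
    intro a
    rw [Set.ncard_eq_toFinset_card', ← Finset.card_filter]
    congr 1
    ext; simp
  have h2 : ∀ b, {a | R a b}.ncard = ∑ a, if R a b then 1 else 0 := by
    intro b
    rw [Set.ncard_eq_toFinset_card', ← Finset.card_filter]
    congr 1
    ext; simp
  rw [Finset.sum_congr rfl (fun a _ => h1 a), Finset.sum_congr rfl (fun b _ => h2 b), Finset.sum_comm]

section

variable {P L : Type*} [Finite P] [Finite L] {I : P → L → Prop} {n k : ℕ}
variable {G : Type*} [Group G] [Finite G] [MulAction G P] [MulAction G L]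

omit [Finite P] [Finite G] in
theorem normal_fix (hf : ∀ g : G, (∀ x : P, g • x = x) → g = 1)
    (ht : ∀ x y : P, ∃ g : G, g • x = y) (B : Subgroup G) [hB : B.Normal] (x : P)
    (hx : ∀ b ∈ B, b • x = x) : B = ⊥ := by
  rw [Subgroup.eq_bot_iff_forall]
  intro b hb
  apply hf
  intro y
  obtain ⟨g, rfl⟩ := ht x y
  have h1 := hx (g⁻¹ * b * g) (by simpa using hB.conj_mem b hb g⁻¹)
  have h2 : b • g • x = g • (g⁻¹ * b * g) • x := by
    simp only [smul_smul]; congr 1; group
  rw [h2, h1]

/-- the arithmetic of the case of exponent `s² + 1` -/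
theorem arith_p (t j : ℕ) (z : ℤ) (ht : 1 ≤ t) (hj : j ≤ 2 * t + 1)
    (h : (((2 * t) ^ 2 + 1 : ℕ) : ℤ) * j = ((2 * t + 1 : ℕ) : ℤ) ^ 2 + 2 * (((2 * t + 1 : ℕ) : ℤ) - 1) * z) :
    j = 1 := by
  push_cast at h
  have h1 : (j : ℤ) - 1 = 4 * t * (t + 1 + z - t * j) := by linear_combination h
  have ht' : (1 : ℤ) ≤ t := by exact_mod_cast ht
  have hj' : (j : ℤ) ≤ 2 * t + 1 := by exact_mod_cast hj
  have hj0 : (0 : ℤ) ≤ j := Int.natCast_nonneg j
  rcases lt_trichotomy ((t : ℤ) + 1 + z - t * j) 0 with h2 | h2 | h2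
  · exfalso
    nlinarith
  · rw [h2, mul_zero] at h1
    have : (j : ℤ) = 1 := by linarith
    exact_mod_cast this
  · exfalso
    nlinarith

/-- no normal subgroup of exponent `(k - 1)² + 1` -/
theorem case_p (hI : IsConfiguration I n k) (hT : TrilateralFree I) (hn : n = k * (k - 1) ^ 2 + k)
    (hk3 : 3 ≤ k) (hodd : Odd k) (hpp : ((k - 1) ^ 2 + 1).Prime)
    (hG : ∀ (g : G) (p : P) (l : L), I (g • p) (g • l) ↔ I p l)
    (hf : ∀ g : G, (∀ x : P, g • x = x) → g = 1) (ht : ∀ x y : P, ∃ g : G, g • x = y)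
    (B : Subgroup G) [hB : B.Normal] (hne : B ≠ ⊥) (hexp : ∀ b ∈ B, b ^ ((k - 1) ^ 2 + 1) = 1) :
    False := by
  classical
  have : Fintype P := Fintype.ofFinite P
  obtain ⟨t, hkt⟩ := hodd
  have ht1 : 1 ≤ t := by omega
  set p := (k - 1) ^ 2 + 1 with hp
  have := Fact.mk hpp
  have hp' : p = (2 * t) ^ 2 + 1 := by rw [hp, hkt]; rfl
  have hk2 : 2 ≤ k := by omega
  have hnp : n = k * p := by rw [hn, hp]; ring
  have hkltp : k < p := by rw [hp', hkt]; nlinarith
  have hcardP : Nat.card P = n := hI.card_points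
  have hfree : ∀ b ∈ B, b ≠ 1 → ∀ x : P, b • x ≠ x := by
    intro b hb hb1 x hx
    exact hb1 (hf b (fun y => point_fixed hI hT hn hk2 hG p hkltp b (hexp b hb) x hx y))
  obtain ⟨x0⟩ : Nonempty P := by
    rw [← Finite.card_pos_iff, hcardP, hnp]
    exact Nat.mul_pos (by omega) (by omega)
  -- the number of points moved to collinear points
  have hg : ∀ b ∈ B, b ≠ 1 → {x : P | b • x ≠ x ∧ ∃ l, I x l ∧ I (b • x) l}.ncard = p := by
    intro b hb hb1
    have h1 := set_modEq b p (hexp b hb) {x : P | b • x ≠ x ∧ ∃ l, I x l ∧ I (b • x) l}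
      (fun x hx => moved_inv hG b b rfl x hx)
    have h2 : {x ∈ {x : P | b • x ≠ x ∧ ∃ l, I x l ∧ I (b • x) l} | b • x = x} = ∅ := by
      ext x
      simp only [Set.mem_ofPred_eq, Set.mem_empty_iff_false, iff_false]
      exact fun h => h.1.1 h.2
    rw [h2, Set.ncard_empty, Nat.modEq_zero_iff_dvd] at h1
    obtain ⟨j, hj⟩ := h1
    obtain ⟨z, hz⟩ := benson_act hI hT hn hk2 hG b
    have h3 : {x : P | b • x = x} = ∅ := by
      ext x
      simp only [Set.mem_ofPred_eq, Set.mem_empty_iff_false, iff_false]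
      exact hfree b hb hb1 x
    rw [h3, Set.ncard_empty, hj] at hz
    have hjk : j ≤ k := by
      have h4 : p * j ≤ Nat.card P := by
        rw [← hj]
        exact Set.ncard_le_card _
      rw [hcardP, hnp, mul_comm k p] at h4
      exact Nat.le_of_mul_le_mul_left h4 (by omega)
    have h5 : j = 1 := by
      apply arith_p t j z ht1 (by omega)
      rw [← hp', ← hkt]
      push_cast at hz ⊢
      linarith
    rw [hj, h5, mul_one]
  -- double counting
  set R : B → P → Prop := fun b x => b.1 • x ≠ x ∧ ∃ l, I x l ∧ I (b.1 • x) l with hR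
  have : Fintype B := Fintype.ofFinite B
  have hdc := double_count R
  have hL : ∑ b : B, {x | R b x}.ncard = (Nat.card B - 1) * p := by
    rw [← Finset.sum_erase_add _ _ (Finset.mem_univ (1 : B))]
    have h1 : {x | R 1 x}.ncard = 0 := by
      have : {x : P | R 1 x} = ∅ := by
        ext x
        simp [hR]
      rw [this, Set.ncard_empty]
    rw [h1, add_zero, Finset.sum_congr rfl (fun b hb => hg b.1 b.2 (fun h => (Finset.mem_erase.1 hb).1
      (Subtype.ext h))), Finset.sum_const, Finset.card_erase_of_mem (Finset.mem_univ _), smul_eq_mul,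
      Finset.card_univ, Nat.card_eq_fintype_card]
  have hconst : ∀ x : P, {b | R b x}.ncard = {b | R b x0}.ncard := by
    intro x
    obtain ⟨g, rfl⟩ := ht x0 x
    rw [← Nat.card_coe_set_eq, ← Nat.card_coe_set_eq]
    symm
    apply Nat.card_congr
    refine Equiv.subtypeEquiv (MulAut.conjNormal g : MulAut B).toEquiv ?_
    intro b
    have h1 : ((MulAut.conjNormal g : MulAut B).toEquiv b).1 • g • x0 = g • b.1 • x0 := by
      change ((MulAut.conjNormal g b : B) : G) • g • x0 = _
      rw [MulAut.conjNormal_apply]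
      simp only [smul_smul]
      congr 1
      group
    change (b.1 • x0 ≠ x0 ∧ ∃ l, I x0 l ∧ I (b.1 • x0) l) ↔
      (((MulAut.conjNormal g : MulAut B).toEquiv b).1 • g • x0 ≠ g • x0 ∧
        ∃ l, I (g • x0) l ∧ I (((MulAut.conjNormal g : MulAut B).toEquiv b).1 • g • x0) l)
    rw [h1]
    constructor
    · rintro ⟨h2, l, h3, h4⟩
      exact ⟨fun h5 => h2 (smul_left_cancel g h5), g • l, (hG _ _ _).2 h3, (hG _ _ _).2 h4⟩
    · rintro ⟨h2, l, h3, h4⟩
      refine ⟨fun h5 => h2 (by rw [h5]), g⁻¹ • l, ?_, ?_⟩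
      · rw [← hG g, smul_inv_smul]; exact h3
      · rw [← hG g, smul_inv_smul]; exact h4
  have hRt : ∑ x : P, {b | R b x}.ncard = n * {b | R b x0}.ncard := by
    rw [Finset.sum_congr rfl (fun x _ => hconst x), Finset.sum_const, smul_eq_mul, Finset.card_univ,
      ← Nat.card_eq_fintype_card, hcardP]
  rw [hL, hRt, hnp] at hdc
  -- the order of B
  have hinj : Function.Injective (fun b : B => b.1 • x0) := by
    intro a b hab
    by_contra hne'
    apply hfree (b.1⁻¹ * a.1) (B.mul_mem (B.inv_mem b.2) a.2) ?_ x0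
    · rw [mul_smul]
      change b.1⁻¹ • (fun b : B => b.1 • x0) a = x0
      rw [hab, inv_smul_smul]
    · intro h
      apply hne'
      apply Subtype.ext
      rw [inv_mul_eq_one] at h
      exact h.symm
  have hcB : Nat.card B ≤ k * p := by
    rw [← hnp, ← hcardP]
    exact Nat.card_le_card_of_injective _ hinj
  have hPB : IsPGroup p B := by
    intro b
    exact ⟨1, by rw [pow_one]; exact Subtype.ext (hexp b.1 b.2)⟩
  obtain ⟨a, ha⟩ := IsPGroup.iff_card.1 hPB
  have ha1 : a = 1 := by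
    rcases Nat.lt_or_ge a 1 with h | h
    · exfalso
      have : a = 0 := by omega
      rw [this, pow_zero] at ha
      exact hne (Subgroup.card_eq_one.1 ha)
    · rcases Nat.lt_or_ge a 2 with h2 | h2
      · omega
      · exfalso
        have h3 : p ^ 2 ≤ p ^ a := Nat.pow_le_pow_right (by omega) h2
        have h4 : k * p < p ^ 2 := by rw [pow_two]; exact Nat.mul_lt_mul_of_pos_right hkltp (by omega)
        omega
  rw [ha, ha1, pow_one] at hdc
  have h6 : p - 1 = k * {b | R b x0}.ncard := by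
    have h7 : (p - 1) * p = (k * {b | R b x0}.ncard) * p := by rw [hdc]; ring
    exact Nat.eq_of_mul_eq_mul_right (by omega) h7
  have h8 : k ∣ (2 * t) ^ 2 := by
    rw [hp'] at h6
    exact ⟨_, by simpa using h6⟩
  have h9 : k ∣ 1 := by
    have h10 : k ∣ (2 * t + 1) * (2 * t - 1) := by rw [← hkt]; exact dvd_mul_right _ _
    have h11 : (2 * t) ^ 2 = (2 * t + 1) * (2 * t - 1) + 1 := by
      obtain ⟨u, hu⟩ : ∃ u, 2 * t = u + 1 := ⟨2 * t - 1, by omega⟩
      rw [hu, Nat.add_sub_cancel]
      ring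
    rw [h11] at h8
    exact (Nat.dvd_add_right h10).1 h8
  have := Nat.le_of_dvd (by omega) h9
  omega

end

end Pool.Agent.Lib.MP_e0c1ed_co
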