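import Pool.Agent.Lib.MP_e0c1ed_co.Norm
import Pool.Agent.Lib.MP_e0c1ed_co.Gal

/-!
# MP_e0c1ed / Ub: both projections, averaged over a normal subgroup
-/

set_option autoImplicit false

namespace Pool.Agent.Lib.MP_e0c1ed_co.Ub

open Finset Pool.Agent.Results.MP_e0c1ed_co.SelfDualSquare Bens Grp Orb Norm

section
variable {P B : Type*} [Fintype P] [DecidableEq P] [Group B] [MulAction B P]

/-- the average of an invariant idempotent kernel is an idempotent matrix -/
theorem average_gen [Fintype B] (Φ : P → P → ℚ) (hΦ : ∀ p r, ∑ q, Φ p q * Φ q r = Φ p r)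
    (hinv : ∀ (b : B) p q, Φ (b • p) (b • q) = Φ p q) :
    ∃ a : ℕ, ∑ b : B, ∑ x, Φ x (b • x) = Fintype.card B * (a : ℚ) := by
  have hB : (Fintype.card B : ℚ) ≠ 0 := by
    exact_mod_cast Fintype.card_ne_zero
  set T : B → Matrix P P ℚ := fun b => Matrix.of fun x y => Φ x (b • y) with hT
  have hmul : ∀ b c, T b * T c = T (b * c) := by
    intro b c
    ext x y
    rw [Matrix.mul_apply]
    have h1 : ∀ z, T b x z * T c z y = Φ x (b • z) * Φ (b • z) ((b * c) • y) := by
      intro z
      show Φ x (b • z) * Φ z (c • y) = _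
      rw [mul_smul, hinv]
    rw [Finset.sum_congr rfl (fun z _ => h1 z)]
    exact (Equiv.sum_comp (MulAction.toPerm b : Equiv.Perm P)
      (fun z => Φ x z * Φ z ((b * c) • y))).trans (hΦ _ _)
  set E : Matrix P P ℚ := (1 / (Fintype.card B : ℚ)) • ∑ b : B, T b with hE
  have hEE : E * E = E := by
    rw [hE, Matrix.smul_mul, Matrix.mul_smul, Finset.sum_mul_sum]
    have h1 : ∀ b : B, ∑ c : B, T b * T c = ∑ c : B, T c := by
      intro b
      rw [← Equiv.sum_comp (Equiv.mulLeft b) (fun c => T c)]
      exact Finset.sum_congr rfl fun c _ => hmul b c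
    rw [Finset.sum_congr rfl (fun b _ => h1 b), Finset.sum_const, Finset.card_univ, smul_smul, ← Nat.cast_smul_eq_nsmul ℚ,
      smul_smul]
    congr 1
    field_simp
  obtain ⟨a, ha⟩ := Gal.trace_idem E hEE
  refine ⟨a, ?_⟩
  have h2 : E.trace = (1 / (Fintype.card B : ℚ)) * ∑ b : B, ∑ x, Φ x (b • x) := by
    rw [hE, Matrix.trace_smul, Matrix.trace_sum, smul_eq_mul]
    rfl
  rw [ha, one_div, eq_comm, inv_mul_eq_iff_eq_mul₀ hB] at h2
  exact h2

end

section
variable {P L G : Type*} [Fintype P] [Fintype L] [DecidableEq P] [Group G] [MulAction G P] [MulAction G L]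
  {I : P → L → Prop} {n k : ℕ}

theorem F_sum_right (hI : IsConfiguration I n k) (hn0 : (n : ℚ) ≠ 0) (p : P) : ∑ q, F I n k p q = 0 := by
  unfold F
  rw [← Finset.sum_div, Finset.sum_sub_distrib, S_sum_right hI, Finset.sum_const, Finset.card_univ, nsmul_eq_mul,
    ← Nat.card_eq_fintype_card, hI.card_points, mul_div_cancel₀ _ hn0, sub_self, zero_div]

/-- the projection onto the eigenspace for `-k` -/
noncomputable def H (I : P → L → Prop) (n k : ℕ) (p q : P) : ℚ := (if p = q then 1 else 0) - 1 / n - F I n k p q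

theorem HH (hI : IsConfiguration I n k) (hT : TrilateralFree I) (hn : n = k * (k - 1) ^ 2 + k) (hk : 2 ≤ k) (p r : P) :
    ∑ q, H I n k p q * H I n k q r = H I n k p r := by
  have hn0 : (n : ℚ) ≠ 0 := n_ne hn hk
  have hcard : (Fintype.card P : ℚ) = n := by
    rw [← Nat.card_eq_fintype_card, hI.card_points]
  have h1 : ∀ q, H I n k p q * H I n k q r = (if p = q then H I n k q r else 0) - 1 / n * (if q = r then 1 else 0)
      + (1 / n) ^ 2 + 1 / n * F I n k q r - (if q = r then F I n k p q else 0) + 1 / n * F I n k p q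
      + F I n k p q * F I n k q r := by
    intro q
    unfold H
    split_ifs <;> ring
  have h2 : ∑ q, F I n k q r = 0 := by
    have h3 : ∀ q, F I n k q r = F I n k r q := by
      intro q
      unfold F
      rw [S_comm]
    rw [Finset.sum_congr rfl (fun q _ => h3 q)]
    exact F_sum_right hI hn0 r
  rw [Finset.sum_congr rfl (fun q _ => h1 q)]
  simp only [Finset.sum_add_distrib, Finset.sum_sub_distrib, ← Finset.mul_sum]
  rw [F_sum_right hI hn0, h2, FF hI hT hn hk, Finset.sum_const, Finset.card_univ, nsmul_eq_mul, hcard]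
  simp only [Finset.sum_ite_eq, Finset.sum_ite_eq', Finset.mem_univ, if_true]
  unfold H
  field_simp
  ring

/-- The data of the orbits of a normal subgroup. -/
theorem orbit_data [Finite G] (hI : IsConfiguration I n k) (hT : TrilateralFree I) (hn : n = k * (k - 1) ^ 2 + k)
    (hk : 2 ≤ k) (hinv : ∀ (g : G) x l, I x l → I (g • x) (g • l))
    (htrans : ∀ x y : P, ∃ g : G, g • x = y) (N : Subgroup G) [N.Normal] [Fintype N] (x : P) :
    ∃ (σ m c a r : ℕ), σ = (univ.filter fun b : N => b • x = x).card ∧ m = (MulAction.orbit N x).ncard ∧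
      Fintype.card N = σ * m ∧ 1 ≤ m ∧ c ≤ m - 1 ∧ n = r * m ∧ n * (k + c) = m * (k ^ 2 + (2 * k - 2) * a) ∧ a + 1 ≤ r ∧
      ∑ b : N, ∑ y, S I y (b • y) = (n : ℚ) * (σ * (k + c)) := by
  classical
  have hinvN : ∀ (b : N) x l, I x l → I (b • x) (b • l) := fun b x l h => hinv (b : G) x l h
  set O : Finset P := univ.image (fun b : N => b • x) with hO
  set σ : ℕ := (univ.filter fun b : N => b • x = x).card with hσ
  have hσ0 : (σ : ℚ) ≠ 0 := by
    have : 0 < σ := Finset.card_pos.2 ⟨1, by simp⟩
    exact_mod_cast this.ne'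
  have hOm : O.card = (MulAction.orbit N x).ncard := by
    rw [← Set.ncard_coe_finset]
    congr 1
    ext y
    simp [hO, MulAction.mem_orbit_iff]
  have hxO : x ∈ O := Finset.mem_image.2 ⟨1, Finset.mem_univ _, one_smul _ _⟩
  have hn0 : (n : ℚ) ≠ 0 := n_ne hn hk
  have hcardP : (Fintype.card P : ℚ) = n := by
    rw [← Nat.card_eq_fintype_card, hI.card_points]
  have hcard : (Fintype.card N : ℚ) = σ * O.card := by
    have := sum_orbit (B := N) x (fun _ => (1 : ℚ))
    simpa using this
  obtain ⟨a, ha⟩ := average (B := N) hI hT hn hk hinvN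
  rw [Finset.sum_comm] at ha
  have hS : ∀ y, ∑ b : N, S I y (b • y) = ∑ b : N, S I x (b • x) := by
    intro y
    obtain ⟨g, rfl⟩ := htrans x y
    exact conj_sum N (S I) (fun g p q => S_inv hinv g p q) g x
  have hSS : ∑ y, ∑ b : N, S I y (b • y) = n * (σ * ∑ y ∈ O, S I x y) := by
    rw [Finset.sum_congr rfl (fun y _ => hS y), Finset.sum_const, Finset.card_univ, nsmul_eq_mul, hcardP,
      sum_orbit (B := N) x (fun y => S I x y)]
  have h3 : ∀ y : P, ∑ b : N, (if y = b • y then (1 : ℚ) else 0) = σ := by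
    intro y
    obtain ⟨g, rfl⟩ := htrans x y
    have := conj_sum N (fun p q => if p = q then (1 : ℚ) else 0) (fun g p q => by simp) g x
    rw [this, Finset.sum_boole]
    congr 2
    ext b
    simp only [Finset.mem_filter, Finset.mem_univ, true_and]
    exact eq_comm
  have h4 : ∑ y : P, ∑ b : N, (if y = b • y then (1 : ℚ) else 0) = n * σ := by
    rw [Finset.sum_congr rfl (fun y _ => h3 y), Finset.sum_const, Finset.card_univ, nsmul_eq_mul, hcardP]
  obtain ⟨r, hr⟩ : ∃ r : ℕ, n = r * O.card := by
    have h1 := MulAction.sum_card_fixedBy_eq_card_orbits_mul_card_group N P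
    have h2 : ∀ b : N, (Fintype.card (MulAction.fixedBy P b) : ℚ) = ∑ y : P, if y = b • y then (1 : ℚ) else 0 := by
      intro b
      rw [Finset.sum_boole]
      congr 1
      rw [Fintype.card_subtype]
      congr 1
      ext y
      simp only [Finset.mem_filter, Finset.mem_univ, true_and]
      exact eq_comm
    refine ⟨Fintype.card (Quotient (MulAction.orbitRel N P)), ?_⟩
    have h5 : (n : ℚ) * σ = Fintype.card (Quotient (MulAction.orbitRel N P)) * (σ * O.card) := by
      rw [← h4, ← hcard, Finset.sum_comm, ← Finset.sum_congr rfl (fun b _ => h2 b)]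
      exact_mod_cast h1
    have h6 : (n : ℚ) = Fintype.card (Quotient (MulAction.orbitRel N P)) * O.card := by
      have h7 : (σ : ℚ) * n = σ * (Fintype.card (Quotient (MulAction.orbitRel N P)) * O.card) := by
        rw [mul_comm, h5]; ring
      exact mul_left_cancel₀ hσ0 h7
    exact_mod_cast h6
  set C : Finset P := (O.erase x).filter (fun y => ∃ l, I x l ∧ I y l) with hC
  have hsum : ∑ y ∈ O, S I x y = k + C.card := by
    rw [← Finset.add_sum_erase O _ hxO, S_self hI]
    congr 1
    have h1 : ∀ y ∈ O.erase x, S I x y = if ∃ l, I x l ∧ I y l then (1 : ℚ) else 0 := by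
      intro y hy
      have hxy : x ≠ y := fun h => (Finset.mem_erase.1 hy).1 h.symm
      split_ifs with h
      · obtain ⟨l, h2, h3⟩ := h
        exact S_col hI hxy h2 h3
      · exact S_ncol h
    rw [Finset.sum_congr rfl h1, Finset.sum_boole]
  have hCle : C.card ≤ O.card - 1 := by
    rw [← Finset.card_erase_of_mem hxO]
    exact Finset.card_filter_le _ _
  have hO1 : 1 ≤ O.card := Finset.card_pos.2 ⟨x, hxO⟩
  have hkey : n * (k + C.card) = O.card * (k ^ 2 + (2 * k - 2) * a) := by
    have h1 : (n : ℚ) * (k + C.card) = O.card * ((k : ℚ) ^ 2 + (2 * k - 2) * a) := by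
      rw [hSS, hsum, hcard] at ha
      have h2 : (σ : ℚ) * (n * (k + C.card)) = σ * (O.card * ((k : ℚ) ^ 2 + (2 * k - 2) * a)) := by
        linear_combination ha
      exact mul_left_cancel₀ hσ0 h2
    have h3 : ((2 * k - 2 : ℕ) : ℚ) = 2 * (k : ℚ) - 2 := by
      rw [Nat.cast_sub (by omega)]
      push_cast
      ring
    rw [← h3] at h1
    exact_mod_cast h1
  -- the second projection
  obtain ⟨a', ha'⟩ := average_gen (B := N) (H I n k) (HH hI hT hn hk) (by
    intro b p q
    unfold H
    rw [F_inv hinvN]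
    congr 2
    simp)
  have hle : a + 1 ≤ r := by
    have hk1 : (2 * (k : ℚ) - 2) ≠ 0 := by
      have : (2 : ℚ) ≤ k := by exact_mod_cast hk
      intro h
      linarith
    have h5 : ∑ b : N, ∑ y, H I n k y (b • y) = n * σ - Fintype.card N - Fintype.card N * a := by
      have h6 : ∀ b : N, ∀ y, H I n k y (b • y) = (if y = b • y then (1 : ℚ) else 0) - 1 / n -
          (S I y (b • y) - (k : ℚ) ^ 2 / n) / (2 * k - 2) := fun b y => rfl
      simp only [h6, Finset.sum_sub_distrib, ← Finset.sum_div]
      rw [Finset.sum_comm, h4, Finset.sum_comm (f := fun b y => S I y (b • y)), ha]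
      simp only [Finset.sum_const, Finset.card_univ, nsmul_eq_mul, hcardP]
      generalize 2 * (k : ℚ) - 2 = w at hk1 ⊢
      field_simp
      ring
    rw [h5] at ha'
    have h6 : (r : ℚ) = a' + 1 + a := by
      have h7 : (σ * O.card : ℚ) * r = σ * O.card * (a' + 1 + a) := by
        have h8 : (n : ℚ) = r * O.card := by exact_mod_cast hr
        rw [hcard, h8] at ha'
        linear_combination ha'
      have h9 : (σ * O.card : ℚ) ≠ 0 := mul_ne_zero hσ0 (by
        have : 0 < O.card := hO1
        exact_mod_cast this.ne')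
      exact mul_left_cancel₀ h9 h7
    have h7 : r = a' + 1 + a := by exact_mod_cast h6
    omega
  refine ⟨σ, O.card, C.card, a, r, rfl, hOm, by exact_mod_cast hcard, hO1, hCle, hr, hkey, hle, ?_⟩
  rw [Finset.sum_comm, hSS, hsum]

end

end Pool.Agent.Lib.MP_e0c1ed_co.Ub
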