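import Pool.Agent.Lib.MP_e0c1ed_co.Ub

/-!
# MP_e0c1ed / Upper: arithmetic conditions for the orbit length of a normal subgroup
-/

set_option autoImplicit false

namespace Pool.Agent.Lib.MP_e0c1ed_co.Upper

open Finset Pool.Agent.Results.MP_e0c1ed_co.SelfDualSquare Bens Grp Orb Norm Ub

theorem arith_mod (k n m c a r : ℕ) (hk : k % 2 = 1) (hk3 : 3 ≤ k) (hn : n = k * (k - 1) ^ 2 + k)
    (h1 : n * (k + c) = m * (k ^ 2 + (2 * k - 2) * a)) (h2 : n = r * m) (hm1 : 1 ≤ m) :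
    (2 * (k - 1)) ∣ (m - 1) + (2 * (k - 1) - c % (2 * (k - 1))) := by
  obtain ⟨t, rfl⟩ : ∃ t, k = 2 * t + 1 := ⟨k / 2, by omega⟩
  have hmo : m % 2 = 1 := by
    have hno : n % 2 = 1 := by
      rw [hn]
      have : (2 * t + 1) - 1 = 2 * t := by omega
      rw [this, Nat.add_mod, Nat.mul_mod, Nat.pow_mod]
      simp
    rcases Nat.mod_two_eq_zero_or_one m with h | h
    · rw [h2, Nat.mul_mod, h] at hno
      simp at hno
    · exact h
  obtain ⟨u, rfl⟩ : ∃ u, m = 2 * u + 1 := ⟨m / 2, by omega⟩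
  have h3 : ((2 * t + 1 : ℤ) * (2 * t) ^ 2 + (2 * t + 1)) * (2 * t + 1 + c) =
      (2 * u + 1) * ((2 * t + 1) ^ 2 + 4 * t * a) := by
    have h4 : (2 * t + 1) - 1 = 2 * t := by omega
    have h5 : 2 * (2 * t + 1) - 2 = 4 * t := by omega
    rw [hn, h4, h5] at h1
    exact_mod_cast h1
  have h6 : (4 * t : ℤ) ∣ (c : ℤ) - 2 * u :=
    ⟨u + (2 * t + 1) * (2 * u + 1) * (t + 1 + a) - (2 * t + 1 + 4 * t ^ 2 * (t + 1)) * (2 * t + 1 + c), by
      linear_combination (2 * t + 1) * h3⟩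
  have h7 : 2 * (2 * t + 1 - 1) = 4 * t := by omega
  have h8 : 2 * u + 1 - 1 = 2 * u := by omega
  rw [h7, h8]
  have h9 : c % (4 * t) < 4 * t := Nat.mod_lt _ (by omega)
  have h10 : ((2 * u + (4 * t - c % (4 * t)) : ℕ) : ℤ) = 2 * u + (4 * t - ((c % (4 * t) : ℕ) : ℤ)) := by
    rw [Nat.cast_add, Nat.cast_sub h9.le]
    push_cast
    ring
  have h11 : (4 * t : ℤ) ∣ ((2 * u + (4 * t - c % (4 * t)) : ℕ) : ℤ) := by
    rw [h10]
    have h12 : (c : ℤ) = 4 * t * ((c / (4 * t) : ℕ) : ℤ) + ((c % (4 * t) : ℕ) : ℤ) := by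
      have := Nat.div_add_mod c (4 * t)
      exact_mod_cast this.symm
    obtain ⟨W, hW⟩ := h6
    exact ⟨((c / (4 * t) : ℕ) : ℤ) + 1 - W, by linear_combination -hW + h12⟩
  exact_mod_cast h11

/-- the residue of `m - 1` -/
theorem mod_eq (k n m c a r : ℕ) (hk : k % 2 = 1) (hk3 : 3 ≤ k) (hn : n = k * (k - 1) ^ 2 + k)
    (h1 : n * (k + c) = m * (k ^ 2 + (2 * k - 2) * a)) (h2 : n = r * m) (hm1 : 1 ≤ m) :
    (m - 1) % (2 * (k - 1)) = c % (2 * (k - 1)) := by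
  have h3 := arith_mod k n m c a r hk hk3 hn h1 h2 hm1
  have h4 : 0 < 2 * (k - 1) := by omega
  have h5 : c % (2 * (k - 1)) < 2 * (k - 1) := Nat.mod_lt _ h4
  generalize 2 * (k - 1) = D at h3 h4 h5 ⊢
  generalize m - 1 = M at h3 ⊢
  have h6 : (M + (D - c % D)) % D = 0 := Nat.mod_eq_zero_of_dvd h3
  have h7 : M % D < D := Nat.mod_lt _ h4
  have h8 : M = D * (M / D) + M % D := (Nat.div_add_mod M D).symm
  obtain ⟨W, hW⟩ := h3
  have h9 : M % D + (D - c % D) = D * W - D * (M / D) := by omega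
  have h10 : D ∣ M % D + (D - c % D) := by
    rw [h9, ← Nat.mul_sub]
    exact Dvd.intro _ rfl
  obtain ⟨V, hV⟩ := h10
  have h11 : V = 1 := by
    have h12 : 0 < M % D + (D - c % D) := by omega
    have h13 : M % D + (D - c % D) < 2 * D := by omega
    rw [hV] at h12 h13
    have h14 : 0 < V := Nat.pos_of_mul_pos_left (by simpa [mul_comm] using h12) |> fun h => by
      rcases Nat.eq_zero_or_pos V with h0 | h0
      · rw [h0, mul_zero] at h12; omega
      · exact h0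
    have h15 : V < 2 := by
      by_contra h
      have h16 : D * 2 ≤ D * V := Nat.mul_le_mul_left _ (by omega)
      omega
    omega
  rw [h11, mul_one] at hV
  omega

theorem upper_arith (k n m c a r : ℕ) (hk : k % 2 = 1) (hk3 : 3 ≤ k) (hn : n = k * (k - 1) ^ 2 + k)
    (h1 : n * (k + c) = m * (k ^ 2 + (2 * k - 2) * a)) (h2 : n = r * m) (hm1 : 1 ≤ m) (h4 : a + 1 ≤ r) :
    c * k ≤ (k - 1) ^ 2 - 1 + m := by
  obtain ⟨s, rfl⟩ : ∃ s, k = s + 1 := ⟨k - 1, by omega⟩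
  have h5 : 2 * (s + 1) - 2 = 2 * s := by omega
  rw [Nat.add_sub_cancel] at hn ⊢
  rw [h5] at h1
  have h6 : r * (s + 1 + c) = (s + 1) ^ 2 + 2 * s * a := by
    rw [h2] at h1
    have h7 : m * (r * (s + 1 + c)) = m * ((s + 1) ^ 2 + 2 * s * a) := by rw [← h1]; ring
    exact Nat.eq_of_mul_eq_mul_left hm1 h7
  have hs1 : 1 ≤ s ^ 2 := Nat.one_le_pow _ _ (by omega)
  obtain ⟨S, hS⟩ : ∃ S, s ^ 2 = S + 1 := ⟨s ^ 2 - 1, by omega⟩
  rw [hS, Nat.add_sub_cancel]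
  have h7 : (r : ℤ) * (s + 1 + c) = (s + 1) ^ 2 + 2 * s * a := by exact_mod_cast h6
  have h8 : (a : ℤ) + 1 ≤ r := by exact_mod_cast h4
  have h9 : (r : ℤ) * m = (s + 1) * (s ^ 2 + 1) := by
    have : r * m = (s + 1) * (s ^ 2 + 1) := by rw [← h2, hn]; ring
    exact_mod_cast this
  have h10 : (s : ℤ) ^ 2 = S + 1 := by exact_mod_cast hS
  have hr0 : 0 < r := by omega
  have h11 : (r : ℤ) * (c * (s + 1)) ≤ r * (S + m) := by
    have h12 : (r : ℤ) * c ≤ (s ^ 2 + 1) + r * (s - 1) := by nlinarith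
    have h13 : (r : ℤ) * (c * (s + 1)) ≤ ((s ^ 2 + 1) + r * (s - 1)) * (s + 1) := by nlinarith
    have h14 : (((s : ℤ) ^ 2 + 1) + r * (s - 1)) * (s + 1) = r * (S + m) := by
      linear_combination -h9 + (r : ℤ) * h10
    linarith
  have h12 : (c : ℤ) * (s + 1) ≤ S + m := le_of_mul_le_mul_left h11 (by exact_mod_cast hr0)
  exact_mod_cast h12

section
variable {P L G : Type*} [Finite P] [Finite L] [Group G] [Finite G] [MulAction G P] [MulAction G L]
  {I : P → L → Prop} {n k : ℕ}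

/-- **(U)** -/
theorem upper (hI : IsConfiguration I n k) (hT : TrilateralFree I) (hn : n = k * (k - 1) ^ 2 + k)
    (hk : k % 2 = 1) (hk3 : 3 ≤ k) (hG : ∀ (g : G) (p : P) (l : L), I (g • p) (g • l) ↔ I p l)
    (ht : ∀ p q : P, ∃ g : G, g • p = q) (B : Subgroup G) [B.Normal] (x : P) :
    (((MulAction.orbit B x).ncard - 1) % (2 * (k - 1))) * k ≤ (k - 1) ^ 2 - 1 + (MulAction.orbit B x).ncard := by
  classical
  have : Fintype P := Fintype.ofFinite P
  have : Fintype L := Fintype.ofFinite L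
  have : Fintype B := Fintype.ofFinite B
  obtain ⟨σ, m, c, a, r, hσ, hm, hcard, hm1, hc, hr, hkey, ha, hsum⟩ := orbit_data hI hT hn (by omega)
    (fun g p l h => (hG g p l).2 h) ht B x
  rw [← hm, mod_eq k n m c a r hk hk3 hn hkey hr hm1]
  exact (Nat.mul_le_mul_right k (Nat.mod_le _ _)).trans (upper_arith k n m c a r hk hk3 hn hkey hr hm1 ha)

end

end Pool.Agent.Lib.MP_e0c1ed_co.Upper
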