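import Pool.Agent.Lib.MP_e0c1ed_co.K7
import Pool.Agent.Lib.MP_e0c1ed_co.V1
import Pool.Agent.Lib.MP_e0c1ed_co.V2
import Pool.Agent.Lib.MP_e0c1ed_co.V3
import Pool.Agent.Lib.MP_e0c1ed_co.V4

/-!
# MP_e0c1ed / V5b: even `k`, elementary abelian normal `q`-subgroups of odd order
-/

set_option autoImplicit false

namespace Pool.Agent.Lib.MP_e0c1ed_co.V5b

open Finset Pool.Agent.Results.MP_e0c1ed_co.SelfDualSquare

section
variable {P L G : Type*} [Finite P] [Finite L] [Group G] [Finite G] [MulAction G P] [MulAction G L]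
  {I : P → L → Prop} {n k : ℕ}

/-- The order of a semiregular elementary abelian normal `q`-subgroup, `q` odd, `q ∣ (k - 1)² + 1`, is `1` modulo `k`. -/
theorem count (hI : IsConfiguration I n k) (hT : TrilateralFree I) (hn : n = k * (k - 1) ^ 2 + k)
    (hk3 : 3 ≤ k) (hG : ∀ (g : G) (p : P) (l : L), I (g • p) (g • l) ↔ I p l)
    (ht : ∀ p q : P, ∃ g : G, g • p = q)
    (B : Subgroup G) [B.Normal] (q : ℕ) (hq : q.Prime) (hq2 : q ≠ 2) (hexp : ∀ b ∈ B, b ^ q = 1)
    (hsemi : ∀ b ∈ B, b ≠ 1 → ∀ x : P, b • x ≠ x) (hqd : q ∣ (k - 1) ^ 2 + 1) :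
    ∃ c : ℕ, k * c = Nat.card B - 1 := by
  classical
  have : Fintype P := Fintype.ofFinite P
  have : Fintype B := Fintype.ofFinite B
  have hPB : IsPGroup q B := by
    intro b
    exact ⟨1, by rw [pow_one]; exact Subtype.ext (hexp b.1 b.2)⟩
  have hnp : n = k * ((k - 1) ^ 2 + 1) := by rw [hn]; ring
  have hcardP : Nat.card P = n := hI.card_points
  obtain ⟨x0⟩ : Nonempty P := by
    rw [← Finite.card_pos_iff, hcardP, hnp]
    exact Nat.mul_pos (by omega) (by omega)
  have hinv : ∀ (g : G) x l, I x l → I (g • x) (g • l) := fun g p l h => (hG g p l).2 h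
  let Q : G → P → Prop := fun b x => b • x ≠ x ∧ ∃ l, I x l ∧ I (b • x) l
  let M : B → ℕ := fun b => {x : P | Q b x}.ncard
  have hM1 : M 1 = 0 := by
    show {x : P | Q ((1 : B) : G) x}.ncard = 0
    have : {x : P | Q ((1 : B) : G) x} = ∅ := by
      ext x
      simp [Q]
    rw [this, Set.ncard_empty]
  have hM : ∀ b : B, b ≠ 1 → ∑ i ∈ range (q - 1), M (b ^ (i + 1)) = (q - 1) * ((k - 1) ^ 2 + 1) := by
    intro b hb
    have hb1 : (b : G) ≠ 1 := fun h => hb (Subtype.ext h)
    exact V2.moved_sum hI hT hn hk3 hG q hq hq2 hqd (b : G) (hexp b b.2) (fun x => hsemi b b.2 hb1 x)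
  have hsum := K7.sum_pow q hq hPB M _ hM1 hM
  -- the number of `b` moving `x` to a collinear point
  let c : P → ℕ := fun x => (univ.filter fun b : B => Q b x).card
  have hc : ∀ x, c x = c x0 := by
    intro x
    obtain ⟨g, rfl⟩ := ht x0 x
    symm
    refine Finset.card_bij (fun b _ => ⟨g * b * g⁻¹, (inferInstance : B.Normal).conj_mem b b.2 g⟩) ?_ ?_ ?_
    · intro b hb
      rw [Finset.mem_filter] at hb ⊢
      obtain ⟨-, h1, l, h2, h3⟩ := hb
      have h4 : (g * (b : G) * g⁻¹) • (g • x0) = g • ((b : G) • x0) := by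
        rw [← mul_smul, ← mul_smul]
        congr 1
        group
      refine ⟨Finset.mem_univ _, ?_, g • l, hinv g _ _ h2, ?_⟩
      · show (g * (b : G) * g⁻¹) • (g • x0) ≠ g • x0
        rw [h4]
        intro h
        exact h1 (smul_left_cancel g h)
      · show I ((g * (b : G) * g⁻¹) • (g • x0)) (g • l)
        rw [h4]
        exact hinv g _ _ h3
    · intro b _ d _ h
      have h1 : g * (b : G) * g⁻¹ = g * (d : G) * g⁻¹ := congrArg Subtype.val h
      exact Subtype.ext (mul_left_cancel (mul_right_cancel h1))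
    · intro d hd
      rw [Finset.mem_filter] at hd
      obtain ⟨-, h1, l, h2, h3⟩ := hd
      have hmem : g⁻¹ * (d : G) * g ∈ B := by
        have := (inferInstance : B.Normal).conj_mem d d.2 g⁻¹
        simpa using this
      have h4 : (g⁻¹ * (d : G) * g) • x0 = g⁻¹ • ((d : G) • (g • x0)) := by
        rw [← mul_smul, ← mul_smul, mul_assoc]
      refine ⟨⟨g⁻¹ * d * g, hmem⟩, ?_, ?_⟩
      · rw [Finset.mem_filter]
        refine ⟨Finset.mem_univ _, ?_, g⁻¹ • l, ?_, ?_⟩
        · show (g⁻¹ * (d : G) * g) • x0 ≠ x0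
          rw [h4]
          intro h
          apply h1
          rw [inv_smul_eq_iff] at h
          exact h
        · have := hinv g⁻¹ _ _ h2
          rwa [inv_smul_smul] at this
        · show I ((g⁻¹ * (d : G) * g) • x0) (g⁻¹ • l)
          rw [h4]
          exact hinv g⁻¹ _ _ h3
      · apply Subtype.ext
        show g * (g⁻¹ * (d : G) * g) * g⁻¹ = d
        group
  have hdc : ∑ b, M b = n * c x0 := by
    have h1 : ∀ b : B, M b = ∑ x : P, if Q b x then 1 else 0 := by
      intro b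
      rw [Finset.sum_boole, Nat.cast_id]
      show {x : P | Q b x}.ncard = _
      rw [← Set.ncard_coe_finset]
      congr 1
      ext x
      simp
    have h2 : ∀ x : P, c x = ∑ b : B, if Q b x then 1 else 0 := by
      intro x
      rw [Finset.sum_boole, Nat.cast_id]
    rw [Finset.sum_congr rfl (fun b _ => h1 b), Finset.sum_comm]
    rw [Finset.sum_congr rfl (fun x _ => (h2 x).symm), Finset.sum_congr rfl (fun x _ => hc x), Finset.sum_const,
      Finset.card_univ, ← Nat.card_eq_fintype_card, hcardP, smul_eq_mul]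
  rw [hdc, hnp, ← Nat.card_eq_fintype_card] at hsum
  refine ⟨c x0, ?_⟩
  have h2 : ((k - 1) ^ 2 + 1) * (k * c x0) = ((k - 1) ^ 2 + 1) * (Nat.card B - 1) := by
    rw [mul_comm ((k - 1) ^ 2 + 1) (Nat.card B - 1), ← hsum]
    ring
  exact Nat.eq_of_mul_eq_mul_left (by omega) h2

/-- the arithmetic -/
private theorem arith (s m w c : ℕ) (hs : 3 ≤ s) (hm : 1 < m) (h : m * w = s ^ 2 + 1) (hc : (s + 1) * c = m - 1) :
    w = 2 := by
  obtain ⟨u, rfl⟩ : ∃ u, m = u + 1 := ⟨m - 1, by omega⟩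
  rw [Nat.add_sub_cancel] at hc
  have hc1 : 1 ≤ c := by
    rcases Nat.eq_zero_or_pos c with h0 | h0
    · rw [h0, mul_zero] at hc
      omega
    · exact h0
  subst hc
  have hw : w < s + 1 := by
    by_contra hcon
    push Not at hcon
    have h1 : (s + 1) * c + 1 ≥ s + 2 := by nlinarith
    have h2 : ((s + 1) * c + 1) * w ≥ (s + 2) * (s + 1) := Nat.mul_le_mul h1 hcon
    nlinarith
  -- modulo `s + 1`
  have h1 : ((s : ℤ) + 1) ∣ (w : ℤ) - 2 := by
    have h2 : (((s : ℤ) + 1) * c + 1) * w = s ^ 2 + 1 := by exact_mod_cast h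
    exact ⟨s - 1 - c * w, by linear_combination h2⟩
  have h2 : (w : ℤ) - 2 = 0 := by
    apply Int.eq_zero_of_abs_lt_dvd h1
    rw [abs_lt]
    constructor <;> omega
  omega

/-- **Even `k`:** a point transitive group has no nontrivial elementary abelian normal `q`-subgroup, `q` odd, unless
`(k - 1)² + 1` is twice a power of `q`. -/
theorem none_even (hI : IsConfiguration I n k) (hT : TrilateralFree I) (hn : n = k * (k - 1) ^ 2 + k)
    (hk : k % 2 = 0) (hk4 : 4 ≤ k) (hG : ∀ (g : G) (p : P) (l : L), I (g • p) (g • l) ↔ I p l)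
    (hf : ∀ g : G, (∀ p : P, g • p = p) → g = 1) (ht : ∀ p q : P, ∃ g : G, g • p = q)
    (B : Subgroup G) [B.Normal] (hne : B ≠ ⊥) (hab : ∀ a ∈ B, ∀ b ∈ B, a * b = b * a) (q : ℕ) (hq : q.Prime)
    (hq2 : q ≠ 2) (hexp : ∀ b ∈ B, b ^ q = 1) : ∃ b : ℕ, (k - 1) ^ 2 + 1 = 2 * q ^ b := by
  classical
  have : Fintype P := Fintype.ofFinite P
  have : Fintype L := Fintype.ofFinite L
  have := Fact.mk hq
  have hPB : IsPGroup q B := by
    intro b
    exact ⟨1, by rw [pow_one]; exact Subtype.ext (hexp b.1 b.2)⟩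
  obtain ⟨a, ha⟩ := IsPGroup.iff_card.1 hPB
  have hnp : n = k * ((k - 1) ^ 2 + 1) := by rw [hn]; ring
  have hcardP : Nat.card P = n := hI.card_points
  obtain ⟨x0⟩ : Nonempty P := by
    rw [← Finite.card_pos_iff, hcardP, hnp]
    exact Nat.mul_pos (by omega) (by omega)
  have hinv : ∀ (g : G) x l, I x l → I (g • x) (g • l) := fun g p l h => (hG g p l).2 h
  have : MulAction.IsPretransitive G P := ⟨ht⟩
  have h1 : (MulAction.orbit B x0).ncard ∣ Nat.card P :=
    (MulAction.IsBlock.orbit_of_normal (G := G) (N := B) x0).ncard_dvd_card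
      ⟨x0, MulAction.mem_orbit_self x0⟩
  have h2 : (MulAction.orbit B x0).ncard ∣ q ^ a := by
    rw [← ha, ← MulAction.index_stabilizer]
    exact Subgroup.index_dvd_card _
  obtain ⟨b, hb, hm⟩ := (Nat.dvd_prime_pow hq).1 h2
  have hfixall : ∀ c ∈ B, (∀ y : P, c • y = y) → c = 1 := fun c _ h => hf c h
  have hb0 : b ≠ 0 := by
    rintro rfl
    rw [pow_zero] at hm
    apply hne
    rw [Subgroup.eq_bot_iff_forall]
    intro c hc
    apply hf
    intro y
    have h3 : (MulAction.orbit B y).ncard = 1 := by rw [Norm.orbit_ncard ht B y x0, hm]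
    obtain ⟨w, hw⟩ := Set.ncard_eq_one.1 h3
    have h4 : y ∈ MulAction.orbit B y := MulAction.mem_orbit_self _
    have h5 : (⟨c, hc⟩ : B) • y ∈ MulAction.orbit B y := MulAction.mem_orbit _ _
    rw [hw] at h4 h5
    exact h5.trans h4.symm
  rw [hcardP, hnp, hm] at h1
  obtain ⟨s, rfl⟩ : ∃ s, k = s + 1 := ⟨k - 1, by omega⟩
  rw [Nat.add_sub_cancel] at h1 hnp ⊢
  have hsq : s ^ 2 + 1 = 2 + (s + 1) * (s - 1) := by
    obtain ⟨u, rfl⟩ : ∃ u, s = u + 1 := ⟨s - 1, by omega⟩
    rw [Nat.add_sub_cancel]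
    ring
  have hnot2 : ¬ q ∣ 2 := fun h => hq2 ((Nat.prime_dvd_prime_iff_eq hq Nat.prime_two).1 h)
  by_cases hqk : q ∣ s + 1
  · -- `q ∣ k`
    exfalso
    have hqd : ¬ q ∣ s ^ 2 + 1 := by
      rw [hsq]
      intro h
      exact hnot2 ((Nat.dvd_add_left (hqk.mul_right _)).1 h)
    have h3 : q ^ b ∣ s + 1 :=
      (Nat.Coprime.pow_left b ((Nat.Prime.coprime_iff_not_dvd hq).2 hqd)).dvd_of_dvd_mul_right h1
    have hlt : (MulAction.orbit B x0).ncard < s + 1 := by
      rw [hm]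
      refine lt_of_le_of_ne (Nat.le_of_dvd (by omega) h3) ?_
      intro h
      have h4 : Odd (q ^ b) := (hq.odd_of_ne_two hq2).pow
      rw [h, Nat.odd_iff] at h4
      omega
    have hne1 : (MulAction.orbit B x0).ncard ≠ 1 := by
      rw [hm]
      exact (Nat.one_lt_pow hb0 hq.one_lt).ne'
    obtain ⟨c, hc, hc1⟩ : ∃ c ∈ B, c ≠ 1 := by
      by_contra hcon
      push Not at hcon
      exact hne ((Subgroup.eq_bot_iff_forall _).2 hcon)
    have hfree : ∀ d ∈ B, d ≠ 1 → ∀ x : P, d • x ≠ x := by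
      intro d hd hd1 x hx
      exact hd1 (hf d fun y => V4.fixed_all hI hT hn (by omega) hinv ht B x0 hlt hne1 ⟨d, hd⟩ x hx y)
    have hsum := V3.moved_sum2 hI hT hn (by omega) hG q hq hq2 hqk c (hexp c hc) (hfree c hc hc1)
    have hpow : ∀ i ∈ Finset.range (q - 1), c ^ (i + 1) ≠ 1 := by
      intro i hi h
      have hi' := Finset.mem_range.1 hi
      have h3 : orderOf c = q := orderOf_eq_prime (hexp c hc) hc1
      have h4 := orderOf_dvd_of_pow_eq_one h
      rw [h3] at h4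
      have := Nat.le_of_dvd (Nat.succ_pos i) h4
      omega
    have hall : ∀ i ∈ Finset.range (q - 1),
        {p : P | c ^ (i + 1) • p ≠ p ∧ ∃ l, I p l ∧ I (c ^ (i + 1) • p) l}.ncard = n := by
      intro i hi
      have h3 : {p : P | c ^ (i + 1) • p ≠ p ∧ ∃ l, I p l ∧ I (c ^ (i + 1) • p) l} = Set.univ := by
        ext p
        simp only [Set.mem_ofPred_eq, Set.mem_univ, iff_true]
        have h4 : c ^ (i + 1) • p ≠ p := hfree _ (B.pow_mem hc _) (hpow i hi) p
        refine ⟨h4, ?_⟩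
        exact V4.clique hI hT hn (by omega) hinv ht B p (by rw [Norm.orbit_ncard ht B p x0]; exact hlt)
          ⟨c ^ (i + 1), B.pow_mem hc _⟩ h4
      rw [h3, Set.ncard_univ, hcardP]
    rw [Finset.sum_congr rfl hall, Finset.sum_const, Finset.card_range, smul_eq_mul] at hsum
    have h3 : n = (s + 1) ^ 2 := Nat.eq_of_mul_eq_mul_left (by have := hq.two_le; omega) hsum
    rw [hnp, sq (s + 1)] at h3
    have h4 : s ^ 2 + 1 = s + 1 := Nat.eq_of_mul_eq_mul_left (by omega) h3
    nlinarith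
  · have h3 : q ^ b ∣ s ^ 2 + 1 :=
      (Nat.Coprime.pow_left b ((Nat.Prime.coprime_iff_not_dvd hq).2 hqk)).dvd_of_dvd_mul_left h1
    have hqd : q ∣ s ^ 2 + 1 := (dvd_pow_self q hb0).trans h3
    have hsemi := V1.semiregular hI hT hn (by omega) hG hf ht B hab q hq hq2 hPB (by
      rw [Nat.add_sub_cancel]; exact hqd)
    have hst : MulAction.stabilizer B x0 = ⊥ := by
      rw [Subgroup.eq_bot_iff_forall]
      intro c hc
      by_contra hc1
      refine hsemi c.1 c.2 ?_ x0 (MulAction.mem_stabilizer_iff.1 hc)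
      intro h
      exact hc1 (Subtype.ext h)
    have hB : Nat.card B = q ^ b := by
      rw [← hm, ← MulAction.index_stabilizer, hst, Subgroup.index_bot]
    obtain ⟨c, hc⟩ := count hI hT hn (by omega) hG ht B q hq hq2 hexp hsemi (by
      rw [Nat.add_sub_cancel]; exact hqd)
    rw [hB] at hc
    obtain ⟨w, hw⟩ := h3
    have hw2 : w = 2 := arith s (q ^ b) w c (by omega) (Nat.one_lt_pow hb0 hq.one_lt) hw.symm hc
    exact ⟨b, by rw [hw, hw2]; ring⟩

end

end Pool.Agent.Lib.MP_e0c1ed_co.V5b
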