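import Pool.Agent.Lib.MP_e0c1ed_co.AS3

/-!
# MP_e0c1ed / Z0: conjugates of a subgroup, definitions
-/

set_option autoImplicit false

namespace Pool.Agent.Lib.MP_e0c1ed_co.Z0

section
variable {G : Type*} [Group G]

/-- `M` is a normal subgroup of `N` -/
def Inv (N M : Subgroup G) : Prop := M ≤ N ∧ ∀ n ∈ N, ∀ t ∈ M, n * t * n⁻¹ ∈ M

/-- the conjugate subgroup -/
def cj (g : G) (M : Subgroup G) : Subgroup G := M.map (MulAut.conj g).toMonoidHom

theorem mem_cj {g : G} {M : Subgroup G} {x : G} : x ∈ cj g M ↔ g⁻¹ * x * g ∈ M := by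
  constructor
  · rintro ⟨y, hy, rfl⟩
    show g⁻¹ * (g * y * g⁻¹) * g ∈ M
    have : g⁻¹ * (g * y * g⁻¹) * g = y := by group
    rw [this]
    exact hy
  · intro h
    refine ⟨_, h, ?_⟩
    show g * (g⁻¹ * x * g) * g⁻¹ = x
    group

theorem cj_cj (g h : G) (M : Subgroup G) : cj g (cj h M) = cj (g * h) M := by
  ext x
  rw [mem_cj, mem_cj, mem_cj]
  have : h⁻¹ * (g⁻¹ * x * g) * h = (g * h)⁻¹ * x * (g * h) := by group
  rw [this]

theorem cj_one (M : Subgroup G) : cj 1 M = M := by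
  ext x
  rw [mem_cj]
  simp

theorem card_cj (g : G) (M : Subgroup G) : Nat.card (cj g M) = Nat.card M :=
  (Nat.card_congr (M.equivMapOfInjective _ (MulAut.conj g).injective).toEquiv).symm

theorem inv_cj {N M : Subgroup G} (hN : N.Normal) (h : Inv N M) (g : G) : Inv N (cj g M) := by
  refine ⟨fun x hx => ?_, fun n hn t ht => ?_⟩
  · rw [mem_cj] at hx
    have h1 := hN.conj_mem _ (h.1 hx) g
    have h2 : g * (g⁻¹ * x * g) * g⁻¹ = x := by group
    rwa [h2] at h1
  · rw [mem_cj] at ht ⊢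
    have h1 := hN.conj_mem _ hn g⁻¹
    rw [inv_inv] at h1
    have h2 := h.2 _ h1 _ ht
    have h3 : g⁻¹ * n * g * (g⁻¹ * t * g) * (g⁻¹ * n * g)⁻¹ = g⁻¹ * (n * t * n⁻¹) * g := by group
    rwa [h3] at h2

theorem cj_ne_bot {M : Subgroup G} (h : M ≠ ⊥) (g : G) : cj g M ≠ ⊥ := fun h1 =>
  h ((Subgroup.map_eq_bot_iff_of_injective _ (MulAut.conj g).injective).1 h1)

/-- elements of a subgroup which normalizes `M` fix `M` -/
theorem cj_eq_self {N M : Subgroup G} (h : Inv N M) (g : G) (hg : g ∈ N) : cj g M = M := by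
  ext x
  rw [mem_cj]
  constructor
  · intro hx
    have h1 := h.2 g hg _ hx
    have h2 : g * (g⁻¹ * x * g) * g⁻¹ = x := by group
    rwa [h2] at h1
  · intro hx
    have h1 := h.2 g⁻¹ (N.inv_mem hg) _ hx
    rwa [inv_inv] at h1

/-- `T` is normal in the normal subgroup `M` of `G`, has at least two `G`-conjugates, any two different ones commute,
and every prime dividing the order of `M` divides the order of `T`. -/
structure Fam (M T : Subgroup G) : Prop where
  normal : M.Normal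
  ne : M ≠ ⊥
  inv : Inv M T
  comm : ∀ g : G, cj g T = T ∨ ∀ a ∈ cj g T, ∀ b ∈ T, a * b = b * a
  dvd : ∀ r : ℕ, r.Prime → r ∣ Nat.card M → r ∣ Nat.card T
  two : ∃ g : G, cj g T ≠ T

end

/-- some element of `T` moves `x` to another point of `l` -/
def R {P L G : Type*} [Group G] [MulAction G P] (I : P → L → Prop) (T : Subgroup G) (x : P) (l : L) : Prop :=
  ∃ g ∈ T, g • x ≠ x ∧ I (g • x) l

section
variable {P L G : Type*} [Group G] [MulAction G P] [MulAction G L] {I : P → L → Prop}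

theorem R_cj (hG : ∀ (g : G) (p : P) (l : L), I (g • p) (g • l) ↔ I p l) (T : Subgroup G) (x : P) (l : L) (h : G)
    (hR : R I T x l) : R I (cj h T) (h • x) (h • l) := by
  obtain ⟨g, hg, h1, h2⟩ := hR
  have e : (h * g * h⁻¹) • h • x = h • g • x := by
    rw [← mul_smul, ← mul_smul]
    congr 1
    group
  refine ⟨h * g * h⁻¹, ?_, ?_, ?_⟩
  · rw [mem_cj]
    have : h⁻¹ * (h * g * h⁻¹) * h = g := by group
    rwa [this]
  · rw [e]
    exact fun h3 => h1 (smul_left_cancel h h3)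
  · rw [e]
    exact (hG h _ l).2 h2

theorem R_cj_iff (hG : ∀ (g : G) (p : P) (l : L), I (g • p) (g • l) ↔ I p l) (T : Subgroup G) (x : P) (l : L) (h : G) :
    R I (cj h T) (h • x) (h • l) ↔ R I T x l := by
  constructor
  · intro h1
    have h2 := R_cj hG (cj h T) (h • x) (h • l) h⁻¹ h1
    rwa [cj_cj, inv_mul_cancel, cj_one, inv_smul_smul, inv_smul_smul] at h2
  · exact R_cj hG T x l h

end

end Pool.Agent.Lib.MP_e0c1ed_co.Z0
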