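import Pool.Agent.Lib.MP_e0c1ed_co.Z0

/-!
# MP_e0c1ed / Z1: reduction to families of commuting conjugates
-/

set_option autoImplicit false

namespace Pool.Agent.Lib.MP_e0c1ed_co.Z1

open Pool.Agent.Lib.MP_e0c1ed_co.Z0

section
variable {G : Type*} [Group G]

private theorem normal_of_cj {M : Subgroup G} (h : ∀ g, cj g M ≤ M) : M.Normal := by
  constructor
  intro t ht g
  apply h g
  rw [mem_cj]
  have : g⁻¹ * (g * t * g⁻¹) * g = t := by group
  rwa [this]

private theorem card_sup' [Finite G] (N M K : Subgroup G) (hM : M ≤ N) (hK : Inv N K) :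
    Nat.card (M ⊔ K : Subgroup G) * Nat.card (M ⊓ K : Subgroup G) = Nat.card M * Nat.card K := by
  have h1 : (K.subgroupOf N).Normal := ⟨fun t ht n => hK.2 n n.2 t ht⟩
  have h2 := AS3.card_sup (M.subgroupOf N) (K.subgroupOf N)
  have h3 : ∀ S : Subgroup G, S ≤ N → Nat.card (S.subgroupOf N) = Nat.card S := fun S hS =>
    Nat.card_congr (Subgroup.subgroupOfEquivOfLe hS).toEquiv
  have h4 : M.subgroupOf N ⊔ K.subgroupOf N = (M ⊔ K).subgroupOf N := (Subgroup.subgroupOf_sup hM hK.1).symm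
  have h5 : M.subgroupOf N ⊓ K.subgroupOf N = (M ⊓ K).subgroupOf N := rfl
  rw [h4, h5, h3 _ (sup_le hM hK.1), h3 _ (inf_le_left.trans hM), h3 _ hM, h3 _ hK.1] at h2
  exact h2

end

/-- If no two nontrivial normal subgroups commute and there is no family of commuting conjugates, then `G` is almost
simple. -/
theorem reduce {G : Type*} [Group G] [Finite G] [Nontrivial G]
    (hF : ∀ A B : Subgroup G, A.Normal → B.Normal → A ≠ ⊥ → B ≠ ⊥ → ¬ ∀ a ∈ A, ∀ b ∈ B, a * b = b * a)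
    (h : ∀ M T : Subgroup G, ¬ Fam M T) :
    ∃ T : Subgroup G, T.Normal ∧ IsSimpleGroup T ∧ (∃ a b : T, a * b ≠ b * a) ∧
      Subgroup.centralizer (T : Set G) = ⊥ := by
  classical
  obtain ⟨N, ⟨hN1, hN2⟩, hNmin⟩ := WellFounded.has_min (α := Subgroup G) (r := (· < ·)) wellFounded_lt
    {N | N.Normal ∧ N ≠ ⊥} ⟨⊤, inferInstance, top_ne_bot⟩
  have hNle : ∀ M : Subgroup G, M.Normal → M ≠ ⊥ → M ≤ N → M = N := by
    intro M hM hM0 hle
    by_contra h
    exact hNmin _ ⟨hM, hM0⟩ (lt_of_le_of_ne hle h)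
  -- a prime divisor of the order of `N` divides the order of every normal subgroup of `N`
  have hdiv : ∀ r : ℕ, r.Prime → r ∣ Nat.card N → ∀ M : Subgroup G, Inv N M → M ≠ ⊥ → r ∣ Nat.card M := by
    intro r hr hrN M hM hne
    by_contra hcon
    obtain ⟨M', ⟨a1, a2⟩, a3⟩ := WellFounded.has_min (α := Subgroup G) (r := (· > ·)) wellFounded_gt
      {M | Inv N M ∧ ¬ r ∣ Nat.card M} ⟨M, hM, hcon⟩
    have hsup : ∀ K : Subgroup G, Inv N K → ¬ r ∣ Nat.card K → K ≤ M' := by
      intro K hK hqK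
      by_contra hle
      have h3 : M' < M' ⊔ K := lt_of_le_of_ne le_sup_left (fun h => hle (by rw [h]; exact le_sup_right))
      refine a3 (M' ⊔ K) ⟨⟨sup_le a1.1 hK.1, ?_⟩, ?_⟩ h3
      · intro n hn t ht
        have h4 : cj n (M' ⊔ K) = cj n M' ⊔ cj n K := Subgroup.map_sup _ _ _
        have h7 : cj n (M' ⊔ K) ≤ M' ⊔ K := by
          rw [h4, cj_eq_self a1 n hn, cj_eq_self hK n hn]
        apply h7
        rw [mem_cj]
        have : n⁻¹ * (n * t * n⁻¹) * n = t := by group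
        rwa [this]
      · intro h4
        have h5 : r ∣ Nat.card M' * Nat.card K := by
          rw [← card_sup' N M' K a1.1 hK]
          exact h4.mul_right _
        rcases (Nat.Prime.dvd_mul hr).1 h5 with h6 | h6
        · exact a2 h6
        · exact hqK h6
    have h4 : M'.Normal := normal_of_cj fun g => hsup _ (inv_cj hN1 a1 g) (by rw [card_cj]; exact a2)
    have h5 : M' ≠ ⊥ := by
      intro h
      exact hne (le_bot_iff.1 (h ▸ hsup M hM hcon))
    rw [hNle M' h4 h5 a1.1] at a2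
    exact a2 hrN
  -- a minimal normal subgroup `T` of `N`
  obtain ⟨T, ⟨hT1, hT2⟩, hTmin⟩ := WellFounded.has_min (InvImage.wf (fun M : Subgroup G => Nat.card M) wellFounded_lt)
    {M : Subgroup G | Inv N M ∧ M ≠ ⊥} ⟨N, ⟨le_rfl, fun n hn t ht => N.mul_mem (N.mul_mem hn ht) (N.inv_mem hn)⟩, hN2⟩
  have hmin : ∀ M : Subgroup G, Inv N M → M ≠ ⊥ → Nat.card T ≤ Nat.card M := by
    intro M hM hM0
    by_contra h
    exact hTmin M ⟨hM, hM0⟩ (not_le.1 h)
  -- subgroups of conjugates of `T`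
  have hsub : ∀ (g : G) (M : Subgroup G), Inv N M → M ≠ ⊥ → M ≤ cj g T → M = cj g T := by
    intro g M hM hM0 hle
    exact Subgroup.eq_of_le_of_card_ge hle (by rw [card_cj]; exact hmin M hM hM0)
  have hmeet : ∀ g : G, cj g T ≠ T → cj g T ⊓ T = ⊥ := by
    intro g hne
    by_contra h0
    have h1 := inv_cj hN1 hT1 g
    have h4 : Inv N (cj g T ⊓ T) := ⟨inf_le_left.trans h1.1, fun n hn t ht =>
      ⟨h1.2 n hn t ht.1, hT1.2 n hn t ht.2⟩⟩
    have h5 := hsub 1 _ h4 h0 (by rw [cj_one]; exact inf_le_right)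
    rw [cj_one] at h5
    exact hne ((hsub g _ h4 h0 inf_le_left).symm.trans h5)
  have hcomm : ∀ g : G, cj g T ≠ T → ∀ a ∈ cj g T, ∀ b ∈ T, a * b = b * a := by
    intro g hne a ha b hb
    have h1 := inv_cj hN1 hT1 g
    have h4 : a * b * a⁻¹ * b⁻¹ ∈ cj g T ⊓ T := by
      refine ⟨?_, ?_⟩
      · have h5 := (cj g T).mul_mem ha (h1.2 b (hT1.1 hb) _ ((cj g T).inv_mem ha))
        have h6 : a * (b * a⁻¹ * b⁻¹) = a * b * a⁻¹ * b⁻¹ := by group
        rwa [h6] at h5
      · exact T.mul_mem (hT1.2 a (h1.1 ha) _ hb) (T.inv_mem hb)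
    rw [hmeet g hne, Subgroup.mem_bot] at h4
    have h5 : a * b = (a * b * a⁻¹ * b⁻¹) * (b * a) := by group
    rw [h5, h4, one_mul]
  by_cases hall : ∀ g : G, cj g T = T
  swap
  · push Not at hall
    refine absurd ?_ (h N T)
    exact ⟨hN1, hN2, hT1, fun g => or_iff_not_imp_left.2 fun hg => hcomm g hg,
      fun r hr hrN => hdiv r hr hrN T hT1 hT2, hall⟩
  have hTn : T.Normal := normal_of_cj fun g => (hall g).le
  have hTN : T = N := hNle T hTn hT2 hT1.1
  subst hTN
  refine ⟨T, hN1, ?_, ?_, ?_⟩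
  · have hnt : Nontrivial T := (Subgroup.nontrivial_iff_ne_bot T).2 hT2
    refine { exists_pair_ne := hnt.exists_pair_ne, eq_bot_or_eq_top_of_normal := ?_ }
    intro K hK
    by_cases h : K = ⊥
    · exact Or.inl h
    · right
      have h1 : Inv T (K.map T.subtype) := by
        refine ⟨Subgroup.map_subtype_le K, ?_⟩
        rintro n hn _ ⟨t, ht, rfl⟩
        exact ⟨⟨n, hn⟩ * t * ⟨n, hn⟩⁻¹, hK.conj_mem t ht ⟨n, hn⟩, rfl⟩
      have h2 : K.map T.subtype ≠ ⊥ := fun h' =>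
        h ((Subgroup.map_eq_bot_iff_of_injective _ T.subtype_injective).1 h')
      have h4 : K.map T.subtype = T := Subgroup.eq_of_le_of_card_ge h1.1 (hmin _ h1 h2)
      rw [eq_top_iff]
      intro a _
      have h7 : (a : G) ∈ K.map T.subtype := by rw [h4]; exact a.2
      obtain ⟨b, hb, hba⟩ := h7
      have : b = a := Subtype.ext hba
      rwa [← this]
  · by_contra hcon
    push Not at hcon
    exact hF T T hN1 hN1 hT2 hT2 fun a ha b hb => congrArg Subtype.val (hcon ⟨a, ha⟩ ⟨b, hb⟩)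
  · by_contra hne
    have hn : (Subgroup.centralizer (T : Set G)).Normal := Subgroup.normal_centralizer
    exact hF T (Subgroup.centralizer (T : Set G)) hN1 hn hT2 hne fun a ha b hb =>
      (Subgroup.mem_centralizer_iff.1 hb) a ha

end Pool.Agent.Lib.MP_e0c1ed_co.Z1
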