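import Pool.Agent.Lib.MP_e0c1ed_co.J2
import Pool.Agent.Lib.MP_e0c1ed_co.J4
import Pool.Agent.Lib.MP_e0c1ed_co.Aut
import Pool.Agent.Lib.MP_e0c1ed_co.TransRad
import Pool.Agent.Lib.MP_e0c1ed_co.Benson

/-!
# MP_e0c1ed / Z2: the fixed structure of an element of prime order `r ∣ k ((k - 1)² + 1)` which fixes a flag
-/

set_option autoImplicit false

namespace Pool.Agent.Lib.MP_e0c1ed_co.Z2

open Pool.Agent.Results.MP_e0c1ed_co.SelfDualSquare Pool.Agent.Lib.MP_e0c1ed_co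

variable {P L G : Type*} [Finite P] [Finite L] [Group G] [Finite G] [MulAction G P] [MulAction G L]
  {I : P → L → Prop} {n k : ℕ}

private theorem fixed_closed (hI : IsConfiguration I n k) (hT : TrilateralFree I)
    (hG : ∀ (g : G) (p : P) (l : L), I (g • p) (g • l) ↔ I p l) (g : G) :
    J0.Closed I {x : P | g • x = x} {l : L | g • l = l} := by
  have c1 : ∀ x ∈ {x : P | g • x = x}, ∀ y ∈ {x : P | g • x = x}, ∀ l, x ≠ y → I x l → I y l →
      l ∈ {l : L | g • l = l} := by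
    intro x hx y hy l hxy h1 h2
    have h3 := (hG g x l).2 h1
    have h4 := (hG g y l).2 h2
    rw [show g • x = x from hx] at h3
    rw [show g • y = y from hy] at h4
    exact hI.unique_line x y (g • l) l hxy h3 h4 h1 h2
  refine ⟨c1, ?_, ?_⟩
  · intro l hl m hm x hlm h1 h2
    have h3 := (hG g x l).2 h1
    have h4 := (hG g x m).2 h2
    rw [show g • l = l from hl] at h3
    rw [show g • m = m from hm] at h4
    by_contra hx
    exact hlm (hI.unique_line (g • x) x l m hx h3 h1 h4 h2)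
  · intro x hx l hl m z hxl hxm hzm hzl
    have h3 := (hG g x m).2 hxm
    have h4 := (hG g z m).2 hzm
    have h5 := (hG g z l).2 hzl
    rw [show g • x = x from hx] at h3
    rw [show g • l = l from hl] at h5
    have h6 : z ∈ {x : P | g • x = x} :=
      (Semi.proj_unique hI hT x l hxl hzl h5 hzm hxm h4 h3).symm
    refine ⟨h6, c1 x hx z h6 m ?_ hxm hzm⟩
    rintro rfl
    exact hxl hzl

/-- the residue of `k` modulo a prime factor of `(k - 1)² + 1` is at least `3` -/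
theorem res (hk : k % 2 = 1) (hk3 : 3 ≤ k) (p : ℕ) (hp : p.Prime) (hps : p ∣ (k - 1) ^ 2 + 1) (c : ℕ)
    (hc : k ≡ c [MOD p]) : 3 ≤ c := by
  have hp2 : p ≠ 2 := by
    rintro rfl
    obtain ⟨t, hkt⟩ : ∃ t, k = 2 * t + 1 := ⟨k / 2, by omega⟩
    have e1 : (k - 1) ^ 2 + 1 = 2 * (2 * t ^ 2) + 1 := by
      rw [hkt, Nat.add_sub_cancel]
      ring
    rw [e1] at hps
    omega
  have hp1 : ¬ p ∣ 1 := fun h => hp.one_lt.ne' (Nat.dvd_one.1 h)
  have h2 : ¬ p ∣ 2 := fun h => hp2 ((Nat.prime_dvd_prime_iff_eq hp Nat.prime_two).1 h)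
  have hps' : (p : ℤ) ∣ ((k : ℤ) - 1) ^ 2 + 1 := by
    have h3 : (p : ℤ) ∣ (((k - 1) ^ 2 + 1 : ℕ) : ℤ) := by exact_mod_cast hps
    push_cast [Nat.cast_sub (by omega : 1 ≤ k)] at h3
    exact h3
  have hkc : (p : ℤ) ∣ (c : ℤ) - k := (Nat.modEq_iff_dvd).1 hc
  have key : (p : ℤ) ∣ ((c : ℤ) - 1) ^ 2 + 1 := by
    have h4 : ((c : ℤ) - 1) ^ 2 + 1 = ((k : ℤ) - 1) ^ 2 + 1 + ((c : ℤ) - k) * (c + k - 2) := by ring
    rw [h4]
    exact dvd_add hps' (hkc.mul_right _)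
  by_contra hcon
  have hc3 : c = 0 ∨ c = 1 ∨ c = 2 := by omega
  rcases hc3 with rfl | rfl | rfl
  · have h5 : (p : ℤ) ∣ ((2 : ℕ) : ℤ) := by
      have : (((0 : ℕ) : ℤ) - 1) ^ 2 + 1 = ((2 : ℕ) : ℤ) := by norm_num
      rwa [this] at key
    exact h2 (by exact_mod_cast h5)
  · have h5 : (p : ℤ) ∣ ((1 : ℕ) : ℤ) := by
      have : (((1 : ℕ) : ℤ) - 1) ^ 2 + 1 = ((1 : ℕ) : ℤ) := by norm_num
      rwa [this] at key
    exact hp1 (by exact_mod_cast h5)
  · have h5 : (p : ℤ) ∣ ((2 : ℕ) : ℤ) := by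
      have : (((2 : ℕ) : ℤ) - 1) ^ 2 + 1 = ((2 : ℕ) : ℤ) := by norm_num
      rwa [this] at key
    exact h2 (by exact_mod_cast h5)

/-- a number `≡ k` modulo `r` which is positive is at least `3` -/
theorem res' (hk : k % 2 = 1) (hk3 : 3 ≤ k) (r : ℕ) (hr : r.Prime) (hrn : r ∣ k ∨ r ∣ (k - 1) ^ 2 + 1) (c : ℕ)
    (hc : k ≡ c [MOD r]) (hc0 : 0 < c) : 3 ≤ c := by
  rcases hrn with h | h
  · have h1 : r ∣ c := (Nat.modEq_zero_iff_dvd).1 (hc.symm.trans ((Nat.modEq_zero_iff_dvd).2 h))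
    have h2 := Nat.le_of_dvd hc0 h1
    have h3 : r ≠ 2 := by
      rintro rfl
      omega
    have := hr.two_le
    omega
  · exact res hk hk3 r hr h c hc

theorem line (hI : IsConfiguration I n k) (hk : k % 2 = 1) (hk3 : 3 ≤ k)
    (hG : ∀ (g : G) (p : P) (l : L), I (g • p) (g • l) ↔ I p l) (p : ℕ) (hp : p.Prime)
    (hps : p ∣ (k - 1) ^ 2 + 1) (b : G) (hb : b ^ p = 1) (x : P) (hx : b • x = x) : ∃ l, I x l ∧ b • l = l := by
  have := Fact.mk hp
  have h1 := set_modEq b p hb {l : L | I x l} (fun l hl => by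
    have := (hG b x l).2 hl
    rwa [hx] at this)
  rw [hI.card_through_point x] at h1
  have h2 := res hk hk3 p hp hps _ h1
  obtain ⟨l, hl⟩ : {l ∈ {l : L | I x l} | b • l = l}.Nonempty := by
    rw [← Set.ncard_pos]
    omega
  exact ⟨l, hl.1, hl.2⟩

theorem deg (hI : IsConfiguration I n k) (hT : TrilateralFree I) (hn : n = k * (k - 1) ^ 2 + k)
    (hk : k % 2 = 1) (hk3 : 3 ≤ k) (hG : ∀ (g : G) (p : P) (l : L), I (g • p) (g • l) ↔ I p l)
    (hf : ∀ g : G, (∀ p : P, g • p = p) → g = 1) (r : ℕ) (hr : r.Prime) (hrn : r ∣ k ∨ r ∣ (k - 1) ^ 2 + 1)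
    (b : G) (hb : b ^ r = 1) (hb1 : b ≠ 1) (x : P) (l : L) (hx : b • x = x) (hl : b • l = l) (hxl : I x l) :
    (3 ≤ {m | b • m = m ∧ I x m}.ncard ∧ 2 * ({m | b • m = m ∧ I x m}.ncard - 1) ≤ k - 1) ∧
    (3 ≤ {y | b • y = y ∧ I y l}.ncard ∧ 2 * ({y | b • y = y ∧ I y l}.ncard - 1) ≤ k - 1) := by
  classical
  have : Fintype P := Fintype.ofFinite P
  have : Fintype L := Fintype.ofFinite L
  have := Fact.mk hr
  obtain ⟨hI', hT'⟩ := Aut.dualize I n k hI hT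
  have hC := fixed_closed hI hT hG b
  obtain ⟨X, hXd⟩ : ∃ X : Set P, X = {x : P | b • x = x} := ⟨_, rfl⟩
  obtain ⟨Y, hYd⟩ : ∃ Y : Set L, Y = {l : L | b • l = l} := ⟨_, rfl⟩
  rw [← hXd, ← hYd] at hC
  have hC' : J0.Closed (fun l p => I p l) Y X :=
    ⟨hC.2.1, hC.1, fun l hl x hx z m h1 h2 h3 h4 => (hC.2.2 x hx l hl m z h1 h4 h3 h2).symm⟩
  have hxX : x ∈ X := by rw [hXd]; exact hx
  have hlY : l ∈ Y := by rw [hYd]; exact hl
  -- every fixed point is on a fixed line, every fixed line has a fixed point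
  have ex1 : ∀ y ∈ X, ∃ m ∈ Y, I y m := by
    intro y hy
    by_cases hyl : I y l
    · exact ⟨l, hlY, hyl⟩
    · obtain ⟨m, q, h1, h2, h3⟩ := gq_axiom hI hT hn (by omega) y l hyl
      exact ⟨m, (hC.2.2 y hy l hlY m q hyl h1 h2 h3).2, h1⟩
  have ex2 : ∀ m ∈ Y, ∃ y ∈ X, I y m := by
    intro m hm
    by_cases hxm : I x m
    · exact ⟨x, hxX, hxm⟩
    · obtain ⟨m', q, h1, h2, h3⟩ := gq_axiom hI hT hn (by omega) x m hxm
      exact ⟨q, (hC.2.2 x hxX m hm m' q hxm h1 h2 h3).1, h3⟩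
  -- the degrees
  have hY3 : ∀ l ∈ Y, 3 ≤ {x | x ∈ X ∧ I x l}.ncard := by
    intro l hl
    obtain ⟨y, hy1, hy2⟩ := ex2 l hl
    have h0 : 0 < {x | x ∈ X ∧ I x l}.ncard := (Set.ncard_pos).2 ⟨y, hy1, hy2⟩
    rw [hYd] at hl
    refine res' hk hk3 r hr hrn _ ?_ h0
    have h1 := set_modEq b r hb {y : P | I y l} (fun y hy => by
      have := (hG b y l).2 hy
      rwa [show b • l = l from hl] at this)
    rw [hI.card_on_line l] at h1
    have h2 : {x | x ∈ X ∧ I x l} = {y ∈ {y : P | I y l} | b • y = y} := by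
      ext y
      rw [hXd]
      exact and_comm
    rw [h2]
    exact h1
  have hX3 : ∀ x ∈ X, 3 ≤ {l | l ∈ Y ∧ I x l}.ncard := by
    intro x hx
    obtain ⟨m, hm1, hm2⟩ := ex1 x hx
    have h0 : 0 < {l | l ∈ Y ∧ I x l}.ncard := (Set.ncard_pos).2 ⟨m, hm1, hm2⟩
    rw [hXd] at hx
    refine res' hk hk3 r hr hrn _ ?_ h0
    have h1 := set_modEq b r hb {l : L | I x l} (fun l hl => by
      have := (hG b x l).2 hl
      rwa [show b • x = x from hx] at this)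
    rw [hI.card_through_point x] at h1
    have h2 : {l | l ∈ Y ∧ I x l} = {l ∈ {l : L | I x l} | b • l = l} := by
      ext l
      rw [hYd]
      exact and_comm
    rw [h2]
    exact h1
  obtain ⟨a, ha⟩ : ∃ a, a = {x | x ∈ X ∧ I x l}.ncard := ⟨_, rfl⟩
  obtain ⟨c, hc⟩ : ∃ c, c = {l | l ∈ Y ∧ I x l}.ncard := ⟨_, rfl⟩
  have hYa : ∀ m ∈ Y, {x | x ∈ X ∧ I x m}.ncard = a := by
    intro m hm
    rw [ha]
    exact J2.const hI hT hn hk3 X Y hC hX3 hY3 m l hm hlY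
  have hXc : ∀ y ∈ X, {l | l ∈ Y ∧ I y l}.ncard = c := by
    intro y hy
    rw [hc]
    exact J2.const (I := fun l p => I p l) hI' hT' hn hk3 Y X hC' hY3 hX3 y x hy hxX
  have ha3 : 3 ≤ a := ha ▸ hY3 l hlY
  have hc3 : 3 ≤ c := hc ▸ hX3 x hxX
  -- `a = k` and `c = k` is impossible
  have hboth : ¬ (a = k ∧ c = k) := by
    rintro ⟨hak, hck⟩
    have f1 : ∀ l ∈ Y, ∀ y, I y l → y ∈ X := by
      intro l hl y hy
      have h1 : {x | x ∈ X ∧ I x l} = {x | I x l} := by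
        apply Set.eq_of_subset_of_ncard_le (fun z hz => hz.2)
        rw [hI.card_on_line l, hYa l hl, hak]
      have h2 : y ∈ {x | x ∈ X ∧ I x l} := by rw [h1]; exact hy
      exact h2.1
    have f2 : ∀ y ∈ X, ∀ l, I y l → l ∈ Y := by
      intro y hy l hl
      have h1 : {l | l ∈ Y ∧ I y l} = {l | I y l} := by
        apply Set.eq_of_subset_of_ncard_le (fun z hz => hz.2)
        rw [hI.card_through_point y, hXc y hy, hck]
      have h2 : l ∈ {l | l ∈ Y ∧ I y l} := by rw [h1]; exact hl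
      exact h2.1
    refine hb1 (hf b fun y => ?_)
    have hyX : y ∈ X := by
      have h1 : 1 < {l | I y l}.ncard := by rw [hI.card_through_point]; omega
      obtain ⟨l, m, hyl, -, -⟩ := (Set.one_lt_ncard_iff).1 h1
      by_cases hxl : I x l
      · exact f1 l (f2 x hxX l hxl) y hyl
      · obtain ⟨m, q, hm, hqm, hql⟩ := gq_axiom hI hT hn (by omega) x l hxl
        exact f1 l (f2 q (f1 m (f2 x hxX m hm) q hqm) l hql) y hyl
    rw [hXd] at hyX
    exact hyX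
  have i1 := J4.sub hI hT hn hk3 X Y hC a c (by omega) (by omega) hXc hYa x hxX
  have i2 := J4.sub (I := fun l p => I p l) hI' hT' hn hk3 Y X hC' c a (by omega) (by omega) hYa hXc l hlY
  have hprod : (a - 1) * (c - 1) ≤ k - 1 := by
    rcases i1 with h | h
    · rcases i2 with h' | h'
      · exact absurd ⟨h, h'⟩ hboth
      · rw [mul_comm]
        exact h'
    · exact h
  have e1 : {m | b • m = m ∧ I x m} = {l | l ∈ Y ∧ I x l} := by
    rw [hYd]
    rfl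
  have e2 : {y | b • y = y ∧ I y l} = {x | x ∈ X ∧ I x l} := by
    rw [hXd]
    rfl
  rw [e1, e2, ← ha, ← hc]
  refine ⟨⟨hc3, ?_⟩, ⟨ha3, ?_⟩⟩
  · exact (Nat.mul_le_mul_right (c - 1) (by omega : 2 ≤ a - 1)).trans hprod
  · rw [mul_comm] at hprod
    exact (Nat.mul_le_mul_right (a - 1) (by omega : 2 ≤ c - 1)).trans hprod

end Pool.Agent.Lib.MP_e0c1ed_co.Z2
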