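import Pool.Agent.Lib.MP_e0c1ed_co.Z0
import Pool.Agent.Lib.MP_e0c1ed_co.Z2
import Pool.Agent.Lib.MP_e0c1ed_co.K6

/-!
# MP_e0c1ed / Z3: a subgroup of order divisible by a prime divisor of `(k - 1)² + 1` moves a point to a collinear one
-/

set_option autoImplicit false

namespace Pool.Agent.Lib.MP_e0c1ed_co

open Pool.Agent.Results.MP_e0c1ed_co.SelfDualSquare Pool.Agent.Lib.MP_e0c1ed_co.Z0

section
variable {P L G : Type*} [Finite P] [Finite L] [Group G] [Finite G] [MulAction G P] [MulAction G L]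
  {I : P → L → Prop} {n k : ℕ}

/-- Some element of `T` moves a point to a collinear point. -/
theorem Z3.ex (hI : IsConfiguration I n k) (hT : TrilateralFree I) (hn : n = k * (k - 1) ^ 2 + k)
    (hk : k % 2 = 1) (hk3 : 3 ≤ k) (hG : ∀ (g : G) (p : P) (l : L), I (g • p) (g • l) ↔ I p l)
    (hf : ∀ g : G, (∀ p : P, g • p = p) → g = 1) (T : Subgroup G) (p : ℕ) (hp : p.Prime)
    (hps : p ∣ (k - 1) ^ 2 + 1) (hpT : p ∣ Nat.card T) : ∃ (x : P) (l : L), I x l ∧ R I T x l := by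
  classical
  have := Fact.mk hp
  obtain ⟨b, hb⟩ := exists_prime_orderOf_dvd_card' p hpT
  have hbp : (b : G) ^ p = 1 := by
    have h1 := pow_orderOf_eq_one b
    rw [hb] at h1
    exact_mod_cast congrArg Subtype.val h1
  have hb1 : (b : G) ≠ 1 := by
    intro h
    have h1 : b = 1 := Subtype.ext h
    rw [h1, orderOf_one] at hb
    exact hp.one_lt.ne hb
  by_cases hfix : ∃ x : P, (b : G) • x = x
  · obtain ⟨x, hx⟩ := hfix
    obtain ⟨l, hxl, hl⟩ := Z2.line hI hk hk3 hG p hp hps b hbp x hx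
    obtain ⟨-, h2⟩ := Z2.deg hI hT hn hk hk3 hG hf p hp (Or.inr hps) b hbp hb1 x l hx hl hxl
    have h3 : ∃ y, I y l ∧ (b : G) • y ≠ y := by
      by_contra hc
      push Not at hc
      have h4 : {y | (b : G) • y = y ∧ I y l} = {y | I y l} := by
        ext y
        exact ⟨fun h => h.2, fun h => ⟨hc y h, h⟩⟩
      rw [h4, hI.card_on_line l] at h2
      omega
    obtain ⟨y, hy, hby⟩ := h3
    refine ⟨y, l, hy, b, b.2, hby, ?_⟩
    have h5 := (hG b y l).2 hy
    rwa [hl] at h5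
  · push Not at hfix
    have h1 := K6.moved_sum hI hT hn hk hk3 hG p hp hps b hbp hfix
    have h2 : 0 < (p - 1) * ((k - 1) ^ 2 + 1) :=
      Nat.mul_pos (by have := hp.two_le; omega) (Nat.succ_pos _)
    rw [← h1] at h2
    obtain ⟨i, -, h3⟩ := Finset.exists_ne_zero_of_sum_ne_zero h2.ne'
    obtain ⟨y, hy1, l, hy2, hy3⟩ := Set.nonempty_of_ncard_ne_zero h3
    exact ⟨y, l, hy2, (b : G) ^ (i + 1), T.pow_mem b.2 _, hy1, hy3⟩

end

end Pool.Agent.Lib.MP_e0c1ed_co
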