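import Pool.Agent.Lib.MP_e0c1ed_co.H1

/-!
# MP_e0c1ed / Z4: the order of a normal subgroup of a flag transitive group is not prime to `k`
-/

set_option autoImplicit false

namespace Pool.Agent.Lib.MP_e0c1ed_co.Z4

open Pool.Agent.Results.MP_e0c1ed_co.SelfDualSquare Pool.Agent.Lib.MP_e0c1ed_co

variable {P L G : Type*} [Finite P] [Finite L] [Group G] [Finite G] [MulAction G P] [MulAction G L]
  {I : P → L → Prop} {n k : ℕ}

theorem not_coprime (hI : IsConfiguration I n k) (hT : TrilateralFree I) (hn : n = k * (k - 1) ^ 2 + k)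
    (hk : k % 2 = 1) (hk3 : 3 ≤ k) (hG : ∀ (g : G) (p : P) (l : L), I (g • p) (g • l) ↔ I p l)
    (hf : ∀ g : G, (∀ p : P, g • p = p) → g = 1)
    (hfl : ∀ (p q : P) (l m : L), I p l → I q m → ∃ g : G, g • p = q ∧ g • l = m)
    (N : Subgroup G) [N.Normal] (hne : N ≠ ⊥) : ¬ Nat.Coprime (Nat.card N) k := by
  intro hcop
  obtain ⟨e, r, he, hre, h1, -⟩ := H1.data hI hT hn hk hk3 hG hf hfl N hne
  have hn0 : n ≠ 0 := by rw [hn]; omega
  obtain ⟨x⟩ : Nonempty P := by
    rw [← Finite.card_pos_iff, hI.card_points]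
    exact Nat.pos_of_ne_zero hn0
  have h2 : (MulAction.orbit N x).ncard ∣ Nat.card N := by
    rw [← MulAction.index_stabilizer N x]
    exact Subgroup.index_dvd_card _
  rw [h1 x] at h2
  have h3 : e ∣ Nat.gcd (Nat.card N) k := Nat.dvd_gcd ((Dvd.intro _ rfl).trans h2) ⟨r, by rw [← hre]; ring⟩
  rw [hcop] at h3
  have := Nat.le_of_dvd one_pos h3
  omega

end Pool.Agent.Lib.MP_e0c1ed_co.Z4
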