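import Pool.Agent.Lib.MP_e0c1ed_co.Z0

/-!
# MP_e0c1ed / Z5: fibres of the index

If the set of the lines on `x` whose only index is `U` is not empty, every line on `x` has exactly one index (`G_x` is transitive on the lines on `x`) and all
fibres have the same number of elements; two different fibres and `k` odd: at least three.
-/

set_option autoImplicit false

namespace Pool.Agent.Lib.MP_e0c1ed_co

open Pool.Agent.Results.MP_e0c1ed_co.SelfDualSquare Pool.Agent.Lib.MP_e0c1ed_co.Z0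

namespace Z5

section
variable {P L G : Type*} [Finite P] [Finite L] [Group G] [Finite G] [MulAction G P] [MulAction G L]
  {I : P → L → Prop} {n k : ℕ}

/-- the lines on `x` whose only index is `U` -/
private def E (I : P → L → Prop) (F : Set (Subgroup G)) (x : P) (U : Subgroup G) : Set L :=
  {l | I x l ∧ ∀ V ∈ F, R I V x l → V = U}

private theorem cj_inv {g : G} {V W : Subgroup G} (h : cj g⁻¹ V = W) : V = cj g W := by
  rw [← h, cj_cj, mul_inv_cancel, cj_one]

private theorem E_smul (hG : ∀ (g : G) (p : P) (l : L), I (g • p) (g • l) ↔ I p l)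
    (F : Set (Subgroup G)) (hF : ∀ V ∈ F, ∀ g : G, cj g V ∈ F) (x : P) (U : Subgroup G) (g : G) (hg : g • x = x)
    (l : L) (hl : l ∈ E I F x U) : g • l ∈ E I F x (cj g U) := by
  refine ⟨?_, fun V hV hR => ?_⟩
  · have h1 := (hG g x l).2 hl.1
    rwa [hg] at h1
  · have h1 : R I (cj g⁻¹ V) x l := by
      have h2 := (R_cj_iff hG V x (g • l) g⁻¹).2 hR
      have h3 : g⁻¹ • x = x := by
        rw [inv_smul_eq_iff]
        exact hg.symm
      rwa [h3, inv_smul_smul] at h2
    exact cj_inv (hl.2 _ (hF V hV g⁻¹) h1)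

private theorem card_E (hG : ∀ (g : G) (p : P) (l : L), I (g • p) (g • l) ↔ I p l)
    (F : Set (Subgroup G)) (hF : ∀ V ∈ F, ∀ g : G, cj g V ∈ F) (x : P) (U : Subgroup G) (g : G) (hg : g • x = x) :
    (E I F x U).ncard ≤ (E I F x (cj g U)).ncard := by
  refine Set.ncard_le_ncard_of_injOn (fun l => g • l) (fun l hl => E_smul hG F hF x U g hg l hl) ?_ (Set.toFinite _)
  intro a _ b _ h
  exact smul_left_cancel g h

theorem third (hI : IsConfiguration I n k) (hk : k % 2 = 1) (hk3 : 3 ≤ k)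
    (hG : ∀ (g : G) (p : P) (l : L), I (g • p) (g • l) ↔ I p l)
    (hfl : ∀ (p q : P) (l m : L), I p l → I q m → ∃ g : G, g • p = q ∧ g • l = m)
    (F : Set (Subgroup G)) (hF : ∀ V ∈ F, ∀ g : G, cj g V ∈ F)
    (hR : ∀ (x : P) (l : L), I x l → ∃ V ∈ F, R I V x l) (x : P) (U : Subgroup G) (hU : U ∈ F)
    (l0 : L) (hl0 : I x l0) (V0 : Subgroup G) (hV0 : V0 ∈ F) (hR0 : R I V0 x l0) (hne : V0 ≠ U) :
    3 * {l | I x l ∧ ∀ V ∈ F, R I V x l → V = U}.ncard ≤ k := by
  change 3 * (E I F x U).ncard ≤ k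
  rcases (E I F x U).eq_empty_or_nonempty with h0 | ⟨l1, hl1⟩
  · rw [h0, Set.ncard_empty]
    omega
  -- every line on `x` lies in a fibre of the same size
  have hfib : ∀ l, I x l → ∃ W, l ∈ E I F x W ∧ (E I F x U).ncard ≤ (E I F x W).ncard ∧
      (E I F x W).ncard ≤ (E I F x U).ncard := by
    intro l hl
    obtain ⟨g, hg, hgl⟩ := hfl x x l1 l hl1.1 hl
    refine ⟨cj g U, ?_, card_E hG F hF x U g hg, ?_⟩
    · rw [← hgl]
      exact E_smul hG F hF x U g hg l1 hl1
    · have h3 : g⁻¹ • x = x := by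
        rw [inv_smul_eq_iff]
        exact hg.symm
      have h4 := card_E hG F hF x (cj g U) g⁻¹ h3
      rwa [cj_cj, inv_mul_cancel, cj_one] at h4
  have hdis : ∀ W W' : Subgroup G, W ≠ W' → Disjoint (E I F x W) (E I F x W') := by
    intro W W' hW
    rw [Set.disjoint_left]
    intro l h1 h2
    obtain ⟨V, hV, hVR⟩ := hR x l h1.1
    exact hW ((h1.2 V hV hVR).symm.trans (h2.2 V hV hVR))
  obtain ⟨W0, hW0, hle0, hge0⟩ := hfib l0 hl0
  have hW0' : W0 = V0 := (hW0.2 V0 hV0 hR0).symm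
  rw [hW0'] at hle0 hge0
  have hk0 : {l | I x l}.ncard = k := hI.card_through_point x
  have hsub : ∀ W, E I F x W ⊆ {l | I x l} := fun W l hl => hl.1
  by_cases hall : ∀ l, I x l → l ∈ E I F x U ∪ E I F x V0
  · have h1 : {l | I x l} = E I F x U ∪ E I F x V0 :=
      Set.Subset.antisymm hall (Set.union_subset (hsub _) (hsub _))
    have h2 := Set.ncard_union_eq (hdis U V0 hne.symm) (Set.toFinite _) (Set.toFinite _)
    rw [← h1, hk0] at h2
    omega
  · push Not at hall
    obtain ⟨l2, hl2, hn2⟩ := hall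
    obtain ⟨W, hW, hle, hge⟩ := hfib l2 hl2
    have hWU : W ≠ U := by
      rintro rfl
      exact hn2 (Or.inl hW)
    have hWV : W ≠ V0 := by
      rintro rfl
      exact hn2 (Or.inr hW)
    have h2 := Set.ncard_union_eq (hdis U V0 hne.symm) (Set.toFinite _) (Set.toFinite _)
    have h3 : Disjoint (E I F x U ∪ E I F x V0) (E I F x W) :=
      Set.disjoint_union_left.2 ⟨hdis U W hWU.symm, hdis V0 W hWV.symm⟩
    have h4 := Set.ncard_union_eq h3 (Set.toFinite _) (Set.toFinite _)
    have h5 : (E I F x U ∪ E I F x V0 ∪ E I F x W).ncard ≤ {l | I x l}.ncard :=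
      Set.ncard_le_ncard (Set.union_subset (Set.union_subset (hsub _) (hsub _)) (hsub _)) (Set.toFinite _)
    rw [hk0, h4, h2] at h5
    omega

end

end Z5

end Pool.Agent.Lib.MP_e0c1ed_co
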