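import Pool.Agent.Lib.MP_e0c1ed_co.Z2
import Pool.Agent.Lib.MP_e0c1ed_co.Z3
import Pool.Agent.Lib.MP_e0c1ed_co.Z4
import Pool.Agent.Lib.MP_e0c1ed_co.Z5
import Pool.Agent.Lib.MP_e0c1ed_co.F3
import Pool.Agent.Lib.MP_e0c1ed_co.H6

/-!
# MP_e0c1ed / Z6: all lines on a point have the same single index
-/

set_option autoImplicit false

namespace Pool.Agent.Lib.MP_e0c1ed_co.Z6

open Pool.Agent.Results.MP_e0c1ed_co.SelfDualSquare Pool.Agent.Lib.MP_e0c1ed_co
open Pool.Agent.Lib.MP_e0c1ed_co.Z0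

/-- different conjugates commute -/
theorem comm' {G : Type*} [Group G] {M T : Subgroup G} (hF : Fam M T) (g h : G) (hne : cj g T ≠ cj h T)
    (a : G) (ha : a ∈ cj g T) (b : G) (hb : b ∈ cj h T) : a * b = b * a := by
  rcases hF.comm (h⁻¹ * g) with h1 | h1
  · exfalso
    apply hne
    have h2 : cj h (cj (h⁻¹ * g) T) = cj h T := by rw [h1]
    rwa [cj_cj, mul_inv_cancel_left] at h2
  · have h3 : h⁻¹ * a * h ∈ cj (h⁻¹ * g) T := by
      rw [mem_cj] at ha ⊢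
      have : (h⁻¹ * g)⁻¹ * (h⁻¹ * a * h) * (h⁻¹ * g) = g⁻¹ * a * g := by group
      rwa [this]
    have h4 : h⁻¹ * b * h ∈ T := mem_cj.1 hb
    have h5 := h1 _ h3 _ h4
    have h6 : h * ((h⁻¹ * a * h) * (h⁻¹ * b * h)) * h⁻¹ = a * b := by group
    have h7 : h * ((h⁻¹ * b * h) * (h⁻¹ * a * h)) * h⁻¹ = b * a := by group
    rw [← h6, ← h7, h5]

variable {P L G : Type*} [Finite P] [Finite L] [Group G] [Finite G] [MulAction G P] [MulAction G L]
  {I : P → L → Prop} {n k : ℕ}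

theorem exists_elt' (W : Subgroup G) (r : ℕ) (hr : r.Prime) (hd : r ∣ Nat.card W) :
    ∃ b ∈ W, b ^ r = 1 ∧ b ≠ 1 := by
  have := Fact.mk hr
  obtain ⟨a, ha⟩ := exists_prime_orderOf_dvd_card' r hd
  refine ⟨a.1, a.2, ?_, ?_⟩
  · have h1 := pow_orderOf_eq_one a
    rw [ha] at h1
    exact congrArg Subtype.val h1
  · intro h1
    have h2 : a = 1 := Subtype.ext h1
    rw [h2, orderOf_one] at ha
    exact hr.one_lt.ne ha

theorem caseB (hI : IsConfiguration I n k) (hT : TrilateralFree I) (hn : n = k * (k - 1) ^ 2 + k)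
    (hk : k % 2 = 1) (hk3 : 3 ≤ k) (hG : ∀ (g : G) (p : P) (l : L), I (g • p) (g • l) ↔ I p l)
    (hf : ∀ g : G, (∀ p : P, g • p = p) → g = 1)
    (hfl : ∀ (p q : P) (l m : L), I p l → I q m → ∃ g : G, g • p = q ∧ g • l = m)
    (M T : Subgroup G) (hF : Fam M T) (x : P) :
    ∃ g : G, ∀ l : L, I x l → ∀ h : G, R I (cj h T) x l ↔ cj h T = cj g T := by
  classical
  by_contra hcon
  have hMn : M.Normal := hF.normal
  obtain ⟨F, hFd⟩ : ∃ F : Set (Subgroup G), F = {V | ∃ g, V = cj g T} := ⟨_, rfl⟩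
  have hmem : ∀ g : G, cj g T ∈ F := fun g => by rw [hFd]; exact ⟨g, rfl⟩
  have hFc : ∀ V ∈ F, ∀ g : G, cj g V ∈ F := by
    intro V hV g
    rw [hFd] at hV
    obtain ⟨h, rfl⟩ := hV
    rw [cj_cj]
    exact hmem _
  have ht : ∀ p q : P, ∃ g : G, g • p = q := by
    intro p q
    obtain ⟨l1, h1⟩ := F2.ex_line hI hk3 p
    obtain ⟨l2, h2⟩ := F2.ex_line hI hk3 q
    obtain ⟨h, h3, -⟩ := hfl p q l1 l2 h1 h2
    exact ⟨h, h3⟩
  -- a prime factor of `s² + 1`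
  obtain ⟨p, hp, hps⟩ := Nat.exists_prime_and_dvd (n := (k - 1) ^ 2 + 1) (by
    have : 0 < (k - 1) ^ 2 := Nat.pow_pos (by omega)
    omega)
  have hpT : p ∣ Nat.card T :=
    hF.dvd p hp (hps.trans (H6.card_normal hI hT hn hk hk3 hG hf hfl M hF.ne).1)
  obtain ⟨x1, l1, hx1, hR1⟩ := Z3.ex hI hT hn hk hk3 hG hf T p hp hps hpT
  have hR : ∀ (x : P) (l : L), I x l → ∃ V ∈ F, R I V x l := by
    intro x l hxl
    obtain ⟨g, rfl, rfl⟩ := hfl x1 x l1 l hx1 hxl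
    exact ⟨cj g T, hmem g, R_cj hG T x1 l1 g hR1⟩
  -- the lines with an index different from `W` are fixed by the elements of `W` which fix `x`
  have hfix : ∀ V ∈ F, ∀ W ∈ F, V ≠ W → ∀ l, I x l → R I V x l → ∀ b ∈ W, b • x = x → b • l = l := by
    intro V hV W hW hne l hxl hRV b hb hbx
    rw [hFd] at hV hW
    obtain ⟨g1, rfl⟩ := hV
    obtain ⟨g2, rfl⟩ := hW
    obtain ⟨a, ha, ha1, ha2⟩ := hRV
    have hab := comm' hF g1 g2 hne a ha b hb
    have e1 : b • (a • x) = a • x := by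
      rw [← mul_smul, ← hab, mul_smul, hbx]
    have e2 : I x (b • l) := by
      have := (hG b x l).2 hxl
      rwa [hbx] at this
    have e3 : I (a • x) (b • l) := by
      have := (hG b (a • x) l).2 ha2
      rwa [e1] at this
    exact hI.unique_line x (a • x) (b • l) l (fun h => ha1 h.symm) e2 e3 hxl ha2
  -- few lines have the only index `W`
  have hE : ∀ W ∈ F, 3 * {l | I x l ∧ ∀ V ∈ F, R I V x l → V = W}.ncard ≤ k := by
    intro W hW
    by_cases h0 : ∃ l0, I x l0 ∧ ∃ V0 ∈ F, R I V0 x l0 ∧ V0 ≠ W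
    · obtain ⟨l0, h1, V0, h2, h3, h4⟩ := h0
      exact Z5.third hI hk hk3 hG hfl F hFc hR x W hW l0 h1 V0 h2 h3 h4
    · exfalso
      push Not at h0
      have hW' := hW
      rw [hFd] at hW'
      obtain ⟨g, rfl⟩ := hW'
      refine hcon ⟨g, fun l hxl h => ⟨fun h1 => h0 l hxl _ (hmem h) h1, fun h1 => ?_⟩⟩
      obtain ⟨V, hV, hRV⟩ := hR x l hxl
      rw [h1, ← h0 l hxl V hV hRV]
      exact hRV
  -- no element of prime order of a conjugate fixes `x`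
  have hfree : ∀ W ∈ F, ∀ r : ℕ, r.Prime → (r ∣ k ∨ r ∣ (k - 1) ^ 2 + 1) → ∀ b ∈ W, b ^ r = 1 → b ≠ 1 →
      b • x ≠ x := by
    intro W hW r hr hrn b hb hbr hb1 hbx
    have h1 : {l | I x l} ⊆ {l | I x l ∧ ∀ V ∈ F, R I V x l → V = W} ∪ {m | b • m = m ∧ I x m} := by
      intro l hl
      by_cases h : ∀ V ∈ F, R I V x l → V = W
      · exact Or.inl ⟨hl, h⟩
      · push Not at h
        obtain ⟨V, hV, hRV, hne⟩ := h
        exact Or.inr ⟨hfix V hV W hW hne l hl hRV b hb hbx, hl⟩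
    have h2 := (Set.ncard_le_ncard h1 (Set.toFinite _)).trans (Set.ncard_union_le _ _)
    rw [hI.card_through_point x] at h2
    have h3 := hE W hW
    obtain ⟨l, hl1, hl2⟩ : {m | b • m = m ∧ I x m}.Nonempty := by
      rw [← Set.ncard_pos]
      omega
    obtain ⟨⟨h4, h5⟩, -⟩ := Z2.deg hI hT hn hk hk3 hG hf r hr hrn b hbr hb1 x l hbx hl1 hl2
    omega
  have hfree' : ∀ W ∈ F, ∀ r : ℕ, r.Prime → (r ∣ k ∨ r ∣ (k - 1) ^ 2 + 1) → ∀ b ∈ W, b ^ r = 1 → b ≠ 1 →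
      ∀ y : P, b • y ≠ y := by
    intro W hW r hr hrn b hb hbr hb1 y hby
    obtain ⟨g, hg⟩ := ht y x
    refine hfree (cj g W) (hFc W hW g) r hr hrn (g * b * g⁻¹) ?_ ?_ ?_ ?_
    · rw [mem_cj]
      have : g⁻¹ * (g * b * g⁻¹) * g = b := by group
      rwa [this]
    · rw [conj_pow, hbr, mul_one, mul_inv_cancel]
    · intro h
      apply hb1
      have h2 : g⁻¹ * (g * b * g⁻¹) * g = b := by group
      rw [← h2, h]
      group
    · rw [← hg, ← mul_smul, inv_mul_cancel_right, mul_smul, hby]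
  -- the order of `M` is prime to `k`
  obtain ⟨g0, hg0⟩ := hF.two
  have hTF : T ∈ F := by
    have := hmem 1
    rwa [cj_one] at this
  obtain ⟨a, ha, hap, ha1⟩ := exists_elt' T p hp hpT
  refine Z4.not_coprime hI hT hn hk hk3 hG hf hfl M hF.ne (Nat.coprime_of_dvd fun q hq h1 h2 => ?_)
  have h3 : q ∣ Nat.card (cj g0 T) := by
    rw [card_cj]
    exact hF.dvd q hq h1
  obtain ⟨b, hb, hbq, hb1⟩ := exists_elt' (cj g0 T) q hq h3
  have hab : a * b = b * a := by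
    refine comm' hF 1 g0 ?_ a ?_ b hb
    · rw [cj_one]
      exact fun h => hg0 h.symm
    · rwa [cj_one]
  exact F3.no_pair hI hT hn hk hk3 hG a b hab p q hp hq hps h2 hap hbq
    (hfree' T hTF p hp (Or.inr hps) a ha hap ha1) (hfree' _ (hmem g0) q hq (Or.inl h2) b hb hbq hb1)

end Pool.Agent.Lib.MP_e0c1ed_co.Z6
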