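import Pool.Agent.Lib.MP_e0c1ed_co.Z6
import Pool.Agent.Lib.MP_e0c1ed_co.H4
import Pool.Agent.Lib.MP_e0c1ed_co.Aut

/-!
# MP_e0c1ed / Z7: there is no family of at least two commuting conjugates
-/

set_option autoImplicit false

namespace Pool.Agent.Lib.MP_e0c1ed_co.Z7

open Pool.Agent.Results.MP_e0c1ed_co.SelfDualSquare Pool.Agent.Lib.MP_e0c1ed_co
open Pool.Agent.Lib.MP_e0c1ed_co.Z0

variable {P L G : Type*} [Finite P] [Finite L] [Group G] [Finite G] [MulAction G P] [MulAction G L]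
  {I : P → L → Prop} {n k : ℕ}

theorem no_fam (hI : IsConfiguration I n k) (hT : TrilateralFree I) (hn : n = k * (k - 1) ^ 2 + k)
    (hk : k % 2 = 1) (hk3 : 3 ≤ k) (hG : ∀ (g : G) (p : P) (l : L), I (g • p) (g • l) ↔ I p l)
    (hf : ∀ g : G, (∀ p : P, g • p = p) → g = 1)
    (hfl : ∀ (p q : P) (l m : L), I p l → I q m → ∃ g : G, g • p = q ∧ g • l = m)
    (M T : Subgroup G) : ¬ Fam M T := by
  classical
  intro hF
  have hMn : M.Normal := hF.normal
  -- the dual structure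
  obtain ⟨hI', hT'⟩ := Aut.dualize I n k hI hT
  have hG' : ∀ (g : G) (l : L) (p : P), (fun l p => I p l) (g • l) (g • p) ↔ (fun l p => I p l) l p :=
    fun g l p => hG g p l
  have hf' : ∀ g : G, (∀ l : L, g • l = l) → g = 1 := by
    intro g hg
    refine hf g fun p => ?_
    have h1 : 1 < {l | I p l}.ncard := by rw [hI.card_through_point]; omega
    obtain ⟨l, m, hl, hm, hlm⟩ := (Set.one_lt_ncard_iff).1 h1
    by_contra hp
    have h2 : I (g • p) l := by
      have := (hG g p l).2 hl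
      rwa [hg l] at this
    have h3 : I (g • p) m := by
      have := (hG g p m).2 hm
      rwa [hg m] at this
    exact hlm (hI.unique_line (g • p) p l m hp h2 hl h3 hm)
  have hfl' : ∀ (l m : L) (p q : P), (fun l p => I p l) l p → (fun l p => I p l) m q →
      ∃ g : G, g • l = m ∧ g • p = q := by
    intro l m p q h1 h2
    obtain ⟨g, h3, h4⟩ := hfl p q l m h1 h2
    exact ⟨g, h4, h3⟩
  have hB := Z6.caseB hI hT hn hk hk3 hG hf hfl M T hF
  have hB' := Z6.caseB (I := fun l p => I p l) hI' hT' hn hk hk3 hG' hf' hfl' M T hF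
  choose u hu using hB
  choose v hv using hB'
  have hln : ∀ y : P, ∃ l, I y l := fun y => F2.ex_line hI hk3 y
  have hpt : ∀ l : L, ∃ y, I y l := fun l => F2.ex_line (I := fun l p => I p l) hI' hk3 l
  -- equivariance
  have equ : ∀ (g : G) (x : P), cj (u (g • x)) T = cj (g * u x) T := by
    intro g x
    obtain ⟨l, hl⟩ := hln x
    have h1 : R I (cj (u x) T) x l := (hu x l hl (u x)).2 rfl
    have h2 := R_cj hG _ x l g h1
    rw [cj_cj] at h2
    exact ((hu (g • x) (g • l) ((hG g x l).2 hl) _).1 h2).symm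
  have eqv : ∀ (g : G) (l : L), cj (v (g • l)) T = cj (g * v l) T := by
    intro g l
    obtain ⟨x, hx⟩ := hpt l
    have h1 : R (fun l p => I p l) (cj (v l) T) l x := (hv l x hx (v l)).2 rfl
    have h2 := R_cj (I := fun l p => I p l) hG' _ l x g h1
    rw [cj_cj] at h2
    exact ((hv (g • l) (g • x) ((hG g x l).2 hx) _).1 h2).symm
  -- constant on the orbits of `M`
  have hMu : ∀ m ∈ M, ∀ x : P, cj (u (m • x)) T = cj (u x) T := by
    intro m hm x
    rw [equ, ← cj_cj]
    exact cj_eq_self (inv_cj hMn hF.inv (u x)) m hm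
  -- a flag with `u x = v l`
  obtain ⟨e, he3, -, hmeet⟩ := H4.meet hI hT hn hk hk3 hG hf hfl M hF.ne
  have hn1 : 0 < n := by
    rw [hn]
    have : 1 ≤ k * (k - 1) ^ 2 := Nat.mul_pos (by omega) (Nat.pow_pos (by omega))
    omega
  obtain ⟨l0⟩ : Nonempty L := by
    rw [← Finite.card_pos_iff, hI.card_lines]
    exact hn1
  obtain ⟨z, hz⟩ := hpt l0
  have h1 := hmeet ((v l0 * (u z)⁻¹) • z) l0
  obtain ⟨x0, hx0, m0, hm0, hmx⟩ : {y | I y l0 ∧ ∃ g ∈ M, g • ((v l0 * (u z)⁻¹) • z) = y}.Nonempty := by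
    rw [← Set.ncard_pos, h1]
    omega
  have h2 : cj (u x0) T = cj (v l0) T := by
    rw [← hmx, hMu m0 hm0, equ]
    congr 1
    group
  have hall : ∀ (x : P) (l : L), I x l → cj (u x) T = cj (v l) T := by
    intro x l hxl
    obtain ⟨g, rfl, rfl⟩ := hfl x0 x l0 l hx0 hxl
    rw [equ, eqv, ← cj_cj, ← cj_cj, h2]
  -- `u` is constant
  have hconst : ∀ x y : P, cj (u x) T = cj (u y) T := by
    intro x y
    obtain ⟨l, hyl⟩ := hln y
    by_cases hxl : I x l
    · rw [hall x l hxl, hall y l hyl]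
    · obtain ⟨m, q, hm, hqm, hql⟩ := gq_axiom hI hT hn (by omega) x l hxl
      rw [hall x m hm, ← hall q m hqm, hall q l hql, ← hall y l hyl]
  obtain ⟨g0, hg0⟩ := hF.two
  apply hg0
  have h3 := hconst (((u z)⁻¹) • z) ((g0 * (u z)⁻¹) • z)
  rw [equ, equ, inv_mul_cancel, cj_one, inv_mul_cancel_right] at h3
  exact h3.symm

end Pool.Agent.Lib.MP_e0c1ed_co.Z7
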