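import Pool.Agent.Lib.MP_e0c1ed_co.Z1
import Pool.Agent.Lib.MP_e0c1ed_co.Z7
import Pool.Agent.Lib.MP_e0c1ed_co.H4

/-!
# MP_e0c1ed / Z8: flag transitive groups are almost simple
-/

set_option autoImplicit false

namespace Pool.Agent.Lib.MP_e0c1ed_co.Z8

open Pool.Agent.Results.MP_e0c1ed_co.SelfDualSquare Pool.Agent.Lib.MP_e0c1ed_co

variable {P L G : Type*} [Finite P] [Finite L] [Group G] [Finite G] [MulAction G P] [MulAction G L]
  {I : P → L → Prop} {n k : ℕ}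

/-- **For odd `k` every flag transitive group is almost simple.** -/
theorem main (hI : IsConfiguration I n k) (hT : TrilateralFree I) (hn : n = k * (k - 1) ^ 2 + k)
    (hk : k % 2 = 1) (hk3 : 3 ≤ k) (hG : ∀ (g : G) (p : P) (l : L), I (g • p) (g • l) ↔ I p l)
    (hf : ∀ g : G, (∀ p : P, g • p = p) → g = 1)
    (hfl : ∀ (p q : P) (l m : L), I p l → I q m → ∃ g : G, g • p = q ∧ g • l = m) :
    ∃ T : Subgroup G, T.Normal ∧ IsSimpleGroup T ∧ (∃ a b : T, a * b ≠ b * a) ∧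
      Subgroup.centralizer (T : Set G) = ⊥ := by
  have hnt : Nontrivial G := by
    by_contra hcon
    rw [not_nontrivial_iff_subsingleton] at hcon
    have h1 : 1 < Nat.card P := by
      rw [hI.card_points, hn]
      have : 1 ≤ k * (k - 1) ^ 2 := Nat.mul_pos (by omega) (Nat.pow_pos (by omega))
      omega
    have := Finite.one_lt_card_iff_nontrivial.1 h1
    obtain ⟨p, q, hpq⟩ := exists_pair_ne P
    obtain ⟨l, hl⟩ := F2.ex_line hI hk3 p
    obtain ⟨m, hm⟩ := F2.ex_line hI hk3 q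
    obtain ⟨g, hg, -⟩ := hfl p q l m hl hm
    rw [Subsingleton.elim g 1, one_smul] at hg
    exact hpq hg
  refine Z1.reduce (fun A B hA hB hA0 hB0 hAB => ?_) fun M T => Z7.no_fam hI hT hn hk hk3 hG hf hfl M T
  exact F5.no_commuting hI hT hn hk hk3 hG hf hfl A B hA0 hB0 hAB

/-- **The theorem on flag transitive groups**: almost simple, the simple normal subgroup lies in all nontrivial normal
subgroups, and the orbits of these. -/
theorem flag (hI : IsConfiguration I n k) (hT : TrilateralFree I) (hn : n = k * (k - 1) ^ 2 + k)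
    (hk : k % 2 = 1) (hk3 : 3 ≤ k) (hG : ∀ (g : G) (p : P) (l : L), I (g • p) (g • l) ↔ I p l)
    (hf : ∀ g : G, (∀ p : P, g • p = p) → g = 1)
    (hfl : ∀ (p q : P) (l m : L), I p l → I q m → ∃ g : G, g • p = q ∧ g • l = m) :
    (∃ T : Subgroup G, (T.Normal ∧ IsSimpleGroup T ∧ (∃ a b : T, a * b ≠ b * a) ∧
      Subgroup.centralizer (T : Set G) = ⊥) ∧ ∀ N : Subgroup G, N.Normal → N ≠ ⊥ → T ≤ N) ∧
    (∀ N : Subgroup G, N.Normal → N ≠ ⊥ →
      (∃ e : ℕ, 3 ≤ e ∧ e ∣ k ∧ ∀ (x : P) (l : L), {y | I y l ∧ ∃ g ∈ N, g • x = y}.ncard = e) ∧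
      (∃ e : ℕ, 3 ≤ e ∧ e ∣ k ∧ ∀ (l : L) (x : P), {m | I x m ∧ ∃ g ∈ N, g • l = m}.ncard = e)) ∧
    (k.Prime → ∀ N : Subgroup G, N.Normal → N ≠ ⊥ →
      ∀ (p q : P) (l m : L), I p l → I q m → ∃ g ∈ N, g • p = q ∧ g • l = m) := by
  obtain ⟨T, hT1, hT2, hT3, hT4⟩ := main hI hT hn hk hk3 hG hf hfl
  obtain ⟨⟨M, hM1, hM2, hM3, -⟩, h2, -, h4⟩ := H4.flag hI hT hn hk hk3 hG hf hfl
  refine ⟨⟨T, ⟨hT1, hT2, hT3, hT4⟩, fun N hN hNe => ?_⟩, h2, h4⟩
  have hT0 : T ≠ ⊥ := by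
    rintro rfl
    obtain ⟨a, b, hab⟩ := hT3
    exact hab (by rw [Subsingleton.elim a b])
  have hMT : M ≤ T := hM3 T hT1 hT0
  have hn1 : (M.subgroupOf T).Normal := inferInstance
  rcases hT2.eq_bot_or_eq_top_of_normal _ hn1 with h | h
  · rw [Subgroup.subgroupOf_eq_bot, disjoint_iff, inf_eq_left.2 hMT] at h
    exact absurd h hM2
  · exact (Subgroup.subgroupOf_eq_top.1 h).trans (hM3 N hN hNe)

end Pool.Agent.Lib.MP_e0c1ed_co.Z8
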